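import Pool.Agent.Work.MP_a9fb1f_gt.Defs

-- merged part: Pool.Agent.Work.MP_a9fb1f_gt.JetDefs
section
/-! Jets of order two in two variables: definitions. -/

set_option autoImplicit false

open scoped Manifold ContDiff Topology ENNReal Bundle RealInnerProductSpace
open Filter Set

namespace Pool.Agent.Work.MP_a9fb1f_gt

noncomputable section

@[ext] structure Jet where
  v : ℝ
  a : ℝ
  b : ℝ
  aa : ℝ
  ab : ℝ
  bb : ℝ

namespace Jet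

def cst (c : ℝ) : Jet := ⟨c, 0, 0, 0, 0, 0⟩
def x1 (t : ℝ) : Jet := ⟨t, 1, 0, 0, 0, 0⟩
def x2 (t : ℝ) : Jet := ⟨t, 0, 1, 0, 0, 0⟩

instance : Add Jet :=
  ⟨fun J K => ⟨J.v + K.v, J.a + K.a, J.b + K.b, J.aa + K.aa, J.ab + K.ab, J.bb + K.bb⟩⟩
instance : Sub Jet :=
  ⟨fun J K => ⟨J.v - K.v, J.a - K.a, J.b - K.b, J.aa - K.aa, J.ab - K.ab, J.bb - K.bb⟩⟩
instance : SMul ℝ Jet :=
  ⟨fun c J => ⟨c * J.v, c * J.a, c * J.b, c * J.aa, c * J.ab, c * J.bb⟩⟩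
instance : Mul Jet :=
  ⟨fun J K => ⟨J.v * K.v, J.a * K.v + J.v * K.a, J.b * K.v + J.v * K.b,
    J.aa * K.v + 2 * J.a * K.a + J.v * K.aa,
    J.ab * K.v + J.a * K.b + J.b * K.a + J.v * K.ab,
    J.bb * K.v + 2 * J.b * K.b + J.v * K.bb⟩⟩

/-- Composition with a function whose value and derivatives at `J.v` are `f0`, `f1`, `f2`. -/
def comp (J : Jet) (f0 f1 f2 : ℝ) : Jet :=
  ⟨f0, f1 * J.a, f1 * J.b, f2 * J.a ^ 2 + f1 * J.aa, f2 * J.a * J.b + f1 * J.ab,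
    f2 * J.b ^ 2 + f1 * J.bb⟩

def inv (J : Jet) : Jet := J.comp J.v⁻¹ (-(J.v ^ 2)⁻¹) (2 * (J.v ^ 3)⁻¹)
def log (J : Jet) : Jet := J.comp (Real.log J.v) J.v⁻¹ (-(J.v ^ 2)⁻¹)
def sqrt (J : Jet) : Jet := J.comp (√J.v) (2 * √J.v)⁻¹ (-(4 * √J.v ^ 3)⁻¹)

def hess (J : Jet) (v1 v2 : ℝ) : ℝ := J.aa * v1 ^ 2 + 2 * J.ab * v1 * v2 + J.bb * v2 ^ 2
def dd (J : Jet) (v1 v2 : ℝ) : ℝ := J.a * v1 + J.b * v2

variable (J K : Jet) (c f0 f1 f2 : ℝ)

@[simp] lemma cst_v : (cst c).v = c := rfl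
@[simp] lemma cst_a : (cst c).a = 0 := rfl
@[simp] lemma cst_b : (cst c).b = 0 := rfl
@[simp] lemma cst_aa : (cst c).aa = 0 := rfl
@[simp] lemma cst_ab : (cst c).ab = 0 := rfl
@[simp] lemma cst_bb : (cst c).bb = 0 := rfl
@[simp] lemma x1_v : (x1 c).v = c := rfl
@[simp] lemma x1_a : (x1 c).a = 1 := rfl
@[simp] lemma x1_b : (x1 c).b = 0 := rfl
@[simp] lemma x1_aa : (x1 c).aa = 0 := rfl
@[simp] lemma x1_ab : (x1 c).ab = 0 := rfl
@[simp] lemma x1_bb : (x1 c).bb = 0 := rfl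
@[simp] lemma x2_v : (x2 c).v = c := rfl
@[simp] lemma x2_a : (x2 c).a = 0 := rfl
@[simp] lemma x2_b : (x2 c).b = 1 := rfl
@[simp] lemma x2_aa : (x2 c).aa = 0 := rfl
@[simp] lemma x2_ab : (x2 c).ab = 0 := rfl
@[simp] lemma x2_bb : (x2 c).bb = 0 := rfl
@[simp] lemma add_v : (J + K).v = J.v + K.v := rfl
@[simp] lemma add_a : (J + K).a = J.a + K.a := rfl
@[simp] lemma add_b : (J + K).b = J.b + K.b := rfl
@[simp] lemma add_aa : (J + K).aa = J.aa + K.aa := rfl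
@[simp] lemma add_ab : (J + K).ab = J.ab + K.ab := rfl
@[simp] lemma add_bb : (J + K).bb = J.bb + K.bb := rfl
@[simp] lemma sub_v : (J - K).v = J.v - K.v := rfl
@[simp] lemma sub_a : (J - K).a = J.a - K.a := rfl
@[simp] lemma sub_b : (J - K).b = J.b - K.b := rfl
@[simp] lemma sub_aa : (J - K).aa = J.aa - K.aa := rfl
@[simp] lemma sub_ab : (J - K).ab = J.ab - K.ab := rfl
@[simp] lemma sub_bb : (J - K).bb = J.bb - K.bb := rfl
@[simp] lemma smul_v : (c • J).v = c * J.v := rfl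
@[simp] lemma smul_a : (c • J).a = c * J.a := rfl
@[simp] lemma smul_b : (c • J).b = c * J.b := rfl
@[simp] lemma smul_aa : (c • J).aa = c * J.aa := rfl
@[simp] lemma smul_ab : (c • J).ab = c * J.ab := rfl
@[simp] lemma smul_bb : (c • J).bb = c * J.bb := rfl
@[simp] lemma mul_v : (J * K).v = J.v * K.v := rfl
@[simp] lemma mul_a : (J * K).a = J.a * K.v + J.v * K.a := rfl
@[simp] lemma mul_b : (J * K).b = J.b * K.v + J.v * K.b := rfl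
@[simp] lemma mul_aa : (J * K).aa = J.aa * K.v + 2 * J.a * K.a + J.v * K.aa := rfl
@[simp] lemma mul_ab : (J * K).ab = J.ab * K.v + J.a * K.b + J.b * K.a + J.v * K.ab := rfl
@[simp] lemma mul_bb : (J * K).bb = J.bb * K.v + 2 * J.b * K.b + J.v * K.bb := rfl
@[simp] lemma comp_v : (J.comp f0 f1 f2).v = f0 := rfl
@[simp] lemma comp_a : (J.comp f0 f1 f2).a = f1 * J.a := rfl
@[simp] lemma comp_b : (J.comp f0 f1 f2).b = f1 * J.b := rfl
@[simp] lemma comp_aa : (J.comp f0 f1 f2).aa = f2 * J.a ^ 2 + f1 * J.aa := rfl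
@[simp] lemma comp_ab : (J.comp f0 f1 f2).ab = f2 * J.a * J.b + f1 * J.ab := rfl
@[simp] lemma comp_bb : (J.comp f0 f1 f2).bb = f2 * J.b ^ 2 + f1 * J.bb := rfl

end Jet

def d1 (f : ℝ × ℝ → ℝ) (p : ℝ × ℝ) : ℝ := fderiv ℝ f p (1, 0)
def d2 (f : ℝ × ℝ → ℝ) (p : ℝ × ℝ) : ℝ := fderiv ℝ f p (0, 1)

/-- `J` is the jet of `f` at `p`. -/
structure HasJet (f : ℝ × ℝ → ℝ) (J : Jet) (p : ℝ × ℝ) : Prop where
  smooth : ContDiffAt ℝ 2 f p
  v : f p = J.v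
  a : d1 f p = J.a
  b : d2 f p = J.b
  aa : d1 (d1 f) p = J.aa
  ab : d2 (d1 f) p = J.ab
  ba : d1 (d2 f) p = J.ab
  bb : d2 (d2 f) p = J.bb

/-- Value and first two derivatives of a function of one variable. -/
structure Has2 (h : ℝ → ℝ) (x h0 h1 h2 : ℝ) : Prop where
  smooth : ContDiffAt ℝ 2 h x
  v : h x = h0
  d : deriv h x = h1
  dd : deriv (deriv h) x = h2

/-! The Ricci tensor of
`e^{2A} dξ² + e^{2B} dη² + e^{2F} (dθ² + sin² θ dφ²) + e^{2H} (dψ + cos θ dφ)²`. -/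

def R00 (A B F H : Jet) : ℝ :=
  -(B.aa + B.a ^ 2 - A.a * B.a) - Real.exp (2 * A.v - 2 * B.v) * (A.bb + A.b ^ 2 - A.b * B.b) -
    (2 * F.aa + H.aa + 2 * F.a ^ 2 + H.a ^ 2 - A.a * (2 * F.a + H.a) +
      Real.exp (2 * A.v - 2 * B.v) * A.b * (2 * F.b + H.b))

def R11 (A B F H : Jet) : ℝ :=
  -(A.bb + A.b ^ 2 - A.b * B.b) - Real.exp (2 * B.v - 2 * A.v) * (B.aa + B.a ^ 2 - A.a * B.a) -
    (2 * F.bb + H.bb + 2 * F.b ^ 2 + H.b ^ 2 - B.b * (2 * F.b + H.b) +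
      Real.exp (2 * B.v - 2 * A.v) * B.a * (2 * F.a + H.a))

def R01 (A B F H : Jet) : ℝ :=
  -(2 * F.ab + H.ab + 2 * F.a * F.b + H.a * H.b - A.b * (2 * F.a + H.a) - B.a * (2 * F.b + H.b))

def lap5 (A B F H U : Jet) : ℝ :=
  Real.exp (-2 * A.v) * (U.aa + U.a * (B.a + 2 * F.a + H.a - A.a)) +
    Real.exp (-2 * B.v) * (U.bb + U.b * (A.b + 2 * F.b + H.b - B.b))

def Rf (A B F H : Jet) : ℝ :=
  -lap5 A B F H F + Real.exp (-2 * F.v) - Real.exp (2 * H.v - 4 * F.v) / 2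

def Rh (A B F H : Jet) : ℝ := -lap5 A B F H H + Real.exp (2 * H.v - 4 * F.v) / 2

structure RicOK (A B F H : Jet) : Prop where
  base : ∀ v1 v2 : ℝ, 0 ≤ R00 A B F H * v1 ^ 2 + 2 * R01 A B F H * v1 * v2 + R11 A B F H * v2 ^ 2
  f : 0 ≤ Rf A B F H
  h : 0 ≤ Rh A B F H

end

end Pool.Agent.Work.MP_a9fb1f_gt
end

-- merged part: Pool.Agent.Work.MP_a9fb1f_gt.Amb
section
/-! The ambient space, the manifold as a subset, and invariant quadratic forms. -/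

set_option autoImplicit false

open scoped Manifold ContDiff Topology ENNReal Bundle RealInnerProductSpace
open Filter Set

namespace Pool.Agent.Work.MP_a9fb1f_gt

noncomputable section

abbrev V3 : Type := EuclideanSpace ℝ (Fin 3)
abbrev Mat : Type := EuclideanSpace ℝ (Fin 3 × Fin 3)
abbrev Amb : Type := ℝ × Mat × Mat

/-- The matrix `x yᵀ`. -/
def outer (x y : V3) : Mat := WithLp.toLp 2 fun ij => x ij.1 * y ij.2

/-- The points `(t, e eᵀ, ν eᵀ)` with `e` a unit vector and `ν ⊥ e`. -/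
def MS : Set Amb :=
  {p | ∃ e ν : V3, ‖e‖ = 1 ∧ ⟪ν, e⟫ = 0 ∧ p.2.1 = outer e e ∧ p.2.2 = outer ν e}

abbrev Mf : Type := ↥MS

/-- Tangent vectors. -/
def Tan (p w : Amb) : Prop :=
  ∃ e ν e' ν' : V3, ‖e‖ = 1 ∧ ⟪ν, e⟫ = 0 ∧ ⟪e', e⟫ = 0 ∧ ⟪ν', e⟫ + ⟪ν, e'⟫ = 0 ∧
    p.2.1 = outer e e ∧ p.2.2 = outer ν e ∧ w.2.1 = outer e' e + outer e e' ∧
    w.2.2 = outer ν' e + outer ν e'

def zz (p : Amb) : ℝ := ‖p.2.2‖ ^ 2
def ze (p w : Amb) : ℝ := ⟪p.2.2, w.2.2⟫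
def b5 (w : Amb) : ℝ := ‖w.2.1‖ ^ 2 / 2
def b4 (p w : Amb) : ℝ := ‖w.2.2‖ ^ 2 - ⟪w.2.1, p.2.2⟫ ^ 2 - zz p * b5 w

/-- The five coefficients of an invariant metric, as functions of `(t, z)`. -/
abbrev Ed : Type := ℝ × ℝ → Fin 5 → ℝ

def Qf (e : Fin 5 → ℝ) (a ζ β γ : ℝ) : ℝ :=
  e 0 * a ^ 2 + 2 * e 1 * a * ζ + e 2 * ζ ^ 2 + e 3 * β + e 4 * γ

def Gf (E : Ed) (p w : Amb) : ℝ := Qf (E (p.1, zz p)) w.1 (ze p w) (b4 p w) (b5 w)

/-- The constraints on the invariants of a tangent vector. -/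
structure Ad (z ζ β γ : ℝ) : Prop where
  z0 : 0 ≤ z
  b0 : 0 ≤ β
  c0 : 0 ≤ γ
  cs : ζ ^ 2 ≤ z * β

structure Good (E : Ed) : Prop where
  smooth : ∀ x : ℝ × ℝ, 0 ≤ x.2 → ContDiffAt ℝ ∞ E x
  pos : ∀ (x : ℝ × ℝ) (a ζ β γ : ℝ), Ad x.2 ζ β γ → (a ≠ 0 ∨ β ≠ 0 ∨ γ ≠ 0) →
    0 < Qf (E x) a ζ β γ

/-- The length distance. -/
def eD (E : Ed) (p q : Amb) : ℝ≥0∞ :=
  ⨅ (γ : ℝ → Amb) (_ : ContDiff ℝ 1 γ) (_ : ∀ s, γ s ∈ MS) (_ : γ 0 = p) (_ : γ 1 = q),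
    ∫⁻ s in Icc (0 : ℝ) 1, ENNReal.ofReal √(Gf E (γ s) (deriv γ s))

def dE (E : Ed) (p q : Mf) : ℝ := (eD E p q).toReal

/-- Dilation with centre on the axis. -/
def dilA (c r : ℝ) (p : Amb) : Amb := (c + r * p.1, p.2.1, r • p.2.2)

lemma outer_smul_left (r : ℝ) (x y : V3) : outer (r • x) y = r • outer x y := by
  ext ij
  simp [outer, mul_assoc]

lemma dilA_mem (c r : ℝ) {p : Amb} (hp : p ∈ MS) : dilA c r p ∈ MS := by
  obtain ⟨e, ν, h1, h2, h3, h4⟩ := hp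
  exact ⟨e, r • ν, h1, by rw [real_inner_smul_left, h2, mul_zero], h3, by
    simp only [dilA, h4, outer_smul_left]⟩

def dil (c r : ℝ) (p : Mf) : Mf := ⟨dilA c r p, dilA_mem c r p.2⟩

/-- The rescaled metric. -/
def resc (E : Ed) (c r : ℝ) : Ed := fun x =>
  ![E (c + r * x.1, r ^ 2 * x.2) 0, r * E (c + r * x.1, r ^ 2 * x.2) 1,
    r ^ 2 * E (c + r * x.1, r ^ 2 * x.2) 2, E (c + r * x.1, r ^ 2 * x.2) 3,
    E (c + r * x.1, r ^ 2 * x.2) 4 / r ^ 2]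

/-! Euler angles -/

def eE (θ φ : ℝ) : V3 := !₂[Real.sin θ * Real.cos φ, Real.sin θ * Real.sin φ, Real.cos θ]

def nE (θ φ ψ : ℝ) : V3 :=
  !₂[Real.cos ψ * (Real.cos θ * Real.cos φ) - Real.sin ψ * Real.sin φ,
    Real.cos ψ * (Real.cos θ * Real.sin φ) + Real.sin ψ * Real.cos φ, -(Real.cos ψ * Real.sin θ)]

def Fm (y : Eu 5) : Amb :=
  (y 0, outer (eE (y 2) (y 3)) (eE (y 2) (y 3)),
    outer (y 1 • nE (y 2) (y 3) (y 4)) (eE (y 2) (y 3)))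

/-! Charts -/

def xa (a : Fin 3) (u : Eu 5) : V3 :=
  WithLp.toLp 2 fun b => if b = a then 1 else if b = a + 1 then u 1 else u 2

def ya (a : Fin 3) (u : Eu 5) : V3 :=
  WithLp.toLp 2 fun b => if b = a then -(u 1 * u 3 + u 2 * u 4) else if b = a + 1 then u 3 else u 4

def iota (a : Fin 3) (u : Eu 5) : Amb :=
  (u 0, (‖xa a u‖ ^ 2)⁻¹ • outer (xa a u) (xa a u), (‖xa a u‖ ^ 2)⁻¹ • outer (ya a u) (xa a u))

def kap (a : Fin 3) (p : Amb) : Eu 5 :=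
  !₂[p.1, p.2.1 (a + 1, a) / p.2.1 (a, a), p.2.1 (a + 2, a) / p.2.1 (a, a),
    p.2.2 (a + 1, a) / p.2.1 (a, a), p.2.2 (a + 2, a) / p.2.1 (a, a)]

/-- The bilinear form of `Gf`. -/
def GA (E : Ed) (p : Amb) : Amb →L[ℝ] Amb →L[ℝ] ℝ :=
  let T : Amb →L[ℝ] ℝ := ContinuousLinearMap.fst ℝ ℝ (Mat × Mat)
  let P : Amb →L[ℝ] Mat :=
    (ContinuousLinearMap.fst ℝ Mat Mat).comp (ContinuousLinearMap.snd ℝ ℝ (Mat × Mat))
  let N : Amb →L[ℝ] Mat :=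
    (ContinuousLinearMap.snd ℝ Mat Mat).comp (ContinuousLinearMap.snd ℝ ℝ (Mat × Mat))
  let Z : Amb →L[ℝ] ℝ := (innerSL ℝ p.2.2).comp N
  let X : Amb →L[ℝ] ℝ := (innerSL ℝ p.2.2).comp P
  let I : Mat →L[ℝ] Mat →L[ℝ] ℝ := innerSL ℝ
  E (p.1, zz p) 0 • T.smulRight T + E (p.1, zz p) 1 • (T.smulRight Z + Z.smulRight T) +
    E (p.1, zz p) 2 • Z.smulRight Z +
    E (p.1, zz p) 3 • (I.bilinearComp N N - X.smulRight X) +
    ((E (p.1, zz p) 4 - zz p * E (p.1, zz p) 3) / 2) • I.bilinearComp P P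

/-- The coefficients of the metric in the chart `a`. -/
def gch (E : Ed) (a : Fin 3) (y : Eu 5) : Matrix (Fin 5) (Fin 5) ℝ := fun i j =>
  GA E (iota a y) (fderiv ℝ (iota a) y (EuclideanSpace.single i 1))
    (fderiv ℝ (iota a) y (EuclideanSpace.single j 1))

end

end Pool.Agent.Work.MP_a9fb1f_gt
end

-- merged part: Pool.Agent.Work.MP_a9fb1f_gt.PertDefs
section
/-! The bubble, the perturbative form of the Ricci tensor and the profiles: definitions. -/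

set_option autoImplicit false

open scoped Manifold ContDiff Topology ENNReal Bundle RealInnerProductSpace
open Filter Set

namespace Pool.Agent.Work.MP_a9fb1f_gt

noncomputable section

def bw (u : ℝ) : ℝ := √(1 + u ^ 2)
def bp (u : ℝ) : ℝ := bw u / 8 + 15 / 8
def phi (u : ℝ) : ℝ := √(bp u ^ 2 - 1)
def psi (u : ℝ) : ℝ := u * bp u / bw u
def psi1 (u : ℝ) : ℝ := 1 / 8 + 15 / 8 / bw u ^ 3
def psi2 (u : ℝ) : ℝ := -(45 / 8) * u / bw u ^ 5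
def phi1 (u : ℝ) : ℝ := psi u / (8 * phi u)
def phi2 (u : ℝ) : ℝ := (psi1 u / 8 - phi1 u ^ 2) / phi u
def sg1 (u : ℝ) : ℝ := 1 - u * phi1 u / phi u
def sg3 (u : ℝ) : ℝ := 1 - u * psi1 u / psi u
def sg (u : ℝ) : ℝ := 2 * sg1 u + sg3 u
def be (u : ℝ) : ℝ := -2 * phi2 u / phi u - psi2 u / psi u

/-- The jet of `S φ(P / S)`. -/
def PhiJ (S P : Jet) : Jet :=
  S * (P * S.inv).comp (phi (P.v / S.v)) (phi1 (P.v / S.v)) (phi2 (P.v / S.v))

/-- The jet of `S ψ(P / S)`. -/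
def PsiJ (S P : Jet) : Jet :=
  S * (P * S.inv).comp (psi (P.v / S.v)) (psi1 (P.v / S.v)) (psi2 (P.v / S.v))

def F0J (S P : Jet) : Jet := ((1 / 2 : ℝ) • PhiJ S P).log
def H0J (S P : Jet) : Jet := ((1 / 2 : ℝ) • PsiJ S P).log

/-- The perturbative model has nonnegative Ricci tensor. -/
def PertOK (S Y W : Jet) (ρ : ℝ) : Prop :=
  RicOK W W (W + Y.log + F0J S (Jet.x2 ρ)) (W + Y.log + H0J S (Jet.x2 ρ))

def La (S : Jet) (ρ : ℝ) : ℝ := sg (ρ / S.v) * S.a / S.v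
def Lb (S : Jet) (ρ : ℝ) : ℝ := (3 - sg (ρ / S.v)) / ρ + sg (ρ / S.v) * S.b / S.v

def Lop (S : Jet) (ρ : ℝ) (J : Jet) (v1 v2 : ℝ) : ℝ :=
  3 * J.hess v1 v2 + (J.aa + J.bb + La S ρ * J.a + Lb S ρ * J.b) * (v1 ^ 2 + v2 ^ 2)

def RS (S : Jet) (ρ v1 v2 : ℝ) : ℝ :=
  be (ρ / S.v) * (v2 - ρ / S.v * S.dd v1 v2) ^ 2 / S.v ^ 2 - sg (ρ / S.v) * S.hess v1 v2 / S.v

def RG (S : Jet) (ρ : ℝ) (J : Jet) (v1 v2 : ℝ) : ℝ :=
  3 * J.hess v1 v2 + 2 * J.dd v1 v2 * (La S ρ * v1 + Lb S ρ * v2)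

def Quad (Y W : Jet) (v1 v2 : ℝ) : ℝ :=
  3 * (Y.a * W.a + Y.b * W.b) / Y.v * (v1 ^ 2 + v2 ^ 2) + 3 * (W.a * v2 - W.b * v1) ^ 2

def RB (S Y W : Jet) (ρ v1 v2 : ℝ) : ℝ :=
  RS S ρ v1 v2 - RG S ρ Y v1 v2 / Y.v - Lop S ρ W v1 v2 - Quad Y W v1 v2

/-- `ϱ = √(ρ² + S²)`. -/
def vr (S ρ : ℝ) : ℝ := √(ρ ^ 2 + S ^ 2)

/-- The jet of `ϱ`. -/
def vJ (S : Jet) (ρ : ℝ) : Jet := (Jet.x2 ρ * Jet.x2 ρ + S * S).sqrt

/-- The jet of `r = √(t² + ρ²)`. -/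
def rJ (t ρ r : ℝ) : Jet := ⟨r, t / r, ρ / r, ρ ^ 2 / r ^ 3, -(t * ρ) / r ^ 3, t ^ 2 / r ^ 3⟩

/-- The jet of a radial conformal factor with `r ω' = -ν`. -/
def oJ (t ρ r w ν ν1 : ℝ) : Jet := (rJ t ρ r).comp w (-ν / r) (-ν1 / r + ν / r ^ 2)

/-- A point off the axis with its distance to the centre. -/
structure Pt (t ρ r : ℝ) : Prop where
  pos : 0 < ρ
  rpos : 0 < r
  sq : r ^ 2 = t ^ 2 + ρ ^ 2

/-- The derivatives of `J` are of size `k` at the scale `x`, and `J` is even in `ρ`. -/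
structure Sm (J : Jet) (k ρ x : ℝ) : Prop where
  a : |J.a| ≤ k / x
  b : |J.b| ≤ k * ρ / x ^ 2
  aa : |J.aa| ≤ k / x ^ 2
  ab : |J.ab| ≤ k / x ^ 2
  bb : |J.bb| ≤ k / x ^ 2

/-! Profiles -/

/-- `Φ²`. -/
def Ph2 (S z : ℝ) : ℝ := (√(z + S ^ 2) / 8 + 15 / 8 * S) ^ 2 - S ^ 2

/-- `Ψ / (2 ρ)`. -/
def af (S z : ℝ) : ℝ := (√(z + S ^ 2) / 8 + 15 / 8 * S) / (2 * √(z + S ^ 2))

/-- `(1 - Y² a²) / z` with `Y = 1 - z g`. -/
def D3 (S g z : ℝ) : ℝ :=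
  (1 + (1 - z * g) * af S z) * (15 / 16 / (√(z + S ^ 2) * (√(z + S ^ 2) + S)) + af S z * g)

/-- The five coefficients at `(t, z)` in terms of the values of the profile functions. -/
def mkV (w g S y κ t z : ℝ) : Fin 5 → ℝ :=
  ![Real.exp (2 * w) * (1 / y + κ * t ^ 2), Real.exp (2 * w) * (κ * t),
    Real.exp (2 * w) * (D3 S g z / y + κ), Real.exp (2 * w) * ((1 - z * g) ^ 2 * af S z ^ 2 / y),
    Real.exp (2 * w) * ((1 - z * g) ^ 2 * y * Ph2 S z / 4)]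

def mkE (w g S y κ : ℝ × ℝ → ℝ) : Ed := fun x => mkV (w x) (g x) (S x) (y x) (κ x) x.1 x.2

/-- Two-sided bounds at a point where the bubble has size at most `b`. -/
structure LBat (e : Fin 5 → ℝ) (z b : ℝ) : Prop where
  up : ∀ a ζ β γ, Ad z ζ β γ → Qf e a ζ β γ ≤ 10 ^ 7 * (a ^ 2 + β + (z + b ^ 2) * γ)
  low : ∀ a ζ β γ, Ad z ζ β γ → a ^ 2 + z / (z + b ^ 2) * β + z * γ ≤ 10 ^ 7 * Qf e a ζ β γ
  e5 : ∀ a ζ β γ, Ad z ζ β γ → e 4 * γ ≤ Qf e a ζ β γ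
  pos : ∀ a ζ β γ, Ad z ζ β γ → (a ≠ 0 ∨ β ≠ 0 ∨ γ ≠ 0) → 0 < Qf e a ζ β γ

/-! The path of metrics on the link, in the coordinates `(log r, θ)`. -/

def sJ (θ s c : ℝ) : Jet := (Jet.x2 θ).comp s c (-s)

/-- The jet of `log y / 2`. -/
def aJ (T Φ : Jet) : Jet :=
  (1 / 4 : ℝ) • (Jet.cst 1 - T + T * ((100 : ℝ) • (Φ * Φ * (Φ * Φ))).inv).log

def PathOK (O K T : Jet) (ε θ s c : ℝ) : Prop :=
  RicOK (O + K.log) (O - aJ T (PhiJ (Jet.cst ε) (sJ θ s c)))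
    (O + aJ T (PhiJ (Jet.cst ε) (sJ θ s c)) + F0J (Jet.cst ε) (sJ θ s c))
    (O - aJ T (PhiJ (Jet.cst ε) (sJ θ s c)) + H0J (Jet.cst ε) (sJ θ s c))

end

end Pool.Agent.Work.MP_a9fb1f_gt
end

-- merged part: Pool.Agent.Work.MP_a9fb1f_gt.Jet
section
/-! Calculus of jets. -/

set_option autoImplicit false

open scoped Manifold ContDiff Topology ENNReal Bundle RealInnerProductSpace
open Filter Set

namespace Pool.Agent.Work.MP_a9fb1f_gt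

noncomputable section

section JetAux

variable {E : Type} [NormedAddCommGroup E] [NormedSpace ℝ E] {f g : E → ℝ} {p : E}

/-- directional derivative -/
def jet_dv (e : E) (f : E → ℝ) (q : E) : ℝ := fderiv ℝ f q e

lemma jet_diff (hf : ContDiffAt ℝ 2 f p) : DifferentiableAt ℝ f p :=
  hf.differentiableAt (by norm_num)

lemma jet_ev (hf : ContDiffAt ℝ 2 f p) : ∀ᶠ q in 𝓝 p, DifferentiableAt ℝ f q :=
  (hf.eventually (by simp)).mono fun _ hq => jet_diff hq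

lemma jet_dv_diff (hf : ContDiffAt ℝ 2 f p) (e : E) : DifferentiableAt ℝ (jet_dv e f) p := by
  have h1 : ContDiffAt ℝ 1 (fderiv ℝ f) p := hf.fderiv_right (by norm_num)
  have h2 : DifferentiableAt ℝ (fderiv ℝ f) p := h1.differentiableAt (by norm_num)
  exact h2.clm_apply (differentiableAt_const e)

lemma jet_dv_congr (h : g =ᶠ[𝓝 p] f) (e : E) : jet_dv e g =ᶠ[𝓝 p] jet_dv e f :=
  (h.fderiv (𝕜 := ℝ)).mono fun q hq => by
    unfold jet_dv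
    rw [hq]

lemma jet_dv_congr' (h : g =ᶠ[𝓝 p] f) (e : E) : jet_dv e g p = jet_dv e f p :=
  (jet_dv_congr h e).eq_of_nhds

lemma jet_dv_cst (c : ℝ) (e : E) : jet_dv e (fun _ : E => c) = fun _ => 0 := by
  funext q
  simp [jet_dv]

lemma jet_dv_clm (L : E →L[ℝ] ℝ) (e : E) : jet_dv e (fun q => L q) = fun _ => L e := by
  funext q
  unfold jet_dv
  rw [show (fun q => L q) = L from rfl, L.fderiv]

lemma jet_dv_add (hf : DifferentiableAt ℝ f p) (hg : DifferentiableAt ℝ g p) (e : E) :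
    jet_dv e (fun q => f q + g q) p = jet_dv e f p + jet_dv e g p := by
  unfold jet_dv
  rw [(hf.hasFDerivAt.fun_add hg.hasFDerivAt).fderiv]
  rfl

lemma jet_dv_mul (hf : DifferentiableAt ℝ f p) (hg : DifferentiableAt ℝ g p) (e : E) :
    jet_dv e (fun q => f q * g q) p = jet_dv e f p * g p + f p * jet_dv e g p := by
  unfold jet_dv
  rw [(hf.hasFDerivAt.fun_mul hg.hasFDerivAt).fderiv]
  simp only [add_apply, smul_apply, smul_eq_mul]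
  ring

lemma jet_dv_comp {h : ℝ → ℝ} (hf : DifferentiableAt ℝ f p) (hh : DifferentiableAt ℝ h (f p))
    (e : E) : jet_dv e (fun q => h (f q)) p = deriv h (f p) * jet_dv e f p := by
  unfold jet_dv
  have := (hh.hasDerivAt.comp_hasFDerivAt p hf.hasFDerivAt).fderiv
  rw [show (fun q => h (f q)) = h ∘ f from rfl, this]
  simp only [smul_apply, smul_eq_mul]

lemma jet_dv2_add (hf : ContDiffAt ℝ 2 f p) (hg : ContDiffAt ℝ 2 g p) (u e : E) :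
    jet_dv u (jet_dv e fun q => f q + g q) p =
      jet_dv u (jet_dv e f) p + jet_dv u (jet_dv e g) p := by
  have h1 : (jet_dv e fun q => f q + g q) =ᶠ[𝓝 p] fun q => jet_dv e f q + jet_dv e g q := by
    filter_upwards [jet_ev hf, jet_ev hg] with q h1 h2 using jet_dv_add h1 h2 e
  rw [jet_dv_congr' h1, jet_dv_add (jet_dv_diff hf e) (jet_dv_diff hg e)]

lemma jet_dv2_mul (hf : ContDiffAt ℝ 2 f p) (hg : ContDiffAt ℝ 2 g p) (u e : E) :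
    jet_dv u (jet_dv e fun q => f q * g q) p =
      jet_dv u (jet_dv e f) p * g p + jet_dv e f p * jet_dv u g p +
        (jet_dv u f p * jet_dv e g p + f p * jet_dv u (jet_dv e g) p) := by
  have h1 : (jet_dv e fun q => f q * g q) =ᶠ[𝓝 p]
      fun q => jet_dv e f q * g q + f q * jet_dv e g q := by
    filter_upwards [jet_ev hf, jet_ev hg] with q h1 h2 using jet_dv_mul h1 h2 e
  rw [jet_dv_congr' h1, jet_dv_add ((jet_dv_diff hf e).fun_mul (jet_diff hg))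
    ((jet_diff hf).fun_mul (jet_dv_diff hg e)), jet_dv_mul (jet_dv_diff hf e) (jet_diff hg),
    jet_dv_mul (jet_diff hf) (jet_dv_diff hg e)]

lemma jet_deriv_diff {h : ℝ → ℝ} {x : ℝ} (hh : ContDiffAt ℝ 2 h x) :
    DifferentiableAt ℝ (deriv h) x := jet_dv_diff hh 1

lemma jet_dv2_comp {h : ℝ → ℝ} (hf : ContDiffAt ℝ 2 f p) (hh : ContDiffAt ℝ 2 h (f p))
    (u e : E) : jet_dv u (jet_dv e fun q => h (f q)) p =
      deriv (deriv h) (f p) * jet_dv u f p * jet_dv e f p +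
        deriv h (f p) * jet_dv u (jet_dv e f) p := by
  have h0 : ∀ᶠ q in 𝓝 p, DifferentiableAt ℝ h (f q) :=
    hf.continuousAt.tendsto.eventually (jet_ev hh)
  have h1 : (jet_dv e fun q => h (f q)) =ᶠ[𝓝 p] fun q => deriv h (f q) * jet_dv e f q := by
    filter_upwards [jet_ev hf, h0] with q h1 h2 using jet_dv_comp h1 h2 e
  have h2 : DifferentiableAt ℝ (fun q => deriv h (f q)) p :=
    (jet_deriv_diff hh).comp p (jet_diff hf)
  rw [jet_dv_congr' h1, jet_dv_mul h2 (jet_dv_diff hf e),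
    jet_dv_comp (jet_diff hf) (jet_deriv_diff hh)]

end JetAux

lemma jet_d1 (f : ℝ × ℝ → ℝ) : d1 f = jet_dv (1, 0) f := rfl
lemma jet_d2 (f : ℝ × ℝ → ℝ) : d2 f = jet_dv (0, 1) f := rfl
lemma jet_deriv (h : ℝ → ℝ) : deriv h = jet_dv 1 h := rfl

variable {f g : ℝ × ℝ → ℝ} {J K : Jet} {p : ℝ × ℝ} {h k : ℝ → ℝ} {x h0 h1 h2 k0 k1 k2 : ℝ}

lemma hasJet_cst (c : ℝ) (p : ℝ × ℝ) : HasJet (fun _ => c) (Jet.cst c) p := by
  refine ⟨contDiffAt_const, rfl, ?_, ?_, ?_, ?_, ?_, ?_⟩ <;>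
    simp only [jet_d1, jet_d2, jet_dv_cst, Jet.cst]

lemma hasJet_x1 (p : ℝ × ℝ) : HasJet (fun q => q.1) (Jet.x1 p.1) p := by
  have h : ∀ e : ℝ × ℝ, jet_dv e (fun q : ℝ × ℝ => q.1) = fun _ => e.1 :=
    jet_dv_clm (ContinuousLinearMap.fst ℝ ℝ ℝ)
  refine ⟨contDiffAt_fst, rfl, ?_, ?_, ?_, ?_, ?_, ?_⟩ <;>
    simp only [jet_d1, jet_d2, h, jet_dv_cst, Jet.x1]

lemma hasJet_x2 (p : ℝ × ℝ) : HasJet (fun q => q.2) (Jet.x2 p.2) p := by
  have h : ∀ e : ℝ × ℝ, jet_dv e (fun q : ℝ × ℝ => q.2) = fun _ => e.2 :=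
    jet_dv_clm (ContinuousLinearMap.snd ℝ ℝ ℝ)
  refine ⟨contDiffAt_snd, rfl, ?_, ?_, ?_, ?_, ?_, ?_⟩ <;>
    simp only [jet_d1, jet_d2, h, jet_dv_cst, Jet.x2]

lemma HasJet.congr (hf : HasJet f J p) (e : g =ᶠ[𝓝 p] f) : HasJet g J p := by
  exact ⟨hf.smooth.congr_of_eventuallyEq e, e.eq_of_nhds.trans hf.v,
    (jet_dv_congr' e _).trans hf.a, (jet_dv_congr' e _).trans hf.b,
    (jet_dv_congr' (jet_dv_congr e _) _).trans hf.aa,
    (jet_dv_congr' (jet_dv_congr e _) _).trans hf.ab,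
    (jet_dv_congr' (jet_dv_congr e _) _).trans hf.ba,
    (jet_dv_congr' (jet_dv_congr e _) _).trans hf.bb⟩

lemma HasJet.jet_mul (hf : HasJet f J p) (hg : HasJet g K p) :
    HasJet (fun q => f q * g q) (J * K) p := by
  obtain ⟨s, v, a, b, aa, ab, ba, bb⟩ := hf
  obtain ⟨s', v', a', b', aa', ab', ba', bb'⟩ := hg
  simp only [jet_d1, jet_d2] at a b aa ab ba bb a' b' aa' ab' ba' bb'
  refine ⟨s.mul s', by rw [v, v']; rfl, ?_, ?_, ?_, ?_, ?_, ?_⟩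
  · rw [jet_d1, jet_dv_mul (jet_diff s) (jet_diff s'), a, a', v, v']; rfl
  · rw [jet_d2, jet_dv_mul (jet_diff s) (jet_diff s'), b, b', v, v']; rfl
  · rw [jet_d1, jet_d1, jet_dv2_mul s s', aa, aa', a, a', v, v', Jet.mul_aa]; ring
  · rw [jet_d2, jet_d1, jet_dv2_mul s s', ab, ab', a, a', b, b', v, v', Jet.mul_ab]; ring
  · rw [jet_d1, jet_d2, jet_dv2_mul s s', ba, ba', a, a', b, b', v, v', Jet.mul_ab]; ring
  · rw [jet_d2, jet_d2, jet_dv2_mul s s', bb, bb', b, b', v, v', Jet.mul_bb]; ring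

lemma HasJet.add (hf : HasJet f J p) (hg : HasJet g K p) :
    HasJet (fun q => f q + g q) (J + K) p := by
  obtain ⟨s, v, a, b, aa, ab, ba, bb⟩ := hf
  obtain ⟨s', v', a', b', aa', ab', ba', bb'⟩ := hg
  simp only [jet_d1, jet_d2] at a b aa ab ba bb a' b' aa' ab' ba' bb'
  refine ⟨s.add s', by rw [v, v']; rfl, ?_, ?_, ?_, ?_, ?_, ?_⟩
  · rw [jet_d1, jet_dv_add (jet_diff s) (jet_diff s'), a, a']; rfl
  · rw [jet_d2, jet_dv_add (jet_diff s) (jet_diff s'), b, b']; rfl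
  · rw [jet_d1, jet_d1, jet_dv2_add s s', aa, aa']; rfl
  · rw [jet_d2, jet_d1, jet_dv2_add s s', ab, ab']; rfl
  · rw [jet_d1, jet_d2, jet_dv2_add s s', ba, ba']; rfl
  · rw [jet_d2, jet_d2, jet_dv2_add s s', bb, bb']; rfl

lemma HasJet.sub (hf : HasJet f J p) (hg : HasJet g K p) :
    HasJet (fun q => f q - g q) (J - K) p := by
  have h1 := hf.add ((hasJet_cst (-1) p).jet_mul hg)
  have e1 : (fun q => f q - g q) = fun q => f q + -1 * g q := by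
    funext q
    ring
  have e2 : J - K = J + Jet.cst (-1) * K := by
    ext <;> simp <;> ring
  rw [e1, e2]
  exact h1

lemma HasJet.smul (hf : HasJet f J p) (c : ℝ) : HasJet (fun q => c * f q) (c • J) p := by
  have h1 := (hasJet_cst c p).jet_mul hf
  have e2 : c • J = Jet.cst c * J := by
    ext <;> simp
  rw [e2]
  exact h1

lemma HasJet.mul (hf : HasJet f J p) (hg : HasJet g K p) :
    HasJet (fun q => f q * g q) (J * K) p := by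
  exact hf.jet_mul hg

lemma HasJet.comp (hf : HasJet f J p) (hh : Has2 h J.v h0 h1 h2) :
    HasJet (fun q => h (f q)) (J.comp h0 h1 h2) p := by
  obtain ⟨s, v, a, b, aa, ab, ba, bb⟩ := hf
  obtain ⟨s', v', d', dd'⟩ := hh
  rw [← v] at s' v' d' dd'
  simp only [jet_d1, jet_d2] at a b aa ab ba bb
  refine ⟨s'.comp p s, v', ?_, ?_, ?_, ?_, ?_, ?_⟩
  · rw [jet_d1, jet_dv_comp (jet_diff s) (jet_diff s'), a, d']; rfl
  · rw [jet_d2, jet_dv_comp (jet_diff s) (jet_diff s'), b, d']; rfl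
  · rw [jet_d1, jet_d1, jet_dv2_comp s s', aa, a, d', dd', Jet.comp_aa]; ring
  · rw [jet_d2, jet_d1, jet_dv2_comp s s', ab, a, b, d', dd', Jet.comp_ab]; ring
  · rw [jet_d1, jet_d2, jet_dv2_comp s s', ba, a, b, d', dd', Jet.comp_ab]
  · rw [jet_d2, jet_d2, jet_dv2_comp s s', bb, b, d', dd', Jet.comp_bb]; ring

lemma jet_has2_of {h' : ℝ → ℝ} (hh : ContDiffAt ℝ 2 h x)
    (e : ∀ᶠ y in 𝓝 x, HasDerivAt h (h' y) y) (e2 : HasDerivAt h' h2 x) :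
    Has2 h x (h x) (h' x) h2 := by
  have e1 : deriv h =ᶠ[𝓝 x] h' := e.mono fun y hy => hy.deriv
  exact ⟨hh, rfl, e1.eq_of_nhds, by rw [e1.deriv_eq, e2.deriv]⟩

lemma jet_has2_inv (hx : x ≠ 0) :
    Has2 (fun y => y⁻¹) x x⁻¹ (-(x ^ 2)⁻¹) (2 * (x ^ 3)⁻¹) := by
  refine jet_has2_of (h := fun y => y⁻¹) (h' := fun y => -(y ^ 2)⁻¹)
    (contDiffAt_id.inv hx) ?_ ?_
  · filter_upwards [isOpen_ne.mem_nhds hx] with y hy using hasDerivAt_inv hy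
  · have h1 := ((hasDerivAt_pow 2 x).fun_inv (pow_ne_zero 2 hx)).fun_neg
    refine h1.congr_deriv ?_
    norm_num
    field_simp

lemma jet_has2_log (hx : x ≠ 0) : Has2 Real.log x (Real.log x) x⁻¹ (-(x ^ 2)⁻¹) := by
  refine jet_has2_of (h := Real.log) (h' := fun y => y⁻¹)
    (Real.contDiffAt_log.2 hx) ?_ (hasDerivAt_inv hx)
  filter_upwards [isOpen_ne.mem_nhds hx] with y hy using Real.hasDerivAt_log hy

lemma jet_has2_sqrt (hx : 0 < x) :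
    Has2 (fun y => √y) x (√x) (2 * √x)⁻¹ (-(4 * √x ^ 3)⁻¹) := by
  have hs : √x ≠ 0 := (Real.sqrt_pos.2 hx).ne'
  refine jet_has2_of (h := fun y => √y) (h' := fun y => (2 * √y)⁻¹)
    (Real.contDiffAt_sqrt hx.ne') ?_ ?_
  · filter_upwards [isOpen_ne.mem_nhds hx.ne'] with y hy
    have := Real.hasDerivAt_sqrt hy
    rwa [one_div] at this
  · have h1 := ((Real.hasDerivAt_sqrt hx.ne').const_mul 2).fun_inv (mul_ne_zero two_ne_zero hs)
    refine h1.congr_deriv ?_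
    field_simp
    ring

lemma HasJet.inv (hf : HasJet f J p) (h0 : J.v ≠ 0) : HasJet (fun q => (f q)⁻¹) J.inv p := by
  exact hf.comp (jet_has2_inv h0)

lemma HasJet.log (hf : HasJet f J p) (h0 : J.v ≠ 0) :
    HasJet (fun q => Real.log (f q)) J.log p := by
  exact hf.comp (jet_has2_log h0)

lemma HasJet.sqrt (hf : HasJet f J p) (h0 : 0 < J.v) : HasJet (fun q => √(f q)) J.sqrt p := by
  exact hf.comp (jet_has2_sqrt h0)

lemma has2_of_contDiffAt (hh : ContDiffAt ℝ 2 h x) :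
    Has2 h x (h x) (deriv h x) (deriv (deriv h) x) := ⟨hh, rfl, rfl, rfl⟩

lemma has2_of_hasDerivAt {h' : ℝ → ℝ} (hh : ContDiffAt ℝ 2 h x)
    (e : ∀ᶠ y in 𝓝 x, HasDerivAt h (h' y) y) (e2 : HasDerivAt h' h2 x) :
    Has2 h x (h x) (h' x) h2 := by
  exact jet_has2_of hh e e2

lemma Has2.congr (hh : Has2 h x h0 h1 h2) (e : k =ᶠ[𝓝 x] h) : Has2 k x h0 h1 h2 := by
  exact ⟨hh.smooth.congr_of_eventuallyEq e, e.eq_of_nhds.trans hh.v,
    (jet_dv_congr' e _).trans hh.d, (jet_dv_congr' (jet_dv_congr e _) _).trans hh.dd⟩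

lemma Has2.unique (hh : Has2 h x h0 h1 h2) (hk : Has2 h x k0 k1 k2) :
    h0 = k0 ∧ h1 = k1 ∧ h2 = k2 :=
  ⟨hh.v.symm.trans hk.v, hh.d.symm.trans hk.d, hh.dd.symm.trans hk.dd⟩

lemma has2_cst (c x : ℝ) : Has2 (fun _ => c) x c 0 0 := by
  refine ⟨contDiffAt_const, rfl, ?_, ?_⟩ <;> simp only [jet_deriv, jet_dv_cst]

lemma has2_id (x : ℝ) : Has2 (fun y => y) x x 1 0 := by
  exact jet_has2_of (h := fun y => y) (h' := fun _ => 1) contDiffAt_id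
    (Eventually.of_forall fun y => hasDerivAt_id y) (hasDerivAt_const x 1)

lemma Has2.jet_mul (hh : Has2 h x h0 h1 h2) (hk : Has2 k x k0 k1 k2) :
    Has2 (fun y => h y * k y) x (h0 * k0) (h1 * k0 + h0 * k1)
      (h2 * k0 + 2 * h1 * k1 + h0 * k2) := by
  obtain ⟨s, v, d, dd⟩ := hh
  obtain ⟨s', v', d', dd'⟩ := hk
  simp only [jet_deriv] at d dd d' dd'
  refine ⟨s.mul s', by rw [v, v'], ?_, ?_⟩
  · rw [jet_deriv, jet_dv_mul (jet_diff s) (jet_diff s'), d, d', v, v']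
  · rw [jet_deriv, jet_deriv, jet_dv2_mul s s', dd, dd', d, d', v, v']; ring

lemma Has2.add (hh : Has2 h x h0 h1 h2) (hk : Has2 k x k0 k1 k2) :
    Has2 (fun y => h y + k y) x (h0 + k0) (h1 + k1) (h2 + k2) := by
  obtain ⟨s, v, d, dd⟩ := hh
  obtain ⟨s', v', d', dd'⟩ := hk
  simp only [jet_deriv] at d dd d' dd'
  refine ⟨s.add s', by rw [v, v'], ?_, ?_⟩
  · rw [jet_deriv, jet_dv_add (jet_diff s) (jet_diff s'), d, d']
  · rw [jet_deriv, jet_deriv, jet_dv2_add s s', dd, dd']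

lemma Has2.sub (hh : Has2 h x h0 h1 h2) (hk : Has2 k x k0 k1 k2) :
    Has2 (fun y => h y - k y) x (h0 - k0) (h1 - k1) (h2 - k2) := by
  have h1 := hh.add ((has2_cst (-1) x).jet_mul hk)
  have e1 : (fun y => h y - k y) = fun y => h y + -1 * k y := by
    funext y
    ring
  rw [e1]
  convert h1 using 1 <;> ring

lemma Has2.smul (hh : Has2 h x h0 h1 h2) (c : ℝ) :
    Has2 (fun y => c * h y) x (c * h0) (c * h1) (c * h2) := by
  have h1 := (has2_cst c x).jet_mul hh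
  convert h1 using 1 <;> ring

lemma Has2.mul (hh : Has2 h x h0 h1 h2) (hk : Has2 k x k0 k1 k2) :
    Has2 (fun y => h y * k y) x (h0 * k0) (h1 * k0 + h0 * k1)
      (h2 * k0 + 2 * h1 * k1 + h0 * k2) := by
  exact hh.jet_mul hk

lemma Has2.comp (hh : Has2 h x h0 h1 h2) (hk : Has2 k h0 k0 k1 k2) :
    Has2 (fun y => k (h y)) x k0 (k1 * h1) (k2 * h1 ^ 2 + k1 * h2) := by
  obtain ⟨s, v, d, dd⟩ := hh
  obtain ⟨s', v', d', dd'⟩ := hk
  rw [← v] at s' v' d' dd'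
  rw [jet_deriv] at d
  rw [jet_deriv, jet_deriv] at dd
  refine ⟨s'.comp x s, v', ?_, ?_⟩
  · rw [jet_deriv, jet_dv_comp (jet_diff s) (jet_diff s'), d, d']
  · rw [jet_deriv, jet_deriv, jet_dv2_comp s s', dd, d, d', dd']; ring

lemma has2_inv (hx : x ≠ 0) : Has2 (fun y => y⁻¹) x x⁻¹ (-(x ^ 2)⁻¹) (2 * (x ^ 3)⁻¹) := by
  exact jet_has2_inv hx

lemma has2_log (hx : x ≠ 0) : Has2 Real.log x (Real.log x) x⁻¹ (-(x ^ 2)⁻¹) := by
  exact jet_has2_log hx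

lemma has2_sqrt (hx : 0 < x) :
    Has2 (fun y => √y) x (√x) (2 * √x)⁻¹ (-(4 * √x ^ 3)⁻¹) := by
  exact jet_has2_sqrt hx

lemma has2_exp (x : ℝ) : Has2 Real.exp x (Real.exp x) (Real.exp x) (Real.exp x) := by
  exact jet_has2_of (h := Real.exp) (h' := Real.exp) Real.contDiff_exp.contDiffAt
    (Eventually.of_forall Real.hasDerivAt_exp) (Real.hasDerivAt_exp x)

lemma has2_sin (x : ℝ) : Has2 Real.sin x (Real.sin x) (Real.cos x) (-Real.sin x) := by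
  exact jet_has2_of (h := Real.sin) (h' := Real.cos) Real.contDiff_sin.contDiffAt
    (Eventually.of_forall Real.hasDerivAt_sin) (Real.hasDerivAt_cos x)

end

end Pool.Agent.Work.MP_a9fb1f_gt
end

-- merged part: Pool.Agent.Work.MP_a9fb1f_gt.Bubble1
section
/-! Inequalities for the bubble. -/

set_option autoImplicit false

open scoped Manifold ContDiff Topology ENNReal Bundle RealInnerProductSpace
open Filter Set

namespace Pool.Agent.Work.MP_a9fb1f_gt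

noncomputable section

variable {u : ℝ}

lemma one_le_bw (u : ℝ) : 1 ≤ bw u := by
  unfold bw
  exact Real.one_le_sqrt.mpr (by linarith only [sq_nonneg u, sq_nonneg u])

lemma bw_sq (u : ℝ) : bw u ^ 2 = 1 + u ^ 2 := by
  unfold bw
  exact Real.sq_sqrt (by positivity)

lemma Bubble1_bw_pos (u : ℝ) : 0 < bw u := lt_of_lt_of_le one_pos (one_le_bw u)

lemma Bubble1_two_le_bp (u : ℝ) : 2 ≤ bp u := by
  unfold bp
  linarith only [one_le_bw u]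

lemma Bubble1_arg_pos (u : ℝ) : 0 < bp u ^ 2 - 1 := by
  linarith only [Bubble1_two_le_bp u, mul_nonneg_of_nonpos_of_nonpos (Mathlib.Tactic.Linarith.sub_nonpos_of_le (Bubble1_two_le_bp u)) (Mathlib.Tactic.Linarith.sub_nonpos_of_le (Bubble1_two_le_bp u))]

lemma phi_sq (u : ℝ) : phi u ^ 2 = bp u ^ 2 - 1 := by
  unfold phi
  exact Real.sq_sqrt (Bubble1_arg_pos u).le

lemma phi_pos (u : ℝ) : 0 < phi u := by
  unfold phi
  exact Real.sqrt_pos.mpr (Bubble1_arg_pos u)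

lemma three_le_phi_sq (u : ℝ) : 3 ≤ phi u ^ 2 := by
  rw [phi_sq]
  linarith only [Bubble1_two_le_bp u, mul_nonneg_of_nonpos_of_nonpos (Mathlib.Tactic.Linarith.sub_nonpos_of_le (Bubble1_two_le_bp u)) (Mathlib.Tactic.Linarith.sub_nonpos_of_le (Bubble1_two_le_bp u))]

lemma bw_le_phi (u : ℝ) : bw u ≤ 8 * phi u := by
  have h1 := one_le_bw u
  have h2 := phi_pos u
  have h3 : (8 * phi u) ^ 2 = (bw u + 15) ^ 2 - 64 := by
    rw [mul_pow, phi_sq]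
    unfold bp
    ring
  refine abs_le_of_sq_le_sq' ?_ (by positivity) |>.2
  rw [h3]
  linarith only [h1]

lemma phi_le_bp (u : ℝ) : phi u ≤ bp u := by
  have h1 := Bubble1_two_le_bp u
  refine abs_le_of_sq_le_sq' ?_ (by linarith) |>.2
  rw [phi_sq]
  linarith

lemma bp_le (u : ℝ) : bp u ≤ 2 * bw u := by
  unfold bp
  linarith only [one_le_bw u]

lemma psi_pos (hu : 0 < u) : 0 < psi u := by
  unfold psi
  have h1 := Bubble1_two_le_bp u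
  exact div_pos (mul_pos hu (by linarith)) (Bubble1_bw_pos u)

lemma Bubble1_bw_psi (u : ℝ) : bw u * psi u = u * bp u := by
  unfold psi
  have := (Bubble1_bw_pos u).ne'
  field_simp

lemma psi_sq_le (u : ℝ) : 3 * psi u ^ 2 ≤ 4 * phi u ^ 2 := by
  have h1 := Bubble1_two_le_bp u
  have h2 := Bubble1_bw_pos u
  have h3 : bw u ^ 2 * psi u ^ 2 = u ^ 2 * bp u ^ 2 := by
    rw [← mul_pow, Bubble1_bw_psi, mul_pow]
  have h4 : psi u ^ 2 ≤ bp u ^ 2 := by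
    refine le_of_mul_le_mul_left (a := bw u ^ 2) ?_ (by positivity)
    rw [h3, bw_sq]
    linarith only [sq_nonneg (bp u), sq_nonneg (bp u)]
  rw [phi_sq]
  linarith only [h1, h4, mul_nonneg_of_nonpos_of_nonpos (Mathlib.Tactic.Linarith.sub_nonpos_of_le h1) (Mathlib.Tactic.Linarith.sub_nonpos_of_le h1)]

lemma le_psi_sq (u : ℝ) : u ^ 2 * phi u ^ 2 ≤ bw u ^ 2 * psi u ^ 2 := by
  have h3 : bw u ^ 2 * psi u ^ 2 = u ^ 2 * bp u ^ 2 := by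
    rw [← mul_pow, Bubble1_bw_psi, mul_pow]
  rw [h3, phi_sq]
  linarith only [sq_nonneg u, sq_nonneg u]

lemma psi1_mem (u : ℝ) : 1 / 8 ≤ psi1 u ∧ psi1 u ≤ 2 := by
  have h1 := one_le_bw u
  have h2 := Bubble1_bw_pos u
  have h3 : 1 ≤ bw u ^ 3 := one_le_pow₀ h1
  have h4 : 15 / 8 / bw u ^ 3 ≤ 15 / 8 := div_le_self (by norm_num) h3
  have h5 : 0 ≤ 15 / 8 / bw u ^ 3 := by positivity
  unfold psi1
  constructor <;> linarith only [h5, h4]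

lemma Bubble1_hasDerivAt_bw (u : ℝ) : HasDerivAt bw (u / bw u) u := by
  have h1 : HasDerivAt (fun x : ℝ => 1 + x ^ 2) (2 * u) u := by
    simpa using (hasDerivAt_pow 2 u).const_add 1
  have h2 := h1.sqrt (by positivity)
  have h3 := (Bubble1_bw_pos u).ne'
  have e : 2 * u / (2 * √(1 + u ^ 2)) = u / bw u := by
    unfold bw at h3 ⊢
    field_simp
  rw [e] at h2
  exact h2

lemma Bubble1_hasDerivAt_bp (u : ℝ) : HasDerivAt bp (u / bw u / 8) u :=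
  ((Bubble1_hasDerivAt_bw u).div_const 8).add_const (15 / 8)

lemma Bubble1_contDiff_bw : ContDiff ℝ 2 bw := by
  unfold bw
  exact ContDiff.sqrt (by fun_prop) (fun x => by positivity)

lemma Bubble1_contDiff_bp : ContDiff ℝ 2 bp :=
  (Bubble1_contDiff_bw.div_const 8).add contDiff_const

lemma Bubble1_contDiff_phi : ContDiff ℝ 2 phi := by
  unfold phi
  exact ContDiff.sqrt ((Bubble1_contDiff_bp.pow 2).sub contDiff_const)
    (fun x => (Bubble1_arg_pos x).ne')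

lemma Bubble1_contDiff_psi : ContDiff ℝ 2 psi := by
  unfold psi
  exact (contDiff_id.mul Bubble1_contDiff_bp).div Bubble1_contDiff_bw
    (fun x => (Bubble1_bw_pos x).ne')

lemma Bubble1_hasDerivAt_psi (u : ℝ) : HasDerivAt psi (psi1 u) u := by
  have h0 := (Bubble1_bw_pos u).ne'
  have h1 := ((hasDerivAt_id' u).fun_mul (Bubble1_hasDerivAt_bp u)).fun_div
    (Bubble1_hasDerivAt_bw u) h0
  have e : ((1 * bp u + u * (u / bw u / 8)) * bw u - u * bp u * (u / bw u)) / bw u ^ 2 =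
      psi1 u := by
    have h2 : u ^ 2 = bw u ^ 2 - 1 := by rw [bw_sq]; ring
    unfold psi1 bp
    field_simp
    rw [h2]
    ring
  rw [e] at h1
  exact h1

lemma Bubble1_hasDerivAt_psi1 (u : ℝ) : HasDerivAt psi1 (psi2 u) u := by
  have h0 := (Bubble1_bw_pos u).ne'
  have h1 := ((hasDerivAt_const u (15 / 8 : ℝ)).fun_div ((Bubble1_hasDerivAt_bw u).fun_pow 3)
    (pow_ne_zero 3 h0)).const_add (1 / 8)
  have e : (0 * bw u ^ 3 - 15 / 8 * ((3 : ℕ) * bw u ^ (3 - 1) * (u / bw u))) / (bw u ^ 3) ^ 2 =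
      psi2 u := by
    unfold psi2
    push_cast
    field_simp
    ring
  rw [e] at h1
  exact h1

lemma Bubble1_hasDerivAt_phi (u : ℝ) : HasDerivAt phi (phi1 u) u := by
  have h0 := (Bubble1_bw_pos u).ne'
  have h1 := (((Bubble1_hasDerivAt_bp u).fun_pow 2).sub_const 1).sqrt (Bubble1_arg_pos u).ne'
  have h3 := (phi_pos u).ne'
  have e : ((2 : ℕ) * bp u ^ (2 - 1) * (u / bw u / 8)) / (2 * √(bp u ^ 2 - 1)) = phi1 u := by
    unfold phi1 psi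
    unfold phi at h3 ⊢
    push_cast
    field_simp
  rw [e] at h1
  exact h1

lemma Bubble1_hasDerivAt_phi1 (u : ℝ) : HasDerivAt phi1 (phi2 u) u := by
  have h3 := (phi_pos u).ne'
  have h1 := (Bubble1_hasDerivAt_psi u).fun_div ((Bubble1_hasDerivAt_phi u).const_mul 8)
    (mul_ne_zero (by norm_num) h3)
  have e : (psi1 u * (8 * phi u) - psi u * (8 * phi1 u)) / (8 * phi u) ^ 2 = phi2 u := by
    unfold phi2 phi1
    field_simp
  rw [e] at h1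
  exact h1

lemma has2_phi (u : ℝ) : Has2 phi u (phi u) (phi1 u) (phi2 u) := by
  exact has2_of_hasDerivAt Bubble1_contDiff_phi.contDiffAt
    (Eventually.of_forall Bubble1_hasDerivAt_phi) (Bubble1_hasDerivAt_phi1 u)

lemma has2_psi (u : ℝ) : Has2 psi u (psi u) (psi1 u) (psi2 u) := by
  exact has2_of_hasDerivAt Bubble1_contDiff_psi.contDiffAt
    (Eventually.of_forall Bubble1_hasDerivAt_psi) (Bubble1_hasDerivAt_psi1 u)

end

end Pool.Agent.Work.MP_a9fb1f_gt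
end

-- merged part: Pool.Agent.Work.MP_a9fb1f_gt.Bubble
section
/-! Inequalities for the bubble. -/

set_option autoImplicit false

open scoped Manifold ContDiff Topology ENNReal Bundle RealInnerProductSpace
open Filter Set

namespace Pool.Agent.Work.MP_a9fb1f_gt

noncomputable section

variable {u : ℝ}

lemma Bubble_phi (u : ℝ) : phi u ^ 2 = (bw u + 7) * (bw u + 23) / 64 := by
  rw [phi_sq, bp]; ring

lemma Bubble_u (u : ℝ) : u ^ 2 = bw u ^ 2 - 1 := by rw [bw_sq]; ring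

lemma Bubble_bp (u : ℝ) : bp u = (bw u + 15) / 8 := by rw [bp]; ring

lemma Bubble_sg1 (u : ℝ) :
    sg1 u = (15 * bw u ^ 2 + 162 * bw u + 15) / (bw u * (bw u + 7) * (bw u + 23)) := by
  have hw := one_le_bw u
  have hφ := (phi_pos u).ne'
  have hw0 : bw u ≠ 0 := by positivity
  have e : u * phi1 u / phi u = u ^ 2 * bp u / (8 * bw u * phi u ^ 2) := by
    unfold phi1 psi; field_simp
  rw [sg1, e, Bubble_phi, Bubble_u u, Bubble_bp]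
  field_simp
  ring

lemma Bubble_sg3 (hu : 0 < u) :
    sg3 u = 15 * (bw u ^ 2 - 1) / (bw u ^ 2 * (bw u + 15)) := by
  have hw := one_le_bw u
  have hw0 : bw u ≠ 0 := by positivity
  rw [sg3, psi1, psi, Bubble_bp]
  field_simp
  ring

lemma Bubble_phi2 (u : ℝ) : phi2 u / phi u =
    (2415 + 675 * bw u + 45 * bw u ^ 2 - 63 * bw u ^ 3) /
      (bw u ^ 3 * ((bw u + 7) * (bw u + 23)) ^ 2) := by
  have hw := one_le_bw u
  have hφ := (phi_pos u).ne'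
  have hw0 : bw u ≠ 0 := by positivity
  have e : phi2 u / phi u =
      (psi1 u / 8 - u ^ 2 * bp u ^ 2 / (64 * bw u ^ 2 * phi u ^ 2)) / phi u ^ 2 := by
    unfold phi2 phi1 psi; field_simp; ring
  rw [e, Bubble_phi, Bubble_u u, Bubble_bp, psi1]
  field_simp
  ring

lemma Bubble_psi2 (hu : 0 < u) : -psi2 u / psi u = 45 / (8 * bw u ^ 4 * bp u) := by
  have hw := one_le_bw u
  have hw0 : bw u ≠ 0 := by positivity
  rw [psi2, psi, Bubble_bp]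
  field_simp

lemma sg1_mem (hu : 0 < u) : 0 ≤ sg1 u ∧ sg1 u ≤ 1 ∧ sg1 u ≤ 16 / bw u := by
  have _ := hu
  have hw := one_le_bw u
  rw [Bubble_sg1]
  obtain ⟨x, hx, e⟩ : ∃ x, 0 ≤ x ∧ bw u = 1 + x := ⟨bw u - 1, by linarith, by ring⟩
  rw [e]
  refine ⟨by positivity, ?_, ?_⟩
  · rw [div_le_one (by positivity)]
    linarith only [hx, pow_nonneg hx 2, pow_nonneg hx 3, sq_nonneg x]
  · rw [div_le_div_iff₀ (by positivity) (by positivity)]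
    linarith only [hx, pow_nonneg hx 2, pow_nonneg hx 3, sq_nonneg x]

lemma sg3_mem (hu : 0 < u) : 0 ≤ sg3 u ∧ sg3 u ≤ 1 ∧ sg3 u ≤ 16 / bw u := by
  have hw := one_le_bw u
  rw [Bubble_sg3 hu]
  obtain ⟨x, hx, e⟩ : ∃ x, 0 ≤ x ∧ bw u = 1 + x := ⟨bw u - 1, by linarith, by ring⟩
  rw [e]
  refine ⟨div_nonneg (by linarith only [hx, mul_nonneg_of_nonpos_of_nonpos (Mathlib.Tactic.Linarith.sub_nonpos_of_le hx) (Mathlib.Tactic.Linarith.sub_nonpos_of_le hx)]) (by positivity), ?_, ?_⟩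
  · rw [div_le_one (by positivity)]
    linarith only [hx, pow_nonneg hx 2, pow_nonneg hx 3, sq_nonneg x]
  · rw [div_le_div_iff₀ (by positivity) (by positivity)]
    linarith only [hx, pow_nonneg hx 2, pow_nonneg hx 3, sq_nonneg x]

lemma sg_mem (hu : 0 < u) : 0 ≤ sg u ∧ sg u ≤ 13 / 5 ∧ sg u ≤ 48 / bw u := by
  obtain ⟨a1, -, a3⟩ := sg1_mem hu
  obtain ⟨b1, -, b3⟩ := sg3_mem hu
  have hw := one_le_bw u
  refine ⟨by rw [sg]; linarith only [a1, b1], ?_, ?_⟩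
  · rw [sg, Bubble_sg1, Bubble_sg3 hu]
    obtain ⟨x, hx, e⟩ : ∃ x, 0 ≤ x ∧ bw u = 1 + x := ⟨bw u - 1, by linarith, by ring⟩
    rw [e, ← sub_nonneg]
    have : 13 / 5 - (2 * ((15 * (1 + x) ^ 2 + 162 * (1 + x) + 15) /
        ((1 + x) * (1 + x + 7) * (1 + x + 23))) +
        15 * ((1 + x) ^ 2 - 1) / ((1 + x) ^ 2 * (1 + x + 15))) =
        (9216 - 3136 * x + 2704 * x ^ 2 + 3393 * x ^ 3 + 425 * x ^ 4 + 13 * x ^ 5) /
          (5 * (1 + x) ^ 2 * (1 + x + 7) * (1 + x + 23) * (1 + x + 15)) := by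
      field_simp
      ring
    rw [this]
    refine div_nonneg ?_ (by positivity)
    linarith only [hx, sq_nonneg (x - 1), pow_nonneg hx 2, pow_nonneg hx 3, pow_nonneg hx 4,
      pow_nonneg hx 5, sq_nonneg x, sq_nonneg (x - (1 : ℝ))]
  · have : (48 : ℝ) / bw u = 2 * (16 / bw u) + 16 / bw u := by ring
    rw [sg, this]
    linarith only [a3, b3]

lemma be_ge (hu : 0 < u) : 1 / bw u ^ 4 ≤ be u := by
  have hw := one_le_bw u
  have e0 : be u = -2 * (phi2 u / phi u) + -psi2 u / psi u := by rw [be]; ring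
  rw [e0, Bubble_phi2, Bubble_psi2 hu, Bubble_bp]
  obtain ⟨x, hx, e⟩ : ∃ x, 0 ≤ x ∧ bw u = 1 + x := ⟨bw u - 1, by linarith, by ring⟩
  rw [e, ← sub_nonneg]
  have : -2 * ((2415 + 675 * (1 + x) + 45 * (1 + x) ^ 2 - 63 * (1 + x) ^ 3) /
      ((1 + x) ^ 3 * ((1 + x + 7) * (1 + x + 23)) ^ 2)) +
      45 / (8 * (1 + x) ^ 4 * ((1 + x + 15) / 8)) - 1 / (1 + x) ^ 4 =
      (970752 + 196608 * x + 7424 * x ^ 2 + 6208 * x ^ 3 + 2395 * x ^ 4 + 125 * x ^ 5) /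
        ((1 + x) ^ 4 * ((1 + x + 7) * (1 + x + 23)) ^ 2 * (1 + x + 15)) := by
    field_simp
    ring
  rw [this]
  positivity

lemma phi2_le (u : ℝ) : phi2 u / phi u ≤ 1 / (4 * bw u ^ 2 * phi u ^ 2) := by
  have hw := one_le_bw u
  rw [Bubble_phi2, Bubble_phi]
  obtain ⟨x, hx, e⟩ : ∃ x, 0 ≤ x ∧ bw u = 1 + x := ⟨bw u - 1, by linarith, by ring⟩
  rw [e, ← sub_nonneg]
  have : 1 / (4 * (1 + x) ^ 2 * ((1 + x + 7) * (1 + x + 23) / 64)) -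
      (2415 + 675 * (1 + x) + 45 * (1 + x) ^ 2 - 63 * (1 + x) ^ 3) /
        ((1 + x) ^ 3 * ((1 + x + 7) * (1 + x + 23)) ^ 2) =
      (3008 * x + 672 * x ^ 2 + 79 * x ^ 3) /
        ((1 + x) ^ 3 * ((1 + x + 7) * (1 + x + 23)) ^ 2) := by
    field_simp
    ring
  rw [this]
  positivity

lemma psi2_eq (hu : 0 < u) : -psi2 u / psi u = 45 / (8 * bw u ^ 4 * bp u) := by
  exact Bubble_psi2 hu

/-- The cone with bubble of relative size `ε` has almost nonnegative Ricci curvature. -/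
lemma cone_lemma {η ε s : ℝ} (hη : 0 < η) (hη1 : η ≤ 1) (hε : 0 < ε) (hεη : ε ≤ η ^ 3 / 10 ^ 6)
    (hs : 0 < s) (hs1 : s ≤ 1) : -η ≤ be (s / ε) * (1 - s ^ 2) / ε ^ 2 - sg (s / ε) := by
  have hu : 0 < s / ε := div_pos hs hε
  have hw := one_le_bw (s / ε)
  have h1 := be_ge hu
  obtain ⟨-, h2, h3⟩ := sg_mem hu
  have hsq := bw_sq (s / ε)
  set w := bw (s / ε)
  have hw0 : 0 < w := by linarith only [hw]
  have hb : 0 ≤ be (s / ε) := le_trans (by positivity) h1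
  have hs2 : 0 ≤ 1 - s ^ 2 := by linarith only [hs1, hs, mul_nonneg_of_nonpos_of_nonpos (le_of_lt (Mathlib.Tactic.Linarith.sub_neg_of_lt hs)) (Mathlib.Tactic.Linarith.sub_nonpos_of_le hs1)]
  by_cases hc : 48 ≤ η * w
  · have : 48 / w ≤ η := by rwa [div_le_iff₀ hw0]
    have : 0 ≤ be (s / ε) * (1 - s ^ 2) / ε ^ 2 := by positivity
    linarith
  · have hc' : η * w ≤ 48 := (not_le.1 hc).le
    have h4 : ε * w ^ 2 ≤ 1 / 4 := by
      have e1 : (η * w) ^ 2 ≤ 48 ^ 2 := pow_le_pow_left₀ (by positivity) hc' 2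
      have e2 := mul_le_mul_of_nonneg_right hεη (sq_nonneg w)
      have e3 := mul_le_mul_of_nonneg_left e1 hη.le
      linarith only [hη1, e2, e3]
    have h5 : s / ε ≤ w ^ 2 := by linarith only [hu, hsq, sq_nonneg (s / ε - 1), sq_nonneg ((1 : ℝ) * (s / ε) - (1 : ℝ) * (1 : ℝ))]
    have h6 : s ≤ 1 / 4 := by
      rw [div_le_iff₀ hε] at h5
      linarith only [h4, h5]
    have h7 : 16 * ε ^ 2 ≤ 1 / w ^ 4 := by
      rw [le_div_iff₀ (by positivity)]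
      have := pow_le_pow_left₀ (by positivity) h4 2
      linarith only [this]
    have h8 : 13 / 5 ≤ be (s / ε) * (1 - s ^ 2) / ε ^ 2 := by
      rw [le_div_iff₀ (by positivity)]
      have e1 : 1 / 2 ≤ 1 - s ^ 2 := by linarith only [h6, hs, hs1, mul_nonneg_of_nonpos_of_nonpos (le_of_lt (Mathlib.Tactic.Linarith.sub_neg_of_lt hs)) (Mathlib.Tactic.Linarith.sub_nonpos_of_le hs1)]
      have e2 := mul_le_mul_of_nonneg_left e1 hb
      linarith only [h1, hb, h7, e2, sq_nonneg ε]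
    linarith only [hη, h2, h8]

variable {S ρ : ℝ}

lemma vr_pos (hρ : 0 < ρ) : 0 < vr S ρ := by
  unfold vr
  positivity

lemma vr_sq (S ρ : ℝ) : vr S ρ ^ 2 = ρ ^ 2 + S ^ 2 := by
  unfold vr
  exact Real.sq_sqrt (by positivity)

lemma le_vr (hS : 0 < S) (hρ : 0 < ρ) : ρ ≤ vr S ρ ∧ S ≤ vr S ρ ∧ vr S ρ ≤ ρ + S := by
  unfold vr
  refine ⟨Real.le_sqrt_of_sq_le (by linarith only [sq_nonneg S]), Real.le_sqrt_of_sq_le (by nlinarith), ?_⟩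
  rw [Real.sqrt_le_left (by positivity)]
  linarith only [hS, hρ, mul_pos hS hρ]

lemma bw_div (hS : 0 < S) : bw (ρ / S) = vr S ρ / S := by
  have e : 1 + (ρ / S) ^ 2 = (ρ ^ 2 + S ^ 2) / S ^ 2 := by field_simp; ring
  rw [bw, vr, e, Real.sqrt_div (by positivity), Real.sqrt_sq hS.le]

lemma sg_div_le (hS : 0 < S) (hρ : 0 < ρ) : sg (ρ / S) / S ≤ 48 / vr S ρ := by
  have h := (sg_mem (div_pos hρ hS)).2.2
  have hv : 0 < vr S ρ := vr_pos hρ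
  rw [bw_div hS] at h
  rw [div_le_iff₀ hS]
  refine h.trans (le_of_eq ?_)
  field_simp

lemma Ph2_eq (hS : 0 < S) : Ph2 S (ρ ^ 2) = (S * phi (ρ / S)) ^ 2 := by
  rw [mul_pow, phi_sq, bp, bw_div hS, Ph2, vr]
  field_simp

lemma af_eq (hS : 0 < S) : 2 * ρ * af S (ρ ^ 2) = S * psi (ρ / S) := by
  have hv : 0 < √(ρ ^ 2 + S ^ 2) := by positivity
  rw [psi, bp, bw_div hS, af, vr]
  field_simp

lemma D3_mul {g z : ℝ} (hS : 0 < S) (hz : 0 ≤ z) :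
    D3 S g z * z = 1 - (1 - z * g) ^ 2 * af S z ^ 2 := by
  have hv : 0 < √(z + S ^ 2) := by positivity
  have hz' : z = √(z + S ^ 2) ^ 2 - S ^ 2 := by rw [Real.sq_sqrt (by positivity)]; ring
  have e : 15 / 16 / (√(z + S ^ 2) * (√(z + S ^ 2) + S)) * z = 1 - af S z := by
    rw [af]
    set v := √(z + S ^ 2)
    rw [hz']
    field_simp
    ring
  rw [D3, mul_assoc, add_mul (15 / 16 / _), e]
  ring

end

end Pool.Agent.Work.MP_a9fb1f_gt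
end

-- merged part: Pool.Agent.Work.MP_a9fb1f_gt.SmLib
section
/-! Small jets. -/

set_option autoImplicit false

open scoped Manifold ContDiff Topology ENNReal Bundle RealInnerProductSpace
open Filter Set

namespace Pool.Agent.Work.MP_a9fb1f_gt

noncomputable section

variable {J K S : Jet} {k k' ρ x t r f0 f1 f2 : ℝ}

lemma Sm.nonneg (h : Sm J k ρ x) (hx : 0 < x) : 0 ≤ k := by
  have := (abs_nonneg _).trans h.a
  exact (div_nonneg_iff.1 this).elim (·.1) fun h => absurd h.2 (not_le.2 hx)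

lemma Sm.mono (h : Sm J k ρ x) (hρ : 0 ≤ ρ) (hx : 0 < x) (hk : k ≤ k') : Sm J k' ρ x := by
  refine ⟨h.a.trans ?_, h.b.trans ?_, h.aa.trans ?_, h.ab.trans ?_, h.bb.trans ?_⟩ <;> gcongr

lemma sm_cst (c : ℝ) (hρ : 0 ≤ ρ) (hx : 0 < x) (hk : 0 ≤ k) : Sm (Jet.cst c) k ρ x := by
  constructor <;> simp <;> positivity

lemma Sm.add (h : Sm J k ρ x) (h' : Sm K k' ρ x) : Sm (J + K) (k + k') ρ x := by
  refine ⟨(abs_add_le _ _).trans ((add_le_add h.a h'.a).trans_eq ?_),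
    (abs_add_le _ _).trans ((add_le_add h.b h'.b).trans_eq ?_),
    (abs_add_le _ _).trans ((add_le_add h.aa h'.aa).trans_eq ?_),
    (abs_add_le _ _).trans ((add_le_add h.ab h'.ab).trans_eq ?_),
    (abs_add_le _ _).trans ((add_le_add h.bb h'.bb).trans_eq ?_)⟩ <;> ring

lemma Sm.sub (h : Sm J k ρ x) (h' : Sm K k' ρ x) : Sm (J - K) (k + k') ρ x := by
  refine ⟨(abs_sub _ _).trans ((add_le_add h.a h'.a).trans_eq ?_),
    (abs_sub _ _).trans ((add_le_add h.b h'.b).trans_eq ?_),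
    (abs_sub _ _).trans ((add_le_add h.aa h'.aa).trans_eq ?_),
    (abs_sub _ _).trans ((add_le_add h.ab h'.ab).trans_eq ?_),
    (abs_sub _ _).trans ((add_le_add h.bb h'.bb).trans_eq ?_)⟩ <;> ring

lemma Sm.smul (h : Sm J k ρ x) (c : ℝ) : Sm (c • J) (|c| * k) ρ x := by
  have H : ∀ {u b b' : ℝ}, |u| ≤ b → |c| * b = b' → |c * u| ≤ b' := fun h e => by
    rw [abs_mul, ← e]
    gcongr
  refine ⟨H h.a ?_, H h.b ?_, H h.aa ?_, H h.ab ?_, H h.bb ?_⟩ <;> ring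

lemma Sm.SmLib_b (h : Sm J k ρ x) (hx : 0 < x) (hρx : ρ ≤ x) : |J.b| ≤ k / x := by
  have hk := h.nonneg hx
  calc _ ≤ k * ρ / x ^ 2 := h.b
    _ ≤ k * x / x ^ 2 := by gcongr
    _ = _ := by field_simp

lemma Sm.comp (h : Sm J k ρ x) (hρ : 0 ≤ ρ) (hx : 0 < x) (hρx : ρ ≤ x) :
    Sm (J.comp f0 f1 f2) (|f1| * k + |f2| * k ^ 2) ρ x := by
  have hk := h.nonneg hx
  have hb := h.SmLib_b hx hρx
  have H : ∀ {u v w : ℝ}, |u| ≤ k / x → |v| ≤ k / x → |w| ≤ k / x ^ 2 →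
      |f2 * u * v + f1 * w| ≤ (|f1| * k + |f2| * k ^ 2) / x ^ 2 := fun h1 h2 h3 => by
    refine (abs_add_le _ _).trans ?_
    rw [abs_mul, abs_mul, abs_mul]
    calc _ ≤ |f2| * (k / x) * (k / x) + |f1| * (k / x ^ 2) := by gcongr
      _ = _ := by ring
  refine ⟨?_, ?_, ?_, H h.a hb h.ab, ?_⟩
  · rw [Jet.comp_a, abs_mul]
    calc _ ≤ |f1| * (k / x) + |f2| * k ^ 2 / x := le_add_of_le_of_nonneg (by gcongr; exact h.a)
          (by positivity)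
      _ = _ := by ring
  · rw [Jet.comp_b, abs_mul]
    calc _ ≤ |f1| * (k * ρ / x ^ 2) + |f2| * k ^ 2 * ρ / x ^ 2 :=
          le_add_of_le_of_nonneg (by gcongr; exact h.b) (by positivity)
      _ = _ := by ring
  · simpa only [Jet.comp_aa, sq, mul_assoc] using H h.a h.a h.aa
  · simpa only [Jet.comp_bb, sq, mul_assoc] using H hb hb h.bb

/-- The error made by commuting a cutoff `J` with derivatives. -/
lemma Sm.mulErr (h : Sm J k ρ x) (h' : Sm K k' ρ x) (hρ : 0 ≤ ρ) (hx : 0 < x) (hρx : ρ ≤ x) :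
    Sm (J * K - J.v • K) (k * (|K.v| + 2 * k')) ρ x := by
  have hk := h.nonneg hx
  have hk' := h'.nonneg hx
  have hb := h.SmLib_b hx hρx
  have hb' := h'.SmLib_b hx hρx
  have H : ∀ {w u v u' v' z : ℝ}, |w| ≤ k / x ^ 2 → |u| ≤ k / x → |v| ≤ k' / x → |u'| ≤ k / x →
      |v'| ≤ k' / x → z = w * K.v + u * v + u' * v' → |z| ≤ k * (|K.v| + 2 * k') / x ^ 2 :=
    fun h1 h2 h3 h4 h5 e => by
      rw [e]
      refine (abs_add_three _ _ _).trans ?_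
      rw [abs_mul, abs_mul, abs_mul]
      calc _ ≤ k / x ^ 2 * |K.v| + k / x * (k' / x) + k / x * (k' / x) := by gcongr
        _ = _ := by ring
  refine ⟨?_, ?_, H h.aa h.a h'.a h.a h'.a ?_, H h.ab h.a hb' hb h'.a ?_,
    H h.bb hb hb' hb hb' ?_⟩
  · rw [show (J * K - J.v • K).a = J.a * K.v by simp, abs_mul]
    calc _ ≤ k / x * |K.v| + k * (2 * k') / x :=
          le_add_of_le_of_nonneg (by gcongr; exact h.a) (by positivity)
      _ = _ := by ring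
  · rw [show (J * K - J.v • K).b = J.b * K.v by simp, abs_mul]
    calc _ ≤ k * ρ / x ^ 2 * |K.v| + k * (2 * k') * ρ / x ^ 2 :=
          le_add_of_le_of_nonneg (by gcongr; exact h.b) (by positivity)
      _ = _ := by ring
  all_goals simp only [Jet.sub_aa, Jet.sub_ab, Jet.sub_bb, Jet.mul_aa, Jet.mul_ab, Jet.mul_bb,
    Jet.smul_aa, Jet.smul_ab, Jet.smul_bb]; ring

lemma Sm.hess_le (h : Sm J k ρ x) (v1 v2 : ℝ) :
    |J.hess v1 v2| ≤ 2 * k / x ^ 2 * (v1 ^ 2 + v2 ^ 2) := by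
  refine (abs_add_three _ _ _).trans ?_
  have h0 : 0 ≤ k / x ^ 2 := (abs_nonneg _).trans h.aa
  have h1 : 2 * |v1| * |v2| ≤ v1 ^ 2 + v2 ^ 2 := by
    linarith only [sq_nonneg (|v1| - |v2|), sq_abs v1, sq_abs v2, sq_nonneg (|v1| - |v2|)]
  rw [abs_mul, abs_mul, abs_mul, abs_mul, abs_mul, abs_sq, abs_sq, abs_two]
  calc _ ≤ k / x ^ 2 * v1 ^ 2 + 2 * (k / x ^ 2) * |v1| * |v2| + k / x ^ 2 * v2 ^ 2 := by
        gcongr
        exacts [h.aa, h.ab, h.bb]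
    _ = k / x ^ 2 * (v1 ^ 2 + v2 ^ 2 + 2 * |v1| * |v2|) := by ring
    _ ≤ k / x ^ 2 * (v1 ^ 2 + v2 ^ 2 + (v1 ^ 2 + v2 ^ 2)) := by gcongr
    _ = _ := by ring

lemma Sm.grad_le (h : Sm J k ρ x) (hρ : 0 ≤ ρ) (hx : 0 < x) (hρx : ρ ≤ x) :
    J.a ^ 2 + J.b ^ 2 ≤ 2 * k ^ 2 / x ^ 2 := by
  have hb := h.SmLib_b hx hρx
  rw [← sq_abs J.a, ← sq_abs J.b]
  calc _ ≤ (k / x) ^ 2 + (k / x) ^ 2 := by
        gcongr
        exact h.a
    _ = _ := by ring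

lemma sm_radial (hp : Pt t ρ r) (hx : 0 < x) (hxr : x ≤ 2 * r) (h1 : r * |f1| ≤ k)
    (h2 : r ^ 2 * |f2| ≤ k) : Sm ((rJ t ρ r).comp f0 f1 f2) (4 * k * x / r) ρ x := by
  have hr := hp.rpos
  have hρ := hp.pos
  have hk : 0 ≤ k := le_trans (by positivity) h1
  have g1 : |f1| ≤ k / r := by rwa [le_div_iff₀' hr]
  have g2 : |f2| ≤ k / r ^ 2 := by rwa [le_div_iff₀' (by positivity)]
  have e1 : k / r ^ 2 ≤ 4 * k * x / r / x ^ 2 := by
    rw [div_div, div_le_div_iff₀ (by positivity) (by positivity)]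
    linarith only [hk, hx, hr, hxr, mul_nonneg (mul_nonneg (mul_nonneg hk hx.le) hr.le) (show 0 ≤ 4 * r - x by linarith)]
  have ht : |t| ≤ r := abs_le_of_sq_le_sq' (by linarith only [hp, hp.sq, sq_nonneg ρ]) hr.le |> abs_le.2
  have H : ∀ {u v z : ℝ}, |u| + |v| ≤ r ^ 2 → z = f2 * (u / r ^ 2) + f1 * (v / r ^ 3) →
      |z| ≤ 4 * k * x / r / x ^ 2 := fun {u v z} h e => by
    rw [e]
    refine (abs_add_le _ _).trans (le_trans ?_ e1)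
    rw [abs_mul, abs_mul, abs_div, abs_div, abs_of_pos (pow_pos hr 2), abs_of_pos (pow_pos hr 3)]
    calc _ ≤ k / r ^ 2 * (|u| / r ^ 2) + k / r * (|v| / r ^ 3) := by gcongr
      _ = k / r ^ 2 * ((|u| + |v|) / r ^ 2) := by field_simp
      _ ≤ k / r ^ 2 * (r ^ 2 / r ^ 2) := by gcongr
      _ = _ := by field_simp
  refine ⟨?_, ?_, H (u := t ^ 2) (v := ρ ^ 2) ?_ ?_, H (u := t * ρ) (v := -(t * ρ)) ?_ ?_,
    H (u := ρ ^ 2) (v := t ^ 2) ?_ ?_⟩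
  · change |f1 * (t / r)| ≤ _
    rw [abs_mul, abs_div, abs_of_pos hr]
    calc _ ≤ k / r * (r / r) := by gcongr
      _ = k / r := by field_simp
      _ ≤ 4 * (k / r) := le_mul_of_one_le_left (by positivity) (by norm_num)
      _ = _ := by field_simp
  · change |f1 * (ρ / r)| ≤ _
    rw [abs_mul, abs_div, abs_of_pos hr, abs_of_pos hρ]
    calc _ ≤ k / r * (ρ / r) := by gcongr
      _ = k / r ^ 2 * ρ := by field_simp
      _ ≤ 4 * k * x / r / x ^ 2 * ρ := by gcongr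
      _ = _ := by ring
  · rw [abs_sq, abs_sq, hp.sq]
  · simp only [Jet.comp_aa, rJ]
    ring
  · rw [abs_neg, abs_mul, abs_of_pos hρ, hp.sq]
    linarith only [sq_nonneg (|t| - ρ), sq_abs t, sq_nonneg (|t| - ρ)]
  · simp only [Jet.comp_ab, rJ]
    ring
  · rw [abs_sq, abs_sq, hp.sq, add_comm]
  · simp only [Jet.comp_bb, rJ]
    ring

lemma sm_radial_S (hp : Pt t ρ r) (hx : 0 < x) (hxr : x ≤ 2 * r) (h1 : |f1| ≤ k)
    (h2 : r * |f2| ≤ k) : Sm ((rJ t ρ r).comp f0 f1 f2) (4 * k * x) ρ x := by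
  have hr := hp.rpos
  have h := sm_radial (f0 := f0) (f1 := f1) (f2 := f2) (k := r * k) hp hx hxr (by gcongr)
    (by rw [sq, mul_assoc]; gcongr)
  rwa [show 4 * (r * k) * x / r = 4 * k * x by field_simp] at h

lemma sm_x2 (hρ : 0 < ρ) (hx : 0 < x) (h1 : |f1| * x ^ 2 ≤ k * ρ) (h2 : |f2| * x ^ 2 ≤ k) :
    Sm ((Jet.x2 ρ).comp f0 f1 f2) k ρ x := by
  have hk : 0 ≤ k := le_trans (by positivity) h2
  refine ⟨?_, ?_, ?_, ?_, ?_⟩
  · simpa using by positivity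
  · simpa [le_div_iff₀ (pow_pos hx 2)] using h1
  · simpa using by positivity
  · simpa using by positivity
  · simpa [le_div_iff₀ (pow_pos hx 2)] using h2

lemma hess_radial_le (hp : Pt t ρ r) (h1 : |f1| ≤ k) (h2 : r * |f2| ≤ k) (v1 v2 : ℝ) :
    |((rJ t ρ r).comp f0 f1 f2).hess v1 v2| ≤ k / r * (v1 ^ 2 + v2 ^ 2) := by
  have hr := hp.rpos
  have g2 : |f2| ≤ k / r := by rwa [le_div_iff₀' hr]
  have hk : 0 ≤ k := le_trans (by positivity) h1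
  have e : ((rJ t ρ r).comp f0 f1 f2).hess v1 v2 =
      f2 * ((t * v1 + ρ * v2) ^ 2 / r ^ 2) + f1 * ((ρ * v1 - t * v2) ^ 2 / r ^ 3) := by
    simp only [Jet.hess, Jet.comp, rJ]
    ring
  rw [e]
  refine (abs_add_le _ _).trans ?_
  rw [abs_mul, abs_mul, abs_of_nonneg (a := _ / _) (by positivity),
    abs_of_nonneg (a := _ / _) (by positivity)]
  calc _ ≤ k / r * ((t * v1 + ρ * v2) ^ 2 / r ^ 2) + k * ((ρ * v1 - t * v2) ^ 2 / r ^ 3) := by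
        gcongr
    _ = k / r * ((t ^ 2 + ρ ^ 2) * (v1 ^ 2 + v2 ^ 2) / r ^ 2) := by
        field_simp
        ring
    _ = _ := by
        rw [← hp.sq]
        field_simp

lemma vJ_v (S : Jet) (ρ : ℝ) : (vJ S ρ).v = vr S.v ρ := by
  simp [vJ, vr, Jet.sqrt, sq]

lemma SmLib_vJ (hρ : 0 < ρ) (hS : 0 < S.v) (sS : Sm S (vr S.v ρ / 10 ^ 4) ρ (vr S.v ρ)) :
    0 < vr S.v ρ ∧ ∃ σ κ A B P Q R : ℝ, (0 < σ ∧ σ ≤ 1) ∧ (0 < κ ∧ κ ≤ 1) ∧ |A| ≤ 1 / 10 ^ 4 ∧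
      |B| ≤ κ / 10 ^ 4 ∧ |P| ≤ 1 / 10 ^ 4 ∧ |Q| ≤ 1 / 10 ^ 4 ∧ |R| ≤ 1 / 10 ^ 4 ∧
      κ = ρ / vr S.v ρ ∧ (vJ S ρ).a = σ * A ∧ (vJ S ρ).b = κ + σ * B ∧
      (vJ S ρ).aa = (σ * P + A ^ 2 - (σ * A) ^ 2) / vr S.v ρ ∧
      (vJ S ρ).ab = (σ * Q + A * B - σ * A * (κ + σ * B)) / vr S.v ρ ∧
      (vJ S ρ).bb = (1 + σ * R + B ^ 2 - (κ + σ * B) ^ 2) / vr S.v ρ := by
  have hx : 0 < vr S.v ρ := Real.sqrt_pos.2 (by positivity)
  have e : √(ρ * ρ + S.v * S.v) = vr S.v ρ := by rw [vr, sq, sq]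
  have h1 : S.v ≤ vr S.v ρ := Real.le_sqrt_of_sq_le (by linarith only [mul_self_nonneg ρ])
  have h2 : ρ ≤ vr S.v ρ := Real.le_sqrt_of_sq_le (by linarith only [mul_self_nonneg S.v])
  have H : ∀ {z : ℝ}, |z| ≤ vr S.v ρ / 10 ^ 4 / vr S.v ρ ^ 2 → |vr S.v ρ * z| ≤ 1 / 10 ^ 4 :=
    fun hz => by
      rw [abs_mul, abs_of_pos hx]
      calc _ ≤ vr S.v ρ * (vr S.v ρ / 10 ^ 4 / vr S.v ρ ^ 2) := by gcongr
        _ = _ := by field_simp
  refine ⟨hx, S.v / vr S.v ρ, ρ / vr S.v ρ, S.a, S.b, _, _, _,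
    ⟨by positivity, (div_le_one hx).2 h1⟩, ⟨by positivity, (div_le_one hx).2 h2⟩,
    sS.a.trans_eq (by field_simp), sS.b.trans_eq (by field_simp), H sS.aa, H sS.ab, H sS.bb, rfl,
    ?_, ?_, ?_, ?_, ?_⟩ <;> simp [vJ, Jet.sqrt, e] <;> field_simp <;> ring

lemma sm_vJ (hρ : 0 < ρ) (hS : 0 < S.v) (sS : Sm S (vr S.v ρ / 10 ^ 4) ρ (vr S.v ρ)) :
    Sm (vJ S ρ) (2 * vr S.v ρ) ρ (vr S.v ρ) := by
  obtain ⟨hx, σ, κ, A, B, P, Q, R, hσ, hκ, hA, hB, hP, hQ, hR, eρ, ea, eb, eaa, eab, ebb⟩ :=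
    SmLib_vJ hρ hS sS
  have H : ∀ z : ℝ, |z| ≤ 2 → |z / vr S.v ρ| ≤ 2 * vr S.v ρ / vr S.v ρ ^ 2 := fun z hz => by
    rw [abs_div, abs_of_pos hx]
    calc _ ≤ 2 / vr S.v ρ := by gcongr
      _ = _ := by field_simp
  have m : ∀ {u : ℝ}, |u| ≤ 1 / 10 ^ 4 → |σ * u| ≤ 1 / 10 ^ 4 := fun hu => by
    rw [abs_mul, abs_of_pos hσ.1]
    exact (mul_le_of_le_one_left (abs_nonneg _) hσ.2).trans hu
  have hB' : |B| ≤ 1 / 10 ^ 4 := hB.trans (by linarith only [hκ, hκ.2])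
  have b1 := abs_le.1 (m hA)
  have b2 := abs_le.1 (m hB')
  have b3 := abs_le.1 (m hP)
  have b4 := abs_le.1 (m hQ)
  have b5 := abs_le.1 (m hR)
  have b6 := abs_le.1 hA
  have b7 := abs_le.1 hB'
  refine ⟨?_, ?_, ?_, ?_, ?_⟩
  · rw [ea, mul_div_assoc, div_self hx.ne']
    exact (m hA).trans (by norm_num)
  · rw [eb, show 2 * vr S.v ρ * ρ / vr S.v ρ ^ 2 = 2 * κ by rw [eρ]; field_simp]
    refine (abs_add_le _ _).trans ?_
    rw [abs_mul, abs_of_pos hσ.1, abs_of_pos hκ.1]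
    linarith only [hκ, hσ, hB, abs_nonneg B, hσ.2, hκ.1, mul_nonneg_of_nonpos_of_nonpos (le_of_lt (Mathlib.Tactic.Linarith.sub_neg_of_lt hσ.left)) (Mathlib.Tactic.Linarith.sub_nonpos_of_le hB), mul_nonneg_of_nonpos_of_nonpos (Mathlib.Tactic.Linarith.sub_nonpos_of_le hσ.right) (le_of_lt (Mathlib.Tactic.Linarith.sub_neg_of_lt hκ.left))]
  · rw [eaa]
    refine H _ (abs_le.2 ⟨?_, ?_⟩) <;> (refine le_of_not_gt fun h_nl => ?_; linarith only [h_nl, b3, b1, hσ, b6, sq_nonneg A, mul_nonneg_of_nonpos_of_nonpos (Mathlib.Tactic.Linarith.sub_nonpos_of_le b1.left) (Mathlib.Tactic.Linarith.sub_nonpos_of_le b1.right), sq_nonneg (σ * A), mul_nonneg_of_nonpos_of_nonpos (Mathlib.Tactic.Linarith.sub_nonpos_of_le (sq_nonneg (σ * A))) (le_of_lt (Mathlib.Tactic.Linarith.sub_neg_of_lt hσ.left)), mul_nonneg_of_nonpos_of_nonpos (le_of_lt (Mathlib.Tactic.Linarith.sub_neg_of_lt hσ.left))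 (Mathlib.Tactic.Linarith.sub_nonpos_of_le b3.right), mul_pos_of_neg_of_neg (Mathlib.Tactic.Linarith.sub_neg_of_lt hσ.left) (Mathlib.Tactic.Linarith.sub_neg_of_lt h_nl), mul_nonneg_of_nonpos_of_nonpos (Mathlib.Tactic.Linarith.sub_nonpos_of_le b1.left) (Mathlib.Tactic.Linarith.sub_nonpos_of_le b6.right), mul_nonneg_of_nonpos_of_nonpos (Mathlib.Tactic.Linarith.sub_nonpos_of_le b1.right) (Mathlib.Tactic.Linarith.sub_nonpos_of_le b6.left), mul_nonneg_of_nonpos_of_nonpos (Mathlib.Tactic.Linarith.sub_nonpos_of_le b6.left) (Mathlib.Tactic.Linarith.sub_nonpos_of_le b6.right)])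
  · rw [eab]
    refine H _ (abs_le.2 ⟨?_, ?_⟩) <;> linarith only [hσ, hκ, b1, b4, b6, b7, b2, hκ.1, hκ.2, mul_nonneg_of_nonpos_of_nonpos (Mathlib.Tactic.Linarith.sub_nonpos_of_le hσ.right) (Mathlib.Tactic.Linarith.sub_nonpos_of_le b7.right), mul_nonneg_of_nonpos_of_nonpos (Mathlib.Tactic.Linarith.sub_nonpos_of_le hκ.right) (Mathlib.Tactic.Linarith.sub_nonpos_of_le b1.left), mul_nonneg_of_nonpos_of_nonpos (Mathlib.Tactic.Linarith.sub_nonpos_of_le b1.left) (Mathlib.Tactic.Linarith.sub_nonpos_of_le b2.right), mul_nonneg_of_nonpos_of_nonpos (Mathlib.Tactic.Linarith.sub_nonpos_of_le b6.left) (Mathlib.Tactic.Linarith.sub_nonpos_of_le b7.left), mul_nonneg_of_nonpos_of_nonpos (le_of_lt (Mathlib.Tactic.Linarith.sub_neg_of_lt hκ.left)) (Mathlib.Tactic.Linarith.sub_nonpos_of_le b1.left), mul_nonneg_of_nonpos_of_nonpos (Mathlib.Tactic.Linarith.sub_nonpos_of_le b1.left) (Mathlib.Tactic.Linarith.sub_nonpos_of_le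 b2.left), mul_nonneg_of_nonpos_of_nonpos (Mathlib.Tactic.Linarith.sub_nonpos_of_le b6.left) (Mathlib.Tactic.Linarith.sub_nonpos_of_le b7.right)]
  · rw [ebb]
    refine H _ (abs_le.2 ⟨?_, ?_⟩) <;> (refine le_of_not_gt fun h_nl => ?_; linarith only [h_nl, hκ, b5, b2, hσ, b7, hκ.1, hκ.2, sq_nonneg B, mul_nonneg_of_nonpos_of_nonpos (le_of_lt (Mathlib.Tactic.Linarith.sub_neg_of_lt hκ.left)) (Mathlib.Tactic.Linarith.sub_nonpos_of_le hκ.right), mul_nonneg_of_nonpos_of_nonpos (le_of_lt (Mathlib.Tactic.Linarith.sub_neg_of_lt hκ.left)) (Mathlib.Tactic.Linarith.sub_nonpos_of_le b2.right), mul_nonneg_of_nonpos_of_nonpos (Mathlib.Tactic.Linarith.sub_nonpos_of_le b2.left) (Mathlib.Tactic.Linarith.sub_nonpos_of_le b2.right), sq_nonneg (κ + σ * B), mul_nonneg_of_nonpos_of_nonpos (Mathlib.Tactic.Linarith.sub_nonpos_of_le (sq_nonneg (κ + σ * B))) (le_of_lt (Mathlib.Tactic.Linarith.sub_neg_of_lt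 hσ.left)), mul_nonneg_of_nonpos_of_nonpos (le_of_lt (Mathlib.Tactic.Linarith.sub_neg_of_lt hσ.left)) (Mathlib.Tactic.Linarith.sub_nonpos_of_le b5.right), mul_pos_of_neg_of_neg (Mathlib.Tactic.Linarith.sub_neg_of_lt hσ.left) (Mathlib.Tactic.Linarith.sub_neg_of_lt h_nl), mul_nonneg_of_nonpos_of_nonpos (Mathlib.Tactic.Linarith.sub_nonpos_of_le b2.left) (Mathlib.Tactic.Linarith.sub_nonpos_of_le b7.right), mul_nonneg_of_nonpos_of_nonpos (Mathlib.Tactic.Linarith.sub_nonpos_of_le b2.right) (Mathlib.Tactic.Linarith.sub_nonpos_of_le b7.left), mul_nonneg_of_nonpos_of_nonpos (Mathlib.Tactic.Linarith.sub_nonpos_of_le b7.left) (Mathlib.Tactic.Linarith.sub_nonpos_of_le b7.right)])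

lemma grad_vJ (hρ : 0 < ρ) (hS : 0 < S.v) (sS : Sm S (vr S.v ρ / 10 ^ 4) ρ (vr S.v ρ)) :
    (vJ S ρ).a ^ 2 + (vJ S ρ).b ^ 2 ≤ 2 := by
  obtain ⟨hx, σ, κ, A, B, P, Q, R, hσ, hκ, hA, hB, -, -, -, -, ea, eb, -⟩ := SmLib_vJ hρ hS sS
  have m : ∀ {u : ℝ}, |u| ≤ 1 / 10 ^ 4 → |σ * u| ≤ 1 / 10 ^ 4 := fun hu => by
    rw [abs_mul, abs_of_pos hσ.1]
    exact (mul_le_of_le_one_left (abs_nonneg _) hσ.2).trans hu
  have b1 := abs_le.1 (m hA)
  have b2 := abs_le.1 (m (hB.trans (by linarith only [hκ, hκ.2])))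
  rw [ea, eb]
  linarith only [hκ, b2, b1, hκ.1, hκ.2, mul_nonneg_of_nonpos_of_nonpos (le_of_lt (Mathlib.Tactic.Linarith.sub_neg_of_lt hκ.left)) (Mathlib.Tactic.Linarith.sub_nonpos_of_le hκ.right), mul_nonneg_of_nonpos_of_nonpos (le_of_lt (Mathlib.Tactic.Linarith.sub_neg_of_lt hκ.left)) (Mathlib.Tactic.Linarith.sub_nonpos_of_le b2.right), mul_nonneg_of_nonpos_of_nonpos (Mathlib.Tactic.Linarith.sub_nonpos_of_le b1.left) (Mathlib.Tactic.Linarith.sub_nonpos_of_le b1.right), mul_nonneg_of_nonpos_of_nonpos (Mathlib.Tactic.Linarith.sub_nonpos_of_le b2.left) (Mathlib.Tactic.Linarith.sub_nonpos_of_le b2.right)]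

lemma comp_cst (J : Jet) (c : ℝ) : J.comp c 0 0 = Jet.cst c := by
  ext <;> simp

lemma smul_comp (J : Jet) (c f0 f1 f2 : ℝ) :
    c • J.comp f0 f1 f2 = J.comp (c * f0) (c * f1) (c * f2) := by
  ext <;> simp <;> ring

lemma comp_add (J : Jet) (f0 f1 f2 g0 g1 g2 : ℝ) :
    J.comp f0 f1 f2 + J.comp g0 g1 g2 = J.comp (f0 + g0) (f1 + g1) (f2 + g2) := by
  ext <;> simp <;> ring

lemma cst_mul (J : Jet) (c : ℝ) : Jet.cst c * J = c • J := by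
  ext <;> simp

lemma hasJet_r (hp : Pt t ρ r) : HasJet (fun q => √(q.1 ^ 2 + q.2 ^ 2)) (rJ t ρ r) (t, ρ) := by
  have hr := hp.rpos
  have e : √(t * t + ρ * ρ) = r := by
    rw [← sq, ← sq, ← hp.sq, Real.sqrt_sq hr.le]
  have h := (((hasJet_x1 (t, ρ)).mul (hasJet_x1 (t, ρ))).add
    ((hasJet_x2 (t, ρ)).mul (hasJet_x2 (t, ρ)))).sqrt (by
      simp only [Jet.add_v, Jet.mul_v, Jet.x1_v, Jet.x2_v]
      linarith only [hp, hr, hp.sq, mul_pos_of_neg_of_neg (Mathlib.Tactic.Linarith.sub_neg_of_lt hr) (Mathlib.Tactic.Linarith.sub_neg_of_lt hr)])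
  convert h using 1
  · simp only [sq]
  · have := hp.sq
    ext <;> simp [rJ, Jet.sqrt, e] <;> field_simp <;> nlinarith

lemma HasJet.vr {f : ℝ × ℝ → ℝ} (hρ : 0 < ρ) (hf : HasJet f S (t, ρ)) :
    HasJet (fun q => √(q.2 ^ 2 + f q ^ 2)) (vJ S ρ) (t, ρ) := by
  have h := (((hasJet_x2 (t, ρ)).mul (hasJet_x2 (t, ρ))).add (hf.mul hf)).sqrt (by
    simp only [Jet.add_v, Jet.mul_v, Jet.x2_v]
    linarith only [hρ, mul_self_nonneg S.v, mul_self_nonneg S.v, mul_pos_of_neg_of_neg (Mathlib.Tactic.Linarith.sub_neg_of_lt hρ) (Mathlib.Tactic.Linarith.sub_neg_of_lt hρ)])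
  simpa only [sq, vJ] using h

end

end Pool.Agent.Work.MP_a9fb1f_gt
end

-- merged part: Pool.Agent.Work.MP_a9fb1f_gt.PertB
section
/-! The perturbative form of the Ricci tensor. -/

set_option autoImplicit false

open scoped Manifold ContDiff Topology ENNReal Bundle RealInnerProductSpace
open Filter Set

namespace Pool.Agent.Work.MP_a9fb1f_gt

noncomputable section

variable {S Y W : Jet} {ρ : ℝ}

/-- The jet of `log (S f(ρ / S) / 2)`. -/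
def PertB_J (S : Jet) (ρ f0 f1 f2 : ℝ) : Jet :=
  ((1 / 2 : ℝ) • (S * (Jet.x2 ρ * S.inv).comp f0 f1 f2)).log

section gen

variable {f0 f1 f2 : ℝ}

lemma PertB_a (hS : S.v ≠ 0) (h0 : f0 ≠ 0) :
    (PertB_J S ρ f0 f1 f2).a = (1 - ρ / S.v * f1 / f0) * S.a / S.v := by
  simp [PertB_J, Jet.log, Jet.inv]
  field_simp
  ring

lemma PertB_b (hρ : ρ ≠ 0) (hS : S.v ≠ 0) (h0 : f0 ≠ 0) : (PertB_J S ρ f0 f1 f2).b =
    (1 - (1 - ρ / S.v * f1 / f0)) / ρ + (1 - ρ / S.v * f1 / f0) * S.b / S.v := by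
  simp [PertB_J, Jet.log, Jet.inv]
  field_simp
  ring

lemma PertB_aa (hS : S.v ≠ 0) (h0 : f0 ≠ 0) : (PertB_J S ρ f0 f1 f2).aa =
    (1 - ρ / S.v * f1 / f0) * S.aa / S.v + f2 / f0 * (ρ / S.v * S.a) ^ 2 / S.v ^ 2 -
      (PertB_J S ρ f0 f1 f2).a ^ 2 := by
  simp [PertB_J, Jet.log, Jet.inv]
  field_simp
  ring

lemma PertB_ab (hS : S.v ≠ 0) (h0 : f0 ≠ 0) : (PertB_J S ρ f0 f1 f2).ab =
    (1 - ρ / S.v * f1 / f0) * S.ab / S.v +
      f2 / f0 * (-(ρ / S.v * S.a)) * (1 - ρ / S.v * S.b) / S.v ^ 2 -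
      (PertB_J S ρ f0 f1 f2).a * (PertB_J S ρ f0 f1 f2).b := by
  simp [PertB_J, Jet.log, Jet.inv]
  field_simp
  ring

lemma PertB_bb (hS : S.v ≠ 0) (h0 : f0 ≠ 0) : (PertB_J S ρ f0 f1 f2).bb =
    (1 - ρ / S.v * f1 / f0) * S.bb / S.v + f2 / f0 * (1 - ρ / S.v * S.b) ^ 2 / S.v ^ 2 -
      (PertB_J S ρ f0 f1 f2).b ^ 2 := by
  simp [PertB_J, Jet.log, Jet.inv]
  field_simp
  ring

end gen

lemma F0J_v (S : Jet) (ρ : ℝ) : (F0J S (Jet.x2 ρ)).v = Real.log (1 / 2 * (S.v * phi (ρ / S.v))) := rfl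

lemma F0J_a (hS : 0 < S.v) : (F0J S (Jet.x2 ρ)).a = sg1 (ρ / S.v) * S.a / S.v :=
  PertB_a hS.ne' (phi_pos _).ne'

lemma F0J_b (hρ : 0 < ρ) (hS : 0 < S.v) :
    (F0J S (Jet.x2 ρ)).b = (1 - sg1 (ρ / S.v)) / ρ + sg1 (ρ / S.v) * S.b / S.v :=
  PertB_b hρ.ne' hS.ne' (phi_pos _).ne'

lemma F0J_aa (hS : 0 < S.v) : (F0J S (Jet.x2 ρ)).aa = sg1 (ρ / S.v) * S.aa / S.v +
    phi2 (ρ / S.v) / phi (ρ / S.v) * (ρ / S.v * S.a) ^ 2 / S.v ^ 2 -
      (F0J S (Jet.x2 ρ)).a ^ 2 :=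
  PertB_aa hS.ne' (phi_pos _).ne'

lemma F0J_ab (hS : 0 < S.v) : (F0J S (Jet.x2 ρ)).ab = sg1 (ρ / S.v) * S.ab / S.v +
    phi2 (ρ / S.v) / phi (ρ / S.v) * (-(ρ / S.v * S.a)) * (1 - ρ / S.v * S.b) / S.v ^ 2 -
      (F0J S (Jet.x2 ρ)).a * (F0J S (Jet.x2 ρ)).b :=
  PertB_ab hS.ne' (phi_pos _).ne'

lemma F0J_bb (hS : 0 < S.v) : (F0J S (Jet.x2 ρ)).bb = sg1 (ρ / S.v) * S.bb / S.v +
    phi2 (ρ / S.v) / phi (ρ / S.v) * (1 - ρ / S.v * S.b) ^ 2 / S.v ^ 2 -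
      (F0J S (Jet.x2 ρ)).b ^ 2 :=
  PertB_bb hS.ne' (phi_pos _).ne'

lemma H0J_v (S : Jet) (ρ : ℝ) : (H0J S (Jet.x2 ρ)).v = Real.log (1 / 2 * (S.v * psi (ρ / S.v))) := rfl

lemma H0J_a (hρ : 0 < ρ) (hS : 0 < S.v) : (H0J S (Jet.x2 ρ)).a = sg3 (ρ / S.v) * S.a / S.v :=
  PertB_a hS.ne' (psi_pos (div_pos hρ hS)).ne'

lemma H0J_b (hρ : 0 < ρ) (hS : 0 < S.v) :
    (H0J S (Jet.x2 ρ)).b = (1 - sg3 (ρ / S.v)) / ρ + sg3 (ρ / S.v) * S.b / S.v :=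
  PertB_b hρ.ne' hS.ne' (psi_pos (div_pos hρ hS)).ne'

lemma H0J_aa (hρ : 0 < ρ) (hS : 0 < S.v) : (H0J S (Jet.x2 ρ)).aa = sg3 (ρ / S.v) * S.aa / S.v +
    psi2 (ρ / S.v) / psi (ρ / S.v) * (ρ / S.v * S.a) ^ 2 / S.v ^ 2 -
      (H0J S (Jet.x2 ρ)).a ^ 2 :=
  PertB_aa hS.ne' (psi_pos (div_pos hρ hS)).ne'

lemma H0J_ab (hρ : 0 < ρ) (hS : 0 < S.v) : (H0J S (Jet.x2 ρ)).ab = sg3 (ρ / S.v) * S.ab / S.v +
    psi2 (ρ / S.v) / psi (ρ / S.v) * (-(ρ / S.v * S.a)) * (1 - ρ / S.v * S.b) / S.v ^ 2 -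
      (H0J S (Jet.x2 ρ)).a * (H0J S (Jet.x2 ρ)).b :=
  PertB_ab hS.ne' (psi_pos (div_pos hρ hS)).ne'

lemma H0J_bb (hρ : 0 < ρ) (hS : 0 < S.v) : (H0J S (Jet.x2 ρ)).bb = sg3 (ρ / S.v) * S.bb / S.v +
    psi2 (ρ / S.v) / psi (ρ / S.v) * (1 - ρ / S.v * S.b) ^ 2 / S.v ^ 2 -
      (H0J S (Jet.x2 ρ)).b ^ 2 :=
  PertB_bb hS.ne' (psi_pos (div_pos hρ hS)).ne'

lemma pert_base (hρ : 0 < ρ) (hS : 0 < S.v) (hY : 0 < Y.v) (v1 v2 : ℝ) :
    R00 W W (W + Y.log + F0J S (Jet.x2 ρ)) (W + Y.log + H0J S (Jet.x2 ρ)) * v1 ^ 2 +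
      2 * R01 W W (W + Y.log + F0J S (Jet.x2 ρ)) (W + Y.log + H0J S (Jet.x2 ρ)) * v1 * v2 +
      R11 W W (W + Y.log + F0J S (Jet.x2 ρ)) (W + Y.log + H0J S (Jet.x2 ρ)) * v2 ^ 2 =
      RB S Y W ρ v1 v2 := by
  simp only [R00, R01, R11, sub_self, Real.exp_zero, Jet.add_a, Jet.add_b, Jet.add_aa, Jet.add_ab,
    Jet.add_bb, F0J_aa hS, F0J_ab hS, F0J_bb hS, H0J_aa hρ hS, H0J_ab hρ hS, H0J_bb hρ hS,
    F0J_a hS, F0J_b hρ hS, H0J_a hρ hS, H0J_b hρ hS, Jet.log, Jet.comp_a, Jet.comp_b, Jet.comp_aa,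
    Jet.comp_ab, Jet.comp_bb, RB, RS, RG, Lop, Quad, La, Lb, sg, be, Jet.hess, Jet.dd]
  ring

end

end Pool.Agent.Work.MP_a9fb1f_gt
end
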