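import Pool.Agent.Work.MP_a9fb1f_gt.Topo
import Pool.Agent.Work.MP_a9fb1f_gt.PertB

-- merged part: Pool.Agent.Work.MP_a9fb1f_gt.Prof1
section
/-! From profiles to admissible points, smoothness and two-sided bounds. -/

set_option autoImplicit false

open scoped Manifold ContDiff Topology ENNReal Bundle RealInnerProductSpace
open Filter Set

namespace Pool.Agent.Work.MP_a9fb1f_gt

noncomputable section

variable {w g S y κ : ℝ × ℝ → ℝ} {t ρ : ℝ}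

lemma Prof1_exp (a b c : ℝ) (hb : 0 < b) (hc : 0 < c) :
    Real.exp (2 * (a + Real.log b + Real.log c)) = Real.exp (2 * a) * (b ^ 2 * c ^ 2) := by
  rw [show 2 * (a + Real.log b + Real.log c) =
      2 * a + (Real.log b + Real.log b) + (Real.log c + Real.log c) by ring]
  simp only [Real.exp_add, Real.exp_log hb, Real.exp_log hc]
  ring

lemma Prof1_jet {f : ℝ × ℝ → ℝ} {J : Jet} {h : ℝ → ℝ} {h1 h2 : ℝ} (hf : HasJet f J (t, ρ))
    (hJ : 0 < J.v) (hh : Has2 h (ρ / J.v) (h (ρ / J.v)) h1 h2) (hp : 0 < h (ρ / J.v)) :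
    HasJet (fun q => Real.log (1 / 2 * (f q * h (q.2 / f q))))
      ((1 / 2 : ℝ) • (J * (Jet.x2 ρ * J.inv).comp (h (ρ / J.v)) h1 h2)).log (t, ρ) := by
  have h1' : HasJet (fun q : ℝ × ℝ => q.2 * (f q)⁻¹) (Jet.x2 ρ * J.inv) (t, ρ) :=
    (hasJet_x2 (t, ρ)).mul (hf.inv hJ.ne')
  have hv : (Jet.x2 ρ * J.inv).v = ρ / J.v := by
    rw [div_eq_mul_inv]; rfl
  have h2' := h1'.comp (h := h) (h0 := h (ρ / J.v)) (h1 := h1) (h2 := h2) (by rw [hv]; exact hh)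
  have h3 := ((hf.mul h2').smul (1 / 2)).log (by
    simp only [Jet.smul_v, Jet.mul_v, Jet.comp_v]
    positivity)
  simpa only [div_eq_mul_inv (_ : ℝ × ℝ).2] using h3

theorem adm_pert (hρ : 0 < ρ) {jS jY jW : Jet}
    (he : ∀ᶠ x in 𝓝 (t, ρ ^ 2), y x = 1 ∧ κ x = 0)
    (hS : HasJet (fun q => S (q.1, q.2 ^ 2)) jS (t, ρ))
    (hY : HasJet (fun q => 1 - q.2 ^ 2 * g (q.1, q.2 ^ 2)) jY (t, ρ))
    (hW : HasJet (fun q => w (q.1, q.2 ^ 2)) jW (t, ρ)) (hS0 : 0 < jS.v) (hY0 : 0 < jY.v)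
    (h : PertOK jS jY jW ρ) : Adm (mkE w g S y κ) t ρ := by
  have hF := (hW.add (hY.log hY0.ne')).add
    (Prof1_jet hS hS0 (has2_phi (ρ / jS.v)) (phi_pos _))
  have hH := (hW.add (hY.log hY0.ne')).add
    (Prof1_jet hS hS0 (has2_psi (ρ / jS.v)) (psi_pos (div_pos hρ hS0)))
  refine ⟨fun x => x, (t, ρ), _, _, _, _, _, _, _, _, contDiffAt_id, rfl, hW, hW, hF, hH, h, ?_⟩
  have e1 : ∀ᶠ x : ℝ × ℝ in 𝓝 (t, ρ), y (x.1, x.2 ^ 2) = 1 ∧ κ (x.1, x.2 ^ 2) = 0 := by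
    have hc : ContinuousAt (fun x : ℝ × ℝ => (x.1, x.2 ^ 2)) (t, ρ) := by fun_prop
    exact hc.eventually he
  have e2 : ∀ᶠ x : ℝ × ℝ in 𝓝 (t, ρ), 0 < S (x.1, x.2 ^ 2) :=
    hS.smooth.continuousAt.eventually (lt_mem_nhds (hS0.trans_eq hS.v.symm))
  have e3 : ∀ᶠ x : ℝ × ℝ in 𝓝 (t, ρ), 0 < 1 - x.2 ^ 2 * g (x.1, x.2 ^ 2) :=
    hY.smooth.continuousAt.eventually (lt_mem_nhds (hY0.trans_eq hY.v.symm))
  have e4 : ∀ᶠ x : ℝ × ℝ in 𝓝 (t, ρ), 0 < x.2 :=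
    continuousAt_snd.eventually (lt_mem_nhds hρ)
  filter_upwards [e1, e2, e3, e4] with x ⟨hy, hk⟩ hs hg hx
  have hD := D3_mul (g := g (x.1, x.2 ^ 2)) hs (sq_nonneg x.2)
  have hA := af_eq (ρ := x.2) hs
  have hP := Ph2_eq (ρ := x.2) hs
  refine ⟨fun v => ?_, ?_, ?_⟩
  · simp only [fderiv_fun_id, ContinuousLinearMap.id_apply, Qf, mkE, mkV, hy, hk,
      Matrix.cons_val_zero, Matrix.cons_val_one, Matrix.cons_val]
    linear_combination (Real.exp (2 * w (x.1, x.2 ^ 2)) * v.2 ^ 2) * hD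
  · rw [Prof1_exp _ _ _ hg (by have := psi_pos (div_pos hx hs); positivity), ← hA]
    simp only [mkE, mkV, hy, hk, Matrix.cons_val]
    ring
  · rw [Prof1_exp _ _ _ hg (by have := phi_pos (x.2 / S (x.1, x.2 ^ 2)); positivity)]
    simp only [mkE, mkV, hy, hk, Matrix.cons_val, hP]
    ring

end

end Pool.Agent.Work.MP_a9fb1f_gt
end

-- merged part: Pool.Agent.Work.MP_a9fb1f_gt.Prof
section
/-! From profiles to admissible points, smoothness and two-sided bounds. -/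

set_option autoImplicit false

open scoped Manifold ContDiff Topology ENNReal Bundle RealInnerProductSpace
open Filter Set

namespace Pool.Agent.Work.MP_a9fb1f_gt

noncomputable section

/-- polar coordinates with logarithmic radius -/
def profB (x : ℝ × ℝ) : ℝ × ℝ := (Real.exp x.1 * Real.cos x.2, Real.exp x.1 * Real.sin x.2)

lemma prof_contDiff : ContDiff ℝ 3 profB := by
  unfold profB
  fun_prop

lemma prof_fderiv (x v : ℝ × ℝ) : fderiv ℝ profB x v =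
    (Real.exp x.1 * (Real.cos x.2 * v.1 - Real.sin x.2 * v.2),
      Real.exp x.1 * (Real.sin x.2 * v.1 + Real.cos x.2 * v.2)) := by
  have h1 : HasFDerivAt (fun q : ℝ × ℝ => Real.exp q.1)
      (Real.exp x.1 • ContinuousLinearMap.fst ℝ ℝ ℝ) x :=
    (Real.hasDerivAt_exp x.1).comp_hasFDerivAt x hasFDerivAt_fst
  have h2 : HasFDerivAt (fun q : ℝ × ℝ => Real.cos q.2)
      ((-Real.sin x.2) • ContinuousLinearMap.snd ℝ ℝ ℝ) x :=
    (Real.hasDerivAt_cos x.2).comp_hasFDerivAt x hasFDerivAt_snd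
  have h3 : HasFDerivAt (fun q : ℝ × ℝ => Real.sin q.2)
      (Real.cos x.2 • ContinuousLinearMap.snd ℝ ℝ ℝ) x :=
    (Real.hasDerivAt_sin x.2).comp_hasFDerivAt x hasFDerivAt_snd
  have h4 := ((h1.fun_mul h2).prodMk (h1.fun_mul h3)).fderiv
  unfold profB
  rw [h4]
  ext
  · simp
    ring
  · simp
    ring

lemma prof_exp {o l a c : ℝ} (hc : 0 < c) :
    Real.exp (2 * (o + l + a + Real.log c)) =
      Real.exp (2 * o) * Real.exp l ^ 2 * Real.exp (2 * a) * c ^ 2 := by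
  have h : 2 * (o + l + a + Real.log c) = 2 * o + (l + l) + 2 * a + (Real.log c + Real.log c) := by
    ring
  rw [h, Real.exp_add, Real.exp_add, Real.exp_add, Real.exp_add, Real.exp_add, Real.exp_log hc]
  ring

lemma prof_exp_a {V : ℝ} (hV : 0 < V) : Real.exp (2 * (1 / 4 * Real.log V)) = √V := by
  rw [Real.sqrt_eq_rpow, Real.rpow_def_of_pos hV]
  congr 1
  ring

/-- the metric in polar coordinates -/
lemma prof_pt {l s c ε o k T w g S y κ Φ Ψ a : ℝ} (hsc : s ^ 2 + c ^ 2 = 1) (hs : 0 < s)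
    (hε : 0 < ε) (hk : 0 < k) (hΦ : Φ = ε * phi (s * ε⁻¹)) (hΨ : Ψ = ε * psi (s * ε⁻¹))
    (hV : 0 < 1 - T + T * (100 * (Φ * Φ * (Φ * Φ)))⁻¹)
    (ha : a = 1 / 4 * Real.log (1 - T + T * (100 * (Φ * Φ * (Φ * Φ)))⁻¹))
    (hw : w = o) (hg : g = 0) (hS : S = ε * Real.exp l)
    (hy : y = √(1 - T + T * ((Real.exp l ^ 2) ^ 2 / (100 * Ph2 S ((Real.exp l * s) ^ 2) ^ 2))))
    (hκ : κ = (k ^ 2 - 1 / y) / Real.exp l ^ 2) :
    (∀ v1 v2 : ℝ, Qf (mkV w g S y κ (Real.exp l * c) ((Real.exp l * s) ^ 2))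
        (Real.exp l * (c * v1 - s * v2)) (Real.exp l * s * (Real.exp l * (s * v1 + c * v2)))
        ((Real.exp l * (s * v1 + c * v2)) ^ 2) 0 =
          Real.exp (2 * (o + l + Real.log k)) * v1 ^ 2 + Real.exp (2 * (o + l - a)) * v2 ^ 2) ∧
      mkV w g S y κ (Real.exp l * c) ((Real.exp l * s) ^ 2) 3 * (Real.exp l * s) ^ 2
        = Real.exp (2 * (o + l - a + Real.log (1 / 2 * Ψ))) ∧
      mkV w g S y κ (Real.exp l * c) ((Real.exp l * s) ^ 2) 4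
        = Real.exp (2 * (o + l + a + Real.log (1 / 2 * Φ))) := by
  have hR : 0 < Real.exp l := Real.exp_pos l
  have hS0 : 0 < S := hS ▸ mul_pos hε hR
  have hu : Real.exp l * s / S = s * ε⁻¹ := by
    rw [hS]
    field_simp
  have hΦ0 : 0 < Φ := hΦ ▸ mul_pos hε (phi_pos _)
  have hΨ0 : 0 < Ψ := hΨ ▸ mul_pos hε (psi_pos (mul_pos hs (inv_pos.2 hε)))
  have hP : Ph2 S ((Real.exp l * s) ^ 2) = (Real.exp l * Φ) ^ 2 := by
    rw [Ph2_eq hS0, hu, hΦ, hS]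
    ring
  have hA : 2 * (Real.exp l * s) * af S ((Real.exp l * s) ^ 2) = Real.exp l * Ψ := by
    rw [af_eq hS0, hu, hΨ, hS]
    ring
  have hD := D3_mul (g := 0) hS0 (sq_nonneg (Real.exp l * s))
  have hy' : y = √(1 - T + T * (100 * (Φ * Φ * (Φ * Φ)))⁻¹) := by
    rw [hy, hP]
    congr 3
    field_simp
  have hy0 : 0 < y := hy' ▸ Real.sqrt_pos.2 hV
  have hea : Real.exp (2 * a) = y := by rw [ha, prof_exp_a hV, hy']
  have hea' : Real.exp (2 * -a) = 1 / y := by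
    rw [mul_neg, Real.exp_neg, hea, one_div]
  have e1 : Real.exp (2 * (o + l + Real.log k)) = Real.exp (2 * o) * Real.exp l ^ 2 * k ^ 2 := by
    have := prof_exp (o := o) (l := l) (a := 0) hk
    rwa [add_zero, mul_zero, Real.exp_zero, mul_one] at this
  have e2 : Real.exp (2 * (o + l - a)) = Real.exp (2 * o) * Real.exp l ^ 2 * (1 / y) := by
    have := prof_exp (o := o) (l := l) (a := -a) one_pos
    rwa [Real.log_one, add_zero, one_pow, mul_one, hea', ← sub_eq_add_neg] at this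
  have e3 : Real.exp (2 * (o + l - a + Real.log (1 / 2 * Ψ)))
      = Real.exp (2 * o) * Real.exp l ^ 2 * (1 / y) * (1 / 2 * Ψ) ^ 2 := by
    rw [sub_eq_add_neg, prof_exp (by positivity), hea']
  have e4 : Real.exp (2 * (o + l + a + Real.log (1 / 2 * Φ)))
      = Real.exp (2 * o) * Real.exp l ^ 2 * y * (1 / 2 * Φ) ^ 2 := by
    rw [prof_exp (by positivity), hea]
  rw [e1, e2, e3, e4]
  subst hw hg
  have hκ' : κ * Real.exp l ^ 2 = k ^ 2 - 1 / y := by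
    rw [hκ]
    field_simp
  simp only [Qf, mkV, Matrix.cons_val_zero, Matrix.cons_val_one, Matrix.cons_val]
  generalize Real.exp l = R at *
  generalize Real.exp (2 * w) = W at *
  generalize D3 S 0 ((R * s) ^ 2) = D at *
  generalize af S ((R * s) ^ 2) = α at *
  refine ⟨fun v1 v2 => ?_, ?_, ?_⟩
  · linear_combination (W * (1 / y) * (R * (s * v1 + c * v2)) ^ 2) * hD
      + (W * (1 / y) * R ^ 2 * (v1 ^ 2 + v2 ^ 2)
        + W * κ * R ^ 4 * v1 ^ 2 * (s ^ 2 + c ^ 2 + 1)) * hsc + W * R ^ 2 * v1 ^ 2 * hκ'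
  · linear_combination (W * (1 / y) / 4 * (2 * (R * s) * α + R * Ψ)) * hA
  · rw [hP]
    ring

lemma prof_ev {f : ℝ × ℝ → ℝ} {J : Jet} {p : ℝ × ℝ} (hf : HasJet f J p) (h0 : 0 < J.v) :
    ∀ᶠ x in 𝓝 p, 0 < f x :=
  hf.smooth.continuousAt.eventually (lt_mem_nhds (hf.v ▸ h0))

variable {w g S y κ : ℝ × ℝ → ℝ} {t ρ : ℝ}

theorem adm_path {r ε O1 O2 k1 k2 τ1 τ2 : ℝ} {o k τ : ℝ → ℝ} (hp : Pt t ρ r) (hε : 0 < ε)
    (he : ∀ᶠ x : ℝ × ℝ in 𝓝 (t, ρ ^ 2), w x = o √(x.1 ^ 2 + x.2) ∧ g x = 0 ∧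
      S x = ε * √(x.1 ^ 2 + x.2) ∧
      y x = √(1 - τ √(x.1 ^ 2 + x.2) + τ √(x.1 ^ 2 + x.2) *
        ((x.1 ^ 2 + x.2) ^ 2 / (100 * Ph2 (S x) x.2 ^ 2))) ∧
      κ x = (k √(x.1 ^ 2 + x.2) ^ 2 - 1 / y x) / (x.1 ^ 2 + x.2))
    (hO : Has2 (fun l => o (Real.exp l) + l) (Real.log r) (o r + Real.log r) O1 O2)
    (hk : Has2 (fun l => k (Real.exp l)) (Real.log r) (k r) k1 k2)
    (hτ : Has2 (fun l => τ (Real.exp l)) (Real.log r) (τ r) τ1 τ2)
    (hk0 : 0 < k r) (hτ0 : 0 ≤ τ r) (hτ1 : τ r ≤ 1)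
    (h : ∀ θ, PathOK ((Jet.x1 (Real.log r)).comp (o r + Real.log r) O1 O2)
      ((Jet.x1 (Real.log r)).comp (k r) k1 k2) ((Jet.x1 (Real.log r)).comp (τ r) τ1 τ2) ε θ
      (ρ / r) (t / r)) : Adm (mkE w g S y κ) t ρ := by
  obtain ⟨hρ, hr, hsq⟩ := hp
  have hsc : (ρ / r) ^ 2 + (t / r) ^ 2 = 1 := by
    field_simp
    linarith only [hsq]
  have hs0 : 0 < ρ / r := div_pos hρ hr
  obtain ⟨θ, hc, hs⟩ : ∃ θ, Real.cos θ = t / r ∧ Real.sin θ = ρ / r := by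
    refine ⟨Real.arccos (t / r), Real.cos_arccos (by (refine le_of_not_gt fun h_nl => ?_; linarith only [h_nl, hsc, sq_nonneg ((1 : ℝ) * (ρ / r)), mul_pos_of_neg_of_neg (Mathlib.Tactic.Linarith.sub_neg_of_lt h_nl) (Mathlib.Tactic.Linarith.sub_neg_of_lt h_nl)])) (by (refine le_of_not_gt fun h_nl => ?_; linarith only [h_nl, hsc, sq_nonneg ((1 : ℝ) * (ρ / r)), mul_pos_of_neg_of_neg (Mathlib.Tactic.Linarith.sub_neg_of_lt h_nl) (Mathlib.Tactic.Linarith.sub_neg_of_lt h_nl)])), ?_⟩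
    rw [Real.sin_arccos, show 1 - (t / r) ^ 2 = (ρ / r) ^ 2 by linarith only [hsc], Real.sqrt_sq hs0.le]
  let q : ℝ × ℝ := (Real.log r, θ)
  have hβq : profB q = (t, ρ) := by
    simp only [profB, q, Real.exp_log hr, hc, hs]
    ext
    · simp only
      field_simp
    · simp only
      field_simp
  have jO := (hasJet_x1 q).comp hO
  have jK := (hasJet_x1 q).comp hk
  have jT := (hasJet_x1 q).comp hτ
  have jS : HasJet (fun x : ℝ × ℝ => Real.sin x.2) (sJ θ (ρ / r) (t / r)) q := by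
    have := (hasJet_x2 q).comp (has2_sin θ)
    rwa [hc, hs] at this
  have jU := jS.mul ((hasJet_cst ε q).inv hε.ne')
  have hU : (sJ θ (ρ / r) (t / r) * (Jet.cst ε).inv).v
      = (sJ θ (ρ / r) (t / r)).v / (Jet.cst ε).v := (div_eq_mul_inv _ _).symm
  have jΦ : HasJet (fun x : ℝ × ℝ => ε * phi (Real.sin x.2 * ε⁻¹))
      (PhiJ (Jet.cst ε) (sJ θ (ρ / r) (t / r))) q :=
    (hasJet_cst ε q).mul (jU.comp (by rw [hU]; exact has2_phi _))
  have jΨ : HasJet (fun x : ℝ × ℝ => ε * psi (Real.sin x.2 * ε⁻¹))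
      (PsiJ (Jet.cst ε) (sJ θ (ρ / r) (t / r))) q :=
    (hasJet_cst ε q).mul (jU.comp (by rw [hU]; exact has2_psi _))
  have hΦ0 : 0 < (PhiJ (Jet.cst ε) (sJ θ (ρ / r) (t / r))).v := mul_pos hε (phi_pos _)
  have hΨ0 : 0 < (PsiJ (Jet.cst ε) (sJ θ (ρ / r) (t / r))).v :=
    mul_pos hε (psi_pos (div_pos hs0 hε))
  have jI := (((jΦ.mul jΦ).mul (jΦ.mul jΦ)).smul 100).inv (by
    simp only [Jet.smul_v, Jet.mul_v]
    positivity)
  have jV := ((hasJet_cst 1 q).sub jT).add (jT.mul jI)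
  have hV0 : 0 < (Jet.cst 1 - (Jet.x1 (Real.log r)).comp (τ r) τ1 τ2 +
      (Jet.x1 (Real.log r)).comp (τ r) τ1 τ2 *
        ((100 : ℝ) • (PhiJ (Jet.cst ε) (sJ θ (ρ / r) (t / r)) *
          PhiJ (Jet.cst ε) (sJ θ (ρ / r) (t / r)) * (PhiJ (Jet.cst ε) (sJ θ (ρ / r) (t / r)) *
          PhiJ (Jet.cst ε) (sJ θ (ρ / r) (t / r))))).inv).v := by
    simp only [Jet.add_v, Jet.sub_v, Jet.mul_v, Jet.comp_v, Jet.cst_v, Jet.inv, Jet.smul_v]
    generalize (PhiJ (Jet.cst ε) (sJ θ (ρ / r) (t / r))).v = P at hΦ0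
    have h1 : 0 < (100 * (P * P * (P * P)))⁻¹ := by positivity
    rcases hτ0.eq_or_lt with h2 | h2
    · rw [← h2]
      norm_num
    · have := mul_pos h2 h1
      linarith only [hτ1, this]
  have ja := (jV.log hV0.ne').smul (1 / 4)
  have jF := (jΦ.smul (1 / 2)).log (by
    simp only [Jet.smul_v]
    positivity)
  have jH := (jΨ.smul (1 / 2)).log (by
    simp only [Jet.smul_v]
    positivity)
  refine ⟨profB, q, _, _, _, _, _, _, _, _, prof_contDiff.contDiffAt, hβq,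
    jO.add (jK.log hk0.ne'), jO.sub ja, (jO.add ja).add jF, (jO.sub ja).add jH, h θ, ?_⟩
  have hcont : Tendsto (fun x : ℝ × ℝ => ((profB x).1, (profB x).2 ^ 2)) (𝓝 q) (𝓝 (t, ρ ^ 2)) := by
    have h1 : Continuous (fun x : ℝ × ℝ => ((profB x).1, (profB x).2 ^ 2)) := by
      have := prof_contDiff.continuous
      fun_prop
    have h2 := h1.tendsto q
    rwa [hβq] at h2
  have ev1 := hcont.eventually he
  have ev2 := prof_ev jS hs0
  have ev3 := prof_ev jK hk0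
  have ev4 := prof_ev jV hV0
  filter_upwards [ev1, ev2, ev3, ev4] with x h1 h2 h3 h4
  have hx : (profB x).1 ^ 2 + (profB x).2 ^ 2 = Real.exp x.1 ^ 2 := by
    simp only [profB]
    linear_combination Real.exp x.1 ^ 2 * Real.sin_sq_add_cos_sq x.2
  simp only [hx, Real.sqrt_sq (Real.exp_pos x.1).le] at h1
  obtain ⟨b1, b2, b3, b4, b5⟩ := h1
  have key := prof_pt (Real.sin_sq_add_cos_sq x.2) h2 hε h3 rfl rfl h4 rfl b1 b2 b3 b4 b5
  refine ⟨fun v => ?_, key.2.1, key.2.2⟩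
  rw [prof_fderiv]
  exact key.1 v.1 v.2

theorem contDiffAt_mkE {x : ℝ × ℝ} (hx : 0 ≤ x.2) (hw : ContDiffAt ℝ ∞ w x)
    (hg : ContDiffAt ℝ ∞ g x) (hS : ContDiffAt ℝ ∞ S x) (hy : ContDiffAt ℝ ∞ y x)
    (hκ : ContDiffAt ℝ ∞ κ x) (hS0 : 0 < S x) (hy0 : 0 < y x) :
    ContDiffAt ℝ ∞ (mkE w g S y κ) x := by
  have h0 : 0 < x.2 + S x ^ 2 := by positivity
  have h1 : 0 < √(x.2 + S x ^ 2) := Real.sqrt_pos.2 h0
  have hz : ContDiffAt ℝ ∞ (fun p : ℝ × ℝ => p.2) x := contDiffAt_snd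
  have ht : ContDiffAt ℝ ∞ (fun p : ℝ × ℝ => p.1) x := contDiffAt_fst
  have hq : ContDiffAt ℝ ∞ (fun p : ℝ × ℝ => √(p.2 + S p ^ 2)) x :=
    (hz.add (hS.pow 2)).sqrt h0.ne'
  have hn : ContDiffAt ℝ ∞ (fun p : ℝ × ℝ => √(p.2 + S p ^ 2) / 8 + 15 / 8 * S p) x :=
    (hq.div_const 8).add (contDiffAt_const.mul hS)
  have hP : ContDiffAt ℝ ∞ (fun p : ℝ × ℝ => Ph2 (S p) p.2) x := (hn.pow 2).sub (hS.pow 2)
  have hA : ContDiffAt ℝ ∞ (fun p : ℝ × ℝ => af (S p) p.2) x :=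
    hn.div (contDiffAt_const.mul hq) (by positivity)
  have hY : ContDiffAt ℝ ∞ (fun p : ℝ × ℝ => 1 - p.2 * g p) x :=
    contDiffAt_const.sub (hz.mul hg)
  have hD : ContDiffAt ℝ ∞ (fun p : ℝ × ℝ => D3 (S p) (g p) p.2) x :=
    (contDiffAt_const.add (hY.mul hA)).mul
      ((contDiffAt_const.div (hq.mul (hq.add hS)) (by positivity)).add (hA.mul hg))
  have hE : ContDiffAt ℝ ∞ (fun p : ℝ × ℝ => Real.exp (2 * w p)) x :=
    (contDiffAt_const.mul hw).exp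
  refine contDiffAt_pi.2 fun i => ?_
  fin_cases i
  · exact hE.mul ((contDiffAt_const.div hy hy0.ne').add (hκ.mul (ht.pow 2)))
  · exact hE.mul (hκ.mul ht)
  · exact hE.mul ((hD.div hy hy0.ne').add hκ)
  · exact hE.mul (((hY.pow 2).mul (hA.pow 2)).div hy hy0.ne')
  · exact hE.mul ((((hY.pow 2).mul hy).mul hP).div_const 4)

end

end Pool.Agent.Work.MP_a9fb1f_gt
end

-- merged part: Pool.Agent.Work.MP_a9fb1f_gt.LB
section
/-! Two-sided bounds for the metric at a point. -/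

set_option autoImplicit false

open scoped Manifold ContDiff Topology ENNReal Bundle RealInnerProductSpace
open Filter Set

namespace Pool.Agent.Work.MP_a9fb1f_gt

noncomputable section

lemma LB_v {S z : ℝ} (hS : 0 < S) (hz : 0 ≤ z) :
    S ≤ √(z + S ^ 2) ∧ √(z + S ^ 2) ^ 2 = z + S ^ 2 ∧ √(z + S ^ 2) ≤ √z + S := by
  have h0 : 0 ≤ z + S ^ 2 := by positivity
  refine ⟨Real.le_sqrt_of_sq_le (by linarith), Real.sq_sqrt h0, ?_⟩
  have h1 := Real.sq_sqrt hz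
  have h2 := Real.sqrt_nonneg z
  refine Real.sqrt_le_iff.2 ⟨by positivity, ?_⟩
  linarith only [h1, h2, hS, mul_nonneg h2 hS.le]

lemma Ph2_bounds {S z : ℝ} (hS : 0 < S) (hz : 0 ≤ z) :
    z / 64 ≤ Ph2 S z ∧ 0 < Ph2 S z ∧ Ph2 S z ≤ 4 * (z + S ^ 2) ∧
      Ph2 S z ≤ (√z / 8 + 2 * S) ^ 2 := by
  obtain ⟨h1, h2, h3⟩ := LB_v hS hz
  unfold Ph2
  generalize √(z + S ^ 2) = v at h1 h2 h3
  have h4 := Real.sqrt_nonneg z
  generalize √z = ρ at h3 h4
  have h5 : 0 < v * S := mul_pos (by linarith) hS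
  have h6 : 0 < S ^ 2 := by positivity
  refine ⟨by linarith only [h2, h5, h6], by linarith only [hz, h2, h5, h6], ?_, ?_⟩
  · have : (v / 8 + 15 / 8 * S) ^ 2 ≤ (2 * v) ^ 2 :=
      pow_le_pow_left₀ (by linarith only [hS, h1]) (by linarith only [h1]) 2
    linarith only [h2, h6, this]
  · have : (v / 8 + 15 / 8 * S) ^ 2 ≤ (ρ / 8 + 2 * S) ^ 2 :=
      pow_le_pow_left₀ (by linarith only [hS, h1]) (by linarith only [h3]) 2
    linarith only [h6, this]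

lemma af_bounds {S z : ℝ} (hS : 0 < S) (hz : 0 ≤ z) : 1 / 16 ≤ af S z ∧ af S z ≤ 1 := by
  obtain ⟨h1, -, -⟩ := LB_v hS hz
  unfold af
  generalize √(z + S ^ 2) = v at h1
  have hv : 0 < 2 * v := by linarith only [hS, h1]
  exact ⟨(le_div_iff₀ hv).2 (by linarith only [hS]), (div_le_iff₀ hv).2 (by linarith only [h1])⟩

lemma LB_core {j κ t ρ b a p s : ℝ} (hb : 0 < b) (hj : 0 < j) (hj1 : j ≤ 1)
    (hs : s * (ρ ^ 2 + b ^ 2) = ρ ^ 2) (hs0 : 0 ≤ s) (hs1 : s ≤ 1) (hsj : s ≤ 576 * j)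
    (h : (κ = 0 ∧ j = 1) ∨ (b ^ 2 = t ^ 2 + ρ ^ 2 ∧ 1 / 4 ≤ κ * (t ^ 2 + ρ ^ 2) + j ∧
      κ * (t ^ 2 + ρ ^ 2) + j ≤ 4)) :
    j * (a ^ 2 + p ^ 2) + κ * (t * a + ρ * p) ^ 2 ≤ 4 * (a ^ 2 + p ^ 2) ∧
    a ^ 2 + s * p ^ 2 ≤ 2880 * (j * (a ^ 2 + p ^ 2) + κ * (t * a + ρ * p) ^ 2) ∧
    j / 4 * (a ^ 2 + p ^ 2) ≤ j * (a ^ 2 + p ^ 2) + κ * (t * a + ρ * p) ^ 2 := by
  have ha := sq_nonneg a
  have hp := sq_nonneg p
  rcases h with ⟨rfl, rfl⟩ | ⟨hR, hk1, hk2⟩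
  · have : s * p ^ 2 ≤ 1 * p ^ 2 := mul_le_mul_of_nonneg_right hs1 hp
    refine ⟨by linarith only [ha, hp], by linarith, by linarith only [ha, hp]⟩
  · obtain ⟨R, hRd⟩ : ∃ R, R = t ^ 2 + ρ ^ 2 := ⟨_, rfl⟩
    have hR0 : 0 < R := by rw [hRd, ← hR]; positivity
    obtain ⟨X, hX⟩ : ∃ X, X = (t * a + ρ * p) ^ 2 / R := ⟨_, rfl⟩
    obtain ⟨N, hN⟩ : ∃ N, N = (ρ * a - t * p) ^ 2 / R := ⟨_, rfl⟩
    have hX0 : 0 ≤ X := by rw [hX]; positivity
    have hN0 : 0 ≤ N := by rw [hN]; positivity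
    have eX : (t * a + ρ * p) ^ 2 = R * X := by rw [hX]; field_simp
    have eN : (ρ * a - t * p) ^ 2 = R * N := by rw [hN]; field_simp
    have e1 : a ^ 2 + p ^ 2 = X + N := by
      apply mul_left_cancel₀ hR0.ne'
      rw [mul_add R X N, ← eX, ← eN, hRd]
      ring
    have e2 : a ^ 2 ≤ 2 * X + 4 * s * N := by
      have f1 : (a * R) ^ 2 ≤ 2 * t ^ 2 * (t * a + ρ * p) ^ 2 + 2 * ρ ^ 2 * (ρ * a - t * p) ^ 2 := by
        have : a * R = t * (t * a + ρ * p) + ρ * (ρ * a - t * p) := by rw [hRd]; ring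
        rw [this]
        linarith only [sq_nonneg (t * (t * a + ρ * p) - ρ * (ρ * a - t * p)), sq_nonneg (t * (t * a + ρ * p) - ρ * (ρ * a - t * p))]
      rw [eX, eN] at f1
      have f2 : t ^ 2 ≤ R := by rw [hRd]; linarith only [sq_nonneg ρ, sq_nonneg ρ]
      have f3 : ρ ^ 2 ≤ 2 * s * R := by
        have : s * (ρ ^ 2 + b ^ 2) ≤ s * (2 * R) :=
          mul_le_mul_of_nonneg_left (by rw [hR, hRd]; linarith only [sq_nonneg t, sq_nonneg t]) hs0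
        linarith only [hs, this]
      have f4 : t ^ 2 * (R * X) ≤ R * (R * X) := mul_le_mul_of_nonneg_right f2 (by positivity)
      have f5 : ρ ^ 2 * (R * N) ≤ 2 * s * R * (R * N) :=
        mul_le_mul_of_nonneg_right f3 (by positivity)
      have f6 : R ^ 2 * a ^ 2 ≤ R ^ 2 * (2 * X + 4 * s * N) := by linarith only [f1, f4, f5]
      exact le_of_mul_le_mul_left f6 (by positivity)
    have eM : j * (a ^ 2 + p ^ 2) + κ * (t * a + ρ * p) ^ 2 = (κ * R + j) * X + j * N := by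
      rw [e1, eX]; ring
    rw [← hRd] at hk1 hk2
    have g1 : 1 / 4 * X ≤ (κ * R + j) * X := mul_le_mul_of_nonneg_right hk1 hX0
    have g2 : (κ * R + j) * X ≤ 4 * X := mul_le_mul_of_nonneg_right hk2 hX0
    have g3 : j * N ≤ 1 * N := mul_le_mul_of_nonneg_right hj1 hN0
    have g4 : j * X ≤ 1 * X := mul_le_mul_of_nonneg_right hj1 hX0
    have g5 : s * N ≤ 576 * j * N := mul_le_mul_of_nonneg_right hsj hN0
    have g6 : s * X ≤ 1 * X := mul_le_mul_of_nonneg_right hs1 hX0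
    have g7 : s * p ^ 2 ≤ s * (X + N) := mul_le_mul_of_nonneg_left (by linarith only [ha, e1]) hs0
    have g8 : 0 ≤ j * N := by positivity
    rw [eM]
    refine ⟨by linarith only [hN0, e1, g2, g3], by linarith only [hX0, e2, g1, g5, g6, g7], ?_⟩
    rw [e1]
    linarith only [g1, g4, g8]

lemma LB_split {z ζ β γ D c : ℝ} (h : Ad z ζ β γ) (hD : D * z = 1 - c) :
    ∃ p, ζ = √z * p ∧ p ^ 2 ≤ β ∧ D * ζ ^ 2 + c * β = p ^ 2 + c * (β - p ^ 2) := by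
  rcases h.z0.eq_or_lt with h0 | h0
  · have h1 := h.cs
    rw [← h0, zero_mul] at h1
    have h2 : ζ = 0 := by nlinarith [sq_nonneg ζ]
    exact ⟨0, by simp [h2], by simpa using h.b0, by simp [h2]⟩
  · have h1 : 0 < √z := Real.sqrt_pos.2 h0
    have h2 := Real.sq_sqrt h0.le
    have h3 : ζ = √z * (ζ / √z) := by field_simp
    refine ⟨ζ / √z, h3, ?_, ?_⟩
    · rw [div_pow, h2, div_le_iff₀ h0]
      linarith [h.cs]
    · generalize ζ / √z = p at h3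
      have : ζ ^ 2 = z * p ^ 2 := by rw [h3, mul_pow, h2]
      rw [this, ← mul_assoc, hD]
      ring

theorem lbat_mkV {w g S y κ t z b : ℝ} (hz : 0 ≤ z) (hw : |w| ≤ 1 / 4) (hg : 0 ≤ g)
    (hg1 : z * g ≤ 1 / 2) (hS : 0 < S) (hSb : S ≤ b) (hy : 1 ≤ y)
    (hy1 : y * Ph2 S z ≤ 9 * (z + b ^ 2))
    (h : (κ = 0 ∧ y = 1) ∨ (b ^ 2 = t ^ 2 + z ∧ 1 / 4 ≤ κ * (t ^ 2 + z) + 1 / y ∧
      κ * (t ^ 2 + z) + 1 / y ≤ 4)) : LBat (mkV w g S y κ t z) z b := by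
  have hb : 0 < b := hS.trans_le hSb
  have hy0 : 0 < y := by linarith only [hy]
  obtain ⟨p1, p2, -, -⟩ := Ph2_bounds hS hz
  obtain ⟨a1, a2⟩ := af_bounds hS hz
  have hD := D3_mul (g := g) hS hz
  have hρ := Real.sq_sqrt hz
  obtain ⟨w1, w2⟩ := abs_le.1 hw
  have E1 : 1 / 2 ≤ Real.exp (2 * w) := by linarith only [w1, Real.add_one_le_exp (2 * w)]
  have E2 : Real.exp (2 * w) ≤ 2 := by
    have h1 := Real.add_one_le_exp (-(2 * w))
    have h2 : Real.exp (2 * w) * Real.exp (-(2 * w)) = 1 := by rw [← Real.exp_add]; simp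
    linarith only [w2, h1, h2, E1, Real.exp_pos (2 * w), mul_nonneg_of_nonpos_of_nonpos (Mathlib.Tactic.Linarith.sub_nonpos_of_le w2) (Mathlib.Tactic.Linarith.sub_nonpos_of_le E1), mul_nonneg_of_nonpos_of_nonpos (Mathlib.Tactic.Linarith.sub_nonpos_of_le E1) (Mathlib.Tactic.Linarith.sub_nonpos_of_le h1)]
  have hzg : 0 ≤ z * g := mul_nonneg hz hg
  have Y1 : 1 / 4 ≤ (1 - z * g) ^ 2 := by linarith only [hg1, mul_nonneg_of_nonpos_of_nonpos (Mathlib.Tactic.Linarith.sub_nonpos_of_le hg1) (Mathlib.Tactic.Linarith.sub_nonpos_of_le hg1)]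
  have Y2 : (1 - z * g) ^ 2 ≤ 1 := by linarith only [hzg, hg1, mul_nonneg_of_nonpos_of_nonpos (Mathlib.Tactic.Linarith.sub_nonpos_of_le hg1) (Mathlib.Tactic.Linarith.sub_nonpos_of_le hzg)]
  have A1 : 1 / 256 ≤ af S z ^ 2 := by linarith only [a1, mul_nonneg_of_nonpos_of_nonpos (Mathlib.Tactic.Linarith.sub_nonpos_of_le a1) (Mathlib.Tactic.Linarith.sub_nonpos_of_le a1)]
  have A2 : af S z ^ 2 ≤ 1 := by linarith only [a2, a1, mul_nonneg_of_nonpos_of_nonpos (Mathlib.Tactic.Linarith.sub_nonpos_of_le a1) (Mathlib.Tactic.Linarith.sub_nonpos_of_le a2)]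
  have c1 : 1 / 1024 ≤ (1 - z * g) ^ 2 * af S z ^ 2 := by
    have := mul_le_mul Y1 A1 (by norm_num) (by linarith only [Y1])
    linarith only [this]
  have c2 : (1 - z * g) ^ 2 * af S z ^ 2 ≤ 1 := by
    have := mul_le_mul Y2 A2 (by linarith only [A1]) (by norm_num)
    linarith only [this]
  have zb : 0 < z + b ^ 2 := by positivity
  have s0 : 0 ≤ z / (z + b ^ 2) := by positivity
  have s1 : z / (z + b ^ 2) ≤ 1 := (div_le_one zb).2 (by linarith only [sq_nonneg b])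
  have j0 : 0 < 1 / y := by positivity
  have j1 : 1 / y ≤ 1 := (div_le_one hy0).2 hy
  have sj : z / (z + b ^ 2) ≤ 576 * (1 / y) := by
    rw [mul_one_div, div_le_div_iff₀ zb hy0]
    have : y * (z / 64) ≤ y * Ph2 S z := mul_le_mul_of_nonneg_left p1 hy0.le
    linarith only [hy1, this]
  have G1 : z / 1024 ≤ (1 - z * g) ^ 2 * y * Ph2 S z / 4 := by
    have h1 : 1 * (z / 64) ≤ y * Ph2 S z := mul_le_mul hy p1 (by positivity) hy0.le
    have h2 := mul_le_mul Y1 h1 (by positivity) (by linarith only [Y1])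
    rw [mul_assoc]
    linarith only [h2]
  have G2 : (1 - z * g) ^ 2 * y * Ph2 S z / 4 ≤ 9 / 4 * (z + b ^ 2) := by
    have h2 := mul_le_mul Y2 hy1 (by positivity) (by norm_num)
    rw [mul_assoc]
    linarith only [h2]
  have G3 : 0 < (1 - z * g) ^ 2 * y * Ph2 S z / 4 := by
    have : 0 < (1 - z * g) ^ 2 := by linarith only [Y1]
    positivity
  have e4 : mkV w g S y κ t z 4 = Real.exp (2 * w) * ((1 - z * g) ^ 2 * y * Ph2 S z / 4) := rfl
  have key : ∀ a ζ β γ, Ad z ζ β γ → ∃ p M : ℝ, p ^ 2 ≤ β ∧ M ≤ 4 * (a ^ 2 + p ^ 2) ∧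
      a ^ 2 + z / (z + b ^ 2) * p ^ 2 ≤ 2880 * M ∧ 1 / y / 4 * (a ^ 2 + p ^ 2) ≤ M ∧
      Qf (mkV w g S y κ t z) a ζ β γ = Real.exp (2 * w) *
        (M + 1 / y * ((1 - z * g) ^ 2 * af S z ^ 2) * (β - p ^ 2) +
          (1 - z * g) ^ 2 * y * Ph2 S z / 4 * γ) := by
    intro a ζ β γ hA
    obtain ⟨p, q1, q2, q3⟩ := LB_split hA hD
    obtain ⟨m1, m2, m3⟩ := LB_core (κ := κ) (t := t) (ρ := √z) (a := a) (p := p) hb j0 j1
      (by rw [hρ]; field_simp) s0 s1 sj (by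
        rw [hρ]
        exact h.imp (fun h => ⟨h.1, by rw [h.2]; norm_num⟩) id)
    refine ⟨p, _, q2, m1, m2, m3, ?_⟩
    rw [← q1]
    have e : Qf (mkV w g S y κ t z) a ζ β γ = Real.exp (2 * w) *
        (1 / y * (a ^ 2 + (D3 S g z * ζ ^ 2 + (1 - z * g) ^ 2 * af S z ^ 2 * β)) +
          κ * (t * a + ζ) ^ 2 + (1 - z * g) ^ 2 * y * Ph2 S z / 4 * γ) := by
      change Real.exp (2 * w) * (1 / y + κ * t ^ 2) * a ^ 2 +
        2 * (Real.exp (2 * w) * (κ * t)) * a * ζ +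
        Real.exp (2 * w) * (D3 S g z / y + κ) * ζ ^ 2 +
        Real.exp (2 * w) * ((1 - z * g) ^ 2 * af S z ^ 2 / y) * β +
        Real.exp (2 * w) * ((1 - z * g) ^ 2 * y * Ph2 S z / 4) * γ = _
      ring
    rw [e, q3]
    ring
  generalize Real.exp (2 * w) = E at E1 E2 e4 key
  generalize (1 - z * g) ^ 2 * y * Ph2 S z / 4 = G at G1 G2 G3 e4 key
  generalize (1 - z * g) ^ 2 * af S z ^ 2 = c at c1 c2 key
  generalize 1 / y = j at j0 j1 sj key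
  have hE : 0 < E := by linarith only [E1]
  have jc0 : 0 < j * c := mul_pos j0 (by linarith only [c1])
  have jc1 : j * c ≤ 1 := mul_le_one₀ j1 (by linarith only [c1]) c2
  refine ⟨fun a ζ β γ hA => ?_, fun a ζ β γ hA => ?_, fun a ζ β γ hA => ?_,
    fun a ζ β γ hA hne => ?_⟩ <;>
  obtain ⟨p, M, q2, m1, m2, m3, e⟩ := key a ζ β γ hA <;>
  have hγ := hA.c0 <;> have hβ := hA.b0 <;> have ha := sq_nonneg a <;> have hp := sq_nonneg p <;>
  have M0 : 0 ≤ M := le_trans (by positivity) m3 <;>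
  have b0 : 0 ≤ j * c * (β - p ^ 2) := mul_nonneg jc0.le (by linarith only [q2]) <;>
  have g0 : 0 ≤ G * γ := mul_nonneg G3.le hγ <;> rw [e]
  · have h1 : j * c * (β - p ^ 2) ≤ 1 * (β - p ^ 2) := mul_le_mul_of_nonneg_right jc1 (by linarith only [q2])
    have h2 : G * γ ≤ 9 / 4 * (z + b ^ 2) * γ := mul_le_mul_of_nonneg_right G2 hγ
    have h3 := mul_le_mul_of_nonneg_right E2 (add_nonneg (add_nonneg M0 b0) g0)
    have h4 : 0 ≤ (z + b ^ 2) * γ := by positivity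
    rw [mul_assoc] at h2
    generalize (z + b ^ 2) * γ = u at h2 h4 ⊢
    linarith only [q2, m1, hβ, ha, g0, h1, h3, h2]
  · generalize z / (z + b ^ 2) = s at s0 s1 sj m2
    have h0 : s ≤ 589824 * (j * c) := by
      have := mul_le_mul_of_nonneg_left c1 j0.le
      linarith only [sj, this]
    have h1 : s * (β - p ^ 2) ≤ 589824 * (j * c) * (β - p ^ 2) :=
      mul_le_mul_of_nonneg_right h0 (by linarith only [q2])
    have h2 : z / 1024 * γ ≤ G * γ := mul_le_mul_of_nonneg_right G1 hγ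
    have h3 := mul_le_mul_of_nonneg_right E1 (add_nonneg (add_nonneg M0 b0) g0)
    linarith only [M0, b0, g0, m2, h1, h2, h3]
  · rw [e4, mul_assoc]
    exact mul_le_mul_of_nonneg_left (by linarith only [M0, b0]) hE.le
  · refine mul_pos hE ?_
    have hj4 : 0 < j / 4 := by linarith only [j0]
    rcases hne with h1 | h1 | h1
    · have : 0 < j / 4 * (a ^ 2 + p ^ 2) := mul_pos hj4 (by positivity)
      linarith only [m3, b0, g0, this]
    · have h2 : 0 < β := lt_of_le_of_ne hβ (Ne.symm h1)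
      rcases q2.eq_or_lt with h3 | h3
      · have : 0 < j / 4 * (a ^ 2 + p ^ 2) := mul_pos hj4 (by linarith only [ha, h2, h3])
        linarith only [m3, b0, g0, this]
      · have : 0 < j * c * (β - p ^ 2) := mul_pos jc0 (by linarith only [h3])
        linarith only [M0, g0, this]
    · have : 0 < G * γ := mul_pos G3 (lt_of_le_of_ne hγ (Ne.symm h1))
      linarith only [M0, b0, this]

end

end Pool.Agent.Work.MP_a9fb1f_gt
end
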