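import Pool.Agent.Work.MP_a9fb1f_gt.PertF
import Pool.Agent.Work.MP_a9fb1f_gt.PertB

/-! The perturbative form of the Ricci tensor. -/

set_option autoImplicit false

open scoped Manifold ContDiff Topology ENNReal Bundle RealInnerProductSpace
open Filter Set

namespace Pool.Agent.Work.MP_a9fb1f_gt

noncomputable section

variable {S Y W : Jet} {ρ : ℝ}

/-- the jet of `log (S f(ρ / S) / 2)` -/
def pertG (S : Jet) (ρ f0 f1 f2 : ℝ) : Jet :=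
  ((1 / 2 : ℝ) • (S * (Jet.x2 ρ * S.inv).comp f0 f1 f2)).log

lemma pertG_v (f0 f1 f2 : ℝ) : (pertG S ρ f0 f1 f2).v = Real.log (1 / 2 * (S.v * f0)) := rfl

lemma pertG_a {f0 f1 f2 : ℝ} (hS : S.v ≠ 0) (hf : f0 ≠ 0) :
    (pertG S ρ f0 f1 f2).a = (1 - ρ / S.v * f1 / f0) / S.v * S.a := by
  simp only [pertG, Jet.log, Jet.inv, Jet.comp_a, Jet.comp_v, Jet.smul_a, Jet.smul_v, Jet.mul_a,
    Jet.mul_v, Jet.x2_a, Jet.x2_v]
  field_simp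
  ring

lemma pertG_b {f0 f1 f2 : ℝ} (hS : S.v ≠ 0) (hf : f0 ≠ 0) :
    (pertG S ρ f0 f1 f2).b = f1 / (S.v * f0) + (1 - ρ / S.v * f1 / f0) / S.v * S.b := by
  simp only [pertG, Jet.log, Jet.inv, Jet.comp_b, Jet.comp_v, Jet.smul_b, Jet.smul_v, Jet.mul_b,
    Jet.mul_v, Jet.x2_b, Jet.x2_v]
  field_simp
  ring

lemma pertG_aa {f0 f1 f2 : ℝ} (hS : S.v ≠ 0) (hf : f0 ≠ 0) :
    (pertG S ρ f0 f1 f2).aa = (1 - ρ / S.v * f1 / f0) / S.v * S.aa +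
      f2 / f0 * (ρ / S.v * S.a) ^ 2 / S.v ^ 2 - (pertG S ρ f0 f1 f2).a ^ 2 := by
  rw [pertG_a hS hf]
  simp only [pertG, Jet.log, Jet.inv, Jet.comp_a, Jet.comp_aa, Jet.comp_v, Jet.smul_a,
    Jet.smul_aa, Jet.smul_v, Jet.mul_a, Jet.mul_aa, Jet.mul_v, Jet.x2_a, Jet.x2_aa, Jet.x2_v]
  field_simp
  ring

lemma pertG_bb {f0 f1 f2 : ℝ} (hS : S.v ≠ 0) (hf : f0 ≠ 0) :
    (pertG S ρ f0 f1 f2).bb = (1 - ρ / S.v * f1 / f0) / S.v * S.bb +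
      f2 / f0 * (1 - ρ / S.v * S.b) ^ 2 / S.v ^ 2 - (pertG S ρ f0 f1 f2).b ^ 2 := by
  rw [pertG_b hS hf]
  simp only [pertG, Jet.log, Jet.inv, Jet.comp_b, Jet.comp_bb, Jet.comp_v, Jet.smul_b,
    Jet.smul_bb, Jet.smul_v, Jet.mul_b, Jet.mul_bb, Jet.mul_v, Jet.x2_b, Jet.x2_bb, Jet.x2_v]
  field_simp
  ring

lemma pert_abs_mul {a b A B : ℝ} (ha : |a| ≤ A) (hb : |b| ≤ B) : |a * b| ≤ A * B := by
  rw [abs_mul]
  exact mul_le_mul ha hb (abs_nonneg _) ((abs_nonneg _).trans ha)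

lemma pert_err {x σ1 σ3 p1 p3 Sa Sb Saa Sbb Ua Ub Uaa Ubb : ℝ} (hx : 0 < x) (hρ : 0 < ρ)
    (hρx : ρ ≤ x) (s1 : |σ1| ≤ 16 / x) (s3 : |σ3| ≤ 16 / x) (q1 : |p1| ≤ 1 / ρ)
    (q3 : |p3| ≤ 1 / ρ) (hSa : |Sa| ≤ 1 / 10 ^ 4) (hSb : |Sb| ≤ 1 / 10 ^ 4 * ρ / x)
    (hSaa : |Saa| ≤ 1 / 10 ^ 4 / x) (hSbb : |Sbb| ≤ 1 / 10 ^ 4 / x)
    (hUa : |Ua| ≤ 4 / 10 ^ 4 / x) (hUb : |Ub| ≤ 4 / 10 ^ 4 * ρ / x ^ 2)
    (hUaa : |Uaa| ≤ 4 / 10 ^ 4 / x ^ 2) (hUbb : |Ubb| ≤ 4 / 10 ^ 4 / x ^ 2) :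
    Uaa + Ubb + 3 * (Ua * Ua + Ub * Ub) + 2 * (Ua * (σ1 * Sa)) + 4 * (Ua * (σ3 * Sa)) +
      2 * (Ub * p1) + 4 * (Ub * p3) + 2 * (Ub * (σ1 * Sb)) + 4 * (Ub * (σ3 * Sb)) +
      2 * (σ1 * Sa * (σ3 * Sa)) + 2 * (σ1 * Sb * (σ3 * Sb)) + 2 * (p1 * Sb * σ3) +
      2 * (p3 * Sb * σ1) + σ3 * Saa + σ3 * Sbb ≤ 1 / 10 * (1 / x ^ 2) := by
  have hq : ρ / x ≤ 1 := (div_le_one hx).2 hρx
  have hSb' : |Sb| ≤ 1 / 10 ^ 4 := by
    refine hSb.trans ?_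
    rw [mul_div_assoc]
    exact mul_le_of_le_one_right (by positivity) hq
  have hUb' : |Ub| ≤ 4 / 10 ^ 4 / x := by
    refine hUb.trans ?_
    have : 4 / 10 ^ 4 * ρ / x ^ 2 = 4 / 10 ^ 4 / x * (ρ / x) := by field_simp
    rw [this]
    exact mul_le_of_le_one_right (by positivity) hq
  set i := 1 / x ^ 2 with hi
  have hi0 : 0 < i := by positivity
  have e0 : 4 / 10 ^ 4 / x ^ 2 = 4 / 10 ^ 4 * i := by rw [hi]; field_simp
  have e1 : 4 / 10 ^ 4 / x * (4 / 10 ^ 4 / x) = 16 / 10 ^ 8 * i := by rw [hi]; field_simp; norm_num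
  have e2 : 4 / 10 ^ 4 / x * (16 / x * (1 / 10 ^ 4)) = 64 / 10 ^ 8 * i := by
    rw [hi]; field_simp; norm_num
  have e3 : 4 / 10 ^ 4 * ρ / x ^ 2 * (1 / ρ) = 4 / 10 ^ 4 * i := by rw [hi]; field_simp
  have e4 : 16 / x * (1 / 10 ^ 4) * (16 / x * (1 / 10 ^ 4)) = 256 / 10 ^ 8 * i := by
    rw [hi]; field_simp; norm_num
  have e5 : 1 / ρ * (1 / 10 ^ 4 * ρ / x) * (16 / x) = 16 / 10 ^ 4 * i := by rw [hi]; field_simp
  have e6 : 16 / x * (1 / 10 ^ 4 / x) = 16 / 10 ^ 4 * i := by rw [hi]; field_simp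
  have t1 := (le_abs_self _).trans (hUaa.trans_eq e0)
  have t2 := (le_abs_self _).trans (hUbb.trans_eq e0)
  have t3 := (le_abs_self _).trans ((pert_abs_mul hUa hUa).trans_eq e1)
  have t4 := (le_abs_self _).trans ((pert_abs_mul hUb' hUb').trans_eq e1)
  have t5 := (le_abs_self _).trans ((pert_abs_mul hUa (pert_abs_mul s1 hSa)).trans_eq e2)
  have t6 := (le_abs_self _).trans ((pert_abs_mul hUa (pert_abs_mul s3 hSa)).trans_eq e2)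
  have t7 := (le_abs_self _).trans ((pert_abs_mul hUb q1).trans_eq e3)
  have t8 := (le_abs_self _).trans ((pert_abs_mul hUb q3).trans_eq e3)
  have t9 := (le_abs_self _).trans ((pert_abs_mul hUb' (pert_abs_mul s1 hSb')).trans_eq e2)
  have t10 := (le_abs_self _).trans ((pert_abs_mul hUb' (pert_abs_mul s3 hSb')).trans_eq e2)
  have t11 := (le_abs_self _).trans
    ((pert_abs_mul (pert_abs_mul s1 hSa) (pert_abs_mul s3 hSa)).trans_eq e4)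
  have t12 := (le_abs_self _).trans
    ((pert_abs_mul (pert_abs_mul s1 hSb') (pert_abs_mul s3 hSb')).trans_eq e4)
  have t13 := (le_abs_self _).trans ((pert_abs_mul (pert_abs_mul q1 hSb) s3).trans_eq e5)
  have t14 := (le_abs_self _).trans ((pert_abs_mul (pert_abs_mul q3 hSb) s1).trans_eq e5)
  have t15 := (le_abs_self _).trans ((pert_abs_mul s3 hSaa).trans_eq e6)
  have t16 := (le_abs_self _).trans ((pert_abs_mul s3 hSbb).trans_eq e6)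
  linarith only [hi0, t1, t2, t3, t4, t5, t6, t7, t8, t9, t10, t11, t12, t13, t14, t15, t16]

lemma pert_bracket {u n2 y : ℝ} (hu : 0 < u) (hn0 : 0 ≤ n2) (hn : u ≤ 1 → 9 / 10 ≤ n2)
    (hy : 0 < y) (hy1 : y ≤ 1) :
    1 / 2 ≤ 45 / (8 * bw u ^ 4 * bp u) * n2 * phi u ^ 2 - psi1 u / 4 +
      2 * psi u ^ 2 / (phi u ^ 2 * y ^ 2) := by
  have hw := one_le_bw u
  have hw2 := bw_sq u
  have hp := phi_pos u
  have hp3 := three_le_phi_sq u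
  have hbp : 0 < bp u := hp.trans_le (phi_le_bp u)
  have h1 := (psi1_mem u).2
  rcases le_total u 1 with h | h
  · have hw4 : bw u ^ 4 ≤ 4 := by
      have : bw u ^ 4 = (1 + u ^ 2) ^ 2 := by rw [← hw2]; ring
      have hu2 : u ^ 2 ≤ 1 := by linarith only [h, hu, mul_nonneg_of_nonpos_of_nonpos (le_of_lt (Mathlib.Tactic.Linarith.sub_neg_of_lt hu)) (Mathlib.Tactic.Linarith.sub_nonpos_of_le h)]
      rw [this]
      linarith only [hu2, sq_nonneg u, mul_nonneg_of_nonpos_of_nonpos (Mathlib.Tactic.Linarith.sub_nonpos_of_le (sq_nonneg u)) (Mathlib.Tactic.Linarith.sub_nonpos_of_le hu2)]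
    have hw32 : bw u ≤ 3 / 2 := by linarith only [hw2, h, hu, hw, mul_nonneg_of_nonpos_of_nonpos (le_of_lt (Mathlib.Tactic.Linarith.sub_neg_of_lt hu)) (Mathlib.Tactic.Linarith.sub_nonpos_of_le h), mul_nonneg_of_nonpos_of_nonpos (Mathlib.Tactic.Linarith.sub_nonpos_of_le hw) (Mathlib.Tactic.Linarith.sub_nonpos_of_le hw)]
    have hb : bp u ≤ 33 / 16 := by unfold bp; linarith only [hw32]
    have hd : 8 * bw u ^ 4 * bp u ≤ 66 := by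
      have : bw u ^ 4 * bp u ≤ 4 * (33 / 16) :=
        mul_le_mul hw4 hb hbp.le (by norm_num)
      linarith only [this]
    have hc : 45 / 66 ≤ 45 / (8 * bw u ^ 4 * bp u) :=
      div_le_div_of_nonneg_left (by norm_num) (by positivity) hd
    have h2 : 45 / 66 * (9 / 10) * 3 ≤ 45 / (8 * bw u ^ 4 * bp u) * n2 * phi u ^ 2 :=
      mul_le_mul (mul_le_mul hc (hn h) (by norm_num) (by positivity)) hp3 (by norm_num)
        (by positivity)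
    have h3 : 0 ≤ 2 * psi u ^ 2 / (phi u ^ 2 * y ^ 2) := by positivity
    linarith only [h1, h2, h3]
  · have h2 : 0 ≤ 45 / (8 * bw u ^ 4 * bp u) * n2 * phi u ^ 2 := by positivity
    have h3 : 1 ≤ 2 * psi u ^ 2 / (phi u ^ 2 * y ^ 2) := by
      rw [le_div_iff₀ (by positivity)]
      have a1 := le_psi_sq u
      have a2 : bw u ^ 2 ≤ 2 * u ^ 2 := by linarith only [hw2, h, hu, mul_nonneg_of_nonpos_of_nonpos (le_of_lt (Mathlib.Tactic.Linarith.sub_neg_of_lt hu)) (Mathlib.Tactic.Linarith.sub_nonpos_of_le h)]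
      have a3 : bw u ^ 2 * psi u ^ 2 ≤ 2 * u ^ 2 * psi u ^ 2 :=
        mul_le_mul_of_nonneg_right a2 (sq_nonneg _)
      have a4 : phi u ^ 2 ≤ 2 * psi u ^ 2 := by
        have hu2 : 0 < u ^ 2 := by positivity
        (refine le_of_not_gt fun h_nl => ?_; linarith only [h_nl, a1, hw2, a2, Mathlib.Tactic.Linarith.mul_zero_eq (Mathlib.Tactic.Linarith.sub_nonpos_of_le (sq_nonneg (psi u))) (sub_eq_zero_of_eq hw2), Mathlib.Tactic.Linarith.mul_zero_eq (Mathlib.Tactic.Linarith.sub_nonpos_of_le (sq_nonneg (phi u))) (sub_eq_zero_of_eq hw2), mul_nonneg_of_nonpos_of_nonpos (Mathlib.Tactic.Linarith.sub_nonpos_of_le (sq_nonneg (phi u))) (Mathlib.Tactic.Linarith.sub_nonpos_of_le a2), mul_nonneg_of_nonpos_of_nonpos (Mathlib.Tactic.Linarith.sub_nonpos_of_le (sq_nonneg u)) (le_of_lt (Mathlib.Tactic.Linarith.sub_neg_of_lt h_nl))])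
      have a5 : y ^ 2 ≤ 1 := by linarith only [hy1, hy, mul_nonneg_of_nonpos_of_nonpos (le_of_lt (Mathlib.Tactic.Linarith.sub_neg_of_lt hy)) (Mathlib.Tactic.Linarith.sub_nonpos_of_le hy1)]
      have a6 : phi u ^ 2 * y ^ 2 ≤ phi u ^ 2 := mul_le_of_le_one_right (sq_nonneg _) a5
      linarith only [a4, a6]
    linarith only [h1, h2, h3]

lemma pert_main {s x n2 y : ℝ} (hρ : 0 < ρ) (hs : 0 < s) (hx : x = vr s ρ) (hn0 : 0 ≤ n2)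
    (hn : ρ / s ≤ 1 → 9 / 10 ≤ n2) (hy : 0 < y) (hy1 : y ≤ 1) :
    1 / 8 * (1 / x ^ 2) ≤ -(psi2 (ρ / s) / psi (ρ / s) * n2 / s ^ 2) -
      2 * (phi1 (ρ / s) / (s * phi (ρ / s)) * (psi1 (ρ / s) / (s * psi (ρ / s)))) +
      2 * psi (ρ / s) ^ 2 / (s ^ 2 * phi (ρ / s) ^ 4 * y ^ 2) := by
  have hu : 0 < ρ / s := div_pos hρ hs
  have hb := pert_bracket hu hn0 hn hy hy1
  have hw : bw (ρ / s) = x / s := by rw [hx]; exact bw_div hs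
  have hx0 : 0 < x := hx ▸ vr_pos hρ
  have hp := phi_pos (ρ / s)
  have hψ := psi_pos hu
  have e2 := psi2_eq hu
  have hle : phi (ρ / s) ≤ 2 * (x / s) := hw ▸ (phi_le_bp _).trans (bp_le _)
  have hle' : s * phi (ρ / s) ≤ 2 * x := by
    have := mul_le_mul_of_nonneg_left hle hs.le
    rwa [show s * (2 * (x / s)) = 2 * x by field_simp] at this
  have hsq : (s * phi (ρ / s)) ^ 2 ≤ (2 * x) ^ 2 := pow_le_pow_left₀ (by positivity) hle' 2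
  rw [← e2] at hb
  have e : -(psi2 (ρ / s) / psi (ρ / s) * n2 / s ^ 2) -
      2 * (phi1 (ρ / s) / (s * phi (ρ / s)) * (psi1 (ρ / s) / (s * psi (ρ / s)))) +
      2 * psi (ρ / s) ^ 2 / (s ^ 2 * phi (ρ / s) ^ 4 * y ^ 2) =
      (-psi2 (ρ / s) / psi (ρ / s) * n2 * phi (ρ / s) ^ 2 - psi1 (ρ / s) / 4 +
        2 * psi (ρ / s) ^ 2 / (phi (ρ / s) ^ 2 * y ^ 2)) / (s * phi (ρ / s)) ^ 2 := by
    unfold phi1
    field_simp
    ring
  rw [e]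
  calc 1 / 8 * (1 / x ^ 2) = 1 / 2 / (2 * x) ^ 2 := by field_simp; norm_num
    _ ≤ 1 / 2 / (s * phi (ρ / s)) ^ 2 :=
        div_le_div_of_nonneg_left (by norm_num) (by positivity) hsq
    _ ≤ _ := div_le_div_of_nonneg_right hb (by positivity)

lemma pert_smU {x : ℝ} (hρ : 0 < ρ) (hx : 0 < x) (hρx : ρ ≤ x) (hY : 1 / 2 ≤ Y.v)
    (sY : Sm Y (1 / 10 ^ 4) ρ x) (sW : Sm W (1 / 10 ^ 4) ρ x) :
    Sm (W + Y.log) (4 / 10 ^ 4) ρ x := by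
  have hY0 : 0 < Y.v := by linarith only [hY]
  have h1 : |Y.v⁻¹| ≤ 2 := by
    rw [abs_of_pos (inv_pos.2 hY0), inv_le_comm₀ hY0 (by norm_num)]
    linarith only [hY]
  have h2 : |-(Y.v ^ 2)⁻¹| ≤ 4 := by
    rw [abs_neg, abs_of_pos (by positivity), inv_le_comm₀ (by positivity) (by norm_num)]
    linarith only [hY, mul_nonneg_of_nonpos_of_nonpos (Mathlib.Tactic.Linarith.sub_nonpos_of_le hY) (Mathlib.Tactic.Linarith.sub_nonpos_of_le hY)]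
  refine (sW.add (sY.comp hρ.le hx hρx)).mono hρ.le hx ?_
  linarith only [h1, h2]

lemma pert_exp {w y a b : ℝ} (hy : 0 < y) (ha : 0 < a) (hb : 0 < b) :
    Real.exp (2 * (w + Real.log y + Real.log a) - 4 * (w + Real.log y + Real.log b)) =
      Real.exp (-2 * w) * (a ^ 2 / (b ^ 4 * y ^ 2)) := by
  have : a ^ 2 / (b ^ 4 * y ^ 2) =
      Real.exp (2 * Real.log a - (4 * Real.log b + 2 * Real.log y)) := by
    rw [Real.exp_sub, Real.exp_add]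
    have e (n : ℕ) (t : ℝ) (ht : 0 < t) : Real.exp (n * Real.log t) = t ^ n := by
      rw [Real.exp_nat_mul, Real.exp_log ht]
    have e1 := e 2 a ha
    have e2 := e 4 b hb
    have e3 := e 2 y hy
    push_cast at e1 e2 e3
    rw [e1, e2, e3]
  rw [this, ← Real.exp_add]
  congr 1
  ring

lemma pert_sigma {s x g : ℝ} (hs : 0 < s) (hx : 0 < x) (h0 : 0 ≤ g) (h : g ≤ 16 / (x / s)) :
    |g / s| ≤ 16 / x := by
  rw [abs_of_nonneg (by positivity), div_le_iff₀ hs]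
  refine h.trans_eq ?_
  field_simp

lemma pert_p {s f0 f1 : ℝ} (hρ : 0 < ρ) (hs : 0 < s) (hf : 0 < f0) (h0 : 0 ≤ 1 - ρ / s * f1 / f0)
    (h1 : 1 - ρ / s * f1 / f0 ≤ 1) : |f1 / (s * f0)| ≤ 1 / ρ := by
  have e : f1 / (s * f0) = (ρ / s * f1 / f0) / ρ := by field_simp
  rw [e, abs_div, abs_of_pos hρ]
  exact div_le_div_of_nonneg_right (abs_le.2 ⟨by linarith only [h1], by linarith only [h0]⟩) hρ.le

lemma pert_h (hρ : 0 < ρ) (hS : 0 < S.v) (hY : 1 / 2 ≤ Y.v) (hY1 : Y.v ≤ 1)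
    (sS : Sm S (vr S.v ρ / 10 ^ 4) ρ (vr S.v ρ)) (sY : Sm Y (1 / 10 ^ 4) ρ (vr S.v ρ))
    (sW : Sm W (1 / 10 ^ 4) ρ (vr S.v ρ)) :
    0 ≤ Rh W W (W + Y.log + F0J S (Jet.x2 ρ)) (W + Y.log + H0J S (Jet.x2 ρ)) := by
  have hx : 0 < vr S.v ρ := vr_pos hρ
  have hρx : ρ ≤ vr S.v ρ := (le_vr hS hρ).1
  have hu : 0 < ρ / S.v := div_pos hρ hS
  have hY0 : 0 < Y.v := by linarith only [hY]
  have hw : bw (ρ / S.v) = vr S.v ρ / S.v := bw_div hS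
  have hp := phi_pos (ρ / S.v)
  have hψ := psi_pos hu
  have sU := pert_smU hρ hx hρx hY sY sW
  obtain ⟨a1, a2, a3⟩ := sg1_mem hu
  obtain ⟨b1, b2, b3⟩ := sg3_mem hu
  rw [hw] at a3 b3
  have hSa : |S.a| ≤ 1 / 10 ^ 4 := sS.a.trans_eq (by field_simp)
  have hSb : |S.b| ≤ 1 / 10 ^ 4 * ρ / vr S.v ρ := sS.b.trans_eq (by field_simp)
  have hSaa : |S.aa| ≤ 1 / 10 ^ 4 / vr S.v ρ := sS.aa.trans_eq (by field_simp)
  have hSbb : |S.bb| ≤ 1 / 10 ^ 4 / vr S.v ρ := sS.bb.trans_eq (by field_simp)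
  have err := pert_err hx hρ hρx (pert_sigma hS hx a1 a3) (pert_sigma hS hx b1 b3)
    (pert_p hρ hS hp a1 a2) (pert_p hρ hS hψ b1 b2) hSa hSb hSaa hSbb sU.a sU.b sU.aa sU.bb
  have main := pert_main (n2 := (ρ / S.v * S.a) ^ 2 + (1 - ρ / S.v * S.b) ^ 2) hρ hS rfl
    (by positivity) (fun h => by
      have hSb' : |S.b| ≤ 1 / 10 ^ 4 := by
        refine hSb.trans ?_
        rw [mul_div_assoc]
        exact mul_le_of_le_one_right (by positivity) ((div_le_one hx).2 hρx)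
      have h1 : |ρ / S.v * S.b| ≤ 1 * (1 / 10 ^ 4) :=
        pert_abs_mul (by rwa [abs_of_pos hu]) hSb'
      have h2 := (abs_le.1 h1).2
      linarith only [h2, sq_nonneg (ρ / S.v * S.a), sq_nonneg ((1 : ℝ) * (ρ / S.v) * ((1 : ℝ) * S.a)), mul_nonneg_of_nonpos_of_nonpos (Mathlib.Tactic.Linarith.sub_nonpos_of_le h2) (Mathlib.Tactic.Linarith.sub_nonpos_of_le h2)]) hY0 hY1
  have hF : F0J S (Jet.x2 ρ) =
      pertG S ρ (phi (ρ / S.v)) (phi1 (ρ / S.v)) (phi2 (ρ / S.v)) := rfl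
  have hH : H0J S (Jet.x2 ρ) =
      pertG S ρ (psi (ρ / S.v)) (psi1 (ρ / S.v)) (psi2 (ρ / S.v)) := rfl
  have hv : (W + Y.log).v = W.v + Real.log Y.v := rfl
  have hi : 0 < 1 / vr S.v ρ ^ 2 := by positivity
  generalize W + Y.log = U at *
  rw [hF, hH]
  simp only [Rh, lap5, Jet.add_v, Jet.add_a, Jet.add_b, Jet.add_aa, Jet.add_bb]
  rw [pertG_aa hS.ne' hψ.ne', pertG_bb hS.ne' hψ.ne', pertG_a hS.ne' hψ.ne',
    pertG_b hS.ne' hψ.ne', pertG_a hS.ne' hp.ne', pertG_b hS.ne' hp.ne', pertG_v, pertG_v, hv,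
    pert_exp hY0 (by positivity) (by positivity)]
  have e1 : (1 / 2 * (S.v * psi (ρ / S.v))) ^ 2 /
      ((1 / 2 * (S.v * phi (ρ / S.v))) ^ 4 * Y.v ^ 2) =
      2 * (2 * psi (ρ / S.v) ^ 2 / (S.v ^ 2 * phi (ρ / S.v) ^ 4 * Y.v ^ 2)) := by
    field_simp
  rw [e1]
  have g1 : 1 - ρ / S.v * phi1 (ρ / S.v) / phi (ρ / S.v) = sg1 (ρ / S.v) := rfl
  have g3 : 1 - ρ / S.v * psi1 (ρ / S.v) / psi (ρ / S.v) = sg3 (ρ / S.v) := rfl
  rw [g1, g3]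
  have he := Real.exp_pos (-2 * W.v)
  generalize Real.exp (-2 * W.v) = E at *
  generalize sg1 (ρ / S.v) / S.v = σ1 at *
  generalize sg3 (ρ / S.v) / S.v = σ3 at *
  generalize phi1 (ρ / S.v) / (S.v * phi (ρ / S.v)) = p1 at *
  generalize psi1 (ρ / S.v) / (S.v * psi (ρ / S.v)) = p3 at *
  generalize 2 * psi (ρ / S.v) ^ 2 / (S.v ^ 2 * phi (ρ / S.v) ^ 4 * Y.v ^ 2) = Q at *
  generalize psi2 (ρ / S.v) / psi (ρ / S.v) = c at *
  generalize 1 / vr S.v ρ ^ 2 = i at *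
  have key : 0 ≤ (-(c * ((ρ / S.v * S.a) ^ 2 + (1 - ρ / S.v * S.b) ^ 2) / S.v ^ 2) -
      2 * (p1 * p3) + Q) -
      (U.aa + U.bb + 3 * (U.a * U.a + U.b * U.b) + 2 * (U.a * (σ1 * S.a)) +
      4 * (U.a * (σ3 * S.a)) +
      2 * (U.b * p1) + 4 * (U.b * p3) + 2 * (U.b * (σ1 * S.b)) + 4 * (U.b * (σ3 * S.b)) +
      2 * (σ1 * S.a * (σ3 * S.a)) + 2 * (σ1 * S.b * (σ3 * S.b)) + 2 * (p1 * S.b * σ3) +
      2 * (p3 * S.b * σ1) + σ3 * S.aa + σ3 * S.bb) := by linarith only [hi, err, main]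
  refine (mul_nonneg he.le key).trans_eq ?_
  ring

theorem pertOK_of (hρ : 0 < ρ) (hS : 0 < S.v) (hY : 1 / 2 ≤ Y.v) (hY1 : Y.v ≤ 1)
    (sS : Sm S (vr S.v ρ / 10 ^ 4) ρ (vr S.v ρ)) (sY : Sm Y (1 / 10 ^ 4) ρ (vr S.v ρ))
    (sW : Sm W (1 / 10 ^ 4) ρ (vr S.v ρ)) (h : ∀ v1 v2, 0 ≤ RB S Y W ρ v1 v2) :
    PertOK S Y W ρ :=
  ⟨fun v1 v2 => by rw [pert_base hρ hS (by linarith only [hY])]; exact h v1 v2,
    pert_f hρ hS hY hY1 sS sY sW, pert_h hρ hS hY hY1 sS sY sW⟩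

end

end Pool.Agent.Work.MP_a9fb1f_gt
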