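import Pool.Agent.Work.MP_a9fb1f_gt.Lop
import Pool.Agent.Work.MP_a9fb1f_gt.Pert

/-! The translation invariant metric, switched on with a weight. -/

set_option autoImplicit false

open scoped Manifold ContDiff Topology ENNReal Bundle RealInnerProductSpace
open Filter Set

namespace Pool.Agent.Work.MP_a9fb1f_gt

noncomputable section

variable {t ρ r : ℝ}

lemma masterC_vJ {s : ℝ} (hρ : 0 < ρ) :
    vJ (Jet.cst s) ρ = ⟨vr s ρ, 0, ρ / vr s ρ, 0, 0, s ^ 2 / vr s ρ ^ 3⟩ := by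
  have hx : 0 < vr s ρ := vr_pos hρ
  have h2 := vr_sq s ρ
  have e : √(ρ * ρ + s * s) = vr s ρ := by
    unfold vr
    congr 1
    ring
  ext <;> simp [vJ, Jet.sqrt, e]
  · field_simp
    ring
  · field_simp
    nlinarith [h2]

lemma masterC_cs {a1 a2 b1 b2 p q : ℝ} (hp : 0 ≤ p) (hq : 0 ≤ q) (ha : a1 ^ 2 + a2 ^ 2 ≤ p ^ 2)
    (hb : b1 ^ 2 + b2 ^ 2 ≤ q ^ 2) : (a1 - b1) ^ 2 + (a2 - b2) ^ 2 ≤ (p + q) ^ 2 := by
  have h1 : (a1 * b1 + a2 * b2) ^ 2 ≤ (p * q) ^ 2 := by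
    have := mul_le_mul ha hb (by positivity) (by positivity)
    linarith only [this, sq_nonneg (a1 * b2 - a2 * b1), sq_nonneg (a1 * b2 - a2 * b1)]
  have h2 := (abs_le_of_sq_le_sq' h1 (mul_nonneg hp hq)).1
  linarith only [ha, hb, h2]

lemma masterC_l1 {a b p q : ℝ} (ha : |a| ≤ p) (hb : |b| ≤ q) : a ^ 2 + b ^ 2 ≤ (p + q) ^ 2 := by
  have hp := (abs_nonneg a).trans ha
  have hq := (abs_nonneg b).trans hb
  have h1 : a ^ 2 ≤ p ^ 2 := sq_le_sq' (abs_le.1 ha).1 (abs_le.1 ha).2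
  have h2 : b ^ 2 ≤ q ^ 2 := sq_le_sq' (abs_le.1 hb).1 (abs_le.1 hb).2
  linarith only [h1, h2, hp, hq, mul_nonneg hp hq]

lemma masterC_num {a μ e u n D δ : ℝ} (ha : 0 ≤ a) (ha1 : a ≤ 1 / 10 ^ 9) (hμ1 : μ ≤ 1 / 10 ^ 6)
    (he : 0 ≤ e) (he1 : e ≤ 1 / 10 ^ 6) (hu : 0 ≤ u) (hn : 0 ≤ n) (hn1 : n ≤ 2 / 10 ^ 6)
    (hD : 0 ≤ D) (hDδ : D ≤ δ) (hδ : δ ≤ 1 / 10 ^ 9) (hb : 1000 * (e + u + δ * n) ≤ μ) :
    0 ≤ μ / 4 + a / 4 - 52 * e - 48 * u -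
      (6 * (a + μ + 2 * e) ^ 2 + 6 * (20 * D + 2 * e) * (n + (a + μ + 2 * e))) := by
  have hδn : 0 ≤ δ * n := mul_nonneg (hD.trans hDδ) hn
  have hμ : 0 ≤ μ := by linarith only [he, hu, hb, hδn]
  obtain ⟨T, hT⟩ : ∃ T, T = a + μ + 2 * e := ⟨_, rfl⟩
  have hT0 : 0 ≤ T := by rw [hT]; positivity
  have hT1 : T ≤ 4 / 10 ^ 6 := by rw [hT]; norm_num at *; linarith only [hu, hb, hδn, ha1, hμ1]
  have h1 : T * T ≤ 4 / 10 ^ 6 * T := mul_le_mul_of_nonneg_right hT1 hT0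
  have h2 : D * n ≤ δ * n := mul_le_mul_of_nonneg_right hDδ hn
  have h3 : D * T ≤ 1 / 10 ^ 9 * T := mul_le_mul_of_nonneg_right (hDδ.trans hδ) hT0
  have h4 : n * e ≤ 2 / 10 ^ 6 * e := mul_le_mul_of_nonneg_right hn1 he
  have h5 : e * T ≤ 1 / 10 ^ 6 * T := mul_le_mul_of_nonneg_right he1 hT0
  rw [← hT]
  have : 6 * T ^ 2 + 6 * (20 * D + 2 * e) * (n + T) =
      6 * (T * T) + 120 * (D * n) + 120 * (D * T) + 12 * (n * e) + 12 * (e * T) := by ring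
  rw [this]
  norm_num at *
  linarith only [ha, he, hu, hb, hδn, hT, h2, h1, h3, h4, h5]

/-- the two regimes -/
lemma masterC_cases {s d : ℝ} (hρ : 0 < ρ) (hs : 0 < s) (hsd : s ≤ d / 10 ^ 4) :
    5 / 2 ≤ 3 - sg (ρ / s) ∨ (2 / 5 ≤ 3 - sg (ρ / s) ∧ 100 * vr s ρ ≤ d) := by
  have hx : 0 < vr s ρ := vr_pos hρ
  have h1 := sg_mem (div_pos hρ hs)
  have h2 := sg_div_le hs hρ
  rw [div_le_div_iff₀ hs hx] at h2
  by_cases h : 96 * s ≤ vr s ρ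
  · left
    have : sg (ρ / s) * vr s ρ ≤ 1 / 2 * vr s ρ := by linarith only [h2, h]
    have := le_of_mul_le_mul_right this hx
    linarith only [this]
  · right
    refine ⟨by linarith only [h1, h1.2.1], ?_⟩
    norm_num at hsd
    linarith only [hs, h, hsd]

lemma masterC_RG {s d δ χ b g0 : ℝ} (hρ : 0 < ρ) (hs : 0 < s) (hsd : s ≤ d / 10 ^ 4) (hδ : 0 ≤ δ)
    (hχ : 0 ≤ χ) (hb : 0 < b) (hb4 : b ^ 4 = 1 + ρ ^ 2 / d ^ 2) (v1 v2 : ℝ) :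
    χ * δ * 10 / (d ^ 2 * b ^ 5) * v2 ^ 2 ≤ RG (Jet.cst s) ρ
      ((Jet.x2 ρ).comp g0 (χ * (40 * δ * ρ / (2 * d ^ 2 * b ^ 5)))
        (χ * (40 * δ * (1 / (2 * d ^ 2 * b ^ 5) - 5 * ρ ^ 2 / (4 * d ^ 4 * b ^ 9))))) v1 v2 := by
  have hd : 0 < d := by
    have : 0 < d / 10 ^ 4 := hs.trans_le hsd
    linarith only [hs, hsd]
  obtain ⟨κ, hκ⟩ : ∃ κ, κ = 3 - sg (ρ / s) := ⟨_, rfl⟩
  obtain ⟨z, hz⟩ : ∃ z, z = ρ ^ 2 / d ^ 2 := ⟨_, rfl⟩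
  have hz0 : 0 ≤ z := by rw [hz]; positivity
  have key : 1 / 4 * b ^ 4 ≤ (3 / 2 + κ) * b ^ 4 - 15 / 4 * z := by
    rw [hb4, ← hz]
    rcases masterC_cases hρ hs hsd with h | ⟨h, h'⟩
    · rw [← hκ] at h
      linarith only [h, hz0, mul_nonneg_of_nonpos_of_nonpos (Mathlib.Tactic.Linarith.sub_nonpos_of_le hz0) (Mathlib.Tactic.Linarith.sub_nonpos_of_le h)]
    · rw [← hκ] at h
      have h1 : 100 * ρ ≤ d := by linarith only [h', hs, hρ, (le_vr hs hρ).1]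
      have h2 : z ≤ 1 / 10 ^ 4 := by
        rw [hz, div_le_div_iff₀ (by positivity) (by positivity)]
        linarith only [hρ, h1, hs, hsd, mul_nonneg_of_nonpos_of_nonpos (le_of_lt (Mathlib.Tactic.Linarith.sub_neg_of_lt hρ)) (Mathlib.Tactic.Linarith.sub_nonpos_of_le h1), mul_nonneg_of_nonpos_of_nonpos (le_of_lt (Mathlib.Tactic.Linarith.sub_neg_of_lt hs)) (Mathlib.Tactic.Linarith.sub_nonpos_of_le h1), mul_nonneg_of_nonpos_of_nonpos (Mathlib.Tactic.Linarith.sub_nonpos_of_le hsd) (Mathlib.Tactic.Linarith.sub_nonpos_of_le h1)]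
      linarith only [h, h2, hz0, mul_nonneg_of_nonpos_of_nonpos (Mathlib.Tactic.Linarith.sub_nonpos_of_le hz0) (Mathlib.Tactic.Linarith.sub_nonpos_of_le h)]
  have e : RG (Jet.cst s) ρ
      ((Jet.x2 ρ).comp g0 (χ * (40 * δ * ρ / (2 * d ^ 2 * b ^ 5)))
        (χ * (40 * δ * (1 / (2 * d ^ 2 * b ^ 5) - 5 * ρ ^ 2 / (4 * d ^ 4 * b ^ 9))))) v1 v2 =
      χ * δ * 40 / (d ^ 2 * b ^ 9) * v2 ^ 2 * ((3 / 2 + κ) * b ^ 4 - 15 / 4 * z) := by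
    simp only [RG, La, Lb, Jet.hess, Jet.dd, Jet.comp_a, Jet.comp_b, Jet.comp_aa, Jet.comp_ab,
      Jet.comp_bb, Jet.x2_a, Jet.x2_b, Jet.x2_aa, Jet.x2_ab, Jet.x2_bb, Jet.cst_v, Jet.cst_a,
      Jet.cst_b, ← hκ, hz]
    field_simp
    ring
  rw [e]
  calc χ * δ * 10 / (d ^ 2 * b ^ 5) * v2 ^ 2
      = χ * δ * 40 / (d ^ 2 * b ^ 9) * v2 ^ 2 * (1 / 4 * b ^ 4) := by
        field_simp
        ring
    _ ≤ _ := mul_le_mul_of_nonneg_left key (by positivity)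

lemma masterC_b {d b : ℝ} (hb : 0 < b) (hb4 : b ^ 4 = 1 + ρ ^ 2 / d ^ 2) : 1 ≤ b := by
  have : (1 : ℝ) ^ 4 ≤ b ^ 4 := by
    rw [hb4, one_pow]
    have : 0 ≤ ρ ^ 2 / d ^ 2 := by positivity
    linarith only [this]
  exact le_of_pow_le_pow_left₀ (by norm_num) hb.le this

lemma masterC_Lop {s d δ χ b w0 : ℝ} (hρ : 0 < ρ) (hs : 0 < s) (hsd : s ≤ d / 10 ^ 4) (hδ : 0 ≤ δ)
    (hχ : 0 ≤ χ) (hb : 0 < b) (hb4 : b ^ 4 = 1 + ρ ^ 2 / d ^ 2) (v1 v2 : ℝ) :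
    -(χ * δ * 10 / (d ^ 2 * b ^ 5) * v2 ^ 2) +
      χ * (δ * d / (d + vr s ρ) ^ 2) / (4 * vr s ρ) * (v1 ^ 2 + v2 ^ 2) ≤
    Lop (Jet.cst s) ρ ((vJ (Jet.cst s) ρ).comp w0 (χ * (δ * d / (d + vr s ρ) ^ 2))
      (χ * (-2 * δ * d / (d + vr s ρ) ^ 3))) v1 v2 := by
  have hd : 0 < d := by
    have : 0 < d / 10 ^ 4 := hs.trans_le hsd
    linarith only [hs, hsd]
  have hx : 0 < vr s ρ := vr_pos hρ
  have hx2 := vr_sq s ρ
  have hcs := masterC_cases hρ hs hsd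
  have hb1 := masterC_b hb hb4
  rw [masterC_vJ hρ]
  obtain ⟨κ, hκ⟩ : ∃ κ, κ = 3 - sg (ρ / s) := ⟨_, rfl⟩
  rw [← hκ] at hcs
  simp only [Lop, La, Lb, Jet.hess, Jet.comp_a, Jet.comp_b, Jet.comp_aa, Jet.comp_ab,
    Jet.comp_bb, Jet.cst_v, Jet.cst_a, Jet.cst_b, ← hκ]
  generalize vr s ρ = x at *
  obtain ⟨c, hc⟩ : ∃ c, c = χ * (δ * d / (d + x) ^ 2) := ⟨_, rfl⟩
  have hc0 : 0 ≤ c := by rw [hc]; positivity
  have hc' : χ * (-2 * δ * d / (d + x) ^ 3) = -(2 * c / (d + x)) := by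
    rw [hc]
    field_simp
  rw [hc', ← hc]
  obtain ⟨B, hB⟩ : ∃ B, B = -(2 * c / (d + x)) * (ρ / x) ^ 2 + c * (s ^ 2 / x ^ 3) := ⟨_, rfl⟩
  have hB1 : -(2 * c / (d + x)) ≤ B := by
    have h1 : (ρ / x) ^ 2 ≤ 1 := by
      rw [div_pow, div_le_one (by positivity)]
      linarith only [hx2, sq_nonneg s, sq_nonneg s]
    have h2 : 0 ≤ 2 * c / (d + x) := by positivity
    have h3 : 0 ≤ c * (s ^ 2 / x ^ 3) := by positivity
    rw [hB]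
    linarith only [h3, h1, h2, mul_nonneg_of_nonpos_of_nonpos (Mathlib.Tactic.Linarith.sub_nonpos_of_le h1) (Mathlib.Tactic.Linarith.sub_nonpos_of_le h2)]
  have h4 : 1 / (4 * x) ≤ κ / x - 2 / (d + x) := by
    clear * - d x κ hd hx hcs s hs hsd
    have : 2 / (d + x) ≤ (κ - 1 / 4) / x := by
      rw [div_le_div_iff₀ (by positivity) hx]
      rcases hcs with h | ⟨h, h'⟩ <;> nlinarith
    have e : κ / x - (κ - 1 / 4) / x = 1 / (4 * x) := by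
      field_simp
      ring
    linarith only [this, e]
  have h5 : 6 * c / (d + x) ≤ χ * δ * 10 / (d ^ 2 * b ^ 5) := by
    clear * - d b x hd hx ρ hb4 hρ s hx2 hb hb1 c χ δ hc hχ hδ
    have h6 : d * b ^ 2 ≤ d + x := by
      refine le_of_pow_le_pow_left₀ (n := 2) (by norm_num) (by positivity) ?_
      have : (d * b ^ 2) ^ 2 = d ^ 2 + ρ ^ 2 := by
        rw [mul_pow, ← pow_mul, hb4]
        field_simp
      rw [this]
      linarith only [hx2, hd, hx, sq_nonneg s, mul_pos hd hx, sq_nonneg s]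
    have h7 : (d * b ^ 2) ^ 3 ≤ (d + x) ^ 3 := pow_le_pow_left₀ (by positivity) h6 3
    have h8 : d ^ 3 * b ^ 5 ≤ (d * b ^ 2) ^ 3 := by
      have : d ^ 3 * b ^ 5 * 1 ≤ d ^ 3 * b ^ 5 * b := mul_le_mul_of_nonneg_left hb1 (by positivity)
      linarith only [this]
    have e : 6 * c / (d + x) = χ * δ * (6 * d) / (d + x) ^ 3 := by
      rw [hc]
      field_simp
    rw [e, div_le_div_iff₀ (by positivity) (by positivity)]
    have h9 : 6 * (d ^ 3 * b ^ 5) ≤ 10 * (d + x) ^ 3 := by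
      have : 0 ≤ (d + x) ^ 3 := by positivity
      linarith only [h7, h8, this]
    have := mul_le_mul_of_nonneg_left h9 (mul_nonneg hχ hδ)
    linarith only [this]
  have e : 3 * ((-(2 * c / (d + x)) * 0 ^ 2 + c * 0) * v1 ^ 2 +
        2 * (-(2 * c / (d + x)) * 0 * (ρ / x) + c * 0) * v1 * v2 +
        (-(2 * c / (d + x)) * (ρ / x) ^ 2 + c * (s ^ 2 / x ^ 3)) * v2 ^ 2) +
      (-(2 * c / (d + x)) * 0 ^ 2 + c * 0 + (-(2 * c / (d + x)) * (ρ / x) ^ 2 + c * (s ^ 2 / x ^ 3)) +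
        sg (ρ / s) * 0 / s * (c * 0) + (κ / ρ + sg (ρ / s) * 0 / s) * (c * (ρ / x))) *
        (v1 ^ 2 + v2 ^ 2) =
      B * (3 * v2 ^ 2 + (v1 ^ 2 + v2 ^ 2)) + κ / x * c * (v1 ^ 2 + v2 ^ 2) := by
    rw [hB]
    field_simp
    ring
  rw [e]
  have hN : 0 ≤ v1 ^ 2 + v2 ^ 2 := by positivity
  have i1 := mul_le_mul_of_nonneg_right hB1 (show 0 ≤ 3 * v2 ^ 2 + (v1 ^ 2 + v2 ^ 2) by positivity)
  have i2 := mul_le_mul_of_nonneg_right h4 (mul_nonneg hc0 hN)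
  have i3 := mul_le_mul_of_nonneg_right h5 (sq_nonneg v2)
  have e1 : c / (4 * x) * (v1 ^ 2 + v2 ^ 2) = 1 / (4 * x) * (c * (v1 ^ 2 + v2 ^ 2)) := by ring
  have e2 : -(2 * c / (d + x)) * (3 * v2 ^ 2 + (v1 ^ 2 + v2 ^ 2)) =
      -(6 * c / (d + x) * v2 ^ 2) - 2 / (d + x) * (c * (v1 ^ 2 + v2 ^ 2)) := by ring
  rw [e1]
  rw [e2] at i1
  linarith only [i1, i2, i3]

lemma masterC_g {s d δ χ b : ℝ} (hρ : 0 < ρ) (hs : 0 < s) (hsd : s ≤ d / 10 ^ 4) (hδ : 0 ≤ δ)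
    (hχ : 0 ≤ χ) (hb : 0 < b) (hb4 : b ^ 4 = 1 + ρ ^ 2 / d ^ 2) :
    |χ * (40 * δ * ρ / (2 * d ^ 2 * b ^ 5))| * vr s ρ ^ 2 ≤ 20 * (χ * δ) * ρ ∧
    |χ * (40 * δ * (1 / (2 * d ^ 2 * b ^ 5) - 5 * ρ ^ 2 / (4 * d ^ 4 * b ^ 9)))| * vr s ρ ^ 2 ≤
      70 * (χ * δ) := by
  have hd : 0 < d := by
    have : 0 < d / 10 ^ 4 := hs.trans_le hsd
    linarith only [hs, hsd]
  have hb1 := masterC_b hb hb4
  have h1 : d ^ 2 * b ^ 4 = d ^ 2 + ρ ^ 2 := by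
    rw [hb4]
    field_simp
  have h2 : vr s ρ ^ 2 ≤ d ^ 2 * b ^ 5 := by
    have h3 : s ≤ d := by
      norm_num at hsd
      linarith only [hs, hsd]
    have : d ^ 2 * b ^ 4 * 1 ≤ d ^ 2 * b ^ 4 * b := mul_le_mul_of_nonneg_left hb1 (by positivity)
    rw [vr_sq]
    linarith only [h1, this, hs, hsd, sq_nonneg d, mul_nonneg_of_nonpos_of_nonpos (le_of_lt (Mathlib.Tactic.Linarith.sub_neg_of_lt hs)) (Mathlib.Tactic.Linarith.sub_nonpos_of_le hsd), mul_nonneg_of_nonpos_of_nonpos (Mathlib.Tactic.Linarith.sub_nonpos_of_le hsd) (Mathlib.Tactic.Linarith.sub_nonpos_of_le hsd)]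
  have hD : 0 ≤ χ * δ := mul_nonneg hχ hδ
  constructor
  · rw [abs_of_nonneg (by positivity)]
    calc χ * (40 * δ * ρ / (2 * d ^ 2 * b ^ 5)) * vr s ρ ^ 2
        ≤ χ * (40 * δ * ρ / (2 * d ^ 2 * b ^ 5)) * (d ^ 2 * b ^ 5) :=
          mul_le_mul_of_nonneg_left h2 (by positivity)
      _ = 20 * (χ * δ) * ρ := by
          field_simp
          ring
  · have h4 : |1 / (2 * d ^ 2 * b ^ 5) - 5 * ρ ^ 2 / (4 * d ^ 4 * b ^ 9)| ≤
        7 / 4 / (d ^ 2 * b ^ 5) := by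
      have h5 : 5 * ρ ^ 2 / (4 * d ^ 4 * b ^ 9) ≤ 5 / 4 / (d ^ 2 * b ^ 5) := by
        rw [div_le_div_iff₀ (by positivity) (by positivity)]
        have h6 : ρ ^ 2 ≤ d ^ 2 * b ^ 4 := by linarith only [h1, sq_nonneg d, sq_nonneg d]
        have := mul_le_mul_of_nonneg_right h6 (show 0 ≤ d ^ 2 * b ^ 5 by positivity)
        linarith only [this]
      have h7 : 1 / (2 * d ^ 2 * b ^ 5) = 1 / 2 / (d ^ 2 * b ^ 5) := by field_simp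
      have h8 : 7 / 4 / (d ^ 2 * b ^ 5) = 1 / 2 / (d ^ 2 * b ^ 5) + 5 / 4 / (d ^ 2 * b ^ 5) := by
        ring
      have h9 : 0 ≤ 5 * ρ ^ 2 / (4 * d ^ 4 * b ^ 9) := by positivity
      have h10 : 0 ≤ 1 / 2 / (d ^ 2 * b ^ 5) := by positivity
      rw [abs_le]
      constructor <;> linarith only [h5, h7, h8, h10, h9]
    rw [abs_mul, abs_mul, abs_of_nonneg hχ, abs_of_nonneg (show 0 ≤ 40 * δ by positivity)]
    calc χ * (40 * δ * |1 / (2 * d ^ 2 * b ^ 5) - 5 * ρ ^ 2 / (4 * d ^ 4 * b ^ 9)|) * vr s ρ ^ 2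
        ≤ χ * (40 * δ * (7 / 4 / (d ^ 2 * b ^ 5))) * (d ^ 2 * b ^ 5) := by gcongr
      _ = 70 * (χ * δ) := by
          field_simp
          ring

theorem masterC (hp : Pt t ρ r) {s δ d m χ b w ν ν1 w0 g0 ke : ℝ} {E1 E2 : Jet}
    (hs : 0 < s) (hsd : s ≤ d / 10 ^ 4) (hδ : 0 ≤ δ) (hδ1 : δ ≤ 1 / 10 ^ 9) (hm : 0 ≤ m)
    (hm1 : m * vr s ρ ≤ 1 / 10 ^ 6) (hχ : 0 ≤ χ) (hχ1 : χ ≤ 1) (hb : 0 < b)
    (hb4 : b ^ 4 = 1 + ρ ^ 2 / d ^ 2) (hν : 0 ≤ ν) (hν' : ν ≤ 1 / 10 ^ 6) (hν0 : 0 ≤ r * ν1)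
    (hν1 : r * ν1 ≤ 1 / 10 ^ 6) (hr : (ν = 0 ∧ ν1 = 0) ∨ s ≤ r)
    (s1 : Sm E1 ke ρ (vr s ρ)) (s2 : Sm E2 ke ρ (vr s ρ)) (a2 : |E2.a| ≤ ke * ρ / vr s ρ ^ 2)
    (hke : ke ≤ 1 / 10 ^ 6) (hg0 : 0 ≤ g0 + E2.v) (hg1 : g0 + E2.v ≤ 1 / 2)
    (hbud : 1000 * (ke / vr s ρ + ν * s / r ^ 2 + δ * ν / r) ≤ m) :
    PertOK (Jet.cst s)
      (Jet.cst 1 - ((Jet.x2 ρ).comp g0 (χ * (40 * δ * ρ / (2 * d ^ 2 * b ^ 5)))
        (χ * (40 * δ * (1 / (2 * d ^ 2 * b ^ 5) - 5 * ρ ^ 2 / (4 * d ^ 4 * b ^ 9)))) + E2))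
      (oJ t ρ r w ν ν1 - ((vJ (Jet.cst s) ρ).comp w0 (χ * (δ * d / (d + vr s ρ) ^ 2) + m)
        (χ * (-2 * δ * d / (d + vr s ρ) ^ 3)) + E1)) ρ := by
  have hρ := hp.pos
  have hr0 := hp.rpos
  have hd : 0 < d := by
    have : 0 < d / 10 ^ 4 := hs.trans_le hsd
    linarith only [hs, hsd]
  have hx : 0 < vr s ρ := vr_pos hρ
  obtain ⟨hρx, hsx, hxρs⟩ := le_vr hs hρ
  have hρr : ρ ≤ r := le_of_pow_le_pow_left₀ (n := 2) (by norm_num) hr0.le (by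
    linarith only [hp, hp.sq, sq_nonneg t, sq_nonneg t])
  have hke0 : 0 ≤ ke := s1.nonneg hx
  have hD : χ * δ ≤ δ := by linarith only [hδ, hχ1, mul_nonneg_of_nonpos_of_nonpos (Mathlib.Tactic.Linarith.sub_nonpos_of_le hδ) (Mathlib.Tactic.Linarith.sub_nonpos_of_le hχ1)]
  have hD0 : 0 ≤ χ * δ := mul_nonneg hχ hδ
  obtain ⟨hg1', hg2'⟩ := masterC_g hρ hs hsd hδ hχ hb hb4
  have sS : Sm (Jet.cst s) (vr s ρ / 10 ^ 4) ρ (vr s ρ) := sm_cst s hρ.le hx (by positivity)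
  have hRG := masterC_RG (g0 := g0) hρ hs hsd hδ hχ hb hb4
  have hLχ := masterC_Lop (w0 := w0) hρ hs hsd hδ hχ hb hb4
  obtain ⟨A, hA⟩ : ∃ A, A = χ * δ * 10 / (d ^ 2 * b ^ 5) := ⟨_, rfl⟩
  have hA0 : 0 ≤ A := by rw [hA]; positivity
  rw [← hA] at hRG hLχ
  obtain ⟨g1, hg1e⟩ : ∃ g1, g1 = χ * (40 * δ * ρ / (2 * d ^ 2 * b ^ 5)) := ⟨_, rfl⟩
  obtain ⟨g2, hg2e⟩ : ∃ g2,
    g2 = χ * (40 * δ * (1 / (2 * d ^ 2 * b ^ 5) - 5 * ρ ^ 2 / (4 * d ^ 4 * b ^ 9))) := ⟨_, rfl⟩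
  rw [← hg1e] at hg1' hRG ⊢
  rw [← hg2e] at hg2' hRG ⊢
  obtain ⟨c, hc⟩ : ∃ c, c = χ * (δ * d / (d + vr s ρ) ^ 2) := ⟨_, rfl⟩
  obtain ⟨c2, hc2⟩ : ∃ c2, c2 = χ * (-2 * δ * d / (d + vr s ρ) ^ 3) := ⟨_, rfl⟩
  have hc0 : 0 ≤ c := by rw [hc]; positivity
  have hcx : c * vr s ρ ≤ δ := by
    have : c * vr s ρ = χ * δ * (d * vr s ρ / (d + vr s ρ) ^ 2) := by rw [hc]; ring
    have h1 : d * vr s ρ / (d + vr s ρ) ^ 2 ≤ 1 := by
      rw [div_le_one (by positivity)]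
      linarith only [mul_pos hd hx, sq_nonneg d, sq_nonneg (vr s ρ), sq_nonneg (d + vr s ρ)]
    rw [this]
    exact (mul_le_of_le_one_right hD0 h1).trans hD
  have hc2x : |c2| * vr s ρ ^ 2 ≤ 2 * δ := by
    clear * - c2 c d s ρ χ δ hc hc2 hd hx hc0 hs hsd hcx
    have : c2 = -(2 * c / (d + vr s ρ)) := by
      rw [hc, hc2]
      field_simp
    rw [this, abs_neg, abs_of_nonneg (by positivity)]
    have e : 2 * c / (d + vr s ρ) * vr s ρ ^ 2 = 2 * (c * vr s ρ) * (vr s ρ / (d + vr s ρ)) := by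
      ring
    have h1 : vr s ρ / (d + vr s ρ) ≤ 1 := by
      rw [div_le_one (by positivity)]
      linarith only [hs, hsd]
    have h2 : 0 ≤ c * vr s ρ := by positivity
    rw [e]
    linarith only [hcx, h2, h1, mul_le_of_le_one_right h2 h1]
  rw [← hc, ← hc2] at hLχ ⊢
  have hn1 : ν * vr s ρ / r ≤ 2 / 10 ^ 6 := by
    rcases hr with ⟨h, -⟩ | h
    · rw [h]
      norm_num
    · rw [div_le_iff₀ hr0]
      have : ν * vr s ρ ≤ 1 / 10 ^ 6 * (2 * r) :=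
        mul_le_mul hν' (by linarith only [hxρs, hρr, h]) hx.le (by norm_num)
      linarith only [this]
  have sO : Sm (oJ t ρ r w ν ν1) (8 / 10 ^ 6) ρ (vr s ρ) := by
    clear * - ν ν1 s r t ρ w hr hρ hx hxρs hρr hp hν hr0 hν' hν1 hν0
    rcases hr with ⟨h, h'⟩ | h
    · have : oJ t ρ r w ν ν1 = Jet.cst w := by
        rw [oJ, h, h', ← comp_cst (rJ t ρ r) w]
        congr 1 <;> simp
      rw [this]
      exact sm_cst w hρ.le hx (by norm_num)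
    · have hxr : vr s ρ ≤ 2 * r := by linarith only [hxρs, hρr, h]
      refine (sm_radial (k := 1 / 10 ^ 6) hp hx hxr ?_ ?_).mono hρ.le hx ?_
      · rw [neg_div, abs_neg, abs_of_nonneg (by positivity), mul_div_cancel₀ _ hr0.ne']
        exact hν'
      · have e : r ^ 2 * |-ν1 / r + ν / r ^ 2| = |-(r * ν1) + ν| := by
          rw [← abs_of_pos (show 0 < r ^ 2 by positivity), ← abs_mul, abs_of_pos (show 0 < r ^ 2 by positivity)]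
          congr 1
          field_simp
        rw [e, abs_le]
        constructor <;> linarith only [hν, hν1, hν', hν0]
      · rw [div_le_iff₀ hr0]
        linarith only [hxρs, hρr, h]
  have sG0 : Sm ((Jet.x2 ρ).comp g0 g1 g2) (70 * δ) ρ (vr s ρ) :=
    sm_x2 hρ hx (by
      linarith only [hg1', hD, hρ, hδ, mul_le_mul_of_nonneg_right hD hρ.le, mul_nonneg hδ hρ.le]) (by linarith only [hD, hg2'])
  have sY := ((sm_cst 1 hρ.le hx le_rfl).sub (sG0.add s2)).mono hρ.le hx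
    (show 0 + (70 * δ + ke) ≤ 1 / 10 ^ 4 by linarith only [hδ1, hke])
  have sK : Sm ((vJ (Jet.cst s) ρ).comp w0 (c + m) c2) (3 / 10 ^ 6) ρ (vr s ρ) := by
    refine ((sm_vJ (S := Jet.cst s) hρ hs sS).comp hρ.le hx hρx).mono hρ.le hx ?_
    rw [abs_of_nonneg (by positivity), Jet.cst_v]
    linarith only [hδ1, hm1, hcx, hc2x]
  have sW := (sO.sub (sK.add s1)).mono hρ.le hx
    (show 8 / 10 ^ 6 + (3 / 10 ^ 6 + ke) ≤ 1 / 10 ^ 4 by linarith only [hke])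
  have hYv : (Jet.cst 1 - ((Jet.x2 ρ).comp g0 g1 g2 + E2)).v = 1 - (g0 + E2.v) := rfl
  refine pertOK_of (S := Jet.cst s) hρ hs (by rw [hYv]; linarith only [hg1]) (by rw [hYv]; linarith only [hg0]) sS sY sW
    fun v1 v2 => ?_
  obtain ⟨N, hN⟩ : ∃ N, N = v1 ^ 2 + v2 ^ 2 := ⟨_, rfl⟩
  have hN0 : 0 ≤ N := by rw [hN]; positivity
  have h1 : 0 ≤ RS (Jet.cst s) ρ v1 v2 := by
    have := RS_ge (S := Jet.cst s) (h := 0) (v1 := v1) (v2 := v2) hρ hs (by simp [Jet.hess])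
    simpa using this
  have hE2 := RG_small (S := Jet.cst s) hρ hs sS s2 a2 v1 v2
  have hE1 := Lop_small (S := Jet.cst s) hρ hs sS s1 v1 v2
  have hLm := Lop_vr (S := Jet.cst s) hρ hs sS (w := 0) (c2 := 0) hm v1 v2
  have hO := Lop_radial hp (S0 := s) (S1 := 0) (S2 := 0) (w := w) (ν1 := ν1) hs hν
    (by linarith only [hν']) v1 v2
  rw [comp_cst] at hO
  have hKa : ((vJ (Jet.cst s) ρ).comp w0 (c + m) c2 + E1).a = E1.a := by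
    rw [masterC_vJ hρ]
    simp
  have hKb : ((vJ (Jet.cst s) ρ).comp w0 (c + m) c2 + E1).b = (c + m) * (ρ / vr s ρ) + E1.b := by
    rw [masterC_vJ hρ]
    simp
  have hρx1 : ρ / vr s ρ ≤ 1 := (div_le_one hx).2 hρx
  have hb' : ∀ k : ℝ, 0 ≤ k → k * ρ / vr s ρ ^ 2 ≤ k / vr s ρ := fun k hk => by
    rw [div_le_div_iff₀ (by positivity) hx]
    have := mul_le_mul_of_nonneg_left hρx (mul_nonneg hk hx.le)
    linarith only [this]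
  have gK : ((vJ (Jet.cst s) ρ).comp w0 (c + m) c2 + E1).a ^ 2 +
      ((vJ (Jet.cst s) ρ).comp w0 (c + m) c2 + E1).b ^ 2 ≤
      ((c * vr s ρ + m * vr s ρ + 2 * ke) / vr s ρ) ^ 2 := by
    clear * - c s ρ m ke hx w0 c2 E1 hKa hKb s1 hc0 hm hρ hρx1 hb' hke0 b
    have e : (c * vr s ρ + m * vr s ρ + 2 * ke) / vr s ρ =
        ke / vr s ρ + (c + m + ke / vr s ρ) := by
      field_simp
      ring
    rw [hKa, hKb, e]
    refine masterC_l1 s1.a ((abs_add_le _ _).trans (add_le_add ?_ (s1.b.trans (hb' ke hke0))))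
    rw [abs_of_nonneg (by positivity)]
    exact mul_le_of_le_one_right (by positivity) hρx1
  have gO : (oJ t ρ r w ν ν1).a ^ 2 + (oJ t ρ r w ν ν1).b ^ 2 ≤ (ν / r) ^ 2 := by
    have : (oJ t ρ r w ν ν1).a ^ 2 + (oJ t ρ r w ν ν1).b ^ 2 =
        (ν / r) ^ 2 * ((t ^ 2 + ρ ^ 2) / r ^ 2) := by
      simp only [oJ, rJ, Jet.comp_a, Jet.comp_b]
      ring
    rw [this, ← hp.sq, div_self (by positivity), mul_one]
  have gY : (Jet.cst 1 - ((Jet.x2 ρ).comp g0 g1 g2 + E2)).a ^ 2 +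
      (Jet.cst 1 - ((Jet.x2 ρ).comp g0 g1 g2 + E2)).b ^ 2 ≤
      ((20 * (χ * δ) + 2 * ke) / vr s ρ) ^ 2 := by
    clear * - χ δ ke s ρ g0 g1 g2 E2 s2 hx hg1' hb' hχ hδ hke0 b
    have e : (20 * (χ * δ) + 2 * ke) / vr s ρ =
        ke / vr s ρ + (20 * (χ * δ) / vr s ρ + ke / vr s ρ) := by ring
    have ea : (Jet.cst 1 - ((Jet.x2 ρ).comp g0 g1 g2 + E2)).a = -E2.a := by simp
    have eb : (Jet.cst 1 - ((Jet.x2 ρ).comp g0 g1 g2 + E2)).b = -(g1 + E2.b) := by simp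
    rw [e, ea, eb]
    refine masterC_l1 (by rw [abs_neg]; exact s2.a) ?_
    rw [abs_neg]
    refine (abs_add_le _ _).trans (add_le_add ?_ (s2.b.trans (hb' ke hke0)))
    refine le_trans ?_ (hb' _ (by positivity))
    rw [le_div_iff₀ (by positivity)]
    exact hg1'
  have hQ := Quad_le (J := oJ t ρ r w ν ν1) (K := (vJ (Jet.cst s) ρ).comp w0 (c + m) c2 + E1)
    (Y := Jet.cst 1 - ((Jet.x2 ρ).comp g0 g1 g2 + E2)) (by rw [hYv]; linarith only [hg1])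
    (show 0 ≤ (20 * (χ * δ) + 2 * ke) / vr s ρ by positivity)
    (show 0 ≤ ν / r + (c * vr s ρ + m * vr s ρ + 2 * ke) / vr s ρ by clear * - ν r c s ρ m ke hν hr0 hc0 hx hm hke0 gY; positivity) gY
    (masterC_cs (by positivity) (by clear * - c s ρ m ke hc0 hx hm hke0 gK gO v1 v2; positivity) gO gK) v1 v2
  have hsplit : (vJ (Jet.cst s) ρ).comp w0 (c + m) c2 =
      (vJ (Jet.cst s) ρ).comp w0 c c2 + (vJ (Jet.cst s) ρ).comp 0 m 0 := by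
    rw [comp_add, add_zero, add_zero]
  have hLW : Lop (Jet.cst s) ρ
      (oJ t ρ r w ν ν1 - ((vJ (Jet.cst s) ρ).comp w0 (c + m) c2 + E1)) v1 v2 =
      Lop (Jet.cst s) ρ (oJ t ρ r w ν ν1) v1 v2 -
        (Lop (Jet.cst s) ρ ((vJ (Jet.cst s) ρ).comp w0 c c2) v1 v2 +
          Lop (Jet.cst s) ρ ((vJ (Jet.cst s) ρ).comp 0 m 0) v1 v2 +
          Lop (Jet.cst s) ρ E1 v1 v2) := by
    rw [Lop_sub, Lop_add, hsplit, Lop_add]
  have hR := hRG v1 v2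
  have hL := hLχ v1 v2
  have hnum := masterC_num (a := c * vr s ρ) (μ := m * vr s ρ) (e := ke)
    (u := ν * s * vr s ρ / r ^ 2) (n := ν * vr s ρ / r) (D := χ * δ) (δ := δ) (by positivity)
    (hcx.trans hδ1) hm1 hke0 hke (by positivity) (by positivity) hn1 hD0 hD hδ1 (by
      clear * - ke s ρ ν r δ m hbud hx hr0
      have := mul_le_mul_of_nonneg_right hbud hx.le
      refine le_trans (le_of_eq ?_) this
      field_simp)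
  rw [RB, hLW, RG_one_sub, RG_add, hYv]
  simp only [Jet.cst_v] at hE2 hE1 hLm
  rw [← hN] at hE2 hE1 hLm hO hQ hL
  generalize RG (Jet.cst s) ρ ((Jet.x2 ρ).comp g0 g1 g2) v1 v2 = R0 at *
  generalize RG (Jet.cst s) ρ E2 v1 v2 = R2 at *
  obtain ⟨y, hy⟩ : ∃ y, y = 1 - (g0 + E2.v) := ⟨_, rfl⟩
  have hy0 : 1 / 2 ≤ y := by linarith only [hg1, hy]
  have hy1 : y ≤ 1 := by linarith only [hg0, hy]
  rw [← hy]
  obtain ⟨P, hP⟩ : ∃ P, P = N / vr s ρ ^ 2 := ⟨_, rfl⟩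
  have hP0 : 0 ≤ P := by rw [hP]; positivity
  have k2 : A * v2 ^ 2 - 40 * ke * P ≤ -(-(R0 + R2) / y) := by
    clear * - ke s ρ N P hP A v2 hA0 hke0 hP0 R0 R2 y g0 E2 hg1 hy hy1 hy0 hE2 hR
    have e : 20 * ke / vr s ρ ^ 2 * N = 20 * ke * P := by rw [hP]; ring
    rw [e] at hE2
    have hAv : 0 ≤ A * v2 ^ 2 := by positivity
    have hkP : 0 ≤ ke * P := by positivity
    rw [neg_div, neg_neg, le_div_iff₀ (by linarith only [hg1, hy])]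
    have i1 := mul_le_mul_of_nonneg_left hy1 hAv
    have i2 := mul_le_mul_of_nonneg_left hy0 hkP
    have := (abs_le.1 hE2).1
    linarith only [hR, i1, i2, this]
  have k3 : 48 * ν * |s - r * 0| / (vr s ρ * r ^ 2) * N = 48 * (ν * s * vr s ρ / r ^ 2) * P := by
    clear * - ν s r ρ N P hs hP hr0 hx
    rw [mul_zero, sub_zero, abs_of_pos hs, hP]
    field_simp
  have k3' : 0 ≤ (4 * r * ν1 * ((t * v1 + ρ * v2) / r) ^ 2 +
      (r * ν1 + 5 * ν) * ((t * v2 - ρ * v1) / r) ^ 2) / r ^ 2 := by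
    clear * - r ν1 hν0 t v1 ρ v2 ν hν hr0
    have : 0 ≤ 4 * r * ν1 := by linarith only [hν0]
    positivity
  have k4 : (m / (4 * vr s ρ) - 8 * |(0 : ℝ)|) * N = m * vr s ρ / 4 * P := by
    rw [abs_zero, hP]
    field_simp
    ring
  have k5 : c / (4 * vr s ρ) * N = c * vr s ρ / 4 * P := by
    rw [hP]
    field_simp
  have k6 : 12 * ke / vr s ρ ^ 2 * N = 12 * ke * P := by rw [hP]; ring
  have k7 : (6 * (((vJ (Jet.cst s) ρ).comp w0 (c + m) c2 + E1).a ^ 2 +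
      ((vJ (Jet.cst s) ρ).comp w0 (c + m) c2 + E1).b ^ 2) +
      6 * ((20 * (χ * δ) + 2 * ke) / vr s ρ) *
        (ν / r + (c * vr s ρ + m * vr s ρ + 2 * ke) / vr s ρ)) * N ≤
      (6 * (c * vr s ρ + m * vr s ρ + 2 * ke) ^ 2 + 6 * (20 * (χ * δ) + 2 * ke) *
        (ν * vr s ρ / r + (c * vr s ρ + m * vr s ρ + 2 * ke))) * P := by
    clear * - s ρ w0 c m c2 E1 χ δ ke ν r N P gK hN0 hP hr0 hx
    refine (mul_le_mul_of_nonneg_right (add_le_add_left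
      (mul_le_mul_of_nonneg_left gK (by norm_num)) _) hN0).trans (le_of_eq ?_)
    rw [hP]
    field_simp
  rw [k3] at hO
  rw [k4] at hLm
  rw [k5] at hL
  rw [k6] at hE1
  have k8 := (abs_le.1 hE1).1
  have k9 := mul_nonneg hnum hP0
  have k10 := hQ.trans (add_le_add_right k7 _)
  rw [sub_mul, sub_mul, sub_mul, add_mul] at k9
  clear * - s ρ v1 v2 R0 R2 y t r w ν ν1 w0 c c2 m E1 g0 g1 g2 E2 χ δ ke N A P h1 hQ hL hLm hO k2 k3' k7 k8 k9; linarith only [h1, hQ, hL, hLm, hO, k2, k3', k7, k8, k9]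

end

end Pool.Agent.Work.MP_a9fb1f_gt
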