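import Pool.Agent.Work.MP_a9fb1f_gt.PertB

/-! The slow path of metrics on the link. -/

set_option autoImplicit false

open scoped Manifold ContDiff Topology ENNReal Bundle RealInnerProductSpace
open Filter Set

namespace Pool.Agent.Work.MP_a9fb1f_gt

noncomputable section

/-- The Ricci tensor of the path in closed form. -/
lemma MasterD_core {l O0 ν ν1 k k1 k2 α a1 a11 w pp Φ Ψ f1 h1 B0 F0 y X : ℝ} (hk : 0 < k)
    (hΦ : 0 < Φ) (hΨ : 0 < Ψ) (hy : Real.exp (2 * α) = y)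
    (hX : X = (a11 + a1 * (3 * (k * (1 - ν)) - k1 / k)) / k ^ 2) {a f h : Jet}
    (ha : a = ⟨α, a1, -(1 - pp) * f1, a11, -w - 4 * a1 * pp * f1,
      -(-B0 - 2 * f1 ^ 2 + f1 * h1) * (1 - pp) + 4 * pp * (1 - pp) * f1 ^ 2⟩)
    (hf : f = ⟨Real.log (1 / 2 * Φ), 0, f1, 0, 0, -B0 - 2 * f1 ^ 2 + f1 * h1⟩)
    (hh : h = ⟨Real.log (1 / 2 * Ψ), 0, h1, 0, 0,
      -F0 + 2 * B0 + 2 * f1 ^ 2 - 2 * f1 * h1 - h1 ^ 2⟩)
    (base : ∀ v1 v2 : ℝ, 0 ≤ (4 * k * ν1 - 4 * a1 ^ 2) * v1 ^ 2 + 2 * w * v1 * v2 +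
      (y * (F0 - B0) + y * pp * B0 - 3 * (1 - ν) ^ 2 + ν1 / k + X) / y * v2 ^ 2)
    (rf : 0 ≤ y * pp * (B0 - 2 * (1 - pp) * f1 ^ 2 - 2 * f1 * h1) + 4 / (y * Φ ^ 2) -
      2 * (Ψ ^ 2 / Φ ^ 4) / y ^ 3 - 3 * (1 - ν) ^ 2 + ν1 / k - X)
    (rh : 0 ≤ y * (F0 - B0) - y * pp * B0 + 2 * (Ψ ^ 2 / Φ ^ 4) / y ^ 3 - 2 * y * pp ^ 2 * f1 ^ 2 -
      3 * (1 - ν) ^ 2 + ν1 / k + X) :
    RicOK ((Jet.x1 l).comp O0 (k * (1 - ν)) (k1 * (1 - ν) - k * ν1) + ((Jet.x1 l).comp k k1 k2).log)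
      ((Jet.x1 l).comp O0 (k * (1 - ν)) (k1 * (1 - ν) - k * ν1) - a)
      ((Jet.x1 l).comp O0 (k * (1 - ν)) (k1 * (1 - ν) - k * ν1) + a + f)
      ((Jet.x1 l).comp O0 (k * (1 - ν)) (k1 * (1 - ν) - k * ν1) - a + h) := by
  have y0 : 0 < y := hy ▸ Real.exp_pos _
  have E0 : 0 < Real.exp (-2 * O0) := Real.exp_pos _
  have hα : 2 * α = Real.log y := by rw [← hy, Real.log_exp]
  have inj : ∀ {x z : ℝ}, 0 < z → x = Real.log z → Real.exp x = z := fun hz e => by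
    rw [e, Real.exp_log hz]
  have lΦ : (0 : ℝ) < 1 / 2 * Φ := by positivity
  have lΨ : (0 : ℝ) < 1 / 2 * Ψ := by positivity
  have e1 : Real.exp (2 * (O0 - α) - 2 * (O0 + Real.log k)) = 1 / (y * k ^ 2) := by
    refine inj (by positivity) ?_
    rw [one_div, Real.log_inv, Real.log_mul y0.ne' (by positivity), Real.log_pow, ← hα]
    push_cast; ring
  have e2 : Real.exp (-2 * (O0 + Real.log k)) = Real.exp (-2 * O0) / k ^ 2 := by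
    refine inj (by positivity) ?_
    rw [Real.log_div E0.ne' (by positivity), Real.log_pow, Real.log_exp]
    push_cast; ring
  have e3 : Real.exp (-2 * (O0 - α)) = Real.exp (-2 * O0) * y := by
    rw [← hy, ← Real.exp_add]
    congr 1; ring
  have e4 : Real.exp (-2 * (O0 + α + Real.log (1 / 2 * Φ))) =
      Real.exp (-2 * O0) / (y * (1 / 2 * Φ) ^ 2) := by
    refine inj (by positivity) ?_
    rw [Real.log_div E0.ne' (by positivity), Real.log_mul y0.ne' (by positivity), Real.log_pow,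
      Real.log_exp, ← hα]
    push_cast; ring
  have e5 : Real.exp (2 * (O0 - α + Real.log (1 / 2 * Ψ)) - 4 * (O0 + α + Real.log (1 / 2 * Φ))) =
      Real.exp (-2 * O0) * (1 / 2 * Ψ) ^ 2 / (y ^ 3 * (1 / 2 * Φ) ^ 4) := by
    refine inj (by positivity) ?_
    rw [Real.log_div (by positivity) (by positivity), Real.log_mul E0.ne' (by positivity),
      Real.log_mul (pow_pos y0 3).ne' (by positivity), Real.log_pow, Real.log_pow, Real.log_pow,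
      Real.log_exp, ← hα]
    push_cast; ring
  subst ha hf hh hX
  refine ⟨fun v1 v2 => (base v1 v2).trans_eq ?_, (mul_nonneg E0.le rf).trans_eq ?_,
    (mul_nonneg E0.le rh).trans_eq ?_⟩
  · congr 2
    · congr 1
      simp only [R00, Jet.log, Jet.add_a, Jet.add_b, Jet.add_aa, Jet.add_bb, Jet.sub_a, Jet.sub_b,
        Jet.sub_aa, Jet.comp_v, Jet.comp_a, Jet.comp_b, Jet.comp_aa, Jet.comp_bb, Jet.x1_a,
        Jet.x1_b, Jet.x1_aa, Jet.x1_bb]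
      field_simp
      ring
    · congr 3
      simp only [R01, Jet.log, Jet.add_a, Jet.add_b, Jet.add_ab, Jet.sub_a, Jet.sub_b,
        Jet.sub_ab, Jet.comp_a, Jet.comp_b, Jet.comp_ab, Jet.x1_a, Jet.x1_b, Jet.x1_ab]
      ring
    · simp only [R11, Jet.log, Jet.add_v, Jet.add_a, Jet.add_b, Jet.add_bb, Jet.sub_v, Jet.sub_a,
        Jet.sub_b, Jet.sub_aa, Jet.sub_bb, Jet.comp_v, Jet.comp_a, Jet.comp_b, Jet.comp_aa,
        Jet.comp_bb, Jet.x1_a, Jet.x1_b, Jet.x1_aa, Jet.x1_bb, e1]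
      field_simp
      ring
  · simp only [Rf, lap5, Jet.log, Jet.add_v, Jet.add_a, Jet.add_b, Jet.add_aa, Jet.add_bb,
      Jet.sub_v, Jet.sub_a, Jet.sub_b, Jet.comp_v, Jet.comp_a, Jet.comp_b, Jet.comp_aa,
      Jet.comp_bb, Jet.x1_a, Jet.x1_b, Jet.x1_aa, Jet.x1_bb, e2, e3, e4, e5]
    field_simp
    ring
  · simp only [Rh, lap5, Jet.log, Jet.add_v, Jet.add_a, Jet.add_b, Jet.add_aa, Jet.add_bb,
      Jet.sub_v, Jet.sub_a, Jet.sub_b, Jet.sub_aa, Jet.sub_bb, Jet.comp_v, Jet.comp_a, Jet.comp_b,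
      Jet.comp_aa, Jet.comp_bb, Jet.x1_a, Jet.x1_b, Jet.x1_aa, Jet.x1_bb, e2, e3, e5]
    field_simp
    ring

lemma MasterD_log {Φ f1 f2 : ℝ} (hΦ : 0 < Φ) :
    ((1 / 2 : ℝ) • (⟨Φ, 0, Φ * f1, 0, 0, Φ * (f2 + f1 ^ 2)⟩ : Jet)).log =
      ⟨Real.log (1 / 2 * Φ), 0, f1, 0, 0, f2⟩ := by
  ext <;> simp only [Jet.log, Jet.comp_v, Jet.comp_a, Jet.comp_b, Jet.comp_aa, Jet.comp_ab,
    Jet.comp_bb, Jet.smul_v, Jet.smul_a, Jet.smul_b, Jet.smul_aa, Jet.smul_ab, Jet.smul_bb] <;>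
    field_simp <;> ring

lemma MasterD_inv {Φ f1 f2 : ℝ} (hΦ : 0 < Φ) {J : Jet}
    (hJ : J = ⟨Φ, 0, Φ * f1, 0, 0, Φ * (f2 + f1 ^ 2)⟩) :
    ((100 : ℝ) • (J * J * (J * J))).inv = ⟨(100 * Φ ^ 4)⁻¹, 0, -4 * f1 * (100 * Φ ^ 4)⁻¹, 0, 0,
      (16 * f1 ^ 2 - 4 * f2) * (100 * Φ ^ 4)⁻¹⟩ := by
  subst hJ
  ext <;> simp only [Jet.inv, Jet.comp_v, Jet.comp_a, Jet.comp_b, Jet.comp_aa, Jet.comp_ab,
    Jet.comp_bb, Jet.smul_v, Jet.smul_a, Jet.smul_b, Jet.smul_aa, Jet.smul_ab, Jet.smul_bb,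
    Jet.mul_v, Jet.mul_a, Jet.mul_b, Jet.mul_aa, Jet.mul_ab, Jet.mul_bb] <;>
    field_simp <;> ring

lemma MasterD_aJ {l τ τ1 τ2 Φ f1 f2 X0 V : ℝ} (hΦ : 0 < Φ) (hX : (100 * Φ ^ 4)⁻¹ = X0)
    (hV : 1 - τ + τ * X0 = V) (V0 : 0 < V) :
    aJ ((Jet.x1 l).comp τ τ1 τ2) ⟨Φ, 0, Φ * f1, 0, 0, Φ * (f2 + f1 ^ 2)⟩ =
      ⟨1 / 4 * Real.log V, τ1 * (X0 - 1) / (4 * V), -(1 - (1 - τ) / V) * f1,
        τ2 * (X0 - 1) / (4 * V) - 4 * (τ1 * (X0 - 1) / (4 * V)) ^ 2,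
        -(τ1 * f1 / V) - 4 * (τ1 * (X0 - 1) / (4 * V)) * ((1 - τ) / V) * f1,
        -f2 * (1 - (1 - τ) / V) + 4 * ((1 - τ) / V) * (1 - (1 - τ) / V) * f1 ^ 2⟩ := by
  rw [aJ, MasterD_inv hΦ rfl, hX]
  have V1 := V0.ne'
  ext <;> simp only [Jet.log, Jet.comp_v, Jet.comp_a, Jet.comp_b, Jet.comp_aa, Jet.comp_ab,
    Jet.comp_bb, Jet.smul_v, Jet.smul_a, Jet.smul_b, Jet.smul_aa, Jet.smul_ab, Jet.smul_bb,
    Jet.mul_v, Jet.mul_a, Jet.mul_b, Jet.mul_aa, Jet.mul_ab, Jet.mul_bb, Jet.add_v, Jet.add_a,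
    Jet.add_b, Jet.add_aa, Jet.add_ab, Jet.add_bb, Jet.sub_v, Jet.sub_a, Jet.sub_b, Jet.sub_aa,
    Jet.sub_ab, Jet.sub_bb, Jet.cst_v, Jet.cst_a, Jet.cst_b, Jet.cst_aa, Jet.cst_ab, Jet.cst_bb,
    Jet.x1_a, Jet.x1_b, Jet.x1_aa, Jet.x1_ab, Jet.x1_bb, hV] <;>
    field_simp <;> subst hV <;> ring

lemma MasterD_jet {ε θ s c g g1 g2 : ℝ} (hε : 0 < ε) (hg : 0 < g) :
    Jet.cst ε * (sJ θ s c * (Jet.cst ε).inv).comp g g1 g2 =
      ⟨ε * g, 0, ε * g * (c * g1 / (ε * g)), 0, 0,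
        ε * g * ((g2 / g * c ^ 2 / ε ^ 2 - s / ε * g1 / g - (c * g1 / (ε * g)) ^ 2) +
          (c * g1 / (ε * g)) ^ 2)⟩ := by
  ext <;> simp only [sJ, Jet.inv, Jet.comp_v, Jet.comp_a, Jet.comp_b, Jet.comp_aa, Jet.comp_ab,
    Jet.comp_bb, Jet.mul_v, Jet.mul_a, Jet.mul_b, Jet.mul_aa, Jet.mul_ab, Jet.mul_bb,
    Jet.cst_v, Jet.cst_a, Jet.cst_b, Jet.cst_aa, Jet.cst_ab, Jet.cst_bb,
    Jet.x2_a, Jet.x2_b, Jet.x2_aa, Jet.x2_ab, Jet.x2_bb] <;>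
    field_simp <;> ring

lemma MasterD_r11 {γ τ y pp B0 F0 : ℝ} (hγ : γ ≤ 1 / 50) (hτ : 0 ≤ τ) (hy : 1 + 2 * τ ≤ y)
    (hp : pp * y ^ 2 = 1 - τ) (hB : 0 ≤ B0) (hB' : B0 ≤ 1) (hF : 3 - γ ≤ F0) :
    3 - γ ≤ y * (F0 - B0) + y * pp * B0 := by
  have y0 : 0 < y := by linarith only [hτ, hy]
  have h1 : 2 - y - τ ≤ y * pp := by
    refine le_of_mul_le_mul_right ?_ y0
    have : 0 ≤ τ * (y - 1) := mul_nonneg hτ (by linarith only [hτ, hy])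
    linarith only [hp, this, sq_nonneg (y - 1), sq_nonneg (y - (1 : ℝ))]
  have h2 : B0 * (y - y * pp) ≤ B0 * (2 * y - 2 + τ) := mul_le_mul_of_nonneg_left (by linarith) hB
  have h3 : B0 * (2 * y - 2 + τ) ≤ 2 * y - 2 + τ := mul_le_of_le_one_left (by linarith only [hτ, hy]) hB'
  have h4 : y * (3 - γ) ≤ y * F0 := mul_le_mul_of_nonneg_left hF y0.le
  have h5 : (1 + 2 * τ) * (1 - γ) ≤ y * (1 - γ) := mul_le_mul_of_nonneg_right hy (by linarith only [hγ])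
  have h6 : 0 ≤ τ * (1 - 2 * γ) := mul_nonneg hτ (by linarith only [hγ])
  linarith only [h2, h3, h4, h5, h6]

lemma MasterD_rf {y P pp B0 f1 h1 Q : ℝ} (hy : 1 ≤ y) (hP : 0 < P) (hyP : y * P ≤ 1 / 10)
    (hp : 0 ≤ pp) (hp' : pp * y ^ 2 ≤ 1) (hB : 0 ≤ B0) (hf : f1 ^ 2 ≤ 1 / (48 * P))
    (hfh : f1 * h1 ≤ 1 / (4 * P)) (hQ : Q ≤ 4 / (3 * P)) :
    7 ≤ y * pp * (B0 - 2 * (1 - pp) * f1 ^ 2 - 2 * f1 * h1) + 4 / (y * P) - 2 * Q / y ^ 3 := by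
  have y0 : 0 < y := by linarith only [hy]
  have t10 : 10 ≤ 1 / (y * P) := by
    rw [le_div_iff₀ (by positivity)]
    linarith only [hyP]
  have h1' : -(13 / (24 * P)) ≤ B0 - 2 * (1 - pp) * f1 ^ 2 - 2 * f1 * h1 := by
    have : 0 ≤ pp * f1 ^ 2 := by positivity
    have e : 13 / (24 * P) = 2 * (1 / (48 * P)) + 2 * (1 / (4 * P)) := by field_simp; norm_num
    linarith only [hB, hf, hfh, this, e]
  have h2 : y * pp ≤ 1 / y := by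
    rw [le_div_iff₀ y0]
    linarith only [hp']
  have h3 : y * pp * (13 / (24 * P)) ≤ 13 / 24 * (1 / (y * P)) :=
    (mul_le_mul_of_nonneg_right h2 (by positivity)).trans_eq (by field_simp)
  have h4 := mul_le_mul_of_nonneg_left h1' (show 0 ≤ y * pp by positivity)
  have h5 : 2 * Q / y ^ 3 ≤ 8 / 3 * (1 / (y * P)) := by
    calc 2 * Q / y ^ 3 ≤ 2 * (4 / (3 * P)) / y ^ 3 := by gcongr
      _ ≤ 2 * (4 / (3 * P)) / y ^ 1 := by gcongr; norm_num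
      _ = _ := by field_simp; norm_num
  have h6 : 4 / (y * P) = 4 * (1 / (y * P)) := by ring
  linarith only [t10, h3, h4, h5, h6]

lemma MasterD_rh {γ y pp B0 F0 f1 Q : ℝ} (hγ : γ ≤ 1 / 50) (hy : 1 ≤ y) (hp : 0 ≤ pp)
    (hp' : pp * y ^ 2 ≤ 1) (hB : 0 ≤ B0) (hB' : B0 ≤ 1) (hF : 3 - γ ≤ F0)
    (hf : f1 ^ 2 ≤ Q / 64) (hQ : 40 * B0 ≤ Q) :
    3 - γ ≤ y * (F0 - B0) - y * pp * B0 + 2 * Q / y ^ 3 - 2 * y * pp ^ 2 * f1 ^ 2 := by
  have y0 : 0 < y := by linarith only [hy]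
  have Q0 : 0 ≤ Q := by linarith only [hB, hQ]
  have h1 : y * pp ^ 2 ≤ 1 / y ^ 3 := by
    rw [le_div_iff₀ (by positivity)]
    calc y * pp ^ 2 * y ^ 3 = (pp * y ^ 2) ^ 2 := by ring
      _ ≤ 1 := pow_le_one₀ (by positivity) hp'
  have h2 : y * pp ^ 2 * f1 ^ 2 ≤ 1 / y ^ 3 * (Q / 64) :=
    mul_le_mul h1 hf (sq_nonneg _) (by positivity)
  have h3 : 1 / y ^ 3 * (40 * B0) ≤ 1 / y ^ 3 * Q := mul_le_mul_of_nonneg_left hQ (by positivity)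
  have h4 : 2 * Q / y ^ 3 = 2 * (1 / y ^ 3 * Q) := by ring
  have h5 : y * (3 - γ) ≤ y * F0 := mul_le_mul_of_nonneg_left hF y0.le
  have h6 : y * pp ≤ 1 / y := by
    rw [le_div_iff₀ y0]
    linarith only [hp']
  have h7 : 0 ≤ 1 / y ^ 3 * B0 := by positivity
  rcases le_total y 2 with h | h
  · have a1 : 1 / 8 ≤ 1 / y ^ 3 := by
      rw [show (8 : ℝ) = 2 ^ 3 by norm_num]
      gcongr
    have a2 := mul_le_mul_of_nonneg_right a1 hB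
    have a3 : y * pp * B0 ≤ 1 * B0 :=
      mul_le_mul_of_nonneg_right (h6.trans ((div_le_one y0).2 hy)) hB
    have a4 := mul_le_mul_of_nonneg_right h hB
    have a5 : 1 * (3 - γ) ≤ y * (3 - γ) := mul_le_mul_of_nonneg_right hy (by linarith only [hγ])
    linarith only [h2, h3, h4, h5, h7, a2, a3, a4, a5]
  · have a1 : 1 / y ≤ 1 / 2 := by gcongr
    have a3 : y * pp * B0 ≤ 1 / 2 * 1 := mul_le_mul (h6.trans a1) hB' hB (by norm_num)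
    have a4 := mul_le_mul_of_nonneg_left hB' y0.le
    have a5 : 2 * (2 - γ) ≤ y * (2 - γ) := mul_le_mul_of_nonneg_right h (by linarith only [hγ])
    linarith only [hγ, h2, h3, h4, h5, h7, a3, a4, a5]

lemma MasterD_quad {A w C y g n : ℝ} (y0 : 0 < y) (hg : 0 < g) (hA : n ≤ A)
    (hC : g ≤ C) (hw : w ^ 2 * y ≤ g * n) (v1 v2 : ℝ) :
    0 ≤ A * v1 ^ 2 + 2 * w * v1 * v2 + C / y * v2 ^ 2 := by
  have h1 : g / y * v2 ^ 2 ≤ C / y * v2 ^ 2 := by gcongr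
  have h2 : n * v1 ^ 2 ≤ A * v1 ^ 2 := by gcongr
  have h3 : 0 ≤ n * v1 ^ 2 + 2 * w * v1 * v2 + g / y * v2 ^ 2 := by
    refine le_of_mul_le_mul_left (a := g * y) ?_ (by positivity)
    have e : g * y * (n * v1 ^ 2 + 2 * w * v1 * v2 + g / y * v2 ^ 2) =
        (g * v2 + w * y * v1) ^ 2 + y * v1 ^ 2 * (g * n - w ^ 2 * y) := by
      field_simp
      ring
    rw [e, mul_zero]
    exact add_nonneg (sq_nonneg _) (mul_nonneg (by positivity) (by linarith only [hw]))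
  linarith only [h1, h2, h3]

lemma MasterD_X {γ ν k k1 a1 b : ℝ} (hγ : 0 < γ) (hγ' : γ ≤ 1 / 50) (hν : 0 ≤ ν) (hν' : ν ≤ 1)
    (hk : 1 / 2 ≤ k) (hk' : k ≤ 2) (h1 : |a1| ≤ γ / 10 ^ 4) (h2 : |b| ≤ γ / 10 ^ 4)
    (hk1 : a1 = 0 ∨ |k1| ≤ 1) :
    |(b - 4 * a1 ^ 2 + a1 * (3 * (k * (1 - ν)) - k1 / k)) / k ^ 2| ≤ γ / 100 := by
  have k0 : 0 < k := by linarith only [hγ, hγ', hk]
  have e1 : a1 ^ 2 ≤ γ / 10 ^ 4 := by
    rw [← sq_abs]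
    (refine le_of_not_gt fun h_nl => ?_; linarith only [h_nl, hγ', hγ, h1, abs_nonneg a1, mul_nonneg_of_nonpos_of_nonpos (Mathlib.Tactic.Linarith.sub_nonpos_of_le (sq_nonneg ((1 : ℝ) * |a1|))) (Mathlib.Tactic.Linarith.sub_nonpos_of_le hγ'), mul_pos_of_neg_of_neg (Mathlib.Tactic.Linarith.sub_neg_of_lt hγ) (Mathlib.Tactic.Linarith.sub_neg_of_lt hγ), mul_nonneg_of_nonpos_of_nonpos (le_of_lt (Mathlib.Tactic.Linarith.sub_neg_of_lt hγ)) (Mathlib.Tactic.Linarith.sub_nonpos_of_le h1), mul_pos_of_neg_of_neg (Mathlib.Tactic.Linarith.sub_neg_of_lt hγ) (Mathlib.Tactic.Linarith.sub_neg_of_lt h_nl), mul_nonneg_of_nonpos_of_nonpos (Mathlib.Tactic.Linarith.sub_nonpos_of_le h1) (Mathlib.Tactic.Linarith.sub_nonpos_of_le (abs_nonneg a1))])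
  have e2 : |a1 * (3 * (k * (1 - ν)) - k1 / k)| ≤ 8 * (γ / 10 ^ 4) := by
    rcases hk1 with h | h
    · rw [h, zero_mul, abs_zero]
      positivity
    · have a1' : |k1 / k| ≤ 2 := by
        rw [abs_div, abs_of_pos k0, div_le_iff₀ k0]
        linarith only [hk, h]
      have a2 : 0 ≤ k * (1 - ν) := mul_nonneg k0.le (by linarith only [hν'])
      have a3 : k * (1 - ν) ≤ 2 := by (refine le_of_not_gt fun h_nl => ?_; linarith only [h_nl, hν, hk', hγ, hγ', hk, mul_pos_of_neg_of_neg (Mathlib.Tactic.Linarith.sub_neg_of_lt hγ) (Mathlib.Tactic.Linarith.sub_neg_of_lt h_nl), mul_nonneg_of_nonpos_of_nonpos (Mathlib.Tactic.Linarith.sub_nonpos_of_le hγ') (le_of_lt (Mathlib.Tactic.Linarith.sub_neg_of_lt h_nl)), mul_nonneg_of_nonpos_of_nonpos (Mathlib.Tactic.Linarith.sub_nonpos_of_le hν) (Mathlib.Tactic.Linarith.sub_nonpos_of_le hk)])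
      have a4 : |3 * (k * (1 - ν)) - k1 / k| ≤ 8 := by
        rw [abs_le] at a1' ⊢
        constructor <;> linarith only [hγ, hγ', a1', a2, a3]
      rw [abs_mul, mul_comm]
      exact mul_le_mul a4 h1 (abs_nonneg _) (by norm_num)
  rw [abs_div, abs_of_pos (pow_pos k0 2), div_le_iff₀ (pow_pos k0 2)]
  have e3 : γ / 100 * (1 / 4) ≤ γ / 100 * k ^ 2 :=
    mul_le_mul_of_nonneg_left (by linarith only [hk, mul_nonneg_of_nonpos_of_nonpos (Mathlib.Tactic.Linarith.sub_nonpos_of_le hk) (Mathlib.Tactic.Linarith.sub_nonpos_of_le hk)]) (by positivity)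
  rw [abs_le] at h2 e2 ⊢
  have := sq_nonneg a1
  constructor <;> linarith only [hγ, h2, e1, e2, e3, this]

lemma MasterD_P {ε s : ℝ} (hε : 0 < ε) (hε' : ε ≤ 1 / 100) (hs : s ^ 2 ≤ 1) :
    (ε * phi (s / ε)) ^ 2 ≤ 1 / 40 := by
  have h0 := one_le_bw (s / ε)
  have h1 : ε * bw (s / ε) ≤ 1 + ε := by
    refine (pow_le_pow_iff_left₀ (by positivity) (by positivity) two_ne_zero).1 ?_
    have : (ε * bw (s / ε)) ^ 2 = ε ^ 2 + s ^ 2 := by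
      rw [mul_pow, bw_sq]
      field_simp
    linarith only [hε, hs, this]
  have h2 : ε * phi (s / ε) ≤ 1 / 8 + 2 / 100 := by
    have := mul_le_mul_of_nonneg_left (phi_le_bp (s / ε)) hε.le
    rw [bp] at this
    linarith only [hε', h1, this]
  have h3 := mul_pos hε (phi_pos (s / ε))
  (refine le_of_not_gt fun h_nl => ?_; linarith only [h_nl, h2, hε', hε, h3, mul_nonneg_of_nonpos_of_nonpos (Mathlib.Tactic.Linarith.sub_nonpos_of_le (sq_nonneg ((1 : ℝ) * ε * ((1 : ℝ) * phi (s / ε))))) (Mathlib.Tactic.Linarith.sub_nonpos_of_le hε'), mul_pos_of_neg_of_neg (Mathlib.Tactic.Linarith.sub_neg_of_lt hε) (Mathlib.Tactic.Linarith.sub_neg_of_lt hε), mul_nonneg_of_nonpos_of_nonpos (le_of_lt (Mathlib.Tactic.Linarith.sub_neg_of_lt hε)) (Mathlib.Tactic.Linarith.sub_nonpos_of_le hε'), mul_pos_of_neg_of_neg (Mathlib.Tactic.Linarith.sub_neg_of_lt hε) (Mathlib.Tactic.Linarith.sub_neg_of_lt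 h_nl), mul_nonneg_of_nonpos_of_nonpos (Mathlib.Tactic.Linarith.sub_nonpos_of_le hε') (le_of_lt (Mathlib.Tactic.Linarith.sub_neg_of_lt h_nl)), mul_nonneg_of_nonpos_of_nonpos (Mathlib.Tactic.Linarith.sub_nonpos_of_le h2) (le_of_lt (Mathlib.Tactic.Linarith.sub_neg_of_lt h3))])

lemma MasterD_bub {ε u c : ℝ} (hε : 0 < ε) (hu : 0 < u) (hc : c ^ 2 ≤ 1)
    (hP : (ε * phi u) ^ 2 ≤ 1 / 40) :
    (c * phi1 u / (ε * phi u)) ^ 2 ≤ (ε * psi u) ^ 2 / (ε * phi u) ^ 4 / 64 ∧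
    (ε * psi u) ^ 2 / (ε * phi u) ^ 4 ≤ 4 / (3 * (ε * phi u) ^ 2) ∧
    c * phi1 u / (ε * phi u) * (c * psi1 u / (ε * psi u)) ≤ 1 / (4 * (ε * phi u) ^ 2) ∧
    40 * (1 - sg1 u) ≤ (ε * psi u) ^ 2 / (ε * phi u) ^ 4 := by
  have φ0 := phi_pos u
  have ψ0 := psi_pos hu
  have w0 := one_le_bw u
  refine ⟨?_, ?_, ?_, ?_⟩
  · calc _ = c ^ 2 * ((ε * psi u) ^ 2 / (ε * phi u) ^ 4 / 64) := by rw [phi1]; field_simp; norm_num
      _ ≤ _ := mul_le_of_le_one_left (by positivity) hc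
  · rw [div_le_div_iff₀ (by positivity) (by positivity)]
    have := mul_le_mul_of_nonneg_left (psi_sq_le u) (show 0 ≤ ε ^ 4 * phi u ^ 2 by positivity)
    linarith only [this]
  · calc _ = c ^ 2 * psi1 u / (8 * (ε * phi u) ^ 2) := by rw [phi1]; field_simp
      _ ≤ 1 * 2 / (8 * (ε * phi u) ^ 2) := by
        have := psi1_mem u
        gcongr
        · linarith only [this]
        · exact this.2
      _ = _ := by field_simp; norm_num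
  · have h1 : u / 8 ≤ psi u := by
      rw [psi, bp, le_div_iff₀ (by positivity)]
      linarith only [hu]
    have h2 : 40 ≤ 1 / (ε * phi u) ^ 2 := by
      rw [le_div_iff₀ (by positivity)]
      linarith only [hP]
    calc _ = psi u / phi u ^ 2 * (u / 8 * 40) := by rw [sg1, phi1]; field_simp; ring
      _ ≤ psi u / phi u ^ 2 * (psi u * (1 / (ε * phi u) ^ 2)) := by gcongr
      _ = _ := by field_simp

theorem masterD {l θ s c ε γ lam O0 ν ν1 k k1 k2 τ τ1 τ2 : ℝ} (hs : 0 < s)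
    (hsc : s ^ 2 + c ^ 2 = 1) (hγ : 0 < γ) (hε : 0 < ε) (hεγ : ε ≤ γ ^ 3 / 10 ^ 6)
    (hν : γ / 2 ≤ ν) (hν' : ν ≤ 1 / 100) (hν1 : 0 ≤ ν1) (hk : 1 / 2 ≤ k) (hk' : k ≤ 2)
    (hτ : 0 ≤ τ) (hτ' : τ ≤ 1) (h1 : |τ1| ≤ lam) (h2 : |τ2| ≤ lam)
    (hl : 100 * lam ≤ γ * ε ^ 4) (hl2 : 4 * lam ^ 2 ≤ γ * ε ^ 8 * ν1)
    (hk1 : (τ1 = 0 ∧ τ2 = 0) ∨ |k1| ≤ 1) :
    PathOK ((Jet.x1 l).comp O0 (k * (1 - ν)) (k1 * (1 - ν) - k * ν1)) ((Jet.x1 l).comp k k1 k2)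
      ((Jet.x1 l).comp τ τ1 τ2) ε θ s c := by
  have γ1 : γ ≤ 1 / 50 := by linarith only [hν, hν']
  obtain ε1 : ε ≤ 1 / 100 := by
    have : γ ^ 3 ≤ 1 := pow_le_one₀ hγ.le (by linarith only [hγ, hν, hν'])
    linarith only [hε, hεγ, this]
  have s1 : s ^ 2 ≤ 1 := by linarith only [hsc, sq_nonneg c]
  have c1 : c ^ 2 ≤ 1 := by linarith only [hsc, sq_nonneg s]
  have hu : 0 < s / ε := div_pos hs hε
  have hP := MasterD_P hε ε1 s1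
  have hF := cone_lemma hγ (by linarith only [hε, hν, hν', ε1]) hε hεγ hs ((pow_le_one_iff_of_nonneg hs.le two_ne_zero).1 s1)
  rw [show 1 - s ^ 2 = c ^ 2 by linarith only [hsc]] at hF
  obtain ⟨b1, b2, b3, b4⟩ := MasterD_bub hε hu c1 hP
  obtain ⟨g0, g1, -⟩ := sg1_mem hu
  have φ0 := phi_pos (s / ε)
  have ψ0 := psi_pos hu
  obtain P3 : 3 * ε ^ 2 ≤ (ε * phi (s / ε)) ^ 2 := by
    have := mul_le_mul_of_nonneg_left (three_le_phi_sq (s / ε)) (sq_nonneg ε)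
    linarith only [this, mul_pow ε (phi (s / ε)) 2]
  have hΦ : PhiJ (Jet.cst ε) (sJ θ s c) = _ :=
    MasterD_jet (g := phi (s / ε)) (g1 := phi1 (s / ε)) (g2 := phi2 (s / ε)) hε φ0
  have hΨ : PsiJ (Jet.cst ε) (sJ θ s c) = _ :=
    MasterD_jet (g := psi (s / ε)) (g1 := psi1 (s / ε)) (g2 := psi2 (s / ε)) hε ψ0
  generalize s / ε = u at *
  obtain e1 : phi2 u / phi u * c ^ 2 / ε ^ 2 - u * phi1 u / phi u - (c * phi1 u / (ε * phi u)) ^ 2 =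
      -(1 - sg1 u) - 2 * (c * phi1 u / (ε * phi u)) ^ 2 +
        c * phi1 u / (ε * phi u) * (c * psi1 u / (ε * psi u)) := by
    rw [sg1, phi2, phi1]
    field_simp
    ring
  obtain e2 : psi2 u / psi u * c ^ 2 / ε ^ 2 - u * psi1 u / psi u - (c * psi1 u / (ε * psi u)) ^ 2 =
      -(3 + (be u * c ^ 2 / ε ^ 2 - sg u)) + 2 * (1 - sg1 u) + 2 * (c * phi1 u / (ε * phi u)) ^ 2 -
        2 * (c * phi1 u / (ε * phi u)) * (c * psi1 u / (ε * psi u)) -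
        (c * psi1 u / (ε * psi u)) ^ 2 := by
    clear * - u c ε hε φ0 ψ0
    rw [be, sg, sg3, phi2, phi1]
    field_simp
    ring
  rw [e1] at hΦ
  rw [e2] at hΨ
  have Φ0 := mul_pos hε φ0
  have Ψ0 := mul_pos hε ψ0
  generalize c * phi1 u / (ε * phi u) = f1 at *
  generalize c * psi1 u / (ε * psi u) = h1' at *
  generalize ε * phi u = Φ at *
  generalize ε * psi u = Ψ at *
  obtain ⟨X0, hX⟩ : ∃ X0, (100 * Φ ^ 4)⁻¹ = X0 := ⟨_, rfl⟩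
  obtain ⟨V, hV⟩ : ∃ V, 1 - τ + τ * X0 = V := ⟨_, rfl⟩
  obtain x1 : 16 ≤ X0 := by
    clear * - X0 Φ hX Φ0 hP
    rw [← hX, le_inv_comm₀ (by norm_num) (by positivity)]
    calc 100 * Φ ^ 4 = 100 * (Φ ^ 2) ^ 2 := by ring
      _ ≤ 100 * (1 / 40) ^ 2 := by gcongr
      _ = _ := by norm_num
  obtain x2 : X0 ≤ (900 * ε ^ 4)⁻¹ := by
    clear * - X0 ε Φ hX hε P3
    rw [← hX]
    refine inv_anti₀ (by positivity) ?_
    calc 900 * ε ^ 4 = 100 * (3 * ε ^ 2) ^ 2 := by ring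
      _ ≤ 100 * (Φ ^ 2) ^ 2 := by gcongr
      _ = _ := by ring
  have v1 : 1 + 15 * τ ≤ V := by linarith only [hV, x1, hτ, mul_le_mul_of_nonneg_left x1 hτ]
  obtain v2 : V ≤ X0 := by
    clear * - V X0 τ hV hτ' ε hε ε1 x1
    linarith only [hV, hτ', hε, ε1, x1, mul_nonneg (sub_nonneg.2 hτ') (show 0 ≤ X0 - 1 by linarith)]
  have V1 : 1 ≤ V := by linarith only [hτ, v1]
  have V0 : 0 < V := by linarith only [hε, hτ, ε1, v1]
  obtain ⟨y, hy⟩ : ∃ y, Real.exp (2 * (1 / 4 * Real.log V)) = y := ⟨_, rfl⟩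
  have y0 : 0 < y := hy ▸ Real.exp_pos _
  obtain y2 : y ^ 2 = V := by
    rw [← hy, ← Real.exp_nat_mul, ← Real.exp_log V0, Real.log_exp]
    congr 1
    push_cast
    ring
  have y1 : 1 + 2 * τ ≤ y :=
    (pow_le_pow_iff_left₀ (by positivity) y0.le two_ne_zero).1
      (by linarith only [hτ, v1, y2, hτ', mul_nonneg hτ (sub_nonneg.2 hτ')])
  have y1' : 1 ≤ y := by linarith only [hτ, y1]
  obtain yP : y * Φ ^ 2 ≤ 1 / 10 := by
    clear * - y Φ y0 Φ0 X0 V y2 v2 hX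
    refine (pow_le_pow_iff_left₀ (by positivity) (by norm_num) two_ne_zero).1 ?_
    calc (y * Φ ^ 2) ^ 2 = V * Φ ^ 4 := by rw [← y2]; ring
      _ ≤ X0 * Φ ^ 4 := by gcongr
      _ = _ := by rw [← hX]; field_simp; norm_num
  have p0 : 0 ≤ (1 - τ) / V := div_nonneg (by linarith only [hτ']) V0.le
  have p1 : (1 - τ) / V * y ^ 2 = 1 - τ := by rw [y2, div_mul_cancel₀ _ V0.ne']
  have l0 : 0 ≤ lam := (abs_nonneg _).trans h1
  have bd : ∀ {t : ℝ}, |t| ≤ lam → |t * (X0 - 1) / (4 * V)| ≤ lam / (3600 * ε ^ 4) := fun {t} ht => by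
    clear * - t X0 V lam ε hε ε1 x1 V1 l0 ht x2
    rw [abs_div, abs_mul, abs_of_nonneg (show 0 ≤ X0 - 1 by linarith only [hε, ε1, x1]),
      abs_of_pos (show 0 < 4 * V by positivity)]
    calc |t| * (X0 - 1) / (4 * V) ≤ lam * (900 * ε ^ 4)⁻¹ / (4 * 1) := by
          gcongr <;> linarith only [hε, ε1, x1, x2]
      _ = _ := by field_simp; ring
  obtain m1 : lam / (3600 * ε ^ 4) ≤ γ / 10 ^ 4 := by
    rw [div_le_div_iff₀ (by positivity) (by norm_num)]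
    linarith only [hl, l0, show 0 ≤ γ * ε ^ 4 by positivity]
  obtain m2 : 4 * (lam / (3600 * ε ^ 4)) ^ 2 ≤ ν1 := by
    rw [div_pow, ← mul_div_assoc, div_le_iff₀ (by positivity)]
    have a1 : 0 ≤ ε ^ 8 * ν1 := by positivity
    linarith only [hl2, a1, γ1, mul_le_mul_of_nonneg_right γ1 a1]
  have hXr := MasterD_X hγ γ1 (show 0 ≤ ν by linarith only [hγ, hν]) (by linarith only [hε, hν', ε1]) hk hk' ((bd h1).trans m1)
    ((bd h2).trans m1) (hk1.imp_left fun h => by rw [h.1, zero_mul, zero_div])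
  rw [abs_le] at hXr
  have k0 : 0 < k := by linarith only [hε, hk, ε1]
  have n0 : 0 ≤ ν1 / k := div_nonneg hν1 k0.le
  obtain n1 : 3 * (1 - ν) ^ 2 ≤ 3 - 29 / 10 * γ := by
    clear * - ν γ hγ hν hν'
    linarith only [hγ, hν, hν', mul_nonneg (show 0 ≤ ν by linarith) (sub_nonneg.2 hν')]
  have b5 : f1 ^ 2 ≤ 1 / (48 * Φ ^ 2) :=
    b1.trans ((div_le_div_of_nonneg_right b2 (by norm_num)).trans_eq (by field_simp; norm_num))
  refine MasterD_core (F0 := 3 + (be u * c ^ 2 / ε ^ 2 - sg u)) k0 Φ0 Ψ0 hy rfl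
    ((congrArg _ hΦ).trans (MasterD_aJ Φ0 hX hV V0))
    (by rw [F0J, hΦ, MasterD_log Φ0]) (by rw [H0J, hΨ, MasterD_log Ψ0])
    (MasterD_quad (n := ν1) y0 hγ ?_ ?_ ?_) ?_ ?_
  · have a1 := pow_le_pow_left₀ (abs_nonneg _) (bd h1) 2
    rw [sq_abs] at a1
    linarith only [m2, a1, hk, hν1, mul_le_mul_of_nonneg_right hk hν1]
  · have := MasterD_r11 γ1 hτ y1 p1 (show 0 ≤ 1 - sg1 u by linarith only [g1]) (by linarith only [g0])
      (show 3 - γ ≤ 3 + (be u * c ^ 2 / ε ^ 2 - sg u) by linarith only [hF])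
    clear * - γ y u c ε τ V ν ν1 k τ2 X0 τ1 k1 hγ hXr n0 n1 this; linarith only [hγ, hXr, n0, n1, this]
  · have a1 : τ1 ^ 2 ≤ lam ^ 2 := sq_le_sq' (abs_le.1 h1).1 (abs_le.1 h1).2
    obtain a2 : y / V ^ 2 ≤ 1 := by
      clear * - y V V1 y2 y1' y0 V0
      rw [div_le_one (by positivity)]
      linarith only [y2, y1', y0, V1, V0, mul_le_mul_of_nonneg_left y1' y0.le, mul_le_mul_of_nonneg_left V1 V0.le]
    have a3 : f1 ^ 2 ≤ 1 / ε ^ 2 :=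
      b5.trans (one_div_le_one_div_of_le (by positivity) (by linarith only [P3, sq_nonneg ε]))
    have a4 : ε ^ 6 ≤ 1 := pow_le_one₀ hε.le (by linarith only [hε, ε1])
    calc (τ1 * f1 / V) ^ 2 * y = τ1 ^ 2 * f1 ^ 2 * (y / V ^ 2) := by ring
      _ ≤ γ * ε ^ 8 * ν1 * (1 / ε ^ 2) * 1 := by
        clear * - τ1 f1 γ ε ν1 y V lam hl2 a1 a3 hγ hε hν1 a2 y0 V1
        gcongr
        linarith only [hl2, a1, sq_nonneg lam]
      _ = γ * ν1 * ε ^ 6 := by field_simp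
      _ ≤ _ := mul_le_of_le_one_right (by positivity) a4
  · have := MasterD_rf y1' (pow_pos Φ0 2) yP p0 (by linarith only [hτ, p1]) (show 0 ≤ 1 - sg1 u by linarith only [g1]) b5 b3 b2
    clear * - y τ V u f1 h1' Φ Ψ ν ν1 k τ2 X0 τ1 k1 γ ε hγ hε ε1 hXr n0 n1 this; linarith only [hγ, hε, ε1, hXr, n0, n1, this]
  · have := MasterD_rh γ1 y1' p0 (by linarith only [hτ, p1]) (show 0 ≤ 1 - sg1 u by linarith only [g1]) (by linarith only [g0])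
      (show 3 - γ ≤ 3 + (be u * c ^ 2 / ε ^ 2 - sg u) by linarith only [hF]) b1 b4
    clear * - y u c ε τ V Ψ Φ f1 ν ν1 k τ2 X0 τ1 k1 γ hγ hXr n0 n1 this; linarith only [hγ, hXr, n0, n1, this]

end

end Pool.Agent.Work.MP_a9fb1f_gt
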