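import Pool.Agent.Work.MP_a9fb1f_gt.Params
import Pool.Agent.Work.MP_a9fb1f_gt.MasterC
import Pool.Agent.Work.MP_a9fb1f_gt.LB
import Pool.Agent.Work.MP_a9fb1f_gt.MasterD

-- merged part: Pool.Agent.Work.MP_a9fb1f_gt.Thick
section
/-! The translation invariant metric. -/

set_option autoImplicit false

open scoped Manifold ContDiff Topology ENNReal Bundle RealInnerProductSpace
open Filter Set

namespace Pool.Agent.Work.MP_a9fb1f_gt

noncomputable section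

namespace Th.OK

variable {T : Th} (h : T.OK) {ρ z x : ℝ}
include h

lemma d_pos : 0 < T.d := by
  have h1 := h.s0
  have h2 := h.sd
  linarith only [h1, h2]

omit h in
lemma Thick_two : (2 : WithTop ℕ∞) ≤ (∞ : WithTop ℕ∞) :=
  WithTop.coe_le_coe.2 (le_top (a := (2 : ℕ∞)))

omit h in
lemma Thick_arg (hz : 0 ≤ z) : 1 ≤ 1 + z / T.d ^ 2 :=
  le_add_of_nonneg_right (div_nonneg hz (sq_nonneg _))

omit h in
lemma Thick_sq (z : ℝ) : T.bq z ^ 2 = √(1 + z / T.d ^ 2) :=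
  Real.sq_sqrt (Real.sqrt_nonneg _)

lemma bq_spec (hz : 0 ≤ z) : 1 ≤ T.bq z ∧ T.bq z ^ 4 = 1 + z / T.d ^ 2 := by
  have h1 := Thick_arg (T := T) hz
  refine ⟨Real.one_le_sqrt.2 (Real.one_le_sqrt.2 h1), ?_⟩
  rw [show 4 = 2 * 2 from rfl, pow_mul, Thick_sq, Real.sq_sqrt (by linarith only [h1])]

lemma Thick_zgh (hz : 0 ≤ z) : z * T.gh z = 40 * T.δ * (1 - (T.bq z)⁻¹) := by
  obtain ⟨h1, h2⟩ := h.bq_spec hz
  have hd := h.d_pos
  have h3 : z = T.d ^ 2 * (T.bq z ^ 4 - 1) := by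
    rw [h2]
    field_simp
    ring
  rw [Th.gh]
  generalize T.bq z = b at h1 h3
  rw [h3]
  have h4 : 0 < b := by linarith
  field_simp
  ring

lemma gh_mem (hz : 0 ≤ z) :
    0 ≤ T.gh z ∧ z * T.gh z ≤ 40 * T.δ ∧ T.gh z ≤ 10 * T.δ / T.d ^ 2 := by
  have h1 := (h.bq_spec hz).1
  have hd := h.d_pos
  have hδ := h.δ0
  have h4 : 0 < T.bq z := by linarith
  refine ⟨by rw [Th.gh]; positivity, ?_, ?_⟩
  · rw [h.Thick_zgh hz]
    have : 0 < (T.bq z)⁻¹ := inv_pos.2 h4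
    linarith only [hδ, this, mul_pos_of_neg_of_neg (Mathlib.Tactic.Linarith.sub_neg_of_lt hδ) (Mathlib.Tactic.Linarith.sub_neg_of_lt this)]
  · rw [Th.gh]
    generalize T.bq z = b at h1 h4
    calc _ ≤ 40 * T.δ / (T.d ^ 2 * (1 * (1 + 1) * (1 ^ 2 + 1))) := by gcongr
      _ = _ := by
        field_simp
        ring

lemma Thick_bq (hz : 0 ≤ z) : ContDiffAt ℝ ∞ T.bq z := by
  have h1 := Thick_arg (T := T) hz
  have h2 : ContDiffAt ℝ ∞ (fun z : ℝ => 1 + z / T.d ^ 2) z := by fun_prop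
  exact (h2.sqrt (by linarith only [h1])).sqrt (Real.sqrt_pos.2 (by linarith)).ne'

lemma contDiffAt_gh (hz : 0 ≤ z) : ContDiffAt ℝ ∞ T.gh z := by
  have h1 := h.Thick_bq hz
  have h2 := (h.bq_spec hz).1
  have hd := h.d_pos
  have h4 : 0 < T.bq z := by linarith
  exact contDiffAt_const.div (contDiffAt_const.mul ((h1.mul (h1.add contDiffAt_const)).mul
    ((h1.pow 2).add contDiffAt_const))) (by positivity)

lemma Thick_dB (u : ℝ) :
    HasDerivAt (fun u => T.bq (u ^ 2)) (u / (2 * T.d ^ 2 * T.bq (u ^ 2) ^ 3)) u := by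
  have h1 := Thick_arg (T := T) (sq_nonneg u)
  have h2 := (h.bq_spec (sq_nonneg u)).1
  have hd := h.d_pos
  have h3 : HasDerivAt (fun u : ℝ => 1 + u ^ 2 / T.d ^ 2) (2 * u / T.d ^ 2) u := by
    simpa using ((hasDerivAt_pow 2 u).div_const (T.d ^ 2)).const_add 1
  have h4 := (h3.sqrt (by linarith only [h1])).sqrt (Real.sqrt_pos.2 (by linarith only [h1])).ne'
  refine h4.congr_deriv ?_
  change 2 * u / T.d ^ 2 / (2 * √(1 + u ^ 2 / T.d ^ 2)) / (2 * T.bq (u ^ 2)) = _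
  rw [← Thick_sq (u ^ 2)]
  have h5 : 0 < T.bq (u ^ 2) := by linarith only [h2]
  field_simp

lemma has2_g (ρ : ℝ) :
    Has2 (fun u => u ^ 2 * T.gh (u ^ 2)) ρ (ρ ^ 2 * T.gh (ρ ^ 2)) (T.g1 ρ) (T.g2 ρ) := by
  have hd := h.d_pos
  have hb : ∀ u : ℝ, 0 < T.bq (u ^ 2) := fun u => zero_lt_one.trans_le (h.bq_spec (sq_nonneg u)).1
  refine has2_of_hasDerivAt (h := fun u => u ^ 2 * T.gh (u ^ 2)) ?_
    (Eventually.of_forall fun u => ?_) ?_
  · have h1 : ContDiffAt ℝ ∞ (fun u : ℝ => u ^ 2) ρ := by fun_prop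
    exact (h1.mul (ContDiffAt.comp (f := fun u : ℝ => u ^ 2) ρ (h.contDiffAt_gh (sq_nonneg ρ))
      h1)).of_le Thick_two
  · have e : (fun u : ℝ => u ^ 2 * T.gh (u ^ 2)) = fun u => 40 * T.δ * (1 - (T.bq (u ^ 2))⁻¹) :=
      funext fun u => h.Thick_zgh (sq_nonneg u)
    rw [e]
    refine ((((h.Thick_dB u).inv (hb u).ne').const_sub 1).const_mul (40 * T.δ)).congr_deriv ?_
    have := hb u
    rw [Th.g1]
    field_simp
  · have h1 := (((hasDerivAt_id ρ).const_mul (40 * T.δ)).div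
      (((h.Thick_dB ρ).pow 5).const_mul (2 * T.d ^ 2))
      (mul_pos (by positivity) (pow_pos (hb ρ) 5)).ne')
    refine h1.congr_deriv ?_
    have := hb ρ
    rw [Th.g2]
    simp only [Pi.pow_apply, id]
    field_simp
    ring

lemma contDiffAt_w0 (hx : 0 ≤ x) : ContDiffAt ℝ ∞ T.w0 x := by
  have hd := h.d_pos
  exact (contDiffAt_const.mul contDiffAt_id).div (contDiffAt_const.add contDiffAt_id)
    (by positivity)

lemma has2_w0 (hx : 0 ≤ x) : Has2 T.w0 x (T.w0 x) (T.w1 x) (T.w2 x) := by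
  have hd := h.d_pos
  have h0 : 0 < T.d + x := by positivity
  refine has2_of_hasDerivAt ((h.contDiffAt_w0 hx).of_le Thick_two) ?_ ?_
  · have h1 : ∀ᶠ y in 𝓝 x, -T.d < y := lt_mem_nhds (by linarith)
    filter_upwards [h1] with y hy
    have h2 : T.d + y ≠ 0 := by linarith
    refine (((hasDerivAt_id y).const_mul T.δ).div ((hasDerivAt_id y).const_add T.d)
      h2).congr_deriv ?_
    rw [Th.w1]
    simp only [id]
    field_simp
    ring
  · refine ((hasDerivAt_const x (T.δ * T.d)).div (((hasDerivAt_id x).const_add T.d).pow 2)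
      (by simp only [Pi.pow_apply, id]; positivity)).congr_deriv ?_
    rw [Th.w2]
    simp only [Pi.pow_apply, id]
    field_simp
    ring

lemma w0_mem (hx : 0 ≤ x) : 0 ≤ T.w0 x ∧ T.w0 x ≤ T.δ ∧ T.w0 x ≤ T.δ * x / T.d := by
  have hd := h.d_pos
  have hδ := h.δ0
  rw [Th.w0]
  refine ⟨by positivity, ?_, by gcongr; linarith⟩
  rw [div_le_iff₀ (by positivity)]
  gcongr
  linarith

lemma w1_mem (hx : 0 ≤ x) : 0 ≤ T.w1 x ∧ T.w1 x * x ≤ T.δ ∧ T.w1 x ≤ T.δ / T.d := by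
  have hd := h.d_pos
  have hδ := h.δ0
  rw [Th.w1]
  refine ⟨by positivity, ?_, ?_⟩
  · rw [div_mul_eq_mul_div, div_le_iff₀ (by positivity), mul_assoc]
    gcongr
    linarith only [hx, hd, mul_nonneg hd.le hx, sq_nonneg (T.d + x), mul_nonneg_of_nonpos_of_nonpos (Mathlib.Tactic.Linarith.sub_nonpos_of_le hx) (Mathlib.Tactic.Linarith.sub_nonpos_of_le hx), mul_pos_of_neg_of_neg (Mathlib.Tactic.Linarith.sub_neg_of_lt hd) (Mathlib.Tactic.Linarith.sub_neg_of_lt hd)]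
  · rw [div_le_div_iff₀ (by positivity) hd, mul_assoc]
    gcongr
    linarith only [hd, hx, mul_nonneg hd.le hx, mul_nonneg_of_nonpos_of_nonpos (Mathlib.Tactic.Linarith.sub_nonpos_of_le hx) (Mathlib.Tactic.Linarith.sub_nonpos_of_le hx)]

lemma w2_abs (hx : 0 ≤ x) : |T.w2 x| * x ^ 2 ≤ 2 * T.δ ∧ |T.w2 x| ≤ 2 * T.δ / T.d ^ 2 := by
  have hd := h.d_pos
  have hδ := h.δ0
  have e : |T.w2 x| = 2 * T.δ * T.d / (T.d + x) ^ 3 := by
    rw [Th.w2, show -2 * T.δ * T.d / (T.d + x) ^ 3 = -(2 * T.δ * T.d / (T.d + x) ^ 3) by ring,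
      abs_neg, abs_of_nonneg (by positivity)]
  have h1 : T.d ≤ T.d + x := by linarith
  have h2 : x ≤ T.d + x := by linarith
  rw [e]
  refine ⟨?_, ?_⟩
  · rw [div_mul_eq_mul_div, div_le_iff₀ (by positivity), mul_assoc, pow_succ' _ 2]
    gcongr
  · rw [div_le_div_iff₀ (by positivity) (by positivity), mul_assoc, pow_succ' _ 2]
    gcongr

lemma Thick_g12 (hρ : 0 < ρ) : |T.g1 ρ| ≤ 70 * T.δ / (T.d ^ 2 * T.bq (ρ ^ 2) ^ 4) * ρ ∧
    |T.g2 ρ| ≤ 70 * T.δ / (T.d ^ 2 * T.bq (ρ ^ 2) ^ 4) := by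
  obtain ⟨h1, h2⟩ := h.bq_spec (sq_nonneg ρ)
  have hd := h.d_pos
  have hδ := h.δ0
  rw [Th.g1, Th.g2]
  generalize T.bq (ρ ^ 2) = b at h1 h2
  have h4 : 0 < b := by linarith only [h1]
  have h5 : ρ ^ 2 ≤ T.d ^ 2 * b ^ 4 := by
    rw [h2, mul_add, mul_div_cancel₀ _ (by positivity)]
    linarith only [sq_nonneg T.d, sq_nonneg T.d]
  have h6 : 1 / (2 * T.d ^ 2 * b ^ 5) ≤ 1 / (2 * T.d ^ 2 * b ^ 4) := by
    gcongr
    norm_num
  have h7 : 5 * ρ ^ 2 / (4 * T.d ^ 4 * b ^ 9) ≤ 5 / (4 * T.d ^ 2 * b ^ 4) := by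
    calc _ ≤ 5 * (T.d ^ 2 * b ^ 4) / (4 * T.d ^ 4 * b ^ 8) := by
          gcongr
          norm_num
      _ = _ := by field_simp
  constructor
  · rw [abs_of_nonneg (by positivity)]
    calc _ = 40 * T.δ * ρ * (1 / (2 * T.d ^ 2 * b ^ 5)) := by ring
      _ ≤ 140 * T.δ * ρ * (1 / (2 * T.d ^ 2 * b ^ 4)) := by
          gcongr
          norm_num
      _ = _ := by
          field_simp
          ring
  · rw [abs_mul, abs_of_nonneg (by positivity)]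
    calc _ ≤ 40 * T.δ * (1 / (2 * T.d ^ 2 * b ^ 4) + 5 / (4 * T.d ^ 2 * b ^ 4)) := by
          gcongr
          refine (abs_sub _ _).trans ?_
          rw [abs_of_nonneg (by positivity), abs_of_nonneg (by positivity)]
          exact add_le_add h6 h7
      _ = _ := by
          field_simp
          ring

lemma Thick_sm {k : ℝ} (hρ : 0 < ρ) (hx : 0 < x)
    (hk : 70 * T.δ / (T.d ^ 2 * T.bq (ρ ^ 2) ^ 4) * x ^ 2 ≤ k) : Sm (T.gJ ρ) k ρ x := by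
  obtain ⟨h1, h2⟩ := h.Thick_g12 hρ
  refine sm_x2 hρ hx ?_ (le_trans (by gcongr) hk)
  calc _ ≤ 70 * T.δ / (T.d ^ 2 * T.bq (ρ ^ 2) ^ 4) * ρ * x ^ 2 := by gcongr
    _ = 70 * T.δ / (T.d ^ 2 * T.bq (ρ ^ 2) ^ 4) * x ^ 2 * ρ := by ring
    _ ≤ k * ρ := by gcongr

lemma sm_gJ (hρ : 0 < ρ) (hx : 0 < x) : Sm (T.gJ ρ) (70 * T.δ * x ^ 2 / T.d ^ 2) ρ x := by
  have h1 := (h.bq_spec (sq_nonneg ρ)).1
  have hd := h.d_pos
  have hδ := h.δ0
  refine h.Thick_sm hρ hx ?_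
  rw [div_mul_eq_mul_div]
  gcongr
  exact le_mul_of_one_le_right (by positivity) (one_le_pow₀ h1)

lemma sm_gJ' (hρ : 0 < ρ) : Sm (T.gJ ρ) (70 * T.δ) ρ (vr T.s ρ) := by
  obtain ⟨h1, h2⟩ := h.bq_spec (sq_nonneg ρ)
  have hd := h.d_pos
  have hδ := h.δ0
  have hs := h.s0
  have hsd := h.sd
  refine h.Thick_sm hρ (vr_pos hρ) ?_
  rw [div_mul_eq_mul_div, div_le_iff₀ (by positivity), vr_sq, h2, mul_add (T.d ^ 2),
    mul_div_cancel₀ _ (by positivity)]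
  have h3 : T.s ^ 2 ≤ T.d ^ 2 := by
    gcongr
    linarith only [hs, hsd]
  exact mul_le_mul_of_nonneg_left (by linarith only [h3]) (by positivity)

lemma g_le (hρ : 0 < ρ) : ρ ^ 2 * T.gh (ρ ^ 2) * vr T.s ρ ≤ 80 * T.δ * ρ := by
  obtain ⟨h1, h2, h3⟩ := h.gh_mem (sq_nonneg ρ)
  have hd := h.d_pos
  have hδ := h.δ0
  have hs := h.s0
  have hsd := h.sd
  have h4 := (le_vr hs hρ).2.2
  have h5 := vr_pos (S := T.s) hρ
  rcases le_total T.s ρ with h6 | h6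
  · calc _ ≤ 40 * T.δ * (2 * ρ) := by
          gcongr
          linarith only [h4, h6]
      _ = _ := by ring
  · have h7 : ρ ≤ T.d := by linarith only [hs, hsd, h6]
    calc _ ≤ ρ ^ 2 * (10 * T.δ / T.d ^ 2) * (2 * T.d) := by
          gcongr
          linarith only [hs, hsd, h4, h6]
      _ = 20 * T.δ * ρ * (ρ / T.d) := by
          field_simp
          ring
      _ ≤ 80 * T.δ * ρ * 1 := by
          gcongr
          · norm_num
          · exact (div_le_one hd).2 h7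
      _ = _ := by ring

theorem adm (t : ℝ) (hρ : 0 < ρ) (hm : T.m * vr T.s ρ ≤ 1 / 10 ^ 6) : Adm T.E t ρ := by
  obtain ⟨b1, b2⟩ := h.bq_spec (sq_nonneg ρ)
  obtain ⟨g1, g2, -⟩ := h.gh_mem (sq_nonneg ρ)
  have hδ := h.δ1
  have hv := vr_pos (S := T.s) hρ
  have hr : 0 < t ^ 2 + ρ ^ 2 := by positivity
  have hp : Pt t ρ √(t ^ 2 + ρ ^ 2) := ⟨hρ, Real.sqrt_pos.2 hr, Real.sq_sqrt hr.le⟩
  have ev : (vJ (Jet.cst T.s) ρ).v = vr T.s ρ := vJ_v _ _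
  have h1 : Has2 (fun x => T.w0 x + T.m * x) (vJ (Jet.cst T.s) ρ).v
      (T.w0 (vr T.s ρ) + T.m * vr T.s ρ) (T.w1 (vr T.s ρ) + T.m * 1)
      (T.w2 (vr T.s ρ) + T.m * 0) := by
    rw [ev]
    exact (h.has2_w0 hv.le).add ((has2_id _).smul T.m)
  have hW := (hasJet_cst 0 (t, ρ)).sub (((hasJet_cst T.s (t, ρ)).vr hρ).comp h1)
  have hY := (hasJet_cst 1 (t, ρ)).sub ((hasJet_x2 (t, ρ)).comp (h.has2_g ρ))
  refine adm_pert hρ (Eventually.of_forall fun _ => ⟨rfl, rfl⟩) (hasJet_cst T.s (t, ρ)) hY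
    (hW.congr (Eventually.of_forall fun q => (zero_sub _).symm)) h.s0 ?_ ?_
  · change 0 < 1 - ρ ^ 2 * T.gh (ρ ^ 2)
    linarith only [g2, hδ]
  · have h2 := masterC hp (χ := 1) (w := 0) (ν := 0) (ν1 := 0) (ke := 0)
      (w0 := T.w0 (vr T.s ρ) + T.m * vr T.s ρ) (g0 := ρ ^ 2 * T.gh (ρ ^ 2)) (E1 := Jet.cst 0)
      (E2 := Jet.cst 0) h.s0 h.sd h.δ0.le h.δ1 h.m0 hm zero_le_one le_rfl (by linarith only [b1]) b2 le_rfl
      (by norm_num) (by simp) (by simp) (Or.inl ⟨rfl, rfl⟩) (sm_cst 0 hρ.le hv le_rfl)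
      (sm_cst 0 hρ.le hv le_rfl) (by simp) (by norm_num)
      (by simpa using mul_nonneg (sq_nonneg ρ) g1) (by rw [Jet.cst_v]; linarith only [g2, hδ])
      (by simpa using h.m0)
    convert h2 using 1
    · ext <;> simp [Th.g1, Th.g2]
    · ext <;> simp [oJ, Th.w1, Th.w2]

theorem smooth {x : ℝ × ℝ} (hx : 0 ≤ x.2) : ContDiffAt ℝ ∞ T.E x := by
  have hs := h.s0
  have h1 : ContDiffAt ℝ ∞ (fun x : ℝ × ℝ => √(x.2 + T.s ^ 2)) x :=
    (contDiffAt_snd.add contDiffAt_const).sqrt (by positivity)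
  exact contDiffAt_mkE hx
    (((h.contDiffAt_w0 (Real.sqrt_nonneg _)).comp x h1).add (contDiffAt_const.mul h1)).neg
    ((h.contDiffAt_gh hx).comp x contDiffAt_snd) contDiffAt_const contDiffAt_const contDiffAt_const
    hs zero_lt_one

theorem lbat {x : ℝ × ℝ} (hx : 0 ≤ x.2) (hm : T.m * √(x.2 + T.s ^ 2) ≤ 1 / 10 ^ 6) :
    LBat (T.E x) x.2 T.s := by
  obtain ⟨g1, g2, -⟩ := h.gh_mem hx
  obtain ⟨w1, w2, -⟩ := h.w0_mem (Real.sqrt_nonneg (x.2 + T.s ^ 2))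
  have hδ := h.δ1
  have h1 := mul_nonneg h.m0 (Real.sqrt_nonneg (x.2 + T.s ^ 2))
  have h2 := (Ph2_bounds h.s0 hx).2.2.1
  refine lbat_mkV hx ?_ g1 (by linarith only [g2, hδ]) h.s0 le_rfl le_rfl ?_ (Or.inl ⟨rfl, rfl⟩)
  · rw [abs_neg, abs_of_nonneg (by linarith only [w1, h1])]
    linarith only [hm, w2, hδ]
  · linarith only [hx, h2, sq_nonneg T.s, sq_nonneg T.s]

end Th.OK

end

end Pool.Agent.Work.MP_a9fb1f_gt
end

-- merged part: Pool.Agent.Work.MP_a9fb1f_gt.BlockJet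
section
/-! Jets of a block, and agreement with the translation invariant metrics. -/

set_option autoImplicit false

open scoped Manifold ContDiff Topology ENNReal Bundle RealInnerProductSpace
open Filter Set

namespace Pool.Agent.Work.MP_a9fb1f_gt

noncomputable section

lemma BlockJet_cont : Continuous rr := by
  unfold rr
  fun_prop

lemma BlockJet_rr {t ρ r : ℝ} (hp : Pt t ρ r) : rr (t, ρ ^ 2) = r := by
  rw [rr, ← hp.sq, Real.sqrt_sq hp.rpos.le]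

lemma BlockJet_cJ {t ρ r : ℝ} (hp : Pt t ρ r) {f : ℝ → ℝ} (hf : ContDiff ℝ ∞ f) :
    HasJet (fun q => f (rr (q.1, q.2 ^ 2))) (cJ f t ρ r) (t, ρ) :=
  (hasJet_r hp).comp (has2_of_contDiffAt (hf.contDiffAt.of_le (WithTop.coe_le_coe.2 (le_top (a := 2)))))

lemma BlockJet_num {K ι ε γ L ν : ℝ} (hK : K ^ 2 * ι ≤ 1 / 10 ^ 12) (hε : 0 < ε)
    (hε1 : ε ≤ 1) (hγ : 0 < γ) (h1 : ε ≤ ι * γ) (hL : 1 ≤ L * ε ^ 10) (hν : γ / (5 * L) ≤ ν) :
    100 * (4 * K ^ 2 / L) ≤ γ * ε ^ 4 ∧ 4 * (4 * K ^ 2 / L) ^ 2 ≤ γ * ε ^ 8 * ν := by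
  have L0 : 0 < L := (pos_iff_pos_of_mul_pos (one_pos.trans_le hL)).2 (by positivity)
  have h2 : 1 / L ≤ ε ^ 10 := by rwa [div_le_iff₀ L0, mul_comm]
  have h3 : K ^ 2 * ε ≤ γ / 10 ^ 12 :=
    calc K ^ 2 * ε ≤ K ^ 2 * (ι * γ) := by gcongr
      _ = K ^ 2 * ι * γ := by ring
      _ ≤ 1 / 10 ^ 12 * γ := by gcongr
      _ = _ := by ring
  constructor
  · calc 100 * (4 * K ^ 2 / L) = 400 * K ^ 2 * (1 / L) := by ring
      _ ≤ 400 * K ^ 2 * ε ^ 10 := by gcongr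
      _ = 400 * (K ^ 2 * ε) * ε ^ 5 * ε ^ 4 := by ring
      _ ≤ 400 * (γ / 10 ^ 12) * 1 ^ 5 * ε ^ 4 := by gcongr
      _ ≤ γ * ε ^ 4 := by
        gcongr
        linarith only [hγ]
  · calc 4 * (4 * K ^ 2 / L) ^ 2 = 64 * K ^ 4 * (1 / L) / L := by ring
      _ ≤ 64 * K ^ 4 * ε ^ 10 / L := by gcongr
      _ = 64 * (K ^ 2 * ε) ^ 2 * (ε ^ 8 / L) := by ring
      _ ≤ 64 * (γ / 10 ^ 12) ^ 2 * (ε ^ 8 / L) := by gcongr
      _ ≤ γ ^ 2 / 5 * (ε ^ 8 / L) := by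
        gcongr
        linarith only [sq_nonneg γ, sq_nonneg γ]
      _ = γ * ε ^ 8 * (γ / (5 * L)) := by ring
      _ ≤ _ := by gcongr

namespace Par.OK

variable {P : Par} (h : P.OK) {t ρ r : ℝ} {x : ℝ × ℝ}
include h

lemma yB_one (h1 : rr x ≤ 10 * P.I ∨ P.R2 / 4 ≤ rr x) : P.yB x = 1 := by
  rw [Par.yB, h.tau_zero (r := rr x) (Real.sqrt_nonneg _) h1]
  simp

lemma BlockJet_one (h1 : rr x < 5 * P.I ∨ P.R2 / 2 < rr x) : P.yB x = 1 ∧ P.kB x = 0 := by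
  have := h.I_pos
  have := h.R2_pos
  have h2 := h.yB_one (h1.imp (fun _ => by linarith) fun _ => by linarith)
  refine ⟨h2, ?_⟩
  rw [Par.kB, h2, h.kf_one (r := rr x) (Real.sqrt_nonneg _) h1]
  simp

theorem adm_of_pertOK (hp : Pt t ρ r) (h1 : r < 5 * P.I ∨ P.R2 / 2 < r)
    (hk : PertOK (cJ P.Sf t ρ r) (P.jY t ρ r) (P.jW t ρ r) ρ) : Adm P.E t ρ := by
  have hS := BlockJet_cJ hp h.contDiff_Sf
  have hV := hS.vr hp.pos
  have hv : (vJ (cJ P.Sf t ρ r) ρ).v = vr (P.Sf r) ρ := vJ_v _ _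
  have hv0 : 0 ≤ vr (P.Sf r) ρ := Real.sqrt_nonneg _
  have hci := BlockJet_cJ hp (f := P.ci) (contDiff_const.sub (contDiff_cut _ _))
  refine adm_pert hp.pos ?_ hS ?_ ?_ (h.Sf_pos hp.rpos.le) ?_ hk
  · have hc := BlockJet_cont.continuousAt (x := (t, ρ ^ 2))
    rw [← BlockJet_rr hp] at h1
    rcases h1 with h1 | h1
    · exact (hc.eventually (gt_mem_nhds h1)).mono fun x hx => h.BlockJet_one (Or.inl hx)
    · exact (hc.eventually (lt_mem_nhds h1)).mono fun x hx => h.BlockJet_one (Or.inr hx)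
  · refine ((hasJet_cst 1 _).sub (((BlockJet_cJ hp (f := P.c2) (contDiff_cut _ _)).mul
      ((hasJet_x2 (t, ρ)).comp (h.ok_o.has2_g ρ))).add
      (hci.mul ((hasJet_x2 (t, ρ)).comp (h.ok_i.has2_g ρ))))).congr
      (Eventually.of_forall fun q => ?_)
    simp only [Par.gB]
    ring
  · have a1 : Has2 (fun x => P.o.w0 x + P.o.m * x) (vJ (cJ P.Sf t ρ r) ρ).v
        (P.o.w0 (vr (P.Sf r) ρ) + P.o.m * vr (P.Sf r) ρ) (P.o.w1 (vr (P.Sf r) ρ) + P.o.m)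
        (P.o.w2 (vr (P.Sf r) ρ)) := by
      simpa only [hv, mul_one, mul_zero, add_zero] using
        (h.ok_o.has2_w0 hv0).add ((has2_id _).smul P.o.m)
    have a2 : Has2 (fun x => P.i.m * x) (vJ (cJ P.Sf t ρ r) ρ).v (P.i.m * vr (P.Sf r) ρ)
        P.i.m 0 := by
      simpa only [hv, mul_one, mul_zero] using (has2_id (vr (P.Sf r) ρ)).smul P.i.m
    have a3 := h.ok_i.has2_w0 hv0
    nth_rw 1 [← hv] at a3
    exact ((hasJet_r hp).comp (h.has2_om0 hp.rpos h1)).sub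
      ((((BlockJet_cJ hp (f := P.co) (contDiff_cut _ _)).mul (hV.comp a1)).add
        (hci.mul (hV.comp a3))).add
        ((BlockJet_cJ hp (f := P.cm) (contDiff_const.sub (contDiff_cut _ _))).mul (hV.comp a2)))
  · change 0 < 1 - (cut P.R 1 r * (ρ ^ 2 * P.o.gh (ρ ^ 2)) +
      (1 - cut P.I 1 r) * (ρ ^ 2 * P.i.gh (ρ ^ 2)))
    obtain ⟨a1, a2, -⟩ := h.ok_o.gh_mem (sq_nonneg ρ)
    obtain ⟨b1, b2, -⟩ := h.ok_i.gh_mem (sq_nonneg ρ)
    have a3 := mul_le_of_le_one_left (mul_nonneg (sq_nonneg ρ) a1) (cut_mem P.R 1 r).2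
    have b3 := mul_le_of_le_one_left (mul_nonneg (sq_nonneg ρ) b1)
      (sub_le_self 1 (cut_mem P.I 1 r).1)
    linarith only [a2, b2, a3, b3, h, h.ok_o.δ1, h.ok_i.δ1]

theorem E_in (h1 : rr x ≤ P.I) : P.E x = P.i.E x := by
  have hI := h.I_pos
  have hI2 := h.I_le
  have hR := h.R2_le
  obtain ⟨a1, a2⟩ := h.BlockJet_one (x := x) (Or.inl (by linarith only [h1, hI]))
  have a3 := (h.has2_Sf_in (r := rr x) (by linarith)).v
  have a4 := h.om0_zero (r := rr x) (Real.sqrt_nonneg _) (Or.inl h1)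
  have a5 := (has2_cut_low (b := 1) (r := rr x) h.R_pos (by linarith)).v
  have a6 := (has2_cut_low (b := 1) (r := rr x) h.R2_pos (by linarith)).v
  have a7 := (has2_cut_low (b := 1) (r := rr x) hI (by linarith)).v
  have a8 := (has2_cut_low (b := 3) (r := rr x) hI (by linarith)).v
  simp only [Par.E, Th.E, mkE, Par.wB, Par.gB, Par.vv, Par.co, Par.ci, Par.cm, Par.c2, a1, a2, a3,
    a4, a5, a6, a7, a8, zero_mul, sub_zero, one_mul, zero_add, zero_sub]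

theorem E_out (h1 : 2 * P.R ≤ rr x) : P.E x = P.o.E x := by
  have hI := h.I_pos
  have hI2 := h.I_le
  have hR := h.R2_le
  obtain ⟨a1, a2⟩ := h.BlockJet_one (x := x) (Or.inr (by linarith only [h1, hI, hI2, hR]))
  have a3 := (h.has2_Sf_out h1).v
  have a4 := h.om0_zero (r := rr x) (Real.sqrt_nonneg _) (Or.inr (Or.inr h1))
  have a5 := (has2_cut_high (b := 1) (r := rr x) h.R_pos (by linarith)).v
  have a6 := (has2_cut_high (b := 1) (r := rr x) h.R2_pos (by linarith)).v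
  have a7 := (has2_cut_high (b := 1) (r := rr x) hI (by linarith)).v
  have a8 := (has2_cut_high (b := 3) (r := rr x) hI (by linarith)).v
  simp only [Par.E, Th.E, mkE, Par.wB, Par.gB, Par.vv, Par.co, Par.ci, Par.cm, Par.c2, a1, a2, a3,
    a4, a5, a6, a7, a8, zero_mul, sub_self, one_mul, add_zero, zero_sub]

theorem adm_path (hp : Pt t ρ r) (h1 : 4 * P.I < r) (h2 : r < P.R2) : Adm P.E t ρ := by
  have hI := h.I_pos
  have hI2 := h.I_le
  have hR := h.R2_le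
  have hγ := h.γ_pos
  have hι := h.ι_le
  have hι0 := h.ι0
  have hγ1 : P.γ ≤ 1 / 10 ^ 12 :=
    (h.γ_le.trans (pow_le_of_le_one hι0.le (by linarith only [hι, hι0]) (by norm_num))).trans hι
  have hε : P.ε ≤ P.ι * P.γ := h.εγ.trans (mul_le_mul_of_nonneg_left
    (pow_le_of_le_one hγ.le (by linarith only [hι, hι0, hγ1]) (by norm_num)) hι0.le)
  obtain ⟨k1, k2, b1, b2, b3⟩ := h.has2_kf hp.rpos
  obtain ⟨τ1, τ2, c1, c2, c3, c4⟩ := h.has2_tau hp.rpos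
  obtain ⟨d1, d2⟩ := BlockJet_num h.ιK h.ε0 (hε.trans (by linarith only [hι, hι0, hγ1, hγ, mul_nonneg_of_nonpos_of_nonpos (le_of_lt (Mathlib.Tactic.Linarith.sub_neg_of_lt hγ)) (Mathlib.Tactic.Linarith.sub_nonpos_of_le hι)])) hγ hε h.Lε
    (h.nu_deriv_mid (r := r) (by linarith only [h1, hI]) (by linarith only [h2, hI, hI2, hR]))
  have hk := h.kf_mem hp.rpos
  refine MP_a9fb1f_gt.adm_path hp h.ε0 ?_ b2 b1 c1 (by linarith only [hι, hι0, hk, hk.1]) (h.tau_mem r).1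
    (h.tau_mem r).2 fun θ => masterD (div_pos hp.pos hp.rpos) ?_ hγ h.ε0 ?_
      (h.nu_ge (by linarith only [h1, hI]) (by linarith only [h2, hI, hI2, hR])) (by linarith only [hι, hι0, hγ1, h, (h.nu_mem r).2])
      (h.nu_deriv_nonneg hp.rpos (by linarith only [h2, hI, hI2, hR])) hk.1 hk.2 (h.tau_mem r).1 (h.tau_mem r).2 c2 c3
      d1 d2 ?_
  · have hc := BlockJet_cont.continuousAt (x := (t, ρ ^ 2))
    rw [← BlockJet_rr hp] at h1 h2
    filter_upwards [hc.eventually (lt_mem_nhds h1), hc.eventually (gt_mem_nhds h2)] with x x1 x2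
    have a5 := (has2_cut_low (b := 1) (r := rr x) h.R_pos (by linarith only [hI, hI2, hR, x2])).v
    have a6 := (has2_cut_low (b := 1) (r := rr x) h.R2_pos (by linarith only [x2])).v
    have a7 := (has2_cut_high (b := 1) (r := rr x) hI (by linarith only [hI, x1])).v
    have a8 := (has2_cut_high (b := 3) (r := rr x) hI (by linarith only [x1])).v
    refine ⟨?_, ?_, (h.has2_Sf_mid (r := rr x) (by linarith only [hI, x1]) (by linarith only [hI, hI2, hR, x2])).v, rfl, rfl⟩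
    · simp only [Par.wB, Par.co, Par.ci, Par.cm, a6, a7, a8, zero_mul, sub_self, add_zero, sub_zero]
      rfl
    · simp only [Par.gB, Par.c2, Par.ci, a5, a7, zero_mul, sub_self, add_zero]
  · have := hp.rpos.ne'
    field_simp
    rw [hp.sq, add_comm]
  · have := h.εγ
    have := mul_le_mul_of_nonneg_right hι (pow_pos hγ 3).le
    linarith [pow_pos hγ 3]
  · by_cases c5 : r ≤ 10 * P.I ∨ P.R2 / 4 ≤ r
    · exact Or.inl (c4 c5)
    · rw [not_or, not_le, not_le] at c5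
      exact Or.inr (b3 c5.1 c5.2)

end Par.OK

end

end Pool.Agent.Work.MP_a9fb1f_gt
end

-- merged part: Pool.Agent.Work.MP_a9fb1f_gt.BlockLB
section
/-! Smoothness and two-sided bounds for a block. -/

set_option autoImplicit false

open scoped Manifold ContDiff Topology ENNReal Bundle RealInnerProductSpace
open Filter Set

namespace Pool.Agent.Work.MP_a9fb1f_gt

noncomputable section

lemma BlockLB_sq {x : ℝ × ℝ} (hx : 0 ≤ x.2) : rr x ^ 2 = x.1 ^ 2 + x.2 :=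
  Real.sq_sqrt (by positivity)

lemma BlockLB_sqrt {z S r : ℝ} (hr : 0 ≤ r) (hz : z ≤ r ^ 2) (hS : 0 ≤ S) (hSr : S ≤ r) :
    √(z + S ^ 2) ≤ 2 * r :=
  Real.sqrt_le_iff.2 ⟨by positivity, by linarith only [hz, hr, hSr, hS, sq_nonneg r, mul_nonneg_of_nonpos_of_nonpos (Mathlib.Tactic.Linarith.sub_nonpos_of_le hr) (Mathlib.Tactic.Linarith.sub_nonpos_of_le hSr), mul_nonneg_of_nonpos_of_nonpos (Mathlib.Tactic.Linarith.sub_nonpos_of_le hS) (Mathlib.Tactic.Linarith.sub_nonpos_of_le hSr)]⟩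

namespace Par.OK

variable {P : Par} (h : P.OK) {x : ℝ × ℝ}
include h

lemma BlockLB_ε : P.ε ≤ 1 / 100 := by
  have h1 := h.ι_le
  have h2 := h.ok_o.δ1
  have h3 : P.ι ^ 7 ≤ 1 := pow_le_one₀ h.ι0.le (by linarith only [h1])
  have h4 := h.ε_le
  linarith only [h2, h4, h, h3, h.δ0, mul_nonneg_of_nonpos_of_nonpos (Mathlib.Tactic.Linarith.sub_nonpos_of_le h3) (le_of_lt (Mathlib.Tactic.Linarith.sub_neg_of_lt h.δ0))]

lemma BlockLB_m : P.i.m * P.I ≤ 1 / 10 ^ 9 := by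
  have h1 := h.ι_le
  have h2 := h.ok_o.δ1
  have h3 : P.ι ^ 3 ≤ 1 := pow_le_one₀ h.ι0.le (by linarith only [h1])
  rw [h.mi]
  linarith only [h2, h3, h, h.δ0, mul_nonneg_of_nonpos_of_nonpos (Mathlib.Tactic.Linarith.sub_nonpos_of_le h3) (le_of_lt (Mathlib.Tactic.Linarith.sub_neg_of_lt h.δ0))]

lemma BlockLB_S (h1 : P.I ≤ rr x) : P.Sf (rr x) ≤ rr x / 100 := by
  have := mul_le_mul_of_nonneg_right h.BlockLB_ε (h.I_pos.le.trans h1)
  linarith only [this, h, h1, h.Sf_le h1]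

lemma BlockLB_X (hx : 0 ≤ x.2) (h1 : P.I ≤ rr x) :
    10 * Ph2 (P.Sf (rr x)) x.2 ≤ x.1 ^ 2 + x.2 := by
  have hr := h.I_pos.trans_le h1
  have hS := h.Sf_pos hr.le
  have h2 := (Ph2_bounds hS hx).2.2.2
  have h3 : √x.2 ≤ rr x := Real.sqrt_le_sqrt (by linarith only [sq_nonneg x.1])
  have h4 := h.BlockLB_S h1
  have h5 : (√x.2 / 8 + 2 * P.Sf (rr x)) ^ 2 ≤ (rr x / 4) ^ 2 :=
    pow_le_pow_left₀ (by positivity) (by linarith only [hS, h3, h4]) 2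
  rw [← BlockLB_sq hx]
  linarith only [h2, h5, sq_nonneg (rr x)]

lemma BlockLB_arg (hx : 0 ≤ x.2) (h1 : P.I ≤ rr x) :
    1 ≤ (x.1 ^ 2 + x.2) ^ 2 / (100 * Ph2 (P.Sf (rr x)) x.2 ^ 2) ∧
      √((x.1 ^ 2 + x.2) ^ 2 / (100 * Ph2 (P.Sf (rr x)) x.2 ^ 2)) * Ph2 (P.Sf (rr x)) x.2 =
        (x.1 ^ 2 + x.2) / 10 := by
  have h2 := (Ph2_bounds (h.Sf_pos (h.I_pos.le.trans h1)) hx).2.1
  have h3 := h.BlockLB_X hx h1
  refine ⟨(one_le_div (by positivity)).2 (by linarith only [h3, hx, h2, mul_nonneg_of_nonpos_of_nonpos (Mathlib.Tactic.Linarith.sub_nonpos_of_le (sq_nonneg x.1)) (Mathlib.Tactic.Linarith.sub_nonpos_of_le h3), mul_nonneg_of_nonpos_of_nonpos (Mathlib.Tactic.Linarith.sub_nonpos_of_le hx) (Mathlib.Tactic.Linarith.sub_nonpos_of_le h3), mul_nonneg_of_nonpos_of_nonpos (le_of_lt (Mathlib.Tactic.Linarith.sub_neg_of_lt h2)) (Mathlib.Tactic.Linarith.sub_nonpos_of_le h3)]), ?_⟩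
  rw [show (x.1 ^ 2 + x.2) ^ 2 / (100 * Ph2 (P.Sf (rr x)) x.2 ^ 2) =
    ((x.1 ^ 2 + x.2) / (10 * Ph2 (P.Sf (rr x)) x.2)) ^ 2 by ring, Real.sqrt_sq (by positivity)]
  field_simp

lemma BlockLB_arg' (hx : 0 ≤ x.2) (h1 : P.I ≤ rr x) : 1 ≤ 1 - P.tau (rr x) + P.tau (rr x) *
    ((x.1 ^ 2 + x.2) ^ 2 / (100 * Ph2 (P.Sf (rr x)) x.2 ^ 2)) := by
  linarith only [h, hx, h1, mul_le_mul_of_nonneg_left (h.BlockLB_arg hx h1).1 (h.tau_mem (rr x)).1]

lemma BlockLB_y (hx : 0 ≤ x.2) (h1 : P.I ≤ rr x) :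
    1 ≤ P.yB x ∧ P.yB x * Ph2 (P.Sf (rr x)) x.2 ≤ (x.1 ^ 2 + x.2) / 10 := by
  obtain ⟨a1, a2⟩ := h.BlockLB_arg hx h1
  refine ⟨Real.one_le_sqrt.2 (h.BlockLB_arg' hx h1), ?_⟩
  rw [← a2]
  refine mul_le_mul_of_nonneg_right (Real.sqrt_le_sqrt ?_)
    (Ph2_bounds (h.Sf_pos (h.I_pos.le.trans h1)) hx).2.1.le
  linarith only [a1, h, mul_nonneg (sub_nonneg.2 a1) (sub_nonneg.2 (h.tau_mem (rr x)).2)]

lemma BlockLB_g (hx : 0 ≤ x.2) : 0 ≤ P.gB x ∧ x.2 * P.gB x ≤ 1 / 100 := by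
  obtain ⟨a1, a2, -⟩ := h.ok_o.gh_mem hx
  obtain ⟨b1, b2, -⟩ := h.ok_i.gh_mem hx
  obtain ⟨c1, c2⟩ := cut_mem P.R 1 (rr x)
  obtain ⟨d1, d2⟩ := cut_mem P.I 1 (rr x)
  have e1 := mul_le_of_le_one_left (mul_nonneg hx a1) c2
  have e2 := mul_nonneg d1 (mul_nonneg hx b1)
  simp only [Par.gB, Par.c2, Par.ci]
  exact ⟨add_nonneg (mul_nonneg c1 a1) (mul_nonneg (sub_nonneg.2 d2) b1),
    by linarith only [a2, b2, e1, e2, h, h.ok_o.δ1, h.ok_i.δ1]⟩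

lemma BlockLB_w (hx : 0 ≤ x.2) (h1 : P.I ≤ rr x) (h2 : rr x ≤ 3 * P.R) : |P.wB x| ≤ 1 / 4 := by
  have hr := h.I_pos.trans_le h1
  have hv0 : 0 ≤ P.vv x := Real.sqrt_nonneg _
  have hv : P.vv x ≤ 2 * rr x := BlockLB_sqrt hr.le (by linarith only [hx, BlockLB_sq hx, sq_nonneg x.1])
    (h.Sf_pos hr.le).le (by linarith only [hr, h, h1, h.BlockLB_S h1])
  obtain ⟨a1, a2, -⟩ := h.ok_o.w0_mem hv0
  obtain ⟨b1, b2, -⟩ := h.ok_i.w0_mem hv0
  obtain ⟨c1, c2⟩ := cut_mem P.R2 1 (rr x)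
  obtain ⟨d1, d2⟩ := cut_mem P.I 1 (rr x)
  obtain ⟨e1, e2⟩ := cut_mem P.I 3 (rr x)
  have f0 := mul_nonneg h.m0 hv0
  have f1 : P.o.m * P.vv x ≤ 1 / 100 := by
    have g1 := mul_le_mul_of_nonneg_left (show P.vv x ≤ 6 * (P.ι * P.o.d) by
      rw [Par.R] at h2; linarith only [h2, hv]) h.m0
    have g2 := mul_le_mul_of_nonneg_left h.md h.ι0.le
    have g3 := mul_le_mul h.ι_le h.ok_o.δ1 h.δ0.le (by norm_num)
    linarith only [g1, g2, g3]
  have f2 := mul_nonneg h.ok_i.m0 hv0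
  have f3 : (1 - cut P.I 3 (rr x)) * (P.i.m * P.vv x) ≤ 1 / 100 := by
    rcases le_total (rr x) ((3 + 1) * P.I) with g | g
    · have g1 := mul_le_mul_of_nonneg_left (show P.vv x ≤ 8 * P.I by linarith only [hv, g]) h.ok_i.m0
      linarith only [g1, h, e1, f2, h.BlockLB_m, mul_nonneg e1 f2]
    · rw [(has2_cut_high h.I_pos g).v, sub_self, zero_mul]
      norm_num
  have f4 := mul_nonneg (sub_nonneg.2 e2) f2
  have f5 := mul_nonneg c1 (add_nonneg a1 f0)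
  have f6 := mul_le_of_le_one_left (add_nonneg a1 f0) c2
  have f7 := mul_nonneg (sub_nonneg.2 d2) b1
  have f8 := mul_le_of_le_one_left b1 (sub_le_self 1 d1)
  have f9 := abs_le.1 (h.om0_abs hr).1
  simp only [Par.wB, Par.co, Par.ci, Par.cm]
  rw [abs_le]
  constructor <;> linarith only [a2, b2, f1, f3, f6, f8, f9, h, f4, f5, f7, h.ok_o.δ1, h.ok_i.δ1]

theorem smooth (hx : 0 ≤ x.2) : ContDiffAt ℝ ∞ P.E x := by
  rcases lt_or_ge (rr x) P.I with h1 | h1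
  · have hc : Continuous rr := by unfold rr; fun_prop
    exact (h.ok_i.smooth hx).congr_of_eventuallyEq
      ((hc.continuousAt.eventually_lt continuousAt_const h1).mono fun y hy => h.E_in hy.le)
  have hr := h.I_pos.trans_le h1
  have hS0 := h.Sf_pos hr.le
  have hq : x.1 ^ 2 + x.2 ≠ 0 := by rw [← BlockLB_sq hx]; positivity
  have c0 : ContDiffAt ℝ ∞ (fun y : ℝ × ℝ => y.1 ^ 2 + y.2) x := by fun_prop
  have cr : ContDiffAt ℝ ∞ rr x := c0.sqrt hq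
  have cc : ∀ a b, ContDiffAt ℝ ∞ (fun y => cut a b (rr y)) x := fun a b =>
    (contDiff_cut a b).contDiffAt.comp x cr
  have cS : ContDiffAt ℝ ∞ (fun y => P.Sf (rr y)) x := h.contDiff_Sf.contDiffAt.comp x cr
  have cv : ContDiffAt ℝ ∞ P.vv x := (contDiffAt_snd.add (cS.pow 2)).sqrt (by positivity)
  have hv0 : 0 ≤ P.vv x := Real.sqrt_nonneg _
  have ct : ContDiffAt ℝ ∞ (fun y => P.tau (rr y)) x := (h.contDiffAt_tau hr).comp x cr
  have cP : ContDiffAt ℝ ∞ (fun y => Ph2 (P.Sf (rr y)) y.2) x :=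
    (((cv.div_const 8).add (contDiffAt_const.mul cS)).pow 2).sub (cS.pow 2)
  have hP := (Ph2_bounds hS0 hx).2.1
  have cy : ContDiffAt ℝ ∞ P.yB x :=
    ((contDiffAt_const.sub ct).add (ct.mul ((c0.pow 2).div (contDiffAt_const.mul (cP.pow 2))
      (by positivity)))).sqrt (one_pos.trans_le (h.BlockLB_arg' hx h1)).ne'
  have hy : 0 < P.yB x := one_pos.trans_le (h.BlockLB_y hx h1).1
  refine contDiffAt_mkE hx ?_ ?_ cS cy ?_ hS0 hy
  · exact ((h.contDiffAt_om0 hr).comp x cr).sub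
      ((((cc _ _).mul (((h.ok_o.contDiffAt_w0 hv0).comp x cv).add (contDiffAt_const.mul cv))).add
        ((contDiffAt_const.sub (cc _ _)).mul ((h.ok_i.contDiffAt_w0 hv0).comp x cv))).add
        ((contDiffAt_const.sub (cc _ _)).mul (contDiffAt_const.mul cv)))
  · exact ((cc _ _).mul ((h.ok_o.contDiffAt_gh hx).comp x contDiffAt_snd)).add
      ((contDiffAt_const.sub (cc _ _)).mul ((h.ok_i.contDiffAt_gh hx).comp x contDiffAt_snd))
  · exact ((((h.contDiffAt_kf hr).comp x cr).pow 2).sub (contDiffAt_const.div cy hy.ne')).div c0 hq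

theorem lbat_ann (hx : 0 ≤ x.2) (h1 : P.I ≤ rr x) (h2 : rr x ≤ 3 * P.R) :
    LBat (P.E x) x.2 (rr x) := by
  have hr := h.I_pos.trans_le h1
  have hq : x.1 ^ 2 + x.2 ≠ 0 := by rw [← BlockLB_sq hx]; positivity
  obtain ⟨g1, g2⟩ := h.BlockLB_g hx
  obtain ⟨y1, y2⟩ := h.BlockLB_y hx h1
  obtain ⟨k1, k2⟩ := h.kf_mem hr
  have e : P.kB x * (x.1 ^ 2 + x.2) + 1 / P.yB x = P.kf (rr x) ^ 2 := by
    rw [Par.kB, div_mul_cancel₀ _ hq, sub_add_cancel]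
  refine lbat_mkV hx (h.BlockLB_w hx h1 h2) g1 (by linarith only [g2]) (h.Sf_pos hr.le)
    (by linarith only [hr, h, h1, h.BlockLB_S h1]) y1 ?_ (Or.inr ⟨BlockLB_sq hx, ?_, ?_⟩)
  · rw [← BlockLB_sq hx] at y2
    linarith only [hx, y2, sq_nonneg (rr x)]
  · rw [e]
    linarith only [k1, mul_nonneg_of_nonpos_of_nonpos (Mathlib.Tactic.Linarith.sub_nonpos_of_le k1) (Mathlib.Tactic.Linarith.sub_nonpos_of_le k1)]
  · rw [e]
    linarith only [k2, k1, mul_nonneg_of_nonpos_of_nonpos (Mathlib.Tactic.Linarith.sub_nonpos_of_le k1) (Mathlib.Tactic.Linarith.sub_nonpos_of_le k2)]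

theorem lbat_in (hx : 0 ≤ x.2) (h1 : rr x ≤ P.I) : LBat (P.E x) x.2 P.i.s := by
  rw [h.E_in h1]
  refine h.ok_i.lbat hx ?_
  have h2 := pow_le_pow_left₀ (Real.sqrt_nonneg _) h1 2
  have h3 := BlockLB_sq hx
  have h4 := mul_le_mul_of_nonneg_right h.BlockLB_ε h.I_pos.le
  have h5 := BlockLB_sqrt (z := x.2) h.I_pos.le (by rw [rr] at h3; linarith only [h2, h3, sq_nonneg x.1]) h.si0.le
    (by linarith only [h4, h, h.si, h.I_pos])
  linarith only [h5, h, mul_le_mul_of_nonneg_left h5 h.ok_i.m0, h.BlockLB_m]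

theorem e5_cone (hx : 0 ≤ x.2) (h1 : 10 * P.I * Real.exp P.L ≤ rr x)
    (h2 : rr x ≤ P.R2 / 4 * Real.exp (-P.L)) : rr x ^ 2 ≤ 100 * P.E x 4 := by
  have hL : 0 ≤ P.L := le_trans (by norm_num) h.L_ge.1
  have a1 : P.I ≤ rr x := by linarith only [h1, h, hL, Real.one_le_exp hL, h.I_pos, mul_nonneg_of_nonpos_of_nonpos (Mathlib.Tactic.Linarith.sub_nonpos_of_le (Real.one_le_exp hL)) (le_of_lt (Mathlib.Tactic.Linarith.sub_neg_of_lt (I_pos h)))]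
  have a2 : rr x ≤ 3 * P.R := by
    linarith only [h2, h, hL, Real.exp_le_one_iff.2 (neg_nonpos.2 hL), h.R2_pos, h.R2_le, mul_nonneg_of_nonpos_of_nonpos (Mathlib.Tactic.Linarith.sub_nonpos_of_le (Real.exp_le_one_iff.mpr (neg_nonpos.mpr hL))) (le_of_lt (Mathlib.Tactic.Linarith.sub_neg_of_lt (R2_pos h)))]
  have a3 : P.yB x * Ph2 (P.Sf (rr x)) x.2 = rr x ^ 2 / 10 := by
    rw [Par.yB, h.tau_one h1 h2, sub_self, zero_add, one_mul, BlockLB_sq hx]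
    exact (h.BlockLB_arg hx a1).2
  have a4 : 1 / 2 ≤ Real.exp (2 * P.wB x) := by
    linarith only [h, hx, a1, a2, Real.add_one_le_exp (2 * P.wB x), (abs_le.1 (h.BlockLB_w hx a1 a2)).1]
  have a5 : (99 / 100 : ℝ) ^ 2 ≤ (1 - x.2 * P.gB x) ^ 2 :=
    pow_le_pow_left₀ (by norm_num) (by linarith only [h, hx, (h.BlockLB_g hx).2]) 2
  have a6 := mul_le_mul a4 a5 (by positivity) (Real.exp_pos _).le
  have e : P.E x 4 = Real.exp (2 * P.wB x) *
      ((1 - x.2 * P.gB x) ^ 2 * P.yB x * Ph2 (P.Sf (rr x)) x.2 / 4) := rfl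
  rw [e, mul_assoc, a3]
  linarith only [a6, mul_le_mul_of_nonneg_right a6 (sq_nonneg (rr x)), sq_nonneg ((1 : ℝ) * rr x), sq_nonneg (rr x)]

end Par.OK

end

end Pool.Agent.Work.MP_a9fb1f_gt
end
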