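import Mathlib

/-! Ricci curvature, pointed Gromov-Hausdorff limits and tangent cones. -/

set_option autoImplicit false

open scoped Manifold ContDiff Topology ENNReal Bundle
open Filter

namespace Pool.Agent.Work.MP_a9fb1f_gt

noncomputable section

/-- Euclidean space of dimension `n`. -/
abbrev Eu (n : ℕ) : Type := EuclideanSpace ℝ (Fin n)

/-- The derivative in the `i`-th coordinate direction. -/
def pd {n : ℕ} (i : Fin n) (f : Eu n → ℝ) (y : Eu n) : ℝ :=
  fderiv ℝ f y (EuclideanSpace.single i 1)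

/-- The Christoffel symbols of a metric `g` given by its coefficients in coordinates. -/
def christoffel {n : ℕ} (g : Eu n → Matrix (Fin n) (Fin n) ℝ) (k i j : Fin n) (y : Eu n) : ℝ :=
  (1 / 2) * ∑ l, (g y)⁻¹ k l *
    (pd i (fun x => g x j l) y + pd j (fun x => g x i l) y - pd l (fun x => g x i j) y)

/-- The coefficients of the Ricci tensor of `g`. -/
def ricci {n : ℕ} (g : Eu n → Matrix (Fin n) (Fin n) ℝ) (i j : Fin n) (y : Eu n) : ℝ :=
  ∑ k, (pd k (christoffel g k i j) y - pd j (christoffel g k i k) y +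
    ∑ l, (christoffel g k k l y * christoffel g l i j y -
      christoffel g k j l y * christoffel g l i k y))

section

variable (E : Type) [NormedAddCommGroup E] [NormedSpace ℝ E] (M : Type) [TopologicalSpace M]
  [ChartedSpace E M]

/-- The tangent spaces of `M`. -/
abbrev TSp (x : M) : Type := TangentSpace 𝓘(ℝ, E) x

/-- The inner products on the tangent spaces depend smoothly on the point. -/
def SmoothMetric [IsManifold 𝓘(ℝ, E) ∞ M] [Bundle.RiemannianBundle (TSp E M)] : Prop :=
  IsContMDiffRiemannianBundle 𝓘(ℝ, E) ∞ E (TSp E M)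

/-- The inner product of two tangent vectors. -/
def tinner [Bundle.RiemannianBundle (TSp E M)] (x : M) (v w : TSp E M x) : ℝ := inner ℝ v w

/-- The tangent vector with coordinates `v` at the point with coordinates `y` in the chart
at `x`. -/
def dchart (x : M) (y v : E) : TSp E M ((chartAt E x).symm y) :=
  mfderiv 𝓘(ℝ, E) 𝓘(ℝ, E) (chartAt E x).symm y v

end

/-- A complete connected smooth Riemannian manifold of dimension `n`, with its Riemannian
distance. -/
structure RiemMfd (n : ℕ) where
  M : Type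
  [metric : MetricSpace M]
  [charted : ChartedSpace (Eu n) M]
  [manifold : IsManifold 𝓘(ℝ, Eu n) ∞ M]
  [bundle : Bundle.RiemannianBundle (TSp (Eu n) M)]
  smooth : SmoothMetric (Eu n) M
  [riemannian : IsRiemannianManifold 𝓘(ℝ, Eu n) M]
  [complete : CompleteSpace M]

attribute [instance] RiemMfd.metric RiemMfd.charted RiemMfd.manifold RiemMfd.bundle
  RiemMfd.riemannian RiemMfd.complete

/-- The coefficients of the Riemannian metric in the chart at `x`. -/
def RiemMfd.coef {n : ℕ} (N : RiemMfd n) (x : N.M) (y : Eu n) : Matrix (Fin n) (Fin n) ℝ :=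
  fun i j => tinner (Eu n) N.M _ (dchart (Eu n) N.M x y (EuclideanSpace.single i 1))
    (dchart (Eu n) N.M x y (EuclideanSpace.single j 1))

/-- The Ricci curvature is at least `κ`. -/
def RiemMfd.RicciGE {n : ℕ} (N : RiemMfd n) (κ : ℝ) : Prop :=
  ∀ (x : N.M) (v : Fin n → ℝ),
    κ * ∑ i, ∑ j, N.coef x (chartAt (Eu n) x x) i j * v i * v j ≤
      ∑ i, ∑ j, ricci (N.coef x) i j (chartAt (Eu n) x x) * v i * v j

/-- The volume: the `n`-dimensional Hausdorff measure, normalised to be Lebesgue measure on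
Euclidean space. -/
def RiemMfd.vol {n : ℕ} (N : RiemMfd n) (s : Set N.M) : ℝ≥0∞ :=
  letI : MeasurableSpace N.M := borel N.M
  haveI : BorelSpace N.M := ⟨rfl⟩
  MeasureTheory.Measure.euclideanHausdorffMeasure n s

/-- A pointed complete metric space. -/
structure PtSpace where
  X : Type
  [metric : MetricSpace X]
  [complete : CompleteSpace X]
  pt : X

attribute [instance] PtSpace.metric PtSpace.complete

/-- Pointed Gromov-Hausdorff convergence of the spaces `Z i` with distances `d i` and base points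
`p i` to `Y`. -/
def PGH (Z : ℕ → Type) (d : ∀ i, Z i → Z i → ℝ) (p : ∀ i, Z i) (Y : PtSpace) : Prop :=
  ∀ r ε : ℝ, 0 < r → 0 < ε → ∀ᶠ i in atTop, ∃ f : Z i → Y.X, f (p i) = Y.pt ∧
    (∀ a b, d i (p i) a < r → d i (p i) b < r → |dist (f a) (f b) - d i a b| < ε) ∧
    ∀ y, dist Y.pt y < r - ε → ∃ a, d i (p i) a < r ∧ dist (f a) y < ε

/-- `Y` is a tangent cone of `X` at `x`. -/
def IsTangentCone {X : Type} [MetricSpace X] (x : X) (Y : PtSpace) : Prop :=
  ∃ r : ℕ → ℝ, (∀ j, 0 < r j) ∧ Tendsto r atTop (𝓝 0) ∧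
    PGH (fun _ => X) (fun j a b => dist a b / r j) (fun _ => x) Y

/-- `X` is a noncollapsed Ricci limit space of dimension `n`. -/
def IsRicciLimit (n : ℕ) (X : PtSpace) : Prop :=
  ∃ (v : ℝ) (N : ℕ → RiemMfd n) (p : ∀ i, (N i).M), 0 < v ∧
    (∀ i, (N i).RicciGE (-((n : ℝ) - 1)) ∧ ENNReal.ofReal v < (N i).vol (Metric.ball (p i) 1)) ∧
    PGH (fun i => (N i).M) (fun _ a b => dist a b) p X

end

end Pool.Agent.Work.MP_a9fb1f_gt
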