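import Pool.Agent.Work.MP_a9fb1f_gt.PertB

/-! Lower bounds for the terms of the perturbative Ricci form. -/

set_option autoImplicit false

open scoped Manifold ContDiff Topology ENNReal Bundle RealInnerProductSpace
open Filter Set

namespace Pool.Agent.Work.MP_a9fb1f_gt

noncomputable section

variable {J K S Y W : Jet} {k ρ t r : ℝ}

lemma Lop_add (S : Jet) (ρ : ℝ) (J K : Jet) (v1 v2 : ℝ) :
    Lop S ρ (J + K) v1 v2 = Lop S ρ J v1 v2 + Lop S ρ K v1 v2 := by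
  simp only [Lop, Jet.hess, Jet.add_a, Jet.add_b, Jet.add_aa, Jet.add_ab, Jet.add_bb]
  ring

lemma Lop_sub (S : Jet) (ρ : ℝ) (J K : Jet) (v1 v2 : ℝ) :
    Lop S ρ (J - K) v1 v2 = Lop S ρ J v1 v2 - Lop S ρ K v1 v2 := by
  simp only [Lop, Jet.hess, Jet.sub_a, Jet.sub_b, Jet.sub_aa, Jet.sub_ab, Jet.sub_bb]
  ring

lemma RG_add (S : Jet) (ρ : ℝ) (J K : Jet) (v1 v2 : ℝ) :
    RG S ρ (J + K) v1 v2 = RG S ρ J v1 v2 + RG S ρ K v1 v2 := by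
  simp only [RG, Jet.hess, Jet.dd, Jet.add_a, Jet.add_b, Jet.add_aa, Jet.add_ab, Jet.add_bb]
  ring

lemma RG_one_sub (S : Jet) (ρ : ℝ) (J : Jet) (v1 v2 : ℝ) :
    RG S ρ (Jet.cst 1 - J) v1 v2 = -RG S ρ J v1 v2 := by
  simp only [RG, Jet.hess, Jet.dd, Jet.sub_a, Jet.sub_b, Jet.sub_aa, Jet.sub_ab, Jet.sub_bb,
    Jet.cst_a, Jet.cst_b, Jet.cst_aa, Jet.cst_ab, Jet.cst_bb]
  ring

lemma Lop_polar (hp : Pt t ρ r) (v1 v2 : ℝ) :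
    ((t * v1 + ρ * v2) / r) ^ 2 + ((t * v2 - ρ * v1) / r) ^ 2 = v1 ^ 2 + v2 ^ 2 := by
  have hr := hp.rpos.ne'
  have h := hp.sq
  rw [div_pow, div_pow, ← add_div, div_eq_iff (pow_ne_zero 2 hr), h]
  ring

lemma Lop_comp (S : Jet) (ρ : ℝ) (J : Jet) (w c1 c2 v1 v2 : ℝ) :
    Lop S ρ (J.comp w c1 c2) v1 v2 = c1 * Lop S ρ J v1 v2 +
      c2 * (3 * (J.a * v1 + J.b * v2) ^ 2 + (J.a ^ 2 + J.b ^ 2) * (v1 ^ 2 + v2 ^ 2)) := by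
  simp only [Lop, Jet.hess, Jet.comp_a, Jet.comp_b, Jet.comp_aa, Jet.comp_ab, Jet.comp_bb]
  ring

lemma Lop_rJ (hp : Pt t ρ r) {S0 S1 S2 : ℝ} (hS : 0 < S0) (v1 v2 : ℝ) :
    Lop ((rJ t ρ r).comp S0 S1 S2) ρ (rJ t ρ r) v1 v2 =
      3 * ((t * v2 - ρ * v1) / r) ^ 2 / r +
        (4 / r - sg (ρ / S0) / S0 * (S0 - r * S1) / r) * (v1 ^ 2 + v2 ^ 2) := by
  have hr := hp.rpos.ne'
  have hρ := hp.pos.ne'
  have hS' := hS.ne'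
  have h := hp.sq
  have e1 : (rJ t ρ r).hess v1 v2 = ((t * v2 - ρ * v1) / r) ^ 2 / r := by
    simp only [Jet.hess, rJ]
    field_simp
    ring
  have e2 : (rJ t ρ r).aa + (rJ t ρ r).bb = 1 / r := by
    simp only [rJ]
    field_simp
    linarith only [h]
  have e3 : La ((rJ t ρ r).comp S0 S1 S2) ρ * (rJ t ρ r).a +
      Lb ((rJ t ρ r).comp S0 S1 S2) ρ * (rJ t ρ r).b =
      3 / r - sg (ρ / S0) / S0 * (S0 - r * S1) / r := by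
    simp only [La, Lb, Jet.comp_v, Jet.comp_a, Jet.comp_b, rJ]
    generalize sg (ρ / S0) = σ
    field_simp
    linear_combination (-(σ * S1)) * h
  unfold Lop
  rw [e1, add_assoc ((rJ t ρ r).aa + (rJ t ρ r).bb), e2, e3]
  ring

lemma Lop_radial (hp : Pt t ρ r) {S0 S1 S2 w ν ν1 : ℝ} (hS : 0 < S0) (hν : 0 ≤ ν)
    (hν1 : ν ≤ 1 / 6) (v1 v2 : ℝ) :
    (4 * r * ν1 * ((t * v1 + ρ * v2) / r) ^ 2 +
        (r * ν1 + 5 * ν) * ((t * v2 - ρ * v1) / r) ^ 2) / r ^ 2 -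
      48 * ν * |S0 - r * S1| / (vr S0 ρ * r ^ 2) * (v1 ^ 2 + v2 ^ 2) ≤
    -Lop ((rJ t ρ r).comp S0 S1 S2) ρ (oJ t ρ r w ν ν1) v1 v2 -
      6 * ((oJ t ρ r w ν ν1).a * v2 - (oJ t ρ r w ν ν1).b * v1) ^ 2 := by
  have hr := hp.rpos
  have hρ := hp.pos
  have hx : 0 < vr S0 ρ := vr_pos hρ
  have hσ0 : 0 ≤ sg (ρ / S0) / S0 := div_nonneg (sg_mem (div_pos hρ hS)).1 hS.le
  have hσ1 : sg (ρ / S0) / S0 ≤ 48 / vr S0 ρ := sg_div_le hS hρ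
  have hpol := Lop_polar hp v1 v2
  have e1 : (rJ t ρ r).a * v1 + (rJ t ρ r).b * v2 = (t * v1 + ρ * v2) / r := by
    simp only [rJ]
    ring
  have e2 : (rJ t ρ r).a ^ 2 + (rJ t ρ r).b ^ 2 = 1 := by
    simp only [rJ]
    have := hp.sq
    field_simp
    linarith only [this]
  have e3 : (oJ t ρ r w ν ν1).a * v2 - (oJ t ρ r w ν ν1).b * v1 =
      -ν / r * ((t * v2 - ρ * v1) / r) := by
    simp only [oJ, Jet.comp_a, Jet.comp_b, rJ]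
    ring
  rw [e3]
  unfold oJ
  rw [Lop_comp, Lop_rJ hp hS, e1, e2, ← hpol]
  generalize (t * v1 + ρ * v2) / r = dr
  generalize (t * v2 - ρ * v1) / r = an
  generalize sg (ρ / S0) / S0 = q at hσ0 hσ1
  generalize vr S0 ρ = x at hx hσ1
  have hD : q * (S0 - r * S1) ≤ 48 / x * |S0 - r * S1| :=
    (mul_le_mul_of_nonneg_left (le_abs_self _) hσ0).trans
      (mul_le_mul_of_nonneg_right hσ1 (abs_nonneg _))
  generalize S0 - r * S1 = D at hD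
  have key : -(-ν / r * (3 * an ^ 2 / r + (4 / r - q * D / r) * (dr ^ 2 + an ^ 2)) +
        (-ν1 / r + ν / r ^ 2) * (3 * dr ^ 2 + 1 * (dr ^ 2 + an ^ 2))) - 6 * (-ν / r * an) ^ 2 -
      ((4 * r * ν1 * dr ^ 2 + (r * ν1 + 5 * ν) * an ^ 2) / r ^ 2 -
        48 * ν * |D| / (x * r ^ 2) * (dr ^ 2 + an ^ 2)) =
      (ν * (1 - 6 * ν) * an ^ 2 + ν * (48 / x * |D| - q * D) * (dr ^ 2 + an ^ 2)) / r ^ 2 := by
    field_simp
    ring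
  have h1 : 0 ≤ 1 - 6 * ν := by linarith only [hν1]
  have h2 : 0 ≤ 48 / x * |D| - q * D := by linarith only [hD]
  have : 0 ≤ (ν * (1 - 6 * ν) * an ^ 2 + ν * (48 / x * |D| - q * D) * (dr ^ 2 + an ^ 2)) /
      r ^ 2 := by positivity
  linarith only [key, this]

lemma polar_sq (hp : Pt t ρ r) (v1 v2 : ℝ) :
    ((t * v1 + ρ * v2) / r) ^ 2 + ((t * v2 - ρ * v1) / r) ^ 2 = v1 ^ 2 + v2 ^ 2 := by
  exact Lop_polar hp v1 v2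

lemma Lop_Sa (hρ : 0 < ρ) (sS : Sm S (vr S.v ρ / 10 ^ 4) ρ (vr S.v ρ)) :
    |S.a| ≤ 1 / 10 ^ 4 := by
  have hx : 0 < vr S.v ρ := vr_pos hρ
  have h := sS.a
  have e : vr S.v ρ / 10 ^ 4 / vr S.v ρ = 1 / 10 ^ 4 := by field_simp
  rwa [e] at h

lemma Lop_Sb (hρ : 0 < ρ) (sS : Sm S (vr S.v ρ / 10 ^ 4) ρ (vr S.v ρ)) :
    |S.b| ≤ ρ / vr S.v ρ / 10 ^ 4 := by
  have hx : 0 < vr S.v ρ := vr_pos hρ
  have h := sS.b
  have e : vr S.v ρ / 10 ^ 4 * ρ / vr S.v ρ ^ 2 = ρ / vr S.v ρ / 10 ^ 4 := by field_simp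
  rwa [e] at h

lemma Lop_La (hρ : 0 < ρ) (hS : 0 < S.v) (sS : Sm S (vr S.v ρ / 10 ^ 4) ρ (vr S.v ρ)) :
    |La S ρ| ≤ 48 / 10 ^ 4 / vr S.v ρ := by
  have hx : 0 < vr S.v ρ := vr_pos hρ
  have hσ0 : 0 ≤ sg (ρ / S.v) / S.v := div_nonneg (sg_mem (div_pos hρ hS)).1 hS.le
  have hσ1 : sg (ρ / S.v) / S.v ≤ 48 / vr S.v ρ := sg_div_le hS hρ
  have e : La S ρ = sg (ρ / S.v) / S.v * S.a := by
    unfold La
    ring
  rw [e, abs_mul, abs_of_nonneg hσ0]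
  calc sg (ρ / S.v) / S.v * |S.a| ≤ 48 / vr S.v ρ * (1 / 10 ^ 4) :=
        mul_le_mul hσ1 (Lop_Sa hρ sS) (abs_nonneg _) (by positivity)
    _ = 48 / 10 ^ 4 / vr S.v ρ := by ring

lemma Lop_Lb (hρ : 0 < ρ) (hS : 0 < S.v) (sS : Sm S (vr S.v ρ / 10 ^ 4) ρ (vr S.v ρ)) :
    |Lb S ρ| ≤ (3 + 48 / 10 ^ 4) / ρ := by
  have hx : 0 < vr S.v ρ := vr_pos hρ
  have hm := sg_mem (div_pos hρ hS)
  have hσ0 : 0 ≤ sg (ρ / S.v) / S.v := div_nonneg hm.1 hS.le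
  have hσ1 : sg (ρ / S.v) / S.v ≤ 48 / vr S.v ρ := sg_div_le hS hρ
  have hle := (le_vr hS hρ).1
  have e : Lb S ρ = (3 - sg (ρ / S.v)) / ρ + sg (ρ / S.v) / S.v * S.b := by
    unfold Lb
    ring
  have h1 : |(3 - sg (ρ / S.v)) / ρ| ≤ 3 / ρ := by
    rw [abs_of_nonneg (div_nonneg (by linarith only [hm, hm.2.1]) hρ.le)]
    exact div_le_div_of_nonneg_right (by linarith only [hm, hm.1]) hρ.le
  have hq : ρ / vr S.v ρ ≤ 1 := (div_le_one hx).2 hle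
  have h2 : |sg (ρ / S.v) / S.v * S.b| ≤ 48 / 10 ^ 4 / ρ := by
    rw [abs_mul, abs_of_nonneg hσ0]
    calc sg (ρ / S.v) / S.v * |S.b| ≤ 48 / ρ * (1 / 10 ^ 4) := by
          refine mul_le_mul (hσ1.trans ?_) ((Lop_Sb hρ sS).trans ?_) (abs_nonneg _)
            (by positivity)
          · exact div_le_div_of_nonneg_left (by norm_num) hρ hle
          · exact div_le_div_of_nonneg_right hq (by norm_num)
      _ = 48 / 10 ^ 4 / ρ := by ring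
  rw [e]
  calc _ ≤ _ := abs_add_le _ _
    _ ≤ 3 / ρ + 48 / 10 ^ 4 / ρ := add_le_add h1 h2
    _ = _ := by ring

lemma Lop_vJ_a (hρ : 0 < ρ) (S : Jet) : (vJ S ρ).a = S.v * S.a / vr S.v ρ := by
  have hx : 0 < vr S.v ρ := vr_pos hρ
  have e : √(ρ * ρ + S.v * S.v) = vr S.v ρ := by
    unfold vr
    congr 1
    ring
  simp only [vJ, Jet.sqrt, Jet.comp_a, Jet.add_a, Jet.add_v, Jet.mul_a, Jet.mul_v, Jet.x2_v,
    Jet.x2_a, e]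
  field_simp
  ring

lemma Lop_vJ_b (hρ : 0 < ρ) (S : Jet) : (vJ S ρ).b = (ρ + S.v * S.b) / vr S.v ρ := by
  have hx : 0 < vr S.v ρ := vr_pos hρ
  have e : √(ρ * ρ + S.v * S.v) = vr S.v ρ := by
    unfold vr
    congr 1
    ring
  simp only [vJ, Jet.sqrt, Jet.comp_b, Jet.add_b, Jet.add_v, Jet.mul_b, Jet.mul_v, Jet.x2_v,
    Jet.x2_b, e]
  field_simp
  ring

lemma Lop_vJ_hess (hρ : 0 < ρ) (S : Jet) (v1 v2 : ℝ) :
    (vJ S ρ).hess v1 v2 = (S.v * v2 - ρ * S.dd v1 v2) ^ 2 / vr S.v ρ ^ 3 +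
      S.v / vr S.v ρ * S.hess v1 v2 := by
  have hx : 0 < vr S.v ρ := vr_pos hρ
  have hq := vr_sq S.v ρ
  have e : √(ρ * ρ + S.v * S.v) = vr S.v ρ := by
    unfold vr
    congr 1
    ring
  simp only [vJ, Jet.hess, Jet.dd, Jet.sqrt, Jet.comp_aa, Jet.comp_ab, Jet.comp_bb, Jet.add_a,
    Jet.add_b, Jet.add_aa, Jet.add_ab, Jet.add_bb, Jet.add_v, Jet.mul_a, Jet.mul_b, Jet.mul_aa,
    Jet.mul_ab, Jet.mul_bb, Jet.mul_v, Jet.x2_v, Jet.x2_a, Jet.x2_b, Jet.x2_aa, Jet.x2_ab,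
    Jet.x2_bb, e]
  generalize vr S.v ρ = x at hx hq
  field_simp
  linear_combination (8 * (v2 ^ 2 + (S.a * v1 + S.b * v2) ^ 2)) * hq

lemma Lop_vJ_hess_ge (hρ : 0 < ρ) (hS : 0 < S.v)
    (sS : Sm S (vr S.v ρ / 10 ^ 4) ρ (vr S.v ρ)) (v1 v2 : ℝ) :
    -(2 / 10 ^ 4 / vr S.v ρ * (v1 ^ 2 + v2 ^ 2)) ≤ (vJ S ρ).hess v1 v2 := by
  have hx : 0 < vr S.v ρ := vr_pos hρ
  have hle := (le_vr hS hρ).2.1
  have h := sS.hess_le v1 v2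
  have e : 2 * (vr S.v ρ / 10 ^ 4) / vr S.v ρ ^ 2 = 2 / 10 ^ 4 / vr S.v ρ := by field_simp
  rw [e] at h
  rw [Lop_vJ_hess hρ]
  have h0 : 0 ≤ (S.v * v2 - ρ * S.dd v1 v2) ^ 2 / vr S.v ρ ^ 3 := by positivity
  have hq0 : 0 ≤ S.v / vr S.v ρ := by positivity
  have hq1 : S.v / vr S.v ρ ≤ 1 := (div_le_one hx).2 hle
  have h1 : |S.v / vr S.v ρ * S.hess v1 v2| ≤ 2 / 10 ^ 4 / vr S.v ρ * (v1 ^ 2 + v2 ^ 2) := by
    rw [abs_mul, abs_of_nonneg hq0]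
    exact (mul_le_of_le_one_left (abs_nonneg _) hq1).trans h
  linarith only [h0, h1, neg_abs_le (S.v / vr S.v ρ * S.hess v1 v2)]

lemma Lop_vJ_first (hρ : 0 < ρ) (hS : 0 < S.v)
    (sS : Sm S (vr S.v ρ / 10 ^ 4) ρ (vr S.v ρ)) :
    39 / 100 / vr S.v ρ ≤ La S ρ * (vJ S ρ).a + Lb S ρ * (vJ S ρ).b := by
  have hx : 0 < vr S.v ρ := vr_pos hρ
  have hm := sg_mem (div_pos hρ hS)
  have hσ0 : 0 ≤ sg (ρ / S.v) / S.v := div_nonneg hm.1 hS.le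
  have hσ1 : sg (ρ / S.v) / S.v ≤ 48 / vr S.v ρ := sg_div_le hS hρ
  have hle := le_vr hS hρ
  have hb := Lop_Sb hρ sS
  have e : La S ρ * (vJ S ρ).a + Lb S ρ * (vJ S ρ).b =
      (sg (ρ / S.v) * (S.a ^ 2 + S.b ^ 2) + (3 - sg (ρ / S.v)) * (1 + S.v / ρ * S.b) +
        sg (ρ / S.v) / S.v * ρ * S.b) / vr S.v ρ := by
    rw [Lop_vJ_a hρ, Lop_vJ_b hρ]
    unfold La Lb
    have := hS.ne'
    have := hρ.ne'
    field_simp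
    ring
  rw [e]
  refine div_le_div_of_nonneg_right ?_ hx.le
  have h1 : |S.v / ρ * S.b| ≤ 1 / 10 ^ 4 := by
    rw [abs_mul, abs_of_nonneg (by positivity : 0 ≤ S.v / ρ)]
    calc S.v / ρ * |S.b| ≤ S.v / ρ * (ρ / vr S.v ρ / 10 ^ 4) :=
          mul_le_mul_of_nonneg_left hb (by positivity)
      _ = S.v / vr S.v ρ / 10 ^ 4 := by field_simp
      _ ≤ 1 / 10 ^ 4 := div_le_div_of_nonneg_right ((div_le_one hx).2 hle.2.1) (by norm_num)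
  have hq0 : 0 ≤ ρ / vr S.v ρ := by positivity
  have hq1 : ρ / vr S.v ρ ≤ 1 := (div_le_one hx).2 hle.1
  have h2 : |sg (ρ / S.v) / S.v * ρ * S.b| ≤ 48 / 10 ^ 4 := by
    rw [abs_mul, abs_of_nonneg (mul_nonneg hσ0 hρ.le)]
    calc sg (ρ / S.v) / S.v * ρ * |S.b| ≤ 48 / vr S.v ρ * ρ * (ρ / vr S.v ρ / 10 ^ 4) :=
          mul_le_mul (mul_le_mul_of_nonneg_right hσ1 hρ.le) hb (abs_nonneg _) (by positivity)
      _ = 48 / 10 ^ 4 * (ρ / vr S.v ρ * (ρ / vr S.v ρ)) := by field_simp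
      _ ≤ 48 / 10 ^ 4 * 1 :=
          mul_le_mul_of_nonneg_left (mul_le_one₀ hq1 hq0 hq1) (by norm_num)
      _ = 48 / 10 ^ 4 := mul_one _
  have h3 : 0 ≤ sg (ρ / S.v) * (S.a ^ 2 + S.b ^ 2) := mul_nonneg hm.1 (by positivity)
  have h4 : 2 / 5 * (1 - 1 / 10 ^ 4) ≤ (3 - sg (ρ / S.v)) * (1 + S.v / ρ * S.b) :=
    mul_le_mul (by linarith only [hm, hm.2.1]) (by linarith only [h1, neg_abs_le (S.v / ρ * S.b)]) (by norm_num)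
      (by linarith only [hm, hm.2.1])
  have h5 := neg_abs_le (sg (ρ / S.v) / S.v * ρ * S.b)
  linarith only [h2, h3, h4, h5]

lemma Lop_vr (hρ : 0 < ρ) (hS : 0 < S.v) (sS : Sm S (vr S.v ρ / 10 ^ 4) ρ (vr S.v ρ))
    {w c1 c2 : ℝ} (hc : 0 ≤ c1) (v1 v2 : ℝ) :
    (c1 / (4 * vr S.v ρ) - 8 * |c2|) * (v1 ^ 2 + v2 ^ 2) ≤
      Lop S ρ ((vJ S ρ).comp w c1 c2) v1 v2 := by
  have hx : 0 < vr S.v ρ := vr_pos hρ
  have h1 := Lop_vJ_hess_ge hρ hS sS v1 v2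
  have h2 := Lop_vJ_hess_ge hρ hS sS 1 0
  have h3 := Lop_vJ_hess_ge hρ hS sS 0 1
  have h4 := Lop_vJ_first hρ hS sS
  have hg := grad_vJ hρ hS sS
  have e2 : (vJ S ρ).hess 1 0 = (vJ S ρ).aa := by simp [Jet.hess]
  have e3 : (vJ S ρ).hess 0 1 = (vJ S ρ).bb := by simp [Jet.hess]
  rw [e2] at h2
  rw [e3] at h3
  have hv : 0 ≤ v1 ^ 2 + v2 ^ 2 := by positivity
  have hL : 1 / (4 * vr S.v ρ) * (v1 ^ 2 + v2 ^ 2) ≤ Lop S ρ (vJ S ρ) v1 v2 := by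
    unfold Lop
    have hy : 0 < 1 / vr S.v ρ := by positivity
    have a1 : 2 / 10 ^ 4 / vr S.v ρ = 2 / 10 ^ 4 * (1 / vr S.v ρ) := by ring
    have a2 : 39 / 100 / vr S.v ρ = 39 / 100 * (1 / vr S.v ρ) := by ring
    have a3 : 1 / (4 * vr S.v ρ) = 1 / 4 * (1 / vr S.v ρ) := by field_simp
    rw [a1] at h1 h2 h3
    rw [a2] at h4
    rw [a3]
    generalize 1 / vr S.v ρ = y at hy h1 h2 h3 h4
    have h5 : 38 / 100 * y ≤ (vJ S ρ).aa + (vJ S ρ).bb + La S ρ * (vJ S ρ).a +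
        Lb S ρ * (vJ S ρ).b := by
      norm_num at h2 h3
      linarith only [hy, h4, h2, h3]
    have h6 := mul_le_mul_of_nonneg_right h5 hv
    have h7 : 0 ≤ y * (v1 ^ 2 + v2 ^ 2) := by positivity
    norm_num at h1
    linarith only [h6, h7, h1]
  rw [Lop_comp]
  have hP0 : 0 ≤ 3 * ((vJ S ρ).a * v1 + (vJ S ρ).b * v2) ^ 2 +
      ((vJ S ρ).a ^ 2 + (vJ S ρ).b ^ 2) * (v1 ^ 2 + v2 ^ 2) := by positivity
  have hP1 : 3 * ((vJ S ρ).a * v1 + (vJ S ρ).b * v2) ^ 2 +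
      ((vJ S ρ).a ^ 2 + (vJ S ρ).b ^ 2) * (v1 ^ 2 + v2 ^ 2) ≤ 8 * (v1 ^ 2 + v2 ^ 2) := by
    have := mul_le_mul_of_nonneg_right hg hv
    linarith only [this, sq_nonneg ((vJ S ρ).a * v2 - (vJ S ρ).b * v1), sq_nonneg ((vJ S ρ).a * v2 - (vJ S ρ).b * v1)]
  have hA := mul_le_mul_of_nonneg_left hL hc
  have hB := mul_le_mul_of_nonneg_left hP1 (abs_nonneg c2)
  have hC := mul_le_mul_of_nonneg_right (neg_abs_le c2) hP0
  have e : (c1 / (4 * vr S.v ρ) - 8 * |c2|) * (v1 ^ 2 + v2 ^ 2) =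
      c1 * (1 / (4 * vr S.v ρ) * (v1 ^ 2 + v2 ^ 2)) - |c2| * (8 * (v1 ^ 2 + v2 ^ 2)) := by ring
  rw [e]
  linarith only [hA, hB, hC]

lemma Lop_small (hρ : 0 < ρ) (hS : 0 < S.v) (sS : Sm S (vr S.v ρ / 10 ^ 4) ρ (vr S.v ρ))
    (h : Sm J k ρ (vr S.v ρ)) (v1 v2 : ℝ) :
    |Lop S ρ J v1 v2| ≤ 12 * k / vr S.v ρ ^ 2 * (v1 ^ 2 + v2 ^ 2) := by
  have hx : 0 < vr S.v ρ := vr_pos hρ
  have hk := h.nonneg hx
  have hv : 0 ≤ v1 ^ 2 + v2 ^ 2 := by positivity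
  have h1 := h.hess_le v1 v2
  have hA : |La S ρ * J.a| ≤ 48 / 10 ^ 4 * (k / vr S.v ρ ^ 2) := by
    rw [abs_mul]
    calc |La S ρ| * |J.a| ≤ 48 / 10 ^ 4 / vr S.v ρ * (k / vr S.v ρ) :=
          mul_le_mul (Lop_La hρ hS sS) h.a (abs_nonneg _) (by positivity)
      _ = _ := by field_simp
  have hB : |Lb S ρ * J.b| ≤ (3 + 48 / 10 ^ 4) * (k / vr S.v ρ ^ 2) := by
    rw [abs_mul]
    calc |Lb S ρ| * |J.b| ≤ (3 + 48 / 10 ^ 4) / ρ * (k * ρ / vr S.v ρ ^ 2) :=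
          mul_le_mul (Lop_Lb hρ hS sS) h.b (abs_nonneg _) (by positivity)
      _ = _ := by field_simp
  have haa := h.aa
  have hbb := h.bb
  have a1 : 2 * k / vr S.v ρ ^ 2 = 2 * (k / vr S.v ρ ^ 2) := by ring
  have a2 : 12 * k / vr S.v ρ ^ 2 = 12 * (k / vr S.v ρ ^ 2) := by ring
  have hy : 0 ≤ k / vr S.v ρ ^ 2 := by positivity
  rw [a1] at h1
  rw [a2]
  generalize k / vr S.v ρ ^ 2 = y at h1 hA hB haa hbb hy
  have hT : |J.aa + J.bb + La S ρ * J.a + Lb S ρ * J.b| ≤ 6 * y := by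
    have b1 := abs_le.1 hA
    have b2 := abs_le.1 hB
    have b3 := abs_le.1 haa
    have b4 := abs_le.1 hbb
    norm_num at b1 b2
    rw [abs_le]
    constructor <;> linarith only [hy, b3, b4, b1, b2, b1.1, b1.2, b2.1, b2.2, b3.1, b3.2, b4.1, b4.2]
  unfold Lop
  calc _ ≤ |3 * J.hess v1 v2| + |(J.aa + J.bb + La S ρ * J.a + Lb S ρ * J.b) *
        (v1 ^ 2 + v2 ^ 2)| := abs_add_le _ _
    _ = 3 * |J.hess v1 v2| + |J.aa + J.bb + La S ρ * J.a + Lb S ρ * J.b| *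
        (v1 ^ 2 + v2 ^ 2) := by
        rw [abs_mul, abs_mul, abs_of_nonneg hv, abs_of_nonneg (by norm_num : (0 : ℝ) ≤ 3)]
    _ ≤ 3 * (2 * y * (v1 ^ 2 + v2 ^ 2)) + 6 * y * (v1 ^ 2 + v2 ^ 2) :=
        add_le_add (by linarith only [h1]) (mul_le_mul_of_nonneg_right hT hv)
    _ = _ := by ring

lemma Lop_abs_lin {a b c v1 v2 : ℝ} (ha : |a| ≤ c) (hb : |b| ≤ c) :
    |a * v1 + b * v2| ≤ c * (|v1| + |v2|) := by
  calc _ ≤ |a * v1| + |b * v2| := abs_add_le _ _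
    _ = |a| * |v1| + |b| * |v2| := by rw [abs_mul, abs_mul]
    _ ≤ c * |v1| + c * |v2| := add_le_add (mul_le_mul_of_nonneg_right ha (abs_nonneg _))
        (mul_le_mul_of_nonneg_right hb (abs_nonneg _))
    _ = _ := by ring

lemma RG_small (hρ : 0 < ρ) (hS : 0 < S.v) (sS : Sm S (vr S.v ρ / 10 ^ 4) ρ (vr S.v ρ))
    (h : Sm J k ρ (vr S.v ρ)) (ha : |J.a| ≤ k * ρ / vr S.v ρ ^ 2) (v1 v2 : ℝ) :
    |RG S ρ J v1 v2| ≤ 20 * k / vr S.v ρ ^ 2 * (v1 ^ 2 + v2 ^ 2) := by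
  have hx : 0 < vr S.v ρ := vr_pos hρ
  have hk := h.nonneg hx
  have hv : 0 ≤ v1 ^ 2 + v2 ^ 2 := by positivity
  have h1 := h.hess_le v1 v2
  have hle := (le_vr hS hρ).1
  have hA : |La S ρ| ≤ (3 + 48 / 10 ^ 4) / ρ := by
    refine (Lop_La hρ hS sS).trans ?_
    exact div_le_div₀ (by norm_num) (by norm_num) hρ hle
  have hB := Lop_Lb hρ hS sS
  have h2 : |J.dd v1 v2| ≤ k * ρ / vr S.v ρ ^ 2 * (|v1| + |v2|) := Lop_abs_lin ha h.b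
  have h3 : |La S ρ * v1 + Lb S ρ * v2| ≤ (3 + 48 / 10 ^ 4) / ρ * (|v1| + |v2|) :=
    Lop_abs_lin hA hB
  have hw : (|v1| + |v2|) ^ 2 ≤ 2 * (v1 ^ 2 + v2 ^ 2) := by
    linarith only [sq_abs v1, sq_abs v2, sq_nonneg (|v1| - |v2|), sq_nonneg (|v1| - |v2|)]
  have hy : 0 ≤ k / vr S.v ρ ^ 2 := by positivity
  have h4 : |J.dd v1 v2 * (La S ρ * v1 + Lb S ρ * v2)| ≤
      7 * (k / vr S.v ρ ^ 2) * (v1 ^ 2 + v2 ^ 2) := by
    rw [abs_mul]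
    calc _ ≤ k * ρ / vr S.v ρ ^ 2 * (|v1| + |v2|) * ((3 + 48 / 10 ^ 4) / ρ * (|v1| + |v2|)) :=
          mul_le_mul h2 h3 (abs_nonneg _) (by positivity)
      _ = (3 + 48 / 10 ^ 4) * (k / vr S.v ρ ^ 2) * (|v1| + |v2|) ^ 2 := by field_simp
      _ ≤ 7 / 2 * (k / vr S.v ρ ^ 2) * (2 * (v1 ^ 2 + v2 ^ 2)) :=
          mul_le_mul (mul_le_mul_of_nonneg_right (by norm_num) hy) hw (by positivity)
            (by positivity)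
      _ = _ := by ring
  have a1 : 2 * k / vr S.v ρ ^ 2 = 2 * (k / vr S.v ρ ^ 2) := by ring
  have a2 : 20 * k / vr S.v ρ ^ 2 = 20 * (k / vr S.v ρ ^ 2) := by ring
  rw [a1] at h1
  rw [a2]
  generalize k / vr S.v ρ ^ 2 = y at h1 h4 hy
  have b1 := abs_le.1 h1
  have b2 := abs_le.1 h4
  unfold RG
  rw [abs_le]
  constructor <;> linarith only [b1, b2, b1.1, b1.2, b2.1, b2.2]

lemma RS_ge (hρ : 0 < ρ) (hS : 0 < S.v) {h v1 v2 : ℝ}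
    (hh : |S.hess v1 v2| ≤ h * (v1 ^ 2 + v2 ^ 2)) :
    -(48 * h / vr S.v ρ) * (v1 ^ 2 + v2 ^ 2) ≤ RS S ρ v1 v2 := by
  have hx : 0 < vr S.v ρ := vr_pos hρ
  have hu := div_pos hρ hS
  have hσ0 : 0 ≤ sg (ρ / S.v) / S.v := div_nonneg (sg_mem hu).1 hS.le
  have hσ1 : sg (ρ / S.v) / S.v ≤ 48 / vr S.v ρ := sg_div_le hS hρ
  have hbw : 0 < bw (ρ / S.v) := lt_of_lt_of_le one_pos (one_le_bw _)
  have hbe : 0 ≤ be (ρ / S.v) := le_trans (by positivity) (be_ge hu)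
  have h0 : 0 ≤ be (ρ / S.v) * (v2 - ρ / S.v * S.dd v1 v2) ^ 2 / S.v ^ 2 := by positivity
  have h1 : sg (ρ / S.v) / S.v * S.hess v1 v2 ≤ 48 / vr S.v ρ * (h * (v1 ^ 2 + v2 ^ 2)) :=
    (mul_le_mul_of_nonneg_left (le_abs_self _) hσ0).trans
      (mul_le_mul hσ1 hh (abs_nonneg _) (by positivity))
  have e1 : sg (ρ / S.v) * S.hess v1 v2 / S.v = sg (ρ / S.v) / S.v * S.hess v1 v2 := by ring
  have e2 : -(48 * h / vr S.v ρ) * (v1 ^ 2 + v2 ^ 2) =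
      -(48 / vr S.v ρ * (h * (v1 ^ 2 + v2 ^ 2))) := by ring
  unfold RS
  rw [e1, e2]
  linarith only [h0, h1]

lemma RS_cone (hp : Pt t ρ r) {η ε : ℝ} (hη : 0 < η) (hη1 : η ≤ 1) (hε : 0 < ε)
    (hεη : ε ≤ η ^ 3 / 10 ^ 6) (v1 v2 : ℝ) :
    -(η * ((t * v2 - ρ * v1) / r) ^ 2 / r ^ 2) ≤ RS ((rJ t ρ r).comp (ε * r) ε 0) ρ v1 v2 := by
  have hr := hp.rpos
  have hρ := hp.pos
  have hq := hp.sq
  have hs1 : ρ / r ≤ 1 := by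
    rw [div_le_one hr]
    (refine le_of_not_gt fun h_nl => ?_; linarith only [h_nl, hq, hr, hρ, sq_nonneg t, sq_nonneg t, mul_pos_of_neg_of_neg (Mathlib.Tactic.Linarith.sub_neg_of_lt hr) (Mathlib.Tactic.Linarith.sub_neg_of_lt h_nl), mul_pos_of_neg_of_neg (Mathlib.Tactic.Linarith.sub_neg_of_lt hρ) (Mathlib.Tactic.Linarith.sub_neg_of_lt h_nl)])
  have hc := cone_lemma hη hη1 hε hεη (div_pos hρ hr) hs1
  have eu : ρ / (ε * r) = ρ / r / ε := by field_simp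
  have e1 : v2 - ρ / r / ε * ((rJ t ρ r).comp (ε * r) ε 0).dd v1 v2 =
      t / r * ((t * v2 - ρ * v1) / r) := by
    simp only [Jet.dd, Jet.comp_a, Jet.comp_b, rJ]
    field_simp
    linear_combination v2 * hq
  have e2 : ((rJ t ρ r).comp (ε * r) ε 0).hess v1 v2 = ε * ((t * v2 - ρ * v1) / r) ^ 2 / r := by
    simp only [Jet.hess, Jet.comp_aa, Jet.comp_ab, Jet.comp_bb, rJ]
    field_simp
    ring
  have e3 : 1 - (ρ / r) ^ 2 = (t / r) ^ 2 := by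
    field_simp
    linarith only [hq]
  unfold RS
  rw [Jet.comp_v, eu, e1, e2]
  rw [e3] at hc
  generalize (t * v2 - ρ * v1) / r = an
  generalize be (ρ / r / ε) = B at hc
  generalize sg (ρ / r / ε) = σ at hc
  have e4 : B * (t / r * an) ^ 2 / (ε * r) ^ 2 - σ * (ε * an ^ 2 / r) / (ε * r) =
      (B * (t / r) ^ 2 / ε ^ 2 - σ) * (an ^ 2 / r ^ 2) := by
    field_simp
  have e5 : -(η * an ^ 2 / r ^ 2) = -η * (an ^ 2 / r ^ 2) := by ring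
  rw [e4, e5]
  exact mul_le_mul_of_nonneg_right hc (by positivity)

lemma Quad_le (hY : 1 / 2 ≤ Y.v) {x y : ℝ} (hx : 0 ≤ x) (hy : 0 ≤ y)
    (h1 : Y.a ^ 2 + Y.b ^ 2 ≤ x ^ 2) (h2 : (J - K).a ^ 2 + (J - K).b ^ 2 ≤ y ^ 2) (v1 v2 : ℝ) :
    Quad Y (J - K) v1 v2 ≤ 6 * (J.a * v2 - J.b * v1) ^ 2 +
      (6 * (K.a ^ 2 + K.b ^ 2) + 6 * x * y) * (v1 ^ 2 + v2 ^ 2) := by
  have hv : 0 ≤ v1 ^ 2 + v2 ^ 2 := by positivity
  have hY0 : 0 < Y.v := by linarith only [hY]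
  have hxy : 0 ≤ x * y := mul_nonneg hx hy
  have hcs : Y.a * (J - K).a + Y.b * (J - K).b ≤ x * y := by
    refine le_trans (le_abs_self _) (abs_le_of_sq_le_sq ?_ hxy)
    have h3 : (Y.a ^ 2 + Y.b ^ 2) * ((J - K).a ^ 2 + (J - K).b ^ 2) ≤ x ^ 2 * y ^ 2 :=
      mul_le_mul h1 h2 (by positivity) (by positivity)
    linarith only [h3, sq_nonneg (Y.a * (J - K).b - Y.b * (J - K).a), sq_nonneg (Y.a * (J - K).b - Y.b * (J - K).a)]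
  have h4 : 3 * (Y.a * (J - K).a + Y.b * (J - K).b) / Y.v ≤ 6 * x * y := by
    rw [div_le_iff₀ hY0]
    linarith only [hcs, hY, hxy, mul_nonneg_of_nonpos_of_nonpos (Mathlib.Tactic.Linarith.sub_nonpos_of_le hY) (Mathlib.Tactic.Linarith.sub_nonpos_of_le hxy)]
  have h5 := mul_le_mul_of_nonneg_right h4 hv
  have h6 : 3 * ((J - K).a * v2 - (J - K).b * v1) ^ 2 ≤ 6 * (J.a * v2 - J.b * v1) ^ 2 +
      6 * (K.a ^ 2 + K.b ^ 2) * (v1 ^ 2 + v2 ^ 2) := by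
    simp only [Jet.sub_a, Jet.sub_b]
    linarith only [sq_nonneg (J.a * v2 - J.b * v1 + (K.a * v2 - K.b * v1)),
      sq_nonneg (K.a * v1 + K.b * v2), sq_nonneg (K.a * v1 + K.b * v2), sq_nonneg (J.a * v2 - J.b * v1 + (K.a * v2 - K.b * v1))]
  unfold Quad
  linarith only [h5, h6]

end

end Pool.Agent.Work.MP_a9fb1f_gt
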