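import Pool.Agent.Work.MP_a9fb1f_gt.PertB
import Pool.Agent.Work.MP_a9fb1f_gt.Defs
import Pool.Agent.Work.MP_a9fb1f_gt.Lop
import Pool.Agent.Work.MP_a9fb1f_gt.Pert

-- merged part: Pool.Agent.Work.MP_a9fb1f_gt.Cut
section
/-! Cutoff functions. -/

set_option autoImplicit false

open scoped Manifold ContDiff Topology ENNReal Bundle RealInnerProductSpace
open Filter Set

namespace Pool.Agent.Work.MP_a9fb1f_gt

noncomputable section

abbrev st : ℝ → ℝ := Real.smoothTransition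

lemma cut_contDiff_st : ContDiff ℝ ∞ st := Real.smoothTransition.contDiff

lemma cut_contDiff_d1 : ContDiff ℝ ∞ (deriv st) :=
  (contDiff_infty_iff_deriv.1 cut_contDiff_st).2

lemma cut_contDiff_d2 : ContDiff ℝ ∞ (deriv (deriv st)) :=
  (contDiff_infty_iff_deriv.1 cut_contDiff_d1).2

/-- the derivative of a function that is constant on a closed left half line -/
lemma cut_deriv_low {f : ℝ → ℝ} {c t : ℝ} (hf : Continuous (deriv f))
    (h : ∀ x ≤ t, f x = c) : ∀ x ≤ t, deriv f x = 0 := by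
  have h1 : Iio t ⊆ {x | deriv f x = 0} := by
    intro x hx
    have e : f =ᶠ[𝓝 x] fun _ => c := by
      filter_upwards [Iio_mem_nhds hx] with y hy using h y (le_of_lt hy)
    simp [e.deriv_eq]
  have h2 := closure_minimal h1 (isClosed_eq hf continuous_const)
  rw [closure_Iio] at h2
  exact fun x hx => h2 hx

lemma cut_deriv_high {f : ℝ → ℝ} {c t : ℝ} (hf : Continuous (deriv f))
    (h : ∀ x, t ≤ x → f x = c) : ∀ x, t ≤ x → deriv f x = 0 := by
  have h1 : Ioi t ⊆ {x | deriv f x = 0} := by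
    intro x hx
    have e : f =ᶠ[𝓝 x] fun _ => c := by
      filter_upwards [Ioi_mem_nhds hx] with y hy using h y (le_of_lt hy)
    simp [e.deriv_eq]
  have h2 := closure_minimal h1 (isClosed_eq hf continuous_const)
  rw [closure_Ioi] at h2
  exact fun x hx => h2 hx

lemma cut_d1_low : ∀ x ≤ (0 : ℝ), deriv st x = 0 :=
  cut_deriv_low cut_contDiff_d1.continuous fun _ hx => Real.smoothTransition.zero_of_nonpos hx

lemma cut_d2_low : ∀ x ≤ (0 : ℝ), deriv (deriv st) x = 0 :=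
  cut_deriv_low cut_contDiff_d2.continuous cut_d1_low

lemma cut_d1_high : ∀ x : ℝ, 1 ≤ x → deriv st x = 0 :=
  cut_deriv_high cut_contDiff_d1.continuous fun _ hx => Real.smoothTransition.one_of_one_le hx

lemma cut_d2_high : ∀ x : ℝ, 1 ≤ x → deriv (deriv st) x = 0 :=
  cut_deriv_high cut_contDiff_d2.continuous cut_d1_high

lemma exists_Kst : ∃ K : ℝ, 1 ≤ K ∧ ∀ x, |deriv st x| ≤ K ∧ |deriv (deriv st) x| ≤ K := by
  obtain ⟨A, hA⟩ := (isCompact_Icc (a := (0 : ℝ)) (b := 1)).exists_bound_of_continuousOn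
    cut_contDiff_d1.continuous.continuousOn
  obtain ⟨B, hB⟩ := (isCompact_Icc (a := (0 : ℝ)) (b := 1)).exists_bound_of_continuousOn
    cut_contDiff_d2.continuous.continuousOn
  refine ⟨max 1 (max A B), le_max_left _ _, fun x => ?_⟩
  rcases le_total x 0 with h0 | h0
  · simp [cut_d1_low x h0, cut_d2_low x h0]
  rcases le_total 1 x with h1 | h1
  · simp [cut_d1_high x h1, cut_d2_high x h1]
  exact ⟨(hA x ⟨h0, h1⟩).trans ((le_max_left _ _).trans (le_max_right _ _)),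
    (hB x ⟨h0, h1⟩).trans ((le_max_right _ _).trans (le_max_right _ _))⟩

def Kst : ℝ := Classical.choose exists_Kst

lemma one_le_Kst : 1 ≤ Kst := (Classical.choose_spec exists_Kst).1

lemma Kst_spec (x : ℝ) : |deriv st x| ≤ Kst ∧ |deriv (deriv st) x| ≤ Kst :=
  (Classical.choose_spec exists_Kst).2 x

lemma deriv_st_nonneg (x : ℝ) : 0 ≤ deriv st x :=
  Real.smoothTransition.monotone.deriv_nonneg

lemma cut_has2_st (x : ℝ) : Has2 st x (st x) (deriv st x) (deriv (deriv st) x) :=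
  has2_of_contDiffAt (cut_contDiff_st.of_le (WithTop.coe_le_coe.2 (le_top : (2 : ℕ∞) ≤ ⊤))).contDiffAt

lemma has2_st_low {x : ℝ} (hx : x ≤ 0) : Has2 st x 0 0 0 := by
  have h := cut_has2_st x
  rwa [cut_d1_low x hx, cut_d2_low x hx,
    show st x = 0 from Real.smoothTransition.zero_of_nonpos hx] at h

lemma has2_st_high {x : ℝ} (hx : 1 ≤ x) : Has2 st x 1 0 0 := by
  have h := cut_has2_st x
  rwa [cut_d1_high x hx, cut_d2_high x hx,
    show st x = 1 from Real.smoothTransition.one_of_one_le hx] at h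

/-- Equal to `0` for `r ≤ b a` and to `1` for `r ≥ (b + 1) a`. -/
def cut (a b r : ℝ) : ℝ := st (r / a - b)

variable {a b r : ℝ}

lemma contDiff_cut (a b : ℝ) : ContDiff ℝ ∞ (cut a b) :=
  cut_contDiff_st.comp ((contDiff_id.div_const a).sub contDiff_const)

lemma cut_mem (a b r : ℝ) : 0 ≤ cut a b r ∧ cut a b r ≤ 1 :=
  ⟨Real.smoothTransition.nonneg _, Real.smoothTransition.le_one _⟩

lemma has2_cut (a b r : ℝ) :
    Has2 (cut a b) r (cut a b r) (deriv (cut a b) r) (deriv (deriv (cut a b)) r) :=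
  has2_of_contDiffAt ((contDiff_cut a b).of_le (WithTop.coe_le_coe.2 (le_top : (2 : ℕ∞) ≤ ⊤))).contDiffAt

lemma cut_deriv1 (a b : ℝ) : deriv (cut a b) = fun r => deriv st (r / a - b) * a⁻¹ := by
  funext r
  have h1 : HasDerivAt (fun r : ℝ => r / a - b) a⁻¹ r := by
    simpa using ((hasDerivAt_id r).div_const a).sub_const b
  exact ((cut_contDiff_st.differentiable (by simp) _).hasDerivAt.comp r h1).deriv

lemma cut_deriv2 (a b r : ℝ) :
    deriv (deriv (cut a b)) r = deriv (deriv st) (r / a - b) * a⁻¹ * a⁻¹ := by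
  rw [cut_deriv1]
  have h1 : HasDerivAt (fun r : ℝ => r / a - b) a⁻¹ r := by
    simpa using ((hasDerivAt_id r).div_const a).sub_const b
  exact (((cut_contDiff_d1.differentiable (by simp) _).hasDerivAt.comp r h1).mul_const a⁻¹).deriv

lemma has2_cut_low (ha : 0 < a) (h : r ≤ b * a) : Has2 (cut a b) r 0 0 0 := by
  have hx : r / a - b ≤ 0 := by rw [sub_nonpos, div_le_iff₀ ha]; exact h
  have h1 := has2_cut a b r
  rw [cut_deriv2, cut_d2_low _ hx, zero_mul, zero_mul,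
    show cut a b r = 0 from Real.smoothTransition.zero_of_nonpos hx,
    show deriv (cut a b) r = 0 by rw [cut_deriv1]; simp [cut_d1_low _ hx]] at h1
  exact h1

lemma has2_cut_high (ha : 0 < a) (h : (b + 1) * a ≤ r) : Has2 (cut a b) r 1 0 0 := by
  have hx : 1 ≤ r / a - b := by rw [le_sub_iff_add_le, le_div_iff₀ ha]; linarith
  have h1 := has2_cut a b r
  rw [cut_deriv2, cut_d2_high _ hx, zero_mul, zero_mul,
    show cut a b r = 1 from Real.smoothTransition.one_of_one_le hx,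
    show deriv (cut a b) r = 0 by rw [cut_deriv1]; simp [cut_d1_high _ hx]] at h1
  exact h1

lemma deriv_cut_nonneg (ha : 0 < a) : 0 ≤ deriv (cut a b) r := by
  rw [cut_deriv1]
  exact mul_nonneg (deriv_st_nonneg _) (inv_nonneg.2 ha.le)

lemma deriv_cut_le (ha : 0 < a) (hb : 0 ≤ b) (hr : 0 ≤ r) :
    r * |deriv (cut a b) r| ≤ (b + 1) * Kst ∧
      r ^ 2 * |deriv (deriv (cut a b)) r| ≤ (b + 1) ^ 2 * Kst := by
  have hK : 0 ≤ Kst := zero_le_one.trans one_le_Kst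
  rcases le_total ((b + 1) * a) r with h | h
  · have h1 := has2_cut_high ha h
    rw [h1.d, h1.dd]
    simp only [abs_zero, mul_zero]
    constructor <;> positivity
  have hq : r * a⁻¹ ≤ b + 1 := by rw [← div_eq_mul_inv, div_le_iff₀ ha]; exact h
  have hq0 : 0 ≤ r * a⁻¹ := by positivity
  have hi : |a⁻¹| = a⁻¹ := abs_of_pos (inv_pos.2 ha)
  obtain ⟨k1, k2⟩ := Kst_spec (r / a - b)
  constructor
  · rw [cut_deriv1]
    simp only [abs_mul, hi]
    calc r * (|deriv st (r / a - b)| * a⁻¹) = r * a⁻¹ * |deriv st (r / a - b)| := by ring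
      _ ≤ (b + 1) * Kst := by gcongr
  · rw [cut_deriv2]
    simp only [abs_mul, hi]
    calc r ^ 2 * (|deriv (deriv st) (r / a - b)| * a⁻¹ * a⁻¹)
        = (r * a⁻¹) ^ 2 * |deriv (deriv st) (r / a - b)| := by ring
      _ ≤ (b + 1) ^ 2 * Kst := by gcongr

end

end Pool.Agent.Work.MP_a9fb1f_gt
end

-- merged part: Pool.Agent.Work.MP_a9fb1f_gt.BlockDefs
section
/-! The translation invariant metrics and the blocks: definitions. -/

set_option autoImplicit false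

open scoped Manifold ContDiff Topology ENNReal Bundle RealInnerProductSpace
open Filter Set

namespace Pool.Agent.Work.MP_a9fb1f_gt

noncomputable section

/-- Parameters of a translation invariant metric. -/
structure Th where
  δ : ℝ
  d : ℝ
  m : ℝ
  s : ℝ

namespace Th

variable (T : Th)

def w0 (x : ℝ) : ℝ := T.δ * x / (T.d + x)
def bq (z : ℝ) : ℝ := √√(1 + z / T.d ^ 2)
def gh (z : ℝ) : ℝ := 40 * T.δ / (T.d ^ 2 * (T.bq z * (T.bq z + 1) * (T.bq z ^ 2 + 1)))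
def g1 (ρ : ℝ) : ℝ := 40 * T.δ * ρ / (2 * T.d ^ 2 * T.bq (ρ ^ 2) ^ 5)
def g2 (ρ : ℝ) : ℝ := 40 * T.δ *
  (1 / (2 * T.d ^ 2 * T.bq (ρ ^ 2) ^ 5) - 5 * ρ ^ 2 / (4 * T.d ^ 4 * T.bq (ρ ^ 2) ^ 9))
def w1 (x : ℝ) : ℝ := T.δ * T.d / (T.d + x) ^ 2
def w2 (x : ℝ) : ℝ := -2 * T.δ * T.d / (T.d + x) ^ 3

/-- The jet of `ρ² gh`. -/
def gJ (ρ : ℝ) : Jet := (Jet.x2 ρ).comp (ρ ^ 2 * T.gh (ρ ^ 2)) (T.g1 ρ) (T.g2 ρ)

def E : Ed :=
  mkE (fun x => -(T.w0 √(x.2 + T.s ^ 2) + T.m * √(x.2 + T.s ^ 2))) (fun x => T.gh x.2)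
    (fun _ => T.s) (fun _ => 1) fun _ => 0

structure OK : Prop where
  δ0 : 0 < T.δ
  δ1 : T.δ ≤ 1 / 10 ^ 9
  m0 : 0 ≤ T.m
  s0 : 0 < T.s
  sd : T.s ≤ T.d / 10 ^ 4

end Th

/-- Parameters of a block: outer and inner translation invariant metrics. -/
structure Par where
  ι : ℝ
  ε : ℝ
  L : ℝ
  I : ℝ
  o : Th
  i : Th

def rr (x : ℝ × ℝ) : ℝ := √(x.1 ^ 2 + x.2)

namespace Par

variable (P : Par)

def γ : ℝ := P.ι ^ 2 * P.o.δ
def R : ℝ := P.ι * P.o.d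
def R2 : ℝ := P.ι ^ 3 * P.o.d

structure OK : Prop where
  ι0 : 0 < P.ι
  ιK : Kst ^ 2 * P.ι ≤ 1 / 10 ^ 12
  δ0 : 0 < P.o.δ
  δι : P.o.δ ≤ P.ι
  d0 : 0 < P.o.d
  d1 : P.o.d ≤ 1
  m0 : 0 ≤ P.o.m
  md : P.o.m * P.o.d ≤ P.o.δ
  s0 : 0 < P.o.s
  sR : P.o.s ≤ P.ε * P.R
  ε0 : 0 < P.ε
  εγ : P.ε ≤ P.ι * P.γ ^ 3
  Lε : 1 ≤ P.L * P.ε ^ 10
  Ieq : P.I = P.R2 * Real.exp (-4 * P.L)
  δi : P.i.δ = P.ι ^ 4 * P.o.δ
  mi : P.i.m * P.I = P.ι ^ 3 * P.o.δ
  di0 : 0 < P.i.d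
  di : P.i.d ≤ P.ι * P.I
  si0 : 0 < P.i.s
  si : P.i.s ≤ P.ε * P.I
  sdi : P.i.s ≤ P.ι * P.i.d

def c1 : ℝ → ℝ := cut P.I 2
def c2 : ℝ → ℝ := cut P.R 1
def ci (r : ℝ) : ℝ := 1 - cut P.I 1 r
def co : ℝ → ℝ := cut P.R2 1
def cm (r : ℝ) : ℝ := 1 - cut P.I 3 r
def ao : ℝ → ℝ := cut (P.R2 / 4) 1
def ai (r : ℝ) : ℝ := 1 - cut (5 * P.I) 1 r

/-- The size of the bubble. -/
def Sf (r : ℝ) : ℝ :=
  (1 - P.c2 r) * ((1 - P.c1 r) * P.i.s + P.c1 r * (P.ε * r)) + P.c2 r * P.o.s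

def Nf (r : ℝ) : ℝ := P.γ * (r / (r + P.I) + Real.log (r / P.I) / (5 * P.L) + r / (r + P.R2))
def nu (r : ℝ) : ℝ := cut P.I 1 r * (1 - P.c2 r) * P.Nf r
def Oo (r : ℝ) : ℝ := ∫ s in r..(2 * P.R), P.nu s / s
def Oi (r : ℝ) : ℝ := -∫ s in P.I..r, P.nu s / s
def om0 (r : ℝ) : ℝ := P.ao r * P.Oo r + P.ai r * P.Oi r
def kf (r : ℝ) : ℝ := (1 + r * deriv P.om0 r) / (1 - P.nu r)
def tau (r : ℝ) : ℝ :=
  st ((Real.log r - Real.log (10 * P.I)) / P.L) * st ((Real.log (P.R2 / 4) - Real.log r) / P.L)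

def vv (x : ℝ × ℝ) : ℝ := √(x.2 + P.Sf (rr x) ^ 2)

def wB (x : ℝ × ℝ) : ℝ := P.om0 (rr x) - (P.co (rr x) * (P.o.w0 (P.vv x) + P.o.m * P.vv x) +
  P.ci (rr x) * P.i.w0 (P.vv x) + P.cm (rr x) * (P.i.m * P.vv x))

def gB (x : ℝ × ℝ) : ℝ := P.c2 (rr x) * P.o.gh x.2 + P.ci (rr x) * P.i.gh x.2

def yB (x : ℝ × ℝ) : ℝ := √(1 - P.tau (rr x) + P.tau (rr x) *
  ((x.1 ^ 2 + x.2) ^ 2 / (100 * Ph2 (P.Sf (rr x)) x.2 ^ 2)))

def kB (x : ℝ × ℝ) : ℝ := (P.kf (rr x) ^ 2 - 1 / P.yB x) / (x.1 ^ 2 + x.2)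

def E : Ed := mkE P.wB P.gB (fun x => P.Sf (rr x)) P.yB P.kB

end Par

/-- The jet of a radial function. -/
def cJ (f : ℝ → ℝ) (t ρ r : ℝ) : Jet := (rJ t ρ r).comp (f r) (deriv f r) (deriv (deriv f) r)

namespace Par

variable (P : Par)

def jY (t ρ r : ℝ) : Jet := Jet.cst 1 - (cJ P.c2 t ρ r * P.o.gJ ρ + cJ P.ci t ρ r * P.i.gJ ρ)

def jW (t ρ r : ℝ) : Jet :=
  oJ t ρ r (P.om0 r) (P.nu r) (deriv P.nu r) -
    (cJ P.co t ρ r * (vJ (cJ P.Sf t ρ r) ρ).comp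
        (P.o.w0 (vr (P.Sf r) ρ) + P.o.m * vr (P.Sf r) ρ) (P.o.w1 (vr (P.Sf r) ρ) + P.o.m)
        (P.o.w2 (vr (P.Sf r) ρ)) +
      cJ P.ci t ρ r * (vJ (cJ P.Sf t ρ r) ρ).comp (P.i.w0 (vr (P.Sf r) ρ))
        (P.i.w1 (vr (P.Sf r) ρ)) (P.i.w2 (vr (P.Sf r) ρ)) +
      cJ P.cm t ρ r * (vJ (cJ P.Sf t ρ r) ρ).comp (P.i.m * vr (P.Sf r) ρ) P.i.m 0)

end Par

end

end Pool.Agent.Work.MP_a9fb1f_gt
end

-- merged part: Pool.Agent.Work.MP_a9fb1f_gt.Tree
section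
/-! The Cantor set of centres. -/

set_option autoImplicit false

open scoped Manifold ContDiff Topology ENNReal Bundle RealInnerProductSpace
open Filter Set

namespace Pool.Agent.Work.MP_a9fb1f_gt

noncomputable section

def Kset (C : ℕ → Finset ℝ) (I : ℕ → ℝ) : Set ℝ := {t | ∀ j, ∃ c ∈ C j, |t - c| ≤ I j / 2}

section

variable {n : ℕ → ℕ}

/-- The point with digits `b` at the positions `n`. -/
def Tree_pt (n : ℕ → ℕ) (b : ℕ → Fin 2) : ℝ := ∑' m, ((b m : ℕ) : ℝ) * (1 / 4) ^ n m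

lemma Tree_digit (x : Fin 2) : 0 ≤ ((x : ℕ) : ℝ) ∧ ((x : ℕ) : ℝ) ≤ 1 :=
  ⟨Nat.cast_nonneg _, by exact_mod_cast Nat.lt_succ_iff.1 x.2⟩

lemma Tree_term_le (hn : StrictMono n) (b : ℕ → Fin 2) (N m : ℕ) :
    ((b (m + N) : ℕ) : ℝ) * (1 / 4) ^ n (m + N) ≤ (1 / 4) ^ n N * (1 / 4) ^ m := by
  have h1 : n N + m ≤ n (m + N) := by
    have := hn.add_le_nat m N
    omega
  rw [← pow_add]
  exact (mul_le_of_le_one_left (by positivity) (Tree_digit _).2).trans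
    (pow_le_pow_of_le_one (by norm_num) (by norm_num) h1)

lemma Tree_summable (hn : StrictMono n) (b : ℕ → Fin 2) (N : ℕ) :
    Summable fun m => ((b (m + N) : ℕ) : ℝ) * (1 / 4) ^ n (m + N) :=
  Summable.of_nonneg_of_le (fun _ => by positivity) (Tree_term_le hn b N)
    ((summable_geometric_of_lt_one (by norm_num) (by norm_num)).mul_left _)

lemma Tree_tail (hn : StrictMono n) (b : ℕ → Fin 2) (N : ℕ) : ∃ T, 0 ≤ T ∧
    T ≤ 4 / 3 * (1 / 4) ^ n N ∧
      Tree_pt n b = ∑ m ∈ Finset.range N, ((b m : ℕ) : ℝ) * (1 / 4) ^ n m + T := by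
  refine ⟨∑' m, ((b (m + N) : ℕ) : ℝ) * (1 / 4) ^ n (m + N), tsum_nonneg fun _ => by positivity,
    ?_, ((Tree_summable hn b 0).sum_add_tsum_nat_add N).symm⟩
  refine ((Tree_summable hn b N).tsum_le_tsum (Tree_term_le hn b N)
    ((summable_geometric_of_lt_one (by norm_num) (by norm_num)).mul_left _)).trans (le_of_eq ?_)
  rw [tsum_mul_left, tsum_geometric_of_lt_one (by norm_num) (by norm_num)]
  ring

lemma Tree_close (hn : StrictMono n) {b b' : ℕ → Fin 2} {N : ℕ} (h : ∀ m < N, b m = b' m) :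
    |Tree_pt n b - Tree_pt n b'| ≤ 4 / 3 * (1 / 4) ^ n N := by
  obtain ⟨T, h1, h2, e⟩ := Tree_tail hn b N
  obtain ⟨T', h1', h2', e'⟩ := Tree_tail hn b' N
  rw [e, e', Finset.sum_congr rfl fun m hm => by rw [h m (Finset.mem_range.1 hm)], abs_le]
  constructor <;> linarith only [h1, h2', h2, h1']

lemma Tree_far (hn : StrictMono n) {b b' : ℕ → Fin 2} {N : ℕ} (h : ∀ m < N, b m = b' m)
    (hN : b N ≠ b' N) : 2 / 3 * (1 / 4) ^ n N ≤ |Tree_pt n b - Tree_pt n b'| := by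
  obtain ⟨T, h1, h2, e⟩ := Tree_tail hn b (N + 1)
  obtain ⟨T', h1', h2', e'⟩ := Tree_tail hn b' (N + 1)
  have h3 : (1 / 4 : ℝ) ^ n (N + 1) ≤ (1 / 4) ^ n N * (1 / 4) := by
    rw [← pow_succ]
    exact pow_le_pow_of_le_one (by norm_num) (by norm_num) (hn (Nat.lt_succ_self N))
  rw [e, e', Finset.sum_range_succ, Finset.sum_range_succ,
    Finset.sum_congr rfl fun m hm => by rw [h m (Finset.mem_range.1 hm)], le_abs]
  generalize b N = x at hN
  generalize b' N = y at hN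
  fin_cases x <;> fin_cases y
  · exact absurd rfl hN
  · right
    simp only [Nat.cast_zero, Nat.cast_one]
    linarith only [h2, h1', h3]
  · left
    simp only [Nat.cast_zero, Nat.cast_one]
    linarith only [h1, h2', h3]
  · exact absurd rfl hN

lemma Tree_first {b b' : ℕ → Fin 2} (h : b ≠ b') : ∃ N, (∀ m < N, b m = b' m) ∧ b N ≠ b' N := by
  classical
  have h1 : ∃ N, b N ≠ b' N := Function.ne_iff.1 h
  exact ⟨Nat.find h1, fun m hm => not_not.1 (Nat.find_min h1 hm), Nat.find_spec h1⟩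

lemma Tree_dim (hn : StrictMono n) (h2 : ∀ m, n m ≤ 2 * m) : 0 < dimH (range (Tree_pt n)) := by
  classical
  let f : ℝ → ℝ := fun x => Real.ofDigits (Function.invFun (Tree_pt n) x)
  have hinj : Function.Injective (Tree_pt n) := by
    intro b b' e
    by_contra hne
    obtain ⟨N, h1, h3⟩ := Tree_first hne
    have := Tree_far hn h1 h3
    rw [e, sub_self, abs_zero] at this
    exact absurd this (not_le.2 (by positivity))
  have hf : ∀ b, f (Tree_pt n b) = Real.ofDigits b := fun b =>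
    congrArg Real.ofDigits (Function.leftInverse_invFun hinj b)
  have hH : HolderOnWith 2 (1 / 4) f (range (Tree_pt n)) := by
    rintro _ ⟨b, rfl⟩ _ ⟨b', rfl⟩
    rw [hf, hf]
    by_cases e : b = b'
    · simp [e]
    obtain ⟨N, h1, h3⟩ := Tree_first e
    have k1 := Real.abs_ofDigits_sub_ofDigits_le h1
    have k2 := Tree_far hn h1 h3
    have k3 : (1 / 4 : ℝ) ^ (2 * N) ≤ (1 / 4) ^ n N :=
      pow_le_pow_of_le_one (by norm_num) (by norm_num) (h2 N)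
    have k4 : |Real.ofDigits b - Real.ofDigits b'| ≤
        2 * |Tree_pt n b - Tree_pt n b'| ^ (1 / 4 : ℝ) := by
      refine k1.trans (le_of_pow_le_pow_left₀ (n := 4) (by norm_num) (by positivity) ?_)
      rw [mul_pow, ← Real.rpow_natCast (_ ^ (1 / 4 : ℝ)), ← Real.rpow_mul (abs_nonneg _)]
      have k5 : ((((2 : ℕ) : ℝ) ^ N)⁻¹) ^ 4 = (1 / 4) ^ (2 * N) := by
        rw [← inv_pow, ← pow_mul, mul_comm N, pow_mul, pow_mul]
        norm_num
      have k6 := abs_nonneg (Tree_pt n b - Tree_pt n b')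
      rw [k5, show (1 / 4 : ℝ) * ((4 : ℕ) : ℝ) = 1 by norm_num, Real.rpow_one]
      linarith only [k2, k3, k6]
    rw [edist_dist, edist_dist, Real.dist_eq, Real.dist_eq,
      ENNReal.ofReal_rpow_of_nonneg (abs_nonneg _) (NNReal.coe_nonneg _)]
    refine (ENNReal.ofReal_le_ofReal k4).trans (le_of_eq ?_)
    rw [ENNReal.ofReal_mul (by norm_num)]
    norm_num
  have h3 : Icc (0 : ℝ) 1 ⊆ f '' range (Tree_pt n) := by
    intro y hy
    obtain ⟨b, -, rfl⟩ := Real.ofDigits_SurjOn (b := 2) (by norm_num) hy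
    exact ⟨_, mem_range_self b, hf b⟩
  have h4 := (dimH_mono h3).trans (hH.dimH_image_le (by norm_num))
  rw [Real.dimH_of_nonempty_interior (by simp)] at h4
  by_contra h0
  rw [not_lt, nonpos_iff_eq_zero] at h0
  rw [h0] at h4
  simp at h4

/-- The points with finitely many digits. -/
def Tree_C (n : ℕ → ℕ) (N : ℕ) : Finset ℝ :=
  Finset.univ.image fun b : Fin N → Fin 2 => Tree_pt n fun m => if h : m < N then b ⟨m, h⟩ else 0

lemma Tree_mem {N : ℕ} (b : ℕ → Fin 2) :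
    ∃ b' : ℕ → Fin 2, (∀ m < N, b m = b' m) ∧ Tree_pt n b' ∈ Tree_C n N :=
  ⟨fun m => if h : m < N then b (⟨m, h⟩ : Fin N) else 0, fun m hm => by simp only [dif_pos hm],
    Finset.mem_image.2 ⟨fun m => b m, Finset.mem_univ _, rfl⟩⟩

lemma Tree_of_mem {N : ℕ} {c : ℝ} (h : c ∈ Tree_C n N) :
    ∃ b : ℕ → Fin 2, (∀ m, N ≤ m → b m = 0) ∧ Tree_pt n b = c := by
  obtain ⟨b, -, rfl⟩ := Finset.mem_image.1 h
  exact ⟨_, fun m hm => dif_neg (not_lt.2 hm), rfl⟩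

end

theorem exists_tree {lam θ : ℕ → ℝ} (hl : ∀ j, 0 < lam j) (hθ : ∀ j, 0 < θ j) :
    ∃ (d : ℕ → ℝ) (C : ℕ → Finset ℝ), (∀ j, 0 < d j) ∧ d 0 ≤ 1 ∧
      (∀ j, d (j + 1) ≤ θ j * (lam j * d j)) ∧
      (∀ j, ∀ c ∈ C j, ∀ c' ∈ C j, c ≠ c' → d j ≤ |c - c'|) ∧
      (∀ j, ∀ c ∈ C (j + 1), ∃ c' ∈ C j, |c - c'| ≤ lam j * d j / 2) ∧
      (0 : ℝ) ∈ Kset C (fun j => lam j * d j) ∧ 0 < dimH (Kset C fun j => lam j * d j) := by
  classical
  choose Δ hΔ using fun j => exists_pow_lt_of_lt_one (div_pos (hl j) (by norm_num : (0 : ℝ) < 3))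
    (by norm_num : (1 / 4 : ℝ) < 1)
  choose Γ hΓ using fun j => exists_pow_lt_of_lt_one (mul_pos (hθ j) (hl j))
    (by norm_num : (1 / 4 : ℝ) < 1)
  let g : ℕ → ℕ := fun j => ∑ i ∈ Finset.range j, Δ i
  let A : ℕ → ℕ := fun j => ∑ i ∈ Finset.range j, (Γ i + 1) + g (j + 1)
  have hg : ∀ j, g (j + 1) = g j + Δ j := fun j => Finset.sum_range_succ _ _
  have hA : ∀ j, A (j + 1) = A j + (Γ j + 1) + Δ (j + 1) := fun j => by
    simp only [A, Finset.sum_range_succ, hg (j + 1)]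
    ring
  have gm : Monotone g := monotone_nat_of_le_succ fun j => by rw [hg]; omega
  have Am : StrictMono A := strictMono_nat_of_lt_succ fun j => by rw [hA]; omega
  have gA : ∀ j, g (j + 1) ≤ A j := fun j => Nat.le_add_left _ _
  have ex : ∀ m, ∃ j, m < A j := fun m => ⟨m + 1, Am.id_le (m + 1)⟩
  let lev : ℕ → ℕ := fun m => Nat.find (ex m)
  have lev_le : ∀ {m j}, m < A j → lev m ≤ j := fun h => Nat.find_min' _ h
  have lt_lev : ∀ {m j}, A j ≤ m → j < lev m := fun {m j} h => by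
    by_contra h'
    exact absurd ((Nat.find_spec (ex m)).trans_le (Am.monotone (not_lt.1 h'))) (not_lt.2 h)
  let n : ℕ → ℕ := fun m => m + g (lev m)
  have hn : StrictMono n := strictMono_nat_of_lt_succ fun m => by
    have : g (lev m) ≤ g (lev (m + 1)) :=
      gm (lev_le ((Nat.lt_succ_self m).trans (Nat.find_spec (ex (m + 1)))))
    simp only [n]
    omega
  have hn2 : ∀ m, n m ≤ 2 * m := fun m => by
    have : g (lev m) ≤ m := by
      rcases h : lev m with _ | j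
      · simp [g]
      · exact (gA j).trans (not_lt.1 (Nat.find_min (ex m) (show j < lev m by omega)))
    simp only [n]
    omega
  have tail : ∀ j, 4 / 3 * (1 / 4 : ℝ) ^ n (A j) ≤ lam j * (1 / 4) ^ (A j + g j) / 2 := fun j => by
    have h1 : A j + g j + Δ j ≤ n (A j) := by
      have := gm (lt_lev (le_refl (A j)))
      rw [hg] at this
      simp only [n]
      omega
    have h2 : (1 / 4 : ℝ) ^ n (A j) ≤ (1 / 4) ^ (A j + g j) * (1 / 4) ^ Δ j := by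
      rw [← pow_add]
      exact pow_le_pow_of_le_one (by norm_num) (by norm_num) h1
    have h3 := mul_le_mul_of_nonneg_left (hΔ j).le
      (by positivity : (0 : ℝ) ≤ (1 / 4) ^ (A j + g j))
    have h4 := mul_pos (hl j) (by positivity : (0 : ℝ) < (1 / 4) ^ (A j + g j))
    linarith only [h2, h3, h4]
  have sub : range (Tree_pt n) ⊆
      Kset (fun j => Tree_C n (A j)) fun j => lam j * (1 / 4) ^ (A j + g j) := by
    rintro _ ⟨b, rfl⟩ j
    obtain ⟨b', h1, h2⟩ := Tree_mem (n := n) (N := A j) b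
    exact ⟨_, h2, (Tree_close hn h1).trans (tail j)⟩
  refine ⟨fun j => (1 / 4) ^ (A j + g j), fun j => Tree_C n (A j), fun j => by positivity,
    pow_le_one₀ (by norm_num) (by norm_num), fun j => ?_, fun j c hc c' hc' hne => ?_,
    fun j c hc => ?_, sub ⟨fun _ => 0, by simp [Tree_pt]⟩,
    (Tree_dim hn hn2).trans_le (dimH_mono sub)⟩
  · have h2 : (1 / 4 : ℝ) ^ (A (j + 1) + g (j + 1)) ≤ (1 / 4) ^ Γ j * (1 / 4) ^ (A j + g j) := by
      rw [← pow_add]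
      refine pow_le_pow_of_le_one (by norm_num) (by norm_num) ?_
      rw [hA, hg]
      omega
    rw [← mul_assoc]
    exact h2.trans (mul_le_mul_of_nonneg_right (hΓ j).le (by positivity))
  · obtain ⟨b, h1, rfl⟩ := Tree_of_mem hc
    obtain ⟨b', h1', rfl⟩ := Tree_of_mem hc'
    obtain ⟨N, h2, h3⟩ := Tree_first fun e : b = b' => hne (by rw [e])
    have hN : N < A j := by
      by_contra h
      exact h3 ((h1 N (not_lt.1 h)).trans (h1' N (not_lt.1 h)).symm)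
    have h4 : n N ≤ A j + g j - 1 := by
      have := gm (lev_le hN)
      simp only [n]
      omega
    have h5 : (1 / 4 : ℝ) ^ (A j + g j) ≤ (1 / 4) ^ n N * (1 / 4) := by
      rw [← pow_succ]
      exact pow_le_pow_of_le_one (by norm_num) (by norm_num) (by omega)
    have h6 : (0 : ℝ) ≤ (1 / 4) ^ n N := by positivity
    refine le_trans ?_ (Tree_far hn h2 h3)
    linarith only [h5, h6]
  · obtain ⟨b, -, rfl⟩ := Tree_of_mem hc
    exact sub (mem_range_self b) j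

end

end Pool.Agent.Work.MP_a9fb1f_gt
end

-- merged part: Pool.Agent.Work.MP_a9fb1f_gt.SysDefs
section
/-! The nested system of blocks: definitions. -/

set_option autoImplicit false

open scoped Manifold ContDiff Topology ENNReal Bundle RealInnerProductSpace
open Filter Set

namespace Pool.Agent.Work.MP_a9fb1f_gt

noncomputable section

structure Sys where
  P : ℕ → Par
  C : ℕ → Finset ℝ
  ok : ∀ j, (P j).OK
  link : ∀ j, (P j).i = (P (j + 1)).o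
  m0 : (P 0).o.m = 0
  sep : ∀ j, ∀ c ∈ C j, ∀ c' ∈ C j, c ≠ c' → (P j).o.d ≤ |c - c'|
  nest : ∀ j, ∀ c ∈ C (j + 1), ∃ c' ∈ C j, |c - c'| ≤ (P j).I / 2
  thick : Tendsto (fun j => (P j).i.d / (P j).I) atTop (𝓝 0)
  long : Tendsto (fun j => (P j).L) atTop atTop
  zero : (0 : ℝ) ∈ Kset C fun j => (P j).I
  dim : 0 < dimH (Kset C fun j => (P j).I)

def sh (c : ℝ) (x : ℝ × ℝ) : ℝ × ℝ := (x.1 - c, x.2)

namespace Sys

variable (S : Sys)

def E (i : ℕ) : Ed := fun x => (S.P 0).o.E x +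
  ∑ j ∈ Finset.range i, ∑ c ∈ S.C j, ((S.P j).E (sh c x) - (S.P j).o.E x)

/-- `x` lies in the ball of the block of level `j` with centre `c`. -/
def In (j : ℕ) (c : ℝ) (x : ℝ × ℝ) : Prop := c ∈ S.C j ∧ rr (sh c x) ≤ 3 * (S.P j).R

def K : Set ℝ := Kset S.C fun j => (S.P j).I

end Sys

end

end Pool.Agent.Work.MP_a9fb1f_gt
end

-- merged part: Pool.Agent.Work.MP_a9fb1f_gt.Rad1
section
/-! Sizes of the parameters, the size of the bubble and the path parameter. -/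

set_option autoImplicit false

open scoped Manifold ContDiff Topology ENNReal Bundle RealInnerProductSpace
open Filter Set

namespace Pool.Agent.Work.MP_a9fb1f_gt

noncomputable section

lemma rad1_st0 {x : ℝ} (hx : x ≤ 0) : st x = 0 := Real.smoothTransition.zero_of_nonpos hx

lemma rad1_st1 {x : ℝ} (hx : 1 ≤ x) : st x = 1 := Real.smoothTransition.one_of_one_le hx

lemma rad1_stm (x : ℝ) : 0 ≤ st x ∧ st x ≤ 1 :=
  ⟨Real.smoothTransition.nonneg x, Real.smoothTransition.le_one x⟩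

lemma rad1_conv {c a b : ℝ} (h0 : 0 ≤ c) (h1 : c ≤ 1) (ha : 0 < a) (hb : 0 < b) :
    0 < (1 - c) * a + c * b := by
  rcases h0.eq_or_lt with rfl | h0'
  · simpa using ha
  · linarith only [h1, ha, h0', hb, mul_nonneg (sub_nonneg.2 h1) ha.le, mul_pos h0' hb]

lemma rad1_has2 (P : Par) {r a0 a1 a2 b0 b1 b2 : ℝ} (h1 : Has2 (cut P.I 2) r a0 a1 a2)
    (h2 : Has2 (cut P.R 1) r b0 b1 b2) :
    Has2 P.Sf r ((1 - b0) * ((1 - a0) * P.i.s + a0 * (P.ε * r)) + b0 * P.o.s)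
      ((a1 * (P.ε * r - P.i.s) + a0 * P.ε) * (1 - b0) +
        b1 * (P.o.s - ((1 - a0) * P.i.s + a0 * (P.ε * r))))
      ((a2 * (P.ε * r - P.i.s) + 2 * a1 * P.ε) * (1 - b0) -
        2 * b1 * (a1 * (P.ε * r - P.i.s) + a0 * P.ε) +
        b2 * (P.o.s - ((1 - a0) * P.i.s + a0 * (P.ε * r)))) := by
  have := (((has2_cst 1 r).sub h2).mul ((((has2_cst 1 r).sub h1).mul (has2_cst P.i.s r)).add
    (h1.mul ((has2_id r).smul P.ε)))).add (h2.mul (has2_cst P.o.s r))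
  convert this using 1
  · rfl
  · ring
  · ring

lemma rad1_bound {r e A c0 c1 c2 B1 B2 : ℝ} (hr : 0 < r) (he : 0 ≤ e) (h0 : 0 ≤ c0) (h1 : c0 ≤ 1)
    (hA : |A| ≤ e * r) (b1 : r * |c1| ≤ B1) (b2 : r ^ 2 * |c2| ≤ B2) :
    |c1 * A + c0 * e| ≤ B1 * e + e ∧ r * |c2 * A + 2 * c1 * e| ≤ B2 * e + 2 * B1 * e := by
  have e1 : |c1 * A| ≤ B1 * e := by
    rw [abs_mul]
    linarith only [hA, b1, he, mul_le_mul_of_nonneg_left hA (abs_nonneg c1), mul_le_mul_of_nonneg_right b1 he]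
  have e2 : |c0 * e| ≤ e := by
    rw [abs_of_nonneg (mul_nonneg h0 he)]
    linarith only [he, h1, mul_nonneg_of_nonpos_of_nonpos (Mathlib.Tactic.Linarith.sub_nonpos_of_le he) (Mathlib.Tactic.Linarith.sub_nonpos_of_le h1)]
  have e3 : r * |c2 * A| ≤ B2 * e := by
    rw [abs_mul]
    linarith only [hA, hr, b2, he, mul_le_mul_of_nonneg_left hA (mul_nonneg hr.le (abs_nonneg c2)),
      mul_le_mul_of_nonneg_right b2 he]
  have e4 : r * |2 * c1 * e| ≤ 2 * B1 * e := by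
    rw [abs_mul, abs_mul, abs_of_nonneg he, abs_two]
    linarith only [b1, he, mul_le_mul_of_nonneg_right b1 he]
  refine ⟨(abs_add_le _ _).trans (add_le_add e1 e2), ?_⟩
  linarith only [e3, e4, hr, mul_le_mul_of_nonneg_left (abs_add_le (c2 * A) (2 * c1 * e)) hr.le]

lemma rad1_tau {K q a0 a1 a2 b0 b1 b2 : ℝ} (hK : 1 ≤ K) (q0 : 0 ≤ q) (q1 : q ≤ 1)
    (ha : 0 ≤ a0) (ha' : a0 ≤ 1) (hb : 0 ≤ b0) (hb' : b0 ≤ 1)
    (h1 : |a1| ≤ K) (h2 : |a2| ≤ K) (k1 : |b1| ≤ K) (k2 : |b2| ≤ K) :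
    |a1 * q * b0 + a0 * (b1 * -q)| ≤ 4 * K ^ 2 * q ∧
      |(a2 * q ^ 2 + a1 * 0) * b0 + 2 * (a1 * q) * (b1 * -q) + a0 * (b2 * (-q) ^ 2 + b1 * 0)| ≤
        4 * K ^ 2 * q := by
  have hK0 : 0 ≤ K := by linarith
  have hKK : K ≤ K ^ 2 := by linarith only [hK, mul_nonneg_of_nonpos_of_nonpos (Mathlib.Tactic.Linarith.sub_nonpos_of_le hK) (Mathlib.Tactic.Linarith.sub_nonpos_of_le hK)]
  have m : ∀ {x c : ℝ}, |x| ≤ K → 0 ≤ c → c ≤ 1 → |x * c| ≤ K := fun {x c} hx c0 c1 => by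
    rw [abs_mul, abs_of_nonneg c0]
    linarith only [hx, c1, mul_le_mul_of_nonneg_left c1 (abs_nonneg x)]
  have e1 : |a1 * b0 - b1 * a0| ≤ 4 * K ^ 2 := by
    have := abs_sub (a1 * b0) (b1 * a0)
    linarith [m h1 hb hb', m k1 ha ha']
  have e2 : |a1 * b1| ≤ K ^ 2 := by
    rw [abs_mul, sq]
    exact mul_le_mul h1 k1 (abs_nonneg _) hK0
  have e3 : |a2 * b0 - 2 * (a1 * b1) + b2 * a0| ≤ 4 * K ^ 2 := by
    have t1 := abs_add_le (a2 * b0 - 2 * (a1 * b1)) (b2 * a0)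
    have t2 := abs_sub (a2 * b0) (2 * (a1 * b1))
    rw [abs_mul 2, abs_two] at t2
    linarith [m h2 hb hb', m k2 ha ha']
  constructor
  · rw [show a1 * q * b0 + a0 * (b1 * -q) = (a1 * b0 - b1 * a0) * q by ring, abs_mul,
      abs_of_nonneg q0]
    exact mul_le_mul_of_nonneg_right e1 q0
  · rw [show (a2 * q ^ 2 + a1 * 0) * b0 + 2 * (a1 * q) * (b1 * -q) +
        a0 * (b2 * (-q) ^ 2 + b1 * 0) = (a2 * b0 - 2 * (a1 * b1) + b2 * a0) * q ^ 2 by ring,
      abs_mul, abs_of_nonneg (sq_nonneg q)]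
    exact mul_le_mul e3 (by linarith only [q0, q1, mul_nonneg_of_nonpos_of_nonpos (Mathlib.Tactic.Linarith.sub_nonpos_of_le q0) (Mathlib.Tactic.Linarith.sub_nonpos_of_le q1)]) (sq_nonneg q) (by positivity)

namespace Par.OK

variable {P : Par} (h : P.OK) {r : ℝ}
include h

lemma ι_le : P.ι ≤ 1 / 10 ^ 12 := by
  have h1 := one_le_Kst
  have h2 := h.ιK
  have h3 := h.ι0
  linarith only [h2, h1, h3, mul_nonneg (sub_nonneg.2 (one_le_pow₀ (n := 2) h1)) h3.le]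

lemma Kι : Kst * P.ι ≤ 1 / 10 ^ 12 := by
  have h1 := one_le_Kst
  have h2 := h.ιK
  have h3 := h.ι0
  linarith only [h2, h1, h3, mul_nonneg (mul_nonneg (sub_nonneg.2 h1) (zero_le_one.trans h1)) h3.le]

lemma γ_pos : 0 < P.γ := by
  exact mul_pos (pow_pos h.ι0 2) h.δ0

lemma γ_le : P.γ ≤ P.ι ^ 3 := by
  have := mul_le_mul_of_nonneg_left h.δι (pow_pos h.ι0 2).le
  unfold Par.γ
  linarith

lemma ε_le : P.ε ≤ P.ι ^ 7 * P.o.δ := by
  have h1 : P.o.δ ≤ 1 := h.δι.trans (h.ι_le.trans (by norm_num))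
  have h2 : P.o.δ ^ 3 ≤ P.o.δ := pow_le_of_le_one h.δ0.le h1 (by norm_num)
  have h3 := mul_le_mul_of_nonneg_left h2 (pow_pos h.ι0 7).le
  have h4 := h.εγ
  unfold Par.γ at h4
  calc P.ε ≤ P.ι * (P.ι ^ 2 * P.o.δ) ^ 3 := h4
    _ = P.ι ^ 7 * P.o.δ ^ 3 := by ring
    _ ≤ _ := h3

lemma rad1_ει : P.ε ≤ P.ι := by
  have hι1 : P.ι ≤ 1 := h.ι_le.trans (by norm_num)
  have h1 : P.ι ^ 7 ≤ 1 := pow_le_one₀ h.ι0.le hι1
  have h2 := mul_le_mul_of_nonneg_right h1 h.δ0.le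
  linarith [h.ε_le, h.δι]

lemma L_ge : 10 ^ 12 ≤ P.L ∧ 1 / P.ι ≤ P.L := by
  have h1 := h.rad1_ει
  have hι1 : P.ι ≤ 1 := h.ι_le.trans (by norm_num)
  have h2 : P.ε ^ 10 ≤ P.ε := pow_le_of_le_one h.ε0.le (h1.trans hι1) (by norm_num)
  have h3 := h.Lε
  have hL : 0 < P.L := by
    by_contra hn
    have := mul_nonpos_of_nonpos_of_nonneg (not_lt.1 hn) (pow_pos h.ε0 10).le
    linarith
  have h4 : 1 ≤ P.L * P.ι := h3.trans (mul_le_mul_of_nonneg_left (h2.trans h1) hL.le)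
  have h5 := mul_le_mul_of_nonneg_left h.ι_le hL.le
  refine ⟨by linarith only [h4, h5], ?_⟩
  rwa [div_le_iff₀ h.ι0]

lemma R_pos : 0 < P.R := by
  exact mul_pos h.ι0 h.d0

lemma R2_pos : 0 < P.R2 := by
  exact mul_pos (pow_pos h.ι0 3) h.d0

lemma I_pos : 0 < P.I := by
  rw [h.Ieq]
  exact mul_pos h.R2_pos (Real.exp_pos _)

lemma R2_le : 1000 * P.R2 ≤ P.R := by
  have h1 := h.ι_le
  have h2 := h.ι0
  have h3 : 1000 * P.ι ^ 2 ≤ 1 := by linarith only [h1, h2, mul_nonneg_of_nonpos_of_nonpos (Mathlib.Tactic.Linarith.sub_nonpos_of_le h1) (le_of_lt (Mathlib.Tactic.Linarith.sub_neg_of_lt h2))]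
  have h4 := mul_le_mul_of_nonneg_right h3 h.R_pos.le
  unfold Par.R at h4
  unfold Par.R Par.R2
  linarith only [h4]

lemma I_le : 1000 * P.I ≤ P.R2 := by
  have h1 := h.L_ge.1
  have h2 := Real.add_one_le_exp (4 * P.L)
  have h3 : Real.exp (-4 * P.L) * Real.exp (4 * P.L) = 1 := by
    rw [← Real.exp_add]
    simp
  have h4 := Real.exp_pos (-4 * P.L)
  have h5 : 1000 * Real.exp (-4 * P.L) ≤ 1 := by linarith only [h3, h4, h1, h2, mul_nonneg_of_nonpos_of_nonpos (Mathlib.Tactic.Linarith.sub_nonpos_of_le h1) (le_of_lt (Mathlib.Tactic.Linarith.sub_neg_of_lt h4)), mul_nonneg_of_nonpos_of_nonpos (Mathlib.Tactic.Linarith.sub_nonpos_of_le h2) (le_of_lt (Mathlib.Tactic.Linarith.sub_neg_of_lt h4))]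
  have h6 := mul_le_mul_of_nonneg_left h5 h.R2_pos.le
  rw [h.Ieq]
  linarith

lemma tau_range : 10 * P.I * Real.exp P.L * Real.exp (P.L / 2) * 4 ≤
    P.R2 / 4 * Real.exp (-P.L) := by
  have h1 := h.L_ge.1
  have h2 := Real.add_one_le_exp (3 * P.L / 2)
  have h3 : Real.exp (-4 * P.L) * Real.exp P.L * Real.exp (P.L / 2) * Real.exp (3 * P.L / 2) =
      Real.exp (-P.L) := by
    rw [← Real.exp_add, ← Real.exp_add, ← Real.exp_add]
    congr 1
    ring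
  have h4 : 0 < P.R2 * (Real.exp (-4 * P.L) * Real.exp P.L * Real.exp (P.L / 2)) :=
    mul_pos h.R2_pos (by positivity)
  have h5 := mul_le_mul_of_nonneg_left (show 160 ≤ Real.exp (3 * P.L / 2) by linarith only [h1, h2]) h4.le
  rw [h.Ieq, ← h3]
  linarith only [h5]

lemma log_le : Real.log (2 * P.R / P.I) ≤ 5 * P.L := by
  have h1 := h.L_ge.1
  have h2 := h.L_ge.2
  have hι := h.ι0
  have hd := h.d0
  have hL : 0 < P.L := by linarith only [h1]
  have h3 := Real.pow_div_factorial_le_exp P.L hL.le 3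
  have h4 : (1 / P.ι) ^ 2 ≤ P.L ^ 2 := pow_le_pow_left₀ (by positivity) h2 2
  have h5 : 2 * P.L ^ 2 ≤ Real.exp P.L := by
    refine le_trans ?_ h3
    have : ((Nat.factorial 3 : ℕ) : ℝ) = 6 := by norm_num [Nat.factorial]
    rw [this]
    linarith only [h1, mul_nonneg (sq_nonneg P.L) (show 0 ≤ P.L - 12 by linarith), sq_nonneg P.L]
  have h6 : 2 * P.R / P.I = 2 * (1 / P.ι) ^ 2 * Real.exp (4 * P.L) := by
    rw [h.Ieq, show -4 * P.L = -(4 * P.L) by ring, Real.exp_neg]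
    unfold Par.R Par.R2
    field_simp
  rw [Real.log_le_iff_le_exp (div_pos (by linarith only [h, h.R_pos]) h.I_pos), h6,
    show 5 * P.L = P.L + 4 * P.L by ring, Real.exp_add]
  exact mul_le_mul_of_nonneg_right (by linarith only [h4, h5]) (Real.exp_pos _).le

lemma ok_o : P.o.OK := by
  have h1 := h.ι_le
  have h2 := h.rad1_ει
  refine ⟨h.δ0, h.δι.trans (h1.trans (by norm_num)), h.m0, h.s0, h.sR.trans ?_⟩
  have h3 : P.ε * P.ι ≤ 1 / 10 ^ 4 := by linarith only [h1, h2, h, h.ι0, h.ε0, mul_nonneg_of_nonpos_of_nonpos (Mathlib.Tactic.Linarith.sub_nonpos_of_le h1) (le_of_lt (Mathlib.Tactic.Linarith.sub_neg_of_lt h.ε0))]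
  have h4 := mul_le_mul_of_nonneg_right h3 h.d0.le
  unfold Par.R
  linarith only [h4]

lemma ok_i : P.i.OK := by
  have h1 := h.ι_le
  have hι1 : P.ι ≤ 1 := h1.trans (by norm_num)
  refine ⟨?_, ?_, ?_, h.si0, h.sdi.trans ?_⟩
  · rw [h.δi]
    exact mul_pos (pow_pos h.ι0 4) h.δ0
  · rw [h.δi]
    have h2 : P.ι ^ 4 ≤ 1 := pow_le_one₀ h.ι0.le hι1
    have h3 := mul_le_mul_of_nonneg_right h2 h.δ0.le
    have h4 := h.δι
    linarith only [h1, h3, h4]
  · by_contra hn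
    have h2 := mul_neg_of_neg_of_pos (not_le.1 hn) h.I_pos
    have h3 := mul_pos (pow_pos h.ι0 3) h.δ0
    have h4 := h.mi
    linarith
  · have h2 := mul_le_mul_of_nonneg_right (show P.ι ≤ 1 / 10 ^ 4 by linarith only [h1]) h.di0.le
    linarith only [h2]

lemma contDiff_Sf : ContDiff ℝ ∞ P.Sf := by
  have h1 : ContDiff ℝ ∞ P.c1 := contDiff_cut _ _
  have h2 : ContDiff ℝ ∞ P.c2 := contDiff_cut _ _
  unfold Par.Sf
  fun_prop

lemma Sf_pos (hr : 0 ≤ r) : 0 < P.Sf r := by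
  have h1 : 0 ≤ P.c1 r ∧ P.c1 r ≤ 1 := cut_mem _ _ _
  have h2 : 0 ≤ P.c2 r ∧ P.c2 r ≤ 1 := cut_mem _ _ _
  have h3 : 0 < (1 - P.c1 r) * P.i.s + P.c1 r * (P.ε * r) := by
    rcases hr.eq_or_lt with rfl | hr'
    · have : P.c1 0 = 0 := (has2_cut_low h.I_pos (by linarith [h.I_pos])).v
      rw [this]
      simpa using h.si0
    · exact rad1_conv h1.1 h1.2 h.si0 (mul_pos h.ε0 hr')
  exact rad1_conv h2.1 h2.2 h3 h.s0

lemma Sf_le (hr : P.I ≤ r) : P.Sf r ≤ P.ε * r := by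
  have h1 : 0 ≤ P.c1 r ∧ P.c1 r ≤ 1 := cut_mem _ _ _
  have h2 : 0 ≤ P.c2 r ∧ P.c2 r ≤ 1 := cut_mem _ _ _
  have h3 : P.i.s ≤ P.ε * r := h.si.trans (mul_le_mul_of_nonneg_left hr h.ε0.le)
  have h4 : (1 - P.c1 r) * P.i.s + P.c1 r * (P.ε * r) ≤ P.ε * r := by
    linarith only [h3, h1, mul_le_mul_of_nonneg_left h3 (sub_nonneg.2 h1.2)]
  unfold Par.Sf
  rcases le_total r P.R with hR | hR
  · have : P.c2 r = 0 := (has2_cut_low h.R_pos (by linarith)).v
    rw [this]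
    linarith
  · have h5 : P.o.s ≤ P.ε * r := h.sR.trans (mul_le_mul_of_nonneg_left hR h.ε0.le)
    linarith only [h4, h2, h5, mul_le_mul_of_nonneg_left h4 (sub_nonneg.2 h2.2),
      mul_le_mul_of_nonneg_left h5 h2.1]

lemma rad1_in (hr : r ≤ 2 * P.I) : Has2 P.Sf r P.i.s 0 0 := by
  have hS := rad1_has2 P (has2_cut_low h.I_pos (b := 2) hr)
    (has2_cut_low h.R_pos (b := 1) (by linarith [h.I_le, h.R2_le, h.I_pos]))
  convert hS using 1 <;> ring

lemma Sf_deriv (hr : 0 < r) :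
    |deriv P.Sf r| ≤ 20 * Kst * P.ε ∧ r * |deriv (deriv P.Sf) r| ≤ 20 * Kst * P.ε := by
  have hK := one_le_Kst
  have hε := h.ε0
  have hKε : P.ε ≤ Kst * P.ε := by linarith only [hK, hε, mul_nonneg_of_nonpos_of_nonpos (Mathlib.Tactic.Linarith.sub_nonpos_of_le hK) (le_of_lt (Mathlib.Tactic.Linarith.sub_neg_of_lt hε))]
  have hI := h.I_pos
  have hIR : 3 * P.I ≤ P.R := by linarith [h.I_le, h.R2_le]
  rcases le_total r (2 * P.I) with h0 | h0
  · have hS := h.rad1_in h0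
    rw [hS.d, hS.dd]
    simp only [abs_zero, mul_zero]
    constructor <;> linarith only [hε, hKε]
  rcases le_total r P.R with hR | hR
  · have hS := rad1_has2 P (has2_cut P.I 2 r) (has2_cut_low h.R_pos (b := 1) (by linarith))
    obtain ⟨b1, b2⟩ := deriv_cut_le (a := P.I) (b := 2) hI (by norm_num) hr.le
    have h3 : P.i.s ≤ P.ε * r :=
      h.si.trans (mul_le_mul_of_nonneg_left (by linarith) hε.le)
    obtain ⟨e1, e2⟩ := rad1_bound (A := P.ε * r - P.i.s) (e := P.ε) hr hε.le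
      (cut_mem P.I 2 r).1 (cut_mem P.I 2 r).2
      (abs_le.2 ⟨by linarith only [h3, hε, hr, mul_pos hε hr], by linarith [h.si0]⟩) b1 b2
    rw [hS.d, hS.dd]
    simp only [sub_zero, mul_one, zero_mul, mul_zero, add_zero]
    constructor <;> linarith only [hε, hKε, e1, e2]
  · have hS := rad1_has2 P (has2_cut_high hI (b := 2) (by linarith)) (has2_cut P.R 1 r)
    obtain ⟨b1, b2⟩ := deriv_cut_le (a := P.R) (b := 1) h.R_pos (by norm_num) hr.le
    have h3 : P.o.s ≤ P.ε * r := h.sR.trans (mul_le_mul_of_nonneg_left hR hε.le)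
    have hc := cut_mem P.R 1 r
    rw [← abs_neg] at b1 b2
    obtain ⟨e1, e2⟩ := rad1_bound (A := P.ε * r - P.o.s) (e := P.ε) (c0 := 1 - cut P.R 1 r)
      hr hε.le (by linarith [hc.2]) (by linarith [hc.1])
      (abs_le.2 ⟨by linarith only [h3, hε, hr, mul_pos hε hr], by linarith [h.s0]⟩) b1 b2
    rw [hS.d, hS.dd]
    constructor
    · refine le_trans (le_of_eq ?_) (e1.trans (by linarith only [hε, hKε]))
      congr 1
      ring
    · refine le_trans (le_of_eq ?_) (e2.trans (by linarith only [hε, hKε]))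
      congr 2
      ring

lemma has2_Sf_in (hr : r ≤ 2 * P.I) : Has2 P.Sf r P.i.s 0 0 := by
  exact h.rad1_in hr

lemma has2_Sf_mid (h1 : 3 * P.I ≤ r) (h2 : r ≤ P.R) : Has2 P.Sf r (P.ε * r) P.ε 0 := by
  have hS := rad1_has2 P (has2_cut_high h.I_pos (b := 2) (r := r) (by linarith))
    (has2_cut_low h.R_pos (b := 1) (by linarith))
  convert hS using 1 <;> ring

lemma has2_Sf_out (hr : 2 * P.R ≤ r) : Has2 P.Sf r P.o.s 0 0 := by
  have hS := rad1_has2 P (has2_cut P.I 2 r) (has2_cut_high h.R_pos (b := 1) (by linarith))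
  convert hS using 1 <;> ring

lemma tau_mem (r : ℝ) : 0 ≤ P.tau r ∧ P.tau r ≤ 1 := by
  unfold Par.tau
  exact ⟨mul_nonneg (Real.smoothTransition.nonneg _) (Real.smoothTransition.nonneg _),
    mul_le_one₀ (Real.smoothTransition.le_one _) (Real.smoothTransition.nonneg _)
      (Real.smoothTransition.le_one _)⟩

lemma contDiffAt_tau (hr : 0 < r) : ContDiffAt ℝ ∞ P.tau r := by
  have hl : ContDiffAt ℝ ∞ Real.log r := Real.contDiffAt_log.2 hr.ne'
  unfold Par.tau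
  exact (Real.smoothTransition.contDiffAt.comp r ((hl.sub contDiffAt_const).div_const _)).mul
    (Real.smoothTransition.contDiffAt.comp r ((contDiffAt_const.sub hl).div_const _))

lemma tau_zero (hr : 0 ≤ r) (h1 : r ≤ 10 * P.I ∨ P.R2 / 4 ≤ r) : P.tau r = 0 := by
  have hL : 0 < P.L := by linarith [h.L_ge.1]
  have hR := h.R2_pos
  unfold Par.tau
  rcases hr.eq_or_lt with rfl | hr'
  · have h2 : P.R2 ≤ 1 := mul_le_one₀ (pow_le_one₀ h.ι0.le (h.ι_le.trans (by norm_num)))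
      h.d0.le h.d1
    have h3 : Real.log (P.R2 / 4) ≤ 0 := Real.log_nonpos (by linarith) (by linarith)
    rw [rad1_st0 (x := (Real.log (P.R2 / 4) - Real.log 0) / P.L)
      (div_nonpos_of_nonpos_of_nonneg (by rw [Real.log_zero]; linarith) hL.le), mul_zero]
  · rcases h1 with h1 | h1
    · rw [rad1_st0 (x := (Real.log r - Real.log (10 * P.I)) / P.L)
        (div_nonpos_of_nonpos_of_nonneg (sub_nonpos.2 (Real.log_le_log hr' h1)) hL.le), zero_mul]
    · rw [rad1_st0 (x := (Real.log (P.R2 / 4) - Real.log r) / P.L)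
        (div_nonpos_of_nonpos_of_nonneg (sub_nonpos.2 (Real.log_le_log (by linarith) h1)) hL.le),
        mul_zero]

lemma tau_one (h1 : 10 * P.I * Real.exp P.L ≤ r) (h2 : r ≤ P.R2 / 4 * Real.exp (-P.L)) :
    P.tau r = 1 := by
  have hL : 0 < P.L := by linarith only [h, h.L_ge.1]
  have hR := h.R2_pos
  have hI := h.I_pos
  have h3 : 0 < 10 * P.I * Real.exp P.L := by positivity
  have h4 := Real.log_le_log h3 h1
  have h5 := Real.log_le_log (h3.trans_le h1) h2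
  rw [Real.log_mul (by positivity) (by positivity), Real.log_exp] at h4 h5
  unfold Par.tau
  rw [rad1_st1 (x := (Real.log r - Real.log (10 * P.I)) / P.L)
      (by rw [le_div_iff₀ hL]; linarith),
    rad1_st1 (x := (Real.log (P.R2 / 4) - Real.log r) / P.L)
      (by rw [le_div_iff₀ hL]; linarith only [h5]), mul_one]

lemma has2_tau (hr : 0 < r) : ∃ τ1 τ2 : ℝ,
    Has2 (fun l => P.tau (Real.exp l)) (Real.log r) (P.tau r) τ1 τ2 ∧
      |τ1| ≤ 4 * Kst ^ 2 / P.L ∧ |τ2| ≤ 4 * Kst ^ 2 / P.L ∧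
      (r ≤ 10 * P.I ∨ P.R2 / 4 ≤ r → τ1 = 0 ∧ τ2 = 0) := by
  have hL1 : 1 ≤ P.L := by linarith [h.L_ge.1]
  have hL : 0 < P.L := by linarith
  have hK := one_le_Kst
  set u := (Real.log r - Real.log (10 * P.I)) / P.L with hu
  set v := (Real.log (P.R2 / 4) - Real.log r) / P.L with hv
  have a1 : Has2 (fun l => (l - Real.log (10 * P.I)) / P.L) (Real.log r) u (1 / P.L) 0 := by
    have := ((has2_id (Real.log r)).sub (has2_cst (Real.log (10 * P.I)) _)).smul (1 / P.L)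
    convert this using 1
    · funext l
      ring
    · rw [hu]
      ring
    · ring
    · ring
  have a2 : Has2 (fun l => (Real.log (P.R2 / 4) - l) / P.L) (Real.log r) v (-(1 / P.L)) 0 := by
    have := ((has2_cst (Real.log (P.R2 / 4)) _).sub (has2_id (Real.log r))).smul (1 / P.L)
    convert this using 1
    · funext l
      ring
    · rw [hv]
      ring
    · ring
    · ring
  have hs : ∀ x, Has2 st x (st x) (deriv st x) (deriv (deriv st) x) := fun x =>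
    has2_of_contDiffAt Real.smoothTransition.contDiffAt
  have hm := (a1.comp (hs u)).mul (a2.comp (hs v))
  have e : (fun l => P.tau (Real.exp l)) = fun l => st ((l - Real.log (10 * P.I)) / P.L) *
      st ((Real.log (P.R2 / 4) - l) / P.L) := by
    funext l
    unfold Par.tau
    rw [Real.log_exp]
  have hb := rad1_tau hK (one_div_pos.2 hL).le ((div_le_one hL).2 hL1)
    (rad1_stm u).1 (rad1_stm u).2 (rad1_stm v).1 (rad1_stm v).2
    (Kst_spec u).1 (Kst_spec u).2 (Kst_spec v).1 (Kst_spec v).2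
  refine ⟨_, _, e ▸ hm, hb.1.trans (le_of_eq (by ring)), hb.2.trans (le_of_eq (by ring)), ?_⟩
  rintro (h1 | h1)
  · have := has2_st_low (x := u)
      (div_nonpos_of_nonpos_of_nonneg (sub_nonpos.2 (Real.log_le_log hr h1)) hL.le)
    rw [this.v, this.d, this.dd]
    constructor <;> ring
  · have := has2_st_low (x := v) (div_nonpos_of_nonpos_of_nonneg
      (sub_nonpos.2 (Real.log_le_log (by linarith only [h, h.R2_pos]) h1)) hL.le)
    rw [this.v, this.d, this.dd]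
    constructor <;> ring

end Par.OK

end

end Pool.Agent.Work.MP_a9fb1f_gt
end

-- merged part: Pool.Agent.Work.MP_a9fb1f_gt.Rad2
section
/-! The radial functions. -/

set_option autoImplicit false

open scoped Manifold ContDiff Topology ENNReal Bundle RealInnerProductSpace
open Filter Set

namespace Pool.Agent.Work.MP_a9fb1f_gt

noncomputable section

namespace Par.OK

variable {P : Par} (h : P.OK) {r : ℝ}
include h

omit h in
lemma Rad2_two : (2 : WithTop ℕ∞) ≤ ((⊤ : ℕ∞) : WithTop ℕ∞) :=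
  WithTop.coe_le_coe.2 (le_top : (2 : ℕ∞) ≤ ⊤)

omit h in
lemma Rad2_cut (a b r : ℝ) : HasDerivAt (cut a b) (deriv (cut a b) r) r :=
  ((contDiff_cut a b).differentiable (by simp) r).hasDerivAt

omit h in
lemma Rad2_frac {a r : ℝ} (ha : 0 < a) (hr : 0 < r) :
    HasDerivAt (fun x => x / (x + a)) (a / (r + a) ^ 2) r := by
  have h0 : r + a ≠ 0 := by positivity
  refine ((hasDerivAt_id' r).fun_div ((hasDerivAt_id' r).add_const a) h0).congr_deriv ?_
  ring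

omit h in
lemma Rad2_frac_le {a r : ℝ} (ha : 0 < a) (hr : 0 < r) : r * a / (r + a) ^ 2 ≤ 1 / 4 := by
  rw [div_le_div_iff₀ (by positivity) (by norm_num)]
  linarith only [sq_nonneg (r - a), sq_nonneg (r - a)]

lemma Rad2_L : 0 < P.L := by linarith [h.L_ge.1]

lemma Rad2_γ : P.γ ≤ 1 / 10 ^ 12 ∧ Kst * P.γ ≤ 1 / 10 ^ 12 := by
  have h1 : P.γ ≤ P.ι := by
    refine h.γ_le.trans (pow_le_of_le_one h.ι0.le ?_ (by norm_num))
    linarith only [h, h.ι_le]
  refine ⟨h1.trans h.ι_le, le_trans ?_ h.Kι⟩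
  exact mul_le_mul_of_nonneg_left h1 (by linarith [one_le_Kst])

lemma Rad2_smooth_Nf (hr : 0 < r) : ContDiffAt ℝ ∞ P.Nf r := by
  have hI := h.I_pos
  have h2 := h.R2_pos
  have e1 : r + P.I ≠ 0 := by positivity
  have e2 : r + P.R2 ≠ 0 := by positivity
  have e3 : r / P.I ≠ 0 := by positivity
  refine contDiffAt_const.mul (ContDiffAt.add (ContDiffAt.add ?_ ?_) ?_)
  · exact contDiffAt_id.div (contDiffAt_id.add contDiffAt_const) e1
  · exact ((contDiffAt_id.div_const _).log e3).div_const _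
  · exact contDiffAt_id.div (contDiffAt_id.add contDiffAt_const) e2

lemma Rad2_dNf (hr : 0 < r) : r * deriv P.Nf r =
    P.γ * (r * P.I / (r + P.I) ^ 2 + 1 / (5 * P.L) + r * P.R2 / (r + P.R2) ^ 2) := by
  have hI := h.I_pos
  have hL := h.Rad2_L
  have e3 : r / P.I ≠ 0 := by positivity
  have := (((Rad2_frac hI hr).fun_add (((((hasDerivAt_id' r).div_const P.I)).log e3).div_const
    (5 * P.L))).fun_add (Rad2_frac h.R2_pos hr)).const_mul P.γ
  rw [show deriv P.Nf r = _ from this.deriv]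
  field_simp

lemma Rad2_dNf_mem (hr : 0 < r) : 0 ≤ r * deriv P.Nf r ∧ r * deriv P.Nf r ≤ P.γ := by
  have hI := h.I_pos
  have h2 := h.R2_pos
  have hL := h.Rad2_L
  have hγ := h.γ_pos
  rw [h.Rad2_dNf hr]
  refine ⟨by positivity, mul_le_of_le_one_right hγ.le ?_⟩
  have a1 := Rad2_frac_le hI hr
  have a2 := Rad2_frac_le h2 hr
  have a3 : 1 / (5 * P.L) ≤ 1 / 4 := one_div_le_one_div_of_le (by norm_num)
    (by linarith only [hL, h, h.L_ge.1])
  linarith only [a1, a2, a3]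

lemma Rad2_Nf_mem (h1 : P.I ≤ r) (h2 : r ≤ 2 * P.R) : P.γ / 2 ≤ P.Nf r ∧ P.Nf r ≤ 3 * P.γ := by
  have hI := h.I_pos
  have hR := h.R2_pos
  have hL := h.Rad2_L
  have hγ := h.γ_pos
  have hr : 0 < r := hI.trans_le h1
  have a1 : 1 / 2 ≤ r / (r + P.I) := by
    rw [div_le_div_iff₀ (by norm_num) (by positivity)]
    linarith
  have a2 : r / (r + P.I) ≤ 1 := (div_le_one (by positivity)).2 (by linarith only [hI])
  have a3 : 0 ≤ r / (r + P.R2) := by positivity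
  have a4 : r / (r + P.R2) ≤ 1 := (div_le_one (by positivity)).2 (by linarith only [hR])
  have a5 : 0 ≤ Real.log (r / P.I) / (5 * P.L) :=
    div_nonneg (Real.log_nonneg ((one_le_div hI).2 h1)) (by positivity)
  have a6 : Real.log (r / P.I) / (5 * P.L) ≤ 1 := by
    refine (div_le_one (by positivity)).2 (le_trans ?_ h.log_le)
    exact Real.log_le_log (by positivity) (div_le_div_of_nonneg_right h2 hI.le)
  unfold Par.Nf
  constructor
  · have := mul_le_mul_of_nonneg_left (show 1 / 2 ≤ r / (r + P.I) +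
      Real.log (r / P.I) / (5 * P.L) + r / (r + P.R2) by linarith only [a1, a3, a5]) hγ.le
    linarith only [this]
  · have := mul_le_mul_of_nonneg_left (show r / (r + P.I) +
      Real.log (r / P.I) / (5 * P.L) + r / (r + P.R2) ≤ 3 by linarith only [a2, a4, a6]) hγ.le
    linarith only [this]

lemma Rad2_low (h1 : r ≤ P.I) : Has2 (cut P.I 1) r 0 0 0 :=
  has2_cut_low h.I_pos (by linarith)

lemma Rad2_high (h1 : 2 * P.I ≤ r) : Has2 (cut P.I 1) r 1 0 0 :=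
  has2_cut_high h.I_pos (by linarith)

lemma Rad2_low2 (h1 : r ≤ P.R) : Has2 (cut P.R 1) r 0 0 0 :=
  has2_cut_low h.R_pos (by linarith)

lemma Rad2_high2 (h1 : 2 * P.R ≤ r) : Has2 (cut P.R 1) r 1 0 0 :=
  has2_cut_high h.R_pos (by linarith)

lemma Rad2_dnu (hr : 0 < r) : r * deriv P.nu r =
    r * deriv (cut P.I 1) r * (1 - cut P.R 1 r) * P.Nf r -
      cut P.I 1 r * (r * deriv (cut P.R 1) r) * P.Nf r +
      cut P.I 1 r * (1 - cut P.R 1 r) * (r * deriv P.Nf r) := by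
  have := ((Rad2_cut P.I 1 r).fun_mul ((Rad2_cut P.R 1 r).const_sub 1)).fun_mul
    ((h.Rad2_smooth_Nf hr).differentiableAt (by simp)).hasDerivAt
  rw [show deriv P.nu r = _ from this.deriv]
  ring

lemma contDiffAt_nu (hr : 0 < r) : ContDiffAt ℝ ∞ P.nu r :=
  ((contDiff_cut _ _).contDiffAt.mul (contDiffAt_const.sub (contDiff_cut _ _).contDiffAt)).mul
    (h.Rad2_smooth_Nf hr)

lemma Rad2_zero (h1 : r ≤ P.I ∨ 2 * P.R ≤ r) : P.nu r = 0 := by
  unfold Par.nu Par.c2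
  rcases h1 with h1 | h1
  · rw [(h.Rad2_low h1).v, zero_mul, zero_mul]
  · rw [(h.Rad2_high2 h1).v, sub_self, mul_zero, zero_mul]

lemma nu_mem (r : ℝ) : 0 ≤ P.nu r ∧ P.nu r ≤ 3 * P.γ := by
  have hγ := h.γ_pos
  by_cases h1 : r ≤ P.I ∨ 2 * P.R ≤ r
  · rw [h.Rad2_zero h1]
    exact ⟨le_rfl, by positivity⟩
  · push Not at h1
    obtain ⟨a1, a2⟩ := h.Rad2_Nf_mem h1.1.le h1.2.le
    obtain ⟨b1, b2⟩ := cut_mem P.I 1 r
    obtain ⟨c1, c2⟩ := cut_mem P.R 1 r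
    have d1 : 0 ≤ cut P.I 1 r * (1 - cut P.R 1 r) := mul_nonneg b1 (by linarith only [c2])
    have d2 : cut P.I 1 r * (1 - cut P.R 1 r) ≤ 1 := mul_le_one₀ b2 (by linarith) (by linarith)
    have d3 : 0 ≤ P.Nf r := by linarith only [hγ, a1]
    exact ⟨mul_nonneg d1 d3, (mul_le_of_le_one_left d3 d2).trans a2⟩

lemma nu_zero (h1 : r ≤ P.I ∨ 2 * P.R ≤ r) : P.nu r = 0 :=
  h.Rad2_zero h1

lemma nu_ge (h1 : 2 * P.I ≤ r) (h2 : r ≤ P.R) : P.γ / 2 ≤ P.nu r := by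
  unfold Par.nu Par.c2
  rw [(h.Rad2_high h1).v, (h.Rad2_low2 h2).v, sub_zero, one_mul, one_mul]
  exact (h.Rad2_Nf_mem (by linarith [h.I_pos]) (by linarith [h.R_pos])).1

lemma nu_deriv_abs (hr : 0 < r) : |r * deriv P.nu r| ≤ 20 * Kst * P.γ := by
  have hγ := h.γ_pos
  have hK := one_le_Kst
  have h0 : 0 ≤ 20 * Kst * P.γ := by positivity
  rw [h.Rad2_dnu hr]
  rcases le_or_gt r P.I with h1 | h1
  · simpa [(h.Rad2_low h1).v, (h.Rad2_low h1).d] using h0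
  rcases le_or_gt (2 * P.R) r with h2 | h2
  · simpa [(h.Rad2_high2 h2).v, (h.Rad2_high2 h2).d] using h0
  obtain ⟨a1, a2⟩ := h.Rad2_Nf_mem h1.le h2.le
  obtain ⟨b1, b2⟩ := cut_mem P.I 1 r
  obtain ⟨c1, c2⟩ := cut_mem P.R 1 r
  obtain ⟨d1, d2⟩ := h.Rad2_dNf_mem hr
  have e1 := (deriv_cut_le h.I_pos zero_le_one hr.le).1
  have e2 := (deriv_cut_le h.R_pos zero_le_one hr.le).1
  have f1 : 0 ≤ deriv (cut P.I 1) r := deriv_cut_nonneg h.I_pos
  have f2 : 0 ≤ deriv (cut P.R 1) r := deriv_cut_nonneg h.R_pos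
  rw [abs_of_nonneg f1] at e1
  rw [abs_of_nonneg f2] at e2
  have a0 : 0 ≤ P.Nf r := by linarith only [hγ, a1]
  have c0 : 0 ≤ 1 - cut P.R 1 r := by linarith only [c2]
  have g1 : 0 ≤ r * deriv (cut P.I 1) r * (1 - cut P.R 1 r) * P.Nf r := by positivity
  have g2 : 0 ≤ cut P.I 1 r * (r * deriv (cut P.R 1) r) * P.Nf r := by positivity
  have g3 : 0 ≤ cut P.I 1 r * (1 - cut P.R 1 r) * (r * deriv P.Nf r) := by positivity
  have k1 : r * deriv (cut P.I 1) r * (1 - cut P.R 1 r) * P.Nf r ≤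
      (1 + 1) * Kst * 1 * (3 * P.γ) := by
    gcongr
    linarith only [c1]
  have k2 : cut P.I 1 r * (r * deriv (cut P.R 1) r) * P.Nf r ≤
      1 * ((1 + 1) * Kst) * (3 * P.γ) := by gcongr
  have k3 : cut P.I 1 r * (1 - cut P.R 1 r) * (r * deriv P.Nf r) ≤ 1 * 1 * P.γ := by
    gcongr
    linarith only [c1]
  have k4 : P.γ ≤ Kst * P.γ := le_mul_of_one_le_left hγ.le hK
  rw [abs_le]
  constructor <;> linarith only [hγ, g1, g3, k2, k4, g2, k1, k3]

lemma nu_deriv_nonneg (hr : 0 < r) (h2 : r ≤ P.R) : 0 ≤ r * deriv P.nu r := by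
  rw [h.Rad2_dnu hr, (h.Rad2_low2 h2).v, (h.Rad2_low2 h2).d]
  rcases le_or_gt r P.I with h1 | h1
  · simp [(h.Rad2_low h1).v, (h.Rad2_low h1).d]
  have a0 : 0 ≤ P.Nf r := by
    linarith only [h, h1, hr, h2, (h.Rad2_Nf_mem h1.le (by linarith [h.R_pos])).1, h.γ_pos]
  have b1 := (cut_mem P.I 1 r).1
  have d1 := (h.Rad2_dNf_mem hr).1
  have f1 : 0 ≤ deriv (cut P.I 1) r := deriv_cut_nonneg h.I_pos
  simp only [sub_zero, mul_one, mul_zero, zero_mul]
  positivity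

lemma Rad2_dmid (h1 : 2 * P.I ≤ r) (h2 : r ≤ P.R) : r * deriv P.nu r =
    P.γ * (r * P.I / (r + P.I) ^ 2 + 1 / (5 * P.L) + r * P.R2 / (r + P.R2) ^ 2) := by
  have hr : 0 < r := by linarith [h.I_pos]
  rw [h.Rad2_dnu hr, (h.Rad2_low2 h2).v, (h.Rad2_low2 h2).d, (h.Rad2_high h1).v,
    (h.Rad2_high h1).d, h.Rad2_dNf hr]
  ring

lemma nu_deriv_mid (h1 : 2 * P.I ≤ r) (h2 : r ≤ P.R) : P.γ / (5 * P.L) ≤ r * deriv P.nu r := by
  have hI := h.I_pos
  have hR := h.R2_pos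
  have hr : 0 < r := by linarith
  have a1 : 0 ≤ r * P.I / (r + P.I) ^ 2 := by positivity
  have a2 : 0 ≤ r * P.R2 / (r + P.R2) ^ 2 := by positivity
  rw [h.Rad2_dmid h1 h2, div_eq_mul_one_div]
  exact mul_le_mul_of_nonneg_left (by linarith only [a1, a2]) h.γ_pos.le

lemma nu_deriv_in (h1 : 3 * P.I ≤ r) (h2 : r ≤ 4 * P.I) : P.γ / 7 ≤ r * deriv P.nu r := by
  have hI := h.I_pos
  have hR := h.R2_pos
  have hL := h.Rad2_L
  have hr : 0 < r := by linarith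
  have a1 : 1 / 7 ≤ r * P.I / (r + P.I) ^ 2 := by
    rw [div_le_div_iff₀ (by norm_num) (by positivity)]
    linarith only [h1, h2, hI, mul_nonneg (sub_nonneg.2 h1) (sub_nonneg.2 h2), mul_pos hI hI, mul_pos hr hI, mul_nonneg_of_nonpos_of_nonpos (Mathlib.Tactic.Linarith.sub_nonpos_of_le h2) (Mathlib.Tactic.Linarith.sub_nonpos_of_le h2)]
  have a2 : 0 ≤ r * P.R2 / (r + P.R2) ^ 2 := by positivity
  have a3 : 0 ≤ 1 / (5 * P.L) := by positivity
  rw [h.Rad2_dmid (by linarith only [h1, hI]) (by linarith only [h2, hI, h, h.I_le, h.R2_le]), div_eq_mul_one_div]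
  exact mul_le_mul_of_nonneg_left (by linarith only [a1, a2, a3]) h.γ_pos.le

lemma nu_deriv_out (h1 : P.R2 ≤ r) (h2 : r ≤ 2 * P.R2) : P.γ / 7 ≤ r * deriv P.nu r := by
  have hI := h.I_pos
  have hR := h.R2_pos
  have hL := h.Rad2_L
  have hr : 0 < r := by linarith
  have a1 : 1 / 7 ≤ r * P.R2 / (r + P.R2) ^ 2 := by
    rw [div_le_div_iff₀ (by norm_num) (by positivity)]
    linarith only [h1, h2, mul_nonneg (sub_nonneg.2 h1) (sub_nonneg.2 h2), mul_pos hR hR, mul_pos hr hR, mul_self_nonneg P.R2, sq_nonneg (r + P.R2)]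
  have a2 : 0 ≤ r * P.I / (r + P.I) ^ 2 := by positivity
  have a3 : 0 ≤ 1 / (5 * P.L) := by positivity
  rw [h.Rad2_dmid (by linarith only [h1, hI, h, h.I_le]) (by linarith only [h2, hR, h, h.R2_le]), div_eq_mul_one_div]
  exact mul_le_mul_of_nonneg_left (by linarith only [a1, a2, a3]) h.γ_pos.le

lemma Rad2_smooth_q : ContDiff ℝ ∞ fun s => P.nu s / s := by
  refine contDiff_iff_contDiffAt.2 fun s => ?_
  rcases lt_or_ge s P.I with h1 | h1
  · refine (contDiffAt_const (c := (0 : ℝ))).congr_of_eventuallyEq ?_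
    filter_upwards [Iio_mem_nhds h1] with x hx
    rw [h.nu_zero (.inl (le_of_lt hx)), zero_div]
  · have h0 := h.I_pos.trans_le h1
    exact (h.contDiffAt_nu h0).div contDiffAt_id h0.ne'

lemma Rad2_dOi (r : ℝ) : HasDerivAt P.Oi (-P.nu r / r) r := by
  rw [neg_div]
  exact (h.Rad2_smooth_q.continuous.integral_hasStrictDerivAt P.I r).hasDerivAt.fun_neg

lemma Rad2_dOo (r : ℝ) : HasDerivAt P.Oo (-P.nu r / r) r := by
  rw [neg_div]
  have := (h.Rad2_smooth_q.continuous.integral_hasStrictDerivAt (2 * P.R) r).hasDerivAt.fun_neg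
  exact this.congr_of_eventuallyEq (.of_forall fun x => intervalIntegral.integral_symm _ _)

lemma Rad2_prim {f : ℝ → ℝ} (hf : ∀ r, HasDerivAt f (-P.nu r / r) r) : ContDiff ℝ ∞ f := by
  refine contDiff_infty_iff_deriv.2 ⟨fun r => (hf r).differentiableAt, ?_⟩
  rw [show deriv f = fun s => -(P.nu s / s) from funext fun r => by rw [(hf r).deriv, neg_div]]
  exact h.Rad2_smooth_q.neg

lemma Rad2_smooth_om0 : ContDiff ℝ ∞ P.om0 :=
  ((contDiff_cut _ _).mul (h.Rad2_prim h.Rad2_dOo)).add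
    ((contDiff_const.sub (contDiff_cut _ _)).mul (h.Rad2_prim h.Rad2_dOi))

lemma Rad2_has2 {f : ℝ → ℝ} (hf : ∀ r, HasDerivAt f (-P.nu r / r) r) (hr : 0 < r) :
    Has2 f r (f r) (-P.nu r / r) (-deriv P.nu r / r + P.nu r / r ^ 2) := by
  refine has2_of_hasDerivAt (h' := fun r => -P.nu r / r)
    ((h.Rad2_prim hf).contDiffAt.of_le Rad2_two) (.of_forall hf) ?_
  have := ((h.contDiffAt_nu hr).differentiableAt (by simp)).hasDerivAt
  refine (this.fun_neg.fun_div (hasDerivAt_id' r) hr.ne').congr_deriv ?_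
  field_simp
  ring

lemma Rad2_ao_low (h1 : r ≤ P.R2 / 4) : Has2 (cut (P.R2 / 4) 1) r 0 0 0 :=
  has2_cut_low (by linarith only [h, h.R2_pos]) (by linarith only [h1])

lemma Rad2_ao_high (h1 : P.R2 / 2 ≤ r) : Has2 (cut (P.R2 / 4) 1) r 1 0 0 :=
  has2_cut_high (by linarith only [h, h.R2_pos]) (by linarith only [h1])

lemma Rad2_ai_low (h1 : r ≤ 5 * P.I) : Has2 (cut (5 * P.I) 1) r 0 0 0 :=
  has2_cut_low (by linarith [h.I_pos]) (by linarith)

lemma Rad2_ai_high (h1 : 10 * P.I ≤ r) : Has2 (cut (5 * P.I) 1) r 1 0 0 :=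
  has2_cut_high (by linarith [h.I_pos]) (by linarith)

lemma contDiffAt_om0 (hr : 0 < r) : ContDiffAt ℝ ∞ P.om0 r :=
  h.Rad2_smooth_om0.contDiffAt

lemma has2_om0 (hr : 0 < r) (h1 : r < 5 * P.I ∨ P.R2 / 2 < r) :
    Has2 P.om0 r (P.om0 r) (-P.nu r / r) (-deriv P.nu r / r + P.nu r / r ^ 2) := by
  have hI := h.I_pos
  have hI' := h.I_le
  rcases h1 with h1 | h1
  · have e : P.om0 =ᶠ[𝓝 r] P.Oi := by
      filter_upwards [Iio_mem_nhds h1] with x hx
      have hx' : x < 5 * P.I := hx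
      unfold Par.om0 Par.ao Par.ai
      rw [(h.Rad2_ao_low (by linarith only [hI, hI', hx'])).v, (h.Rad2_ai_low hx'.le).v]
      ring
    rw [e.eq_of_nhds]
    exact (h.Rad2_has2 h.Rad2_dOi hr).congr e
  · have e : P.om0 =ᶠ[𝓝 r] P.Oo := by
      filter_upwards [Ioi_mem_nhds h1] with x hx
      have hx' : P.R2 / 2 < x := hx
      unfold Par.om0 Par.ao Par.ai
      rw [(h.Rad2_ao_high hx'.le).v, (h.Rad2_ai_high (by linarith only [hI, hI', hx'])).v]
      ring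
    rw [e.eq_of_nhds]
    exact (h.Rad2_has2 h.Rad2_dOo hr).congr e

lemma Rad2_Oi_zero (h1 : r ≤ P.I) : P.Oi r = 0 := by
  unfold Par.Oi
  rw [intervalIntegral.integral_congr (g := fun _ => 0), intervalIntegral.integral_zero, neg_zero]
  intro s hs
  rw [uIcc_of_ge h1] at hs
  simp only [h.nu_zero (.inl hs.2), zero_div]

lemma Rad2_Oo_zero (h1 : 2 * P.R ≤ r) : P.Oo r = 0 := by
  unfold Par.Oo
  rw [intervalIntegral.integral_congr (g := fun _ => 0), intervalIntegral.integral_zero]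
  intro s hs
  rw [uIcc_of_ge h1] at hs
  simp only [h.nu_zero (.inr hs.1), zero_div]

lemma om0_zero (hr : 0 ≤ r) (h1 : r ≤ P.I ∨ (10 * P.I ≤ r ∧ r ≤ P.R2 / 4) ∨ 2 * P.R ≤ r) :
    P.om0 r = 0 := by
  have hI := h.I_pos
  have hI' := h.I_le
  have hR' := h.R2_le
  unfold Par.om0 Par.ao Par.ai
  rcases h1 with h1 | h1 | h1
  · rw [(h.Rad2_ao_low (by linarith only [hI, hI', h1])).v, h.Rad2_Oi_zero h1]
    ring
  · rw [(h.Rad2_ao_low h1.2).v, (h.Rad2_ai_high h1.1).v]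
    ring
  · rw [h.Rad2_Oo_zero h1, (h.Rad2_ai_high (by linarith)).v]
    ring

lemma Rad2_int {a b c : ℝ} (ha : 0 < a) (hb : a ≤ b) (hc : b ≤ c) :
    |∫ s in b..c, P.nu s / s| ≤ 3 * P.γ / a * (c - b) := by
  have := intervalIntegral.norm_integral_le_of_norm_le_const (a := b) (b := c)
    (C := 3 * P.γ / a) (f := fun s => P.nu s / s) fun s hs => by
      rw [uIoc_of_le hc] at hs
      have h1 : a ≤ s := hb.trans hs.1.le
      have h2 := ha.trans_le h1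
      obtain ⟨a1, a2⟩ := h.nu_mem s
      rw [Real.norm_of_nonneg (by positivity)]
      exact div_le_div₀ (a1.trans a2) a2 ha h1
  rwa [abs_of_nonneg (sub_nonneg.2 hc)] at this

lemma Rad2_Oi_abs (h1 : r ≤ 10 * P.I) : |P.Oi r| ≤ 27 * P.ι := by
  have hι := h.ι0
  have hI := h.I_pos
  have hγ := h.γ_pos
  rcases le_total r P.I with h2 | h2
  · rw [h.Rad2_Oi_zero h2, abs_zero]
    positivity
  · unfold Par.Oi
    rw [abs_neg]
    refine (h.Rad2_int hI le_rfl h2).trans ?_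
    have h3 : P.γ ≤ P.ι := h.γ_le.trans (pow_le_of_le_one hι.le (by linarith only [h, h.ι_le])
      (by norm_num))
    calc 3 * P.γ / P.I * (r - P.I) ≤ 3 * P.γ / P.I * (9 * P.I) := by
          gcongr
          linarith
      _ = 27 * P.γ := by field_simp; ring
      _ ≤ 27 * P.ι := by linarith

lemma Rad2_Oo_abs (h1 : P.R2 / 4 ≤ r) : |P.Oo r| ≤ 24 * P.ι := by
  have hι := h.ι0
  have hR := h.R2_pos
  have hγ := h.γ_pos
  have hd := h.d0
  rcases le_total (2 * P.R) r with h2 | h2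
  · rw [h.Rad2_Oo_zero h2, abs_zero]
    positivity
  · refine (h.Rad2_int (by positivity) h1 h2).trans ?_
    calc 3 * P.γ / (P.R2 / 4) * (2 * P.R - r) ≤ 3 * P.γ / (P.R2 / 4) * (2 * P.R) := by
          gcongr
          linarith only [h1, hR]
      _ = 24 * P.o.δ := by
          unfold Par.γ Par.R2 Par.R
          field_simp
          ring
      _ ≤ 24 * P.ι := by linarith [h.δι]

omit h in
lemma Rad2_prod {a b x y : ℝ} (ha : |a| ≤ x) (hb : |b| ≤ y) : |a * b| ≤ x * y := by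
  rw [abs_mul]
  exact mul_le_mul ha hb (abs_nonneg _) ((abs_nonneg _).trans ha)

lemma Rad2_dom0 (hr : 0 < r) : r * deriv P.om0 r =
    r * deriv (cut (P.R2 / 4) 1) r * P.Oo r - r * deriv (cut (5 * P.I) 1) r * P.Oi r -
      (cut (P.R2 / 4) 1 r + (1 - cut (5 * P.I) 1 r)) * P.nu r := by
  have := ((Rad2_cut (P.R2 / 4) 1 r).fun_mul (h.Rad2_dOo r)).fun_add
    (((Rad2_cut (5 * P.I) 1 r).const_sub 1).fun_mul (h.Rad2_dOi r))
  rw [show deriv P.om0 r = _ from this.deriv]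
  field_simp
  ring

lemma om0_abs (hr : 0 < r) : |P.om0 r| ≤ 1 / 10 ∧ |r * deriv P.om0 r| ≤ 1 / 10 := by
  have hι := h.ι0
  have hι' := h.ι_le
  have hK := h.Kι
  have hK0 := one_le_Kst
  have hγ := h.Rad2_γ.1
  obtain ⟨b1, b2⟩ := cut_mem (P.R2 / 4) 1 r
  obtain ⟨c1, c2⟩ := cut_mem (5 * P.I) 1 r
  obtain ⟨n1, n2⟩ := h.nu_mem r
  have a1 : |cut (P.R2 / 4) 1 r * P.Oo r| ≤ 1 * (24 * P.ι) ∧
      |r * deriv (cut (P.R2 / 4) 1) r * P.Oo r| ≤ (1 + 1) * Kst * (24 * P.ι) := by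
    rcases le_total r (P.R2 / 4) with h1 | h1
    · rw [(h.Rad2_ao_low h1).v, (h.Rad2_ao_low h1).d, mul_zero, zero_mul, abs_zero]
      exact ⟨by positivity, by positivity⟩
    · refine ⟨Rad2_prod (by rwa [abs_of_nonneg b1]) (h.Rad2_Oo_abs h1),
        Rad2_prod ?_ (h.Rad2_Oo_abs h1)⟩
      rw [abs_mul, abs_of_pos hr]
      exact (deriv_cut_le (by linarith only [h, h.R2_pos]) zero_le_one hr.le).1
  have a2 : |(1 - cut (5 * P.I) 1 r) * P.Oi r| ≤ 1 * (27 * P.ι) ∧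
      |r * deriv (cut (5 * P.I) 1) r * P.Oi r| ≤ (1 + 1) * Kst * (27 * P.ι) := by
    rcases le_total (10 * P.I) r with h1 | h1
    · rw [(h.Rad2_ai_high h1).v, (h.Rad2_ai_high h1).d, mul_zero, sub_self, zero_mul, abs_zero]
      exact ⟨by positivity, by positivity⟩
    · refine ⟨Rad2_prod (by rw [abs_of_nonneg (by linarith only [c2])]; linarith only [c1]) (h.Rad2_Oi_abs h1),
        Rad2_prod ?_ (h.Rad2_Oi_abs h1)⟩
      rw [abs_mul, abs_of_pos hr]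
      exact (deriv_cut_le (by linarith only [hr, h1, h.I_pos]) zero_le_one hr.le).1
  have a3 : |(cut (P.R2 / 4) 1 r + (1 - cut (5 * P.I) 1 r)) * P.nu r| ≤ 2 * (3 * P.γ) :=
    Rad2_prod (by rw [abs_of_nonneg (by linarith only [b1, c2])]; linarith only [b2, c1]) (by rwa [abs_of_nonneg n1])
  obtain ⟨a1, a1'⟩ := a1
  obtain ⟨a2, a2'⟩ := a2
  rw [abs_le] at a1 a1' a2 a2' a3
  rw [h.Rad2_dom0 hr, abs_le, abs_le]
  unfold Par.om0 Par.ao Par.ai
  refine ⟨⟨?_, ?_⟩, ?_, ?_⟩ <;> linarith only [hι, hι', a1, a2, hK, hγ, a3, a1', a2', a1.1, a1.2, a2.1, a2.2, a1'.1, a1'.2, a2'.1, a2'.2,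
    a3.1, a3.2]

lemma Rad2_den (r : ℝ) : 9 / 10 ≤ 1 - P.nu r ∧ 1 - P.nu r ≤ 1 := by
  obtain ⟨n1, n2⟩ := h.nu_mem r
  constructor <;> linarith only [n2, h, n1, h.Rad2_γ.1]

lemma contDiffAt_kf (hr : 0 < r) : ContDiffAt ℝ ∞ P.kf r := by
  refine ContDiffAt.div (contDiffAt_const.add (contDiffAt_id.mul ?_))
    (contDiffAt_const.sub (h.contDiffAt_nu hr)) (by linarith only [h, (h.Rad2_den r).1])
  exact (contDiff_infty_iff_deriv.1 h.Rad2_smooth_om0).2.contDiffAt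

lemma kf_mem (hr : 0 < r) : 1 / 2 ≤ P.kf r ∧ P.kf r ≤ 2 := by
  obtain ⟨n1, n2⟩ := h.Rad2_den r
  obtain ⟨a1, a2⟩ := abs_le.1 (h.om0_abs hr).2
  unfold Par.kf
  rw [le_div_iff₀ (by linarith only [n1]), div_le_iff₀ (by linarith only [n1])]
  constructor <;> linarith only [n2, a1, n1, a2]

lemma kf_one (hr : 0 ≤ r) (h1 : r < 5 * P.I ∨ P.R2 / 2 < r) : P.kf r = 1 := by
  have n1 := (h.Rad2_den r).1
  unfold Par.kf
  rw [div_eq_one_iff_eq (by linarith only [n1])]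
  rcases hr.eq_or_lt with rfl | hr
  · rw [h.nu_zero (.inl h.I_pos.le)]
    ring
  · rw [(h.has2_om0 hr h1).d]
    field_simp
    ring

lemma has2_kf (hr : 0 < r) : ∃ k1 k2 : ℝ,
    Has2 (fun l => P.kf (Real.exp l)) (Real.log r) (P.kf r) k1 k2 ∧
      Has2 (fun l => P.om0 (Real.exp l) + l) (Real.log r) (P.om0 r + Real.log r)
        (P.kf r * (1 - P.nu r)) (k1 * (1 - P.nu r) - P.kf r * (r * deriv P.nu r)) ∧
      (10 * P.I < r → r < P.R2 / 4 → |k1| ≤ 1) := by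
  have he := Real.exp_log hr
  have hk : ContDiffAt ℝ 2 (fun l => P.kf (Real.exp l)) (Real.log r) :=
    ContDiffAt.comp (g := P.kf) _ (he.symm ▸ (h.contDiffAt_kf hr).of_le Rad2_two)
      Real.contDiff_exp.contDiffAt
  have H1 := has2_of_contDiffAt hk
  have hO : ∀ l, HasDerivAt (fun l => P.om0 (Real.exp l) + l)
      (P.kf (Real.exp l) * (1 - P.nu (Real.exp l))) l := fun l => by
    have := (((h.Rad2_smooth_om0.differentiable (by simp) _).hasDerivAt.comp l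
      (Real.hasDerivAt_exp l))).fun_add (hasDerivAt_id' l)
    refine this.congr_deriv ?_
    unfold Par.kf
    rw [div_mul_cancel₀ _ (by linarith only [h, (h.Rad2_den (Real.exp l)).1])]
    ring
  have hν : HasDerivAt (fun l => P.nu (Real.exp l)) (deriv P.nu r * r) (Real.log r) := by
    have h1 : HasDerivAt P.nu (deriv P.nu r) (Real.exp (Real.log r)) :=
      he.symm ▸ ((h.contDiffAt_nu hr).differentiableAt (by simp)).hasDerivAt
    have := h1.comp _ (Real.hasDerivAt_exp (Real.log r))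
    rwa [he] at this
  have H2 := has2_of_hasDerivAt (h := fun l => P.om0 (Real.exp l) + l) (x := Real.log r)
    (((h.Rad2_smooth_om0.comp Real.contDiff_exp).add contDiff_id).contDiffAt.of_le Rad2_two)
    (.of_forall hO) ((hk.differentiableAt (by simp)).hasDerivAt.fun_mul (hν.const_sub 1))
  simp only [he] at H1 H2
  refine ⟨_, _, H1, by convert H2 using 1; ring, fun h1 h2 => ?_⟩
  have e : (fun l => P.om0 (Real.exp l) + l) =ᶠ[𝓝 (Real.log r)] fun l => l := by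
    have : ∀ᶠ l in 𝓝 (Real.log r), Real.exp l ∈ Ioo (10 * P.I) (P.R2 / 4) :=
      Real.continuous_exp.continuousAt.eventually_mem (he.symm ▸ Ioo_mem_nhds h1 h2)
    filter_upwards [this] with l hl
    rw [h.om0_zero (Real.exp_pos l).le (.inr (.inl ⟨hl.1.le, hl.2.le⟩)), zero_add]
  have e2 := (H2.unique ((has2_id _).congr e)).2.2
  obtain ⟨n1, n2⟩ := h.Rad2_den r
  obtain ⟨k1, k2⟩ := h.kf_mem hr
  have a1 : |P.kf r * (r * deriv P.nu r)| ≤ 2 * (20 * Kst * P.γ) :=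
    Rad2_prod (by rwa [abs_of_nonneg (by linarith only [k1])]) (h.nu_deriv_abs hr)
  rw [show P.kf r * (r * deriv P.nu r) =
    deriv (fun l => P.kf (Real.exp l)) (Real.log r) * (1 - P.nu r) by linarith only [e2], abs_mul,
    abs_of_nonneg (a := 1 - P.nu r) (by linarith only [n1])] at a1
  have a2 := mul_le_mul_of_nonneg_left n1
    (abs_nonneg (deriv (fun l => P.kf (Real.exp l)) (Real.log r)))
  linarith only [a1, a2, h, h.Rad2_γ.2]

end Par.OK

end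

end Pool.Agent.Work.MP_a9fb1f_gt
end

-- merged part: Pool.Agent.Work.MP_a9fb1f_gt.MasterA
section
/-! Zones where the slack comes from the conformal factor or from the radial function. -/

set_option autoImplicit false

open scoped Manifold ContDiff Topology ENNReal Bundle RealInnerProductSpace
open Filter Set

namespace Pool.Agent.Work.MP_a9fb1f_gt

noncomputable section

variable {t ρ r : ℝ}

lemma masterA_rho_le (hp : Pt t ρ r) : ρ ≤ r := by
  have h1 := hp.sq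
  have h2 := hp.rpos
  have h3 := hp.pos
  (refine le_of_not_gt fun h_nl => ?_; linarith only [h_nl, h1, h2, h3, sq_nonneg t, sq_nonneg t, mul_pos_of_neg_of_neg (Mathlib.Tactic.Linarith.sub_neg_of_lt h2) (Mathlib.Tactic.Linarith.sub_neg_of_lt h_nl), mul_pos_of_neg_of_neg (Mathlib.Tactic.Linarith.sub_neg_of_lt h3) (Mathlib.Tactic.Linarith.sub_neg_of_lt h_nl)])

lemma masterA_smO (hp : Pt t ρ r) {x w ν ν1 : ℝ} (hx : 0 < x) (hxr : x ≤ 2 * r) (hν : 0 ≤ ν)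
    (hν' : ν ≤ 1 / 10 ^ 6) (hν1 : |r * ν1| ≤ 1 / 10 ^ 6) :
    Sm (oJ t ρ r w ν ν1) (16 / 10 ^ 6) ρ x := by
  have hr := hp.rpos
  have h1 : r * |-ν / r| ≤ 2 / 10 ^ 6 := by
    rw [abs_div, abs_neg, abs_of_nonneg hν, abs_of_pos hr, mul_div_cancel₀ _ hr.ne']
    linarith only [hν']
  have h2 : r ^ 2 * |-ν1 / r + ν / r ^ 2| ≤ 2 / 10 ^ 6 := by
    have e : r ^ 2 * |-ν1 / r + ν / r ^ 2| = |-(r * ν1) + ν| := by
      rw [← abs_of_pos (pow_pos hr 2), ← abs_mul, abs_of_pos (pow_pos hr 2)]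
      congr 1
      field_simp
    rw [e]
    have := abs_le.1 hν1
    rw [abs_le]
    constructor <;> linarith only [hν, this, hν', this.1, this.2]
  refine (sm_radial (f0 := w) hp hx hxr h1 h2).mono hp.pos.le hx ?_
  rw [div_le_iff₀ hr]
  linarith only [hxr]

lemma masterA_smV {S : Jet} (hρ : 0 < ρ) (hS : 0 < S.v)
    (sS : Sm S (vr S.v ρ / 10 ^ 4) ρ (vr S.v ρ)) {w0 c1 c2 : ℝ}
    (hc : c1 * vr S.v ρ ≤ 1 / 10 ^ 6) (hc2 : 100 * |c2| * vr S.v ρ ≤ c1) :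
    Sm ((vJ S ρ).comp w0 c1 c2) (3 / 10 ^ 6) ρ (vr S.v ρ) := by
  have hx : 0 < vr S.v ρ := vr_pos hρ
  have hρx := (le_vr hS hρ).1
  have hc0 : 0 ≤ c1 := le_trans (by positivity) hc2
  refine ((sm_vJ hρ hS sS).comp (f0 := w0) (f1 := c1) (f2 := c2) hρ.le hx hρx).mono hρ.le hx ?_
  rw [abs_of_nonneg hc0]
  have h1 : 100 * |c2| * vr S.v ρ * vr S.v ρ ≤ c1 * vr S.v ρ :=
    mul_le_mul_of_nonneg_right hc2 hx.le
  linarith only [hc, h1]

lemma masterA_LopV {S : Jet} (hρ : 0 < ρ) (hS : 0 < S.v)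
    (sS : Sm S (vr S.v ρ / 10 ^ 4) ρ (vr S.v ρ)) {w0 c1 c2 : ℝ}
    (hc2 : 100 * |c2| * vr S.v ρ ≤ c1) (v1 v2 : ℝ) :
    17 / 100 * (c1 / vr S.v ρ * (v1 ^ 2 + v2 ^ 2)) ≤ Lop S ρ ((vJ S ρ).comp w0 c1 c2) v1 v2 := by
  have hx : 0 < vr S.v ρ := vr_pos hρ
  have hc0 : 0 ≤ c1 := le_trans (by positivity) hc2
  refine le_trans ?_ (Lop_vr hρ hS sS (w := w0) (c2 := c2) hc0 v1 v2)
  have h1 : 100 * |c2| ≤ c1 / vr S.v ρ := by rw [le_div_iff₀ hx]; exact hc2
  have h2 : c1 / (4 * vr S.v ρ) = c1 / vr S.v ρ / 4 := by field_simp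
  rw [h2, ← mul_assoc]
  exact mul_le_mul_of_nonneg_right (by linarith only [h1]) (by positivity)

lemma masterA_gradV {S : Jet} (hρ : 0 < ρ) (hS : 0 < S.v)
    (sS : Sm S (vr S.v ρ / 10 ^ 4) ρ (vr S.v ρ)) {w0 c1 c2 : ℝ}
    (hc : c1 * vr S.v ρ ≤ 1 / 10 ^ 6) (hc0 : 0 ≤ c1) :
    ((vJ S ρ).comp w0 c1 c2).a ^ 2 + ((vJ S ρ).comp w0 c1 c2).b ^ 2 ≤
      2 / 10 ^ 6 * (c1 / vr S.v ρ) := by
  have hx : 0 < vr S.v ρ := vr_pos hρ
  have h1 := grad_vJ hρ hS sS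
  have h2 : c1 ≤ 1 / 10 ^ 6 / vr S.v ρ := by rw [le_div_iff₀ hx]; exact hc
  have h3 : c1 * c1 ≤ 1 / 10 ^ 6 * (c1 / vr S.v ρ) := by
    calc c1 * c1 ≤ c1 * (1 / 10 ^ 6 / vr S.v ρ) := mul_le_mul_of_nonneg_left h2 hc0
      _ = _ := by ring
  have h4 : c1 ^ 2 * ((vJ S ρ).a ^ 2 + (vJ S ρ).b ^ 2) ≤ c1 ^ 2 * 2 :=
    mul_le_mul_of_nonneg_left h1 (by positivity)
  simp only [Jet.comp_a, Jet.comp_b]
  linarith only [h3, h4]

lemma masterA_gradW {W : Jet} {x : ℝ} (hρ : 0 < ρ) (hx : 0 < x) (hρx : ρ ≤ x)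
    (sW : Sm W (1 / 10 ^ 4) ρ x) : W.a ^ 2 + W.b ^ 2 ≤ (2 / 10 ^ 4 / x) ^ 2 := by
  refine (sW.grad_le hρ.le hx hρx).trans ?_
  have h : (2 / 10 ^ 4 / x) ^ 2 = (2 / 10 ^ 4) ^ 2 / x ^ 2 := div_pow _ _ _
  rw [h]
  exact div_le_div_of_nonneg_right (by norm_num) (by positivity)

theorem masterA (hp : Pt t ρ r) {S0 S1 S2 k w ν ν1 n1 w0 c1 c2 kg : ℝ} {G : Jet}
    (hS0 : 0 < S0) (hS0k : S0 ≤ k * r) (hS1 : |S1| ≤ k) (hS2 : r * |S2| ≤ k) (hk : k ≤ 1 / 10 ^ 5)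
    (hν : 0 ≤ ν) (hν' : ν ≤ 1 / 10 ^ 6) (hν1 : |r * ν1| ≤ 1 / 10 ^ 6) (hn : -n1 ≤ r * ν1)
    (hn0 : 0 ≤ n1) (hc : c1 * vr S0 ρ ≤ 1 / 10 ^ 6) (hc2 : 100 * |c2| * vr S0 ρ ≤ c1)
    (hG0 : 0 ≤ G.v) (hG1 : G.v ≤ 1 / 2) (sG : Sm G kg ρ (vr S0 ρ))
    (aG : |G.a| ≤ kg * ρ / vr S0 ρ ^ 2) (hkg : kg ≤ 1 / 10 ^ 6)
    (hb : 1000 * (k / r + n1 * vr S0 ρ / r ^ 2 + kg / vr S0 ρ) ≤ c1) :
    PertOK ((rJ t ρ r).comp S0 S1 S2) (Jet.cst 1 - G)
      (oJ t ρ r w ν ν1 - (vJ ((rJ t ρ r).comp S0 S1 S2) ρ).comp w0 c1 c2) ρ := by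
  have hr := hp.rpos
  have hρ := hp.pos
  have hρr := masterA_rho_le hp
  have hk0 : 0 ≤ k := (abs_nonneg _).trans hS1
  have hx : 0 < vr S0 ρ := vr_pos hρ
  obtain ⟨hρx, -, hxle⟩ := le_vr hS0 hρ
  have hxr : vr S0 ρ ≤ 2 * r := by linarith only [hS0, hS0k, hρr, hxle, hk, hr, mul_le_mul_of_nonneg_right hk hr.le]
  have hkg0 : 0 ≤ kg := sG.nonneg hx
  have hc0 : 0 ≤ c1 := le_trans (by positivity) hc2
  set S := (rJ t ρ r).comp S0 S1 S2 with hSdef
  have hSv : 0 < S.v := hS0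
  have sS : Sm S (vr S.v ρ / 10 ^ 4) ρ (vr S.v ρ) := by
    refine (sm_radial_S (f0 := S0) hp hx hxr hS1 hS2).mono hρ.le hx ?_
    change 4 * k * vr S0 ρ ≤ vr S0 ρ / 10 ^ 4
    linarith only [hx, hk, mul_le_mul_of_nonneg_right hk hx.le]
  have sY0 : Sm (Jet.cst 1 - G) (0 + kg) ρ (vr S0 ρ) := (sm_cst 1 hρ.le hx le_rfl).sub sG
  have sY : Sm (Jet.cst 1 - G) (1 / 10 ^ 4) ρ (vr S0 ρ) := sY0.mono hρ.le hx (by linarith only [hkg])
  have sO := masterA_smO (w := w) hp hx hxr hν hν' hν1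
  have sV := masterA_smV (w0 := w0) hρ hSv sS hc hc2
  have sW : Sm (oJ t ρ r w ν ν1 - (vJ S ρ).comp w0 c1 c2) (1 / 10 ^ 4) ρ (vr S0 ρ) :=
    (sO.sub sV).mono hρ.le hx (by norm_num)
  have hYv : (Jet.cst 1 - G).v = 1 - G.v := rfl
  have hY : 1 / 2 ≤ (Jet.cst 1 - G).v := by rw [hYv]; linarith only [hG1]
  refine pertOK_of hρ hSv hY (by rw [hYv]; linarith only [hG0]) sS sY sW fun v1 v2 => ?_
  have hN : 0 ≤ v1 ^ 2 + v2 ^ 2 := by positivity
  have e1 := RS_ge (S := S) hρ hSv (hess_radial_le (f0 := S0) hp hS1 hS2 v1 v2)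
  have e2 := RG_small (S := S) hρ hSv sS sG aG v1 v2
  have e3 := Lop_radial (S1 := S1) (S2 := S2) (w := w) (ν1 := ν1) hp hS0 hν (by linarith only [hν']) v1 v2
  have e4 := masterA_LopV (w0 := w0) hρ hSv sS hc2 v1 v2
  have g1 : (Jet.cst 1 - G).a ^ 2 + (Jet.cst 1 - G).b ^ 2 ≤ (2 * kg / vr S0 ρ) ^ 2 := by
    refine (sY0.grad_le hρ.le hx hρx).trans ?_
    rw [div_pow]
    exact div_le_div_of_nonneg_right (by linarith only [sq_nonneg kg]) (by positivity)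
  have e5 := Quad_le hY (by positivity) (by positivity) g1 (masterA_gradW hρ hx hρx sW) v1 v2
  have e6 := masterA_gradV (w0 := w0) (c2 := c2) hρ hSv sS hc hc0
  have e7 := polar_sq hp v1 v2
  have hSx : vr S.v ρ = vr S0 ρ := rfl
  rw [hSx] at e1 e2 e4 e6
  rw [← hSdef] at e3
  unfold RB
  rw [RG_one_sub, Lop_sub]
  set x := vr S0 ρ with hxdef
  set N := v1 ^ 2 + v2 ^ 2 with hNdef
  set P := ((t * v1 + ρ * v2) / r) ^ 2 with hP
  set Q := ((t * v2 - ρ * v1) / r) ^ 2 with hQ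
  have hP0 : 0 ≤ P := by positivity
  have hQ0 : 0 ≤ Q := by positivity
  have ha : 0 ≤ k / (r * x) * N := by positivity
  have hb0 : 0 ≤ n1 / r ^ 2 * N := by positivity
  have hcc : 0 ≤ kg / x ^ 2 * N := by positivity
  have hd : 1000 * (k / (r * x) * N + n1 / r ^ 2 * N + kg / x ^ 2 * N) ≤ c1 / x * N := by
    have h1 : 1000 * (k / (r * x) + n1 / r ^ 2 + kg / x ^ 2) ≤ c1 / x := by
      rw [le_div_iff₀ hx]
      refine le_trans (le_of_eq ?_) hb
      field_simp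
    have h2 := mul_le_mul_of_nonneg_right h1 hN
    linarith only [h2]
  have f1 : -(48 * (k / (r * x) * N)) ≤ RS S ρ v1 v2 := by
    refine le_trans (le_of_eq ?_) e1
    field_simp
  have f2 : -RG S ρ G v1 v2 / (Jet.cst 1 - G).v ≤ 40 * (kg / x ^ 2 * N) := by
    have h1 := (abs_le.1 e2).1
    have h2 : 20 * kg / x ^ 2 * N = 20 * (kg / x ^ 2 * N) := by ring
    rw [div_le_iff₀ (by linarith only [hG1, hYv])]
    have h3 : 40 * (kg / x ^ 2 * N) * (1 / 2) ≤ 40 * (kg / x ^ 2 * N) * (Jet.cst 1 - G).v :=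
      mul_le_mul_of_nonneg_left hY (by positivity)
    linarith only [h1, h2, h3]
  have f3 : -(4 * (n1 / r ^ 2 * N)) ≤ (4 * r * ν1 * P + (r * ν1 + 5 * ν) * Q) / r ^ 2 := by
    have h1 : -(4 * (n1 / r ^ 2 * N)) = -(4 * n1 * (P + Q)) / r ^ 2 := by rw [e7]; ring
    rw [h1]
    refine div_le_div_of_nonneg_right ?_ (by positivity)
    have h2 : -n1 * P ≤ r * ν1 * P := mul_le_mul_of_nonneg_right hn hP0
    have h3 : -n1 * Q ≤ r * ν1 * Q := mul_le_mul_of_nonneg_right hn hQ0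
    have h4 : 0 ≤ ν * Q := by positivity
    have h5 : 0 ≤ n1 * Q := by positivity
    linarith only [h2, h3, h4, h5]
  have f4 : 48 * ν * |S0 - r * S1| / (x * r ^ 2) * N ≤ k / (r * x) * N := by
    refine mul_le_mul_of_nonneg_right ?_ hN
    have h1 : |S0 - r * S1| ≤ 2 * (k * r) := by
      have h2 := abs_le.1 hS1
      have h3 : r * S1 ≤ r * k := mul_le_mul_of_nonneg_left h2.2 hr.le
      have h4 : r * -k ≤ r * S1 := mul_le_mul_of_nonneg_left h2.1 hr.le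
      rw [abs_le]
      have h7 : 0 ≤ k * r := by positivity
      constructor <;> linarith only [hS0, hS0k, h3, h4]
    have h5 : k / (r * x) = k * r / (x * r ^ 2) := by field_simp
    rw [h5]
    refine div_le_div_of_nonneg_right ?_ (by positivity)
    have h6 : 48 * ν * |S0 - r * S1| ≤ 48 * ν * (2 * (k * r)) :=
      mul_le_mul_of_nonneg_left h1 (by positivity)
    have h7 : 0 ≤ k * r := by positivity
    linarith only [hS0, hS0k, h6, hν', h7, mul_le_mul_of_nonneg_right hν' h7]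
  have f5 : (6 * (((vJ S ρ).comp w0 c1 c2).a ^ 2 + ((vJ S ρ).comp w0 c1 c2).b ^ 2) +
      6 * (2 * kg / x) * (2 / 10 ^ 4 / x)) * N ≤
      12 / 10 ^ 6 * (c1 / x * N) + 24 / 10 ^ 4 * (kg / x ^ 2 * N) := by
    have h1 : 6 * (2 * kg / x) * (2 / 10 ^ 4 / x) = 24 / 10 ^ 4 * (kg / x ^ 2) := by
      field_simp; ring
    rw [h1]
    have h2 := mul_le_mul_of_nonneg_right e6 hN
    linarith only [h2]
  linarith only [e4, e5, e3, ha, hb0, hcc, hd, f1, f2, f3, f4, f5]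

theorem masterB (hp : Pt t ρ r) {ε η g0 w ν ν1 w0 c1 c2 ke : ℝ} {Er : Jet}
    (hη : 0 < η) (hε : 0 < ε) (hεη : ε ≤ η ^ 3 / 10 ^ 6) (hην : η ≤ 5 * ν) (hν' : ν ≤ 1 / 10 ^ 6)
    (hg : g0 ≤ r * ν1) (hν1 : r * ν1 ≤ 1 / 10 ^ 6) (hc : c1 * vr (ε * r) ρ ≤ 1 / 10 ^ 6)
    (hc2 : 100 * |c2| * vr (ε * r) ρ ≤ c1) (sE : Sm Er ke ρ (vr (ε * r) ρ))
    (hke : ke ≤ 1 / 10 ^ 6) (hb : 100 * ke / vr (ε * r) ρ ^ 2 ≤ g0 / r ^ 2) :
    PertOK ((rJ t ρ r).comp (ε * r) ε 0) (Jet.cst 1)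
      (oJ t ρ r w ν ν1 - ((vJ ((rJ t ρ r).comp (ε * r) ε 0) ρ).comp w0 c1 c2 + Er)) ρ := by
  have hr := hp.rpos
  have hρ := hp.pos
  have hρr := masterA_rho_le hp
  have hν : 0 ≤ ν := by linarith only [hη, hην]
  have hη1 : η ≤ 1 := by linarith only [hη, hην, hν']
  have hε1 : ε ≤ 1 / 10 ^ 6 := by
    have : η ^ 3 ≤ 1 := pow_le_one₀ hη.le hη1
    refine hεη.trans ?_
    exact div_le_div_of_nonneg_right this (by positivity)
  have hS0 : 0 < ε * r := by positivity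
  have hx : 0 < vr (ε * r) ρ := vr_pos hρ
  obtain ⟨hρx, -, hxle⟩ := le_vr hS0 hρ
  have hxr : vr (ε * r) ρ ≤ 2 * r := by linarith only [hr, hρr, hxle, hε1, mul_le_mul_of_nonneg_right hε1 hr.le]
  have hke0 : 0 ≤ ke := sE.nonneg hx
  have hc0 : 0 ≤ c1 := le_trans (by positivity) hc2
  have hg0 : 0 ≤ g0 := by
    have h1 : 0 ≤ g0 / r ^ 2 := le_trans (by positivity) hb
    have h2 : 0 < r ^ 2 := by positivity
    by_contra h
    have := div_neg_of_neg_of_pos (not_le.1 h) h2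
    linarith only [h1, this]
  have hν1' : |r * ν1| ≤ 1 / 10 ^ 6 := by
    rw [abs_of_nonneg (by linarith only [hg, hg0])]; exact hν1
  set S := (rJ t ρ r).comp (ε * r) ε 0 with hSdef
  have hSv : 0 < S.v := hS0
  have sS : Sm S (vr S.v ρ / 10 ^ 4) ρ (vr S.v ρ) := by
    refine (sm_radial_S (f0 := ε * r) (f1 := ε) (f2 := 0) (k := ε) hp hx hxr
      (abs_of_pos hε).le (by simp [hε.le])).mono hρ.le hx ?_
    change 4 * ε * vr (ε * r) ρ ≤ vr (ε * r) ρ / 10 ^ 4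
    linarith only [hx, hε1, mul_le_mul_of_nonneg_right hε1 hx.le]
  have sY : Sm (Jet.cst 1) (1 / 10 ^ 4) ρ (vr (ε * r) ρ) := sm_cst 1 hρ.le hx (by norm_num)
  have sO := masterA_smO (w := w) hp hx hxr hν hν' hν1'
  have sV := masterA_smV (w0 := w0) hρ hSv sS hc hc2
  have sW : Sm (oJ t ρ r w ν ν1 - ((vJ S ρ).comp w0 c1 c2 + Er)) (1 / 10 ^ 4) ρ (vr (ε * r) ρ) :=
    (sO.sub (sV.add sE)).mono hρ.le hx (by linarith only [hε, hke, hε1])
  have hY : 1 / 2 ≤ (Jet.cst 1).v := by norm_num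
  refine pertOK_of hρ hSv hY (by norm_num) sS sY sW fun v1 v2 => ?_
  have hN : 0 ≤ v1 ^ 2 + v2 ^ 2 := by positivity
  have e1 := RS_cone hp hη hη1 hε hεη v1 v2
  have e2 : RG S ρ (Jet.cst 1) v1 v2 = 0 := by simp [RG, Jet.hess, Jet.dd]
  have e3 := Lop_radial (S1 := ε) (S2 := 0) (w := w) (ν1 := ν1) hp hS0 hν (by linarith only [hε, hν', hε1]) v1 v2
  have e4 := masterA_LopV (w0 := w0) hρ hSv sS hc2 v1 v2
  have e5 := Quad_le (x := 0) hY le_rfl (by positivity) (by simp)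
    (masterA_gradW hρ hx hρx sW) v1 v2
  have e6 := masterA_gradV (w0 := w0) (c2 := c2) hρ hSv sS hc hc0
  have e7 := polar_sq hp v1 v2
  have e8 := (abs_le.1 (Lop_small hρ hSv sS sE v1 v2)).1
  have e9 := sE.grad_le hρ.le hx hρx
  have hSx : vr S.v ρ = vr (ε * r) ρ := rfl
  rw [hSx] at e4 e6 e8
  rw [← hSdef] at e1 e3
  have hz : ε * r - r * ε = 0 := by ring
  rw [hz, abs_zero, mul_zero, zero_div, zero_mul, sub_zero] at e3
  unfold RB
  rw [e2, Lop_sub, Lop_add, zero_div]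
  set x := vr (ε * r) ρ with hxdef
  set N := v1 ^ 2 + v2 ^ 2 with hNdef
  set P := ((t * v1 + ρ * v2) / r) ^ 2 with hP
  set Q := ((t * v2 - ρ * v1) / r) ^ 2 with hQ
  set V := (vJ S ρ).comp w0 c1 c2 with hV
  have hP0 : 0 ≤ P := by positivity
  have hQ0 : 0 ≤ Q := by positivity
  have hcc : 0 ≤ ke / x ^ 2 * N := by positivity
  have hdd : 0 ≤ c1 / x * N := by positivity
  have hd : 100 * (ke / x ^ 2 * N) ≤ g0 / r ^ 2 * N := by
    have h2 := mul_le_mul_of_nonneg_right hb hN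
    refine le_trans (le_of_eq ?_) h2
    ring
  have f3 : g0 / r ^ 2 * N + η * Q / r ^ 2 ≤
      (4 * r * ν1 * P + (r * ν1 + 5 * ν) * Q) / r ^ 2 := by
    have h1 : g0 / r ^ 2 * N + η * Q / r ^ 2 = (g0 * (P + Q) + η * Q) / r ^ 2 := by
      rw [e7]; ring
    rw [h1]
    refine div_le_div_of_nonneg_right ?_ (by positivity)
    have h2 : g0 * P ≤ r * ν1 * P := mul_le_mul_of_nonneg_right hg hP0
    have h3 : g0 * Q ≤ r * ν1 * Q := mul_le_mul_of_nonneg_right hg hQ0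
    have h4 : η * Q ≤ 5 * ν * Q := mul_le_mul_of_nonneg_right hην hQ0
    have h5 : 0 ≤ g0 * P := by positivity
    linarith only [h2, h3, h4, h5]
  have f5 : (6 * ((V + Er).a ^ 2 + (V + Er).b ^ 2) + 6 * 0 * (2 / 10 ^ 4 / x)) * N ≤
      24 / 10 ^ 6 * (c1 / x * N) + 24 / 10 ^ 6 * (ke / x ^ 2 * N) := by
    have h1 : 2 * ke ^ 2 / x ^ 2 ≤ 2 / 10 ^ 6 * (ke / x ^ 2) := by
      rw [← mul_div_assoc]
      exact div_le_div_of_nonneg_right (by linarith only [hke, hke0, mul_le_mul_of_nonneg_right hke hke0])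
        (by positivity)
    have h2 : (V + Er).a ^ 2 + (V + Er).b ^ 2 ≤
        4 / 10 ^ 6 * (c1 / x) + 4 / 10 ^ 6 * (ke / x ^ 2) := by
      simp only [Jet.add_a, Jet.add_b]
      linarith only [e9, e6, h1, sq_nonneg (V.a - Er.a), sq_nonneg (V.b - Er.b)]
    have h3 := mul_le_mul_of_nonneg_right h2 hN
    linarith only [h3]
  have f8 : 12 * ke / x ^ 2 * N = 12 * (ke / x ^ 2 * N) := by ring
  linarith only [e8, e1, e3, e4, e5, hcc, hdd, hd, f3, f5, f8]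

end

end Pool.Agent.Work.MP_a9fb1f_gt
end

-- merged part: Pool.Agent.Work.MP_a9fb1f_gt.Params
section
/-! Choice of the parameters. -/

set_option autoImplicit false

open scoped Manifold ContDiff Topology ENNReal Bundle RealInnerProductSpace
open Filter Set

namespace Pool.Agent.Work.MP_a9fb1f_gt

noncomputable section

lemma Params_iota : ∃ ι : ℝ, 0 < ι ∧ ι ≤ 1 ∧ Kst ^ 2 * ι ≤ 1 / 10 ^ 12 := by
  have hK : 1 ≤ Kst ^ 2 := one_le_pow₀ one_le_Kst
  have hK0 : 0 < Kst ^ 2 := lt_of_lt_of_le one_pos hK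
  refine ⟨1 / (10 ^ 12 * Kst ^ 2), by positivity, ?_, le_of_eq ?_⟩
  · rw [div_le_one (by positivity)]
    linarith only [hK]
  · have hK1 : Kst ≠ 0 := (lt_of_lt_of_le one_pos one_le_Kst).ne'
    field_simp

def Params_m (ι : ℝ) (δ I : ℕ → ℝ) : ℕ → ℝ
  | 0 => 0
  | j + 1 => ι ^ 3 * δ j / I j

def Params_s (ι : ℝ) (ε d I : ℕ → ℝ) : ℕ → ℝ
  | 0 => ε 0 * (ι * d 0)
  | j + 1 => min (ε j * I j) (ε (j + 1) * (ι * d (j + 1)))

theorem exists_sys : Nonempty Sys := by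
  obtain ⟨ι, hι0, hι1, hιK⟩ := Params_iota
  obtain ⟨δ, hδ⟩ : ∃ δ : ℕ → ℝ, ∀ j, δ j = ι ^ (4 * j + 1) := ⟨_, fun _ => rfl⟩
  have hδ0 : ∀ j, 0 < δ j := fun j => by rw [hδ]; positivity
  have hδι : ∀ j, δ j ≤ ι := fun j => by
    rw [hδ, pow_succ]
    exact mul_le_of_le_one_left hι0.le (pow_le_one₀ hι0.le hι1)
  have hδs : ∀ j, δ (j + 1) = ι ^ 4 * δ j := fun j => by rw [hδ, hδ]; ring
  obtain ⟨ε, hε⟩ : ∃ ε : ℕ → ℝ, ∀ j, ε j = ι * (ι ^ 2 * δ j) ^ 3 := ⟨_, fun _ => rfl⟩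
  have hε0 : ∀ j, 0 < ε j := fun j => by
    have := hδ0 j
    rw [hε]; positivity
  have hε1 : ∀ j, ε j ≤ 1 := fun j => by
    have h0 := hδ0 j
    rw [hε]
    exact mul_le_one₀ hι1 (by positivity) (pow_le_one₀ (by positivity)
      (mul_le_one₀ (pow_le_one₀ hι0.le hι1) h0.le ((hδι j).trans hι1)))
  obtain ⟨L, hL⟩ : ∃ L : ℕ → ℝ, ∀ j, L j = (ε j ^ 10)⁻¹ + j := ⟨_, fun _ => rfl⟩
  have hLj : ∀ j : ℕ, (j : ℝ) ≤ L j := fun j => by
    have := hε0 j
    rw [hL]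
    exact le_add_of_nonneg_left (by positivity)
  have hLε : ∀ j, 1 ≤ L j * ε j ^ 10 := fun j => by
    have h0 := hε0 j
    rw [hL, add_mul, inv_mul_cancel₀ (by positivity)]
    exact le_add_of_nonneg_right (by positivity)
  obtain ⟨lam, hlam⟩ : ∃ lam : ℕ → ℝ, ∀ j, lam j = ι ^ 3 * Real.exp (-4 * L j) :=
    ⟨_, fun _ => rfl⟩
  have hlam0 : ∀ j, 0 < lam j := fun j => by rw [hlam]; positivity
  have hlam1 : ∀ j, lam j ≤ 1 := fun j => by
    have h1 : (0 : ℝ) ≤ L j := (Nat.cast_nonneg j).trans (hLj j)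
    rw [hlam]
    exact mul_le_one₀ (pow_le_one₀ hι0.le hι1) (Real.exp_pos _).le
      (Real.exp_le_one_iff.2 (by linarith only [h1]))
  obtain ⟨θ, hθ⟩ : ∃ θ : ℕ → ℝ, ∀ j, θ j = ι / ((j : ℝ) + 1) := ⟨_, fun _ => rfl⟩
  have hθ0 : ∀ j, 0 < θ j := fun j => by rw [hθ]; positivity
  have hθι : ∀ j, θ j ≤ ι := fun j => by
    rw [hθ]
    exact div_le_self hι0.le (le_add_of_nonneg_left (Nat.cast_nonneg j))
  obtain ⟨d, C, hd0, hd1, hds, hsep, hnest, hz, hdim⟩ := exists_tree hlam0 hθ0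
  obtain ⟨I, hI⟩ : ∃ I : ℕ → ℝ, I = fun j => lam j * d j := ⟨_, rfl⟩
  have hIj : ∀ j, I j = lam j * d j := fun j => by rw [hI]
  have hI0 : ∀ j, 0 < I j := fun j => by rw [hIj]; exact mul_pos (hlam0 j) (hd0 j)
  have hdI : ∀ j, d (j + 1) ≤ θ j * I j := fun j => by rw [hIj]; exact hds j
  have hdι : ∀ j, d (j + 1) ≤ ι * I j := fun j =>
    (hdI j).trans (mul_le_mul_of_nonneg_right (hθι j) (hI0 j).le)
  have hd1' : ∀ j, d j ≤ 1 := fun j => by
    induction j with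
    | zero => exact hd1
    | succ j ih =>
      refine (hdι j).trans (mul_le_one₀ hι1 (hI0 j).le ?_)
      rw [hIj]
      exact mul_le_one₀ (hlam1 j) (hd0 j).le ih
  have hm0 : ∀ j, 0 ≤ Params_m ι δ I j := fun j => by
    cases j with
    | zero => exact le_rfl
    | succ j =>
      have := hδ0 j
      have := hI0 j
      simp only [Params_m]
      positivity
  have hmI : ∀ j, Params_m ι δ I (j + 1) * I j = ι ^ 3 * δ j := fun j =>
    div_mul_cancel₀ _ (hI0 j).ne'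
  have hmd : ∀ j, Params_m ι δ I j * d j ≤ δ j := fun j => by
    cases j with
    | zero => simpa [Params_m] using (hδ0 0).le
    | succ j =>
      refine (mul_le_mul_of_nonneg_left (hdι j) (hm0 _)).trans (le_of_eq ?_)
      rw [hδs, mul_left_comm, hmI]
      ring
  have hs0 : ∀ j, 0 < Params_s ι ε d I j := fun j => by
    cases j with
    | zero => exact mul_pos (hε0 0) (mul_pos hι0 (hd0 0))
    | succ j => exact lt_min (mul_pos (hε0 j) (hI0 j)) (mul_pos (hε0 _) (mul_pos hι0 (hd0 _)))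
  have hsR : ∀ j, Params_s ι ε d I j ≤ ε j * (ι * d j) := fun j => by
    cases j with
    | zero => exact le_rfl
    | succ j => exact min_le_right _ _
  have hsI : ∀ j, Params_s ι ε d I (j + 1) ≤ ε j * I j := fun j => min_le_left _ _
  refine ⟨{
    P := fun j => ⟨ι, ε j, L j, I j, ⟨δ j, d j, Params_m ι δ I j, Params_s ι ε d I j⟩,
      ⟨δ (j + 1), d (j + 1), Params_m ι δ I (j + 1), Params_s ι ε d I (j + 1)⟩⟩
    C := C
    ok := fun j =>
      { ι0 := hι0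
        ιK := hιK
        δ0 := hδ0 j
        δι := hδι j
        d0 := hd0 j
        d1 := hd1' j
        m0 := hm0 j
        md := hmd j
        s0 := hs0 j
        sR := hsR j
        ε0 := hε0 j
        εγ := (hε j).le
        Lε := hLε j
        Ieq := ?_
        δi := hδs j
        mi := hmI j
        di0 := hd0 (j + 1)
        di := hdι j
        si0 := hs0 (j + 1)
        si := hsI j
        sdi := (hsR (j + 1)).trans
          (mul_le_of_le_one_left (mul_pos hι0 (hd0 (j + 1))).le (hε1 (j + 1))) }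
    link := fun _ => rfl
    m0 := rfl
    sep := hsep
    nest := fun j c hc => ?_
    thick := ?_
    long := tendsto_atTop_mono hLj tendsto_natCast_atTop_atTop
    zero := ?_
    dim := ?_ }⟩
  · change I j = ι ^ 3 * d j * Real.exp (-4 * L j)
    rw [hIj, hlam]
    ring
  · change ∃ c' ∈ C j, |c - c'| ≤ I j / 2
    rw [hIj]
    exact hnest j c hc
  · change Tendsto (fun j => d (j + 1) / I j) atTop (𝓝 0)
    have h1 : Tendsto θ atTop (𝓝 0) := by
      have h2 := (tendsto_one_div_add_atTop_nhds_zero_nat (𝕜 := ℝ)).const_mul ι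
      rw [mul_zero] at h2
      refine h2.congr fun j => ?_
      rw [hθ, mul_one_div]
    exact squeeze_zero (fun j => (div_pos (hd0 _) (hI0 j)).le)
      (fun j => (div_le_iff₀ (hI0 j)).2 (hdI j)) h1
  · change (0 : ℝ) ∈ Kset C I
    rw [hI]
    exact hz
  · change 0 < dimH (Kset C I)
    rw [hI]
    exact hdim

end

end Pool.Agent.Work.MP_a9fb1f_gt
end
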