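import Pool.Agent.Work.MP_a9fb1f_gt.Defs
import Pool.Agent.Work.MP_a9fb1f_gt.PertB

-- merged part: Pool.Agent.Work.MP_a9fb1f_gt.ModelA
section
/-! Symbolic tables for the model metric. -/

set_option autoImplicit false

open scoped Topology
open Filter Set

namespace Pool.Agent.Work.MP_a9fb1f_gt

noncomputable section

/-- Atoms. -/
inductive MAt : Type
  | a | b | f | h | ia | ib | jf | s | c | js | A1 | A2 | B1 | B2 | F1 | F2 | H1 | H2

/-- Expressions. -/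
inductive MEx : Type
  | z : MEx
  | v (t : MAt) : MEx
  | k (r : ℝ) : MEx
  | add (p q : MEx) : MEx
  | mul (p q : MEx) : MEx
  | neg (p : MEx) : MEx

namespace MEx

instance : Add MEx := ⟨add⟩
instance : Mul MEx := ⟨mul⟩
instance : Neg MEx := ⟨neg⟩

/-- Value. -/
def ev (ρ : MAt → ℝ) : MEx → ℝ
  | z => 0
  | v t => ρ t
  | k r => r
  | add p q => ev ρ p + ev ρ q
  | mul p q => ev ρ p * ev ρ q
  | neg p => -ev ρ p

/-- Derivative. -/
def dv (ρ δ : MAt → ℝ) : MEx → ℝ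
  | z => 0
  | v t => δ t
  | k _ => 0
  | add p q => dv ρ δ p + dv ρ δ q
  | mul p q => dv ρ δ p * ev ρ q + ev ρ p * dv ρ δ q
  | neg p => -dv ρ δ p

variable (ρ δ : MAt → ℝ) (p q : MEx) (t : MAt) (r : ℝ)

lemma ev_z : ev ρ z = 0 := rfl
lemma ev_v : ev ρ (v t) = ρ t := rfl
lemma ev_k : ev ρ (k r) = r := rfl
lemma ev_add : ev ρ (p + q) = ev ρ p + ev ρ q := rfl
lemma ev_mul : ev ρ (p * q) = ev ρ p * ev ρ q := rfl
lemma ev_neg : ev ρ (-p) = -ev ρ p := rfl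
lemma dv_z : dv ρ δ z = 0 := rfl
lemma dv_v : dv ρ δ (v t) = δ t := rfl
lemma dv_k : dv ρ δ (k r) = 0 := rfl
lemma dv_add : dv ρ δ (p + q) = dv ρ δ p + dv ρ δ q := rfl
lemma dv_mul : dv ρ δ (p * q) = dv ρ δ p * ev ρ q + ev ρ p * dv ρ δ q := rfl
lemma dv_neg : dv ρ δ (-p) = -dv ρ δ p := rfl

lemma diff_ev {n : ℕ} {ρ : Eu n → MAt → ℝ} {y : Eu n}
    (h : ∀ t, DifferentiableAt ℝ (fun x => ρ x t) y) (p : MEx) :
    DifferentiableAt ℝ (fun x => ev (ρ x) p) y := by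
  induction p with
  | z => exact differentiableAt_const _
  | v t => exact h t
  | k r => exact differentiableAt_const _
  | add p q hp hq => exact hp.add hq
  | mul p q hp hq => exact hp.mul hq
  | neg p hp => exact hp.neg

lemma pd_ev {n : ℕ} {ρ : Eu n → MAt → ℝ} {y : Eu n}
    (h : ∀ t, DifferentiableAt ℝ (fun x => ρ x t) y) (m : Fin n) (p : MEx) :
    pd m (fun x => ev (ρ x) p) y = dv (ρ y) (fun t => pd m (fun x => ρ x t) y) p := by
  induction p with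
  | z => simp [pd, ev, dv]
  | v t => rfl
  | k r => simp [pd, ev, dv]
  | add p q hp hq =>
    rw [dv, ← hp, ← hq]
    simp only [ev, pd]
    rw [fderiv_fun_add (diff_ev h p) (diff_ev h q)]
    rfl
  | mul p q hp hq =>
    rw [dv, ← hp, ← hq]
    simp only [ev, pd]
    rw [fderiv_fun_mul (diff_ev h p) (diff_ev h q)]
    simp only [add_apply, smul_apply, smul_eq_mul]
    ring
  | neg p hp =>
    rw [dv, ← hp]
    simp only [ev, pd]
    rw [fderiv_fun_neg]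
    rfl

end MEx

open MEx

/-- Derivatives of the atoms. -/
def mdl (ρ σ τ : MAt → ℝ) : MAt → Fin 5 → ℝ
  | .a => ![2 * ρ .a * ρ .A1, 2 * ρ .a * ρ .A2, 0, 0, 0]
  | .b => ![2 * ρ .b * ρ .B1, 2 * ρ .b * ρ .B2, 0, 0, 0]
  | .f => ![2 * ρ .f * ρ .F1, 2 * ρ .f * ρ .F2, 0, 0, 0]
  | .h => ![2 * ρ .h * ρ .H1, 2 * ρ .h * ρ .H2, 0, 0, 0]
  | .ia => ![-2 * ρ .ia * ρ .A1, -2 * ρ .ia * ρ .A2, 0, 0, 0]
  | .ib => ![-2 * ρ .ib * ρ .B1, -2 * ρ .ib * ρ .B2, 0, 0, 0]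
  | .jf => ![-2 * ρ .jf * ρ .F1, -2 * ρ .jf * ρ .F2, 0, 0, 0]
  | .s => ![0, 0, ρ .c, 0, 0]
  | .c => ![0, 0, -ρ .s, 0, 0]
  | .js => ![0, 0, -ρ .c * ρ .js ^ 2, 0, 0]
  | .A1 => ![σ .A1, τ .A1, 0, 0, 0]
  | .A2 => ![σ .A2, τ .A2, 0, 0, 0]
  | .B1 => ![σ .B1, τ .B1, 0, 0, 0]
  | .B2 => ![σ .B2, τ .B2, 0, 0, 0]
  | .F1 => ![σ .F1, τ .F1, 0, 0, 0]
  | .F2 => ![σ .F2, τ .F2, 0, 0, 0]
  | .H1 => ![σ .H1, τ .H1, 0, 0, 0]
  | .H2 => ![σ .H2, τ .H2, 0, 0, 0]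

/-- The metric. -/
def mg : Fin 5 → Fin 5 → MEx :=
  ![![v .a, z, z, z, z], ![z, v .b, z, z, z], ![z, z, v .f, z, z],
    ![z, z, z, v .f * (v .s * v .s) + v .h * (v .c * v .c), v .h * v .c],
    ![z, z, z, v .h * v .c, v .h]]

/-- The Christoffel symbols. -/
def mG : Fin 5 → Fin 5 → Fin 5 → MEx :=
  ![![![v .A1, v .A2, z, z, z], ![v .A2, -(v .b * v .ia * v .B1), z, z, z],
      ![z, z, -(v .f * v .ia * v .F1), z, z],
      ![z, z, z, -((v .f * (v .s * v .s) * v .F1 + v .h * (v .c * v .c) * v .H1) * v .ia),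
        -(v .h * v .c * v .H1 * v .ia)],
      ![z, z, z, -(v .h * v .c * v .H1 * v .ia), -(v .h * v .H1 * v .ia)]],
    ![![-(v .a * v .ib * v .A2), v .B1, z, z, z], ![v .B1, v .B2, z, z, z],
      ![z, z, -(v .f * v .ib * v .F2), z, z],
      ![z, z, z, -((v .f * (v .s * v .s) * v .F2 + v .h * (v .c * v .c) * v .H2) * v .ib),
        -(v .h * v .c * v .H2 * v .ib)],
      ![z, z, z, -(v .h * v .c * v .H2 * v .ib), -(v .h * v .H2 * v .ib)]],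
    ![![z, z, v .F1, z, z], ![z, z, v .F2, z, z], ![v .F1, v .F2, z, z, z],
      ![z, z, z, -((v .f + -v .h) * v .s * v .c * v .jf), k (1 / 2) * (v .h * v .s * v .jf)],
      ![z, z, z, k (1 / 2) * (v .h * v .s * v .jf), z]],
    ![![z, z, z, v .F1, z], ![z, z, z, v .F2, z],
      ![z, z, z, v .c * v .js * (k 1 + k (-1 / 2) * (v .h * v .jf)),
        k (-1 / 2) * (v .h * v .jf * v .js)],
      ![v .F1, v .F2, v .c * v .js * (k 1 + k (-1 / 2) * (v .h * v .jf)), z, z],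
      ![z, z, k (-1 / 2) * (v .h * v .jf * v .js), z, z]],
    ![![z, z, z, v .c * (v .H1 + -v .F1), v .H1], ![z, z, z, v .c * (v .H2 + -v .F2), v .H2],
      ![z, z, z, k (-1 / 2) * v .s +
          -(v .c * v .c * v .js * (k 1 + k (-1 / 2) * (v .h * v .jf))),
        k (1 / 2) * (v .h * v .c * v .jf * v .js)],
      ![v .c * (v .H1 + -v .F1), v .c * (v .H2 + -v .F2), k (-1 / 2) * v .s +
          -(v .c * v .c * v .js * (k 1 + k (-1 / 2) * (v .h * v .jf))), z, z],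
      ![v .H1, v .H2, k (1 / 2) * (v .h * v .c * v .jf * v .js), z, z]]]

lemma modelA_all5 {P : Fin 5 → Prop} (h0 : P 0) (h1 : P 1) (h2 : P 2) (h3 : P 3) (h4 : P 4) :
    ∀ i, P i := by
  intro i
  fin_cases i
  exacts [h0, h1, h2, h3, h4]

/-- The relations between the atoms. -/
structure MRel (ρ : MAt → ℝ) : Prop where
  ha : ρ .a ≠ 0
  hb : ρ .b ≠ 0
  hf : ρ .f ≠ 0
  hs : ρ .s ≠ 0
  ia : ρ .ia = (ρ .a)⁻¹
  ib : ρ .ib = (ρ .b)⁻¹
  jf : ρ .jf = (ρ .f)⁻¹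
  js : ρ .js = (ρ .s)⁻¹

lemma modelA_chr {ρ : MAt → ℝ} (σ τ : MAt → ℝ) (h : MRel ρ) : ∀ i j l : Fin 5,
    ∑ k, ev ρ (mg l k) * ev ρ (mG k i j) = (1 / 2) *
      (dv ρ (fun t => mdl ρ σ τ t i) (mg j l) + dv ρ (fun t => mdl ρ σ τ t j) (mg i l) -
        dv ρ (fun t => mdl ρ σ τ t l) (mg i j)) := by
  obtain ⟨ha, hb, hf, hs, ia, ib, jf, js⟩ := h
  refine modelA_all5 ?_ ?_ ?_ ?_ ?_ <;> refine modelA_all5 ?_ ?_ ?_ ?_ ?_ <;>
    refine modelA_all5 ?_ ?_ ?_ ?_ ?_ <;>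
    simp only [Fin.sum_univ_five, mg, mG, mdl, Matrix.cons_val, Matrix.cons_val_zero,
      Matrix.cons_val_one, ev_z, ev_v, ev_k, ev_add, ev_mul, ev_neg, dv_z, dv_v, dv_add,
      dv_mul, mul_zero, zero_mul, add_zero, zero_add, sub_zero, ia, ib, jf, js] <;>
    (try field_simp) <;> (try ring)

end

end Pool.Agent.Work.MP_a9fb1f_gt
end

-- merged part: Pool.Agent.Work.MP_a9fb1f_gt.ModelB
section
/-! The Ricci tensor of the model metric: the algebraic computation. -/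

set_option autoImplicit false

open scoped Topology
open Filter Set

namespace Pool.Agent.Work.MP_a9fb1f_gt

noncomputable section

open MEx

/-- The values of the atoms. -/
def mρ (jA jB jF jH : Jet) (θ : ℝ) : MAt → ℝ
  | .a => Real.exp (2 * jA.v)
  | .b => Real.exp (2 * jB.v)
  | .f => Real.exp (2 * jF.v)
  | .h => Real.exp (2 * jH.v)
  | .ia => (Real.exp (2 * jA.v))⁻¹
  | .ib => (Real.exp (2 * jB.v))⁻¹
  | .jf => (Real.exp (2 * jF.v))⁻¹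
  | .s => Real.sin θ
  | .c => Real.cos θ
  | .js => (Real.sin θ)⁻¹
  | .A1 => jA.a
  | .A2 => jA.b
  | .B1 => jB.a
  | .B2 => jB.b
  | .F1 => jF.a
  | .F2 => jF.b
  | .H1 => jH.a
  | .H2 => jH.b

/-- Second order data, first direction. -/
def mσ (jA jB jF jH : Jet) : MAt → ℝ
  | .a => 0
  | .b => 0
  | .f => 0
  | .h => 0
  | .ia => 0
  | .ib => 0
  | .jf => 0
  | .s => 0
  | .c => 0
  | .js => 0
  | .A1 => jA.aa
  | .A2 => jA.ab
  | .B1 => jB.aa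
  | .B2 => jB.ab
  | .F1 => jF.aa
  | .F2 => jF.ab
  | .H1 => jH.aa
  | .H2 => jH.ab

/-- Second order data, second direction. -/
def mτ (jA jB jF jH : Jet) : MAt → ℝ
  | .a => 0
  | .b => 0
  | .f => 0
  | .h => 0
  | .ia => 0
  | .ib => 0
  | .jf => 0
  | .s => 0
  | .c => 0
  | .js => 0
  | .A1 => jA.ab
  | .A2 => jA.bb
  | .B1 => jB.ab
  | .B2 => jB.bb
  | .F1 => jF.ab
  | .F2 => jF.bb
  | .H1 => jH.ab
  | .H2 => jH.bb

/-- The Ricci tensor computed from the tables. -/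
def mRic (ρ σ τ : MAt → ℝ) (i j : Fin 5) : ℝ :=
  ∑ k, (dv ρ (fun t => mdl ρ σ τ t k) (mG k i j) - dv ρ (fun t => mdl ρ σ τ t j) (mG k i k) +
    ∑ l, (ev ρ (mG k k l) * ev ρ (mG l i j) - ev ρ (mG k j l) * ev ρ (mG l i k)))

/-- The expected Ricci tensor. -/
def mRT (jA jB jF jH : Jet) (θ : ℝ) : Fin 5 → Fin 5 → ℝ :=
  ![![R00 jA jB jF jH, R01 jA jB jF jH, 0, 0, 0], ![R01 jA jB jF jH, R11 jA jB jF jH, 0, 0, 0],
    ![0, 0, Rf jA jB jF jH * Real.exp (2 * jF.v), 0, 0],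
    ![0, 0, 0, Rf jA jB jF jH * Real.exp (2 * jF.v) * Real.sin θ ^ 2 +
      Rh jA jB jF jH * Real.exp (2 * jH.v) * Real.cos θ ^ 2,
      Rh jA jB jF jH * Real.exp (2 * jH.v) * Real.cos θ],
    ![0, 0, 0, Rh jA jB jF jH * Real.exp (2 * jH.v) * Real.cos θ,
      Rh jA jB jF jH * Real.exp (2 * jH.v)]]

lemma modelB_ric (jA jB jF jH : Jet) {θ : ℝ} (hs : Real.sin θ ≠ 0) : ∀ i j : Fin 5,
    mRic (mρ jA jB jF jH θ) (mσ jA jB jF jH) (mτ jA jB jF jH) i j = mRT jA jB jF jH θ i j := by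
  have e1 : ∀ x y : ℝ, Real.exp (2 * x - 2 * y) = Real.exp (2 * x) * (Real.exp (2 * y))⁻¹ := by
    intro x y
    rw [Real.exp_sub, div_eq_mul_inv]
  have e2 : ∀ x : ℝ, Real.exp (-2 * x) = (Real.exp (2 * x))⁻¹ := by
    intro x
    rw [← Real.exp_neg, neg_mul]
  have e3 : ∀ x y : ℝ, Real.exp (2 * x - 4 * y)
      = Real.exp (2 * x) * ((Real.exp (2 * y))⁻¹ * (Real.exp (2 * y))⁻¹) := by
    intro x y
    rw [← Real.exp_neg, ← Real.exp_add, ← Real.exp_add]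
    congr 1
    ring
  have ha := Real.exp_ne_zero (2 * jA.v)
  have hb := Real.exp_ne_zero (2 * jB.v)
  have hf := Real.exp_ne_zero (2 * jF.v)
  refine modelA_all5 ?_ ?_ ?_ ?_ ?_ <;> refine modelA_all5 ?_ ?_ ?_ ?_ ?_ <;>
    simp only [mRic, mRT, Fin.sum_univ_five, mG, mdl, Matrix.cons_val, Matrix.cons_val_zero,
      Matrix.cons_val_one, ev_z, ev_v, ev_k, ev_add, ev_mul, ev_neg, dv_z, dv_v, dv_k, dv_add,
      dv_mul, dv_neg, mul_zero, zero_mul, add_zero, zero_add, sub_zero, mρ, mσ, mτ, neg_zero,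
      R00, R01, R11, Rf, Rh, lap5, e1, e2, e3] <;>
    generalize Real.exp (2 * jA.v) = a at * <;> generalize Real.exp (2 * jB.v) = b at * <;>
    generalize Real.exp (2 * jF.v) = f at * <;> generalize Real.exp (2 * jH.v) = h at * <;>
    generalize Real.sin θ = s at * <;> generalize Real.cos θ = c at * <;>
    (try field_simp) <;> (try ring)

end

end Pool.Agent.Work.MP_a9fb1f_gt
end
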