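import Pool.Agent.Work.MP_a9fb1f_gt.PertB

-- merged part: Pool.Agent.Work.MP_a9fb1f_gt.AmbAlg1
section
/-! Algebra of the ambient model. -/

set_option autoImplicit false

open scoped Manifold ContDiff Topology ENNReal Bundle RealInnerProductSpace
open Filter Set

namespace Pool.Agent.Work.MP_a9fb1f_gt

noncomputable section

lemma AmbAlg1_outer_apply (a b : V3) (i j : Fin 3) : outer a b (i, j) = a i * b j := rfl

lemma AmbAlg1_inner3 (a b : V3) : ⟪a, b⟫ = a 0 * b 0 + a 1 * b 1 + a 2 * b 2 := by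
  simp only [PiLp.inner_apply, Fin.sum_univ_three, RCLike.inner_apply, conj_trivial]
  ring

lemma inner_outer (a b c d : V3) : ⟪outer a b, outer c d⟫ = ⟪a, c⟫ * ⟪b, d⟫ := by
  rw [AmbAlg1_inner3 a c, AmbAlg1_inner3 b d]
  simp only [PiLp.inner_apply, Fintype.sum_prod_type, Fin.sum_univ_three, RCLike.inner_apply,
    conj_trivial, AmbAlg1_outer_apply]
  ring

lemma norm_outer (a b : V3) : ‖outer a b‖ = ‖a‖ * ‖b‖ := by
  have h : ‖outer a b‖ ^ 2 = (‖a‖ * ‖b‖) ^ 2 := by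
    rw [← real_inner_self_eq_norm_sq, inner_outer, real_inner_self_eq_norm_sq,
      real_inner_self_eq_norm_sq]
    ring
  exact (pow_left_inj₀ (norm_nonneg _) (by positivity) two_ne_zero).1 h

/-- The product `x yᵀ` as a bilinear map. -/
def AmbAlg1_outerB : V3 →ₗ[ℝ] V3 →ₗ[ℝ] Mat :=
  LinearMap.mk₂ ℝ outer
    (fun a a' b => by ext ij; simp [outer, add_mul])
    (fun r a b => outer_smul_left r a b)
    (fun a b b' => by ext ij; simp [outer, mul_add])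
    (fun r a b => by ext ij; simp [outer, mul_left_comm])

/-- The product `x yᵀ` as a continuous bilinear map. -/
def AmbAlg1_outerL : V3 →L[ℝ] V3 →L[ℝ] Mat :=
  AmbAlg1_outerB.mkContinuous₂ 1 fun a b => by
    change ‖outer a b‖ ≤ _
    rw [norm_outer, one_mul]

lemma AmbAlg1_outerL_apply (a b : V3) : AmbAlg1_outerL a b = outer a b := rfl

lemma contDiff_outer : ContDiff ℝ ∞ fun x : V3 × V3 => outer x.1 x.2 :=
  AmbAlg1_outerL.isBoundedBilinearMap.contDiff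

lemma HasFDerivAt.outer' {X : Type} [NormedAddCommGroup X] [NormedSpace ℝ X] {f g : X → V3}
    {f' g' : X →L[ℝ] V3} {u : X} (hf : HasFDerivAt f f' u) (hg : HasFDerivAt g g' u) :
    ∃ D : X →L[ℝ] Mat, HasFDerivAt (fun x => outer (f x) (g x)) D u ∧
      ∀ v, D v = outer (f' v) (g u) + outer (f u) (g' v) := by
  refine ⟨_, AmbAlg1_outerL.hasFDerivAt_of_bilinear hf hg, fun v => ?_⟩
  simp only [add_apply, ContinuousLinearMap.precompR_apply,
    ContinuousLinearMap.precompL_apply, ContinuousLinearMap.compL_apply,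
    ContinuousLinearMap.comp_apply, AmbAlg1_outerL_apply]
  exact add_comm _ _

lemma Tan.mem {p w : Amb} (h : Tan p w) : p ∈ MS := by
  obtain ⟨e, ν, e', ν', h1, h2, -, -, h5, h6, -, -⟩ := h
  exact ⟨e, ν, h1, h2, h5, h6⟩

lemma AmbAlg1_inv {p w : Amb} (h : Tan p w) :
    ∃ e ν e' ν' : V3, ‖e‖ = 1 ∧ ⟪ν, e⟫ = 0 ∧ zz p = ‖ν‖ ^ 2 ∧ ze p w = ⟪ν, ν'⟫ ∧
      b5 w = ‖e'‖ ^ 2 ∧ ⟪w.2.1, p.2.2⟫ = ⟪e', ν⟫ ∧ b4 p w = ‖ν'‖ ^ 2 - ⟪ν', e⟫ ^ 2 := by
  obtain ⟨e, ν, e', ν', h1, h2, h3, h4, h5, h6, h7, h8⟩ := h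
  have hee : ⟪e, e⟫ = 1 := by rw [real_inner_self_eq_norm_sq, h1, one_pow]
  have h3' : ⟪e, e'⟫ = 0 := by rw [real_inner_comm, h3]
  have hz : zz p = ‖ν‖ ^ 2 := by rw [zz, h6, norm_outer, h1, mul_one]
  have hb : b5 w = ‖e'‖ ^ 2 := by
    rw [b5, h7, norm_add_sq_real, inner_outer, norm_outer, norm_outer, h1, h3]
    ring
  have hx : ⟪w.2.1, p.2.2⟫ = ⟪e', ν⟫ := by
    rw [h7, h6, inner_add_left, inner_outer, inner_outer, hee, h3]
    ring
  refine ⟨e, ν, e', ν', h1, h2, hz, ?_, hb, hx, ?_⟩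
  · rw [ze, h6, h8, inner_add_right, inner_outer, inner_outer, hee, h3']
    ring
  · have hy : ⟪e', ν⟫ = -⟪ν', e⟫ := by rw [real_inner_comm]; linarith
    rw [b4, hz, hb, hx, hy, h8, norm_add_sq_real, inner_outer, norm_outer, norm_outer, h1, h3']
    ring

lemma AmbAlg1_cs (a b : V3) : ⟪a, b⟫ ^ 2 ≤ ‖a‖ ^ 2 * ‖b‖ ^ 2 := by
  have h := abs_real_inner_le_norm a b
  rw [← sq_abs, ← mul_pow]
  exact pow_le_pow_left₀ (abs_nonneg _) h 2

lemma Tan.ad {p w : Amb} (h : Tan p w) : Ad (zz p) (ze p w) (b4 p w) (b5 w) := by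
  obtain ⟨e, ν, e', ν', h1, h2, hz, hζ, hb, -, hc⟩ := AmbAlg1_inv h
  have hm : ‖ν' - ⟪ν', e⟫ • e‖ ^ 2 = ‖ν'‖ ^ 2 - ⟪ν', e⟫ ^ 2 := by
    rw [norm_sub_sq_real, real_inner_smul_right, norm_smul, h1, mul_one, Real.norm_eq_abs,
      sq_abs]
    ring
  have hi : ⟪ν, ν' - ⟪ν', e⟫ • e⟫ = ⟪ν, ν'⟫ := by
    rw [inner_sub_right, real_inner_smul_right, h2, mul_zero, sub_zero]
  refine ⟨by rw [hz]; positivity, by rw [hc, ← hm]; positivity, by rw [hb]; positivity, ?_⟩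
  rw [hζ, hz, hc, ← hm, ← hi]
  exact AmbAlg1_cs _ _

lemma Tan.normN {p w : Amb} (h : Tan p w) : ‖w.2.2‖ ^ 2 ≤ b4 p w + 2 * zz p * b5 w := by
  obtain ⟨e, ν, e', ν', -, -, hz, -, hb, hx, -⟩ := AmbAlg1_inv h
  have := AmbAlg1_cs e' ν
  rw [b4, hz, hb, hx]
  nlinarith

lemma Tan.eq_zero {p w : Amb} (h : Tan p w) (h1 : w.1 = 0) (h4 : b4 p w = 0) (h5 : b5 w = 0) :
    w = 0 := by
  have hN := h.normN
  rw [h4, h5, mul_zero, add_zero] at hN
  have h2 : w.2.2 = 0 := by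
    rw [← norm_eq_zero]
    exact pow_eq_zero_iff (two_ne_zero) |>.1 (le_antisymm hN (by positivity))
  have h3 : w.2.1 = 0 := by
    rw [← norm_eq_zero]
    have : ‖w.2.1‖ ^ 2 = 0 := by rw [b5] at h5; linarith
    exact pow_eq_zero_iff (two_ne_zero) |>.1 this
  exact Prod.ext h1 (Prod.ext h3 h2)

lemma AmbAlg1_entry {X : Type} [NormedAddCommGroup X] [NormedSpace ℝ X] {A : X → Mat}
    {A' : X →L[ℝ] Mat} {u : X} (hA : HasFDerivAt A A' u) (ij : Fin 3 × Fin 3) :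
    HasFDerivAt (fun x => A x ij) ((EuclideanSpace.proj ij : Mat →L[ℝ] ℝ).comp A') u :=
  (EuclideanSpace.proj ij : Mat →L[ℝ] ℝ).hasFDerivAt.comp u hA

lemma AmbAlg1_mul {X : Type} [NormedAddCommGroup X] [NormedSpace ℝ X] {A B C : X → Mat}
    {A' B' C' : X →L[ℝ] Mat} {u : X} (hA : HasFDerivAt A A' u) (hB : HasFDerivAt B B' u)
    (hC : HasFDerivAt C C' u) (i j : Fin 3)
    (h : ∀ᶠ x in 𝓝 u, C x (i, j) =
      A x (i, 0) * B x (0, j) + A x (i, 1) * B x (1, j) + A x (i, 2) * B x (2, j)) (v : X) :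
    C' v (i, j) = (A u (i, 0) * B' v (0, j) + B u (0, j) * A' v (i, 0)) +
      (A u (i, 1) * B' v (1, j) + B u (1, j) * A' v (i, 1)) +
      (A u (i, 2) * B' v (2, j) + B u (2, j) * A' v (i, 2)) := by
  have h1 := (((AmbAlg1_entry hA (i, 0)).mul (AmbAlg1_entry hB (0, j))).add
    ((AmbAlg1_entry hA (i, 1)).mul (AmbAlg1_entry hB (1, j)))).add
    ((AmbAlg1_entry hA (i, 2)).mul (AmbAlg1_entry hB (2, j)))
  have h2 := (AmbAlg1_entry hC (i, j)).unique (h1.congr_of_eventuallyEq h)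
  have h3 := congrArg (fun L : X →L[ℝ] ℝ => L v) h2
  simpa using h3

lemma tan_of_hasFDerivAt {X : Type} [NormedAddCommGroup X] [NormedSpace ℝ X] {γ : X → Amb}
    {γ' : X →L[ℝ] Amb} {u : X} (hm : ∀ᶠ x in 𝓝 u, γ x ∈ MS) (hd : HasFDerivAt γ γ' u) (v : X) :
    Tan (γ u) (γ' v) := by
  have hP := hd.snd.fst
  have hN := hd.snd.snd
  have hO : HasFDerivAt (fun _ : X => (0 : Mat)) (0 : X →L[ℝ] Mat) u := hasFDerivAt_const _ _
  have key : ∀ p ∈ MS, ∃ e ν : V3, e 0 * e 0 + e 1 * e 1 + e 2 * e 2 = 1 ∧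
      ν 0 * e 0 + ν 1 * e 1 + ν 2 * e 2 = 0 ∧ p.2.1 = outer e e ∧ p.2.2 = outer ν e := by
    rintro p ⟨e, ν, h1, h2, h3, h4⟩
    refine ⟨e, ν, ?_, ?_, h3, h4⟩
    · rw [← AmbAlg1_inner3, real_inner_self_eq_norm_sq, h1, one_pow]
    · rw [← AmbAlg1_inner3, h2]
  have H1 := fun i j => AmbAlg1_mul hP hP hP i j (hm.mono fun x hx => by
    obtain ⟨e, ν, h1, h2, h3, h4⟩ := key _ hx
    simp only [h3, AmbAlg1_outer_apply]
    linear_combination (-(e i * e j)) * h1) v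
  have H2 := fun i j => AmbAlg1_mul hN hP hN i j (hm.mono fun x hx => by
    obtain ⟨e, ν, h1, h2, h3, h4⟩ := key _ hx
    simp only [h3, h4, AmbAlg1_outer_apply]
    linear_combination (-(ν i * e j)) * h1) v
  have H3 := fun i j => AmbAlg1_mul hP hN hO i j (hm.mono fun x hx => by
    obtain ⟨e, ν, h1, h2, h3, h4⟩ := key _ hx
    simp only [h3, h4, AmbAlg1_outer_apply, PiLp.zero_apply]
    linear_combination (-(e i * e j)) * h2) v
  have Hs : ∀ i j, (γ' v).2.1 (i, j) = (γ' v).2.1 (j, i) := by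
    intro i j
    have h2 := (AmbAlg1_entry hP (i, j)).unique
      ((AmbAlg1_entry hP (j, i)).congr_of_eventuallyEq (hm.mono fun x hx => by
        obtain ⟨e, ν, h1, h2, h3, h4⟩ := key _ hx
        simp only [h3, AmbAlg1_outer_apply]
        ring))
    have h3 := congrArg (fun L : X →L[ℝ] ℝ => L v) h2
    simpa using h3
  obtain ⟨e, ν, h1, h2, h3, h4⟩ := hm.self_of_nhds
  have he : e 0 * e 0 + e 1 * e 1 + e 2 * e 2 = 1 := by
    rw [← AmbAlg1_inner3, real_inner_self_eq_norm_sq, h1, one_pow]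
  simp only [h3, h4, AmbAlg1_outer_apply, ContinuousLinearMap.comp_apply,
    ContinuousLinearMap.coe_fst', ContinuousLinearMap.coe_snd', zero_apply,
    PiLp.zero_apply] at H1 H2 H3
  obtain ⟨P, hPd⟩ : ∃ P : Mat, P = (γ' v).2.1 := ⟨_, rfl⟩
  obtain ⟨N, hNd⟩ : ∃ N : Mat, N = (γ' v).2.2 := ⟨_, rfl⟩
  rw [← hPd] at H1 H2 H3 Hs
  rw [← hNd] at H2 H3
  refine ⟨e, ν, WithLp.toLp 2 fun j => e 0 * P (0, j) + e 1 * P (1, j) + e 2 * P (2, j),
    WithLp.toLp 2 fun i => N (i, 0) * e 0 + N (i, 1) * e 1 + N (i, 2) * e 2, h1, h2, ?_, ?_,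
    h3, h4, ?_, ?_⟩
  · rw [AmbAlg1_inner3]
    simp only []
    linear_combination
      -(e 0 * e 0 * H1 0 0 + e 0 * e 1 * H1 0 1 + e 0 * e 2 * H1 0 2 +
        e 1 * e 0 * H1 1 0 + e 1 * e 1 * H1 1 1 + e 1 * e 2 * H1 1 2 +
        e 2 * e 0 * H1 2 0 + e 2 * e 1 * H1 2 1 + e 2 * e 2 * H1 2 2) -
      2 * ((e 0 * P (0, 0) + e 1 * P (1, 0) + e 2 * P (2, 0)) * e 0 +
        (e 0 * P (0, 1) + e 1 * P (1, 1) + e 2 * P (2, 1)) * e 1 +
        (e 0 * P (0, 2) + e 1 * P (1, 2) + e 2 * P (2, 2)) * e 2) * he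
  · rw [AmbAlg1_inner3, AmbAlg1_inner3]
    simp only []
    linear_combination
      -(e 0 * e 0 * H3 0 0 + e 0 * e 1 * H3 0 1 + e 0 * e 2 * H3 0 2 +
        e 1 * e 0 * H3 1 0 + e 1 * e 1 * H3 1 1 + e 1 * e 2 * H3 1 2 +
        e 2 * e 0 * H3 2 0 + e 2 * e 1 * H3 2 1 + e 2 * e 2 * H3 2 2) -
      (((N (0, 0) * e 0 + N (0, 1) * e 1 + N (0, 2) * e 2) * e 0 +
        (N (1, 0) * e 0 + N (1, 1) * e 1 + N (1, 2) * e 2) * e 1 +
        (N (2, 0) * e 0 + N (2, 1) * e 1 + N (2, 2) * e 2) * e 2) +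
        (ν 0 * (e 0 * P (0, 0) + e 1 * P (1, 0) + e 2 * P (2, 0)) +
        ν 1 * (e 0 * P (0, 1) + e 1 * P (1, 1) + e 2 * P (2, 1)) +
        ν 2 * (e 0 * P (0, 2) + e 1 * P (1, 2) + e 2 * P (2, 2)))) * he
  · rw [← hPd]
    ext ⟨i, j⟩
    simp only [PiLp.add_apply, AmbAlg1_outer_apply]
    linear_combination H1 i j + e 0 * e j * Hs i 0 + e 1 * e j * Hs i 1 + e 2 * e j * Hs i 2
  · rw [← hNd]
    ext ⟨i, j⟩
    simp only [PiLp.add_apply, AmbAlg1_outer_apply]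
    linear_combination H2 i j

lemma Good.pos' {E : Ed} (hE : Good E) {p w : Amb} (h : Tan p w) (hw : w ≠ 0) :
    0 < Gf E p w := by
  refine hE.pos (p.1, zz p) _ _ _ _ h.ad ?_
  by_contra hc
  push Not at hc
  exact hw (h.eq_zero hc.1 hc.2.1 hc.2.2)

lemma Good.nonneg {E : Ed} (hE : Good E) {p w : Amb} (h : Tan p w) : 0 ≤ Gf E p w := by
  by_cases hw : w = 0
  · subst hw
    simp [Gf, Qf, ze, b4, b5]
  · exact (hE.pos' h hw).le

lemma AmbAlg1_GA_apply (E : Ed) (p w w' : Amb) : GA E p w w' =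
    E (p.1, zz p) 0 * (w.1 * w'.1) +
      E (p.1, zz p) 1 * (w.1 * ⟪p.2.2, w'.2.2⟫ + ⟪p.2.2, w.2.2⟫ * w'.1) +
      E (p.1, zz p) 2 * (⟪p.2.2, w.2.2⟫ * ⟪p.2.2, w'.2.2⟫) +
      E (p.1, zz p) 3 * (⟪w.2.2, w'.2.2⟫ - ⟪p.2.2, w.2.1⟫ * ⟪p.2.2, w'.2.1⟫) +
      ((E (p.1, zz p) 4 - zz p * E (p.1, zz p) 3) / 2) * ⟪w.2.1, w'.2.1⟫ := by
  simp only [GA, add_apply, smul_apply, sub_apply, ContinuousLinearMap.smulRight_apply,
    ContinuousLinearMap.bilinearComp_apply, ContinuousLinearMap.comp_apply,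
    ContinuousLinearMap.coe_fst', ContinuousLinearMap.coe_snd', innerSL_apply_apply, smul_eq_mul]
  rfl

lemma GA_self (E : Ed) (p w : Amb) : GA E p w w = Gf E p w := by
  rw [AmbAlg1_GA_apply, Gf, Qf, ze, b4, b5, real_inner_self_eq_norm_sq,
    real_inner_self_eq_norm_sq, real_inner_comm p.2.2 w.2.1]
  ring

lemma GA_symm (E : Ed) (p w w' : Amb) : GA E p w w' = GA E p w' w := by
  rw [AmbAlg1_GA_apply, AmbAlg1_GA_apply, real_inner_comm w.2.2 w'.2.2,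
    real_inner_comm w.2.1 w'.2.1]
  ring

lemma Good.contDiffAt_GA {E : Ed} (hE : Good E) (p : Amb) : ContDiffAt ℝ ∞ (GA E) p := by
  have hz : ContDiff ℝ ∞ zz := (contDiff_snd.snd).norm_sq ℝ
  have hc : ContDiffAt ℝ ∞ (fun q : Amb => E (q.1, zz q)) p :=
    (hE.smooth (p.1, zz p) (by simp only [zz]; positivity)).comp p
      (contDiff_fst.prodMk hz).contDiffAt
  have hi : ∀ i, ContDiffAt ℝ ∞ (fun q : Amb => E (q.1, zz q) i) p := contDiffAt_pi.1 hc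
  have hin : ∀ L : Amb →L[ℝ] Mat, ContDiffAt ℝ ∞
      (fun q : Amb => ((innerSL ℝ q.2.2).comp L : Amb →L[ℝ] ℝ)) p := fun L =>
    (((innerSL ℝ : Mat →L[ℝ] Mat →L[ℝ] ℝ).contDiff.comp contDiff_snd.snd).clm_comp
      contDiff_const).contDiffAt
  unfold GA
  refine (((((hi 0).smul contDiffAt_const).add ((hi 1).smul
    ((contDiffAt_const.smulRight (hin _)).add ((hin _).smulRight contDiffAt_const)))).add
    ((hi 2).smul ((hin _).smulRight (hin _)))).add ((hi 3).smul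
    (contDiffAt_const.sub ((hin _).smulRight (hin _))))).add
    ((((hi 4).sub (hz.contDiffAt.mul (hi 3))).div_const 2).smul contDiffAt_const)

end

end Pool.Agent.Work.MP_a9fb1f_gt
end

-- merged part: Pool.Agent.Work.MP_a9fb1f_gt.AmbAlg
section
/-! Algebra of the ambient model. -/

set_option autoImplicit false

open scoped Manifold ContDiff Topology ENNReal Bundle RealInnerProductSpace
open Filter Set

namespace Pool.Agent.Work.MP_a9fb1f_gt

noncomputable section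

lemma AmbAlg_outer_add (x y e : V3) : outer (x + y) e = outer x e + outer y e := by
  ext ij
  simp [outer, add_mul]

lemma AmbAlg_compact (a : ℝ) : IsCompact {p : Amb | p ∈ MS ∧ |p.1| ≤ a ∧ ‖p.2.2‖ ≤ a} := by
  have hS : IsCompact {x : ℝ × V3 × V3 |
      |x.1| ≤ a ∧ ‖x.2.1‖ = 1 ∧ ⟪x.2.2, x.2.1⟫ = 0 ∧ ‖x.2.2‖ ≤ a} := by
    refine Metric.isCompact_of_isClosed_isBounded ?_ ?_
    · have c1 : IsClosed {x : ℝ × V3 × V3 | |x.1| ≤ a} :=
        isClosed_le (by fun_prop) continuous_const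
      have c2 : IsClosed {x : ℝ × V3 × V3 | ‖x.2.1‖ = 1} :=
        isClosed_eq (by fun_prop) continuous_const
      have c3 : IsClosed {x : ℝ × V3 × V3 | ⟪x.2.2, x.2.1⟫ = 0} :=
        isClosed_eq (by fun_prop) continuous_const
      have c4 : IsClosed {x : ℝ × V3 × V3 | ‖x.2.2‖ ≤ a} :=
        isClosed_le (by fun_prop) continuous_const
      exact c1.inter (c2.inter (c3.inter c4))
    · refine isBounded_iff_forall_norm_le.2 ⟨max a 1, ?_⟩
      rintro ⟨t, e, ν⟩ ⟨h1, h2, -, h4⟩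
      simp only [Prod.norm_mk, Real.norm_eq_abs] at *
      exact max_le (h1.trans (le_max_left _ _))
        (max_le (h2.le.trans (le_max_right _ _)) (h4.trans (le_max_left _ _)))
  have ho : Continuous fun x : V3 × V3 => outer x.1 x.2 := contDiff_outer.continuous
  have hc : Continuous fun x : ℝ × V3 × V3 =>
      ((x.1, outer x.2.1 x.2.1, outer x.2.2 x.2.1) : Amb) :=
    continuous_fst.prodMk
      ((ho.comp (f := fun x : ℝ × V3 × V3 => (x.2.1, x.2.1)) (by fun_prop)).prodMk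
        (ho.comp (f := fun x : ℝ × V3 × V3 => (x.2.2, x.2.1)) (by fun_prop)))
  convert hS.image hc using 1
  ext p
  constructor
  · rintro ⟨⟨e, ν, h1, h2, h3, h4⟩, h5, h6⟩
    refine ⟨(p.1, e, ν), ⟨h5, h1, h2, ?_⟩, Prod.ext rfl (Prod.ext h3.symm h4.symm)⟩
    rwa [h4, norm_outer, h1, mul_one] at h6
  · rintro ⟨⟨t, e, ν⟩, ⟨h1, h2, h3, h4⟩, rfl⟩
    refine ⟨⟨e, ν, h2, h3, rfl, rfl⟩, h1, ?_⟩
    simp only at h2 h4 ⊢
    rwa [norm_outer, h2, mul_one]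

lemma isClosed_MS : IsClosed MS := by
  refine isClosed_of_closure_subset fun p hp => ?_
  have h1 : p ∈ closure (Metric.ball (0 : Amb) (‖p‖ + 1) ∩ MS) :=
    Metric.isOpen_ball.inter_closure ⟨by simp, hp⟩
  have h2 : Metric.ball (0 : Amb) (‖p‖ + 1) ∩ MS ⊆
      {q : Amb | q ∈ MS ∧ |q.1| ≤ ‖p‖ + 1 ∧ ‖q.2.2‖ ≤ ‖p‖ + 1} := by
    rintro q ⟨hq, hq'⟩
    rw [mem_ball_zero_iff] at hq
    exact ⟨hq', (norm_fst_le q).trans hq.le,
      ((norm_snd_le q.2).trans (norm_snd_le q)).trans hq.le⟩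
  exact ((AmbAlg_compact _).isClosed.closure_subset_iff.2 h2 h1).1

lemma norm_proj (p : Mf) : ‖p.1.2.1‖ = 1 := by
  obtain ⟨e, ν, h1, -, h3, -⟩ := p.2
  rw [h3, norm_outer, h1, mul_one]

lemma isCompact_box (a : ℝ) : IsCompact {p : Mf | |p.1.1| ≤ a ∧ ‖p.1.2.2‖ ≤ a} := by
  rw [Subtype.isCompact_iff]
  convert AmbAlg_compact a using 1
  ext p
  constructor
  · rintro ⟨q, hq, rfl⟩
    exact ⟨q.2, hq⟩
  · rintro ⟨h1, h2⟩
    exact ⟨⟨p, h1⟩, h2, rfl⟩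

lemma AmbAlg_key {y e y' e' : V3} (he : ‖e‖ = 1) (he' : ‖e'‖ = 1) (h : outer y e = outer y' e')
    (h0 : outer y e ≠ 0) : outer e e = outer e' e' := by
  have hn : ‖y‖ = ‖y'‖ := by
    have := congrArg norm h
    rwa [norm_outer, norm_outer, he, he', mul_one, mul_one] at this
  have hy : 0 < ‖y‖ := by
    have := norm_pos_iff.2 h0
    rwa [norm_outer, he, mul_one] at this
  have h1 : ‖y‖ ^ 2 = ⟪y', y⟫ * ⟪e', e⟫ := by
    have := inner_outer y' e' y e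
    rw [← h, inner_outer, real_inner_self_eq_norm_sq, real_inner_self_eq_norm_sq, he] at this
    linarith
  have h2 : |⟪y', y⟫| ≤ ‖y‖ ^ 2 := by
    have := abs_real_inner_le_norm y' y
    rwa [← hn, ← sq] at this
  have h3 : 1 ≤ |⟪e', e⟫| := by
    by_contra hlt
    push Not at hlt
    have h4 : ‖y‖ ^ 2 ≤ |⟪y', y⟫| * |⟪e', e⟫| := by
      rw [← abs_mul, ← h1]; exact le_abs_self _
    have h5 : 0 < ‖y‖ ^ 2 := by positivity
    nlinarith [abs_nonneg ⟪e', e⟫, abs_nonneg ⟪y', y⟫]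
  have h4 : ‖outer e' e' - outer e e‖ ^ 2 ≤ 0 := by
    rw [norm_sub_sq_real, norm_outer, norm_outer, inner_outer, he, he']
    nlinarith [sq_abs ⟪e', e⟫]
  have h5 : ‖outer e' e' - outer e e‖ = 0 := by nlinarith [norm_nonneg (outer e' e' - outer e e)]
  exact (sub_eq_zero.1 (norm_eq_zero.1 h5)).symm

lemma eq_of_N_eq {p q : Mf} (ht : p.1.1 = q.1.1) (hN : p.1.2.2 = q.1.2.2) (h0 : p.1.2.2 ≠ 0) :
    p = q := by
  obtain ⟨e, ν, h1, -, h3, h4⟩ := p.2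
  obtain ⟨e', ν', h1', -, h3', h4'⟩ := q.2
  refine Subtype.ext (Prod.ext ht (Prod.ext ?_ hN))
  rw [h3, h3']
  exact AmbAlg_key h1 h1' (by rw [← h4, ← h4', hN]) (by rwa [← h4])

lemma AmbAlg_inner (p : Mf) : ⟪p.1.2.1, p.1.2.2⟫ = 0 := by
  obtain ⟨e, ν, -, h2, h3, h4⟩ := p.2
  rw [h3, h4, inner_outer, real_inner_comm, h2, zero_mul]

lemma norm_A_sq (p : Mf) : ‖p.1.1 • p.1.2.1 + p.1.2.2‖ ^ 2 = p.1.1 ^ 2 + zz p.1 := by
  rw [norm_add_sq_real, real_inner_smul_left, AmbAlg_inner, norm_smul, norm_proj, zz,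
    Real.norm_eq_abs, mul_one, sq_abs]
  ring

lemma eq_of_A_eq {p q : Mf} (h : p.1.1 • p.1.2.1 + p.1.2.2 = q.1.1 • q.1.2.1 + q.1.2.2)
    (h0 : p.1.1 • p.1.2.1 + p.1.2.2 ≠ 0) : p = q := by
  have hP : p.1.2.1 = q.1.2.1 := by
    obtain ⟨e, ν, h1, -, h3, h4⟩ := p.2
    obtain ⟨e', ν', h1', -, h3', h4'⟩ := q.2
    rw [h3, h4, ← outer_smul_left, ← AmbAlg_outer_add] at h h0
    rw [h3', h4', ← outer_smul_left, ← AmbAlg_outer_add] at h
    rw [h3, h3']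
    exact AmbAlg_key h1 h1' h h0
  have ht : ∀ r : Mf, ⟪r.1.2.1, r.1.1 • r.1.2.1 + r.1.2.2⟫ = r.1.1 := fun r => by
    rw [inner_add_right, real_inner_smul_right, AmbAlg_inner, real_inner_self_eq_norm_sq,
      norm_proj]
    ring
  have h1 : p.1.1 = q.1.1 := by rw [← ht p, ← ht q, h, hP]
  refine Subtype.ext (Prod.ext h1 (Prod.ext hP ?_))
  rw [h1, hP] at h
  exact add_left_cancel h

lemma dil_surjective (c : ℝ) {r : ℝ} (hr : r ≠ 0) : Function.Surjective (dil c r) := by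
  intro p
  refine ⟨dil (-(c / r)) r⁻¹ p, Subtype.ext (Prod.ext ?_ (Prod.ext rfl ?_))⟩
  · simp only [dil, dilA]
    field_simp
    ring
  · simp only [dil, dilA, smul_smul, mul_inv_cancel₀ hr, one_smul]

end

end Pool.Agent.Work.MP_a9fb1f_gt
end

-- merged part: Pool.Agent.Work.MP_a9fb1f_gt.Path1
section
/-! Upper and lower bounds for the length distance. -/

set_option autoImplicit false

open scoped Manifold ContDiff Topology ENNReal Bundle RealInnerProductSpace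
open Filter Set

namespace Pool.Agent.Work.MP_a9fb1f_gt

noncomputable section

variable {E E' : Ed}

lemma Path1_perp {e : V3} (he : ‖e‖ = 1) (u : V3) (hu : ⟪u, e⟫ = 0) :
    ∃ f : V3, ‖f‖ = 1 ∧ ⟪f, e⟫ = 0 ∧ u = ‖u‖ • f := by
  by_cases h : u = 0
  · have h0 : e ≠ 0 := by
      rintro rfl
      simp at he
    have : Fact (Module.finrank ℝ V3 = 2 + 1) := ⟨by simp⟩
    have h1 : Module.finrank ℝ (ℝ ∙ e)ᗮ = 2 := Submodule.finrank_orthogonal_span_singleton h0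
    have h2 : (ℝ ∙ e)ᗮ ≠ ⊥ := by
      intro h3
      rw [h3, finrank_bot] at h1
      exact absurd h1 (by norm_num)
    obtain ⟨g, hg, hg0⟩ := Submodule.exists_mem_ne_zero_of_ne_bot h2
    refine ⟨‖g‖⁻¹ • g, ?_, ?_, by simp [h]⟩
    · rw [norm_smul, norm_inv, norm_norm, inv_mul_cancel₀ (norm_ne_zero_iff.2 hg0)]
    · rw [real_inner_smul_left, Submodule.mem_orthogonal_singleton_iff_inner_left.1 hg, mul_zero]
  · have h1 := norm_ne_zero_iff.2 h
    refine ⟨‖u‖⁻¹ • u, ?_, ?_, ?_⟩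
    · rw [norm_smul, norm_inv, norm_norm, inv_mul_cancel₀ h1]
    · rw [real_inner_smul_left, hu, mul_zero]
    · rw [smul_smul, mul_inv_cancel₀ h1, one_smul]

lemma Path1_norm {e f : V3} (he : ‖e‖ = 1) (hf : ‖f‖ = 1) (h : ⟪f, e⟫ = 0) (a b : ℝ) :
    ‖a • e + b • f‖ ^ 2 = a ^ 2 + b ^ 2 := by
  rw [norm_add_sq_real, norm_smul, norm_smul, he, hf, real_inner_smul_left, real_inner_smul_right,
    real_inner_comm, h]
  simp

lemma exists_rot {e e' : V3} (he : ‖e‖ = 1) (he' : ‖e'‖ = 1) :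
    ∃ c : ℝ → V3, ContDiff ℝ ∞ c ∧ (∀ s, ‖c s‖ = 1) ∧ c 0 = e ∧ c 1 = e' ∧
      ∀ s, ‖deriv c s‖ ≤ 4 := by
  have hee : ⟪e, e⟫ = 1 := by rw [real_inner_self_eq_norm_sq, he, one_pow]
  obtain ⟨f, hf, hfe, hu⟩ := Path1_perp he (e' - ⟪e', e⟫ • e) (by
    rw [inner_sub_left, real_inner_smul_left, hee, mul_one, sub_self])
  generalize ⟪e', e⟫ = a at hu
  have h0 := norm_nonneg (e' - a • e)
  generalize ‖e' - a • e‖ = b at hu h0
  have h1 : e' = a • e + b • f := by rw [← hu, add_sub_cancel]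
  have h2 : a ^ 2 + b ^ 2 = 1 := by rw [← Path1_norm he hf hfe, ← h1, he', one_pow]
  have ha : |a| ≤ 1 := by
    rw [← sq_le_one_iff_abs_le_one]
    nlinarith [sq_nonneg b]
  have hc : Real.cos (Real.arccos a) = a := Real.cos_arccos (abs_le.1 ha).1 (abs_le.1 ha).2
  have hs : Real.sin (Real.arccos a) = b := by
    rw [Real.sin_arccos, show 1 - a ^ 2 = b ^ 2 by linarith, Real.sqrt_sq h0]
  have t0 := Real.arccos_nonneg a
  have t1 := (Real.arccos_le_pi a).trans Real.pi_le_four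
  generalize Real.arccos a = θ at hc hs t0 t1
  refine ⟨fun s => Real.cos (θ * s) • e + Real.sin (θ * s) • f, by fun_prop, fun s => ?_, by simp,
    by simp [hc, hs, h1], fun s => ?_⟩
  · rw [← sq_eq_sq₀ (norm_nonneg _) zero_le_one, Path1_norm he hf hfe, Real.cos_sq_add_sin_sq,
      one_pow]
  · have d0 : HasDerivAt (fun s => θ * s) θ s := by simpa using (hasDerivAt_id s).const_mul θ
    have d1 := (d0.cos.smul_const e).add (d0.sin.smul_const f)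
    rw [show deriv (fun s => Real.cos (θ * s) • e + Real.sin (θ * s) • f) s = _ from d1.deriv]
    refine le_trans (le_of_eq ?_) t1
    rw [← sq_eq_sq₀ (norm_nonneg _) t0, Path1_norm he hf hfe]
    nlinarith [Real.cos_sq_add_sin_sq (θ * s)]

lemma Path1_outer {f g : ℝ → V3} (hf : ContDiff ℝ ∞ f) (hg : ContDiff ℝ ∞ g) :
    ContDiff ℝ ∞ fun s => outer (f s) (g s) := contDiff_outer.comp (hf.prodMk hg)

lemma Path1_le {p q : Amb} {γ : ℝ → Amb} (h1 : ContDiff ℝ 1 γ) (h2 : ∀ s, γ s ∈ MS) (h3 : γ 0 = p)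
    (h4 : γ 1 = q) {B : ℝ} (h : ∀ s ∈ Icc (0 : ℝ) 1, √(Gf E (γ s) (deriv γ s)) ≤ B) :
    eD E p q ≤ ENNReal.ofReal B := by
  refine (iInf₂_le_of_le γ h1 (iInf₂_le_of_le h2 h3 (iInf_le _ h4))).trans ?_
  refine (MeasureTheory.setLIntegral_mono' measurableSet_Icc fun s hs =>
    ENNReal.ofReal_le_ofReal (h s hs)).trans ?_
  simp

lemma eD_ne_top (hE : Good E) (p q : Mf) : eD E p q ≠ ⊤ := by
  obtain ⟨e, ν, a1, a2, a3, a4⟩ := p.2
  obtain ⟨e', ν', b1, b2, b3, b4⟩ := q.2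
  obtain ⟨c, c1, c2, c3, c4, -⟩ := exists_rot a1 b1
  let μ : ℝ → V3 := fun s => (1 - s) • ν + s • ν'
  have hμ : ContDiff ℝ ∞ μ := by fun_prop
  let γ : ℝ → Amb := fun s => ((1 - s) * p.1.1 + s * q.1.1, outer (c s) (c s),
    outer (μ s - ⟪μ s, c s⟫ • c s) (c s))
  have hγ : ContDiff ℝ ∞ γ :=
    ContDiff.prodMk (by fun_prop) ((Path1_outer c1 c1).prodMk
      (Path1_outer (hμ.sub ((hμ.inner ℝ c1).smul c1)) c1))
  have hγ1 : ContDiff ℝ 1 γ := hγ.of_le (by exact_mod_cast le_top)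
  have hc : Continuous fun s => √(Gf E (γ s) (deriv γ s)) := by
    have h1 : Continuous (GA E) :=
      continuous_iff_continuousAt.2 fun x => (hE.contDiffAt_GA x).continuousAt
    have h2 : Continuous (deriv γ) := hγ1.continuous_deriv le_rfl
    simp only [← GA_self]
    exact (((h1.comp hγ.continuous).clm_apply h2).clm_apply h2).sqrt
  obtain ⟨B, hB⟩ := isCompact_Icc.bddAbove_image (hc.continuousOn (s := Icc (0 : ℝ) 1))
  refine ne_top_of_le_ne_top ENNReal.ofReal_ne_top (Path1_le (B := B) hγ1 (fun s => ?_) ?_ ?_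
    fun s hs => hB ⟨s, hs, rfl⟩)
  · refine ⟨c s, _, c2 s, ?_, rfl, rfl⟩
    rw [inner_sub_left, real_inner_smul_left, real_inner_self_eq_norm_sq, c2, one_pow, mul_one,
      sub_self]
  · refine Prod.ext (by simp [γ]) (Prod.ext ?_ ?_)
    · simp only [γ, c3, a3]
    · simp [γ, μ, c3, a4, a2]
  · refine Prod.ext (by simp [γ]) (Prod.ext ?_ ?_)
    · simp only [γ, c4, b3]
    · simp [γ, μ, c4, b4, b2]

/-- Two points of the same bubble. -/
lemma dE_axis {p q : Mf} (ht : p.1.1 = q.1.1) (hp : p.1.2.2 = 0) (hq : q.1.2.2 = 0) {b : ℝ}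
    (hb : 0 ≤ b) (h : E (p.1.1, 0) 4 ≤ b ^ 2) : dE E p q ≤ 4 * b := by
  obtain ⟨e, ν, a1, -, a3, -⟩ := p.2
  obtain ⟨e', ν', b1, -, b3, -⟩ := q.2
  obtain ⟨c, c1, c2, c3, c4, c5⟩ := exists_rot a1 b1
  let γ : ℝ → Amb := fun s => (p.1.1, outer (c s) (c s), 0)
  have hγ : ContDiff ℝ ∞ γ :=
    contDiff_const.prodMk ((Path1_outer c1 c1).prodMk contDiff_const)
  have hγ1 : ContDiff ℝ 1 γ := hγ.of_le (by exact_mod_cast le_top)
  refine ENNReal.toReal_le_of_le_ofReal (by positivity) (Path1_le hγ1 (fun s => ?_) ?_ ?_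
    fun s _ => ?_)
  · refine ⟨c s, 0, c2 s, inner_zero_left _, rfl, ?_⟩
    rw [← zero_smul ℝ (0 : V3), outer_smul_left, zero_smul]
  · exact Prod.ext rfl (Prod.ext (by simp only [γ, c3, a3]) hp.symm)
  · exact Prod.ext ht (Prod.ext (by simp only [γ, c4, b3]) hq.symm)
  have d0 : HasDerivAt c (deriv c s) s := (c1.differentiable (by simp) s).hasDerivAt
  obtain ⟨D, hD, hD'⟩ := HasFDerivAt.outer' d0.hasFDerivAt d0.hasFDerivAt
  have d1 : HasDerivAt γ (0, outer (deriv c s) (c s) + outer (c s) (deriv c s), 0) s := by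
    refine (hasDerivAt_const s _).prodMk (HasDerivAt.prodMk ?_ (hasDerivAt_const s _))
    have := hD.hasDerivAt
    rwa [hD', ContinuousLinearMap.toSpanSingleton_apply, one_smul] at this
  have d2 : ⟪c s, deriv c s⟫ = 0 := by
    have h1 := d0.norm_sq
    simp only [c2] at h1
    have h2 := h1.unique (hasDerivAt_const s _)
    linarith
  have h3 : ‖outer (deriv c s) (c s) + outer (c s) (deriv c s)‖ ^ 2 = 2 * ‖deriv c s‖ ^ 2 := by
    rw [norm_add_sq_real, norm_outer, norm_outer, inner_outer, d2, c2]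
    ring
  have h4 : Gf E (γ s) (deriv γ s) = E (p.1.1, 0) 4 * ‖deriv c s‖ ^ 2 := by
    rw [d1.deriv]
    simp [Gf, Qf, zz, ze, MP_a9fb1f_gt.b4, b5, γ, h3]
  rw [h4, Real.sqrt_le_left (by positivity)]
  have h5 : ‖deriv c s‖ ^ 2 ≤ 4 ^ 2 := pow_le_pow_left₀ (norm_nonneg _) (c5 s) 2
  calc _ ≤ b ^ 2 * ‖deriv c s‖ ^ 2 := by gcongr
    _ ≤ b ^ 2 * 4 ^ 2 := by gcongr
    _ = (4 * b) ^ 2 := by ring

end

end Pool.Agent.Work.MP_a9fb1f_gt
end
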