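import Pool.Agent.Work.MP_a9fb1f_gt.PertB
import Pool.Agent.Work.MP_a9fb1f_gt.Path1

-- merged part: Pool.Agent.Work.MP_a9fb1f_gt.Adm
section
/-! Admissible points: the Ricci tensor is nonnegative in suitable coordinates. -/

set_option autoImplicit false

open scoped Manifold ContDiff Topology ENNReal Bundle RealInnerProductSpace
open Filter Set

namespace Pool.Agent.Work.MP_a9fb1f_gt

noncomputable section

/-- Near `(t, ρ)` the metric is a model metric with nonnegative Ricci tensor. -/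
def Adm (E : Ed) (t ρ : ℝ) : Prop :=
  ∃ (β : ℝ × ℝ → ℝ × ℝ) (q : ℝ × ℝ) (A B F H : ℝ × ℝ → ℝ) (jA jB jF jH : Jet),
    ContDiffAt ℝ 3 β q ∧ β q = (t, ρ) ∧ HasJet A jA q ∧ HasJet B jB q ∧ HasJet F jF q ∧
    HasJet H jH q ∧ RicOK jA jB jF jH ∧ ∀ᶠ x in 𝓝 q,
      (∀ v : ℝ × ℝ, Qf (E ((β x).1, (β x).2 ^ 2)) (fderiv ℝ β x v).1
        ((β x).2 * (fderiv ℝ β x v).2) ((fderiv ℝ β x v).2 ^ 2) 0 =
          Real.exp (2 * A x) * v.1 ^ 2 + Real.exp (2 * B x) * v.2 ^ 2) ∧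
      E ((β x).1, (β x).2 ^ 2) 3 * (β x).2 ^ 2 = Real.exp (2 * H x) ∧
      E ((β x).1, (β x).2 ^ 2) 4 = Real.exp (2 * F x)

end

end Pool.Agent.Work.MP_a9fb1f_gt
end

-- merged part: Pool.Agent.Work.MP_a9fb1f_gt.Euler1
section
/-! Euler angles and the maps that give the charts. -/

set_option autoImplicit false

open scoped Manifold ContDiff Topology ENNReal Bundle RealInnerProductSpace
open Filter Set

namespace Pool.Agent.Work.MP_a9fb1f_gt

noncomputable section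

/-- The third vector of the frame. -/
def euler1_m (θ φ ψ : ℝ) : V3 :=
  !₂[-(Real.sin ψ * (Real.cos θ * Real.cos φ)) - Real.cos ψ * Real.sin φ,
    -(Real.sin ψ * (Real.cos θ * Real.sin φ)) + Real.cos ψ * Real.cos φ, Real.sin ψ * Real.sin θ]

lemma euler1_inner (a b : V3) : ⟪a, b⟫ = a 0 * b 0 + a 1 * b 1 + a 2 * b 2 := by
  simp [PiLp.inner_apply, Fin.sum_univ_three, mul_comm]

lemma euler1_frame (θ φ ψ : ℝ) : ⟪eE θ φ, eE θ φ⟫ = 1 ∧ ⟪nE θ φ ψ, nE θ φ ψ⟫ = 1 ∧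
    ⟪euler1_m θ φ ψ, euler1_m θ φ ψ⟫ = 1 ∧ ⟪nE θ φ ψ, eE θ φ⟫ = 0 ∧
    ⟪euler1_m θ φ ψ, eE θ φ⟫ = 0 ∧ ⟪euler1_m θ φ ψ, nE θ φ ψ⟫ = 0 := by
  have h1 := Real.sin_sq_add_cos_sq θ
  have h2 := Real.sin_sq_add_cos_sq φ
  have h3 := Real.sin_sq_add_cos_sq ψ
  simp only [euler1_inner, eE, nE, euler1_m, Matrix.cons_val_zero, Matrix.cons_val_one,
    Matrix.cons_val_two, Matrix.head_cons, Matrix.tail_cons]
  generalize Real.sin θ = s at *
  generalize Real.cos θ = c at *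
  generalize Real.sin φ = S at *
  generalize Real.cos φ = C at *
  generalize Real.sin ψ = a at *
  generalize Real.cos ψ = b at *
  refine ⟨?_, ?_, ?_, ?_, ?_, ?_⟩
  · linear_combination h1 + s ^ 2 * h2
  · linear_combination b ^ 2 * h1 + (b ^ 2 * c ^ 2 + a ^ 2) * h2 + h3
  · linear_combination a ^ 2 * h1 + (a ^ 2 * c ^ 2 + b ^ 2) * h2 + h3
  · linear_combination b * c * s * h2
  · linear_combination -(a * c * s) * h2
  · linear_combination -(a * b) * h1 + (a * b - a * b * c ^ 2) * h2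

lemma euler1_alg (E : Ed) {e n m : V3} (hee : ⟪e, e⟫ = 1) (hnn : ⟪n, n⟫ = 1) (hmm : ⟪m, m⟫ = 1)
    (hne : ⟪n, e⟫ = 0) (hme : ⟪m, e⟫ = 0) (hmn : ⟪m, n⟫ = 0) (t a ρ ρ' p q c : ℝ) :
    zz (t, outer e e, outer (ρ • n) e) = ρ ^ 2 ∧
    Gf E (t, outer e e, outer (ρ • n) e) (a, outer (p • n + q • m) e + outer e (p • n + q • m),
      outer (ρ • (c • m - p • e) + ρ' • n) e + outer (ρ • n) (p • n + q • m)) =
      Qf (E (t, ρ ^ 2)) a (ρ * ρ') (ρ' ^ 2 + ρ ^ 2 * c ^ 2) (p ^ 2 + q ^ 2) := by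
  have hen : ⟪e, n⟫ = 0 := by rw [real_inner_comm, hne]
  have hem : ⟪e, m⟫ = 0 := by rw [real_inner_comm, hme]
  have hnm : ⟪n, m⟫ = 0 := by rw [real_inner_comm, hmn]
  have hz : zz (t, outer e e, outer (ρ • n) e) = ρ ^ 2 := by
    simp only [zz, ← real_inner_self_eq_norm_sq, inner_outer, real_inner_smul_left,
      real_inner_smul_right, hee, hnn]
    ring
  refine ⟨hz, ?_⟩
  simp only [Gf, b4, hz]
  congr 1 <;>
  · simp only [ze, b5, ← real_inner_self_eq_norm_sq, inner_outer, inner_add_left, inner_add_right,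
      inner_sub_left, inner_sub_right, real_inner_smul_left, real_inner_smul_right, hee, hnn, hmm,
      hne, hme, hmn, hen, hem, hnm]
    ring

lemma euler1_vec {f g h : ℝ → ℝ} {f' g' h' s : ℝ} (hf : HasDerivAt f f' s) (hg : HasDerivAt g g' s)
    (hh : HasDerivAt h h' s) :
    HasDerivAt (fun s => (!₂[f s, g s, h s] : V3)) (!₂[f', g', h'] : V3) s := by
  have h1 : HasDerivAt (fun s => ![f s, g s, h s]) ![f', g', h'] s := by
    rw [hasDerivAt_pi]
    intro i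
    fin_cases i
    exacts [hf, hg, hh]
  exact (PiLp.hasFDerivAt_toLp (𝕜 := ℝ) 2 _).comp_hasDerivAt s h1

lemma euler1_de {θ φ : ℝ → ℝ} {θ' φ' s : ℝ} (ψ : ℝ) (hθ : HasDerivAt θ θ' s)
    (hφ : HasDerivAt φ φ' s) : HasDerivAt (fun s => eE (θ s) (φ s))
      ((Real.cos ψ * θ' + Real.sin ψ * Real.sin (θ s) * φ') • nE (θ s) (φ s) ψ +
        (-(Real.sin ψ * θ') + Real.cos ψ * Real.sin (θ s) * φ') • euler1_m (θ s) (φ s) ψ) s := by
  have h3 := Real.sin_sq_add_cos_sq ψ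
  refine (euler1_vec (hθ.sin.mul hφ.cos) (hθ.sin.mul hφ.sin) hθ.cos).congr_deriv ?_
  ext i
  fin_cases i <;> simp [nE, euler1_m]
  · linear_combination (Real.sin (θ s) * Real.sin (φ s) * φ' -
      θ' * Real.cos (θ s) * Real.cos (φ s)) * h3
  · linear_combination (-(Real.sin (θ s) * Real.cos (φ s) * φ') -
      θ' * Real.cos (θ s) * Real.sin (φ s)) * h3
  · linear_combination (Real.sin (θ s) * θ') * h3

lemma euler1_dn {θ φ ψ : ℝ → ℝ} {θ' φ' ψ' s : ℝ} (hθ : HasDerivAt θ θ' s)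
    (hφ : HasDerivAt φ φ' s) (hψ : HasDerivAt ψ ψ' s) :
    HasDerivAt (fun s => nE (θ s) (φ s) (ψ s))
      ((ψ' + Real.cos (θ s) * φ') • euler1_m (θ s) (φ s) (ψ s) -
        (Real.cos (ψ s) * θ' + Real.sin (ψ s) * Real.sin (θ s) * φ') • eE (θ s) (φ s)) s := by
  have h1 := Real.sin_sq_add_cos_sq (θ s)
  refine (euler1_vec ((hψ.cos.mul (hθ.cos.mul hφ.cos)).sub (hψ.sin.mul hφ.sin))
    ((hψ.cos.mul (hθ.cos.mul hφ.sin)).add (hψ.sin.mul hφ.cos))
    (hψ.cos.mul hθ.sin).neg).congr_deriv ?_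
  ext i
  fin_cases i <;> simp [eE, euler1_m]
  · linear_combination (Real.sin (ψ s) * Real.cos (φ s) * φ') * h1
  · linear_combination (Real.sin (ψ s) * Real.sin (φ s) * φ') * h1
  · ring

lemma euler1_outer {f g : ℝ → V3} {f' g' : V3} {s : ℝ} (hf : HasDerivAt f f' s)
    (hg : HasDerivAt g g' s) :
    HasDerivAt (fun s => outer (f s) (g s)) (outer f' (g s) + outer (f s) g') s := by
  obtain ⟨D, hD, hD'⟩ := HasFDerivAt.outer' hf.hasFDerivAt hg.hasFDerivAt
  refine hD.hasDerivAt.congr_deriv ?_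
  rw [hD']
  simp

lemma euler1_polar (a b : ℝ) : ∃ r φ : ℝ, 0 ≤ r ∧ r ^ 2 = a ^ 2 + b ^ 2 ∧ r * Real.cos φ = a ∧
    r * Real.sin φ = b :=
  ⟨‖(⟨a, b⟩ : ℂ)‖, Complex.arg ⟨a, b⟩, norm_nonneg _, by
    rw [Complex.sq_norm, Complex.normSq_mk]; ring,
    Complex.norm_mul_cos_arg _, Complex.norm_mul_sin_arg _⟩

lemma contDiff_Fm : ContDiff ℝ ∞ Fm := by
  have he : ContDiff ℝ ∞ fun y : Eu 5 => eE (y 2) (y 3) := by
    rw [contDiff_euclidean]
    intro i
    fin_cases i <;> simp [eE] <;> fun_prop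
  have hn : ContDiff ℝ ∞ fun y : Eu 5 => nE (y 2) (y 3) (y 4) := by
    rw [contDiff_euclidean]
    intro i
    fin_cases i <;> simp [nE] <;> fun_prop
  have hy : ∀ i, ContDiff ℝ ∞ fun y : Eu 5 => y i := fun i => by fun_prop
  exact (hy 0).prodMk ((contDiff_outer.comp (he.prodMk he)).prodMk
    (contDiff_outer.comp (((hy 1).smul hn).prodMk he)))

lemma Fm_mem (y : Eu 5) : Fm y ∈ MS := by
  obtain ⟨h1, -, -, h2, -⟩ := euler1_frame (y 2) (y 3) (y 4)
  refine ⟨eE (y 2) (y 3), y 1 • nE (y 2) (y 3) (y 4), ?_, ?_, rfl, rfl⟩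
  · rw [real_inner_self_eq_norm_sq] at h1
    exact (pow_eq_one_iff_of_nonneg (norm_nonneg _) two_ne_zero).1 h1
  · rw [real_inner_smul_left, h2, mul_zero]

lemma zz_Fm (y : Eu 5) : zz (Fm y) = y 1 ^ 2 := by
  obtain ⟨h1, h2, h3, h4, h5, h6⟩ := euler1_frame (y 2) (y 3) (y 4)
  exact (euler1_alg (fun _ _ => 0) h1 h2 h3 h4 h5 h6 (y 0) 0 (y 1) 0 0 0 0).1

lemma Gf_Fm (E : Ed) (y v : Eu 5) : Gf E (Fm y) (fderiv ℝ Fm y v) =
    Qf (E (y 0, y 1 ^ 2)) (v 0) (y 1 * v 1) (v 1 ^ 2 + y 1 ^ 2 * (v 4 + Real.cos (y 2) * v 3) ^ 2)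
      (v 2 ^ 2 + Real.sin (y 2) ^ 2 * v 3 ^ 2) := by
  obtain ⟨h1, h2, h3, h4, h5, h6⟩ := euler1_frame (y 2) (y 3) (y 4)
  have hγ : HasDerivAt (fun s : ℝ => y + s • v) v 0 := by
    simpa using ((hasDerivAt_id (0 : ℝ)).smul_const v).const_add y
  have hc : ∀ i, HasDerivAt (fun s : ℝ => (y + s • v) i) (v i) 0 := fun i => by
    simpa using ((hasDerivAt_id (0 : ℝ)).mul_const (v i)).const_add (y i)
  have hF : HasFDerivAt Fm (fderiv ℝ Fm y) (y + (0 : ℝ) • v) := by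
    rw [zero_smul, add_zero]
    exact (contDiff_Fm.differentiable (by simp) y).hasFDerivAt
  have he := euler1_de (y 4) (hc 2) (hc 3)
  have hd := (hF.comp_hasDerivAt (0 : ℝ) hγ).unique ((hc 0).prodMk ((euler1_outer he he).prodMk
    (euler1_outer ((hc 1).smul (euler1_dn (hc 2) (hc 3) (hc 4))) he)))
  simp only [zero_smul, add_zero, Pi.smul_apply'] at hd
  rw [hd]
  refine ((euler1_alg E h1 h2 h3 h4 h5 h6 _ _ _ _ _ _ _).2).trans ?_
  congr 1
  linear_combination (v 2 ^ 2 + Real.sin (y 2) ^ 2 * v 3 ^ 2) * Real.sin_sq_add_cos_sq (y 4)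

lemma Fm_surj {p : Amb} (hp : p ∈ MS) : ∃ y : Eu 5, 0 ≤ y 1 ∧ Fm y = p := by
  obtain ⟨e, ν, h1, h2, h3, h4⟩ := hp
  have h5 : e 0 * e 0 + e 1 * e 1 + e 2 * e 2 = 1 := by
    rw [← euler1_inner, real_inner_self_eq_norm_sq, h1, one_pow]
  obtain ⟨r, φ, -, a1, a2, a3⟩ := euler1_polar (e 0) (e 1)
  obtain ⟨r', θ, b0, b1, b2, b3⟩ := euler1_polar (e 2) r
  obtain rfl : r' = 1 := (pow_eq_one_iff_of_nonneg b0 two_ne_zero).1 (by linear_combination b1 + a1 + h5)
  rw [one_mul] at b2 b3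
  have he : eE θ φ = e := by
    ext i
    fin_cases i <;> simp [eE, b2, b3, a2, a3]
  rw [euler1_inner, ← a2, ← a3, ← b2, ← b3] at h2
  obtain ⟨ρ, ψ, c0, -, c2, c3⟩ := euler1_polar
    (ν 0 * (Real.cos θ * Real.cos φ) + ν 1 * (Real.cos θ * Real.sin φ) - ν 2 * Real.sin θ)
    (-(ν 0 * Real.sin φ) + ν 1 * Real.cos φ)
  have s1 := Real.sin_sq_add_cos_sq θ
  have s2 := Real.sin_sq_add_cos_sq φ
  have hn : ρ • nE θ φ ψ = ν := by
    ext i
    fin_cases i <;> simp [nE]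
    · linear_combination (Real.cos θ * Real.cos φ) * c2 - Real.sin φ * c3 -
        (Real.sin θ * Real.cos φ) * h2 +
        (ν 0 * Real.cos φ ^ 2 + ν 1 * Real.sin φ * Real.cos φ) * s1 + ν 0 * s2
    · linear_combination (Real.cos θ * Real.sin φ) * c2 + Real.cos φ * c3 -
        (Real.sin θ * Real.sin φ) * h2 +
        (ν 1 * Real.sin φ ^ 2 + ν 0 * Real.sin φ * Real.cos φ) * s1 + ν 1 * s2
    · linear_combination (-Real.sin θ) * c2 - Real.cos θ * h2 + ν 2 * s1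
  refine ⟨!₂[p.1, ρ, θ, φ, ψ], c0, ?_⟩
  change (p.1, outer (eE θ φ) (eE θ φ), outer (ρ • nE θ φ ψ) (eE θ φ)) = p
  rw [he, hn, ← h3, ← h4]

end

end Pool.Agent.Work.MP_a9fb1f_gt
end

-- merged part: Pool.Agent.Work.MP_a9fb1f_gt.Euler
section
/-! Euler angles and the maps that give the charts. -/

set_option autoImplicit false

open scoped Manifold ContDiff Topology ENNReal Bundle RealInnerProductSpace
open Filter Set

namespace Pool.Agent.Work.MP_a9fb1f_gt

noncomputable section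

lemma euler_ne1 (a : Fin 3) : a + 1 ≠ a := by
  fin_cases a <;> decide

lemma euler_ne2 (a : Fin 3) : a + 2 ≠ a := by
  fin_cases a <;> decide

lemma euler_ne3 (a : Fin 3) : a + 2 ≠ a + 1 := by
  fin_cases a <;> decide

lemma euler_cases (a b : Fin 3) : b = a ∨ b = a + 1 ∨ b = a + 2 := by
  fin_cases a <;> fin_cases b <;> decide

lemma euler_sum (a : Fin 3) (f : Fin 3 → ℝ) : ∑ b, f b = f a + f (a + 1) + f (a + 2) := by
  fin_cases a
  · simp [Fin.sum_univ_three]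
  · simp only [Fin.sum_univ_three]
    show f 0 + f 1 + f 2 = f 1 + f 2 + f 0
    ring
  · simp only [Fin.sum_univ_three]
    show f 0 + f 1 + f 2 = f 2 + f 0 + f 1
    ring

lemma euler_xa0 (a : Fin 3) (u : Eu 5) : xa a u a = 1 := by
  simp [xa]

lemma euler_xa1 (a : Fin 3) (u : Eu 5) : xa a u (a + 1) = u 1 := by
  simp [xa, euler_ne1 a]

lemma euler_xa2 (a : Fin 3) (u : Eu 5) : xa a u (a + 2) = u 2 := by
  simp only [xa, if_neg (euler_ne2 a), if_neg (euler_ne3 a)]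

lemma euler_ya0 (a : Fin 3) (u : Eu 5) : ya a u a = -(u 1 * u 3 + u 2 * u 4) := by
  simp [ya]

lemma euler_ya1 (a : Fin 3) (u : Eu 5) : ya a u (a + 1) = u 3 := by
  simp [ya, euler_ne1 a]

lemma euler_ya2 (a : Fin 3) (u : Eu 5) : ya a u (a + 2) = u 4 := by
  simp only [ya, if_neg (euler_ne2 a), if_neg (euler_ne3 a)]

lemma euler_normsq (a : Fin 3) (x : V3) :
    ‖x‖ ^ 2 = x a ^ 2 + x (a + 1) ^ 2 + x (a + 2) ^ 2 := by
  rw [EuclideanSpace.norm_sq_eq, euler_sum a]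
  simp only [Real.norm_eq_abs, sq_abs]

lemma euler_inner (a : Fin 3) (x y : V3) :
    ⟪x, y⟫ = x a * y a + x (a + 1) * y (a + 1) + x (a + 2) * y (a + 2) := by
  rw [PiLp.inner_apply, euler_sum a]
  simp only [RCLike.inner_apply, conj_trivial]
  ring

lemma euler_normsq_xa (a : Fin 3) (u : Eu 5) : ‖xa a u‖ ^ 2 = 1 + u 1 ^ 2 + u 2 ^ 2 := by
  rw [euler_normsq a, euler_xa0, euler_xa1, euler_xa2]
  ring

lemma euler_normsq_pos (a : Fin 3) (u : Eu 5) : 0 < ‖xa a u‖ ^ 2 := by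
  rw [euler_normsq_xa]
  positivity

lemma euler_norm_pos (a : Fin 3) (u : Eu 5) : 0 < ‖xa a u‖ := by
  have h := euler_normsq_pos a u
  rcases (norm_nonneg (xa a u)).lt_or_eq with h1 | h1
  · exact h1
  · rw [← h1] at h
    simp at h

lemma euler_outer_apply (x y : V3) (i j : Fin 3) : outer x y (i, j) = x i * y j := rfl

lemma euler_outer_smul (r s : ℝ) (x y : V3) : outer (r • x) (s • y) = (r * s) • outer x y := by
  ext ij
  simp only [outer, PiLp.smul_apply, smul_eq_mul]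
  ring

lemma euler_contDiff_coord (i : Fin 5) : ContDiff ℝ ∞ fun u : Eu 5 => u i :=
  (EuclideanSpace.proj i : Eu 5 →L[ℝ] ℝ).contDiff

lemma euler_contDiff_xa (a : Fin 3) : ContDiff ℝ ∞ (xa a) := by
  rw [contDiff_euclidean]
  intro b
  rcases euler_cases a b with h | h | h
  · subst h
    simp only [euler_xa0]
    exact contDiff_const
  · subst h
    simp only [euler_xa1]
    exact euler_contDiff_coord 1
  · subst h
    simp only [euler_xa2]
    exact euler_contDiff_coord 2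

lemma euler_contDiff_ya (a : Fin 3) : ContDiff ℝ ∞ (ya a) := by
  rw [contDiff_euclidean]
  intro b
  rcases euler_cases a b with h | h | h
  · subst h
    simp only [euler_ya0]
    exact (((euler_contDiff_coord 1).mul (euler_contDiff_coord 3)).add
      ((euler_contDiff_coord 2).mul (euler_contDiff_coord 4))).neg
  · subst h
    simp only [euler_ya1]
    exact euler_contDiff_coord 3
  · subst h
    simp only [euler_ya2]
    exact euler_contDiff_coord 4

lemma euler_contDiff_inv (a : Fin 3) : ContDiff ℝ ∞ fun u : Eu 5 => (‖xa a u‖ ^ 2)⁻¹ := by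
  have h : ContDiff ℝ ∞ fun u : Eu 5 => ‖xa a u‖ ^ 2 := by
    simp only [euler_normsq_xa]
    exact (contDiff_const.add ((euler_contDiff_coord 1).pow 2)).add
      ((euler_contDiff_coord 2).pow 2)
  exact h.inv fun u => (euler_normsq_pos a u).ne'

lemma contDiff_iota (a : Fin 3) : ContDiff ℝ ∞ (iota a) := by
  have h1 : ContDiff ℝ ∞ fun u : Eu 5 => outer (xa a u) (xa a u) :=
    contDiff_outer.comp ((euler_contDiff_xa a).prodMk (euler_contDiff_xa a))
  have h2 : ContDiff ℝ ∞ fun u : Eu 5 => outer (ya a u) (xa a u) :=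
    contDiff_outer.comp ((euler_contDiff_ya a).prodMk (euler_contDiff_xa a))
  exact (euler_contDiff_coord 0).prodMk
    (((euler_contDiff_inv a).smul h1).prodMk ((euler_contDiff_inv a).smul h2))

lemma iota_mem (a : Fin 3) (u : Eu 5) : iota a u ∈ MS := by
  have hp := euler_norm_pos a u
  refine ⟨‖xa a u‖⁻¹ • xa a u, ‖xa a u‖⁻¹ • ya a u, ?_, ?_, ?_, ?_⟩
  · rw [norm_smul, norm_inv, norm_norm, inv_mul_cancel₀ hp.ne']
  · rw [real_inner_smul_left, real_inner_smul_right, euler_inner a, euler_xa0, euler_xa1,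
      euler_xa2, euler_ya0, euler_ya1, euler_ya2]
    ring
  · rw [euler_outer_smul, ← mul_inv, ← sq]
    rfl
  · rw [euler_outer_smul, ← mul_inv, ← sq]
    rfl

lemma euler_iota1 (a : Fin 3) (u : Eu 5) (i j : Fin 3) :
    (iota a u).2.1 (i, j) = (‖xa a u‖ ^ 2)⁻¹ * (xa a u i * xa a u j) := rfl

lemma euler_iota2 (a : Fin 3) (u : Eu 5) (i j : Fin 3) :
    (iota a u).2.2 (i, j) = (‖xa a u‖ ^ 2)⁻¹ * (ya a u i * xa a u j) := rfl

lemma iota_diag (a : Fin 3) (u : Eu 5) : (iota a u).2.1 (a, a) ≠ 0 := by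
  rw [euler_iota1, euler_xa0, mul_one, mul_one]
  exact inv_ne_zero (euler_normsq_pos a u).ne'

lemma euler_kap0 (a : Fin 3) (p : Amb) : kap a p 0 = p.1 := rfl
lemma euler_kap1 (a : Fin 3) (p : Amb) : kap a p 1 = p.2.1 (a + 1, a) / p.2.1 (a, a) := rfl
lemma euler_kap2 (a : Fin 3) (p : Amb) : kap a p 2 = p.2.1 (a + 2, a) / p.2.1 (a, a) := rfl
lemma euler_kap3 (a : Fin 3) (p : Amb) : kap a p 3 = p.2.2 (a + 1, a) / p.2.1 (a, a) := rfl
lemma euler_kap4 (a : Fin 3) (p : Amb) : kap a p 4 = p.2.2 (a + 2, a) / p.2.1 (a, a) := rfl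

lemma kap_iota (a : Fin 3) (u : Eu 5) : kap a (iota a u) = u := by
  have h : ‖xa a u‖ ≠ 0 := (euler_norm_pos a u).ne'
  ext i
  fin_cases i
  · rfl
  · show kap a (iota a u) 1 = u 1
    rw [euler_kap1, euler_iota1, euler_iota1, euler_xa0, euler_xa1]
    field_simp
  · show kap a (iota a u) 2 = u 2
    rw [euler_kap2, euler_iota1, euler_iota1, euler_xa0, euler_xa2]
    field_simp
  · show kap a (iota a u) 3 = u 3
    rw [euler_kap3, euler_iota2, euler_iota1, euler_xa0, euler_ya1]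
    field_simp
  · show kap a (iota a u) 4 = u 4
    rw [euler_kap4, euler_iota2, euler_iota1, euler_xa0, euler_ya2]
    field_simp

lemma iota_kap {a : Fin 3} {p : Amb} (hp : p ∈ MS) (h : p.2.1 (a, a) ≠ 0) :
    iota a (kap a p) = p := by
  obtain ⟨e, ν, h1, h2, h3, h4⟩ := hp
  have hea : e a ≠ 0 := by
    intro h0
    apply h
    rw [h3, euler_outer_apply, h0, mul_zero]
  have k1 : kap a p 1 = e (a + 1) / e a := by
    rw [euler_kap1, h3, euler_outer_apply, euler_outer_apply]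
    field_simp
  have k2 : kap a p 2 = e (a + 2) / e a := by
    rw [euler_kap2, h3, euler_outer_apply, euler_outer_apply]
    field_simp
  have k3 : kap a p 3 = ν (a + 1) / e a := by
    rw [euler_kap3, h3, h4, euler_outer_apply, euler_outer_apply]
    field_simp
  have k4 : kap a p 4 = ν (a + 2) / e a := by
    rw [euler_kap4, h3, h4, euler_outer_apply, euler_outer_apply]
    field_simp
  have hx : xa a (kap a p) = (e a)⁻¹ • e := by
    ext b
    rcases euler_cases a b with hb | hb | hb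
    · subst hb
      rw [euler_xa0, PiLp.smul_apply, smul_eq_mul, inv_mul_cancel₀ hea]
    · subst hb
      rw [euler_xa1, k1, PiLp.smul_apply, smul_eq_mul]
      field_simp
    · subst hb
      rw [euler_xa2, k2, PiLp.smul_apply, smul_eq_mul]
      field_simp
  have hy : ya a (kap a p) = (e a)⁻¹ • ν := by
    ext b
    rcases euler_cases a b with hb | hb | hb
    · subst hb
      rw [euler_ya0, k1, k2, k3, k4, PiLp.smul_apply, smul_eq_mul]
      rw [euler_inner b] at h2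
      field_simp
      linarith
    · subst hb
      rw [euler_ya1, k3, PiLp.smul_apply, smul_eq_mul]
      field_simp
    · subst hb
      rw [euler_ya2, k4, PiLp.smul_apply, smul_eq_mul]
      field_simp
  have hn : (‖xa a (kap a p)‖ ^ 2)⁻¹ * ((e a)⁻¹ * (e a)⁻¹) = 1 := by
    rw [hx, norm_smul, h1, mul_one, Real.norm_eq_abs, sq_abs]
    field_simp
  refine Prod.ext rfl (Prod.ext ?_ ?_)
  · show (‖xa a (kap a p)‖ ^ 2)⁻¹ • outer (xa a (kap a p)) (xa a (kap a p)) = p.2.1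
    rw [h3]
    conv_lhs => enter [2]; rw [hx, euler_outer_smul]
    rw [smul_smul, hn, one_smul]
  · show (‖xa a (kap a p)‖ ^ 2)⁻¹ • outer (ya a (kap a p)) (xa a (kap a p)) = p.2.2
    rw [h4]
    conv_lhs => enter [2]; rw [hx, hy, euler_outer_smul]
    rw [smul_smul, hn, one_smul]

lemma euler_contDiff_P (ij : Fin 3 × Fin 3) : ContDiff ℝ ∞ fun p : Amb => p.2.1 ij :=
  (EuclideanSpace.proj ij : Mat →L[ℝ] ℝ).contDiff.comp (contDiff_fst.comp contDiff_snd)

lemma euler_contDiff_N (ij : Fin 3 × Fin 3) : ContDiff ℝ ∞ fun p : Amb => p.2.2 ij :=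
  (EuclideanSpace.proj ij : Mat →L[ℝ] ℝ).contDiff.comp (contDiff_snd.comp contDiff_snd)

lemma contDiffAt_kap {a : Fin 3} {p : Amb} (h : p.2.1 (a, a) ≠ 0) : ContDiffAt ℝ ∞ (kap a) p := by
  rw [contDiffAt_euclidean]
  intro i
  fin_cases i
  · exact contDiffAt_fst
  · exact (euler_contDiff_P (a + 1, a)).contDiffAt.div (euler_contDiff_P (a, a)).contDiffAt h
  · exact (euler_contDiff_P (a + 2, a)).contDiffAt.div (euler_contDiff_P (a, a)).contDiffAt h
  · exact (euler_contDiff_N (a + 1, a)).contDiffAt.div (euler_contDiff_P (a, a)).contDiffAt h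
  · exact (euler_contDiff_N (a + 2, a)).contDiffAt.div (euler_contDiff_P (a, a)).contDiffAt h

lemma exists_diag {p : Amb} (hp : p ∈ MS) : ∃ a : Fin 3, p.2.1 (a, a) ≠ 0 := by
  obtain ⟨e, ν, h1, h2, h3, h4⟩ := hp
  by_contra hc
  push Not at hc
  have he : e = 0 := by
    ext a
    have := hc a
    rw [h3, euler_outer_apply] at this
    simpa using this
  rw [he, norm_zero] at h1
  exact zero_ne_one h1

lemma fderiv_iota_injective (a : Fin 3) (u : Eu 5) :
    Function.Injective (fderiv ℝ (iota a) u) := by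
  have h1 : DifferentiableAt ℝ (iota a) u :=
    (contDiff_iota a).contDiffAt.differentiableAt (by simp)
  have h2 : DifferentiableAt ℝ (kap a) (iota a u) :=
    (contDiffAt_kap (iota_diag a u)).differentiableAt (by simp)
  have h3 : fderiv ℝ (kap a ∘ iota a) u =
      (fderiv ℝ (kap a) (iota a u)).comp (fderiv ℝ (iota a) u) := fderiv_comp u h2 h1
  have h4 : kap a ∘ iota a = id := funext fun v => kap_iota a v
  rw [h4, fderiv_id] at h3
  intro v w hvw
  have hv := congrArg (fun L : Eu 5 →L[ℝ] Eu 5 => L v) h3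
  have hw := congrArg (fun L : Eu 5 →L[ℝ] Eu 5 => L w) h3
  simp only [ContinuousLinearMap.id_apply, ContinuousLinearMap.comp_apply] at hv hw
  rw [hv, hw, hvw]

end

end Pool.Agent.Work.MP_a9fb1f_gt
end

-- merged part: Pool.Agent.Work.MP_a9fb1f_gt.Path
section
/-! Upper and lower bounds for the length distance. -/

set_option autoImplicit false

open scoped Manifold ContDiff Topology ENNReal Bundle RealInnerProductSpace
open Filter Set

namespace Pool.Agent.Work.MP_a9fb1f_gt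

noncomputable section

variable {E E' : Ed}

lemma dE_nonneg (E : Ed) (p q : Mf) : 0 ≤ dE E p q := ENNReal.toReal_nonneg

/-- The length of a curve. -/
def Path_len (E : Ed) (γ : ℝ → Amb) : ℝ≥0∞ :=
  ∫⁻ s in Icc (0 : ℝ) 1, ENNReal.ofReal √(Gf E (γ s) (deriv γ s))

lemma Path_eD_le (E : Ed) {p q : Amb} {γ : ℝ → Amb} (h1 : ContDiff ℝ 1 γ) (h2 : ∀ s, γ s ∈ MS)
    (h3 : γ 0 = p) (h4 : γ 1 = q) : eD E p q ≤ Path_len E γ :=
  iInf_le_of_le γ (iInf_le_of_le h1 (iInf_le_of_le h2 (iInf_le_of_le h3 (iInf_le_of_le h4 le_rfl))))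

lemma Path_le_eD (E : Ed) {p q : Amb} {a : ℝ≥0∞}
    (h : ∀ γ : ℝ → Amb, ContDiff ℝ 1 γ → (∀ s, γ s ∈ MS) → γ 0 = p → γ 1 = q →
      a ≤ Path_len E γ) : a ≤ eD E p q :=
  le_iInf fun γ => le_iInf fun h1 => le_iInf fun h2 => le_iInf fun h3 => le_iInf fun h4 =>
    h γ h1 h2 h3 h4

lemma Path_le_mul_eD (E : Ed) {p q : Amb} {a C : ℝ≥0∞} (hC : C ≠ ⊤) (hfin : eD E p q ≠ ⊤)
    (h : ∀ γ : ℝ → Amb, ContDiff ℝ 1 γ → (∀ s, γ s ∈ MS) → γ 0 = p → γ 1 = q →
      a ≤ C * Path_len E γ) : a ≤ C * eD E p q := by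
  by_cases h0 : C = 0
  · by_contra hne
    apply hfin
    refine top_le_iff.mp (Path_le_eD E fun γ h1 h2 h3 h4 => ?_)
    have := h γ h1 h2 h3 h4
    rw [h0, zero_mul] at this hne
    exact absurd this hne
  · rw [← ENNReal.div_le_iff' h0 hC]
    refine Path_le_eD E fun γ h1 h2 h3 h4 => ?_
    rw [ENNReal.div_le_iff' h0 hC]
    exact h γ h1 h2 h3 h4

lemma Path_tan {γ : ℝ → Amb} (h1 : ContDiff ℝ 1 γ) (h2 : ∀ s, γ s ∈ MS) (s : ℝ) :
    Tan (γ s) (deriv γ s) := by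
  have hd : HasDerivAt γ (deriv γ s) s := (h1.differentiable one_ne_zero s).hasDerivAt
  have := tan_of_hasFDerivAt (Eventually.of_forall h2) hd.hasFDerivAt 1
  simpa using this

lemma Path_abs_le {x L G : ℝ} (hL : 0 ≤ L) (h : x ^ 2 ≤ L ^ 2 * G) : |x| ≤ L * √G := by
  have h1 : |x| = √(x ^ 2) := (Real.sqrt_sq_eq_abs x).symm
  rw [h1]
  calc √(x ^ 2) ≤ √(L ^ 2 * G) := Real.sqrt_le_sqrt h
    _ = L * √G := by rw [Real.sqrt_mul (sq_nonneg L), Real.sqrt_sq hL]

lemma Path_sqrt_le {x L G : ℝ} (hL : 0 ≤ L) (h : x ≤ L ^ 2 * G) : √x ≤ L * √G := by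
  calc √x ≤ √(L ^ 2 * G) := Real.sqrt_le_sqrt h
    _ = L * √G := by rw [Real.sqrt_mul (sq_nonneg L), Real.sqrt_sq hL]

lemma Path_mul_len (E : Ed) (γ : ℝ → Amb) {L : ℝ} (hL : 0 ≤ L) :
    ENNReal.ofReal L * Path_len E γ =
      ∫⁻ s in Icc (0 : ℝ) 1, ENNReal.ofReal (L * √(Gf E (γ s) (deriv γ s))) := by
  unfold Path_len
  rw [← MeasureTheory.lintegral_const_mul' _ _ ENNReal.ofReal_ne_top]
  congr 1
  funext s
  rw [ENNReal.ofReal_mul hL]

lemma Path_toReal {a : ℝ≥0∞} {L : ℝ} (hL : 0 ≤ L) {b : ℝ≥0∞} (hb : b ≠ ⊤)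
    (h : a ≤ ENNReal.ofReal L * b) : a.toReal ≤ L * b.toReal := by
  have h1 := ENNReal.toReal_mono (ENNReal.mul_ne_top ENNReal.ofReal_ne_top hb) h
  rwa [ENNReal.toReal_mul, ENNReal.toReal_ofReal hL] at h1

/-- Functions with a bounded differential are Lipschitz. -/
lemma abs_sub_le_dE (hE : Good E) {f : Amb → ℝ} (hf : ContDiff ℝ 1 f) {L : ℝ} (hL : 0 ≤ L)
    (h : ∀ p w, Tan p w → (fderiv ℝ f p w) ^ 2 ≤ L ^ 2 * Gf E p w) (p q : Mf) :
    |f p - f q| ≤ L * dE E p q := by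
  have hfin := eD_ne_top hE p q
  have key : ENNReal.ofReal |f p - f q| ≤ ENNReal.ofReal L * eD E p q := by
    refine Path_le_mul_eD E ENNReal.ofReal_ne_top hfin fun γ h1 h2 h3 h4 => ?_
    have hc : ContDiff ℝ 1 (f ∘ γ) := hf.comp h1
    have h5 := enorm_sub_le_lintegral_deriv_of_contDiffOn_Icc (f := f ∘ γ) (a := 0) (b := 1)
      hc.contDiffOn zero_le_one
    rw [Function.comp_apply, Function.comp_apply, h3, h4, Real.enorm_eq_ofReal_abs,
      abs_sub_comm] at h5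
    refine h5.trans ?_
    rw [Path_mul_len E γ hL]
    refine MeasureTheory.lintegral_mono fun s => ?_
    have hd : HasDerivAt γ (deriv γ s) s := (h1.differentiable one_ne_zero s).hasDerivAt
    have hd2 : HasDerivAt (f ∘ γ) (fderiv ℝ f (γ s) (deriv γ s)) s :=
      (hf.differentiable one_ne_zero (γ s)).hasFDerivAt.comp_hasDerivAt s hd
    rw [hd2.deriv, Real.enorm_eq_ofReal_abs]
    exact ENNReal.ofReal_le_ofReal (Path_abs_le hL (h _ _ (Path_tan h1 h2 s)))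
  have h6 := Path_toReal hL hfin key
  rwa [ENNReal.toReal_ofReal (abs_nonneg _)] at h6

lemma dE_le_of_le (hE' : Good E') {C : ℝ} (hC : 0 ≤ C)
    (h : ∀ p w, Tan p w → Gf E p w ≤ C ^ 2 * Gf E' p w) (p q : Mf) :
    dE E p q ≤ C * dE E' p q := by
  have hfin := eD_ne_top hE' p q
  have key : eD E p q ≤ ENNReal.ofReal C * eD E' p q := by
    refine Path_le_mul_eD E' ENNReal.ofReal_ne_top hfin fun γ h1 h2 h3 h4 => ?_
    refine (Path_eD_le E h1 h2 h3 h4).trans ?_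
    rw [Path_mul_len E' γ hC]
    refine MeasureTheory.lintegral_mono fun s => ?_
    exact ENNReal.ofReal_le_ofReal (Path_sqrt_le hC (h _ _ (Path_tan h1 h2 s)))
  exact Path_toReal hC hfin key

lemma Path_Qf_resc (E : Ed) (c : ℝ) {r : ℝ} (hr : 0 < r) (x : ℝ × ℝ) (a ζ β γ : ℝ) :
    Qf (resc E c r x) a ζ β γ =
      Qf (E (c + r * x.1, r ^ 2 * x.2)) (r * a) (r ^ 2 * ζ) (r ^ 2 * β) γ / r ^ 2 := by
  have hr' := hr.ne'
  simp only [Qf, resc, Matrix.cons_val_zero, Matrix.cons_val_one, Matrix.cons_val]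
  field_simp

lemma Good.resc (hE : Good E) (c : ℝ) {r : ℝ} (hr : 0 < r) : Good (resc E c r) := by
  constructor
  · intro x hx
    have hs : ContDiffAt ℝ ∞ (fun x : ℝ × ℝ => E (c + r * x.1, r ^ 2 * x.2)) x := by
      have h1 : ContDiffAt ℝ ∞ (fun x : ℝ × ℝ => ((c + r * x.1, r ^ 2 * x.2) : ℝ × ℝ)) x := by
        fun_prop
      exact (hE.smooth (c + r * x.1, r ^ 2 * x.2) (mul_nonneg (sq_nonneg r) hx)).comp x h1
    have hi : ∀ i, ContDiffAt ℝ ∞ (fun x : ℝ × ℝ => E (c + r * x.1, r ^ 2 * x.2) i) x :=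
      contDiffAt_pi.mp hs
    rw [contDiffAt_pi]
    intro i
    fin_cases i
    · exact hi 0
    · exact contDiffAt_const.mul (hi 1)
    · exact contDiffAt_const.mul (hi 2)
    · exact hi 3
    · exact (hi 4).div_const _
  · intro x a ζ β γ hA hne
    rw [Path_Qf_resc E c hr]
    have hr2 : 0 < r ^ 2 := pow_pos hr 2
    refine div_pos (hE.pos (c + r * x.1, r ^ 2 * x.2) _ _ _ _ ⟨?_, ?_, hA.c0, ?_⟩ ?_) hr2
    · exact mul_nonneg hr2.le hA.z0
    · exact mul_nonneg hr2.le hA.b0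
    · have h1 := mul_le_mul_of_nonneg_left hA.cs (mul_pos hr2 hr2).le
      calc (r ^ 2 * ζ) ^ 2 = r ^ 2 * r ^ 2 * ζ ^ 2 := by ring
        _ ≤ r ^ 2 * r ^ 2 * (x.2 * β) := h1
        _ = r ^ 2 * x.2 * (r ^ 2 * β) := by ring
    · rcases hne with h | h | h
      · exact Or.inl (mul_ne_zero hr.ne' h)
      · exact Or.inr (Or.inl (mul_ne_zero hr2.ne' h))
      · exact Or.inr (Or.inr h)

lemma Path_Gf_resc (E : Ed) (c : ℝ) {r : ℝ} (hr : 0 < r) (p w : Amb) :
    Gf (resc E c r) p w = Gf E (dilA c r p) (dilA 0 r w) / r ^ 2 := by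
  have h1 : zz (dilA c r p) = r ^ 2 * zz p := by
    simp only [zz, dilA, norm_smul, mul_pow, Real.norm_eq_abs, sq_abs]
  have h2 : ze (dilA c r p) (dilA 0 r w) = r ^ 2 * ze p w := by
    simp only [ze, dilA, real_inner_smul_left, real_inner_smul_right]
    ring
  have h3 : b5 (dilA 0 r w) = b5 w := rfl
  have h4 : b4 (dilA c r p) (dilA 0 r w) = r ^ 2 * b4 p w := by
    simp only [b4, h1, h3]
    simp only [dilA, norm_smul, mul_pow, Real.norm_eq_abs, sq_abs, real_inner_smul_right]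
    ring
  have h5 : (dilA 0 r w).1 = r * w.1 := by simp [dilA]
  have h6 : (dilA c r p).1 = c + r * p.1 := rfl
  unfold Gf
  rw [Path_Qf_resc E c hr, h1, h2, h3, h4, h5, h6]

lemma Path_contDiff_dilA (c r : ℝ) : ContDiff ℝ 1 (dilA c r) := by
  unfold dilA
  fun_prop

lemma Path_deriv_dilA (c r : ℝ) {γ : ℝ → Amb} (h1 : ContDiff ℝ 1 γ) (s : ℝ) :
    deriv (dilA c r ∘ γ) s = dilA 0 r (deriv γ s) := by
  have hd : HasDerivAt γ (deriv γ s) s := (h1.differentiable one_ne_zero s).hasDerivAt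
  have ha : HasDerivAt (fun s => (γ s).1) (deriv γ s).1 s :=
    (ContinuousLinearMap.fst ℝ ℝ (Mat × Mat)).hasFDerivAt.comp_hasDerivAt s hd
  have hb : HasDerivAt (fun s => (γ s).2) (deriv γ s).2 s :=
    (ContinuousLinearMap.snd ℝ ℝ (Mat × Mat)).hasFDerivAt.comp_hasDerivAt s hd
  have hb1 : HasDerivAt (fun s => (γ s).2.1) (deriv γ s).2.1 s :=
    (ContinuousLinearMap.fst ℝ Mat Mat).hasFDerivAt.comp_hasDerivAt s hb
  have hb2 : HasDerivAt (fun s => (γ s).2.2) (deriv γ s).2.2 s :=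
    (ContinuousLinearMap.snd ℝ Mat Mat).hasFDerivAt.comp_hasDerivAt s hb
  have h := ((ha.const_mul r).const_add c).prodMk (hb1.prodMk (hb2.const_smul r))
  have h' : HasDerivAt (dilA c r ∘ γ) (dilA 0 r (deriv γ s)) s := by
    have he : dilA 0 r (deriv γ s) =
        (r * (deriv γ s).1, (deriv γ s).2.1, r • (deriv γ s).2.2) := by
      simp [dilA]
    rw [he]
    exact h
  exact h'.deriv

lemma Path_len_resc (E : Ed) (c : ℝ) {r : ℝ} (hr : 0 < r) {γ : ℝ → Amb} (h1 : ContDiff ℝ 1 γ) :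
    Path_len (resc E c r) γ = ENNReal.ofReal r⁻¹ * Path_len E (dilA c r ∘ γ) := by
  rw [Path_mul_len E _ (inv_nonneg.mpr hr.le)]
  unfold Path_len
  congr 1
  funext s
  rw [Path_Gf_resc E c hr, Path_deriv_dilA c r h1, Function.comp_apply,
    Real.sqrt_div' _ (sq_nonneg r), Real.sqrt_sq hr.le, div_eq_inv_mul]

lemma Path_dil_inv (c : ℝ) {r : ℝ} (hr : 0 < r) (p : Amb) :
    dilA c r (dilA (-c / r) r⁻¹ p) = p := by
  have hr' := hr.ne'
  refine Prod.ext ?_ (Prod.ext rfl ?_)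
  · simp only [dilA]
    field_simp
    ring
  · simp only [dilA, smul_smul, mul_inv_cancel₀ hr', one_smul]

lemma Path_inv_dil (c : ℝ) {r : ℝ} (hr : 0 < r) (p : Amb) :
    dilA (-c / r) r⁻¹ (dilA c r p) = p := by
  have hr' := hr.ne'
  refine Prod.ext ?_ (Prod.ext rfl ?_)
  · simp only [dilA]
    field_simp
    ring
  · simp only [dilA, smul_smul, inv_mul_cancel₀ hr', one_smul]

lemma Path_eD_resc (E : Ed) (c : ℝ) {r : ℝ} (hr : 0 < r) (p q : Amb) :
    eD (resc E c r) p q = ENNReal.ofReal r⁻¹ * eD E (dilA c r p) (dilA c r q) := by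
  have h0 : ENNReal.ofReal r⁻¹ ≠ 0 := by
    simpa using hr
  apply le_antisymm
  · rw [← ENNReal.div_le_iff' h0 ENNReal.ofReal_ne_top]
    refine Path_le_eD E fun δ h1 h2 h3 h4 => ?_
    rw [ENNReal.div_le_iff' h0 ENNReal.ofReal_ne_top]
    have hc : ContDiff ℝ 1 (dilA (-c / r) r⁻¹ ∘ δ) := (Path_contDiff_dilA _ _).comp h1
    have he : dilA c r ∘ (dilA (-c / r) r⁻¹ ∘ δ) = δ := funext fun s => Path_dil_inv c hr (δ s)
    have h5 := Path_eD_le (resc E c r) (p := p) (q := q) hc (fun s => dilA_mem _ _ (h2 s))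
      (by rw [Function.comp_apply, h3, Path_inv_dil c hr])
      (by rw [Function.comp_apply, h4, Path_inv_dil c hr])
    rwa [Path_len_resc E c hr hc, he] at h5
  · refine Path_le_eD _ fun γ h1 h2 h3 h4 => ?_
    rw [Path_len_resc E c hr h1]
    gcongr
    exact Path_eD_le E ((Path_contDiff_dilA _ _).comp h1) (fun s => dilA_mem _ _ (h2 s))
      (by rw [Function.comp_apply, h3]) (by rw [Function.comp_apply, h4])

lemma dE_resc (E : Ed) (c : ℝ) {r : ℝ} (hr : 0 < r) (p q : Mf) :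
    dE (resc E c r) p q = dE E (dil c r p) (dil c r q) / r := by
  unfold dE
  rw [Path_eD_resc E c hr, ENNReal.toReal_mul, ENNReal.toReal_ofReal (inv_nonneg.mpr hr.le),
    div_eq_inv_mul]
  rfl

end

end Pool.Agent.Work.MP_a9fb1f_gt
end

-- merged part: Pool.Agent.Work.MP_a9fb1f_gt.GeoDefs
section
/-! Standard metrics and distances: definitions. -/

set_option autoImplicit false

open scoped Manifold ContDiff Topology ENNReal Bundle RealInnerProductSpace
open Filter Set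

namespace Pool.Agent.Work.MP_a9fb1f_gt

noncomputable section

/-- Scale invariant two-sided bounds with respect to the point `c` of the axis. -/
structure Std (C c η : ℝ) (E : Ed) : Prop where
  up : ∀ (x : ℝ × ℝ) (a ζ β γ : ℝ), Ad x.2 ζ β γ →
    Qf (E x) a ζ β γ ≤ C * (a ^ 2 + β + ((x.1 - c) ^ 2 + x.2 + η ^ 2) * γ)
  low : ∀ (x : ℝ × ℝ) (a ζ β γ : ℝ), Ad x.2 ζ β γ →
    a ^ 2 + x.2 / ((x.1 - c) ^ 2 + x.2 + η ^ 2) * β + x.2 * γ ≤ C * Qf (E x) a ζ β γ

/-- The bubbles have size comparable to the distance to `c` in an annulus. -/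
def Cone (C c a b : ℝ) (E : Ed) : Prop :=
  ∀ (x : ℝ × ℝ) (u ζ β γ : ℝ), Ad x.2 ζ β γ → a ^ 2 ≤ (x.1 - c) ^ 2 + x.2 →
    (x.1 - c) ^ 2 + x.2 ≤ b ^ 2 → ((x.1 - c) ^ 2 + x.2) * γ ≤ C * Qf (E x) u ζ β γ

def Eref : Ed := fun x => ![1, 0, 0, 1, x.1 ^ 2 + x.2 + 1]

def hN (p : Amb) : Mat := (zz p / (p.1 ^ 2 + zz p + 1)) • p.2.2

structure StdD (C : ℝ) (d : Mf → Mf → ℝ) : Prop where
  C1 : 1 ≤ C
  self : ∀ p, d p p = 0
  comm : ∀ p q, d p q = d q p
  tri : ∀ p q r, d p r ≤ d p q + d q r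
  up : ∀ p q, d p q ≤ C * dE Eref p q
  lowt : ∀ p q : Mf, |p.1.1 - q.1.1| ≤ C * d p q
  lowN : ∀ p q : Mf, ‖hN p.1 - hN q.1‖ ≤ C * d p q

/-- Uniform convergence on compact sets. -/
def UConv (d : ℕ → Mf → Mf → ℝ) (D : Mf → Mf → ℝ) : Prop :=
  ∀ K : Set Mf, IsCompact K → ∀ ε : ℝ, 0 < ε → ∀ᶠ k in atTop, ∀ p ∈ K, ∀ q ∈ K,
    |d k p q - D p q| < ε

def f1 (p : Mf) : ℝ × Mat := (p.1.1, p.1.2.2)
def f2 (p : Mf) : Mat := p.1.1 • p.1.2.1 + p.1.2.2

/-- The output of the analytic construction. -/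
structure Data where
  E : ℕ → Ed
  C : ℝ
  s : ℕ → ℝ
  K : Set ℝ
  C1 : 1 ≤ C
  good : ∀ i, Good (E i)
  adm : ∀ i t ρ, 0 < ρ → Adm (E i) t ρ
  s0 : ∀ i, 0 ≤ s i
  s1 : ∀ i, s i ≤ 1
  slim : Tendsto s atTop (𝓝 0)
  zero : (0 : ℝ) ∈ K
  dim : 0 < dimH K
  std : ∀ c ∈ K, ∀ i, Std C c (s i) (E i)
  thick : ∀ c ∈ K, ∃ ρ : ℕ → ℝ, (∀ j, 0 < ρ j) ∧ Tendsto ρ atTop (𝓝 0) ∧
    ∀ Λ η : ℝ, 0 < η → ∀ᶠ j in atTop, ∀ᶠ i in atTop, ∀ t, |t - c| ≤ Λ * ρ j →
      E i (t, 0) 4 ≤ (η * ρ j) ^ 2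
  cone : ∀ c ∈ K, ∃ ρ : ℕ → ℝ, (∀ j, 0 < ρ j) ∧ Tendsto ρ atTop (𝓝 0) ∧
    ∀ Λ : ℝ, 1 ≤ Λ → ∀ᶠ j in atTop, ∀ᶠ i in atTop, Cone C c (ρ j / Λ) (Λ * ρ j) (E i)

end

end Pool.Agent.Work.MP_a9fb1f_gt
end

-- merged part: Pool.Agent.Work.MP_a9fb1f_gt.Chart
section
/-! The manifold structure. -/

set_option autoImplicit false

open scoped Manifold ContDiff Topology ENNReal Bundle RealInnerProductSpace
open Filter Set

namespace Pool.Agent.Work.MP_a9fb1f_gt

noncomputable section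

lemma isOpen_chartSource (a : Fin 3) : IsOpen {p : Mf | p.1.2.1 (a, a) ≠ 0} := by
  have h : Continuous fun p : Mf => p.1.2.1 (a, a) := by fun_prop
  exact isOpen_ne_fun h continuous_const

lemma continuousOn_kap (a : Fin 3) :
    ContinuousOn (fun p : Mf => kap a p.1) {p : Mf | p.1.2.1 (a, a) ≠ 0} := by
  intro p hp
  exact ((contDiffAt_kap hp).continuousAt.comp
    continuous_subtype_val.continuousAt).continuousWithinAt

def chartM (a : Fin 3) : OpenPartialHomeomorph Mf (Eu 5) where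
  toFun p := kap a p.1
  invFun u := ⟨iota a u, iota_mem a u⟩
  source := {p | p.1.2.1 (a, a) ≠ 0}
  target := univ
  map_source' _ _ := mem_univ _
  map_target' u _ := iota_diag a u
  left_inv' p hp := Subtype.ext (iota_kap p.2 hp)
  right_inv' u _ := kap_iota a u
  open_source := isOpen_chartSource a
  open_target := isOpen_univ
  continuousOn_toFun := continuousOn_kap a
  continuousOn_invFun := ((contDiff_iota a).continuous.subtype_mk _).continuousOn

def idx (p : Mf) : Fin 3 := Classical.choose (exists_diag p.2)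

lemma idx_spec (p : Mf) : p.1.2.1 (idx p, idx p) ≠ 0 := Classical.choose_spec (exists_diag p.2)

instance chartedMf : ChartedSpace (Eu 5) Mf where
  atlas := range chartM
  chartAt p := chartM (idx p)
  mem_chart_source p := idx_spec p
  chart_mem_atlas _ := mem_range_self _

lemma chartAt_eq (p : Mf) : chartAt (Eu 5) p = chartM (idx p) := rfl

instance manifoldMf : IsManifold 𝓘(ℝ, Eu 5) ∞ Mf := by
  refine isManifold_of_contDiffOn _ _ _ ?_
  rintro _ _ ⟨a, rfl⟩ ⟨b, rfl⟩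
  simp only [modelWithCornersSelf_coe, modelWithCornersSelf_coe_symm, Function.id_comp,
    Function.comp_id, preimage_id, range_id, inter_univ]
  intro u hu
  have hb : (iota a u).2.1 (b, b) ≠ 0 := hu.2
  exact ((contDiffAt_kap hb).comp u (contDiff_iota a).contDiffAt).contDiffWithinAt

lemma chart_val_eventuallyEq (p : Mf) :
    (Subtype.val : Mf → Amb) =ᶠ[𝓝 p] iota (idx p) ∘ chartAt (Eu 5) p := by
  filter_upwards [chart_source_mem_nhds (Eu 5) p] with q hq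
  exact (iota_kap q.2 hq).symm

lemma contMDiff_val : ContMDiff 𝓘(ℝ, Eu 5) 𝓘(ℝ, Amb) ∞ (Subtype.val : Mf → Amb) := by
  intro p
  refine ContMDiffAt.congr_of_eventuallyEq ?_ (chart_val_eventuallyEq p)
  exact (contDiff_iota (idx p)).contMDiff.contMDiffAt.comp p
    ((contMDiffOn_chart (I := 𝓘(ℝ, Eu 5)) (n := ∞) (x := p)).contMDiffAt
      (chart_source_mem_nhds (Eu 5) p))

lemma chart_mdiff_val : MDifferentiable 𝓘(ℝ, Eu 5) 𝓘(ℝ, Amb) (Subtype.val : Mf → Amb) :=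
  contMDiff_val.mdifferentiable (by simp)

lemma mfderiv_val (p : Mf) (v : Eu 5) :
    mfderiv 𝓘(ℝ, Eu 5) 𝓘(ℝ, Amb) (Subtype.val : Mf → Amb) p v =
      fderiv ℝ (iota (idx p)) (kap (idx p) p.1) v := by
  rw [(chart_mdiff_val p).mfderiv]
  simp only [writtenInExtChartAt, extChartAt, modelWithCornersSelf_coe, range_id,
    fderivWithin_univ, mfld_simps]
  rfl

lemma mfderiv_val_symm (a : Fin 3) (y v : Eu 5) :
    mfderiv 𝓘(ℝ, Eu 5) 𝓘(ℝ, Amb) (Subtype.val : Mf → Amb) ((chartM a).symm y)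
      (mfderiv 𝓘(ℝ, Eu 5) 𝓘(ℝ, Eu 5) (chartM a).symm y v) = fderiv ℝ (iota a) y v := by
  have h1 : MDifferentiableAt 𝓘(ℝ, Eu 5) 𝓘(ℝ, Eu 5) (chartM a).symm y :=
    mdifferentiableAt_atlas_symm (I := 𝓘(ℝ, Eu 5)) (e := chartM a) (mem_range_self a)
      (mem_univ y)
  have h2 := mfderiv_comp y (chart_mdiff_val ((chartM a).symm y)) h1
  have h3 : (Subtype.val : Mf → Amb) ∘ (chartM a).symm = iota a := rfl
  rw [h3, mfderiv_eq_fderiv] at h2
  rw [h2]
  rfl

lemma contMDiff_of_val {γ : ℝ → Mf} (h : ContDiff ℝ 1 fun s => (γ s : Amb)) :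
    ContMDiff 𝓘(ℝ, ℝ) 𝓘(ℝ, Eu 5) 1 γ := by
  intro s
  rw [contMDiffAt_iff_target]
  refine ⟨(h.continuous.subtype_mk fun s => (γ s).2).continuousAt, ?_⟩
  have h1 : ContDiffAt ℝ 1 (kap (idx (γ s))) (γ s : Amb) :=
    (contDiffAt_kap (idx_spec (γ s))).of_le (by exact_mod_cast le_top)
  exact (h1.comp s h.contDiffAt).contMDiffAt

lemma contDiff_val_comp {γ : ℝ → Mf} (h : ContMDiff 𝓘(ℝ, ℝ) 𝓘(ℝ, Eu 5) 1 γ) :
    ContDiff ℝ 1 fun s => (γ s : Amb) :=
  ((contMDiff_val.of_le (by exact_mod_cast le_top)).comp h).contDiff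

lemma mfderiv_val_path {γ : ℝ → Mf} (h : ContMDiff 𝓘(ℝ, ℝ) 𝓘(ℝ, Eu 5) 1 γ) (s : ℝ) :
    mfderiv 𝓘(ℝ, Eu 5) 𝓘(ℝ, Amb) (Subtype.val : Mf → Amb) (γ s)
      (mfderiv 𝓘(ℝ, ℝ) 𝓘(ℝ, Eu 5) γ s (1 : ℝ)) = deriv (fun s => (γ s : Amb)) s := by
  have h2 := mfderiv_comp s (chart_mdiff_val (γ s)) (h.mdifferentiable one_ne_zero s)
  rw [mfderiv_eq_fderiv] at h2
  have h3 : deriv (fun s => (γ s : Amb)) s = fderiv ℝ (Subtype.val ∘ γ) s 1 := rfl
  rw [h3, h2]
  rfl

end

end Pool.Agent.Work.MP_a9fb1f_gt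
end

-- merged part: Pool.Agent.Work.MP_a9fb1f_gt.RMetric1
section
/-! The Riemannian metric defined by the five coefficients. -/

set_option autoImplicit false

open scoped Manifold ContDiff Topology ENNReal Bundle RealInnerProductSpace
open Filter Set

namespace Pool.Agent.Work.MP_a9fb1f_gt

noncomputable section

/-- The inner product on the tangent space. -/
def ginner (E : Ed) (p : Mf) :
    TangentSpace 𝓘(ℝ, Eu 5) p →L[ℝ] TangentSpace 𝓘(ℝ, Eu 5) p →L[ℝ] ℝ :=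
  ((GA E p.1).bilinearComp (fderiv ℝ (iota (idx p)) (kap (idx p) p.1))
    (fderiv ℝ (iota (idx p)) (kap (idx p) p.1)) : Eu 5 →L[ℝ] Eu 5 →L[ℝ] ℝ)

variable {E : Ed}

lemma ginner_apply (p : Mf) (v w : Eu 5) : ginner E p v w =
    GA E p.1 (fderiv ℝ (iota (idx p)) (kap (idx p) p.1) v)
      (fderiv ℝ (iota (idx p)) (kap (idx p) p.1) w) := rfl

lemma RMetric1_pos (hE : Good E) (p : Mf) (v : Eu 5) (hv : v ≠ 0) :
    0 < GA E p.1 (fderiv ℝ (iota (idx p)) (kap (idx p) p.1) v)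
      (fderiv ℝ (iota (idx p)) (kap (idx p) p.1) v) := by
  rw [GA_self]
  have h := tan_of_hasFDerivAt (γ := iota (idx p)) (u := kap (idx p) p.1)
    (Eventually.of_forall (iota_mem (idx p)))
    ((contDiff_iota (idx p)).differentiable (by simp) _).hasFDerivAt v
  rw [iota_kap p.2 (idx_spec p)] at h
  refine hE.pos' h fun h0 => hv (fderiv_iota_injective (idx p) (kap (idx p) p.1) ?_)
  rw [h0, map_zero]

lemma RMetric1_bounded (B : Eu 5 →L[ℝ] Eu 5 →L[ℝ] ℝ) (hB : ∀ v, v ≠ 0 → 0 < B v v) :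
    Bornology.IsVonNBounded ℝ {v : Eu 5 | B v v < 1} := by
  have hc : Continuous fun v : Eu 5 => B v v := by fun_prop
  obtain ⟨c, hc0, hc'⟩ := (isCompact_sphere (0 : Eu 5) 1).exists_forall_le' hc.continuousOn
    (a := 0) fun v hv => hB v (by
      rintro rfl
      simp at hv)
  refine (NormedSpace.isVonNBounded_ball ℝ (Eu 5) (1 + c⁻¹)).subset fun v hv => ?_
  rw [mem_ball_zero_iff]
  rcases eq_or_ne v 0 with rfl | h0
  · rw [norm_zero]; positivity
  have hn : 0 < ‖v‖ := norm_pos_iff.2 h0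
  have h1 := hc' (‖v‖⁻¹ • v) (by
    rw [mem_sphere_zero_iff_norm, norm_smul, norm_inv, norm_norm, inv_mul_cancel₀ hn.ne'])
  simp only [map_smul, smul_apply, smul_eq_mul] at h1
  have h2 : c * ‖v‖ ^ 2 ≤ B v v := by
    have := mul_le_mul_of_nonneg_right h1 (sq_nonneg ‖v‖)
    refine this.trans (le_of_eq ?_)
    field_simp
  have h3 : B v v < 1 := hv
  have h4 : ‖v‖ ^ 2 < c⁻¹ := by
    rw [← one_div, lt_div_iff₀ hc0]
    linarith
  nlinarith [sq_nonneg (‖v‖ - 1), inv_pos.2 hc0]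

lemma RMetric1_comp {X A B : Type} [NormedAddCommGroup X] [NormedSpace ℝ X]
    [NormedAddCommGroup A] [NormedSpace ℝ A] [NormedAddCommGroup B] [NormedSpace ℝ B]
    {G : X → A →L[ℝ] A →L[ℝ] ℝ} {D : X → B →L[ℝ] A} {x : X} (hG : ContDiffAt ℝ ∞ G x)
    (hD : ContDiffAt ℝ ∞ D x) : ContDiffAt ℝ ∞ (fun q => (G q).bilinearComp (D q) (D q)) x := by
  have f1 : ContDiff ℝ ∞ fun f : B →L[ℝ] A →L[ℝ] ℝ => f.flip :=
    LinearIsometryEquiv.contDiff (𝕜 := ℝ) (n := ∞) (E := B →L[ℝ] A →L[ℝ] ℝ)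
      (F := A →L[ℝ] B →L[ℝ] ℝ) (ContinuousLinearMap.flipₗᵢ ℝ B A ℝ)
  have f2 : ContDiff ℝ ∞ fun f : B →L[ℝ] B →L[ℝ] ℝ => f.flip :=
    LinearIsometryEquiv.contDiff (𝕜 := ℝ) (n := ∞) (E := B →L[ℝ] B →L[ℝ] ℝ)
      (F := B →L[ℝ] B →L[ℝ] ℝ) (ContinuousLinearMap.flipₗᵢ ℝ B B ℝ)
  exact f2.contDiffAt.comp x ((f1.contDiffAt.comp x (hG.clm_comp hD)).clm_comp hD)

lemma RMetric1_symm (x p : Mf) (hp : p ∈ (chartAt (Eu 5) x).source) (v : Eu 5) :
    fderiv ℝ (iota (idx p)) (kap (idx p) p.1)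
      ((trivializationAt (Eu 5) (TangentSpace 𝓘(ℝ, Eu 5)) x).symm p v) =
      fderiv ℝ (iota (idx x)) (kap (idx x) p.1) v := by
  have hp' : p.1.2.1 (idx x, idx x) ≠ 0 := hp
  have e0 : iota (idx x) (kap (idx x) p.1) = p.1 := iota_kap p.2 hp'
  have h1 : (trivializationAt (Eu 5) (TangentSpace 𝓘(ℝ, Eu 5)) x).symm p v =
      fderiv ℝ (kap (idx p) ∘ iota (idx x)) (kap (idx x) p.1) v := by
    have h := TangentBundle.symmL_trivializationAt_eq_core (I := 𝓘(ℝ, Eu 5)) hp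
    rw [tangentBundleCore_coordChange_achart, modelWithCornersSelf_coe, range_id,
      fderivWithin_univ] at h
    have h2 := DFunLike.congr_fun h v
    rw [Bundle.Trivialization.symmL_apply _ (by simpa using hp)] at h2
    exact h2
  rw [h1]
  have d1 : DifferentiableAt ℝ (kap (idx p) ∘ iota (idx x)) (kap (idx x) p.1) := by
    refine DifferentiableAt.comp _ ?_ ((contDiff_iota (idx x)).differentiable (by simp) _)
    rw [e0]
    exact (contDiffAt_kap (idx_spec p)).differentiableAt (by simp)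
  have d2 : DifferentiableAt ℝ (iota (idx p)) ((kap (idx p) ∘ iota (idx x)) (kap (idx x) p.1)) :=
    (contDiff_iota (idx p)).differentiable (by simp) _
  have h3 := fderiv_comp _ d2 d1
  have h4 : iota (idx p) ∘ (kap (idx p) ∘ iota (idx x)) =ᶠ[𝓝 (kap (idx x) p.1)] iota (idx x) := by
    have hc : Continuous fun u : Eu 5 => (iota (idx x) u).2.1 (idx p, idx p) := by
      have h0 : Continuous fun q : Amb => q.2.1 (idx p, idx p) := by fun_prop
      exact h0.comp (contDiff_iota (idx x)).continuous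
    have h5 : ∀ᶠ u in 𝓝 (kap (idx x) p.1), (iota (idx x) u).2.1 (idx p, idx p) ≠ 0 :=
      hc.continuousAt.eventually_ne (by rw [e0]; exact idx_spec p)
    filter_upwards [h5] with u hu
    exact iota_kap (iota_mem _ _) hu
  rw [h4.fderiv_eq, Function.comp_apply, e0] at h3
  rw [h3]
  rfl

lemma ginner_pos (hE : Good E) (p : Mf) (v : TangentSpace 𝓘(ℝ, Eu 5) p) (hv : v ≠ 0) :
    0 < ginner E p v v := by
  exact RMetric1_pos hE p v hv

lemma ginner_bounded (hE : Good E) (p : Mf) :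
    Bornology.IsVonNBounded ℝ {v : TangentSpace 𝓘(ℝ, Eu 5) p | ginner E p v v < 1} := by
  exact RMetric1_bounded _ (RMetric1_pos hE p)

lemma ginner_smooth (hE : Good E) :
    ContMDiff 𝓘(ℝ, Eu 5) (𝓘(ℝ, Eu 5).prod 𝓘(ℝ, Eu 5 →L[ℝ] Eu 5 →L[ℝ] ℝ)) ∞
      (fun p : Mf => Bundle.TotalSpace.mk' (Eu 5 →L[ℝ] Eu 5 →L[ℝ] ℝ)
        (E := fun p : Mf => TangentSpace 𝓘(ℝ, Eu 5) p →L[ℝ] TangentSpace 𝓘(ℝ, Eu 5) p →L[ℝ] ℝ)
        p (ginner E p)) := by
  intro x
  rw [Bundle.contMDiffAt_section]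
  have hD : ContDiffAt ℝ ∞ (fun q : Amb => fderiv ℝ (iota (idx x)) (kap (idx x) q)) x.1 :=
    ((contDiff_iota (idx x)).fderiv_right (m := ∞) (by simp)).contDiffAt.comp x.1
      (contDiffAt_kap (idx_spec x))
  have hG : ContDiffAt ℝ ∞ (fun q : Amb => ((GA E q).bilinearComp
      (fderiv ℝ (iota (idx x)) (kap (idx x) q)) (fderiv ℝ (iota (idx x)) (kap (idx x) q)) :
        Eu 5 →L[ℝ] Eu 5 →L[ℝ] ℝ)) x.1 := by
    exact RMetric1_comp (hE.contDiffAt_GA x.1) hD
  refine (hG.contMDiffAt.comp x (contMDiff_val x)).congr_of_eventuallyEq ?_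
  filter_upwards [chart_source_mem_nhds (Eu 5) x] with p hp
  have hb : p ∈ (trivializationAt (Eu 5) (TangentSpace 𝓘(ℝ, Eu 5)) x).baseSet := by
    simpa using hp
  refine ContinuousLinearMap.ext fun v => ContinuousLinearMap.ext fun w => ?_
  rw [hom_trivializationAt_apply]
  refine (inCoordinates_apply_eq₂ hb hb (mem_univ _)).trans ?_
  simp only [Bundle.Trivial.fiberBundle_trivializationAt', Bundle.Trivial.linearMapAt_trivialization,
    LinearMap.id_coe, id_eq]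
  refine (ginner_apply p _ _).trans ?_
  rw [RMetric1_symm x p hp, RMetric1_symm x p hp]
  rfl

end

end Pool.Agent.Work.MP_a9fb1f_gt
end

-- merged part: Pool.Agent.Work.MP_a9fb1f_gt.Topo1
section
/-! The two model cones are not homeomorphic. -/

set_option autoImplicit false

open scoped Manifold ContDiff Topology ENNReal Bundle RealInnerProductSpace
open Filter Set

namespace Pool.Agent.Work.MP_a9fb1f_gt

noncomputable section

lemma t1_outer_neg (x : V3) : outer (-x) (-x) = outer x x := by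
  ext ij
  simp [outer]

lemma t1_eq_or {e e' : V3} (he : ‖e‖ = 1) (he' : ‖e'‖ = 1) (h : outer e e = outer e' e') :
    e = e' ∨ e = -e' := by
  have h1 : ⟪outer e e, outer e' e'⟫ = ⟪e, e'⟫ * ⟪e, e'⟫ := inner_outer _ _ _ _
  have h2 : ⟪outer e' e', outer e' e'⟫ = ⟪e', e'⟫ * ⟪e', e'⟫ := inner_outer _ _ _ _
  rw [h, h2, real_inner_self_eq_norm_sq, he'] at h1
  have h3 : ⟪e, e'⟫ = 1 ∨ ⟪e, e'⟫ = -1 := by
    apply mul_self_eq_one_iff.mp
    linarith
  rcases h3 with h3 | h3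
  · left
    have : ‖e - e'‖ ^ 2 = 0 := by
      rw [norm_sub_sq_real, he, he', h3]; norm_num
    have h4 : ‖e - e'‖ = 0 := by simpa using this
    exact sub_eq_zero.mp (norm_eq_zero.mp h4)
  · right
    have : ‖e + e'‖ ^ 2 = 0 := by
      rw [norm_add_sq_real, he, he', h3]; norm_num
    have h4 : ‖e + e'‖ = 0 := by simpa using this
    exact eq_neg_of_add_eq_zero_left (norm_eq_zero.mp h4)

/-- The map from the sphere to the space of lines. -/
def t1_q (e : Metric.sphere (0 : V3) 1) : Mat := outer e.1 e.1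

lemma t1_q_cont : Continuous t1_q := by
  have h : Continuous fun x : V3 × V3 => outer x.1 x.2 := contDiff_outer.continuous
  exact h.comp (continuous_subtype_val.prodMk continuous_subtype_val)

lemma t1_unit (g : Metric.sphere (0 : ℝ) 1) : g.1 = 1 ∨ g.1 = -1 := by
  have h : |g.1| = 1 := by
    rw [← Real.norm_eq_abs]; exact norm_eq_of_mem_sphere g
  exact (abs_eq zero_le_one).mp h

lemma t1_cov : IsCoveringMap (Set.rangeFactorization t1_q) := by
  have hc : Continuous (Set.rangeFactorization t1_q) := t1_q_cont.subtype_mk _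
  have hq : Topology.IsQuotientMap (Set.rangeFactorization t1_q) :=
    hc.isClosedMap.isQuotientMap hc Set.rangeFactorization_surjective
  have H : IsQuotientCoveringMap (Set.rangeFactorization t1_q) (Metric.sphere (0 : ℝ) 1) :=
    { toIsQuotientMap := hq
      continuous_const_smul := fun g => continuous_const_smul g
      apply_eq_iff_mem_orbit := by
        intro e e'
        have he : ‖e.1‖ = 1 := by simpa using e.2
        have he' : ‖e'.1‖ = 1 := by simpa using e'.2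
        constructor
        · intro h
          have h1 : outer e.1 e.1 = outer e'.1 e'.1 := congrArg Subtype.val h
          rcases t1_eq_or he he' h1 with h2 | h2
          · exact ⟨1, by simpa using (Subtype.ext h2).symm⟩
          · refine ⟨⟨-1, by simp⟩, Subtype.ext ?_⟩
            change (-1 : ℝ) • e'.1 = e.1
            rw [h2]; simp
        · rintro ⟨g, rfl⟩
          apply Subtype.ext
          change outer (g.1 • e'.1) (g.1 • e'.1) = outer e'.1 e'.1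
          rcases t1_unit g with h | h
          · rw [h, one_smul]
          · rw [h, neg_one_smul, t1_outer_neg]
      disjoint := by
        intro e
        have he : ‖e.1‖ = 1 := by simpa using e.2
        refine ⟨{x | 0 < ⟪x.1, e.1⟫}, ?_, ?_⟩
        · apply IsOpen.mem_nhds
          · exact isOpen_lt continuous_const (continuous_subtype_val.inner continuous_const)
          · change 0 < ⟪e.1, e.1⟫
            rw [real_inner_self_eq_norm_sq, he]; norm_num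
        · rintro g ⟨_, ⟨x, hx, rfl⟩, hx'⟩
          rcases t1_unit g with h | h
          · exact Subtype.ext h
          · exfalso
            have h1 : 0 < ⟪x.1, e.1⟫ := hx
            have h2 : 0 < ⟪g.1 • x.1, e.1⟫ := hx'
            rw [h, real_inner_smul_left] at h2
            linarith }
  exact H.isCoveringMap

/-- A continuous field of lines on a space contracted to a point has a continuous direction. -/
lemma exists_dir {A : Type} [TopologicalSpace A] (H : C(unitInterval × A, Mat))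
    (hH : ∀ x, ∃ e : V3, ‖e‖ = 1 ∧ H x = outer e e) {e0 : V3} (he0 : ‖e0‖ = 1)
    (h0 : ∀ a, H (0, a) = outer e0 e0) :
    ∃ l : A → V3, Continuous l ∧ ∀ a, ‖l a‖ = 1 ∧ H (1, a) = outer (l a) (l a) := by
  have hm : ∀ x, H x ∈ Set.range t1_q := by
    intro x
    obtain ⟨e, he, h⟩ := hH x
    exact ⟨⟨e, by simpa using he⟩, h.symm⟩
  let H' : C(unitInterval × A, Set.range t1_q) := ⟨fun x => ⟨H x, hm x⟩, H.continuous.subtype_mk _⟩
  let f : C(A, Metric.sphere (0 : V3) 1) := ContinuousMap.const A ⟨e0, by simpa using he0⟩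
  have H0 : ∀ a, H' (0, a) = Set.rangeFactorization t1_q (f a) := fun a => Subtype.ext (h0 a)
  let L := t1_cov.liftHomotopy H' f H0
  have hL : Set.rangeFactorization t1_q ∘ L = H' := t1_cov.liftHomotopy_lifts H' f H0
  refine ⟨fun a => (L (1, a)).1, ?_, fun a => ⟨?_, ?_⟩⟩
  · exact continuous_subtype_val.comp (L.continuous.comp (continuous_const.prodMk continuous_id))
  · simpa using (L (1, a)).2
  · exact (congrArg Subtype.val (congrFun hL (1, a))).symm

end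

end Pool.Agent.Work.MP_a9fb1f_gt
end

-- merged part: Pool.Agent.Work.MP_a9fb1f_gt.Topo2
section
/-! The two model cones are not homeomorphic. -/

set_option autoImplicit false

open scoped Manifold ContDiff Topology ENNReal Bundle RealInnerProductSpace
open Filter Set

namespace Pool.Agent.Work.MP_a9fb1f_gt

noncomputable section

lemma topo2_norm (y : Eu 5) : ‖(Fm y).2.2‖ = |y 1| := by
  rw [← sq_eq_sq₀ (norm_nonneg _) (abs_nonneg _), sq_abs]
  exact zz_Fm y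

lemma topo2_out (a : ℝ) (ha : 0 ≤ a) : IsPreconnected {w : ℝ × Mat | w ∈ range f1 ∧ a < ‖w.2‖} := by
  have h1 : IsPreconnected {y : Eu 5 | a < y 1} :=
    (convex_halfSpace_gt (f := fun y : Eu 5 => y 1) ⟨fun _ _ => rfl, fun _ _ => rfl⟩ a).isPreconnected
  have h2 : Continuous fun y : Eu 5 => ((Fm y).1, (Fm y).2.2) :=
    contDiff_Fm.continuous.fst.prodMk contDiff_Fm.continuous.snd.snd
  convert h1.image _ h2.continuousOn using 1
  ext w
  constructor
  · rintro ⟨⟨p, rfl⟩, hw⟩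
    obtain ⟨y, hy, e⟩ := Fm_surj p.2
    refine ⟨y, ?_, by simp only [e]; rfl⟩
    change a < ‖p.1.2.2‖ at hw
    rwa [← e, topo2_norm, abs_of_nonneg hy] at hw
  · rintro ⟨y, hy, rfl⟩
    refine ⟨⟨⟨Fm y, Fm_mem y⟩, rfl⟩, ?_⟩
    change a < ‖(Fm y).2.2‖
    rw [topo2_norm]
    exact lt_of_lt_of_le hy (le_abs_self _)

lemma topo2_line {w : ℝ × Mat} (hw : w ∈ range f1) : ∃ (r : ℝ) (M : Mat), ‖M‖ = 1 ∧ w.2 = r • M ∧
    ∀ s : ℝ, (w.1, s • M) ∈ range f1 := by
  obtain ⟨p, rfl⟩ := hw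
  obtain ⟨y, -, e⟩ := Fm_surj p.2
  have key : ∀ s : ℝ, (Fm !₂[p.1.1, s, y 2, y 3, y 4]).2.2 =
      s • outer (nE (y 2) (y 3) (y 4)) (eE (y 2) (y 3)) := fun s => outer_smul_left _ _ _
  refine ⟨y 1, outer (nE (y 2) (y 3) (y 4)) (eE (y 2) (y 3)), ?_, ?_, fun s => ?_⟩
  · have := topo2_norm !₂[p.1.1, 1, y 2, y 3, y 4]
    rw [key, one_smul] at this
    exact this.trans abs_one
  · change p.1.2.2 = _
    rw [← e]
    exact outer_smul_left _ _ _
  · exact ⟨⟨_, Fm_mem !₂[p.1.1, s, y 2, y 3, y 4]⟩, Prod.ext rfl (key s)⟩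

lemma topo2_ray {N0 M : Mat} (hM : ‖M‖ = 1) {r : ℝ} (h : r • M ≠ N0) :
    ∃ σ : ℝ, |σ| = 1 ∧ ∀ s, 0 ≤ s → (r + s * σ) • M ≠ N0 := by
  by_contra hn
  push Not at hn
  obtain ⟨s, hs, e⟩ := hn 1 abs_one
  obtain ⟨s', hs', e'⟩ := hn (-1) (by simp)
  have hM0 : M ≠ 0 := by
    rintro rfl
    simp at hM
  have h1 := smul_left_injective ℝ hM0 (e.trans e'.symm)
  have h2 : s = 0 := by linarith
  apply h
  rw [← e, h2]
  simp

lemma isPreconnected_ne (N0 : Mat) : IsPreconnected {w : range f1 | w.1.2 ≠ N0} := by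
  rw [← Topology.IsInducing.subtypeVal.isPreconnected_image]
  have e : Subtype.val '' {w : range f1 | w.1.2 ≠ N0} = {w | w ∈ range f1 ∧ w.2 ≠ N0} := by
    ext w
    constructor
    · rintro ⟨w, hw, rfl⟩
      exact ⟨w.2, hw⟩
    · rintro ⟨h1, h2⟩
      exact ⟨⟨w, h1⟩, h2, rfl⟩
  rw [e]
  have key : ∀ w ∈ {w : ℝ × Mat | w ∈ range f1 ∧ w.2 ≠ N0}, ∃ t, IsPreconnected t ∧ w ∈ t ∧
      t ⊆ {w : ℝ × Mat | w ∈ range f1 ∧ w.2 ≠ N0} ∧
      (t ∩ {w : ℝ × Mat | w ∈ range f1 ∧ ‖N0‖ < ‖w.2‖}).Nonempty := by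
    rintro w ⟨h1, h2⟩
    obtain ⟨r, M, hM, hr, hs⟩ := topo2_line h1
    obtain ⟨σ, hσ, hσ'⟩ := topo2_ray hM (hr ▸ h2)
    refine ⟨(fun s : ℝ => (w.1, (r + s * σ) • M)) '' Ici 0,
      isPreconnected_Ici.image _ (by fun_prop), ⟨0, mem_Ici.2 le_rfl, ?_⟩, ?_,
      _, ⟨‖N0‖ + |r| + 1, mem_Ici.2 (by positivity), rfl⟩, hs _, ?_⟩
    · simp [← hr]
    · rintro _ ⟨s, h, rfl⟩
      exact ⟨hs _, hσ' s h⟩
    · change _ < ‖(r + (‖N0‖ + |r| + 1) * σ) • M‖
      rw [norm_smul, hM, mul_one, Real.norm_eq_abs]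
      have h3 := abs_sub_abs_le_abs_sub ((‖N0‖ + |r| + 1) * σ) (-r)
      rw [abs_mul, hσ, mul_one, abs_neg, abs_of_nonneg (by positivity), sub_neg_eq_add,
        add_comm _ r] at h3
      linarith
  refine isPreconnected_of_forall_pair fun x hx y hy => ?_
  obtain ⟨t, ht, hxt, hts, htn⟩ := key x hx
  obtain ⟨u, hu, hyu, hus, hun⟩ := key y hy
  have hA := topo2_out ‖N0‖ (norm_nonneg _)
  refine ⟨(t ∪ _) ∪ u, union_subset (union_subset hts ?_) hus, Or.inl (Or.inl hxt), Or.inr hyu,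
    (ht.union' htn hA).union' ?_ hu⟩
  · rintro w ⟨h1, h2⟩
    exact ⟨h1, fun h => by rw [h] at h2; exact lt_irrefl _ h2⟩
  · obtain ⟨z, hz, hz'⟩ := hun
    exact ⟨z, Or.inr hz', hz⟩

end

end Pool.Agent.Work.MP_a9fb1f_gt
end

-- merged part: Pool.Agent.Work.MP_a9fb1f_gt.Topo
section
/-! The two model cones are not homeomorphic. -/

set_option autoImplicit false

open scoped Manifold ContDiff Topology ENNReal Bundle RealInnerProductSpace
open Filter Set

namespace Pool.Agent.Work.MP_a9fb1f_gt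

noncomputable section

lemma Topo_mem (w : range f1) (t r : ℝ) : ((t, r • w.1.2) : ℝ × Mat) ∈ range f1 := by
  obtain ⟨q, hq⟩ := w.2
  refine ⟨dil (t - r * q.1.1) r q, ?_⟩
  rw [← hq]
  simp [f1, dil, dilA]

lemma Topo_sq {a b : V3} (ha : ‖a‖ = 1) (h : outer a a = outer b b) : ⟪a, b⟫ ^ 2 = 1 := by
  have h1 := inner_outer a a b b
  rw [← h, real_inner_self_eq_norm_sq, norm_outer, ha] at h1
  linarith

lemma Topo_eq {a b : V3} (ha : ‖a‖ = 1) (hb : ‖b‖ = 1) (h : outer a a = outer b b) :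
    a = ⟪a, b⟫ • b := by
  have h1 := Topo_sq ha h
  have h2 : ‖a - ⟪a, b⟫ • b‖ ^ 2 = 0 := by
    rw [norm_sub_sq_real, real_inner_smul_right, norm_smul, ha, hb, mul_one, Real.norm_eq_abs,
      sq_abs]
    linarith
  exact sub_eq_zero.1 (norm_eq_zero.1 (pow_eq_zero_iff two_ne_zero |>.1 h2))

lemma Topo_half (p : range f1) (g : range f1 → Mat) (hg : ContinuousOn g {p}ᶜ)
    (h : ∀ w, w ≠ p → ∃ e : V3, ‖e‖ = 1 ∧ g w = outer e e) (σ : ℝ) (hσ : σ * σ = 1) :
    ∃ l : range f1 → V3, ContinuousOn l {w | w.1.2 ≠ p.1.2 ∨ 0 < σ * (w.1.1 - p.1.1)} ∧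
      ∀ w : range f1, (w.1.2 ≠ p.1.2 ∨ 0 < σ * (w.1.1 - p.1.1)) →
        ‖l w‖ = 1 ∧ g w = outer (l w) (l w) := by
  classical
  set U : Set (range f1) := {w | w.1.2 ≠ p.1.2 ∨ 0 < σ * (w.1.1 - p.1.1)} with hU
  let τ : unitInterval × U → ℝ := fun x => x.1.1 * (σ * (x.2.1.1.1 - p.1.1)) + (1 - x.1.1)
  let K : unitInterval × U → range f1 := fun x =>
    ⟨(p.1.1 + σ * τ x, (1 - (1 - x.1.1) * τ x) • x.2.1.1.2), Topo_mem _ _ _⟩
  have hτ : Continuous τ := by fun_prop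
  have hK : Continuous K := Continuous.subtype_mk (by fun_prop) _
  have hKp : ∀ x, K x ≠ p := by
    intro x hx
    have h1 : p.1.1 + σ * τ x = p.1.1 := congrArg (fun w : range f1 => w.1.1) hx
    have h2 : (1 - (1 - x.1.1) * τ x) • x.2.1.1.2 = p.1.2 :=
      congrArg (fun w : range f1 => w.1.2) hx
    have h3 : τ x = 0 := by
      have : σ * (σ * τ x) = 0 := by rw [show σ * τ x = 0 by linarith, mul_zero]
      rwa [← mul_assoc, hσ, one_mul] at this
    rw [h3, mul_zero, sub_zero, one_smul] at h2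
    rcases x.2.2 with h4 | h4
    · exact h4 h2
    · have a := x.1.2.1
      have b := x.1.2.2
      simp only [τ] at h3
      rcases a.eq_or_lt with a | a
      · rw [← a] at h3; norm_num at h3
      · nlinarith [mul_pos a h4]
  let w0 : range f1 := ⟨(p.1.1 + σ, (0 : ℝ) • p.1.2), Topo_mem _ _ _⟩
  have hw0 : w0 ≠ p := by
    intro hx
    have h1 : p.1.1 + σ = p.1.1 := congrArg (fun w : range f1 => w.1.1) hx
    rw [show σ = 0 by linarith] at hσ
    norm_num at hσ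
  obtain ⟨e0, he0, hg0⟩ := h w0 hw0
  obtain ⟨l, hl, hl'⟩ := exists_dir (A := U) ⟨fun x => g (K x), hg.comp_continuous hK hKp⟩
    (fun x => h _ (hKp x)) he0 (fun a => by
      have : K (0, a) = w0 := Subtype.ext (by simp [K, τ, w0])
      change g (K (0, a)) = _
      rw [this, hg0])
  refine ⟨fun w => if hw : w ∈ U then l ⟨w, hw⟩ else 0, ?_, fun w hw => ?_⟩
  · rw [continuousOn_iff_continuous_domRestrict]
    refine hl.congr fun w => ?_
    simp [w.2]
  · have hw' : w ∈ U := hw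
    simp only [hw', dif_pos]
    obtain ⟨h1, h2⟩ := hl' ⟨w, hw'⟩
    refine ⟨h1, ?_⟩
    have : K (1, ⟨w, hw'⟩) = w := Subtype.ext (by
      simp only [K, τ, Set.Icc.coe_one, one_mul, sub_self, add_zero, zero_mul, sub_zero,
        one_smul, ← mul_assoc, hσ]
      simp)
    rw [← h2]
    change _ = g (K (1, ⟨w, hw'⟩))
    rw [this]

lemma dir_f1 (p : range f1) (g : range f1 → Mat) (hg : ContinuousOn g {p}ᶜ)
    (h : ∀ w, w ≠ p → ∃ e : V3, ‖e‖ = 1 ∧ g w = outer e e) :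
    ∃ l : range f1 → V3, ContinuousOn l {p}ᶜ ∧
      ∀ w, w ≠ p → ‖l w‖ = 1 ∧ g w = outer (l w) (l w) := by
  classical
  obtain ⟨l1, c1, h1⟩ := Topo_half p g hg h 1 (by norm_num)
  obtain ⟨l2, c2, h2⟩ := Topo_half p g hg h (-1) (by norm_num)
  have hop : ∀ σ : ℝ, IsOpen {w : range f1 | w.1.2 ≠ p.1.2 ∨ 0 < σ * (w.1.1 - p.1.1)} := by
    intro σ
    have a : IsOpen {w : range f1 | w.1.2 ≠ p.1.2} := isOpen_ne_fun (by fun_prop) (by fun_prop)
    have b : IsOpen {w : range f1 | 0 < σ * (w.1.1 - p.1.1)} :=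
      isOpen_lt (by fun_prop) (by fun_prop)
    exact a.union b
  have hc : ContinuousOn (fun w => ⟪l1 w, l2 w⟫) {w : range f1 | w.1.2 ≠ p.1.2} :=
    ContinuousOn.inner (c1.mono fun w hw => Or.inl hw) (c2.mono fun w hw => Or.inl hw)
  have hsq : ∀ w : range f1, w.1.2 ≠ p.1.2 → outer (l1 w) (l1 w) = outer (l2 w) (l2 w) :=
    fun w hw => by rw [← (h1 w (Or.inl hw)).2, (h2 w (Or.inl hw)).2]
  obtain ⟨c, hc2, hcl⟩ : ∃ c : ℝ, c * c = 1 ∧ ∀ w : range f1, w.1.2 ≠ p.1.2 → l1 w = c • l2 w := by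
    rcases (isPreconnected_ne p.1.2).eq_one_or_eq_neg_one_of_sq_eq hc
      (fun w hw => Topo_sq (h1 w (Or.inl hw)).1 (hsq w hw)) with a | a
    · refine ⟨1, by norm_num, fun w hw => ?_⟩
      have b : ⟪l1 w, l2 w⟫ = 1 := a hw
      rw [← b]
      exact Topo_eq (h1 w (Or.inl hw)).1 (h2 w (Or.inl hw)).1 (hsq w hw)
    · refine ⟨-1, by norm_num, fun w hw => ?_⟩
      have b : ⟪l1 w, l2 w⟫ = -1 := a hw
      rw [← b]
      exact Topo_eq (h1 w (Or.inl hw)).1 (h2 w (Or.inl hw)).1 (hsq w hw)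
  have hcov : ∀ w : range f1, w ≠ p → ¬ (w.1.2 ≠ p.1.2 ∨ 0 < 1 * (w.1.1 - p.1.1)) →
      (w.1.2 ≠ p.1.2 ∨ 0 < -1 * (w.1.1 - p.1.1)) := by
    intro w hw hn
    by_contra hn'
    push Not at hn hn'
    exact hw (Subtype.ext (Prod.ext (by linarith [hn.2, hn'.2]) hn.1))
  refine ⟨fun w => if w.1.2 ≠ p.1.2 ∨ 0 < 1 * (w.1.1 - p.1.1) then l1 w else c • l2 w,
    fun w hw => ContinuousAt.continuousWithinAt ?_, fun w hw => ?_⟩
  · by_cases hn : w.1.2 ≠ p.1.2 ∨ 0 < 1 * (w.1.1 - p.1.1)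
    · refine (c1.continuousAt ((hop 1).mem_nhds hn)).congr ?_
      filter_upwards [(hop 1).mem_nhds hn] with v hv
      exact (if_pos hv).symm
    · have hn' := hcov w hw hn
      refine ((c2.continuousAt ((hop (-1)).mem_nhds hn')).const_smul c).congr ?_
      filter_upwards [(hop (-1)).mem_nhds hn'] with v hv
      split_ifs with hv'
      · refine (hcl v ?_).symm
        rcases hv with a | a
        · exact a
        · rcases hv' with b | b
          · exact b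
          · linarith
      · rfl
  · by_cases hn : w.1.2 ≠ p.1.2 ∨ 0 < 1 * (w.1.1 - p.1.1)
    · simp only [if_pos hn]
      exact h1 w hn
    · simp only [if_neg hn]
      obtain ⟨a, b⟩ := h2 w (hcov w hw hn)
      constructor
      · rw [norm_smul, a, mul_one, Real.norm_eq_abs]
        rcases mul_self_eq_one_iff.1 hc2 with rfl | rfl <;> simp
      · rw [b]
        ext ij
        simp only [outer, PiLp.smul_apply, smul_eq_mul]
        linear_combination (-(l2 w ij.1 * l2 w ij.2)) * hc2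

/-- The normalised matrix `AᵀA`. -/
def Topo_G (A : Mat) : Mat :=
  WithLp.toLp 2 fun ij => (‖A‖ ^ 2)⁻¹ * ∑ k, A (k, ij.1) * A (k, ij.2)

lemma Topo_G_cont : ContinuousOn Topo_G {0}ᶜ := by
  refine (PiLp.continuous_toLp 2 _).comp_continuousOn (continuousOn_pi.2 fun ij => ?_)
  refine ContinuousOn.mul (ContinuousOn.inv₀ (by fun_prop) fun A hA => ?_) (by fun_prop)
  exact pow_ne_zero _ (norm_ne_zero_iff.2 hA)

lemma Topo_G_outer {y e : V3} (he : ‖e‖ = 1) (h : outer y e ≠ 0) :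
    Topo_G (outer y e) = outer e e := by
  have h1 : ‖outer y e‖ = ‖y‖ := by rw [norm_outer, he, mul_one]
  have h2 : ‖y‖ ^ 2 ≠ 0 := pow_ne_zero _ (by rw [← h1]; exact norm_ne_zero_iff.2 h)
  ext ij
  simp only [Topo_G, h1]
  simp only [outer]
  rw [inv_mul_eq_iff_eq_mul₀ h2, EuclideanSpace.real_norm_sq_eq, Finset.sum_mul]
  exact Finset.sum_congr rfl fun k _ => by ring

theorem not_homeo : IsEmpty (range f1 ≃ₜ range f2) := by
  refine ⟨fun h => ?_⟩
  have mem : ∀ (t : ℝ) (e : V3), ‖e‖ = 1 → t • outer e e ∈ range f2 := fun t e he =>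
    ⟨⟨(t, outer e e, outer 0 e), e, 0, he, inner_zero_left _, rfl, rfl⟩, by
      ext ij; simp [f2, outer]⟩
  let e : ℝ → V3 := fun θ => !₂[Real.cos θ, Real.sin θ, 0]
  have he : ∀ θ, ‖e θ‖ = 1 := fun θ => by
    rw [EuclideanSpace.norm_eq, Fin.sum_univ_three]
    simp [e]
  have hec : Continuous e := by
    refine (PiLp.continuous_toLp 2 _).comp (continuous_pi fun i => ?_)
    fin_cases i <;> simp <;> fun_prop
  let z : range f2 := ⟨(0 : ℝ) • outer (e 0) (e 0), mem _ _ (he 0)⟩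
  have hne : ∀ w, w ≠ h.symm z → (h w).1 ≠ 0 := by
    intro w hw h0
    apply hw
    rw [← h.symm_apply_apply w]
    congr 1
    exact Subtype.ext (by rw [h0]; simp [z])
  obtain ⟨l, hl, hl'⟩ := dir_f1 (h.symm z) (fun w => Topo_G (h w).1)
    (Topo_G_cont.comp (continuous_subtype_val.comp h.continuous).continuousOn hne)
    (fun w hw => by
      have h0 := hne w hw
      obtain ⟨q, hq⟩ := (h w).2
      obtain ⟨a, ν, h1, -, h3, h4⟩ := q.2
      have : (h w).1 = outer (q.1.1 • a + ν) a := by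
        rw [← hq, f2, h3, h4]
        ext ij
        simp [outer]; ring
      rw [this] at h0 ⊢
      exact ⟨a, h1, Topo_G_outer h1 h0⟩)
  have ho : Continuous fun x : V3 × V3 => outer x.1 x.2 := contDiff_outer.continuous
  let A : ℝ → range f2 := fun θ => ⟨(1 : ℝ) • outer (e θ) (e θ), mem _ _ (he θ)⟩
  have hA : Continuous A :=
    Continuous.subtype_mk ((ho.comp (hec.prodMk hec)).const_smul (1 : ℝ)) _
  have hA0 : ∀ θ, outer (e θ) (e θ) ≠ 0 := fun θ => by
    rw [← norm_ne_zero_iff, norm_outer, he]; norm_num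
  have hAz : ∀ θ, h.symm (A θ) ≠ h.symm z := by
    intro θ h0
    have h1 := congrArg Subtype.val (h.symm.injective h0)
    simp only [A, z, one_smul, zero_smul] at h1
    exact hA0 θ h1
  have hφ : Continuous fun θ => ⟪l (h.symm (A θ)), e θ⟫ :=
    (hl.comp_continuous (h.symm.continuous.comp hA) hAz).inner hec
  have hsq : ∀ θ, ⟪l (h.symm (A θ)), e θ⟫ ^ 2 = 1 := fun θ => by
    obtain ⟨h1, h2⟩ := hl' _ (hAz θ)
    refine Topo_sq h1 ?_
    rw [← h2, h.apply_symm_apply]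
    simp only [A, one_smul]
    exact Topo_G_outer (he θ) (hA0 θ)
  have hπ : e Real.pi = -e 0 := by
    ext i
    fin_cases i <;> simp [e]
  have hAπ : A Real.pi = A 0 := Subtype.ext (by
    simp only [A, hπ]
    ext ij
    simp [outer])
  have key : ⟪l (h.symm (A Real.pi)), e Real.pi⟫ = -⟪l (h.symm (A 0)), e 0⟫ := by
    rw [hAπ, hπ, inner_neg_right]
  rcases isPreconnected_univ.eq_one_or_eq_neg_one_of_sq_eq hφ.continuousOn
    (fun θ _ => hsq θ) with a | a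
  · have a1 : ⟪l (h.symm (A Real.pi)), e Real.pi⟫ = 1 := a (mem_univ _)
    have a2 : ⟪l (h.symm (A 0)), e 0⟫ = 1 := a (mem_univ _)
    linarith
  · have a1 : ⟪l (h.symm (A Real.pi)), e Real.pi⟫ = -1 := a (mem_univ _)
    have a2 : ⟪l (h.symm (A 0)), e 0⟫ = -1 := a (mem_univ _)
    linarith

end

end Pool.Agent.Work.MP_a9fb1f_gt
end
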