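import Pool.Agent.Work.MP_a9fb1f_gt.Defs
import Pool.Agent.Work.MP_a9fb1f_gt.PertB
import Pool.Agent.Work.MP_a9fb1f_gt.ModelB
import Pool.Agent.Work.MP_a9fb1f_gt.Topo

-- merged part: Pool.Agent.Work.MP_a9fb1f_gt.Tensor1
section
/-! Christoffel symbols as a bilinear map; the Ricci form as a trace. -/

set_option autoImplicit false

open scoped Manifold ContDiff Topology ENNReal Bundle RealInnerProductSpace
open Filter Set

namespace Pool.Agent.Work.MP_a9fb1f_gt

noncomputable section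

variable {n : ℕ}

def bil (A : Matrix (Fin n) (Fin n) ℝ) (u v : Eu n) : ℝ := ∑ i, ∑ j, A i j * u i * v j

def ricQ (g : Eu n → Matrix (Fin n) (Fin n) ℝ) (y v : Eu n) : ℝ :=
  ∑ i, ∑ j, ricci g i j y * v i * v j

/-- A symmetric nondegenerate coefficient matrix of class `C²` at `y`. -/
structure SmoothMet (g : Eu n → Matrix (Fin n) (Fin n) ℝ) (y : Eu n) : Prop where
  smooth : ∀ i j, ContDiffAt ℝ 2 (fun x => g x i j) y
  symm : ∀ᶠ x in 𝓝 y, ∀ i j, g x i j = g x j i
  det : (g y).det ≠ 0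

/-- The Christoffel symbols as a bilinear map. -/
def gam (g : Eu n → Matrix (Fin n) (Fin n) ℝ) (y : Eu n) : Eu n →L[ℝ] Eu n →L[ℝ] Eu n :=
  ∑ k, ∑ i, ∑ j, christoffel g k i j y •
    (EuclideanSpace.proj i : Eu n →L[ℝ] ℝ).smulRight
      ((EuclideanSpace.proj j : Eu n →L[ℝ] ℝ).smulRight (EuclideanSpace.single k (1 : ℝ)))

variable {g g' : Eu n → Matrix (Fin n) (Fin n) ℝ} {y : Eu n}

lemma Tensor1_sum (c : Fin n → Fin n → Fin n → ℝ) (u v : Eu n) (k : Fin n) :
    (∑ k, ∑ i, ∑ j, c k i j • (EuclideanSpace.proj i : Eu n →L[ℝ] ℝ).smulRight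
      ((EuclideanSpace.proj j : Eu n →L[ℝ] ℝ).smulRight (EuclideanSpace.single k (1 : ℝ)))) u v k
      = ∑ i, ∑ j, c k i j * u i * v j := by
  simp only [sum_apply, smul_apply,
    ContinuousLinearMap.smulRight_apply, WithLp.ofLp_sum, Finset.sum_apply, PiLp.smul_apply,
    EuclideanSpace.coe_proj, PiLp.single_apply, smul_eq_mul]
  rw [Finset.sum_eq_single k]
  · simp [mul_assoc]
  · intro b _ hb
    simp [hb.symm]
  · simp

lemma Tensor1_expand (f : Eu n → ℝ) (y u : Eu n) : fderiv ℝ f y u = ∑ i, u i * pd i f y := by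
  have : u = ∑ i, u i • EuclideanSpace.single i (1 : ℝ) := by
    ext k
    simp [Finset.sum_apply, Pi.single_apply]
  conv_lhs => rw [this]
  simp only [map_sum, map_smul, smul_eq_mul, pd]

lemma Tensor1_pd_congr {f f' : Eu n → ℝ} (h : f =ᶠ[𝓝 y] f') (i : Fin n) : pd i f y = pd i f' y := by
  rw [pd, pd, h.fderiv_eq]

lemma gam_apply (u v : Eu n) (k : Fin n) :
    gam g y u v k = ∑ i, ∑ j, christoffel g k i j y * u i * v j :=
  Tensor1_sum (fun k i j => christoffel g k i j y) u v k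

lemma christoffel_eq (hd : (g y).det ≠ 0) (i j : Fin n) (Γ : Fin n → ℝ)
    (h : ∀ l, ∑ k, g y l k * Γ k = (1 / 2) *
      (pd i (fun x => g x j l) y + pd j (fun x => g x i l) y - pd l (fun x => g x i j) y))
    (k : Fin n) : christoffel g k i j y = Γ k := by
  have h1 := Matrix.nonsing_inv_mul (g y) (isUnit_iff_ne_zero.2 hd)
  rw [christoffel, Finset.mul_sum]
  calc _ = ∑ l, (g y)⁻¹ k l * ∑ m, g y l m * Γ m :=
        Finset.sum_congr rfl fun l _ => by rw [h l]; ring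
    _ = ∑ m, ((g y)⁻¹ * g y) k m * Γ m := by
        simp only [Matrix.mul_apply, Finset.mul_sum, Finset.sum_mul, mul_assoc]
        exact Finset.sum_comm
    _ = Γ k := by simp [h1, Matrix.one_apply]

lemma Tensor1_chr_congr (h : g =ᶠ[𝓝 y] g') (k i j : Fin n) :
    christoffel g k i j y = christoffel g' k i j y := by
  have e : ∀ a b c, pd a (fun x => g x b c) y = pd a (fun x => g' x b c) y := fun a b c =>
    Tensor1_pd_congr (h.mono fun x hx => by simp only [hx]) a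
  simp only [christoffel, e, h.self_of_nhds]

lemma ricci_congr (h : g =ᶠ[𝓝 y] g') (i j : Fin n) : ricci g i j y = ricci g' i j y := by
  have e : ∀ a k i j, pd a (christoffel g k i j) y = pd a (christoffel g' k i j) y :=
    fun a k i j => Tensor1_pd_congr
      (h.eventually_nhds.mono fun x hx => Tensor1_chr_congr hx k i j) a
  simp only [ricci, e, Tensor1_chr_congr h]

lemma Tensor1_det {A : Eu n → Matrix (Fin n) (Fin n) ℝ} {m : WithTop ℕ∞}
    (h : ∀ i j, ContDiffAt ℝ m (fun x => A x i j) y) : ContDiffAt ℝ m (fun x => (A x).det) y := by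
  simp only [Matrix.det_apply']
  exact ContDiffAt.sum fun σ _ => contDiffAt_const.mul (contDiffAt_prod fun i _ => h _ _)

lemma Tensor1_inv (h : SmoothMet g y) (k l : Fin n) : ContDiffAt ℝ 2 (fun x => (g x)⁻¹ k l) y := by
  simp only [Matrix.inv_def, Ring.inverse_eq_inv, Matrix.smul_apply, smul_eq_mul,
    Matrix.adjugate_apply]
  refine ((Tensor1_det h.smooth).inv h.det).mul (Tensor1_det fun a b => ?_)
  simp only [Matrix.updateRow_apply]
  split_ifs
  · exact contDiffAt_const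
  · exact h.smooth a b

lemma Tensor1_pd {f : Eu n → ℝ} {a b : WithTop ℕ∞} (h : ContDiffAt ℝ b f y) (e : a + 1 ≤ b)
    (i : Fin n) : ContDiffAt ℝ a (pd i f) y :=
  (h.fderiv_right e).clm_apply contDiffAt_const

lemma SmoothMet.eventually (h : SmoothMet g y) : ∀ᶠ x in 𝓝 y, SmoothMet g x := by
  have h1 : ∀ᶠ x in 𝓝 y, ∀ i j, ContDiffAt ℝ 2 (fun x => g x i j) x :=
    eventually_all.2 fun i => eventually_all.2 fun j => (h.smooth i j).eventually (by simp)
  have h2 := (Tensor1_det h.smooth).continuousAt.eventually_ne h.det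
  filter_upwards [h1, h.symm.eventually_nhds, h2] with x a b c using ⟨a, b, c⟩

lemma SmoothMet.contDiffAt_christoffel (h : SmoothMet g y) (k i j : Fin n) :
    ContDiffAt ℝ 1 (christoffel g k i j) y := by
  have e : ∀ a b c, ContDiffAt ℝ 1 (pd a fun x => g x b c) y := fun a b c =>
    Tensor1_pd (h.smooth b c) (by norm_num) a
  exact contDiffAt_const.mul (ContDiffAt.sum fun l _ =>
    ((Tensor1_inv h k l).of_le (by norm_num)).mul (((e _ _ _).add (e _ _ _)).sub (e _ _ _)))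

lemma Tensor1_cd {F : Type} [NormedAddCommGroup F] [NormedSpace ℝ F]
    {c : Fin n → Fin n → Fin n → Eu n → ℝ} (B : Fin n → Fin n → Fin n → F)
    (h : ∀ k i j, ContDiffAt ℝ 1 (c k i j) y) :
    ContDiffAt ℝ 1 (fun x => ∑ k, ∑ i, ∑ j, c k i j x • B k i j) y :=
  ContDiffAt.sum fun k _ => ContDiffAt.sum fun i _ => ContDiffAt.sum fun j _ =>
    (h k i j).smul contDiffAt_const

lemma Tensor1_fd {F : Type} [NormedAddCommGroup F] [NormedSpace ℝ F]
    {c : Fin n → Fin n → Fin n → Eu n → ℝ} (B : Fin n → Fin n → Fin n → F)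
    (h : ∀ k i j, ContDiffAt ℝ 1 (c k i j) y) (w : Eu n) :
    fderiv ℝ (fun x => ∑ k, ∑ i, ∑ j, c k i j x • B k i j) y w =
      ∑ k, ∑ i, ∑ j, fderiv ℝ (c k i j) y w • B k i j := by
  have e : HasFDerivAt (fun x => ∑ k, ∑ i, ∑ j, c k i j x • B k i j)
      (∑ k, ∑ i, ∑ j, (fderiv ℝ (c k i j) y).smulRight (B k i j)) y :=
    HasFDerivAt.fun_sum fun k _ => HasFDerivAt.fun_sum fun i _ => HasFDerivAt.fun_sum fun j _ =>
      ((h k i j).differentiableAt (by norm_num)).hasFDerivAt.smul_const _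
  rw [e.fderiv]
  simp only [sum_apply, ContinuousLinearMap.smulRight_apply]

lemma SmoothMet.contDiffAt_gam (h : SmoothMet g y) : ContDiffAt ℝ 1 (gam g) y :=
  Tensor1_cd (F := Eu n →L[ℝ] Eu n →L[ℝ] Eu n) _ h.contDiffAt_christoffel

lemma SmoothMet.continuousAt_ricQ (h : SmoothMet g y) (v : Eu n) :
    ContinuousAt (fun x => ricQ g x v) y := by
  have e : ∀ k i j, ContDiffAt ℝ 0 (christoffel g k i j) y := fun k i j =>
    (h.contDiffAt_christoffel k i j).of_le (by norm_num)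
  have e' : ∀ a k i j, ContDiffAt ℝ 0 (pd a (christoffel g k i j)) y := fun a k i j =>
    Tensor1_pd (h.contDiffAt_christoffel k i j) (by norm_num) a
  have r : ∀ i j, ContDiffAt ℝ 0 (ricci g i j) y := fun i j =>
    ContDiffAt.sum fun k _ => ((e' _ _ _ _).sub (e' _ _ _ _)).add
      (ContDiffAt.sum fun l _ => ((e _ _ _).mul (e _ _ _)).sub ((e _ _ _).mul (e _ _ _)))
  exact (ContDiffAt.sum fun i _ => ContDiffAt.sum fun j _ =>
    ((r i j).mul contDiffAt_const).mul contDiffAt_const).continuousAt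

lemma Tensor1_pd_symm (h : SmoothMet g y) (a b c : Fin n) :
    pd a (fun x => g x b c) y = pd a (fun x => g x c b) y :=
  Tensor1_pd_congr (h.symm.mono fun _ hx => hx b c) a

lemma Tensor1_chr_symm (h : SmoothMet g y) (k i j : Fin n) :
    christoffel g k i j y = christoffel g k j i y := by
  simp only [christoffel]
  congr 1
  refine Finset.sum_congr rfl fun l _ => ?_
  rw [Tensor1_pd_symm h l i j, add_comm]

lemma SmoothMet.gam_symm (h : SmoothMet g y) (u v : Eu n) : gam g y u v = gam g y v u := by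
  ext k
  rw [gam_apply, gam_apply, Finset.sum_comm]
  refine Finset.sum_congr rfl fun i _ => Finset.sum_congr rfl fun j _ => ?_
  rw [Tensor1_chr_symm h k j i]
  ring

lemma Tensor1_bil (h : SmoothMet g y) (u v w : Eu n) : fderiv ℝ (fun x => bil (g x) v w) y u =
    ∑ i, ∑ j, ∑ l, pd i (fun x => g x j l) y * u i * v j * w l := by
  have d : ∀ j l, DifferentiableAt ℝ (fun x => g x j l) y := fun j l =>
    (h.smooth j l).differentiableAt (by norm_num)
  have e : HasFDerivAt (fun x => bil (g x) v w)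
      (∑ j, ∑ l, w l • v j • fderiv ℝ (fun x => g x j l) y) y :=
    HasFDerivAt.fun_sum fun j _ => HasFDerivAt.fun_sum fun l _ =>
      ((d j l).hasFDerivAt.mul_const (v j)).mul_const (w l)
  rw [e.fderiv]
  simp only [sum_apply, smul_apply, smul_eq_mul,
    Tensor1_expand _ y u, Finset.mul_sum]
  rw [Finset.sum_comm (s := Finset.univ) (t := Finset.univ)
    (f := fun i j => ∑ l, pd i (fun x => g x j l) y * u i * v j * w l)]
  refine Finset.sum_congr rfl fun j _ => ?_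
  rw [Finset.sum_comm]
  exact Finset.sum_congr rfl fun i _ => Finset.sum_congr rfl fun l _ => by ring

lemma Tensor1_low (h : SmoothMet g y) (i j l : Fin n) :
    2 * ∑ k, g y k l * christoffel g k i j y =
      pd i (fun x => g x j l) y + pd j (fun x => g x i l) y - pd l (fun x => g x i j) y := by
  have h1 := Matrix.mul_nonsing_inv (g y) (isUnit_iff_ne_zero.2 h.det)
  have h2 := h.symm.self_of_nhds
  calc _ = ∑ m, (g y * (g y)⁻¹) l m *
        (pd i (fun x => g x j m) y + pd j (fun x => g x i m) y - pd m (fun x => g x i j) y) := by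
        simp only [christoffel, Matrix.mul_apply, Finset.mul_sum, Finset.sum_mul]
        rw [Finset.sum_comm]
        refine Finset.sum_congr rfl fun m _ => Finset.sum_congr rfl fun k _ => ?_
        rw [h2 k l]
        ring
    _ = _ := by simp [h1, Matrix.one_apply]

lemma SmoothMet.koszul (h : SmoothMet g y) (u v w : Eu n) :
    2 * bil (g y) (gam g y u v) w = fderiv ℝ (fun x => bil (g x) v w) y u +
      fderiv ℝ (fun x => bil (g x) u w) y v - fderiv ℝ (fun x => bil (g x) u v) y w := by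
  have e1 : 2 * bil (g y) (gam g y u v) w = ∑ i, ∑ j, ∑ l,
      (2 * ∑ k, g y k l * christoffel g k i j y) * u i * v j * w l := by
    simp only [bil, gam_apply, Finset.mul_sum, Finset.sum_mul]
    calc _ = ∑ k, ∑ i, ∑ j, ∑ l, 2 * (g y k l * christoffel g k i j y) * u i * v j * w l := by
          refine Finset.sum_congr rfl fun k _ => ?_
          rw [Finset.sum_comm]
          refine Finset.sum_congr rfl fun i _ => ?_
          rw [Finset.sum_comm]
          exact Finset.sum_congr rfl fun j _ => Finset.sum_congr rfl fun l _ => by ring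
      _ = _ := by
          rw [Finset.sum_comm]
          refine Finset.sum_congr rfl fun i _ => ?_
          rw [Finset.sum_comm]
          refine Finset.sum_congr rfl fun j _ => ?_
          rw [Finset.sum_comm]
  have e2 : fderiv ℝ (fun x => bil (g x) u w) y v =
      ∑ i, ∑ j, ∑ l, pd j (fun x => g x i l) y * u i * v j * w l := by
    rw [Tensor1_bil h, Finset.sum_comm]
    exact Finset.sum_congr rfl fun i _ => Finset.sum_congr rfl fun j _ =>
      Finset.sum_congr rfl fun l _ => by ring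
  have e3 : fderiv ℝ (fun x => bil (g x) u v) y w =
      ∑ i, ∑ j, ∑ l, pd l (fun x => g x i j) y * u i * v j * w l := by
    rw [Tensor1_bil h, Finset.sum_comm]
    refine Finset.sum_congr rfl fun i _ => ?_
    rw [Finset.sum_comm]
    exact Finset.sum_congr rfl fun j _ => Finset.sum_congr rfl fun l _ => by ring
  rw [e1, e2, e3, Tensor1_bil h]
  simp only [Tensor1_low h, ← Finset.sum_add_distrib, ← Finset.sum_sub_distrib]
  exact Finset.sum_congr rfl fun i _ => Finset.sum_congr rfl fun j _ =>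
    Finset.sum_congr rfl fun l _ => by ring

lemma bil_nondeg {A : Matrix (Fin n) (Fin n) ℝ} (hd : A.det ≠ 0) {u : Eu n}
    (h : ∀ w, bil A u w = 0) : u = 0 := by
  have h1 : Matrix.vecMul (fun i => u i) A = 0 := by
    funext j
    have := h (EuclideanSpace.single j 1)
    simpa [bil, PiLp.single_apply, Matrix.vecMul, dotProduct, mul_comm] using this
  ext i
  exact congrFun (Matrix.eq_zero_of_vecMul_eq_zero hd h1) i

lemma Tensor1_dgam (h : SmoothMet g y) (w u v : Eu n) (k : Fin n) :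
    fderiv ℝ (gam g) y w u v k = ∑ i, ∑ j, fderiv ℝ (christoffel g k i j) y w * u i * v j := by
  rw [← Tensor1_sum (fun k i j => fderiv ℝ (christoffel g k i j) y w) u v k]
  exact congrArg (fun L : Eu n →L[ℝ] Eu n →L[ℝ] Eu n => L u v k)
    (Tensor1_fd (F := Eu n →L[ℝ] Eu n →L[ℝ] Eu n) _ h.contDiffAt_christoffel w)

lemma SmoothMet.ricQ_eq (h : SmoothMet g y) (v : Eu n) :
    ricQ g y v = ∑ k, (fderiv ℝ (gam g) y (EuclideanSpace.single k 1) v v -
      fderiv ℝ (gam g) y v v (EuclideanSpace.single k 1) +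
      gam g y (EuclideanSpace.single k 1) (gam g y v v) -
      gam g y v (gam g y v (EuclideanSpace.single k 1))) k := by
  have e : ricQ g y v = ∑ k, ∑ i, ∑ j, (pd k (christoffel g k i j) y -
      pd j (christoffel g k i k) y + ∑ l, (christoffel g k k l y * christoffel g l i j y -
      christoffel g k j l y * christoffel g l i k y)) * v i * v j := by
    simp only [ricQ, ricci, Finset.sum_mul]
    rw [Finset.sum_comm (f := fun k i => ∑ j, (pd k (christoffel g k i j) y -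
      pd j (christoffel g k i k) y + ∑ l, (christoffel g k k l y * christoffel g l i j y -
      christoffel g k j l y * christoffel g l i k y)) * v i * v j)]
    exact Finset.sum_congr rfl fun i _ => Finset.sum_comm
  rw [e]
  refine Finset.sum_congr rfl fun k _ => ?_
  have a1 : fderiv ℝ (gam g) y (EuclideanSpace.single k 1) v v k =
      ∑ i, ∑ j, pd k (christoffel g k i j) y * v i * v j := Tensor1_dgam h _ _ _ _
  have a2 : fderiv ℝ (gam g) y v v (EuclideanSpace.single k 1) k =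
      ∑ i, ∑ j, pd j (christoffel g k i k) y * v i * v j := by
    rw [Tensor1_dgam h]
    refine Finset.sum_congr rfl fun i _ => ?_
    simp only [PiLp.single_apply, mul_ite, mul_one, mul_zero, Finset.sum_ite_eq',
      Finset.mem_univ, if_true, Tensor1_expand _ y v, Finset.sum_mul]
    exact Finset.sum_congr rfl fun j _ => by ring
  have a3 : gam g y (EuclideanSpace.single k 1) (gam g y v v) k =
      ∑ i, ∑ j, ∑ l, christoffel g k k l y * christoffel g l i j y * v i * v j := by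
    rw [gam_apply, Finset.sum_eq_single k]
    · simp only [PiLp.single_apply, if_true, mul_one, gam_apply, Finset.mul_sum]
      rw [Finset.sum_comm]
      refine Finset.sum_congr rfl fun i _ => ?_
      rw [Finset.sum_comm]
      exact Finset.sum_congr rfl fun j _ => Finset.sum_congr rfl fun l _ => by ring
    · intro b _ hb
      simp [hb]
    · simp
  have a4 : gam g y v (gam g y v (EuclideanSpace.single k 1)) k =
      ∑ i, ∑ j, ∑ l, christoffel g k j l y * christoffel g l i k y * v i * v j := by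
    simp only [gam_apply, PiLp.single_apply, mul_ite, mul_one, mul_zero,
      Finset.sum_ite_eq', Finset.mem_univ, if_true, Finset.mul_sum]
    rw [Finset.sum_comm (f := fun i j => ∑ l,
      christoffel g k j l y * christoffel g l i k y * v i * v j)]
    refine Finset.sum_congr rfl fun j _ => ?_
    rw [Finset.sum_comm]
    exact Finset.sum_congr rfl fun i _ => Finset.sum_congr rfl fun l _ => by ring
  rw [PiLp.sub_apply, PiLp.add_apply, PiLp.sub_apply, a1, a2, a3, a4]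
  simp only [← Finset.sum_add_distrib, ← Finset.sum_sub_distrib]
  refine Finset.sum_congr rfl fun i _ => Finset.sum_congr rfl fun j _ => ?_
  simp only [add_mul, sub_mul, Finset.sum_mul, Finset.sum_sub_distrib]
  ring

end

end Pool.Agent.Work.MP_a9fb1f_gt
end

-- merged part: Pool.Agent.Work.MP_a9fb1f_gt.Tensor2
section
/-! The Ricci form is invariant under local changes of coordinates. -/

set_option autoImplicit false

open scoped Manifold ContDiff Topology ENNReal Bundle RealInnerProductSpace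
open Filter Set

namespace Pool.Agent.Work.MP_a9fb1f_gt

noncomputable section

section Generic

variable {E F : Type} [NormedAddCommGroup E] [NormedSpace ℝ E] [NormedAddCommGroup F]
  [NormedSpace ℝ F]

lemma tensor2_app {T : E → E →L[ℝ] E →L[ℝ] F} {y : E} (hT : DifferentiableAt ℝ T y) (p q : E) :
    DifferentiableAt ℝ (fun x => T x p q) y ∧
      ∀ w, fderiv ℝ (fun x => T x p q) y w = fderiv ℝ T y w p q := by
  have h1 := (hT.hasFDerivAt.clm_apply (hasFDerivAt_const p y)).clm_apply (hasFDerivAt_const q y)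
  refine ⟨h1.differentiableAt, fun w => ?_⟩
  rw [h1.fderiv]
  simp

lemma tensor2_pull {T : E → E →L[ℝ] E →L[ℝ] F} {φ : E → E} {y : E}
    (hT : DifferentiableAt ℝ T (φ y)) (hφ : ContDiffAt ℝ 2 φ y) (p q : E) :
    DifferentiableAt ℝ (fun x => T (φ x) (fderiv ℝ φ x p) (fderiv ℝ φ x q)) y ∧
      ∀ w, fderiv ℝ (fun x => T (φ x) (fderiv ℝ φ x p) (fderiv ℝ φ x q)) y w =
        fderiv ℝ T (φ y) (fderiv ℝ φ y w) (fderiv ℝ φ y p) (fderiv ℝ φ y q) +
        T (φ y) (fderiv ℝ (fderiv ℝ φ) y w p) (fderiv ℝ φ y q) +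
        T (φ y) (fderiv ℝ φ y p) (fderiv ℝ (fderiv ℝ φ) y w q) := by
  have hφ1 := (hφ.differentiableAt (by norm_num)).hasFDerivAt
  have hD := ((hφ.fderiv_right (m := 1) (by norm_num)).differentiableAt (by norm_num)).hasFDerivAt
  have h0 : HasFDerivAt (fun x => T (φ x)) ((fderiv ℝ T (φ y)).comp (fderiv ℝ φ y)) y :=
    HasFDerivAt.comp (g := T) (f := φ) y hT.hasFDerivAt hφ1
  have h1 := (h0.clm_apply (hD.clm_apply (hasFDerivAt_const p y))).clm_apply
    (hD.clm_apply (hasFDerivAt_const q y))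
  refine ⟨h1.differentiableAt, fun w => ?_⟩
  rw [h1.fderiv]
  simp
  abel

lemma tensor2_curv {Γ Γ' : E → E →L[ℝ] E →L[ℝ] E} {φ : E → E} {y : E}
    (hφ : ContDiffAt ℝ 3 φ y) (hΓ : DifferentiableAt ℝ Γ (φ y)) (hΓ' : DifferentiableAt ℝ Γ' y)
    (hsΓ : ∀ a b, Γ (φ y) a b = Γ (φ y) b a)
    (h1 : ∀ᶠ x in 𝓝 y, ∀ p q, fderiv ℝ φ x (Γ' x p q) = fderiv ℝ (fderiv ℝ φ) x p q +
      Γ (φ x) (fderiv ℝ φ x p) (fderiv ℝ φ x q)) (v w : E) :
    fderiv ℝ φ y (fderiv ℝ Γ' y w v v - fderiv ℝ Γ' y v v w + Γ' y w (Γ' y v v) -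
      Γ' y v (Γ' y v w)) =
    fderiv ℝ Γ (φ y) (fderiv ℝ φ y w) (fderiv ℝ φ y v) (fderiv ℝ φ y v) -
      fderiv ℝ Γ (φ y) (fderiv ℝ φ y v) (fderiv ℝ φ y v) (fderiv ℝ φ y w) +
      Γ (φ y) (fderiv ℝ φ y w) (Γ (φ y) (fderiv ℝ φ y v) (fderiv ℝ φ y v)) -
      Γ (φ y) (fderiv ℝ φ y v) (Γ (φ y) (fderiv ℝ φ y v) (fderiv ℝ φ y w)) := by
  have hφ2 : ContDiffAt ℝ 2 φ y := hφ.of_le (by norm_num)
  have hev : ∀ᶠ x in 𝓝 y, ContDiffAt ℝ 2 φ x := hφ2.eventually (by simp)
  have hD2 : ContDiffAt ℝ 2 (fderiv ℝ φ) y := hφ.fderiv_right (by norm_num)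
  have hD := hD2.differentiableAt (by norm_num)
  have hDD := (hD2.fderiv_right (m := 1) (by norm_num)).differentiableAt (by norm_num)
  have h0 := h1.self_of_nhds
  have hs2 : ∀ a b, fderiv ℝ (fderiv ℝ φ) y a b = fderiv ℝ (fderiv ℝ φ) y b a :=
    fun a b => (hφ2.isSymmSndFDerivAt (by simp)).eq a b
  have hs3 : ∀ a b, fderiv ℝ (fderiv ℝ (fderiv ℝ φ)) y a b =
      fderiv ℝ (fderiv ℝ (fderiv ℝ φ)) y b a :=
    fun a b => (hD2.isSymmSndFDerivAt (by simp)).eq a b
  have hs3' : ∀ w p q, fderiv ℝ (fderiv ℝ (fderiv ℝ φ)) y w p q =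
      fderiv ℝ (fderiv ℝ (fderiv ℝ φ)) y w q p := by
    intro w p q
    have he : (fun x => fderiv ℝ (fderiv ℝ φ) x p q) =ᶠ[𝓝 y]
        fun x => fderiv ℝ (fderiv ℝ φ) x q p := by
      filter_upwards [hev] with x hx
      exact (hx.isSymmSndFDerivAt (by simp)).eq p q
    rw [← (tensor2_app hDD p q).2, ← (tensor2_app hDD q p).2, he.fderiv_eq]
  have h2 : ∀ w p q, fderiv ℝ φ y (fderiv ℝ Γ' y w p q) + fderiv ℝ (fderiv ℝ φ) y w (Γ' y p q) =
      fderiv ℝ (fderiv ℝ (fderiv ℝ φ)) y w p q +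
      (fderiv ℝ Γ (φ y) (fderiv ℝ φ y w) (fderiv ℝ φ y p) (fderiv ℝ φ y q) +
        Γ (φ y) (fderiv ℝ (fderiv ℝ φ) y w p) (fderiv ℝ φ y q) +
        Γ (φ y) (fderiv ℝ φ y p) (fderiv ℝ (fderiv ℝ φ) y w q)) := by
    intro w p q
    have he : (fun x => fderiv ℝ φ x (Γ' x p q)) =ᶠ[𝓝 y]
        fun x => fderiv ℝ (fderiv ℝ φ) x p q + Γ (φ x) (fderiv ℝ φ x p) (fderiv ℝ φ x q) := by
      filter_upwards [h1] with x hx
      exact hx p q
    have h3 := congrArg (fun L => L w) (he.fderiv_eq (𝕜 := ℝ))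
    rw [fderiv_clm_apply hD (tensor2_app hΓ' p q).1,
      fderiv_fun_add (tensor2_app hDD p q).1 (tensor2_pull hΓ hφ2 p q).1] at h3
    simp only [add_apply, ContinuousLinearMap.comp_apply, ContinuousLinearMap.flip_apply,
      (tensor2_app hΓ' p q).2, (tensor2_app hDD p q).2, (tensor2_pull hΓ hφ2 p q).2] at h3
    exact h3
  rw [map_sub, map_add, map_sub, eq_sub_of_add_eq (h2 w v v), eq_sub_of_add_eq (h2 v v w),
    h0 w (Γ' y v v), h0 v (Γ' y v w), h0 v v, h0 v w, map_add, map_add, hs3 w v, hs3' v w v,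
    hs2 w v, hsΓ (fderiv ℝ (fderiv ℝ φ) y v w) (fderiv ℝ φ y v),
    hsΓ (fderiv ℝ (fderiv ℝ φ) y v v) (fderiv ℝ φ y w)]
  abel

lemma tensor2_smul {c : E → ℝ} {y : E} (hc : ContDiffAt ℝ 2 c y) (v : F) :
    ContDiffAt ℝ 2 (fun x => c x • v) y := hc.smul_const v

end Generic

variable {n : ℕ} {g g' : Eu n → Matrix (Fin n) (Fin n) ℝ} {φ : Eu n → Eu n} {y : Eu n}

/-- The bilinear form of a matrix as a continuous bilinear map. -/
def tensor2B (A : Matrix (Fin n) (Fin n) ℝ) : Eu n →L[ℝ] Eu n →L[ℝ] ℝ :=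
  ∑ i, ∑ j, A i j • (EuclideanSpace.proj i : Eu n →L[ℝ] ℝ).smulRight
    (EuclideanSpace.proj j : Eu n →L[ℝ] ℝ)

lemma tensor2B_apply (A : Matrix (Fin n) (Fin n) ℝ) (u v : Eu n) :
    tensor2B A u v = bil A u v := by
  simp only [tensor2B, bil, sum_apply, smul_apply,
    ContinuousLinearMap.smulRight_apply, smul_eq_mul, PiLp.proj_apply, mul_assoc]

lemma tensor2_single (A : Matrix (Fin n) (Fin n) ℝ) (i j : Fin n) :
    bil A (EuclideanSpace.single i 1) (EuclideanSpace.single j 1) = A i j := by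
  simp [bil, PiLp.single_apply]

lemma tensor2_symm {A : Matrix (Fin n) (Fin n) ℝ} (h : ∀ i j, A i j = A j i) (u v : Eu n) :
    bil A u v = bil A v u := by
  unfold bil
  rw [Finset.sum_comm]
  refine Finset.sum_congr rfl fun i _ => Finset.sum_congr rfl fun j _ => ?_
  rw [h j i]; ring

lemma tensor2B_contDiffAt (h : SmoothMet g y) :
    ContDiffAt ℝ 2 (fun x => tensor2B (g x)) y := by
  unfold tensor2B
  refine ContDiffAt.sum fun i _ => ContDiffAt.sum fun j _ => ?_
  exact tensor2_smul (F := Eu n →L[ℝ] Eu n →L[ℝ] ℝ) (h.smooth i j) _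

lemma tensor2_fderiv_bil (h : SmoothMet g y) (u v w : Eu n) :
    fderiv ℝ (fun x => bil (g x) v w) y u = fderiv ℝ (fun x => tensor2B (g x)) y u v w := by
  rw [← (tensor2_app ((tensor2B_contDiffAt h).differentiableAt (by norm_num)) v w).2]
  simp only [tensor2B_apply]

lemma fderiv_surjective_of_pullback
    (h : ∀ u v, bil (g' y) u v = bil (g (φ y)) (fderiv ℝ φ y u) (fderiv ℝ φ y v))
    (hd : (g' y).det ≠ 0) : Function.Surjective (fderiv ℝ φ y) := by
  have hinj : Function.Injective (fderiv ℝ φ y) := by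
    rw [injective_iff_map_eq_zero]
    intro u hu
    apply bil_nondeg hd
    intro w
    rw [h, hu]
    simp [bil]
  exact (LinearMap.injective_iff_surjective (f := (fderiv ℝ φ y).toLinearMap)).1 hinj

lemma tensor2_smoothMet (hφ : ContDiffAt ℝ 3 φ y) (hg : SmoothMet g (φ y))
    (h : ∀ᶠ x in 𝓝 y, ∀ u v, bil (g' x) u v = bil (g (φ x)) (fderiv ℝ φ x u) (fderiv ℝ φ x v))
    (hd : (g' y).det ≠ 0) : SmoothMet g' y where
  smooth i j := by
    have hD : ContDiffAt ℝ 2 (fderiv ℝ φ) y := hφ.fderiv_right (by norm_num)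
    have hφ2 : ContDiffAt ℝ 2 φ y := hφ.of_le (by norm_num)
    have h1 : ContDiffAt ℝ 2 (fun x => tensor2B (g (φ x))
        (fderiv ℝ φ x (EuclideanSpace.single i 1)) (fderiv ℝ φ x (EuclideanSpace.single j 1))) y :=
      (((tensor2B_contDiffAt hg).comp y hφ2).clm_apply (hD.clm_apply contDiffAt_const)).clm_apply
        (hD.clm_apply contDiffAt_const)
    refine h1.congr_of_eventuallyEq ?_
    filter_upwards [h] with x hx
    rw [tensor2B_apply, ← hx, tensor2_single]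
  symm := by
    filter_upwards [h, hφ.continuousAt.eventually hg.symm] with x hx hs i j
    rw [← tensor2_single (g' x) i j, ← tensor2_single (g' x) j i, hx, hx, tensor2_symm hs]
  det := hd

lemma tensor2_pull_deriv (hφ : ContDiffAt ℝ 2 φ y) (hg : SmoothMet g (φ y))
    (h : ∀ᶠ x in 𝓝 y, ∀ u v, bil (g' x) u v = bil (g (φ x)) (fderiv ℝ φ x u) (fderiv ℝ φ x v))
    (u v w : Eu n) :
    fderiv ℝ (fun x => bil (g' x) v w) y u =
      fderiv ℝ (fun x => bil (g x) (fderiv ℝ φ y v) (fderiv ℝ φ y w)) (φ y) (fderiv ℝ φ y u) +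
      bil (g (φ y)) (fderiv ℝ (fderiv ℝ φ) y u v) (fderiv ℝ φ y w) +
      bil (g (φ y)) (fderiv ℝ φ y v) (fderiv ℝ (fderiv ℝ φ) y u w) := by
  have hG := (tensor2B_contDiffAt hg).differentiableAt (by norm_num)
  have he : (fun x => bil (g' x) v w) =ᶠ[𝓝 y] fun x =>
      tensor2B (g (φ x)) (fderiv ℝ φ x v) (fderiv ℝ φ x w) := by
    filter_upwards [h] with x hx
    rw [hx, tensor2B_apply]
  rw [he.fderiv_eq, (tensor2_pull hG hφ v w).2, tensor2_fderiv_bil hg, tensor2B_apply,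
    tensor2B_apply]

lemma tensor2_gam (hφ : ContDiffAt ℝ 2 φ y) (hg : SmoothMet g (φ y)) (hg' : SmoothMet g' y)
    (h : ∀ᶠ x in 𝓝 y, ∀ u v, bil (g' x) u v = bil (g (φ x)) (fderiv ℝ φ x u) (fderiv ℝ φ x v))
    (u v : Eu n) :
    fderiv ℝ φ y (gam g' y u v) = fderiv ℝ (fderiv ℝ φ) y u v +
      gam g (φ y) (fderiv ℝ φ y u) (fderiv ℝ φ y v) := by
  have hsur := fderiv_surjective_of_pullback h.self_of_nhds hg'.det
  have hs : ∀ a b, fderiv ℝ (fderiv ℝ φ) y a b = fderiv ℝ (fderiv ℝ φ) y b a :=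
    fun a b => (hφ.isSymmSndFDerivAt (by simp)).eq a b
  have hsym := hg.symm.self_of_nhds
  rw [← sub_eq_zero]
  apply bil_nondeg hg.det
  intro c
  obtain ⟨w, rfl⟩ := hsur c
  have k1 := hg'.koszul u v w
  have k2 := hg.koszul (fderiv ℝ φ y u) (fderiv ℝ φ y v) (fderiv ℝ φ y w)
  rw [tensor2_pull_deriv hφ hg h, tensor2_pull_deriv hφ hg h, tensor2_pull_deriv hφ hg h,
    h.self_of_nhds, hs v u, hs w u, hs w v,
    tensor2_symm hsym (fderiv ℝ (fderiv ℝ φ) y u w) (fderiv ℝ φ y v)] at k1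
  rw [← tensor2B_apply, map_sub, map_add, sub_apply,
    add_apply, tensor2B_apply, tensor2B_apply, tensor2B_apply]
  linarith

/-- The curvature endomorphism whose trace is the Ricci form. -/
def tensor2R (g : Eu n → Matrix (Fin n) (Fin n) ℝ) (y v : Eu n) : Eu n →L[ℝ] Eu n :=
  ((fderiv ℝ (gam g) y).flip v).flip v - fderiv ℝ (gam g) y v v +
    (gam g y).flip (gam g y v v) - (gam g y v).comp (gam g y v)

lemma tensor2R_apply (v w : Eu n) : tensor2R g y v w =
    fderiv ℝ (gam g) y w v v - fderiv ℝ (gam g) y v v w + gam g y w (gam g y v v) -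
      gam g y v (gam g y v w) := by
  simp [tensor2R]

lemma tensor2_trace (h : SmoothMet g y) (v : Eu n) :
    ricQ g y v = LinearMap.trace ℝ (Eu n) (tensor2R g y v).toLinearMap := by
  rw [h.ricQ_eq, LinearMap.trace_eq_sum_inner _ (EuclideanSpace.basisFun (Fin n) ℝ)]
  refine Finset.sum_congr rfl fun k _ => ?_
  rw [EuclideanSpace.basisFun_apply, EuclideanSpace.inner_single_left, ← tensor2R_apply]
  simp

theorem ricQ_pullback (hφ : ContDiffAt ℝ 3 φ y) (hg : SmoothMet g (φ y))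
    (h : ∀ᶠ x in 𝓝 y, ∀ u v, bil (g' x) u v = bil (g (φ x)) (fderiv ℝ φ x u) (fderiv ℝ φ x v))
    (hd : (g' y).det ≠ 0) (v : Eu n) : ricQ g' y v = ricQ g (φ y) (fderiv ℝ φ y v) := by
  have hg' := tensor2_smoothMet hφ hg h hd
  have hφ2 : ContDiffAt ℝ 2 φ y := hφ.of_le (by norm_num)
  have hev : ∀ᶠ x in 𝓝 y, ContDiffAt ℝ 2 φ x := hφ2.eventually (by simp)
  have h1 : ∀ᶠ x in 𝓝 y, ∀ p q, fderiv ℝ φ x (gam g' x p q) = fderiv ℝ (fderiv ℝ φ) x p q +
      gam g (φ x) (fderiv ℝ φ x p) (fderiv ℝ φ x q) := by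
    filter_upwards [hev, hφ.continuousAt.eventually hg.eventually, hg'.eventually,
      h.eventually_nhds] with x a b c d p q
    exact tensor2_gam a b c d p q
  have hR : ∀ w, fderiv ℝ φ y (tensor2R g' y v w) =
      tensor2R g (φ y) (fderiv ℝ φ y v) (fderiv ℝ φ y w) := by
    intro w
    rw [tensor2R_apply, tensor2R_apply]
    exact tensor2_curv hφ (hg.contDiffAt_gam.differentiableAt (by norm_num))
      (hg'.contDiffAt_gam.differentiableAt (by norm_num)) hg.gam_symm h1 v w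
  set D := fderiv ℝ φ y with hDdef
  have hsur : Function.Surjective D := fderiv_surjective_of_pullback h.self_of_nhds hd
  have hinj : Function.Injective D :=
    (LinearMap.injective_iff_surjective (f := D.toLinearMap)).2 hsur
  let e : Eu n ≃ₗ[ℝ] Eu n := LinearEquiv.ofBijective D.toLinearMap ⟨hinj, hsur⟩
  rw [tensor2_trace hg', tensor2_trace hg,
    ← LinearMap.trace_conj' (tensor2R g' y v).toLinearMap e]
  congr 1
  ext1 c
  obtain ⟨w, rfl⟩ := e.surjective c
  rw [LinearEquiv.conj_apply_apply, e.symm_apply_apply]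
  exact hR w

end

end Pool.Agent.Work.MP_a9fb1f_gt
end

-- merged part: Pool.Agent.Work.MP_a9fb1f_gt.Model
section
/-! The Ricci tensor of the model metric. -/

set_option autoImplicit false

open scoped Manifold ContDiff Topology ENNReal Bundle RealInnerProductSpace
open Filter Set

namespace Pool.Agent.Work.MP_a9fb1f_gt

noncomputable section

def gM (A B F H : ℝ × ℝ → ℝ) (y : Eu 5) : Matrix (Fin 5) (Fin 5) ℝ :=
  !![Real.exp (2 * A (y 0, y 1)), 0, 0, 0, 0;
    0, Real.exp (2 * B (y 0, y 1)), 0, 0, 0;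
    0, 0, Real.exp (2 * F (y 0, y 1)), 0, 0;
    0, 0, 0, Real.exp (2 * F (y 0, y 1)) * Real.sin (y 2) ^ 2 +
      Real.exp (2 * H (y 0, y 1)) * Real.cos (y 2) ^ 2,
      Real.exp (2 * H (y 0, y 1)) * Real.cos (y 2);
    0, 0, 0, Real.exp (2 * H (y 0, y 1)) * Real.cos (y 2), Real.exp (2 * H (y 0, y 1))]

variable {A B F H : ℝ × ℝ → ℝ} {jA jB jF jH : Jet} {y : Eu 5}

lemma det_gM_ne (hs : Real.sin (y 2) ≠ 0) : (gM A B F H y).det ≠ 0 := by
  have ha := Real.exp_ne_zero (2 * A (y 0, y 1))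
  have hb := Real.exp_ne_zero (2 * B (y 0, y 1))
  have hf := Real.exp_ne_zero (2 * F (y 0, y 1))
  have hh := Real.exp_ne_zero (2 * H (y 0, y 1))
  unfold gM
  generalize Real.exp (2 * A (y 0, y 1)) = a at *
  generalize Real.exp (2 * B (y 0, y 1)) = b at *
  generalize Real.exp (2 * F (y 0, y 1)) = f at *
  generalize Real.exp (2 * H (y 0, y 1)) = h at *
  generalize Real.sin (y 2) = s at *
  generalize Real.cos (y 2) = c at *
  refine Matrix.det_ne_zero_of_right_inverse (B := !![a⁻¹, 0, 0, 0, 0; 0, b⁻¹, 0, 0, 0;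
    0, 0, f⁻¹, 0, 0; 0, 0, 0, (f * s ^ 2)⁻¹, -c * (f * s ^ 2)⁻¹;
    0, 0, 0, -c * (f * s ^ 2)⁻¹, h⁻¹ + c ^ 2 * (f * s ^ 2)⁻¹]) ?_
  ext i j
  revert i j
  refine modelA_all5 ?_ ?_ ?_ ?_ ?_ <;> refine modelA_all5 ?_ ?_ ?_ ?_ ?_ <;>
    simp [Matrix.mul_apply, Fin.sum_univ_five] <;> field_simp <;> ring

lemma bil_gM (u v : Eu 5) : bil (gM A B F H y) u v =
    Real.exp (2 * A (y 0, y 1)) * (u 0 * v 0) + Real.exp (2 * B (y 0, y 1)) * (u 1 * v 1) +
      Real.exp (2 * F (y 0, y 1)) * (u 2 * v 2 + Real.sin (y 2) ^ 2 * (u 3 * v 3)) +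
      Real.exp (2 * H (y 0, y 1)) *
        ((u 4 + Real.cos (y 2) * u 3) * (v 4 + Real.cos (y 2) * v 3)) := by
  simp [bil, gM, Fin.sum_univ_five]
  ring

lemma model_base {u : ℝ × ℝ → ℝ} (hu : DifferentiableAt ℝ u (y 0, y 1)) :
    DifferentiableAt ℝ (fun x : Eu 5 => u (x 0, x 1)) y ∧ ∀ m : Fin 5,
      pd m (fun x : Eu 5 => u (x 0, x 1)) y = ![d1 u (y 0, y 1), d2 u (y 0, y 1), 0, 0, 0] m := by
  have h1 : HasFDerivAt (fun x : Eu 5 => u (x 0, x 1)) ((fderiv ℝ u (y 0, y 1)).comp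
      ((EuclideanSpace.proj 0 : Eu 5 →L[ℝ] ℝ).prod (EuclideanSpace.proj 1))) y :=
    hu.hasFDerivAt.comp y
      ((EuclideanSpace.proj 0 : Eu 5 →L[ℝ] ℝ).prod (EuclideanSpace.proj 1)).hasFDerivAt
  refine ⟨h1.differentiableAt, ?_⟩
  have h0 : ((0 : ℝ), (0 : ℝ)) = 0 := rfl
  refine modelA_all5 ?_ ?_ ?_ ?_ ?_ <;> simp [pd, h1.fderiv, d1, d2, h0]

lemma model_comp {w : Eu 5 → ℝ} {D : Fin 5 → ℝ}
    (hw : DifferentiableAt ℝ w y ∧ ∀ m, pd m w y = D m) {φ : ℝ → ℝ} {φ' : ℝ}
    (hφ : HasDerivAt φ φ' (w y)) :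
    DifferentiableAt ℝ (fun x => φ (w x)) y ∧ ∀ m, pd m (fun x => φ (w x)) y = φ' * D m := by
  have h1 := hφ.comp_hasFDerivAt y hw.1.hasFDerivAt
  refine ⟨h1.differentiableAt, fun m => ?_⟩
  rw [← hw.2 m]
  unfold pd
  rw [show (fun x => φ (w x)) = φ ∘ w from rfl, h1.fderiv]
  rfl

lemma model_ang : DifferentiableAt ℝ (fun x : Eu 5 => x 2) y ∧ ∀ m : Fin 5,
    pd m (fun x : Eu 5 => x 2) y = ![0, 0, 1, 0, 0] m := by
  have h1 : HasFDerivAt (fun x : Eu 5 => x 2) (EuclideanSpace.proj 2 : Eu 5 →L[ℝ] ℝ) y :=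
    (EuclideanSpace.proj 2 : Eu 5 →L[ℝ] ℝ).hasFDerivAt
  refine ⟨h1.differentiableAt, ?_⟩
  refine modelA_all5 ?_ ?_ ?_ ?_ ?_ <;> simp [pd, h1.fderiv]

lemma model_exp (t : ℝ) : HasDerivAt (fun r => Real.exp (2 * r)) (2 * Real.exp (2 * t)) t := by
  have := ((hasDerivAt_id t).const_mul 2).exp
  simpa [mul_comm] using this

lemma model_iexp (t : ℝ) :
    HasDerivAt (fun r => (Real.exp (2 * r))⁻¹) (-2 * (Real.exp (2 * t))⁻¹) t := by
  have h := Real.exp_ne_zero (2 * t)
  refine ((model_exp t).fun_inv h).congr_deriv ?_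
  field_simp

lemma model_dd {u : ℝ × ℝ → ℝ} {q : ℝ × ℝ} (hu : ContDiffAt ℝ 2 u q) :
    DifferentiableAt ℝ u q ∧ DifferentiableAt ℝ (d1 u) q ∧ DifferentiableAt ℝ (d2 u) q := by
  have h1 : DifferentiableAt ℝ (fderiv ℝ u) q :=
    (hu.fderiv_right (m := 1) (by norm_num)).differentiableAt (by norm_num)
  exact ⟨hu.differentiableAt (by norm_num), h1.clm_apply (differentiableAt_const _),
    h1.clm_apply (differentiableAt_const _)⟩

/-- The first order jet. -/
def mjet (u : ℝ × ℝ → ℝ) (q : ℝ × ℝ) : Jet := ⟨u q, d1 u q, d2 u q, 0, 0, 0⟩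

/-- The atoms as functions. -/
def mval (A B F H : ℝ × ℝ → ℝ) (x : Eu 5) : MAt → ℝ :=
  mρ (mjet A (x 0, x 1)) (mjet B (x 0, x 1)) (mjet F (x 0, x 1)) (mjet H (x 0, x 1)) (x 2)

/-- Second derivatives. -/
def mS (D : (ℝ × ℝ → ℝ) → ℝ) (A B F H : ℝ × ℝ → ℝ) : MAt → ℝ
  | .a => 0
  | .b => 0
  | .f => 0
  | .h => 0
  | .ia => 0
  | .ib => 0
  | .jf => 0
  | .s => 0
  | .c => 0
  | .js => 0
  | .A1 => D (d1 A)
  | .A2 => D (d2 A)
  | .B1 => D (d1 B)
  | .B2 => D (d2 B)
  | .F1 => D (d1 F)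
  | .F2 => D (d2 F)
  | .H1 => D (d1 H)
  | .H2 => D (d2 H)

/-- Good points. -/
structure MGood (A B F H : ℝ × ℝ → ℝ) (x : Eu 5) : Prop where
  hA : ContDiffAt ℝ 2 A (x 0, x 1)
  hB : ContDiffAt ℝ 2 B (x 0, x 1)
  hF : ContDiffAt ℝ 2 F (x 0, x 1)
  hH : ContDiffAt ℝ 2 H (x 0, x 1)
  hs : Real.sin (x 2) ≠ 0

lemma MGood.eventually (h : MGood A B F H y) : ∀ᶠ x in 𝓝 y, MGood A B F H x := by
  have hc : ContinuousAt (fun x : Eu 5 => (x 0, x 1)) y := by fun_prop
  have hs : ContinuousAt (fun x : Eu 5 => Real.sin (x 2)) y := by fun_prop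
  filter_upwards [hc.eventually (h.hA.eventually (by simp)),
    hc.eventually (h.hB.eventually (by simp)), hc.eventually (h.hF.eventually (by simp)),
    hc.eventually (h.hH.eventually (by simp)), hs.eventually_ne h.hs] with x h1 h2 h3 h4 h5
  exact ⟨h1, h2, h3, h4, h5⟩

lemma model_cong {w : Eu 5 → ℝ} {D D' : Fin 5 → ℝ}
    (hw : DifferentiableAt ℝ w y ∧ ∀ m, pd m w y = D m) (h : ∀ m, D m = D' m) :
    DifferentiableAt ℝ w y ∧ ∀ m, pd m w y = D' m :=
  ⟨hw.1, fun m => (hw.2 m).trans (h m)⟩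

lemma MGood.atom (h : MGood A B F H y) (t : MAt) :
    DifferentiableAt ℝ (fun x => mval A B F H x t) y ∧ ∀ m, pd m (fun x => mval A B F H x t) y =
      mdl (mval A B F H y) (mS (fun u => d1 u (y 0, y 1)) A B F H)
        (mS (fun u => d2 u (y 0, y 1)) A B F H) t m := by
  obtain ⟨a0, a1, a2⟩ := model_dd h.hA
  obtain ⟨b0, b1, b2⟩ := model_dd h.hB
  obtain ⟨f0, f1, f2⟩ := model_dd h.hF
  obtain ⟨h0, h1, h2⟩ := model_dd h.hH
  cases t with
  | a =>
    refine model_cong (model_comp (model_base a0) (model_exp _)) ?_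
    refine modelA_all5 ?_ ?_ ?_ ?_ ?_ <;> simp [mdl, mval, mρ, mjet]
  | b =>
    refine model_cong (model_comp (model_base b0) (model_exp _)) ?_
    refine modelA_all5 ?_ ?_ ?_ ?_ ?_ <;> simp [mdl, mval, mρ, mjet]
  | f =>
    refine model_cong (model_comp (model_base f0) (model_exp _)) ?_
    refine modelA_all5 ?_ ?_ ?_ ?_ ?_ <;> simp [mdl, mval, mρ, mjet]
  | h =>
    refine model_cong (model_comp (model_base h0) (model_exp _)) ?_
    refine modelA_all5 ?_ ?_ ?_ ?_ ?_ <;> simp [mdl, mval, mρ, mjet]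
  | ia =>
    refine model_cong (model_comp (model_base a0) (model_iexp _)) ?_
    refine modelA_all5 ?_ ?_ ?_ ?_ ?_ <;> simp [mdl, mval, mρ, mjet]
  | ib =>
    refine model_cong (model_comp (model_base b0) (model_iexp _)) ?_
    refine modelA_all5 ?_ ?_ ?_ ?_ ?_ <;> simp [mdl, mval, mρ, mjet]
  | jf =>
    refine model_cong (model_comp (model_base f0) (model_iexp _)) ?_
    refine modelA_all5 ?_ ?_ ?_ ?_ ?_ <;> simp [mdl, mval, mρ, mjet]
  | s =>
    refine model_cong (model_comp model_ang (Real.hasDerivAt_sin _)) ?_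
    refine modelA_all5 ?_ ?_ ?_ ?_ ?_ <;> simp [mdl, mval, mρ]
  | c =>
    refine model_cong (model_comp model_ang (Real.hasDerivAt_cos _)) ?_
    refine modelA_all5 ?_ ?_ ?_ ?_ ?_ <;> simp [mdl, mval, mρ]
  | js =>
    refine model_cong (model_comp model_ang ((Real.hasDerivAt_sin _).fun_inv h.hs)) ?_
    refine modelA_all5 ?_ ?_ ?_ ?_ ?_ <;> simp [mdl, mval, mρ, div_eq_mul_inv]
  | A1 => exact model_base a1
  | A2 => exact model_base a2
  | B1 => exact model_base b1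
  | B2 => exact model_base b2
  | F1 => exact model_base f1
  | F2 => exact model_base f2
  | H1 => exact model_base h1
  | H2 => exact model_base h2

lemma MGood.pd_ev (h : MGood A B F H y) (m : Fin 5) (p : MEx) :
    pd m (fun x => MEx.ev (mval A B F H x) p) y = MEx.dv (mval A B F H y)
      (fun t => mdl (mval A B F H y) (mS (fun u => d1 u (y 0, y 1)) A B F H)
        (mS (fun u => d2 u (y 0, y 1)) A B F H) t m) p := by
  rw [MEx.pd_ev (fun t => (h.atom t).1)]
  simp only [(h.atom _).2 m]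

lemma model_g (x : Eu 5) : ∀ i j : Fin 5, gM A B F H x i j = MEx.ev (mval A B F H x) (mg i j) := by
  refine modelA_all5 ?_ ?_ ?_ ?_ ?_ <;> refine modelA_all5 ?_ ?_ ?_ ?_ ?_ <;>
    simp [gM, mg, MEx.ev_z, MEx.ev_v, MEx.ev_add, MEx.ev_mul, mval, mρ, mjet, sq]

lemma MGood.chr (h : MGood A B F H y) (k i j : Fin 5) :
    christoffel (gM A B F H) k i j y = MEx.ev (mval A B F H y) (mG k i j) := by
  refine christoffel_eq (det_gM_ne h.hs) i j (fun k => MEx.ev (mval A B F H y) (mG k i j))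
    (fun l => ?_) k
  simp only [model_g, h.pd_ev]
  exact modelA_chr _ _ ⟨Real.exp_ne_zero _, Real.exp_ne_zero _, Real.exp_ne_zero _, h.hs,
    rfl, rfl, rfl, rfl⟩ i j l

lemma MGood.ric (h : MGood A B F H y) (i j : Fin 5) :
    ricci (gM A B F H) i j y = mRic (mval A B F H y) (mS (fun u => d1 u (y 0, y 1)) A B F H)
      (mS (fun u => d2 u (y 0, y 1)) A B F H) i j := by
  have h1 : ∀ m k i j : Fin 5, pd m (christoffel (gM A B F H) k i j) y =
      pd m (fun x => MEx.ev (mval A B F H x) (mG k i j)) y := by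
    intro m k i j
    unfold pd
    rw [Filter.EventuallyEq.fderiv_eq (h.eventually.mono fun x hx => hx.chr k i j)]
  simp only [ricci, mRic, h1, h.pd_ev, h.chr]

theorem ricQ_gM (hA : HasJet A jA (y 0, y 1)) (hB : HasJet B jB (y 0, y 1))
    (hF : HasJet F jF (y 0, y 1)) (hH : HasJet H jH (y 0, y 1)) (hs : Real.sin (y 2) ≠ 0)
    (v : Eu 5) : ricQ (gM A B F H) y v =
      R00 jA jB jF jH * v 0 ^ 2 + 2 * R01 jA jB jF jH * v 0 * v 1 + R11 jA jB jF jH * v 1 ^ 2 +
      Rf jA jB jF jH * Real.exp (2 * jF.v) * (v 2 ^ 2 + Real.sin (y 2) ^ 2 * v 3 ^ 2) +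
      Rh jA jB jF jH * Real.exp (2 * jH.v) * (v 4 + Real.cos (y 2) * v 3) ^ 2 := by
  have hg : MGood A B F H y := ⟨hA.smooth, hB.smooth, hF.smooth, hH.smooth, hs⟩
  have e1 : mval A B F H y = mρ jA jB jF jH (y 2) := by
    funext t
    cases t <;> simp only [mval, mρ, mjet, hA.v, hA.a, hA.b, hB.v, hB.a, hB.b, hF.v, hF.a, hF.b,
      hH.v, hH.a, hH.b]
  have e2 : mS (fun u => d1 u (y 0, y 1)) A B F H = mσ jA jB jF jH := by
    funext t
    cases t <;> simp only [mS, mσ, hA.aa, hA.ba, hB.aa, hB.ba, hF.aa, hF.ba, hH.aa, hH.ba]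
  have e3 : mS (fun u => d2 u (y 0, y 1)) A B F H = mτ jA jB jF jH := by
    funext t
    cases t <;> simp only [mS, mτ, hA.ab, hA.bb, hB.ab, hB.bb, hF.ab, hF.bb, hH.ab, hH.bb]
  simp only [ricQ, hg.ric, e1, e2, e3, modelB_ric jA jB jF jH hs]
  simp only [mRT, Fin.sum_univ_five, Matrix.cons_val, Matrix.cons_val_zero, Matrix.cons_val_one]
  ring

end

end Pool.Agent.Work.MP_a9fb1f_gt
end

-- merged part: Pool.Agent.Work.MP_a9fb1f_gt.RicM
section
/-! Nonnegative Ricci curvature in the charts. -/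

set_option autoImplicit false

open scoped Manifold ContDiff Topology ENNReal Bundle RealInnerProductSpace
open Filter Set

namespace Pool.Agent.Work.MP_a9fb1f_gt

noncomputable section

variable {E E' : Ed}

lemma Adm.congr {t ρ : ℝ} (h : Adm E t ρ) (e : E' =ᶠ[𝓝 (t, ρ ^ 2)] E) : Adm E' t ρ := by
  obtain ⟨β, q, A, B, F, H, jA, jB, jF, jH, hβ, hq, hA, hB, hF, hH, hR, hev⟩ := h
  refine ⟨β, q, A, B, F, H, jA, jB, jF, jH, hβ, hq, hA, hB, hF, hH, hR, ?_⟩
  have hc : ContinuousAt (fun x => ((β x).1, (β x).2 ^ 2)) q :=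
    (continuousAt_fst.comp hβ.continuousAt).prodMk
      ((continuousAt_snd.comp hβ.continuousAt).pow 2)
  have ht : Tendsto (fun x => ((β x).1, (β x).2 ^ 2)) (𝓝 q) (𝓝 (t, ρ ^ 2)) := by
    have := hc.tendsto
    simpa only [hq] using this
  filter_upwards [hev, ht.eventually e] with x hx hx'
  rw [hx']
  exact hx

lemma Adm.shift {t ρ : ℝ} (c : ℝ) (h : Adm E (t - c) ρ) :
    Adm (fun x => E (x.1 - c, x.2)) t ρ := by
  obtain ⟨β, q, A, B, F, H, jA, jB, jF, jH, hβ, hq, hA, hB, hF, hH, hR, hev⟩ := h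
  refine ⟨fun x => β x + (c, 0), q, A, B, F, H, jA, jB, jF, jH, hβ.add contDiffAt_const, ?_, hA,
    hB, hF, hH, hR, ?_⟩
  · simp [hq]
  · filter_upwards [hev] with x hx
    simpa only [fderiv_add_const, Prod.fst_add, Prod.snd_add, add_zero, add_sub_cancel_right]
      using hx

lemma ricM_sum {n : ℕ} (u : Eu n) : ∑ i, u i • (EuclideanSpace.single i (1 : ℝ) : Eu n) = u := by
  have := (EuclideanSpace.basisFun (Fin n) ℝ).sum_repr u
  simpa using this

lemma bil_gch (E : Ed) (a : Fin 3) (y u v : Eu 5) : bil (gch E a y) u v =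
    GA E (iota a y) (fderiv ℝ (iota a) y u) (fderiv ℝ (iota a) y v) := by
  conv_rhs => rw [← ricM_sum u, ← ricM_sum v]
  simp only [map_sum, map_smul, sum_apply, smul_apply, smul_eq_mul, bil, gch]
  rw [Finset.sum_comm]
  refine Finset.sum_congr rfl fun j _ => ?_
  rw [Finset.mul_sum]
  refine Finset.sum_congr rfl fun i _ => ?_
  ring

lemma ricM_tan (a : Fin 3) (y v : Eu 5) : Tan (iota a y) (fderiv ℝ (iota a) y v) :=
  tan_of_hasFDerivAt (Eventually.of_forall (iota_mem _))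
    (((contDiff_iota _).differentiable (by simp)).differentiableAt.hasFDerivAt) _

lemma smoothMet_gch (hE : Good E) (a : Fin 3) (y : Eu 5) : SmoothMet (gch E a) y := by
  refine ⟨fun i j => ?_, Eventually.of_forall fun x i j => GA_symm _ _ _ _, fun hd => ?_⟩
  · have h1 : ContDiffAt ℝ 2 (fun x => GA E (iota a x)) y :=
      ((hE.contDiffAt_GA _).comp y (contDiff_iota a).contDiffAt).of_le (by norm_cast)
    have h2 : ContDiffAt ℝ 2 (fderiv ℝ (iota a)) y :=
      ((contDiff_iota a).fderiv_right (m := 2) (by norm_cast)).contDiffAt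
    exact (h1.clm_apply (h2.clm_apply contDiffAt_const)).clm_apply (h2.clm_apply contDiffAt_const)
  · obtain ⟨v, hv0, hv⟩ := Matrix.exists_mulVec_eq_zero_iff.2 hd
    have hb : bil (gch E a y) (WithLp.toLp 2 v) (WithLp.toLp 2 v) = 0 := by
      unfold bil
      refine Finset.sum_eq_zero fun i _ => ?_
      have := congrFun hv i
      simp only [Matrix.mulVec, dotProduct, Pi.zero_apply] at this
      calc ∑ j, gch E a y i j * v i * v j = v i * ∑ j, gch E a y i j * v j := by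
            rw [Finset.mul_sum]
            exact Finset.sum_congr rfl fun j _ => by ring
        _ = 0 := by rw [this, mul_zero]
    rw [bil_gch, GA_self] at hb
    refine (hE.pos' (ricM_tan a y _) fun h0 => hv0 ?_).ne' hb
    have h1 : (WithLp.toLp 2 v : Eu 5) = 0 :=
      fderiv_iota_injective a y (h0.trans (map_zero _).symm)
    simpa using h1

/-- The first two coordinates. -/
def ricMpr : Eu 5 →L[ℝ] ℝ × ℝ :=
  (EuclideanSpace.proj (0 : Fin 5) : Eu 5 →L[ℝ] ℝ).prod (EuclideanSpace.proj (1 : Fin 5))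

lemma ricMpr_apply (x : Eu 5) : ricMpr x = (x 0, x 1) := rfl

/-- The embedding of the plane. -/
def ricMem : ℝ × ℝ →L[ℝ] Eu 5 :=
  (ContinuousLinearMap.fst ℝ ℝ ℝ).smulRight (EuclideanSpace.single 0 1) +
    (ContinuousLinearMap.snd ℝ ℝ ℝ).smulRight (EuclideanSpace.single 1 1)

/-- The projection to the last three coordinates. -/
def ricMrest : Eu 5 →L[ℝ] Eu 5 := ContinuousLinearMap.id ℝ (Eu 5) - ricMem.comp ricMpr

lemma ricM_coord (p : ℝ × ℝ) (x : Eu 5) :
    (ricMem p + ricMrest x) 0 = p.1 ∧ (ricMem p + ricMrest x) 1 = p.2 ∧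
    (ricMem p + ricMrest x) 2 = x 2 ∧ (ricMem p + ricMrest x) 3 = x 3 ∧
    (ricMem p + ricMrest x) 4 = x 4 := by
  simp [ricMem, ricMrest, ricMpr_apply]

lemma ricM_polar {A B F H : ℝ × ℝ → ℝ} {x : Eu 5} {p : Amb} (L : Eu 5 →L[ℝ] Amb)
    (h : ∀ u, bil (gM A B F H x) u u = GA E p (L u) (L u)) (u v : Eu 5) :
    bil (gM A B F H x) u v = GA E p (L u) (L v) := by
  have h1 := h (u + v)
  have h2 := h u
  have h3 := h v
  simp only [map_add, add_apply] at h1
  rw [GA_symm E p (L v) (L u)] at h1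
  rw [bil_gM] at h1 h2 h3 ⊢
  simp only [PiLp.add_apply] at h1
  linear_combination (1 / 2) * (h1 - h2 - h3)

lemma ricQ_gch_generic (hE : Good E) (a : Fin 3) {y : Eu 5} (hA : Adm E (y 0) (y 1))
    (hs : Real.sin (y 2) ≠ 0) (ha : (Fm y).2.1 (a, a) ≠ 0) (v : Eu 5) :
    0 ≤ ricQ (gch E a) (kap a (Fm y)) v := by
  obtain ⟨β, q, A, B, F, H, jA, jB, jF, jH, hβ, hq, hA, hB, hF, hH, hR, hev⟩ := hA
  obtain ⟨y', hy'⟩ : ∃ y' : Eu 5, y' = ricMem q + ricMrest y := ⟨_, rfl⟩
  obtain ⟨c0, c1, c2, c3, c4⟩ := ricM_coord q y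
  rw [← hy'] at c0 c1 c2 c3 c4
  have hpr : ricMpr y' = q := by rw [ricMpr_apply, c0, c1]
  have hpr' : (y' 0, y' 1) = q := hpr
  obtain ⟨Bm, hBm⟩ : ∃ Bm : Eu 5 → Eu 5, Bm = fun x => ricMem (β (ricMpr x)) + ricMrest x :=
    ⟨_, rfl⟩
  have hβ' : ContDiffAt ℝ 3 β (ricMpr y') := by rw [hpr]; exact hβ
  have hBc : ContDiffAt ℝ 3 Bm y' := by
    rw [hBm]
    exact (ricMem.contDiff.contDiffAt.comp y' (hβ'.comp y' ricMpr.contDiff.contDiffAt)).add
      ricMrest.contDiff.contDiffAt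
  have hBy : Bm y' = y := by
    obtain ⟨d0, d1, d2, d3, d4⟩ := ricM_coord (β (ricMpr y')) y'
    rw [hBm]
    ext i
    fin_cases i
    · exact d0.trans (by rw [hpr, hq]; rfl)
    · exact d1.trans (by rw [hpr, hq]; rfl)
    · exact d2.trans c2
    · exact d3.trans c3
    · exact d4.trans c4
  have hFB : ContDiffAt ℝ 3 (fun x => Fm (Bm x)) y' :=
    (contDiff_Fm.contDiffAt.of_le (by norm_cast)).comp y' hBc
  obtain ⟨φ, hφ⟩ : ∃ φ : Eu 5 → Eu 5, φ = fun x => kap a (Fm (Bm x)) := ⟨_, rfl⟩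
  have hφc : ContDiffAt ℝ 3 φ y' := by
    rw [hφ]
    have h1 : ContDiffAt ℝ 3 (kap a) (Fm (Bm y')) := by
      rw [hBy]
      exact (contDiffAt_kap ha).of_le (by norm_cast)
    exact ContDiffAt.comp (g := kap a) (f := fun x => Fm (Bm x)) y' h1 hFB
  have hφy : φ y' = kap a (Fm y) := by rw [hφ]; simp only [hBy]
  have hne : ∀ᶠ x in 𝓝 y', (Fm (Bm x)).2.1 (a, a) ≠ 0 := by
    have h1 : Continuous fun p : Amb => (p.2.1 (a, a) : ℝ) := by fun_prop
    have h2 : ContinuousAt (fun x => ((Fm (Bm x)).2.1 (a, a) : ℝ)) y' :=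
      h1.continuousAt.comp hFB.continuousAt
    exact h2.eventually_ne (by rw [hBy]; exact ha)
  have hio : (fun x => iota a (φ x)) =ᶠ[𝓝 y'] fun x => Fm (Bm x) := by
    filter_upwards [hne] with x hx
    rw [hφ]
    exact iota_kap (Fm_mem _) hx
  have hT : Tendsto ricMpr (𝓝 y') (𝓝 q) := by
    rw [← hpr]
    exact ricMpr.continuous.continuousAt
  have key : ∀ᶠ x in 𝓝 y', ∀ u w, bil (gM A B F H x) u w =
      bil (gch E a (φ x)) (fderiv ℝ φ x u) (fderiv ℝ φ x w) := by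
    filter_upwards [hio.eventuallyEq_nhds, hφc.eventually (by simp), hT.eventually hev,
      hT.eventually (hβ.eventually (by simp))] with x hx hφx hEx hβx
    have dφ : DifferentiableAt ℝ φ x := hφx.differentiableAt (by simp)
    have dβ : HasFDerivAt β (fderiv ℝ β (ricMpr x)) (ricMpr x) :=
      (hβx.differentiableAt (by simp)).hasFDerivAt
    have dB : HasFDerivAt Bm
        (ricMem.comp ((fderiv ℝ β (ricMpr x)).comp ricMpr) + ricMrest) x := by
      rw [hBm]
      exact (ricMem.hasFDerivAt.comp x (dβ.comp x ricMpr.hasFDerivAt)).add ricMrest.hasFDerivAt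
    have dF : HasFDerivAt Fm (fderiv ℝ Fm (Bm x)) (Bm x) :=
      (contDiff_Fm.differentiable (by simp)).differentiableAt.hasFDerivAt
    have dI : HasFDerivAt (iota a) (fderiv ℝ (iota a) (φ x)) (φ x) :=
      ((contDiff_iota a).differentiable (by simp)).differentiableAt.hasFDerivAt
    have e1 : (fderiv ℝ (iota a) (φ x)).comp (fderiv ℝ φ x) = (fderiv ℝ Fm (Bm x)).comp
        (ricMem.comp ((fderiv ℝ β (ricMpr x)).comp ricMpr) + ricMrest) :=
      (dI.comp x dφ.hasFDerivAt).unique ((dF.comp x dB).congr_of_eventuallyEq hx)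
    intro u w
    rw [bil_gch, hx.eq_of_nhds]
    refine ricM_polar ((fderiv ℝ (iota a) (φ x)).comp (fderiv ℝ φ x)) (fun u => ?_) u w
    rw [e1, GA_self, bil_gM]
    obtain ⟨d0, d1, d2, d3, d4⟩ := ricM_coord (β (ricMpr x)) x
    obtain ⟨f0, f1, f2, f3, f4⟩ := ricM_coord (fderiv ℝ β (ricMpr x) (ricMpr u)) u
    have eB : Bm x = ricMem (β (ricMpr x)) + ricMrest x := by rw [hBm]
    rw [← eB] at d0 d1 d2 d3 d4
    have eD : (fderiv ℝ Fm (Bm x)).comp
        (ricMem.comp ((fderiv ℝ β (ricMpr x)).comp ricMpr) + ricMrest) u =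
        fderiv ℝ Fm (Bm x) (ricMem (fderiv ℝ β (ricMpr x) (ricMpr u)) + ricMrest u) := rfl
    rw [eD, Gf_Fm, d0, d1, d2, f0, f1, f2, f3, f4]
    obtain ⟨g1, g2, g3⟩ := hEx
    have g4 := g1 (ricMpr u)
    simp only [ricMpr_apply] at g2 g3 g4 ⊢
    unfold Qf at g4 ⊢
    linear_combination (-1) * g4 - (u 4 + Real.cos (x 2) * u 3) ^ 2 * g2 -
      (u 2 ^ 2 + Real.sin (x 2) ^ 2 * u 3 ^ 2) * g3
  have hs' : Real.sin (y' 2) ≠ 0 := by rw [c2]; exact hs
  have hd : (gM A B F H y').det ≠ 0 := det_gM_ne hs'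
  obtain ⟨u, rfl⟩ := fderiv_surjective_of_pullback key.self_of_nhds hd v
  rw [← hφy, ← ricQ_pullback hφc (smoothMet_gch hE a _) key hd u,
    ricQ_gM (hpr' ▸ hA) (hpr' ▸ hB) (hpr' ▸ hF) (hpr' ▸ hH) hs']
  have r1 := hR.base (u 0) (u 1)
  have r2 := hR.f
  have r3 := hR.h
  positivity

lemma ricM_sin (θ : ℝ) : ∀ᶠ s in 𝓝[>] (0 : ℝ), Real.sin (θ + s) ≠ 0 := by
  by_cases h : Real.sin θ = 0
  · have hc : Real.cos θ ≠ 0 := fun hc => by
      have := Real.sin_sq_add_cos_sq θ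
      rw [h, hc] at this
      norm_num at this
    filter_upwards [Ioo_mem_nhdsGT Real.pi_pos] with s hs
    rw [Real.sin_add, h, zero_mul, zero_add]
    exact mul_ne_zero hc (Real.sin_pos_of_pos_of_lt_pi hs.1 hs.2).ne'
  · have h1 : ContinuousAt (fun s => Real.sin (θ + s)) 0 := by fun_prop
    exact nhdsWithin_le_nhds (h1.eventually_ne (by simpa using h))

theorem ricQ_gch_nonneg (hE : Good E) (hA : ∀ t ρ, 0 < ρ → Adm E t ρ) (a : Fin 3) (y v : Eu 5) :
    0 ≤ ricQ (gch E a) y v := by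
  obtain ⟨y0, h0, hy0⟩ := Fm_surj (iota_mem a y)
  obtain ⟨d, hd⟩ : ∃ d : Eu 5, d = EuclideanSpace.single 1 1 + EuclideanSpace.single 2 1 :=
    ⟨_, rfl⟩
  have hd1 : ∀ s : ℝ, (y0 + s • d) 1 = y0 1 + s := fun s => by simp [hd]
  have hd2 : ∀ s : ℝ, (y0 + s • d) 2 = y0 2 + s := fun s => by simp [hd]
  have hl : Continuous fun s : ℝ => Fm (y0 + s • d) :=
    contDiff_Fm.continuous.comp (continuous_const.add (continuous_id.smul continuous_const))
  have hl0 : Fm (y0 + (0 : ℝ) • d) = iota a y := by rw [zero_smul, add_zero, hy0]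
  have hk : ContinuousAt (fun s : ℝ => kap a (Fm (y0 + s • d))) 0 := by
    have h1 : ContinuousAt (kap a) (Fm (y0 + (0 : ℝ) • d)) := by
      rw [hl0]
      exact (contDiffAt_kap (iota_diag a y)).continuousAt
    exact ContinuousAt.comp (f := fun s : ℝ => Fm (y0 + s • d)) h1 hl.continuousAt
  have hT : Tendsto (fun s : ℝ => kap a (Fm (y0 + s • d))) (𝓝[>] 0) (𝓝 y) := by
    have := hk.tendsto
    rw [hl0, kap_iota] at this
    exact this.mono_left nhdsWithin_le_nhds
  have hne : ∀ᶠ s in 𝓝 (0 : ℝ), (Fm (y0 + s • d)).2.1 (a, a) ≠ 0 := by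
    have h1 : Continuous fun p : Amb => (p.2.1 (a, a) : ℝ) := by fun_prop
    have h2 : ContinuousAt (fun s : ℝ => ((Fm (y0 + s • d)).2.1 (a, a) : ℝ)) 0 :=
      (h1.comp hl).continuousAt
    exact h2.eventually_ne (by rw [hl0]; exact iota_diag a y)
  refine ge_of_tendsto (((smoothMet_gch hE a y).continuousAt_ricQ v).tendsto.comp hT) ?_
  filter_upwards [nhdsWithin_le_nhds hne, ricM_sin (y0 2), self_mem_nhdsWithin] with s h1 h2 h3
  refine ricQ_gch_generic hE a (hA _ _ ?_) (by rw [hd2]; exact h2) h1 v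
  rw [hd1]
  exact add_pos_of_nonneg_of_pos h0 h3

end

end Pool.Agent.Work.MP_a9fb1f_gt
end
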