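import Pool.Agent.Work.MP_a9fb1f_gt.Topo
import Pool.Agent.Work.MP_a9fb1f_gt.RicM

-- merged part: Pool.Agent.Work.MP_a9fb1f_gt.RMetric
section
/-! The Riemannian metric defined by the five coefficients. -/

set_option autoImplicit false

open scoped Manifold ContDiff Topology ENNReal Bundle RealInnerProductSpace
open Filter Set

namespace Pool.Agent.Work.MP_a9fb1f_gt

noncomputable section

variable {E : Ed}

def gmet (hE : Good E) : Bundle.ContMDiffRiemannianMetric 𝓘(ℝ, Eu 5) ∞ (Eu 5)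
    fun p : Mf => TangentSpace 𝓘(ℝ, Eu 5) p where
  inner := ginner E
  symm _ _ _ := GA_symm _ _ _ _
  pos := ginner_pos hE
  isVonNBounded := ginner_bounded hE
  contMDiff := ginner_smooth hE

@[reducible] def gbundle (hE : Good E) :
    Bundle.RiemannianBundle fun p : Mf => TangentSpace 𝓘(ℝ, Eu 5) p :=
  ⟨(gmet hE).toRiemannianMetric⟩

lemma rmetric_length (hE : Good E) {γ : ℝ → Mf} (h : ContMDiff 𝓘(ℝ, ℝ) 𝓘(ℝ, Eu 5) 1 γ) :
    letI := gbundle hE
    Manifold.pathELength 𝓘(ℝ, Eu 5) γ 0 1 = ∫⁻ s in Icc (0 : ℝ) 1,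
      ENNReal.ofReal √(Gf E (γ s) (deriv (fun s => (γ s : Amb)) s)) := by
  let := gbundle hE
  rw [Manifold.pathELength_eq_lintegral_mfderiv_Icc]
  refine MeasureTheory.lintegral_congr fun s => ?_
  have h1 : ∀ v : TangentSpace 𝓘(ℝ, Eu 5) (γ s), ‖v‖ₑ = ENNReal.ofReal √(Gf E (γ s)
      (mfderiv 𝓘(ℝ, Eu 5) 𝓘(ℝ, Amb) (Subtype.val : Mf → Amb) (γ s) v)) := by
    intro v
    have h2 : inner ℝ v v = ginner E (γ s) v v := rfl
    have h3 := mfderiv_val (γ s) v
    have h4 := ginner_apply (E := E) (γ s) v v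
    rw [GA_self] at h4
    rw [← ofReal_norm, norm_eq_sqrt_real_inner, h2]
    exact congrArg (fun t => ENNReal.ofReal √t) (h4.trans (congrArg (Gf E (γ s)) h3.symm))
  exact (h1 _).trans (congrArg (fun w => ENNReal.ofReal √(Gf E (γ s) w)) (mfderiv_val_path h s))

theorem riemannianEDist_eq (hE : Good E) (p q : Mf) :
    letI := gbundle hE
    Manifold.riemannianEDist 𝓘(ℝ, Eu 5) p q = eD E p q := by
  let := gbundle hE
  refine le_antisymm ?_ (le_of_forall_gt fun r hr => ?_)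
  · refine le_iInf fun γ => le_iInf fun hγ => le_iInf fun hm => le_iInf fun h0 =>
      le_iInf fun h1 => ?_
    have h : ContMDiff 𝓘(ℝ, ℝ) 𝓘(ℝ, Eu 5) 1 fun s => (⟨γ s, hm s⟩ : Mf) := contMDiff_of_val hγ
    exact (Manifold.riemannianEDist_le_pathELength h.contMDiffOn (Subtype.ext h0) (Subtype.ext h1)
      zero_le_one).trans_eq (rmetric_length hE h)
  · obtain ⟨γ, h0, h1, h, hl, -⟩ :=
      Manifold.exists_lt_locally_constant_of_riemannianEDist_lt hr zero_lt_one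
    refine lt_of_le_of_lt ?_ ((rmetric_length hE h).symm.trans_lt hl)
    exact iInf_le_of_le (fun s => (γ s : Amb)) (iInf_le_of_le (contDiff_val_comp h)
      (iInf_le_of_le (fun s => (γ s).2) (iInf_le_of_le (congrArg Subtype.val h0)
        (iInf_le_of_le (congrArg Subtype.val h1) le_rfl))))

/-- The extended distance as a pseudo-metric structure with the given topology. -/
@[reducible] def rmetricE (hE : Good E) : PseudoEMetricSpace Mf :=
  letI := gbundle hE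
  haveI : IsContinuousRiemannianBundle (Eu 5) fun p : Mf => TangentSpace 𝓘(ℝ, Eu 5) p :=
    ⟨ginner E, (gmet hE).contMDiff.continuous, fun _ _ _ => rfl⟩
  PseudoEMetricSpace.ofRiemannianMetric 𝓘(ℝ, Eu 5) Mf

lemma rmetric_edist (hE : Good E) (p q : Mf) :
    @edist Mf (rmetricE hE).toEDist p q = eD E p q := riemannianEDist_eq hE p q

lemma dE_self (hE : Good E) (p : Mf) : dE E p p = 0 := by
  rw [dE, ← rmetric_edist hE, @edist_self Mf (rmetricE hE), ENNReal.toReal_zero]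

lemma dE_comm (hE : Good E) (p q : Mf) : dE E p q = dE E q p := by
  rw [dE, dE, ← rmetric_edist hE, ← rmetric_edist hE, @edist_comm Mf (rmetricE hE)]

lemma dE_triangle (hE : Good E) (p q r : Mf) : dE E p r ≤ dE E p q + dE E q r := by
  rw [dE, dE, dE, ← ENNReal.toReal_add (eD_ne_top hE p q) (eD_ne_top hE q r)]
  refine ENNReal.toReal_mono (ENNReal.add_ne_top.2 ⟨eD_ne_top hE p q, eD_ne_top hE q r⟩) ?_
  rw [← rmetric_edist hE, ← rmetric_edist hE, ← rmetric_edist hE]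
  exact @edist_triangle Mf (rmetricE hE) p q r

lemma continuous_dE (hE : Good E) : Continuous fun x : Mf × Mf => dE E x.1 x.2 := by
  have h : Continuous fun x : Mf × Mf => eD E x.1 x.2 :=
    (@continuous_edist Mf (rmetricE hE)).congr fun x => rmetric_edist hE x.1 x.2
  exact ENNReal.continuousOn_toReal.comp_continuous h fun x => eD_ne_top hE x.1 x.2

end

end Pool.Agent.Work.MP_a9fb1f_gt
end

-- merged part: Pool.Agent.Work.MP_a9fb1f_gt.StdL1
section
/-! Distances of standard metrics. -/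

set_option autoImplicit false

open scoped Manifold ContDiff Topology ENNReal Bundle RealInnerProductSpace
open Filter Set

namespace Pool.Agent.Work.MP_a9fb1f_gt

noncomputable section

variable {E : Ed} {C c η : ℝ} {d : Mf → Mf → ℝ}

lemma StdL1_Qf_ref (x : ℝ × ℝ) (a ζ β γ : ℝ) :
    Qf (Eref x) a ζ β γ = a ^ 2 + β + (x.1 ^ 2 + x.2 + 1) * γ := by
  simp [Qf, Eref]

lemma StdL1_Qf_resc (E : Ed) (c r : ℝ) (x : ℝ × ℝ) (a ζ β γ : ℝ) :
    Qf (resc E c r x) a ζ β γ = Qf (E (c + r * x.1, r ^ 2 * x.2)) a (r * ζ) β (γ / r ^ 2) := by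
  simp only [Qf, resc, Matrix.cons_val_zero, Matrix.cons_val_one, Matrix.cons_val]
  ring

lemma StdL1_ad_resc {z ζ β γ r : ℝ} (h : Ad z ζ β γ) :
    Ad (r ^ 2 * z) (r * ζ) β (γ / r ^ 2) :=
  ⟨mul_nonneg (sq_nonneg r) h.z0, h.b0, div_nonneg h.c0 (sq_nonneg r), by
    rw [mul_pow, mul_assoc]
    exact mul_le_mul_of_nonneg_left h.cs (sq_nonneg r)⟩

lemma StdL1_alg {t a z ζ β γ m m' : ℝ} (h : Ad z ζ β γ) (hm : m ^ 2 ≤ z)
    (hm' : m' ^ 2 ≤ β + 2 * z * γ) :
    ((2 * ζ * (t ^ 2 + z + 1) - z * (2 * t * a + 2 * ζ)) / (t ^ 2 + z + 1) ^ 2 * m +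
      z / (t ^ 2 + z + 1) * m') ^ 2 ≤ 15 * (a ^ 2 + z / (t ^ 2 + z + 1) * β + z * γ) := by
  obtain ⟨hz, hβ, hγ, hζ⟩ := h
  have hD : 0 < t ^ 2 + z + 1 := by positivity
  obtain ⟨θ, hθ⟩ : ∃ θ, θ = z / (t ^ 2 + z + 1) := ⟨_, rfl⟩
  obtain ⟨u, hu⟩ : ∃ u, u = (t ^ 2 + 1) / (t ^ 2 + z + 1) := ⟨_, rfl⟩
  obtain ⟨v, hv⟩ : ∃ v, v = t ^ 2 / (t ^ 2 + z + 1) := ⟨_, rfl⟩
  have θ0 : 0 ≤ θ := by rw [hθ]; positivity
  have θ1 : θ ≤ 1 := by rw [hθ, div_le_one hD]; linarith only [sq_nonneg t, sq_nonneg t]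
  have u0 : 0 ≤ u := by rw [hu]; positivity
  have u1 : u ≤ 1 := by rw [hu, div_le_one hD]; linarith only [hz]
  have v0 : 0 ≤ v := by rw [hv]; positivity
  have v1 : v ≤ 1 := by rw [hv, div_le_one hD]; linarith only [hz]
  have e : (2 * ζ * (t ^ 2 + z + 1) - z * (2 * t * a + 2 * ζ)) / (t ^ 2 + z + 1) ^ 2 * m +
      z / (t ^ 2 + z + 1) * m' = θ * m' + 2 * m * ζ * u / (t ^ 2 + z + 1) -
        2 * m * θ * t * a / (t ^ 2 + z + 1) := by
    rw [hθ, hu]
    field_simp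
    ring
  have hzγ : 0 ≤ z * γ := mul_nonneg hz hγ
  have hθβ : 0 ≤ θ * β := mul_nonneg θ0 hβ
  have θ2 : θ ^ 2 ≤ θ := by linarith only [θ0, θ1, mul_nonneg_of_nonpos_of_nonpos (Mathlib.Tactic.Linarith.sub_nonpos_of_le θ0) (Mathlib.Tactic.Linarith.sub_nonpos_of_le θ1)]
  have b1 : (θ * m') ^ 2 ≤ θ * β + 2 * (z * γ) := by
    calc (θ * m') ^ 2 = θ ^ 2 * m' ^ 2 := by ring
      _ ≤ θ ^ 2 * (β + 2 * z * γ) := by gcongr
      _ = θ ^ 2 * β + θ ^ 2 * (2 * (z * γ)) := by ring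
      _ ≤ θ * β + 1 * (2 * (z * γ)) := by
        gcongr
        exact θ2.trans θ1
      _ = θ * β + 2 * (z * γ) := by ring
  have b2 : (2 * m * ζ * u / (t ^ 2 + z + 1)) ^ 2 ≤ 4 * (θ * β) := by
    calc (2 * m * ζ * u / (t ^ 2 + z + 1)) ^ 2
        = 4 * m ^ 2 * ζ ^ 2 * u ^ 2 / (t ^ 2 + z + 1) ^ 2 := by rw [div_pow]; congr 1; ring
      _ ≤ 4 * z * (z * β) * 1 ^ 2 / (t ^ 2 + z + 1) ^ 2 := by gcongr
      _ = 4 * (θ ^ 2 * β) := by rw [hθ]; field_simp
      _ ≤ 4 * (θ * β) := by gcongr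
  have b3 : (2 * m * θ * t * a / (t ^ 2 + z + 1)) ^ 2 ≤ 4 * a ^ 2 := by
    calc (2 * m * θ * t * a / (t ^ 2 + z + 1)) ^ 2
        = 4 * m ^ 2 * θ ^ 2 * t ^ 2 * a ^ 2 / (t ^ 2 + z + 1) ^ 2 := by
          rw [div_pow]; congr 1; ring
      _ ≤ 4 * z * 1 ^ 2 * t ^ 2 * a ^ 2 / (t ^ 2 + z + 1) ^ 2 := by gcongr
      _ = 4 * (θ * v) * a ^ 2 := by rw [hθ, hv]; field_simp
      _ ≤ 4 * (1 * 1) * a ^ 2 := by gcongr
      _ = 4 * a ^ 2 := by ring
  rw [e, ← hθ]
  generalize θ * m' = X at b1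
  generalize 2 * m * ζ * u / (t ^ 2 + z + 1) = Y at b2
  generalize 2 * m * θ * t * a / (t ^ 2 + z + 1) = Z at b3
  linarith only [hzγ, b1, b2, b3, sq_nonneg (X - Y), sq_nonneg (X + Z), sq_nonneg (Y + Z), sq_nonneg a, sq_nonneg a, sq_nonneg (Y + Z), sq_nonneg (X + Z), sq_nonneg (X - Y)]

/-- the test function -/
def StdL1_f (M : Mat) (p : Amb) : ℝ := zz p / (p.1 ^ 2 + zz p + 1) * ⟪M, p.2.2⟫

lemma StdL1_zz_nonneg (p : Amb) : 0 ≤ zz p := sq_nonneg _

lemma StdL1_contDiff (M : Mat) : ContDiff ℝ 1 (StdL1_f M) := by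
  have hN : ContDiff ℝ 1 fun p : Amb => p.2.2 := contDiff_snd.snd
  have hz : ContDiff ℝ 1 zz := hN.norm_sq ℝ
  refine ContDiff.mul (hz.div (((contDiff_fst.pow 2).add hz).add contDiff_const) fun p => ?_)
    (contDiff_const.inner ℝ hN)
  have := StdL1_zz_nonneg p
  positivity

lemma StdL1_fderiv (M : Mat) (p w : Amb) : fderiv ℝ (StdL1_f M) p w =
    (2 * ze p w * (p.1 ^ 2 + zz p + 1) - zz p * (2 * p.1 * w.1 + 2 * ze p w)) /
      (p.1 ^ 2 + zz p + 1) ^ 2 * ⟪M, p.2.2⟫ + zz p / (p.1 ^ 2 + zz p + 1) * ⟪M, w.2.2⟫ := by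
  have hl : HasDerivAt (fun s : ℝ => p + s • w) w 0 := by
    simpa using ((hasDerivAt_id (0 : ℝ)).smul_const w).const_add p
  have h0 : p + (0 : ℝ) • w = p := by simp
  have hf : HasFDerivAt (StdL1_f M) (fderiv ℝ (StdL1_f M) p) (p + (0 : ℝ) • w) := by
    rw [h0]
    exact ((StdL1_contDiff M).differentiable (by simp) p).hasFDerivAt
  have h1 := hf.comp_hasDerivAt (0 : ℝ) hl
  have ht : HasDerivAt (fun s : ℝ => (p + s • w).1) w.1 0 := hl.fst
  have hN : HasDerivAt (fun s : ℝ => (p + s • w).2.2) w.2.2 0 := hl.snd.snd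
  have hz : HasDerivAt (fun s : ℝ => zz (p + s • w)) (2 * ze p w) 0 := by
    have := hN.norm_sq
    rw [h0] at this
    exact this
  have hm : HasDerivAt (fun s : ℝ => ⟪M, (p + s • w).2.2⟫) ⟪M, w.2.2⟫ 0 := by
    have := (hasDerivAt_const (0 : ℝ) M).inner ℝ hN
    simpa using this
  have hD : (p + (0 : ℝ) • w).1 ^ 2 + zz (p + (0 : ℝ) • w) + 1 ≠ 0 := by
    have := StdL1_zz_nonneg (p + (0 : ℝ) • w)
    positivity
  have h2 := (hz.fun_div (((ht.fun_pow 2).fun_add hz).add_const 1) hD).fun_mul hm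
  have h3 := h1.unique h2
  rw [h3, h0]
  norm_num

lemma good_Eref : Good Eref := by
  refine ⟨fun x _ => contDiffAt_pi.2 fun i => ?_, fun x a ζ β γ h h0 => ?_⟩
  · fin_cases i <;> simp only [Eref] <;> simp <;> fun_prop
  · rw [StdL1_Qf_ref]
    obtain ⟨hz, hβ, hγ, -⟩ := h
    have hD : 0 < x.1 ^ 2 + x.2 + 1 := by positivity
    rcases h0 with h0 | h0 | h0
    · positivity
    · have := lt_of_le_of_ne hβ (Ne.symm h0)
      positivity
    · have := lt_of_le_of_ne hγ (Ne.symm h0)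
      positivity

lemma Std.mono (h : Std C c η E) (hC : 0 ≤ C) {η' : ℝ} (h0 : 0 ≤ η) (h1 : η ≤ η') :
    Std C c η' E := by
  have h2 : η ^ 2 ≤ η' ^ 2 := pow_le_pow_left₀ h0 h1 2
  refine ⟨fun x a ζ β γ hA => (h.up x a ζ β γ hA).trans ?_,
    fun x a ζ β γ hA => le_trans ?_ (h.low x a ζ β γ hA)⟩
  · have := hA.c0
    gcongr
  · have hb := hA.b0
    have hz := hA.z0
    have h3 : x.2 / ((x.1 - c) ^ 2 + x.2 + η' ^ 2) ≤ x.2 / ((x.1 - c) ^ 2 + x.2 + η ^ 2) := by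
      rcases hz.eq_or_lt with h4 | h4
      · rw [← h4, zero_div, zero_div]
      · gcongr
    gcongr

lemma Std.resc (h : Std C c η E) {r : ℝ} (hr : 0 < r) : Std C 0 (η / r) (resc E c r) := by
  refine ⟨fun x a ζ β γ hA => ?_, fun x a ζ β γ hA => ?_⟩
  · rw [StdL1_Qf_resc]
    refine (h.up (c + r * x.1, r ^ 2 * x.2) a _ β _ (StdL1_ad_resc hA)).trans (le_of_eq ?_)
    simp only [add_sub_cancel_left, sub_zero]
    field_simp
  · rw [StdL1_Qf_resc]
    refine le_trans (le_of_eq ?_) (h.low (c + r * x.1, r ^ 2 * x.2) a _ β _ (StdL1_ad_resc hA))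
    simp only [add_sub_cancel_left, sub_zero]
    have e : (r * x.1) ^ 2 + r ^ 2 * x.2 + η ^ 2 = r ^ 2 * (x.1 ^ 2 + x.2 + (η / r) ^ 2) := by
      field_simp
    rw [e, mul_div_mul_left _ _ (pow_ne_zero 2 hr.ne')]
    field_simp

lemma Cone.resc {a b : ℝ} (h : Cone C c a b E) {r : ℝ} (hr : 0 < r) :
    Cone C 0 (a / r) (b / r) (resc E c r) := by
  intro x u ζ β γ hA h1 h2
  rw [StdL1_Qf_resc]
  have hr2 : 0 < r ^ 2 := pow_pos hr 2
  have e : (c + r * x.1 - c) ^ 2 + r ^ 2 * x.2 = r ^ 2 * ((x.1 - 0) ^ 2 + x.2) := by ring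
  refine le_trans (le_of_eq ?_) (h (c + r * x.1, r ^ 2 * x.2) u _ β _ (StdL1_ad_resc hA) ?_ ?_)
  · simp only [e]
    field_simp
  · simp only [e]
    rwa [div_pow, div_le_iff₀' hr2] at h1
  · simp only [e]
    rwa [div_pow, le_div_iff₀' hr2] at h2

lemma Std.e5 (h : Std C 0 η E) : E (0, 0) 4 ≤ C * η ^ 2 := by
  have h1 := h.up (0, 0) 0 0 0 1 ⟨le_rfl, le_rfl, zero_le_one, by simp⟩
  simpa [Qf] using h1

theorem stdD_dE (hE : Good E) (hC : 1 ≤ C) (h : Std C 0 1 E) : StdD (8 * C) (dE E) := by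
  have hC0 : 0 ≤ 8 * C := by linarith only [hC]
  have hlow : ∀ p w, Tan p w → w.1 ^ 2 + zz p / (p.1 ^ 2 + zz p + 1) * b4 p w + zz p * b5 w ≤
      C * Gf E p w := fun p w hw => by
    have h1 := h.low (p.1, zz p) w.1 _ _ _ hw.ad
    unfold Gf
    simpa only [sub_zero, one_pow] using h1
  have hbig : ∀ p w, Tan p w → 15 * (C * Gf E p w) ≤ (8 * C) ^ 2 * Gf E p w := fun p w hw => by
    have h1 := hE.nonneg hw
    have h2 : 15 * C ≤ (8 * C) ^ 2 := by linarith only [hC, mul_nonneg_of_nonpos_of_nonpos (Mathlib.Tactic.Linarith.sub_nonpos_of_le hC) (Mathlib.Tactic.Linarith.sub_nonpos_of_le hC)]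
    rw [← mul_assoc]
    gcongr
  refine ⟨by linarith, dE_self hE, dE_comm hE, dE_triangle hE, fun p q => ?_, fun p q => ?_,
    fun p q => ?_⟩
  · refine dE_le_of_le good_Eref hC0 (fun p w hw => ?_) p q
    have h1 := h.up (p.1, zz p) w.1 _ _ _ hw.ad
    have h2 := good_Eref.nonneg hw
    have h3 : Gf E p w ≤ C * Gf Eref p w := by
      unfold Gf
      rw [StdL1_Qf_ref]
      simpa only [sub_zero, one_pow] using h1
    have h4 : C ≤ (8 * C) ^ 2 := by linarith only [hC, mul_nonneg_of_nonpos_of_nonpos (Mathlib.Tactic.Linarith.sub_nonpos_of_le hC) (Mathlib.Tactic.Linarith.sub_nonpos_of_le hC)]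
    exact h3.trans (mul_le_mul_of_nonneg_right h4 h2)
  · refine abs_sub_le_dE hE (f := fun p : Amb => p.1) contDiff_fst hC0 (fun p w hw => ?_) p q
    have h1 : fderiv ℝ (fun p : Amb => p.1) p w = w.1 := by
      rw [show (fun p : Amb => p.1) = Prod.fst from rfl, fderiv_fst]
      rfl
    have h2 := hlow p w hw
    have h3 := hbig p w hw
    have hz := StdL1_zz_nonneg p
    have hb := hw.ad.b0
    have hc := hw.ad.c0
    have h4 : 0 ≤ zz p / (p.1 ^ 2 + zz p + 1) * b4 p w := by positivity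
    have h5 : 0 ≤ zz p * b5 w := by positivity
    rw [h1]
    linarith only [h2, h3, h4, h5, sq_nonneg w.1, sq_nonneg w.1]
  · obtain ⟨M, hM1, hM2⟩ : ∃ M : Mat, ‖M‖ ≤ 1 ∧ ⟪M, hN p.1 - hN q.1⟫ = ‖hN p.1 - hN q.1‖ := by
      generalize hN p.1 - hN q.1 = x
      by_cases hx : x = 0
      · exact ⟨0, by simp, by simp [hx]⟩
      · have h1 := norm_ne_zero_iff.2 hx
        refine ⟨‖x‖⁻¹ • x, ?_, ?_⟩
        · rw [norm_smul, norm_inv, norm_norm, inv_mul_cancel₀ h1]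
        · rw [real_inner_smul_left, real_inner_self_eq_norm_sq]
          field_simp
    have hsq : ∀ y : Mat, ⟪M, y⟫ ^ 2 ≤ ‖y‖ ^ 2 := fun y => by
      have h1 : |⟪M, y⟫| ≤ ‖y‖ := (abs_real_inner_le_norm M y).trans
        (mul_le_of_le_one_left (norm_nonneg y) hM1)
      rw [← sq_abs]
      exact pow_le_pow_left₀ (abs_nonneg _) h1 2
    have h1 := abs_sub_le_dE hE (StdL1_contDiff M) hC0 (fun p w hw => by
      rw [StdL1_fderiv]
      refine (StdL1_alg hw.ad (hsq _) ((hsq _).trans hw.normN)).trans (le_trans ?_ (hbig p w hw))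
      have := hlow p w hw
      linarith only [this]) p q
    refine le_trans ?_ h1
    rw [← hM2, inner_sub_right]
    simp only [hN, StdL1_f, real_inner_smul_right]
    exact le_abs_self _

end

end Pool.Agent.Work.MP_a9fb1f_gt
end

-- merged part: Pool.Agent.Work.MP_a9fb1f_gt.StdL
section
/-! Distances of standard metrics. -/

set_option autoImplicit false

open scoped Manifold ContDiff Topology ENNReal Bundle RealInnerProductSpace
open Filter Set

namespace Pool.Agent.Work.MP_a9fb1f_gt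

noncomputable section

variable {E : Ed} {C c η : ℝ} {d : Mf → Mf → ℝ}

lemma StdL_cut {τ : ℝ} (hτ : 0 < τ) : ∃ (χ : ℝ → ℝ) (B : ℝ), ContDiff ℝ 1 χ ∧ χ τ = 1 ∧
    (∀ s, |χ s| ≤ 1) ∧ (∀ s, |deriv χ s| ≤ B) ∧
    ∀ s, (τ / 2 ≤ s ∧ s ≤ 3 * τ / 2) ∨ (χ s = 0 ∧ deriv χ s = 0) := by
  let b : ContDiffBump τ := ⟨τ / 4, τ / 2, by positivity, by linarith⟩
  have h1 : ContDiff ℝ 1 b := b.contDiff
  have h2 : Continuous (deriv b) := h1.continuous_deriv le_rfl
  obtain ⟨B, hB⟩ := h2.bounded_above_of_compact_support b.hasCompactSupport.deriv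
  refine ⟨b, B, h1, b.one_of_mem_closedBall (Metric.mem_closedBall_self b.rIn_pos.le),
    fun s => ?_, fun s => hB s, fun s => ?_⟩
  · rw [abs_of_nonneg b.nonneg]
    exact b.le_one
  · by_cases h : s ∈ tsupport b
    · left
      rw [b.tsupport_eq, Metric.mem_closedBall, Real.dist_eq, abs_le] at h
      have e : b.rOut = τ / 2 := rfl
      rw [e] at h
      constructor <;> linarith only [h, h.1, h.2]
    · right
      exact ⟨image_eq_zero_of_notMem_tsupport h,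
        Function.notMem_support.1 fun h' => h (support_deriv_subset h')⟩

lemma StdL_fderiv {χ : ℝ → ℝ} (hχ : ContDiff ℝ 1 χ) (M : Mat) (x w : Amb) :
    fderiv ℝ (fun y : Amb => χ (y.1 ^ 2 + zz y) * ⟪M, y.2.1⟫) x w =
      deriv χ (x.1 ^ 2 + zz x) * (2 * x.1 * w.1 + 2 * ze x w) * ⟪M, x.2.1⟫ +
        χ (x.1 ^ 2 + zz x) * ⟪M, w.2.1⟫ := by
  have a1 : HasFDerivAt (fun y : Amb => y.1) (ContinuousLinearMap.fst ℝ ℝ (Mat × Mat)) x :=
    hasFDerivAt_fst
  have a2 : HasFDerivAt (fun y : Amb => y.2.2) ((ContinuousLinearMap.snd ℝ Mat Mat).comp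
      (ContinuousLinearMap.snd ℝ ℝ (Mat × Mat))) x :=
    ((ContinuousLinearMap.snd ℝ Mat Mat).comp
      (ContinuousLinearMap.snd ℝ ℝ (Mat × Mat))).hasFDerivAt
  have a3 : HasFDerivAt (fun y : Amb => ⟪M, y.2.1⟫) ((innerSL ℝ M).comp
      ((ContinuousLinearMap.fst ℝ Mat Mat).comp (ContinuousLinearMap.snd ℝ ℝ (Mat × Mat)))) x :=
    ((innerSL ℝ M).comp ((ContinuousLinearMap.fst ℝ Mat Mat).comp
      (ContinuousLinearMap.snd ℝ ℝ (Mat × Mat)))).hasFDerivAt
  have a4 := (a1.pow 2).add a2.norm_sq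
  have a5 : HasDerivAt χ (deriv χ (x.1 ^ 2 + zz x)) (x.1 ^ 2 + zz x) :=
    (hχ.differentiable one_ne_zero _).hasDerivAt
  have a6 := (a5.comp_hasFDerivAt x a4).mul a3
  have e := a6.fderiv
  have e' : fderiv ℝ (fun y : Amb => χ (y.1 ^ 2 + zz y) * ⟪M, y.2.1⟫) x = _ := e
  rw [e']
  simp [ze, zz]
  ring

lemma StdL_contDiff {χ : ℝ → ℝ} (hχ : ContDiff ℝ 1 χ) (M : Mat) :
    ContDiff ℝ 1 fun y : Amb => χ (y.1 ^ 2 + zz y) * ⟪M, y.2.1⟫ := by
  have h1 : ContDiff ℝ 1 fun y : Amb => y.1 ^ 2 + zz y :=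
    (contDiff_fst.pow 2).add ((contDiff_snd.snd).norm_sq ℝ)
  exact (hχ.comp h1).mul (contDiff_const.inner ℝ contDiff_snd.fst)

lemma StdL_bound {τ B m C Q t z a ζ γ c c' u v : ℝ} (hτ : 0 < τ) (hz : 0 ≤ z)
    (h1 : τ / 2 ≤ t ^ 2 + z) (h2 : t ^ 2 + z ≤ 3 * τ / 2) (hγ : 0 ≤ γ) (hc : |c| ≤ 1)
    (hc' : |c'| ≤ B) (ha : a ^ 2 ≤ C * Q) (hζ : ζ ^ 2 ≤ (t ^ 2 + z + 1) * (C * Q))
    (hg : (t ^ 2 + z) * γ ≤ C * Q) (hu : u ^ 2 ≤ m ^ 2) (hv : v ^ 2 ≤ m ^ 2 * (2 * γ)) :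
    (c' * (2 * t * a + 2 * ζ) * u + c * v) ^ 2 ≤
      2 * m ^ 2 * C * (8 * B ^ 2 * (3 * τ + 1) + 4 / τ) * Q := by
  have hCQ : 0 ≤ C * Q := (sq_nonneg a).trans ha
  have b1 : c ^ 2 ≤ 1 := by
    rw [← sq_abs]
    exact pow_le_one₀ (abs_nonneg c) hc
  have b2 : c' ^ 2 ≤ B ^ 2 := by
    rw [← sq_abs]
    exact pow_le_pow_left₀ (abs_nonneg c') hc' 2
  have b3 : t ^ 2 * a ^ 2 ≤ 3 * τ / 2 * (C * Q) :=
    mul_le_mul (by linarith only [hz, h2]) ha (sq_nonneg a) (by positivity)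
  have b4 : ζ ^ 2 ≤ (3 * τ / 2 + 1) * (C * Q) :=
    hζ.trans (mul_le_mul_of_nonneg_right (by linarith only [h2]) hCQ)
  have b5 : (2 * t * a + 2 * ζ) ^ 2 ≤ 8 * (3 * τ + 1) * (C * Q) := by
    linarith only [b3, b4, sq_nonneg (t * a - ζ), sq_nonneg (t * a - ζ)]
  have b6 : 2 * γ ≤ 4 / τ * (C * Q) := by
    rw [div_mul_eq_mul_div, le_div_iff₀ hτ]
    linarith only [hg, h1, hγ, mul_le_mul_of_nonneg_right h1 hγ]
  have b7 : (c' * (2 * t * a + 2 * ζ) * u) ^ 2 ≤ B ^ 2 * (8 * (3 * τ + 1) * (C * Q)) * m ^ 2 := by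
    rw [mul_pow, mul_pow]
    exact mul_le_mul (mul_le_mul b2 b5 (sq_nonneg _) (sq_nonneg _)) hu (sq_nonneg _)
      (by positivity)
  have b8 : (c * v) ^ 2 ≤ 1 * (m ^ 2 * (4 / τ * (C * Q))) := by
    rw [mul_pow]
    exact mul_le_mul b1 (hv.trans (mul_le_mul_of_nonneg_left b6 (sq_nonneg m))) (sq_nonneg _)
      zero_le_one
  linarith only [b7, b8, sq_nonneg (c' * (2 * t * a + 2 * ζ) * u - c * v), sq_nonneg (c' * ((2 : ℝ) * t * a + (2 : ℝ) * ζ) * u - c * v)]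

theorem cone_sep (hC : 1 ≤ C) {p q : Mf} (ht : p.1.1 = q.1.1) (h0 : p.1.1 ≠ 0) (hp : p.1.2.2 = 0)
    (hq : q.1.2.2 = 0) (hne : p ≠ q) : ∃ Λ δ : ℝ, 1 ≤ Λ ∧ 0 < δ ∧ ∀ E : Ed, Good E →
      Std C 0 1 E → Cone C 0 (1 / Λ) Λ E → δ ≤ dE E p q := by
  have hτ : 0 < p.1.1 ^ 2 := by positivity
  generalize hτe : p.1.1 ^ 2 = τ at hτ
  obtain ⟨χ, B, c1, c2, c3, c4, c5⟩ := StdL_cut hτ
  have hM : p.1.2.1 - q.1.2.1 ≠ 0 := fun h =>
    hne (Subtype.ext (Prod.ext ht (Prod.ext (sub_eq_zero.1 h) (hp.trans hq.symm))))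
  generalize hMe : p.1.2.1 - q.1.2.1 = M at hM
  have hm : 0 < ‖M‖ := norm_pos_iff.2 hM
  have hK : 0 < 2 * ‖M‖ ^ 2 * C * (8 * B ^ 2 * (3 * τ + 1) + 4 / τ) := by positivity
  generalize hKe : 2 * ‖M‖ ^ 2 * C * (8 * B ^ 2 * (3 * τ + 1) + 4 / τ) = K at hK
  have hL : 0 < √K := Real.sqrt_pos.2 hK
  have hi : 0 < 2 / τ := by positivity
  have hΛ : 1 ≤ 1 + 2 / τ + 2 * τ := by linarith only [hτ, hi]
  have hΛ1 : (1 / (1 + 2 / τ + 2 * τ)) ^ 2 ≤ τ / 2 := by
    have h1 : 1 / (1 + 2 / τ + 2 * τ) ≤ 1 := by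
      rw [div_le_one (by linarith only [hτ, hi])]
      exact hΛ
    have h2 : 1 / (1 + 2 / τ + 2 * τ) ≤ τ / 2 := by
      rw [← one_div_div 2 τ]
      exact one_div_le_one_div_of_le hi (by linarith only [hτ])
    have h3 : 0 ≤ 1 / (1 + 2 / τ + 2 * τ) := by positivity
    linarith only [h2, h1, h3, mul_nonneg_of_nonpos_of_nonpos (Mathlib.Tactic.Linarith.sub_nonpos_of_le h1) (Mathlib.Tactic.Linarith.sub_nonpos_of_le h3)]
  have hΛ2 : 3 * τ / 2 ≤ (1 + 2 / τ + 2 * τ) ^ 2 := by linarith only [hτ, hi, mul_pos_of_neg_of_neg (Mathlib.Tactic.Linarith.sub_neg_of_lt hτ) (Mathlib.Tactic.Linarith.sub_neg_of_lt hτ), mul_pos_of_neg_of_neg (Mathlib.Tactic.Linarith.sub_neg_of_lt hτ) (Mathlib.Tactic.Linarith.sub_neg_of_lt hi), mul_pos_of_neg_of_neg (Mathlib.Tactic.Linarith.sub_neg_of_lt hi) (Mathlib.Tactic.Linarith.sub_neg_of_lt hi)]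
  refine ⟨1 + 2 / τ + 2 * τ, ‖M‖ ^ 2 / √K, hΛ, by positivity, fun E hE hS hc => ?_⟩
  have key := abs_sub_le_dE hE (StdL_contDiff c1 M) hL.le (fun x w hT => by
    rw [StdL_fderiv c1, Real.sq_sqrt hK.le]
    have hQ := hE.nonneg hT
    rcases c5 (x.1 ^ 2 + zz x) with ⟨h1, h2⟩ | ⟨h1, h2⟩
    · have hA := hT.ad
      have l1 := hS.low (x.1, zz x) w.1 _ _ _ hA
      have l2 := hc (x.1, zz x) w.1 _ _ _ hA (by simp only [sub_zero]; linarith only [hΛ1, h1])
        (by simp only [sub_zero]; linarith only [hΛ2, h2])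
      simp only [sub_zero, one_pow] at l1 l2
      have hz := hA.z0
      have hs : 0 < x.1 ^ 2 + zz x + 1 := by positivity
      have n1 : 0 ≤ zz x / (x.1 ^ 2 + zz x + 1) * b4 x w := mul_nonneg (by positivity) hA.b0
      have n2 : 0 ≤ zz x * b5 w := mul_nonneg hz hA.c0
      have n3 : zz x / (x.1 ^ 2 + zz x + 1) * b4 x w ≤ C * Gf E x w := by
        unfold Gf
        linarith only [l1, n2, sq_nonneg w.1]
      rw [div_mul_eq_mul_div, div_le_iff₀ hs] at n3
      rw [← hKe]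
      refine StdL_bound hτ hz h1 h2 hA.c0 (c3 _) (c4 _) (by unfold Gf; linarith only [l1, n1, n2])
        (by linarith only [n3, hA, hA.cs]) l2 ?_ ?_
      · have h3 := abs_real_inner_le_norm M x.2.1
        rw [show ‖x.2.1‖ = 1 from norm_proj ⟨x, hT.mem⟩, mul_one] at h3
        rw [← sq_abs]
        exact pow_le_pow_left₀ (abs_nonneg _) h3 2
      · have h3 := pow_le_pow_left₀ (abs_nonneg _) (abs_real_inner_le_norm M w.2.1) 2
        rw [sq_abs, mul_pow] at h3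
        unfold b5
        linarith only [h3]
    · rw [h1, h2]
      simp only [zero_mul, add_zero, ne_eq, OfNat.ofNat_ne_zero, not_false_eq_true, zero_pow]
      positivity) p q
  have e1 : p.1.1 ^ 2 + zz p.1 = τ := by simp [zz, hp, hτe]
  have e2 : q.1.1 ^ 2 + zz q.1 = τ := by simp [zz, hq, ← ht, hτe]
  simp only [e1, e2, c2, one_mul] at key
  rw [← inner_sub_right, hMe, real_inner_self_eq_norm_sq, abs_of_nonneg (sq_nonneg _)] at key
  rw [div_le_iff₀ hL]
  linarith only [key]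

lemma StdD.nonneg (h : StdD C d) (p q : Mf) : 0 ≤ d p q := by
  have h1 := h.tri p q p
  rw [h.self, h.comm q p] at h1
  linarith

lemma StdD.continuous (h : StdD C d) : Continuous fun x : Mf × Mf => d x.1 x.2 := by
  refine continuous_iff_continuousAt.2 fun x => ?_
  have hD := continuous_dE good_Eref
  have c1 : Continuous fun y : Mf × Mf => C * dE Eref y.1 x.1 + C * dE Eref y.2 x.2 :=
    (continuous_const.mul (hD.comp (f := fun y : Mf × Mf => (y.1, x.1))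
      (continuous_fst.prodMk continuous_const))).add
      (continuous_const.mul (hD.comp (f := fun y : Mf × Mf => (y.2, x.2))
        (continuous_snd.prodMk continuous_const)))
  have c2 : Tendsto (fun y : Mf × Mf => C * dE Eref y.1 x.1 + C * dE Eref y.2 x.2) (𝓝 x)
      (𝓝 0) := by
    have := c1.tendsto x
    simpa only [dE_self good_Eref, mul_zero, add_zero] using this
  refine tendsto_iff_dist_tendsto_zero.2 (squeeze_zero (fun _ => dist_nonneg) (fun y => ?_) c2)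
  have u1 := h.up y.1 x.1
  have u2 := h.up y.2 x.2
  have t1 := h.tri y.1 x.1 y.2
  have t2 := h.tri x.1 x.2 y.2
  have t3 := h.tri x.1 y.1 x.2
  have t4 := h.tri y.1 y.2 x.2
  rw [h.comm x.2 y.2] at t2
  rw [h.comm x.1 y.1] at t3
  rw [Real.dist_eq, abs_le]
  constructor <;> linarith only [u1, u2, t3, t4, t1, t2]

lemma StdL_norm_hN (p : Amb) :
    ‖hN p‖ = ‖p.2.2‖ ^ 3 / (p.1 ^ 2 + ‖p.2.2‖ ^ 2 + 1) := by
  unfold hN zz
  rw [norm_smul, Real.norm_eq_abs, abs_of_nonneg (by positivity)]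
  ring

lemma StdL_mono {t x y : ℝ} (hx : 0 ≤ x) (hxy : x < y) :
    x ^ 3 / (t ^ 2 + x ^ 2 + 1) < y ^ 3 / (t ^ 2 + y ^ 2 + 1) := by
  have hy : 0 < y := lt_of_le_of_lt hx hxy
  rw [div_lt_div_iff₀ (by positivity) (by positivity)]
  have h1 : x ^ 3 < y ^ 3 := pow_lt_pow_left₀ hxy hx (by norm_num)
  have h2 : (t ^ 2 + 1) * x ^ 3 < (t ^ 2 + 1) * y ^ 3 :=
    mul_lt_mul_of_pos_left h1 (by positivity)
  have h3 : x ^ 2 * y ^ 2 * x ≤ x ^ 2 * y ^ 2 * y :=
    mul_le_mul_of_nonneg_left hxy.le (by positivity)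
  linarith only [h2, h3]

lemma StdD.f1_eq (h : StdD C d) {p q : Mf} (h0 : d p q = 0) : f1 p = f1 q := by
  have h1 := h.lowt p q
  have h2 := h.lowN p q
  rw [h0, mul_zero] at h1 h2
  have ht : p.1.1 = q.1.1 := sub_eq_zero.1 (abs_nonpos_iff.1 h1)
  have hh : hN p.1 = hN q.1 := sub_eq_zero.1 (norm_le_zero_iff.1 h2)
  have hn := congrArg norm hh
  rw [StdL_norm_hN, StdL_norm_hN, ht] at hn
  have hρ : ‖p.1.2.2‖ = ‖q.1.2.2‖ := by
    rcases lt_trichotomy ‖p.1.2.2‖ ‖q.1.2.2‖ with h3 | h3 | h3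
    · exact absurd hn (StdL_mono (norm_nonneg _) h3).ne
    · exact h3
    · exact absurd hn (StdL_mono (norm_nonneg _) h3).ne'
  refine Prod.ext ht ?_
  show p.1.2.2 = q.1.2.2
  by_cases hz : ‖q.1.2.2‖ = 0
  · rw [norm_eq_zero.1 hz, norm_eq_zero.1 (hρ.trans hz)]
  · unfold hN zz at hh
    rw [ht, hρ] at hh
    exact smul_right_injective _ (by positivity) hh

lemma exists_compact (C : ℝ) (b : Mf) (a : ℝ) : ∃ K : Set Mf, IsCompact K ∧
    ∀ d : Mf → Mf → ℝ, StdD C d → ∀ q, d b q ≤ a → q ∈ K := by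
  refine ⟨_, isCompact_box (1 + 3 * (|b.1.1| + ‖hN b.1‖ + C * a)), fun d h q hq => ?_⟩
  have hC : 0 ≤ C := zero_le_one.trans h.C1
  have h0 : C * d b q ≤ C * a := mul_le_mul_of_nonneg_left hq hC
  have h00 : 0 ≤ C * d b q := mul_nonneg hC (h.nonneg b q)
  have h1 : |q.1.1| ≤ |b.1.1| + C * a := by
    have := abs_sub_abs_le_abs_sub q.1.1 b.1.1
    rw [abs_sub_comm] at this
    linarith only [h0, this, h, h.lowt b q]
  have h2 : ‖hN q.1‖ ≤ ‖hN b.1‖ + C * a := by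
    have := norm_sub_norm_le (hN q.1) (hN b.1)
    rw [norm_sub_rev] at this
    linarith [h.lowN b q]
  have n1 := abs_nonneg b.1.1
  have n2 := norm_nonneg (hN b.1)
  refine ⟨by linarith only [h0, h00, h1, n1, n2], ?_⟩
  by_contra hlt
  push Not at hlt
  rw [StdL_norm_hN] at h2
  generalize ‖q.1.2.2‖ = ρ at h2 hlt
  have r1 : 1 ≤ ρ := by linarith only [h0, h00, n1, n2, hlt]
  have r2 : q.1.1 ^ 2 ≤ ρ ^ 2 := by
    rw [← sq_abs]
    exact pow_le_pow_left₀ (abs_nonneg _) (by linarith only [h0, h00, h1, n1, n2, hlt]) 2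
  have r3 : ρ / 3 ≤ ρ ^ 3 / (q.1.1 ^ 2 + ρ ^ 2 + 1) := by
    rw [div_le_div_iff₀ (by norm_num) (by positivity)]
    have r4 : q.1.1 ^ 2 + ρ ^ 2 + 1 ≤ 3 * ρ ^ 2 := by linarith only [h0, h00, n1, n2, hlt, r2, mul_nonneg_of_nonpos_of_nonpos (Mathlib.Tactic.Linarith.sub_nonpos_of_le h0) (Mathlib.Tactic.Linarith.sub_nonpos_of_le h0), mul_nonneg_of_nonpos_of_nonpos (Mathlib.Tactic.Linarith.sub_nonpos_of_le h0) (Mathlib.Tactic.Linarith.sub_nonpos_of_le h00), mul_nonneg_of_nonpos_of_nonpos (Mathlib.Tactic.Linarith.sub_nonpos_of_le h0) (Mathlib.Tactic.Linarith.sub_nonpos_of_le n1), mul_nonneg_of_nonpos_of_nonpos (Mathlib.Tactic.Linarith.sub_nonpos_of_le h0) (Mathlib.Tactic.Linarith.sub_nonpos_of_le n2), mul_nonneg_of_nonpos_of_nonpos (Mathlib.Tactic.Linarith.sub_nonpos_of_le h0) (le_of_lt (Mathlib.Tactic.Linarith.sub_neg_of_lt hlt)), mul_nonneg_of_nonpos_of_nonpos (Mathlib.Tactic.Linarith.sub_nonpos_of_le h00) (Mathlib.Tactic.Linarith.sub_nonpos_of_le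 h00), mul_nonneg_of_nonpos_of_nonpos (Mathlib.Tactic.Linarith.sub_nonpos_of_le h00) (Mathlib.Tactic.Linarith.sub_nonpos_of_le n1), mul_nonneg_of_nonpos_of_nonpos (Mathlib.Tactic.Linarith.sub_nonpos_of_le h00) (Mathlib.Tactic.Linarith.sub_nonpos_of_le n2), mul_nonneg_of_nonpos_of_nonpos (Mathlib.Tactic.Linarith.sub_nonpos_of_le h00) (le_of_lt (Mathlib.Tactic.Linarith.sub_neg_of_lt hlt)), mul_nonneg_of_nonpos_of_nonpos (Mathlib.Tactic.Linarith.sub_nonpos_of_le n1) (Mathlib.Tactic.Linarith.sub_nonpos_of_le n1), mul_nonneg_of_nonpos_of_nonpos (Mathlib.Tactic.Linarith.sub_nonpos_of_le n1) (Mathlib.Tactic.Linarith.sub_nonpos_of_le n2), mul_nonneg_of_nonpos_of_nonpos (Mathlib.Tactic.Linarith.sub_nonpos_of_le n1) (le_of_lt (Mathlib.Tactic.Linarith.sub_neg_of_lt hlt)), mul_nonneg_of_nonpos_of_nonpos (Mathlib.Tactic.Linarith.sub_nonpos_of_le n2) (Mathlib.Tactic.Linarith.sub_nonpos_of_le n2), mul_nonneg_of_nonpos_of_nonpos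 (Mathlib.Tactic.Linarith.sub_nonpos_of_le n2) (le_of_lt (Mathlib.Tactic.Linarith.sub_neg_of_lt hlt)), mul_pos_of_neg_of_neg (Mathlib.Tactic.Linarith.sub_neg_of_lt hlt) (Mathlib.Tactic.Linarith.sub_neg_of_lt hlt)]
    linarith only [r4, r1, mul_le_mul_of_nonneg_left r4 (zero_le_one.trans r1)]
  linarith only [n1, h2, hlt, r3]

end

end Pool.Agent.Work.MP_a9fb1f_gt
end

-- merged part: Pool.Agent.Work.MP_a9fb1f_gt.Limit1
section
/-! Limits of standard distances. -/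

set_option autoImplicit false

open scoped Manifold ContDiff Topology ENNReal Bundle RealInnerProductSpace
open Filter Set

namespace Pool.Agent.Work.MP_a9fb1f_gt

noncomputable section

variable {C : ℝ}

lemma UConv.tendsto {d : ℕ → Mf → Mf → ℝ} {D : Mf → Mf → ℝ} (h : UConv d D) (p q : Mf) :
    Tendsto (fun k => d k p q) atTop (𝓝 (D p q)) := by
  rw [Metric.tendsto_nhds]
  intro ε hε
  filter_upwards [h {p, q} (Set.toFinite _).isCompact ε hε] with k hk
  rw [Real.dist_eq]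
  exact hk p (by simp) q (by simp)

lemma stdD_of_tendsto {d : ℕ → Mf → Mf → ℝ} {D : Mf → Mf → ℝ} (h : ∀ᶠ k in atTop, StdD C (d k))
    (hl : ∀ p q, Tendsto (fun k => d k p q) atTop (𝓝 (D p q))) : StdD C D := by
  refine ⟨h.exists.choose_spec.C1, fun p => ?_, fun p q => ?_, fun p q r => ?_, fun p q => ?_,
    fun p q => ?_, fun p q => ?_⟩
  · exact tendsto_nhds_unique (hl p p)
      (tendsto_const_nhds.congr' (h.mono fun k hk => (hk.self p).symm))
  · exact tendsto_nhds_unique (hl p q) ((hl q p).congr' (h.mono fun k hk => hk.comm q p))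
  · exact le_of_tendsto_of_tendsto (hl p r) ((hl p q).add (hl q r))
      (h.mono fun k hk => hk.tri p q r)
  · exact le_of_tendsto (hl p q) (h.mono fun k hk => hk.up p q)
  · exact ge_of_tendsto ((hl p q).const_mul C) (h.mono fun k hk => hk.lowt p q)
  · exact ge_of_tendsto ((hl p q).const_mul C) (h.mono fun k hk => hk.lowN p q)

lemma limit1_lip {d : Mf → Mf → ℝ} (h : StdD C d) (a b p q : Mf) :
    |d p q - d a b| ≤ C * dE Eref a p + C * dE Eref b q := by
  have h1 := h.tri p a q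
  have h2 := h.tri a b q
  have h3 := h.tri a p b
  have h4 := h.tri p q b
  have h5 := h.up a p
  have h6 := h.up b q
  have h7 := h.comm a p
  have h8 := h.comm b q
  rw [abs_le]
  constructor <;> linarith only [h3, h4, h5, h6, h8, h1, h2, h7]

lemma limit1_cont {X : Type} [TopologicalSpace X] {f : X → X → ℝ}
    (h : Continuous fun x : X × X => f x.1 x.2) (C : ℝ) (a : X) (ε : ℝ) :
    IsOpen {x : X | C * f a x < ε} :=
  isOpen_lt (continuous_const.mul (h.comp (Continuous.prodMk_right a))) continuous_const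

lemma limit1_open (C : ℝ) (a : Mf) (ε : ℝ) : IsOpen {x : Mf | C * dE Eref a x < ε} :=
  limit1_cont (continuous_dE good_Eref) C a ε

lemma limit1_mem (C : ℝ) (a : Mf) {ε : ℝ} (hε : 0 < ε) : a ∈ {x : Mf | C * dE Eref a x < ε} := by
  simp [dE_self good_Eref, hε]

lemma limit1_uconv {d : ℕ → Mf → Mf → ℝ} {D : Mf → Mf → ℝ} (h : ∀ k, StdD C (d k))
    (hl : ∀ p q, Tendsto (fun k => d k p q) atTop (𝓝 (D p q))) : UConv d D := by
  have hD := stdD_of_tendsto (Eventually.of_forall h) hl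
  intro K hK ε hε
  have h5 : 0 < ε / 5 := by positivity
  obtain ⟨t, ht⟩ := hK.elim_finite_subcover (fun a : Mf => {x : Mf | C * dE Eref a x < ε / 5})
    (fun a => limit1_open C a _) fun x _ => mem_iUnion.2 ⟨x, limit1_mem C x h5⟩
  have hev : ∀ᶠ k in atTop, ∀ a ∈ t, ∀ b ∈ t, |d k a b - D a b| < ε / 5 := by
    refine (eventually_all_finset t).2 fun a _ => (eventually_all_finset t).2 fun b _ => ?_
    simpa only [Real.dist_eq] using Metric.tendsto_nhds.1 (hl a b) _ h5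
  filter_upwards [hev] with k hk p hp q hq
  obtain ⟨a, ha, hpa⟩ := mem_iUnion₂.1 (ht hp)
  obtain ⟨b, hb, hqb⟩ := mem_iUnion₂.1 (ht hq)
  have h1 := abs_le.1 (limit1_lip (h k) a b p q)
  have h2 := abs_le.1 (limit1_lip hD a b p q)
  have h3 := abs_lt.1 (hk a ha b hb)
  simp only [mem_ofPred_eq] at hpa hqb
  rw [abs_lt]
  constructor <;> linarith only [hpa, hqb, h1, h2, h3, h1.1, h1.2, h2.1, h2.2, h3.1, h3.2]

theorem exists_limit {d : ℕ → Mf → Mf → ℝ} (h : ∀ k, StdD C (d k)) :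
    ∃ (φ : ℕ → ℕ) (D : Mf → Mf → ℝ), StrictMono φ ∧ StdD C D ∧ UConv (fun k => d (φ k)) D := by
  obtain ⟨s, hs, hd⟩ := TopologicalSpace.exists_countable_dense Mf
  have : Countable s := hs.to_subtype
  have hK : IsCompact (Set.pi univ fun x : s × s => Icc (0 : ℝ) (C * dE Eref x.1.1 x.2.1)) :=
    isCompact_univ_pi fun _ => isCompact_Icc
  obtain ⟨L, -, φ, hφ, hL⟩ := hK.tendsto_subseq (x := fun k (x : s × s) => d k x.1.1 x.2.1)
    fun k x _ => ⟨(h k).nonneg _ _, (h k).up _ _⟩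
  have hc : ∀ p q, CauchySeq fun k => d (φ k) p q := by
    intro p q
    rw [Metric.cauchySeq_iff]
    intro ε hε
    have h5 : 0 < ε / 5 := by positivity
    obtain ⟨a, ha, has⟩ := hd.inter_open_nonempty _ (limit1_open C p (ε / 5))
      ⟨p, limit1_mem C p h5⟩
    obtain ⟨b, hb, hbs⟩ := hd.inter_open_nonempty _ (limit1_open C q (ε / 5))
      ⟨q, limit1_mem C q h5⟩
    have hab : CauchySeq fun k => d (φ k) a b :=
      (tendsto_pi_nhds.1 hL (⟨a, has⟩, ⟨b, hbs⟩)).cauchySeq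
    obtain ⟨N, hN⟩ := Metric.cauchySeq_iff.1 hab _ h5
    refine ⟨N, fun m hm n hn => ?_⟩
    have h1 := abs_le.1 (limit1_lip (h (φ m)) p q a b)
    have h2 := abs_le.1 (limit1_lip (h (φ n)) p q a b)
    have h3 := hN m hm n hn
    rw [Real.dist_eq, abs_lt] at h3 ⊢
    simp only [mem_ofPred_eq] at ha hb
    constructor <;> linarith only [ha, hb, h1, h2, h3, h1.1, h1.2, h2.1, h2.2, h3.1, h3.2]
  choose D hD using fun p q => cauchySeq_tendsto_of_complete (hc p q)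
  exact ⟨φ, D, hφ, stdD_of_tendsto (Eventually.of_forall fun k => h (φ k)) hD,
    limit1_uconv (fun k => h (φ k)) hD⟩

end

end Pool.Agent.Work.MP_a9fb1f_gt
end

-- merged part: Pool.Agent.Work.MP_a9fb1f_gt.Limit
section
/-! Limits of standard distances. -/

set_option autoImplicit false

open scoped Manifold ContDiff Topology ENNReal Bundle RealInnerProductSpace
open Filter Set

namespace Pool.Agent.Work.MP_a9fb1f_gt

noncomputable section

variable {C : ℝ}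

/-- A copy of the manifold without topology. -/
def Limit_Syn : Type := Mf

lemma Limit_cont {D : Mf → Mf → ℝ} (h : StdD C D) {Y : Type} [MetricSpace Y] {pr : Mf → Y}
    (hd : ∀ p q, dist (pr p) (pr q) = D p q) : Continuous pr := by
  refine continuous_iff_continuousAt.2 fun p => ?_
  rw [ContinuousAt, tendsto_iff_dist_tendsto_zero]
  simp only [hd]
  have h1 : Continuous fun q => D q p := h.continuous.comp (Continuous.prodMk_left p)
  have := h1.tendsto p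
  rwa [h.self] at this

lemma Limit_proper {D : Mf → Mf → ℝ} (h : StdD C D) {Y : Type} [MetricSpace Y] {pr : Mf → Y}
    (hs : Function.Surjective pr) (hd : ∀ p q, dist (pr p) (pr q) = D p q) : ProperSpace Y := by
  refine ⟨fun y r => ?_⟩
  obtain ⟨b, rfl⟩ := hs y
  obtain ⟨K, hK, hK'⟩ := exists_compact C b r
  refine (hK.image (Limit_cont h hd)).of_isClosed_subset Metric.isClosed_closedBall fun z hz => ?_
  obtain ⟨q, rfl⟩ := hs z
  refine ⟨q, hK' D h q ?_, rfl⟩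
  rwa [Metric.mem_closedBall, dist_comm, hd] at hz

lemma Limit_closed {X Y : Type} [TopologicalSpace X] [MetricSpace Y] {f : X → Y}
    (hf : Continuous f) (hp : ∀ y, ∃ K : Set X, IsCompact K ∧ ∀ p, dist (f p) y < 1 → p ∈ K) :
    IsClosedMap f := by
  intro A hA
  refine isClosed_of_closure_subset fun y hy => ?_
  obtain ⟨K, hK, hK'⟩ := hp y
  have h1 : y ∈ closure (Metric.ball y 1 ∩ f '' A) :=
    Metric.isOpen_ball.inter_closure ⟨Metric.mem_ball_self one_pos, hy⟩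
  have h2 : Metric.ball y 1 ∩ f '' A ⊆ f '' (K ∩ A) := by
    rintro _ ⟨h3, p, hp, rfl⟩
    exact ⟨p, ⟨hK' p h3, hp⟩, rfl⟩
  have h3 := ((hK.inter_right hA).image hf).isClosed.closure_subset (closure_mono h2 h1)
  exact image_mono inter_subset_right h3

theorem exists_quot {D : Mf → Mf → ℝ} (h : StdD C D) (b : Mf) :
    ∃ (Y : PtSpace) (pr : Mf → Y.X), Function.Surjective pr ∧ pr b = Y.pt ∧
      ∀ p q, dist (pr p) (pr q) = D p q := by
  let _ : PseudoMetricSpace Limit_Syn :=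
    { dist := D
      dist_self := h.self
      dist_comm := h.comm
      dist_triangle := h.tri }
  let pr : Mf → SeparationQuotient Limit_Syn := SeparationQuotient.mk (X := Limit_Syn)
  have hs : Function.Surjective pr := SeparationQuotient.surjective_mk (X := Limit_Syn)
  have hd : ∀ p q, dist (pr p) (pr q) = D p q := fun _ _ => rfl
  have := Limit_proper h hs hd
  exact ⟨⟨SeparationQuotient Limit_Syn, pr b⟩, pr, hs, rfl, hd⟩

theorem pgh_of {d : ℕ → Mf → Mf → ℝ} {D : Mf → Mf → ℝ} (h : ∀ k, StdD C (d k)) (hD : StdD C D)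
    (hc : UConv d D) (b : Mf) {Z : ℕ → Type} {e : ∀ k, Z k → Z k → ℝ} (pk : ∀ k, Mf → Z k)
    (hs : ∀ k, Function.Surjective (pk k)) (he : ∀ k p q, e k (pk k p) (pk k q) = d k p q)
    {Y : PtSpace} {pr : Mf → Y.X} (hs' : Function.Surjective pr) (hb : pr b = Y.pt)
    (hd : ∀ p q, dist (pr p) (pr q) = D p q) : PGH Z e (fun k => pk k b) Y := by
  classical
  intro r ε hr hε
  obtain ⟨K, hK, hK'⟩ := exists_compact C b r
  filter_upwards [hc K hK ε hε] with k hk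
  let σ : Z k → Mf := fun a => if a = pk k b then b else Function.surjInv (hs k) a
  have hσ : ∀ a, pk k (σ a) = a := fun a => by
    by_cases ha : a = pk k b
    · simp only [σ, ha, if_true]
    · simp only [σ, if_neg ha, Function.surjInv_eq]
  have hσb : σ (pk k b) = b := if_pos rfl
  have hmem : ∀ a, e k (pk k b) a < r → σ a ∈ K := fun a ha => by
    rw [← hσ a, he] at ha
    exact hK' _ (h k) _ ha.le
  refine ⟨fun a => pr (σ a), by simp only [hσb, hb], fun a a' ha ha' => ?_, fun y hy => ?_⟩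
  · have h1 := hk _ (hmem a ha) _ (hmem a' ha')
    rw [← he, hσ, hσ, abs_sub_comm] at h1
    rwa [hd]
  · obtain ⟨q, rfl⟩ := hs' y
    rw [← hb, hd] at hy
    have hq : q ∈ K := hK' _ hD _ (by linarith only [hε, hy])
    have hbK : b ∈ K := hK' _ hD _ (by rw [hD.self]; exact hr.le)
    have h1 : e k (pk k b) (pk k q) < r := by
      rw [he]
      have := (abs_lt.1 (hk _ hbK _ hq)).2
      linarith
    refine ⟨pk k q, h1, ?_⟩
    have h2 := (abs_lt.1 (hk _ (hmem _ h1) _ hq)).1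
    rw [← he, hσ, he, (h k).self] at h2
    rw [hd]
    linarith

theorem homeo_of {D : Mf → Mf → ℝ} (h : StdD C D) {Y : Type} [MetricSpace Y] {pr : Mf → Y}
    (hs : Function.Surjective pr) (hd : ∀ p q, dist (pr p) (pr q) = D p q) {W : Type}
    [NormedAddCommGroup W] {f : Mf → W} (hf : Continuous f)
    (hp : ∀ a : ℝ, ∃ K : Set Mf, IsCompact K ∧ ∀ p, ‖f p‖ ≤ a → p ∈ K)
    (he : ∀ p q, D p q = 0 ↔ f p = f q) : Nonempty (Y ≃ₜ range f) := by
  have hc := Limit_cont h hd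
  have q1 : Topology.IsQuotientMap pr := by
    refine (Limit_closed hc fun y => ?_).isQuotientMap hc hs
    obtain ⟨b, rfl⟩ := hs y
    obtain ⟨K, hK, hK'⟩ := exists_compact C b 1
    exact ⟨K, hK, fun p hp => hK' D h p (by rw [← hd, dist_comm]; exact hp.le)⟩
  have hc2 : Continuous (rangeFactorization f) := hf.rangeFactorization
  have q2 : Topology.IsQuotientMap (rangeFactorization f) := by
    refine (Limit_closed hc2 fun y => ?_).isQuotientMap hc2 rangeFactorization_surjective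
    obtain ⟨K, hK, hK'⟩ := hp (‖y.1‖ + 1)
    refine ⟨K, hK, fun p hp => hK' p ?_⟩
    have h1 : dist (f p) y.1 < 1 := hp
    have h2 := norm_le_norm_add_norm_sub' (f p) y.1
    rw [dist_eq_norm] at h1
    linarith
  have key : ∀ p q, pr p = pr q ↔ rangeFactorization f p = rangeFactorization f q := by
    intro p q
    rw [← dist_eq_zero, hd, he, Subtype.ext_iff]
    rfl
  let g : Y → range f := fun y => rangeFactorization f (Function.surjInv hs y)
  let g' : range f → Y := fun w => pr (Function.surjInv rangeFactorization_surjective w)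
  have hg : ∀ p, g (pr p) = rangeFactorization f p := fun p =>
    (key _ _).1 (Function.surjInv_eq hs _)
  have hg' : ∀ p, g' (rangeFactorization f p) = pr p := fun p =>
    (key _ _).2 (Function.surjInv_eq rangeFactorization_surjective _)
  refine ⟨{ toFun := g
            invFun := g'
            left_inv := fun y => ?_
            right_inv := fun w => ?_
            continuous_toFun := q1.continuous_iff.2 (hc2.congr fun p => (hg p).symm)
            continuous_invFun := q2.continuous_iff.2 (hc.congr fun p => (hg' p).symm) }⟩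
  · obtain ⟨p, rfl⟩ := hs y
    rw [hg, hg']
  · obtain ⟨p, rfl⟩ := rangeFactorization_surjective w
    rw [hg', hg]

end

end Pool.Agent.Work.MP_a9fb1f_gt
end

-- merged part: Pool.Agent.Work.MP_a9fb1f_gt.Vol
section
/-! The volume bound. -/

set_option autoImplicit false

open scoped Manifold ContDiff Topology ENNReal Bundle RealInnerProductSpace
open Filter Set

namespace Pool.Agent.Work.MP_a9fb1f_gt

noncomputable section

def Vol_x (u : Eu 5) : V3 := !₂[u 1, u 2, u 3]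

def Vol_y (u : Eu 5) : V3 := !₂[-(u 2 + u 3 * (u 4 / u 1)) / u 1, 1, u 4 / u 1]

def Vol_H (u : Eu 5) : Mat := outer (Vol_y u) (Vol_x u)

def Vol_s (w : Eu 5 × ℝ) : Amb :=
  (w.1 0, (‖Vol_x w.1‖ ^ 2)⁻¹ • outer (Vol_x w.1) (Vol_x w.1), w.2 • Vol_H w.1)

def Vol_F (p : Amb) : Eu 5 := !₂[p.1, hN p (1, 0), hN p (1, 1), hN p (1, 2), hN p (2, 0)]

def Vol_g (l : ℝ) (u : Eu 5) : ℝ :=
  l ^ 3 * ‖Vol_H u‖ ^ 2 - (u 0 ^ 2 + l ^ 2 * ‖Vol_H u‖ ^ 2 + 1)

def Vol_u : Eu 5 := !₂[0, 1 / 2, 0, 0, 0]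

lemma Vol_smul_right (r : ℝ) (x y : V3) : outer x (r • y) = r • outer x y := by
  ext ij
  simp [outer, mul_left_comm]

lemma Vol_x_ne {u : Eu 5} (h : u 1 ≠ 0) : ‖Vol_x u‖ ≠ 0 := fun k => h <| by
  have := congrArg (fun v : V3 => v 0) (norm_eq_zero.mp k)
  simpa [Vol_x] using this

lemma Vol_mem {w : Eu 5 × ℝ} (h : w.1 1 ≠ 0) : Vol_s w ∈ MS := by
  have h0 := Vol_x_ne h
  refine ⟨‖Vol_x w.1‖⁻¹ • Vol_x w.1, (w.2 * ‖Vol_x w.1‖) • Vol_y w.1, ?_, ?_, ?_, ?_⟩
  · rw [norm_smul, norm_inv, norm_norm, inv_mul_cancel₀ h0]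
  · have : ⟪Vol_y w.1, Vol_x w.1⟫ = 0 := by
      simp only [Vol_x, Vol_y, PiLp.inner_apply, Fin.sum_univ_three]
      simp
      field_simp
      ring
    rw [real_inner_smul_left, real_inner_smul_right, this, mul_zero, mul_zero]
  · simp only [Vol_s, outer_smul_left, Vol_smul_right, smul_smul, sq, mul_inv]
  · simp only [Vol_s, Vol_H, outer_smul_left, Vol_smul_right, smul_smul]
    congr 1
    field_simp

lemma Vol_cx : Continuous Vol_x := by
  unfold Vol_x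
  refine (PiLp.continuous_toLp 2 _).comp (continuous_pi fun i => ?_)
  fin_cases i <;> simp <;> fun_prop

lemma Vol_cy {u : Eu 5} (h : u 1 ≠ 0) : ContinuousAt Vol_y u := by
  unfold Vol_y
  refine (PiLp.continuous_toLp 2 _).continuousAt.comp (continuousAt_pi.mpr fun i => ?_)
  fin_cases i <;> simp <;> fun_prop (disch := exact h)

lemma Vol_cH {u : Eu 5} (h : u 1 ≠ 0) : ContinuousAt Vol_H u :=
  contDiff_outer.continuous.continuousAt.comp (f := fun u => (Vol_y u, Vol_x u))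
    ((Vol_cy h).prodMk Vol_cx.continuousAt)

lemma Vol_cs {w : Eu 5 × ℝ} (h : w.1 1 ≠ 0) : ContinuousAt Vol_s w := by
  have h1 : Continuous fun w : Eu 5 × ℝ => Vol_x w.1 := Vol_cx.comp continuous_fst
  have h2 : Continuous fun w : Eu 5 × ℝ => outer (Vol_x w.1) (Vol_x w.1) :=
    contDiff_outer.continuous.comp (h1.prodMk h1)
  have h3 : ContinuousAt (fun w : Eu 5 × ℝ => Vol_H w.1) w :=
    (Vol_cH h).comp (f := fun w : Eu 5 × ℝ => w.1) continuousAt_fst
  exact ContinuousAt.prodMk (by fun_prop) (ContinuousAt.prodMk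
    (((h1.norm.pow 2).continuousAt.inv₀ (pow_ne_zero 2 (Vol_x_ne h))).smul h2.continuousAt)
    (continuousAt_snd.smul h3))

lemma Vol_cg (l : ℝ) {u : Eu 5} (h : u 1 ≠ 0) : ContinuousAt (Vol_g l) u := by
  have := Vol_cH h
  unfold Vol_g
  fun_prop

lemma Vol_g0 (l : ℝ) : Vol_g l Vol_u = (l - 2) * (((l + 1 / 2) ^ 2 + 7 / 4) / 4) := by
  have : ‖Vol_H Vol_u‖ ^ 2 = 1 / 4 := by
    rw [Vol_H, norm_outer, mul_pow, EuclideanSpace.norm_sq_eq, EuclideanSpace.norm_sq_eq]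
    simp [Vol_x, Vol_y, Vol_u, Fin.sum_univ_three]
    norm_num
  rw [Vol_g, this]
  simp [Vol_u]
  ring

lemma Vol_F_s {u : Eu 5} {l : ℝ} (h : u 1 ≠ 0) (hg : Vol_g l u = 0) : Vol_F (Vol_s (u, l)) = u := by
  have e : hN (Vol_s (u, l)) = Vol_H u := by
    have z : zz (Vol_s (u, l)) = l ^ 2 * ‖Vol_H u‖ ^ 2 := by
      simp only [zz, Vol_s, norm_smul, mul_pow, Real.norm_eq_abs, sq_abs]
    have p : u 0 ^ 2 + l ^ 2 * ‖Vol_H u‖ ^ 2 + 1 ≠ 0 := by positivity
    rw [hN, z]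
    simp only [Vol_s, smul_smul]
    rw [div_mul_eq_mul_div, show l ^ 2 * ‖Vol_H u‖ ^ 2 * l = u 0 ^ 2 + l ^ 2 * ‖Vol_H u‖ ^ 2 + 1 by
      rw [Vol_g] at hg; linarith only [hg], div_self p, one_smul]
  ext i
  rw [Vol_F, e]
  fin_cases i <;> simp [Vol_s, Vol_H, outer, Vol_x, Vol_y, h]

lemma Vol_ball {δ : ℝ} (hδ : 0 < δ) : ∃ (b : Mf) (r : ℝ), 0 < r ∧ ∀ u ∈ Metric.ball Vol_u r,
    ∃ p : Mf, dE Eref b p < δ ∧ Vol_F p.1 = u := by
  have h0 : Vol_u 1 ≠ 0 := by simp [Vol_u]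
  obtain ⟨b, hb⟩ : ∃ b : Mf, b.1 = Vol_s (Vol_u, 2) := ⟨⟨_, Vol_mem (w := (Vol_u, 2)) h0⟩, rfl⟩
  refine ⟨b, ?_⟩
  have hc : Continuous fun p : Mf => dE Eref b p :=
    (continuous_dE good_Eref).comp (f := fun p : Mf => (b, p)) (continuous_const.prodMk continuous_id)
  obtain ⟨O, hO, e⟩ := isOpen_induced_iff.mp (isOpen_lt hc (continuous_const (y := δ)))
  have e' : ∀ p : Mf, p.1 ∈ O ↔ dE Eref b p < δ := fun p => Set.ext_iff.mp e p
  have hbO : Vol_s (Vol_u, 2) ∈ O := by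
    rw [← hb, e', dE_self good_Eref]; exact hδ
  obtain ⟨ε, ε0, hε⟩ := Metric.eventually_nhds_iff.mp
    ((Vol_cs (w := (Vol_u, 2)) h0).eventually (hO.mem_nhds hbO))
  have n1 : ∀ᶠ u in 𝓝 Vol_u, u 1 ≠ 0 :=
    (show ContinuousAt (fun u : Eu 5 => u 1) Vol_u by fun_prop).eventually_ne h0
  have n2 := (Vol_cg (2 - ε / 2) h0).eventually_lt continuousAt_const (show _ < (0 : ℝ) by
    rw [Vol_g0]; exact mul_neg_of_neg_of_pos (by linarith only [ε0]) (by positivity))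
  have n3 := continuousAt_const.eventually_lt (Vol_cg (2 + ε / 2) h0) (show (0 : ℝ) < _ by
    rw [Vol_g0]; exact mul_pos (by linarith) (by positivity))
  obtain ⟨r, r0, hr⟩ := Metric.eventually_nhds_iff.mp
    (n1.and (n2.and (n3.and (Metric.ball_mem_nhds Vol_u ε0))))
  refine ⟨r, r0, fun u hu => ?_⟩
  obtain ⟨a1, a2, a3, a4⟩ := hr hu
  obtain ⟨l, hl, hg⟩ := intermediate_value_Icc (show 2 - ε / 2 ≤ 2 + ε / 2 by linarith only [ε0])
    (f := fun l => Vol_g l u) (by unfold Vol_g; fun_prop) ⟨a2.le, a3.le⟩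
  obtain ⟨p, hp⟩ : ∃ p : Mf, p.1 = Vol_s (u, l) := ⟨⟨_, Vol_mem (w := (u, l)) a1⟩, rfl⟩
  refine ⟨p, (e' p).mp ?_, hp ▸ Vol_F_s a1 hg⟩
  rw [hp]
  refine hε (y := (u, l)) ?_
  rw [Prod.dist_eq, max_lt_iff, Real.dist_eq, abs_lt]
  exact ⟨a4, by linarith only [ε0, hl, hl.1], by linarith only [ε0, hl, hl.2]⟩

lemma Vol_lip {C : ℝ} {d : Mf → Mf → ℝ} (h : StdD C d) (p q : Mf) :
    dist (Vol_F p.1) (Vol_F q.1) ≤ 3 * C * d p q := by
  have h0 : 0 ≤ C * d p q := (abs_nonneg _).trans (h.lowt p q)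
  have h1 : ∀ ij, |hN p.1 ij - hN q.1 ij| ≤ C * d p q := fun ij =>
    (PiLp.norm_apply_le (hN p.1 - hN q.1) ij).trans (h.lowN p q)
  have h2 : ∀ i, dist (Vol_F p.1 i) (Vol_F q.1 i) ^ 2 ≤ (C * d p q) ^ 2 := fun i => by
    refine pow_le_pow_left₀ dist_nonneg ?_ 2
    fin_cases i
    · exact h.lowt p q
    all_goals exact h1 _
  rw [EuclideanSpace.dist_eq, Real.sqrt_le_iff, Fin.sum_univ_five]
  refine ⟨by linarith, ?_⟩
  linarith only [h2, h2 0, h2 1, h2 2, h2 3, h2 4, sq_nonneg (C * d p q)]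

theorem exists_vol {C : ℝ} (hC : 1 ≤ C) : ∃ (b : Mf) (v : ℝ), 0 < v ∧ ∀ E : Ed, Good E →
    Std C 0 1 E → ∀ (N : RiemMfd 5) (pr : Mf → N.M), Function.Surjective pr →
      (∀ p q, dist (pr p) (pr q) = dE E p q) →
        ENNReal.ofReal v < N.vol (Metric.ball (pr b) 1) := by
  have C0 : 0 < 8 * C := by linarith
  obtain ⟨b, r, r0, hr⟩ := Vol_ball (inv_pos.mpr C0)
  obtain ⟨L, hL⟩ : ∃ L : NNReal, (L : ℝ) = 3 * (8 * C) := ⟨⟨3 * (8 * C), by linarith⟩, rfl⟩
  have L0 : (0 : ℝ) < L := by linarith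
  have m0 := Metric.measure_ball_pos MeasureTheory.volume Vol_u r0
  have m1 := MeasureTheory.measure_ball_lt_top (μ := MeasureTheory.volume) (x := Vol_u) (r := r)
  have m2 := ENNReal.toReal_pos m0.ne' m1.ne
  refine ⟨b, (MeasureTheory.volume (Metric.ball Vol_u r)).toReal / 2 / L ^ 5, by positivity,
    fun E hE hS N pr hs hd => ?_⟩
  have h := stdD_dE hE hC hS
  let _ : MeasurableSpace N.M := borel N.M
  have _ : BorelSpace N.M := ⟨rfl⟩
  have lip : LipschitzWith L fun m : N.M => Vol_F (Function.surjInv hs m).1 :=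
    LipschitzWith.of_dist_le_mul fun m m' => by
      refine (Vol_lip h _ _).trans (le_of_eq ?_)
      rw [← hd, Function.surjInv_eq hs, Function.surjInv_eq hs, hL]
  have sub : Metric.ball Vol_u r ⊆
      (fun m : N.M => Vol_F (Function.surjInv hs m).1) '' Metric.ball (pr b) 1 := fun u hu => by
    obtain ⟨p, p1, p2⟩ := hr u hu
    refine ⟨pr p, ?_, ?_⟩
    · rw [Metric.mem_ball', hd]
      exact (h.up b p).trans_lt ((mul_lt_mul_of_pos_left p1 C0).trans_eq (mul_inv_cancel₀ C0.ne'))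
    · have := Vol_lip h (Function.surjInv hs (pr p)) p
      rw [← hd, Function.surjInv_eq hs, dist_self, mul_zero] at this
      rw [← p2]; exact dist_le_zero.mp this
  have key : MeasureTheory.volume (Metric.ball Vol_u r) ≤
      (L : ℝ≥0∞) ^ 5 * N.vol (Metric.ball (pr b) 1) := by
    have a := lip.hausdorffMeasure_image_le (d := (5 : ℕ)) (Nat.cast_nonneg 5) (Metric.ball (pr b) 1)
    rw [ENNReal.rpow_natCast] at a
    refine (MeasureTheory.measure_mono sub).trans ?_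
    rw [← EuclideanSpace.euclideanHausdorffMeasure_eq_volume, RiemMfd.vol,
      MeasureTheory.Measure.euclideanHausdorffMeasure_def,
      MeasureTheory.Measure.euclideanHausdorffMeasure_def, MeasureTheory.Measure.smul_apply,
      MeasureTheory.Measure.smul_apply, ENNReal.smul_def, ENNReal.smul_def, smul_eq_mul,
      smul_eq_mul, mul_left_comm]
    exact mul_le_mul_right a _
  by_contra hn
  have a := key.trans (mul_le_mul_right (not_lt.mp hn) _)
  rw [← ENNReal.ofReal_coe_nnreal, ← ENNReal.ofReal_pow L0.le, ← ENNReal.ofReal_mul (by positivity),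
    mul_div_cancel₀ _ (by positivity), ← ENNReal.ofReal_toReal m1.ne,
    ENNReal.ofReal_le_ofReal_iff (by positivity), ENNReal.toReal_ofReal m2.le] at a
  linarith only [m2, a]

end

end Pool.Agent.Work.MP_a9fb1f_gt
end

-- merged part: Pool.Agent.Work.MP_a9fb1f_gt.Riem
section
/-! The Riemannian manifold attached to the five coefficients. -/

set_option autoImplicit false

open scoped Manifold ContDiff Topology ENNReal Bundle RealInnerProductSpace
open Filter Set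

namespace Pool.Agent.Work.MP_a9fb1f_gt

noncomputable section

variable {E : Ed}

@[reducible] def gEMetric (hE : Good E) : EMetricSpace Mf :=
  letI := gbundle hE
  haveI : IsContinuousRiemannianBundle (Eu 5) fun p : Mf => TangentSpace 𝓘(ℝ, Eu 5) p :=
    ⟨ginner E, (gmet hE).contMDiff.continuous, fun _ _ _ => rfl⟩
  EMetricSpace.ofRiemannianMetric 𝓘(ℝ, Eu 5) Mf

lemma gEMetric_edist (hE : Good E) (p q : Mf) :
    @edist Mf (gEMetric hE).toEDist p q = eD E p q := riemannianEDist_eq hE p q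

@[reducible] def gMetric (hE : Good E) : MetricSpace Mf :=
  @EMetricSpace.toMetricSpace Mf (gEMetric hE) fun p q => by
    rw [gEMetric_edist]
    exact eD_ne_top hE p q

lemma gMetric_dist (hE : Good E) (p q : Mf) : @dist Mf (gMetric hE).toDist p q = dE E p q :=
  congrArg ENNReal.toReal (gEMetric_edist hE p q)

def mkRiem (hE : Good E) (hc : @CompleteSpace Mf (gMetric hE).toUniformSpace) : RiemMfd 5 :=
  @RiemMfd.mk 5 Mf (gMetric hE) chartedMf manifoldMf (gbundle hE)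
    (by let := gbundle hE; exact ⟨ginner E, (gmet hE).contMDiff, fun _ _ _ => rfl⟩)
    (@IsRiemannianManifold.mk _ _ _ _ _ _ _ (_) (_) (_) (_) fun _ _ => rfl) hc

theorem exists_riem (hE : Good E) (hA : ∀ t ρ, 0 < ρ → Adm E t ρ)
    (hp : ∀ (p : Mf) (a : ℝ), ∃ K : Set Mf, IsCompact K ∧ ∀ q, dE E p q ≤ a → q ∈ K) :
    ∃ (N : RiemMfd 5) (pr : Mf → N.M), Function.Surjective pr ∧
      (∀ p q, dist (pr p) (pr q) = dE E p q) ∧ N.RicciGE (-((5 : ℕ) - 1 : ℝ)) := by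
  have hc : @CompleteSpace Mf (gMetric hE).toUniformSpace := by
    let m := gMetric hE
    have hP : @ProperSpace Mf m.toPseudoMetricSpace := by
      refine @ProperSpace.mk Mf m.toPseudoMetricSpace fun p a => ?_
      obtain ⟨K, hK, h⟩ := hp p a
      refine hK.of_isClosed_subset (@Metric.isClosed_closedBall Mf m.toPseudoMetricSpace p a)
        fun q hq => h q ?_
      rw [dE_comm hE, ← gMetric_dist hE]
      exact hq
    exact @complete_of_proper Mf m.toPseudoMetricSpace hP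
  refine ⟨mkRiem hE hc, id, Function.surjective_id, gMetric_dist hE, fun x v => ?_⟩
  have e : (mkRiem hE hc).coef x = gch E (idx x) := by
    funext y i j
    have h1 := (mfderiv_val _ _).symm.trans (mfderiv_val_symm (idx x) y (EuclideanSpace.single i 1))
    have h2 := (mfderiv_val _ _).symm.trans (mfderiv_val_symm (idx x) y (EuclideanSpace.single j 1))
    unfold gch
    rw [← h1, ← h2]
    rfl
  rw [e]
  have h1 := ricQ_gch_nonneg hE hA (idx x) (chartAt (Eu 5) x x) (WithLp.toLp 2 v)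
  have h2 : 0 ≤ bil (gch E (idx x) (chartAt (Eu 5) x x)) (WithLp.toLp 2 v) (WithLp.toLp 2 v) := by
    rw [bil_gch, GA_self]
    exact hE.nonneg (tan_of_hasFDerivAt (Eventually.of_forall (iota_mem _))
      (((contDiff_iota _).differentiable (by simp)).differentiableAt.hasFDerivAt) _)
  refine le_trans (mul_nonpos_of_nonpos_of_nonneg (by norm_num) h2) h1

end

end Pool.Agent.Work.MP_a9fb1f_gt
end
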