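import Pool.Agent.Work.MP_a9fb1f_gt.Params
import Pool.Agent.Work.MP_a9fb1f_gt.BlockLB

/-! The inner transition zones. -/

set_option autoImplicit false

open scoped Manifold ContDiff Topology ENNReal Bundle RealInnerProductSpace
open Filter Set

namespace Pool.Agent.Work.MP_a9fb1f_gt

noncomputable section

lemma ZoneIn_cJ {f : ℝ → ℝ} {t ρ r a b c : ℝ} (hf : Has2 f r a b c) :
    cJ f t ρ r = (rJ t ρ r).comp a b c := by
  rw [cJ, hf.v, hf.d, hf.dd]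

lemma ZoneIn_cJ_cst {f : ℝ → ℝ} {t ρ r a : ℝ} (hf : Has2 f r a 0 0) :
    cJ f t ρ r = Jet.cst a := by
  rw [ZoneIn_cJ hf, comp_cst]

lemma ZoneIn_one_sub {f : ℝ → ℝ} {r a b c : ℝ} (hf : Has2 f r a b c) :
    Has2 (fun y => 1 - f y) r (1 - a) (-b) (-c) := by
  simpa only [zero_sub] using (has2_cst 1 r).sub hf

lemma ZoneIn_low {a b r : ℝ} (ha : 0 < a) (h : r ≤ b * a) :
    Has2 (fun y => 1 - cut a b y) r 1 0 0 := by
  simpa only [sub_zero, neg_zero] using ZoneIn_one_sub (has2_cut_low ha h)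

lemma ZoneIn_high {a b r : ℝ} (ha : 0 < a) (h : (b + 1) * a ≤ r) :
    Has2 (fun y => 1 - cut a b y) r 0 0 0 := by
  simpa only [sub_self, neg_zero] using ZoneIn_one_sub (has2_cut_high ha h)

lemma ZoneIn_le {t ρ r : ℝ} (hp : Pt t ρ r) : ρ ≤ r := by
  refine (abs_le_of_sq_le_sq' ?_ hp.rpos.le).2
  rw [hp.sq]
  linarith only [sq_nonneg t, sq_nonneg t]

lemma ZoneIn_vr {t ρ r S : ℝ} (hp : Pt t ρ r) (hS : 0 < S) (hSr : S ≤ r) :
    0 < vr S ρ ∧ ρ ≤ vr S ρ ∧ vr S ρ ≤ 2 * r := by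
  have h := le_vr hS hp.pos
  exact ⟨vr_pos hp.pos, h.1, by linarith [h.2.2, ZoneIn_le hp]⟩

lemma ZoneIn_sm_cut {t ρ r x a b : ℝ} (hp : Pt t ρ r) (hx : 0 < x) (hxr : x ≤ 2 * r) (ha : 0 < a)
    (hb : 0 ≤ b) : Sm (cJ (fun y => 1 - cut a b y) t ρ r) (4 * ((b + 1) ^ 2 * Kst) * x / r) ρ x := by
  rw [ZoneIn_cJ (ZoneIn_one_sub (has2_cut a b r))]
  have h := deriv_cut_le ha hb hp.rpos.le
  refine sm_radial hp hx hxr ?_ ?_
  · rw [abs_neg]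
    refine h.1.trans (mul_le_mul_of_nonneg_right ?_ (zero_le_one.trans one_le_Kst))
    linarith only [hb, mul_nonneg_of_nonpos_of_nonpos (Mathlib.Tactic.Linarith.sub_nonpos_of_le hb) (Mathlib.Tactic.Linarith.sub_nonpos_of_le hb)]
  · rw [abs_neg]
    exact h.2

namespace Par.OK

variable {P : Par} (h : P.OK) {t ρ r : ℝ}
include h

lemma ZoneIn_num : 0 < P.i.m * P.I ∧ P.i.m * P.I ≤ P.γ ∧ Kst * P.γ ≤ 1 / 10 ^ 12 ∧
    Kst * (P.i.m * P.I) ≤ P.γ / 10 ^ 12 ∧ Kst * P.i.δ ≤ P.i.m * P.I / 10 ^ 12 ∧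
    Kst * P.ε ≤ P.i.m * P.I / 10 ^ 12 := by
  have hι := h.ι0
  have hι1 : P.ι ≤ 1 := h.ι_le.trans (by norm_num)
  have hδ := h.δ0
  have hK := h.Kι
  have hK0 : 0 ≤ Kst := zero_le_one.trans one_le_Kst
  have hγ := h.γ_pos
  have hu : P.i.m * P.I = P.ι * P.γ := by
    rw [h.mi, Par.γ]
    ring
  have hu0 : 0 < P.i.m * P.I := by
    rw [hu]
    positivity
  have hd : P.i.δ = P.ι * (P.i.m * P.I) := by
    rw [h.δi, h.mi]
    ring
  have hγι : P.γ ≤ P.ι := h.γ_le.trans (pow_le_of_le_one hι.le hι1 (by norm_num))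
  have hε : P.ε ≤ P.ι * (P.i.m * P.I) := by
    refine h.ε_le.trans ?_
    rw [h.mi]
    have e : P.ι ^ 7 ≤ P.ι ^ 4 := pow_le_pow_of_le_one hι.le hι1 (by norm_num)
    calc P.ι ^ 7 * P.o.δ ≤ P.ι ^ 4 * P.o.δ := mul_le_mul_of_nonneg_right e hδ.le
      _ = _ := by ring
  have k1 : Kst * (P.ι * (P.i.m * P.I)) ≤ P.i.m * P.I / 10 ^ 12 := by
    have := mul_le_mul_of_nonneg_right hK hu0.le
    linarith only [this]
  refine ⟨hu0, ?_, (mul_le_mul_of_nonneg_left hγι hK0).trans hK, ?_, ?_, ?_⟩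
  · rw [hu]
    exact mul_le_of_le_one_left hγ.le hι1
  · rw [hu]
    have := mul_le_mul_of_nonneg_right hK hγ.le
    linarith only [this]
  · rw [hd]
    exact k1
  · exact (mul_le_mul_of_nonneg_left hε hK0).trans k1

lemma ZoneIn_outer (h2 : r ≤ 4 * P.I) :
    cJ P.c2 t ρ r = Jet.cst 0 ∧ cJ P.co t ρ r = Jet.cst 0 ∧ r ≤ P.R := by
  have a1 := h.I_pos
  have a2 := h.I_le
  have a3 := h.R2_le
  exact ⟨ZoneIn_cJ_cst (has2_cut_low h.R_pos (by linarith only [h2, a1, a2, a3])),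
    ZoneIn_cJ_cst (has2_cut_low h.R2_pos (by linarith)), by linarith⟩

theorem zone3 (hp : Pt t ρ r) (h1 : 3 * P.I ≤ r) (h2 : r ≤ 4 * P.I) :
    PertOK (cJ P.Sf t ρ r) (P.jY t ρ r) (P.jW t ρ r) ρ := by
  obtain ⟨n1, n2, n3, n4, n5, n6⟩ := h.ZoneIn_num
  obtain ⟨o1, o2, o3⟩ := h.ZoneIn_outer (t := t) (ρ := ρ) h2
  have hI := h.I_pos
  have hr := hp.rpos
  have hρ := hp.pos
  have hK := one_le_Kst
  have hγ := h.γ_pos
  have hε := h.ε0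
  have hm := h.ok_i.m0
  have hγ1 : P.γ ≤ 1 / 10 ^ 12 := (le_mul_of_one_le_left hγ.le hK).trans n3
  have hε1 : P.ε ≤ 1 / 10 ^ 12 := by
    have := le_mul_of_one_le_left hε.le hK
    linarith only [n2, n6, hε, hγ1, this]
  have hS := h.has2_Sf_mid h1 o3
  have hS0 : 0 < P.ε * r := mul_pos hε hr
  obtain ⟨x0, x1, x2⟩ := ZoneIn_vr hp hS0 (mul_le_of_le_one_left hr.le (by linarith only [n1, n2, hγ1, hε1]))
  have oi : cJ P.ci t ρ r = Jet.cst 0 := ZoneIn_cJ_cst (ZoneIn_high hI (by linarith only [h1, hI]))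
  have sJ : Sm (cJ P.cm t ρ r) (4 * ((3 + 1) ^ 2 * Kst) * vr (P.ε * r) ρ / r) ρ (vr (P.ε * r) ρ) :=
    ZoneIn_sm_cut hp x0 x2 hI (by norm_num)
  have sS : Sm ((rJ t ρ r).comp (P.ε * r) P.ε 0) (vr (P.ε * r) ρ / 10 ^ 4) ρ (vr (P.ε * r) ρ) := by
    refine (sm_radial_S (k := P.ε) hp x0 x2 (abs_of_pos hε).le (by simpa using hε.le)).mono hρ.le x0 ?_
    have := mul_le_mul_of_nonneg_right hε1 x0.le
    linarith only [x0, this]
  have sV := (sm_vJ (S := (rJ t ρ r).comp (P.ε * r) P.ε 0) hρ hS0 sS).comp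
    (f0 := P.i.m * vr (P.ε * r) ρ) (f1 := P.i.m) (f2 := 0) hρ.le x0 x1
  have sE := sJ.mulErr sV hρ.le x0 x1
  have hc := cut_mem P.I 3 r
  have c0 : 0 ≤ P.cm r := by
    unfold Par.cm
    linarith only [hc, hc.2]
  have c1 : P.cm r ≤ 1 := by
    unfold Par.cm
    linarith only [hc, hc.1]
  have hY : P.jY t ρ r = Jet.cst 1 := by
    rw [Par.jY, o1, oi]
    ext <;> simp
  have hW : P.jW t ρ r = oJ t ρ r (P.om0 r) (P.nu r) (deriv P.nu r) -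
      ((vJ ((rJ t ρ r).comp (P.ε * r) P.ε 0) ρ).comp (P.cm r * (P.i.m * vr (P.ε * r) ρ))
        (P.cm r * P.i.m) 0 +
      (cJ P.cm t ρ r * (vJ ((rJ t ρ r).comp (P.ε * r) P.ε 0) ρ).comp (P.i.m * vr (P.ε * r) ρ)
          P.i.m 0 - (cJ P.cm t ρ r).v • (vJ ((rJ t ρ r).comp (P.ε * r) P.ε 0) ρ).comp
          (P.i.m * vr (P.ε * r) ρ) P.i.m 0)) := by
    have e : (cJ P.cm t ρ r).v = P.cm r := rfl
    rw [Par.jW, o2, oi, ZoneIn_cJ hS, hS.v, e]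
    ext <;> simp <;> ring
  rw [hY, hW, ZoneIn_cJ hS]
  simp only [Jet.comp_v] at sE
  generalize hx : vr (P.ε * r) ρ = x at x0 x1 x2 sE
  have hmr : P.i.m * r ≤ 4 * (P.i.m * P.I) := by
    have := mul_le_mul_of_nonneg_left h2 hm
    linarith only [this]
  have hmx : P.i.m * x ≤ 8 * (P.i.m * P.I) := by
    have := mul_le_mul_of_nonneg_left x2 hm
    linarith only [hmr, this]
  have hke : 4 * ((3 + 1) ^ 2 * Kst) * x / r * (|P.i.m * x| + 2 * (|P.i.m| * (2 * x) +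
      |(0 : ℝ)| * (2 * x) ^ 2)) = 320 * Kst * P.i.m * x ^ 2 / r := by
    rw [abs_of_nonneg (mul_nonneg hm x0.le), abs_of_nonneg hm, abs_zero]
    ring
  rw [hke] at sE
  subst hx
  refine masterB (η := P.γ) (g0 := P.γ / 7) hp hγ hε ?_ ?_ ?_ (h.nu_deriv_in h1 h2) ?_ ?_ ?_ sE ?_ ?_
  · refine h.εγ.trans ?_
    have := mul_le_mul_of_nonneg_right h.ι_le (pow_pos hγ 3).le
    have := pow_pos hγ 3
    linarith
  · linarith only [n1, n2, h, h1, hI, o3, h.nu_ge (r := r) (by linarith) o3]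
  · linarith only [n1, n2, hγ1, h, (h.nu_mem r).2]
  · linarith only [n1, n2, n3, hγ1, h, hr, le_abs_self (r * deriv P.nu r), h.nu_deriv_abs hr]
  · have := mul_le_of_le_one_left (mul_nonneg hm x0.le) c1
    linarith only [n1, n2, hγ1, hmx, this]
  · simpa using mul_nonneg c0 hm
  · rw [div_le_iff₀ hr]
    have e1 : Kst * (P.i.m * vr (P.ε * r) ρ) ≤ Kst * (8 * (P.i.m * P.I)) :=
      mul_le_mul_of_nonneg_left hmx (by linarith only [n1, n2, hK, hγ1])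
    have e2 : Kst * (P.i.m * vr (P.ε * r) ρ) ≤ 8 / 10 ^ 12 := by linarith only [n1, n2, n4, hγ1, e1]
    have e3 := mul_le_mul e2 x2 x0.le (by norm_num)
    linarith only [h1, hI, e3]
  · have e0 : 100 * (320 * Kst * P.i.m * vr (P.ε * r) ρ ^ 2 / r) / vr (P.ε * r) ρ ^ 2 =
        32000 * (Kst * (P.i.m * r)) / r ^ 2 := by
      field_simp
      ring
    rw [e0]
    refine div_le_div_of_nonneg_right ?_ (by positivity)
    have e1 : Kst * (P.i.m * r) ≤ Kst * (4 * (P.i.m * P.I)) :=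
      mul_le_mul_of_nonneg_left hmr (by linarith only [n1, n2, hK, hγ1])
    linarith only [n1, n2, n4, e1]

theorem zone4 (hp : Pt t ρ r) (h1 : 2 * P.I ≤ r) (h2 : r ≤ 3 * P.I) :
    PertOK (cJ P.Sf t ρ r) (P.jY t ρ r) (P.jW t ρ r) ρ := by
  obtain ⟨n1, n2, n3, n4, n5, n6⟩ := h.ZoneIn_num
  have hI := h.I_pos
  obtain ⟨o1, o2, o3⟩ := h.ZoneIn_outer (t := t) (ρ := ρ) (r := r) (by linarith only [h2, hI])
  have hr := hp.rpos
  have hρ := hp.pos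
  have hK := one_le_Kst
  have hγ := h.γ_pos
  have hε := h.ε0
  have hm := h.ok_i.m0
  have hγ1 : P.γ ≤ 1 / 10 ^ 12 := (le_mul_of_one_le_left hγ.le hK).trans n3
  have hεK := le_mul_of_one_le_left hε.le hK
  have hS0 := h.Sf_pos hr.le
  have hS1 := h.Sf_le (r := r) (by linarith only [h1, hI])
  obtain ⟨x0, x1, x2⟩ := ZoneIn_vr hp hS0
    (hS1.trans (mul_le_of_le_one_left hr.le (by linarith only [n2, n6, hε, hγ1, hεK])))
  have oi : cJ P.ci t ρ r = Jet.cst 0 := ZoneIn_cJ_cst (ZoneIn_high hI (by linarith only [h1]))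
  have om : cJ P.cm t ρ r = Jet.cst 1 := ZoneIn_cJ_cst (ZoneIn_low hI h2)
  have hY : P.jY t ρ r = Jet.cst 1 - Jet.cst 0 := by
    rw [Par.jY, o1, oi]
    ext <;> simp
  have hW : P.jW t ρ r = oJ t ρ r (P.om0 r) (P.nu r) (deriv P.nu r) -
      (vJ (cJ P.Sf t ρ r) ρ).comp (P.i.m * vr (P.Sf r) ρ) P.i.m 0 := by
    rw [Par.jW, o2, oi, om]
    ext <;> simp
  rw [hY, hW, cJ]
  have hmr : P.i.m * r ≤ 3 * (P.i.m * P.I) := by
    have := mul_le_mul_of_nonneg_left h2 hm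
    linarith only [this]
  have hmr' : 2 * (P.i.m * P.I) ≤ P.i.m * r := by
    have := mul_le_mul_of_nonneg_left h1 hm
    linarith only [this]
  refine masterA (k := 20 * Kst * P.ε) (n1 := 0) (kg := 0) hp hS0 ?_ (h.Sf_deriv hr).1
    (h.Sf_deriv hr).2 ?_ (h.nu_mem r).1 ?_ ?_ ?_ le_rfl ?_ ?_ le_rfl ?_
    (sm_cst 0 hρ.le x0 le_rfl) ?_ ?_ ?_
  · refine hS1.trans (mul_le_mul_of_nonneg_right ?_ hr.le)
    linarith only [hε, hεK]
  · linarith only [n2, n6, hε, hγ1, hεK]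
  · linarith only [n2, n6, hε, hγ1, hεK, h, (h.nu_mem r).2]
  · linarith only [n2, n3, n6, hε, hγ1, hεK, h, hr, h.nu_deriv_abs hr]
  · simpa using h.nu_deriv_nonneg hr o3
  · have := mul_le_mul_of_nonneg_left x2 hm
    linarith only [n2, n6, hε, hγ1, hεK, hmr, this]
  · simpa using hm
  · simp
  · simp
  · norm_num
  · rw [zero_mul, zero_div, zero_div, add_zero, add_zero, ← mul_div_assoc, div_le_iff₀ hr]
    linarith only [n6, hε, hεK, hmr']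

theorem zone5 (hp : Pt t ρ r) (h1 : P.I ≤ r) (h2 : r ≤ 2 * P.I) :
    PertOK (cJ P.Sf t ρ r) (P.jY t ρ r) (P.jW t ρ r) ρ := by
  obtain ⟨n1, n2, n3, n4, n5, n6⟩ := h.ZoneIn_num
  have hI := h.I_pos
  obtain ⟨o1, o2, o3⟩ := h.ZoneIn_outer (t := t) (ρ := ρ) (r := r) (by linarith only [h2, hI])
  have hr := hp.rpos
  have hρ := hp.pos
  have hK := one_le_Kst
  have hγ := h.γ_pos
  have hε := h.ε0
  have hT := h.ok_i
  have hm := hT.m0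
  have hδ := hT.δ0
  have hs := hT.s0
  have hγ1 : P.γ ≤ 1 / 10 ^ 12 := (le_mul_of_one_le_left hγ.le hK).trans n3
  have hεK := le_mul_of_one_le_left hε.le hK
  have hδK := le_mul_of_one_le_left hδ.le hK
  have hS := h.has2_Sf_in h2
  have hsε : P.i.s ≤ P.ε * r := h.si.trans (mul_le_mul_of_nonneg_left h1 hε.le)
  have hsr : P.i.s ≤ r := hsε.trans (mul_le_of_le_one_left hr.le (by linarith only [n2, n6, hε, hγ1, hεK]))
  obtain ⟨x0, x1, x2⟩ := ZoneIn_vr hp hs hsr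
  have om : cJ P.cm t ρ r = Jet.cst 1 := ZoneIn_cJ_cst (ZoneIn_low hI (by linarith only [h2, hI]))
  have sJ : Sm (cJ P.ci t ρ r) (4 * ((1 + 1) ^ 2 * Kst) * vr P.i.s ρ / r) ρ (vr P.i.s ρ) :=
    ZoneIn_sm_cut hp x0 x2 hI (by norm_num)
  have sV := (sm_vJ (S := Jet.cst P.i.s) hρ hs (sm_cst _ hρ.le x0 (by positivity))).comp
    (f0 := P.i.w0 (vr P.i.s ρ)) (f1 := P.i.w1 (vr P.i.s ρ)) (f2 := P.i.w2 (vr P.i.s ρ))
    hρ.le x0 x1
  simp only [Jet.cst_v] at sV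
  have w0 := hT.w0_mem x0.le
  have w1 := hT.w1_mem x0.le
  have w2 := hT.w2_abs x0.le
  have g0 := hT.gh_mem (sq_nonneg ρ)
  have g0' : 0 ≤ ρ ^ 2 * P.i.gh (ρ ^ 2) := mul_nonneg (sq_nonneg _) g0.1
  have hq : 0 ≤ Kst * vr P.i.s ρ / r := by positivity
  have sE1 := (sJ.mulErr sV hρ.le x0 x1).mono (k' := 4000 * (Kst * P.i.δ) * vr P.i.s ρ / r)
    hρ.le x0 (by
      rw [Jet.comp_v, abs_of_nonneg w0.1, abs_of_nonneg w1.1]
      have e : P.i.w0 (vr P.i.s ρ) + 2 * (P.i.w1 (vr P.i.s ρ) * (2 * vr P.i.s ρ) +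
          |P.i.w2 (vr P.i.s ρ)| * (2 * vr P.i.s ρ) ^ 2) ≤ 250 * P.i.δ := by
        linarith only [hδ, w0, w1, w2, w0.2.1, w1.2.1, w2.1]
      calc _ = 16 * (Kst * vr P.i.s ρ / r) * (P.i.w0 (vr P.i.s ρ) + 2 * (P.i.w1 (vr P.i.s ρ) *
            (2 * vr P.i.s ρ) + |P.i.w2 (vr P.i.s ρ)| * (2 * vr P.i.s ρ) ^ 2)) := by ring
        _ ≤ 16 * (Kst * vr P.i.s ρ / r) * (250 * P.i.δ) :=
          mul_le_mul_of_nonneg_left e (by positivity)
        _ = _ := by ring)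
  have sE2 := (sJ.mulErr (hT.sm_gJ' hρ) hρ.le x0 x1).mono
    (k' := 4000 * (Kst * P.i.δ) * vr P.i.s ρ / r) hρ.le x0 (by
      have e0 : (P.i.gJ ρ).v = ρ ^ 2 * P.i.gh (ρ ^ 2) := rfl
      rw [e0, abs_of_nonneg g0']
      have e : ρ ^ 2 * P.i.gh (ρ ^ 2) + 2 * (70 * P.i.δ) ≤ 250 * P.i.δ := by linarith only [hδ, g0, g0.2.1]
      calc _ = 16 * (Kst * vr P.i.s ρ / r) * (ρ ^ 2 * P.i.gh (ρ ^ 2) + 2 * (70 * P.i.δ)) := by
            ring
        _ ≤ 16 * (Kst * vr P.i.s ρ / r) * (250 * P.i.δ) :=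
          mul_le_mul_of_nonneg_left e (by positivity)
        _ = _ := by ring)
  have hc := cut_mem P.I 1 r
  have c0 : 0 ≤ P.ci r := by
    unfold Par.ci
    linarith only [hc, hc.2]
  have c1 : P.ci r ≤ 1 := by
    unfold Par.ci
    linarith only [hc, hc.1]
  have ev : (cJ P.ci t ρ r).v = P.ci r := rfl
  have hY : P.jY t ρ r = Jet.cst 1 - ((Jet.x2 ρ).comp (P.ci r * (ρ ^ 2 * P.i.gh (ρ ^ 2)))
      (P.ci r * P.i.g1 ρ) (P.ci r * P.i.g2 ρ) +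
      (cJ P.ci t ρ r * P.i.gJ ρ - (cJ P.ci t ρ r).v • P.i.gJ ρ)) := by
    rw [Par.jY, o1, ev, ← smul_comp, ← Th.gJ]
    ext <;> simp
  have hW : P.jW t ρ r = oJ t ρ r (P.om0 r) (P.nu r) (deriv P.nu r) -
      ((vJ (Jet.cst P.i.s) ρ).comp (P.ci r * P.i.w0 (vr P.i.s ρ) + P.i.m * vr P.i.s ρ)
        (P.ci r * P.i.w1 (vr P.i.s ρ) + P.i.m) (P.ci r * P.i.w2 (vr P.i.s ρ)) +
      (cJ P.ci t ρ r * (vJ (Jet.cst P.i.s) ρ).comp (P.i.w0 (vr P.i.s ρ)) (P.i.w1 (vr P.i.s ρ))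
          (P.i.w2 (vr P.i.s ρ)) - (cJ P.ci t ρ r).v • (vJ (Jet.cst P.i.s) ρ).comp
          (P.i.w0 (vr P.i.s ρ)) (P.i.w1 (vr P.i.s ρ)) (P.i.w2 (vr P.i.s ρ)))) := by
    rw [Par.jW, o2, om, ZoneIn_cJ_cst hS, hS.v, ev]
    ext <;> simp <;> ring
  rw [hY, hW, ZoneIn_cJ_cst hS]
  have hb := hT.bq_spec (sq_nonneg ρ)
  have hν := h.nu_mem r
  have hmr : P.i.m * r ≤ 2 * (P.i.m * P.I) := by
    have := mul_le_mul_of_nonneg_left h2 hm
    linarith only [this]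
  have hmr' : P.i.m * P.I ≤ P.i.m * r := mul_le_mul_of_nonneg_left h1 hm
  have e2v : (cJ P.ci t ρ r * P.i.gJ ρ - (cJ P.ci t ρ r).v • P.i.gJ ρ).v = 0 := by simp
  have hg := mul_le_of_le_one_left g0' c1
  refine masterC (b := P.i.bq (ρ ^ 2)) hp hs hT.sd hδ.le hT.δ1 hm ?_ c0 c1 (by linarith only [n2, n6, hε, hγ1, hεK, hb, hb.1]) hb.2
    hν.1 ?_ (h.nu_deriv_nonneg hr o3) ?_ (Or.inr hsr) sE1 sE2 ?_ ?_ ?_ ?_ ?_
  · have := mul_le_mul_of_nonneg_left x2 hm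
    linarith only [n2, n6, hε, hγ1, hεK, hmr, this]
  · linarith only [n2, n6, hε, hγ1, hεK, hν, hν.2]
  · linarith only [n2, n3, n6, hε, hγ1, hεK, h, hr, le_abs_self (r * deriv P.nu r), h.nu_deriv_abs hr]
  · have e1 : (cJ P.ci t ρ r * P.i.gJ ρ - (cJ P.ci t ρ r).v • P.i.gJ ρ).a =
        (cJ P.ci t ρ r).a * (ρ ^ 2 * P.i.gh (ρ ^ 2)) := by
      simp [Th.gJ]
    have e2 : ρ ^ 2 * P.i.gh (ρ ^ 2) ≤ 80 * P.i.δ * ρ / vr P.i.s ρ := by
      rw [le_div_iff₀ x0]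
      exact hT.g_le hρ
    rw [e1, abs_mul, abs_of_nonneg g0']
    refine (mul_le_mul sJ.a e2 g0' (by positivity)).trans ?_
    have e3 : 4 * ((1 + 1) ^ 2 * Kst) * vr P.i.s ρ / r / vr P.i.s ρ *
        (80 * P.i.δ * ρ / vr P.i.s ρ) = 1280 * (Kst * P.i.δ * ρ / (r * vr P.i.s ρ)) := by
      field_simp
      ring
    have e4 : 4000 * (Kst * P.i.δ) * vr P.i.s ρ / r * ρ / vr P.i.s ρ ^ 2 =
        4000 * (Kst * P.i.δ * ρ / (r * vr P.i.s ρ)) := by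
      field_simp
    rw [e3, e4]
    exact mul_le_mul_of_nonneg_right (by norm_num) (by positivity)
  · rw [div_le_iff₀ hr]
    have e1 : Kst * P.i.δ ≤ 1 / 10 ^ 12 := by linarith only [n2, n5, n6, hε, hγ1, hεK]
    have e2 := mul_le_mul e1 x2 x0.le (by norm_num)
    linarith only [h1, hI, e2]
  · rw [e2v, add_zero]
    exact mul_nonneg c0 g0'
  · rw [e2v, add_zero]
    linarith only [n2, n5, n6, hε, hγ1, hεK, hδK, g0, hg, g0.2.1, hT.δ1]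
  · have e0 : 1000 * (4000 * (Kst * P.i.δ) * vr P.i.s ρ / r / vr P.i.s ρ + P.nu r * P.i.s / r ^ 2 +
        P.i.δ * P.nu r / r) =
        1000 * (4000 * (Kst * P.i.δ) + P.nu r * (P.i.s / r) + P.i.δ * P.nu r) / r := by
      field_simp
    rw [e0, div_le_iff₀ hr]
    have e1 : P.i.s / r ≤ P.ε := (div_le_iff₀ hr).2 hsε
    have e2 : P.nu r ≤ 1 := by linarith only [n2, n6, hε, hγ1, hεK, hν, hν.2]
    have e3 := mul_le_mul e2 e1 (by positivity) zero_le_one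
    have e4 := mul_le_of_le_one_right hδ.le e2
    linarith only [n5, n6, hε, hεK, hδK, hmr', e3, e4]

end Par.OK

end

end Pool.Agent.Work.MP_a9fb1f_gt
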