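import Pool.Agent.Work.MP_a9fb1f_gt.Params
import Pool.Agent.Work.MP_a9fb1f_gt.BlockLB

/-! The outer transition zones. -/

set_option autoImplicit false

open scoped Manifold ContDiff Topology ENNReal Bundle RealInnerProductSpace
open Filter Set

namespace Pool.Agent.Work.MP_a9fb1f_gt

noncomputable section

lemma ZoneOut_cJ {f : ℝ → ℝ} {t ρ r a b c : ℝ} (hf : Has2 f r a b c) :
    cJ f t ρ r = (rJ t ρ r).comp a b c := by
  rw [cJ, hf.v, hf.d, hf.dd]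

lemma ZoneOut_cst {f : ℝ → ℝ} {t ρ r c : ℝ} (hf : Has2 f r c 0 0) : cJ f t ρ r = Jet.cst c := by
  rw [ZoneOut_cJ hf, comp_cst]

lemma ZoneOut_off {a b t ρ r : ℝ} (ha : 0 < a) (h : (b + 1) * a ≤ r) :
    cJ (fun r => 1 - cut a b r) t ρ r = Jet.cst 0 := by
  have := (has2_cst 1 r).sub (has2_cut_high ha h)
  simp only [sub_self] at this
  exact ZoneOut_cst this

lemma ZoneOut_le {t ρ r : ℝ} (hp : Pt t ρ r) : ρ ≤ r ∧ |t| ≤ r :=
  ⟨pow_le_pow_left₀ hp.pos.le (le_refl ρ) 1 |>.trans' (by simp) |>.trans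
      (by simpa using abs_le_of_sq_le_sq' (by linarith only [hp, hp.sq, sq_nonneg t, sq_nonneg t]) hp.rpos.le |>.2),
    abs_le_of_sq_le_sq (by linarith only [hp, hp.sq, sq_nonneg ρ, sq_nonneg ρ]) hp.rpos.le⟩

lemma ZoneOut_sm {a t ρ r x : ℝ} (hp : Pt t ρ r) (ha : 0 < a) (hx : 0 < x) (hxr : x ≤ 2 * r) :
    Sm (cJ (cut a 1) t ρ r) (4 * (4 * Kst) * x / r) ρ x := by
  obtain ⟨h1, h2⟩ := deriv_cut_le (a := a) (b := 1) ha zero_le_one hp.rpos.le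
  exact sm_radial hp hx hxr (by linarith only [h1, one_le_Kst]) (by linarith)

/-- The sizes of the outer conformal factor. -/
lemma ZoneOut_w {T : Th} (h : T.OK) (md : T.m * T.d ≤ T.δ) {x : ℝ} (hx : 0 < x)
    (hxd : 1000 * x ≤ T.d) :
    T.δ / (2 * T.d) ≤ T.w1 x + T.m ∧ T.w1 x + T.m ≤ 2 * (T.δ / T.d) ∧
      (T.w1 x + T.m) * x ≤ 1 / 10 ^ 6 ∧ 100 * |T.w2 x| * x ≤ T.w1 x + T.m ∧
      |T.w2 x| * (2 * x) ^ 2 ≤ T.δ / T.d * x ∧ |T.w0 x + T.m * x| ≤ 2 * (T.δ / T.d) * x := by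
  have d0 := h.d_pos
  have δ0 := h.δ0
  have δ1 := h.δ1
  have m0 := h.m0
  obtain ⟨-, a2, a3⟩ := h.w1_mem hx.le
  obtain ⟨-, b2⟩ := h.w2_abs hx.le
  obtain ⟨c1, -, c3⟩ := h.w0_mem hx.le
  have hm : T.m ≤ T.δ / T.d := by rwa [le_div_iff₀ d0]
  have h1 : T.δ / (2 * T.d) ≤ T.w1 x := by
    rw [Th.w1, div_le_div_iff₀ (by positivity) (by positivity)]
    have : (T.d + x) ^ 2 ≤ 2 * T.d ^ 2 := by linarith only [hx, hxd, mul_pos_of_neg_of_neg (Mathlib.Tactic.Linarith.sub_neg_of_lt hx) (Mathlib.Tactic.Linarith.sub_neg_of_lt hx), mul_nonneg_of_nonpos_of_nonpos (le_of_lt (Mathlib.Tactic.Linarith.sub_neg_of_lt hx)) (Mathlib.Tactic.Linarith.sub_nonpos_of_le hxd), mul_nonneg_of_nonpos_of_nonpos (Mathlib.Tactic.Linarith.sub_nonpos_of_le hxd) (Mathlib.Tactic.Linarith.sub_nonpos_of_le hxd)]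
    linarith only [δ0, this, mul_nonneg_of_nonpos_of_nonpos (le_of_lt (Mathlib.Tactic.Linarith.sub_neg_of_lt δ0)) (Mathlib.Tactic.Linarith.sub_nonpos_of_le this)]
  have h2 : |T.w2 x| * x ≤ T.δ / T.d / 500 := by
    calc |T.w2 x| * x ≤ 2 * T.δ / T.d ^ 2 * (T.d / 1000) :=
          mul_le_mul b2 (by linarith only [hxd]) hx.le (by positivity)
      _ = T.δ / T.d / 500 := by field_simp; norm_num
  have h3 : T.δ / (2 * T.d) = T.δ / T.d / 2 := by field_simp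
  have h4 : T.δ * x / T.d = T.δ / T.d * x := by ring
  have h5 : T.m * x ≤ T.δ / T.d * x := mul_le_mul_of_nonneg_right hm hx.le
  have h6 : 0 < T.δ / T.d := by positivity
  refine ⟨by linarith only [m0, h1], by linarith only [a3, hm], ?_, by linarith only [m0, h1, h2, h3, h6], by linarith only [c1, c3, h4, hx, h2, mul_nonneg_of_nonpos_of_nonpos (le_of_lt (Mathlib.Tactic.Linarith.sub_neg_of_lt hx)) (Mathlib.Tactic.Linarith.sub_nonpos_of_le h2)], ?_⟩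
  · linarith only [δ0, δ1, a2, h5, hx, h1, h3, mul_nonneg_of_nonpos_of_nonpos (le_of_lt (Mathlib.Tactic.Linarith.sub_neg_of_lt hx)) (Mathlib.Tactic.Linarith.sub_nonpos_of_le h1), Mathlib.Tactic.Linarith.mul_zero_eq (Mathlib.Tactic.Linarith.sub_neg_of_lt hx) (sub_eq_zero_of_eq h3)]
  · rw [abs_of_nonneg (by positivity)]
    linarith only [c3, h4, h5]

/-- The correction of `Y` with its cutoff. -/
lemma ZoneOut_G {T : Th} (h : T.OK) {a t ρ r x : ℝ} (hp : Pt t ρ r) (ha : 0 < a) (hρx : ρ ≤ x)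
    (hxr : x ≤ 2 * r) :
    0 ≤ (cJ (cut a 1) t ρ r * T.gJ ρ).v ∧ (cJ (cut a 1) t ρ r * T.gJ ρ).v ≤ 1 / 2 ∧
      Sm (cJ (cut a 1) t ρ r * T.gJ ρ) (8000 * Kst * (T.δ * x ^ 2 / T.d ^ 2)) ρ x ∧
      |(cJ (cut a 1) t ρ r * T.gJ ρ).a| ≤ 8000 * Kst * (T.δ * x ^ 2 / T.d ^ 2) * ρ / x ^ 2 := by
  have d0 := h.d_pos
  have δ0 := h.δ0
  have δ1 := h.δ1
  have ρ0 := hp.pos
  have r0 := hp.rpos
  have hx : 0 < x := ρ0.trans_le hρx
  have K1 := one_le_Kst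
  obtain ⟨c0, c1⟩ := cut_mem a 1 r
  obtain ⟨g0, g1, g2⟩ := h.gh_mem (sq_nonneg ρ)
  obtain ⟨ρr, tr⟩ := ZoneOut_le hp
  have gv : (T.gJ ρ).v = ρ ^ 2 * T.gh (ρ ^ 2) := rfl
  have cv : (cJ (cut a 1) t ρ r).v = cut a 1 r := rfl
  have g3 : 0 ≤ ρ ^ 2 * T.gh (ρ ^ 2) := by positivity
  have g4 : ρ ^ 2 * T.gh (ρ ^ 2) ≤ ρ ^ 2 * (10 * T.δ / T.d ^ 2) :=
    mul_le_mul_of_nonneg_left g2 (sq_nonneg ρ)
  refine ⟨by rw [Jet.mul_v, gv, cv]; positivity, by rw [Jet.mul_v, gv, cv]; (refine le_of_not_gt fun h_nl => ?_; linarith only [h_nl, δ1, δ0, c1, c0, g1, mul_pos_of_neg_of_neg (Mathlib.Tactic.Linarith.sub_neg_of_lt δ0) (Mathlib.Tactic.Linarith.sub_neg_of_lt δ0), mul_nonneg_of_nonpos_of_nonpos (le_of_lt (Mathlib.Tactic.Linarith.sub_neg_of_lt δ0)) (Mathlib.Tactic.Linarith.sub_nonpos_of_le δ1), mul_nonneg_of_nonpos_of_nonpos (le_of_lt (Mathlib.Tactic.Linarith.sub_neg_of_lt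 δ0)) (Mathlib.Tactic.Linarith.sub_nonpos_of_le c1), mul_pos_of_neg_of_neg (Mathlib.Tactic.Linarith.sub_neg_of_lt δ0) (Mathlib.Tactic.Linarith.sub_neg_of_lt h_nl), mul_nonneg_of_nonpos_of_nonpos (Mathlib.Tactic.Linarith.sub_nonpos_of_le δ1) (le_of_lt (Mathlib.Tactic.Linarith.sub_neg_of_lt h_nl)), mul_nonneg_of_nonpos_of_nonpos (Mathlib.Tactic.Linarith.sub_nonpos_of_le c0) (Mathlib.Tactic.Linarith.sub_nonpos_of_le g1)]), ?_, ?_⟩
  · have h1 := ((h.sm_gJ ρ0 hx).smul (cut a 1 r)).add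
      ((ZoneOut_sm hp ha hx hxr).mulErr (h.sm_gJ ρ0 hx) ρ0.le hx hρx)
    have e : cut a 1 r • T.gJ ρ + (cJ (cut a 1) t ρ r * T.gJ ρ - (cJ (cut a 1) t ρ r).v • T.gJ ρ) =
        cJ (cut a 1) t ρ r * T.gJ ρ := by
      rw [cv]
      ext <;> simp
    rw [e] at h1
    refine h1.mono ρ0.le hx ?_
    set u := T.δ * x ^ 2 / T.d ^ 2 with hu
    have u0 : 0 ≤ u := by positivity
    have e1 : 70 * T.δ * x ^ 2 / T.d ^ 2 = 70 * u := by rw [hu]; ring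
    have e2 : |(T.gJ ρ).v| ≤ 10 * u := by
      rw [gv, abs_of_nonneg g3]
      calc _ ≤ ρ ^ 2 * (10 * T.δ / T.d ^ 2) := g4
        _ ≤ x ^ 2 * (10 * T.δ / T.d ^ 2) := by gcongr
        _ = 10 * u := by rw [hu]; ring
    have e3 : 4 * (4 * Kst) * x / r ≤ 32 * Kst := by
      rw [div_le_iff₀ r0]
      linarith only [hxr, K1, mul_nonneg_of_nonpos_of_nonpos (Mathlib.Tactic.Linarith.sub_nonpos_of_le hxr) (Mathlib.Tactic.Linarith.sub_nonpos_of_le K1)]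
    have e4 : 4 * (4 * Kst) * x / r * (|(T.gJ ρ).v| + 2 * (70 * u)) ≤ 32 * Kst * (150 * u) :=
      mul_le_mul e3 (by linarith only [e2]) (by positivity) (by positivity)
    rw [e1, abs_of_nonneg c0]
    (refine le_of_not_gt fun h_nl => ?_; linarith only [h_nl, u0, e4, δ0, δ1, K1, c1, mul_pos_of_neg_of_neg (Mathlib.Tactic.Linarith.sub_neg_of_lt δ0) (Mathlib.Tactic.Linarith.sub_neg_of_lt h_nl), mul_nonneg_of_nonpos_of_nonpos (Mathlib.Tactic.Linarith.sub_nonpos_of_le δ1) (le_of_lt (Mathlib.Tactic.Linarith.sub_neg_of_lt h_nl)), mul_nonneg_of_nonpos_of_nonpos (Mathlib.Tactic.Linarith.sub_nonpos_of_le K1) (Mathlib.Tactic.Linarith.sub_nonpos_of_le u0), mul_nonneg_of_nonpos_of_nonpos (Mathlib.Tactic.Linarith.sub_nonpos_of_le c1) (Mathlib.Tactic.Linarith.sub_nonpos_of_le u0)])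
  · obtain ⟨h1, -⟩ := deriv_cut_le (a := a) (b := 1) ha zero_le_one r0.le
    have e : (cJ (cut a 1) t ρ r * T.gJ ρ).a =
        deriv (cut a 1) r * (t / r) * (ρ ^ 2 * T.gh (ρ ^ 2)) := by
      simp [cJ, Th.gJ, rJ]
    have e1 : |t / r| ≤ 1 := by rwa [abs_div, abs_of_pos r0, div_le_one r0]
    have e2 : |deriv (cut a 1) r| * ρ ≤ 2 * Kst := by
      (refine le_of_not_gt fun h_nl => ?_; linarith only [h_nl, ρr, ρ0, h1, r0, K1, abs_nonneg (deriv (cut a 1) r), mul_nonneg_of_nonpos_of_nonpos (le_of_lt (Mathlib.Tactic.Linarith.sub_neg_of_lt ρ0)) (Mathlib.Tactic.Linarith.sub_nonpos_of_le h1), mul_pos_of_neg_of_neg (Mathlib.Tactic.Linarith.sub_neg_of_lt r0) (Mathlib.Tactic.Linarith.sub_neg_of_lt h_nl), mul_nonneg_of_nonpos_of_nonpos (Mathlib.Tactic.Linarith.sub_nonpos_of_le K1) (Mathlib.Tactic.Linarith.sub_nonpos_of_le ρr)])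
    rw [e, abs_mul, abs_mul, abs_of_nonneg g3]
    calc _ ≤ |deriv (cut a 1) r| * 1 * (ρ ^ 2 * (10 * T.δ / T.d ^ 2)) := by gcongr
      _ = |deriv (cut a 1) r| * ρ * (ρ * (10 * T.δ / T.d ^ 2)) := by ring
      _ ≤ 2 * Kst * (ρ * (10 * T.δ / T.d ^ 2)) := by gcongr
      _ = 20 * (Kst * (T.δ / T.d ^ 2) * ρ) := by ring
      _ ≤ 8000 * (Kst * (T.δ / T.d ^ 2) * ρ) := by gcongr; norm_num
      _ = _ := by field_simp

namespace Par.OK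

variable {P : Par} (h : P.OK) {t ρ r : ℝ}
include h

lemma ZoneOut_small : P.ε ≤ P.ι ∧ P.γ ≤ P.ι ∧ P.ε ≤ P.ι ^ 4 * P.o.δ := by
  have ι0 := h.ι0
  have ι1 : P.ι ≤ 1 := h.ι_le.trans (by norm_num)
  have h1 : P.ε ≤ P.ι ^ 4 * P.o.δ := h.ε_le.trans
    (mul_le_mul_of_nonneg_right (pow_le_pow_of_le_one ι0.le ι1 (by norm_num)) h.δ0.le)
  refine ⟨h1.trans ?_, h.γ_le.trans (pow_le_of_le_one ι0.le ι1 (by norm_num)), h1⟩
  have := mul_le_mul (pow_le_one₀ (n := 4) ι0.le ι1) h.δι h.δ0.le zero_le_one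
  linarith

lemma ZoneOut_x (hp : Pt t ρ r) (hI : P.I ≤ r) (h2 : r ≤ 2 * P.R) :
    ρ ≤ vr (P.Sf r) ρ ∧ vr (P.Sf r) ρ ≤ 2 * r ∧ 1000 * vr (P.Sf r) ρ ≤ P.o.d := by
  obtain ⟨a1, -, a3⟩ := le_vr (h.Sf_pos hp.rpos.le) hp.pos
  have a4 := h.Sf_le hI
  have a5 := (ZoneOut_le hp).1
  have a6 := h.ZoneOut_small.1
  have a7 := h.ι_le
  have a8 : P.ε * r ≤ 1 * r := mul_le_mul_of_nonneg_right (by linarith only [a6, a7]) hp.rpos.le
  have a9 : P.ι * P.o.d ≤ 1 / 10 ^ 12 * P.o.d := mul_le_mul_of_nonneg_right a7 h.d0.le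
  rw [Par.R] at h2
  exact ⟨a1, by linarith only [a3, a4, a5, a8], by linarith only [h2, a1, a3, a4, a5, a8, a9, h.d0]⟩

lemma ZoneOut_nu (hr : 0 < r) : P.nu r ≤ 1 / 10 ^ 6 ∧ |r * deriv P.nu r| ≤ 1 / 10 ^ 6 := by
  have a1 := (h.nu_mem r).2
  have a2 := h.nu_deriv_abs hr
  have a3 := h.ZoneOut_small.2.1
  have a4 := h.ι_le
  have a5 := h.Kι
  have a6 : Kst * P.γ ≤ Kst * P.ι := mul_le_mul_of_nonneg_left a3 (by linarith only [one_le_Kst])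
  exact ⟨by linarith only [a1, a3, a4], by linarith only [a2, a5, a6]⟩

theorem zone1 (hp : Pt t ρ r) (h1 : 2 * P.R2 ≤ r) (h2 : r ≤ 2 * P.R) :
    PertOK (cJ P.Sf t ρ r) (P.jY t ρ r) (P.jW t ρ r) ρ := by
  have I0 := h.I_pos
  have IR := h.I_le
  have r0 := hp.rpos
  have d0 := h.d0
  have δ0 := h.δ0
  have ι0 := h.ι0
  have ε0 := h.ε0
  have γ0 := h.γ_pos
  have K1 := one_le_Kst
  have Kι := h.Kι
  have ι1 := h.ι_le
  have hI : P.I ≤ r := by linarith only [h1, I0, IR]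
  have eo : cJ P.co t ρ r = Jet.cst 1 := ZoneOut_cst (has2_cut_high h.R2_pos (by linarith only [h1]))
  have ei : cJ P.ci t ρ r = Jet.cst 0 := ZoneOut_off I0 (by linarith only [h1, I0, IR])
  have em : cJ P.cm t ρ r = Jet.cst 0 := ZoneOut_off I0 (by linarith only [h1, I0, IR])
  have eY : P.jY t ρ r = Jet.cst 1 - cJ (cut P.R 1) t ρ r * P.o.gJ ρ := by
    rw [Par.jY, ei, Par.c2]
    ext <;> simp
  have eW : P.jW t ρ r = oJ t ρ r (P.om0 r) (P.nu r) (deriv P.nu r) -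
      (vJ (cJ P.Sf t ρ r) ρ).comp (P.o.w0 (vr (P.Sf r) ρ) + P.o.m * vr (P.Sf r) ρ)
        (P.o.w1 (vr (P.Sf r) ρ) + P.o.m) (P.o.w2 (vr (P.Sf r) ρ)) := by
    rw [Par.jW, eo, ei, em]
    ext <;> simp
  obtain ⟨x1, x2, x3⟩ := h.ZoneOut_x hp hI h2
  have x0 : 0 < vr (P.Sf r) ρ := vr_pos hp.pos
  obtain ⟨w1, -, w3, w4, -, -⟩ := ZoneOut_w h.ok_o h.md x0 x3
  obtain ⟨G1, G2, G3, G4⟩ := ZoneOut_G h.ok_o hp h.R_pos x1 x2
  obtain ⟨S1, S2⟩ := h.Sf_deriv r0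
  obtain ⟨n1, n2⟩ := h.ZoneOut_nu r0
  obtain ⟨ε1, -, ε2⟩ := h.ZoneOut_small
  have Kε : Kst * P.ε ≤ Kst * P.ι := mul_le_mul_of_nonneg_left ε1 (by linarith only [ι0, K1, ι1])
  obtain ⟨n, hn, hn0, hn1⟩ : ∃ n : ℝ, -n ≤ r * deriv P.nu r ∧ 0 ≤ n ∧
      n * vr (P.Sf r) ρ / r ^ 2 ≤ 40 * (Kst * P.ι) * (P.o.δ / P.o.d) := by
    rcases le_total r P.R with h3 | h3
    · exact ⟨0, by simpa using h.nu_deriv_nonneg r0 h3, le_rfl, by
        rw [zero_mul, zero_div]; positivity⟩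
    · refine ⟨20 * Kst * P.γ, (abs_le.1 (h.nu_deriv_abs r0)).1, by positivity, ?_⟩
      rw [Par.R] at h3
      calc _ ≤ 20 * Kst * P.γ * (2 * r) / r ^ 2 := by gcongr
        _ = 40 * Kst * P.γ / r := by field_simp; norm_num
        _ ≤ 40 * Kst * P.γ / (P.ι * P.o.d) := by gcongr
        _ = _ := by rw [Par.γ]; field_simp
  rw [eY, eW]
  set x := vr (P.Sf r) ρ with hx
  have u0 : 0 < P.o.δ / P.o.d := by positivity
  have xd : x / P.o.d ≤ 4 * P.ι := by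
    rw [div_le_iff₀ d0]
    rw [Par.R] at h2
    linarith only [h2, x2]
  refine masterA hp (h.Sf_pos r0.le) ?_ S1 S2 (by linarith only [ι0, Kι, ι1, Kε]) (h.nu_mem r).1 n1 n2 hn hn0 w3 w4
    G1 G2 G3 G4 ?_ ?_
  · have := h.Sf_le hI
    have : 1 * (P.ε * r) ≤ 20 * Kst * (P.ε * r) := by gcongr; linarith only [ι0, K1, ι1]
    linarith
  · have a1 : x / P.o.d ≤ 1 := by linarith only [ι0, ι1, xd]
    calc _ = 8000 * (Kst * P.o.δ) * (x / P.o.d) ^ 2 := by ring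
      _ ≤ 8000 * (Kst * P.ι) * 1 ^ 2 := by gcongr; exact h.δι
      _ ≤ _ := by linarith only [ι0, Kι, ι1]
  · have a1 : 20 * Kst * P.ε / r ≤ 10 * (Kst * P.ι) * (P.o.δ / P.o.d) := by
      rw [Par.R2] at h1
      calc _ ≤ 20 * Kst * (P.ι ^ 4 * P.o.δ) / (2 * (P.ι ^ 3 * P.o.d)) := by gcongr
        _ = _ := by field_simp; norm_num
    have a2 : 8000 * Kst * (P.o.δ * x ^ 2 / P.o.d ^ 2) / x ≤
        32000 * (Kst * P.ι) * (P.o.δ / P.o.d) := by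
      calc _ = 8000 * Kst * (P.o.δ / P.o.d) * (x / P.o.d) := by field_simp
        _ ≤ 8000 * Kst * (P.o.δ / P.o.d) * (4 * P.ι) := by gcongr
        _ = _ := by ring
    have a3 : Kst * P.ι * (P.o.δ / P.o.d) ≤ 1 / 10 ^ 12 * (P.o.δ / P.o.d) := by gcongr
    have a4 : P.o.δ / (2 * P.o.d) = P.o.δ / P.o.d / 2 := by field_simp
    linarith only [w1, hn1, u0, a1, a2, a3, a4]

theorem zone2 (hp : Pt t ρ r) (h1 : P.R2 ≤ r) (h2 : r ≤ 2 * P.R2) :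
    PertOK (cJ P.Sf t ρ r) (P.jY t ρ r) (P.jW t ρ r) ρ := by
  have I0 := h.I_pos
  have IR := h.I_le
  have RR := h.R2_le
  have r0 := hp.rpos
  have d0 := h.d0
  have δ0 := h.δ0
  have ι0 := h.ι0
  have ε0 := h.ε0
  have γ0 := h.γ_pos
  have K1 := one_le_Kst
  have Kι := h.Kι
  have ι1 := h.ι_le
  have hI : P.I ≤ r := by linarith only [h1, I0, IR]
  have hS := h.has2_Sf_mid (r := r) (by linarith only [h1, I0, IR]) (by linarith only [h2, I0, IR, RR])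
  have eS : cJ P.Sf t ρ r = (rJ t ρ r).comp (P.ε * r) P.ε 0 := ZoneOut_cJ hS
  have e2 : cJ P.c2 t ρ r = Jet.cst 0 := ZoneOut_cst (has2_cut_low h.R_pos (by linarith only [h2, I0, IR, RR]))
  have ei : cJ P.ci t ρ r = Jet.cst 0 := ZoneOut_off I0 (by linarith only [h1, I0, IR])
  have em : cJ P.cm t ρ r = Jet.cst 0 := ZoneOut_off I0 (by linarith only [h1, I0, IR])
  have eY : P.jY t ρ r = Jet.cst 1 := by
    rw [Par.jY, ei, e2]
    ext <;> simp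
  obtain ⟨x1, x2, x3⟩ := h.ZoneOut_x hp hI (by linarith only [h2, I0, IR, RR])
  have x0 : 0 < vr (P.Sf r) ρ := vr_pos hp.pos
  obtain ⟨w1, w2, w3, w4, w5, w6⟩ := ZoneOut_w h.ok_o h.md x0 x3
  obtain ⟨n1, n2⟩ := h.ZoneOut_nu r0
  obtain ⟨ε1, -, -⟩ := h.ZoneOut_small
  obtain ⟨c0, c1⟩ := cut_mem P.R2 1 r
  rw [eY, Par.jW, ei, em, eS, hS.v, Par.co]
  rw [hS.v] at x0 x1 x2 x3 w1 w2 w3 w4 w5 w6
  set S := (rJ t ρ r).comp (P.ε * r) P.ε 0 with eS'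
  have sS : Sm S (vr S.v ρ / 10 ^ 4) ρ (vr S.v ρ) :=
    (sm_radial_S (k := P.ε) hp x0 x2 (abs_of_pos ε0).le (by simpa using ε0.le)).mono hp.pos.le x0
      (by change _ ≤ vr (P.ε * r) ρ / 10 ^ 4; (refine le_of_not_gt fun h_nl => ?_; linarith only [h_nl, ι0, x0, ι1, ε1, mul_pos_of_neg_of_neg (Mathlib.Tactic.Linarith.sub_neg_of_lt ι0) (Mathlib.Tactic.Linarith.sub_neg_of_lt x0), mul_pos_of_neg_of_neg (Mathlib.Tactic.Linarith.sub_neg_of_lt ι0) (Mathlib.Tactic.Linarith.sub_neg_of_lt h_nl), mul_nonneg_of_nonpos_of_nonpos (Mathlib.Tactic.Linarith.sub_nonpos_of_le ι1) (le_of_lt (Mathlib.Tactic.Linarith.sub_neg_of_lt x0)), mul_nonneg_of_nonpos_of_nonpos (Mathlib.Tactic.Linarith.sub_nonpos_of_le ι1) (le_of_lt (Mathlib.Tactic.Linarith.sub_neg_of_lt h_nl)), mul_nonneg_of_nonpos_of_nonpos (le_of_lt (Mathlib.Tactic.Linarith.sub_neg_of_lt x0)) (Mathlib.Tactic.Linarith.sub_nonpos_of_le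 ε1)]))
  have sV := sm_vJ hp.pos (S := S) (mul_pos ε0 r0) sS
  change Sm _ (2 * vr (P.ε * r) ρ) ρ (vr (P.ε * r) ρ) at sV
  set x := vr (P.ε * r) ρ with hx
  set W0 := P.o.w0 x + P.o.m * x
  set W1 := P.o.w1 x + P.o.m
  set W2 := P.o.w2 x
  set u := P.o.δ / P.o.d with hu
  have u0 : 0 < u := by positivity
  have W10 : 0 ≤ W1 := le_trans (by positivity) w1
  have sE := (ZoneOut_sm hp h.R2_pos x0 x2).mulErr (sV.comp (f0 := W0) (f1 := W1) (f2 := W2)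
    hp.pos.le x0 x1) hp.pos.le x0 x1
  have e : cJ (cut P.R2 1) t ρ r * (vJ S ρ).comp W0 W1 W2 +
      Jet.cst 0 * (vJ S ρ).comp (P.i.w0 x) (P.i.w1 x) (P.i.w2 x) +
      Jet.cst 0 * (vJ S ρ).comp (P.i.m * x) P.i.m 0 =
      (vJ S ρ).comp (cut P.R2 1 r * W0) (cut P.R2 1 r * W1) (cut P.R2 1 r * W2) +
        (cJ (cut P.R2 1) t ρ r * (vJ S ρ).comp W0 W1 W2 -
          (cJ (cut P.R2 1) t ρ r).v • (vJ S ρ).comp W0 W1 W2) := by
    rw [← smul_comp, show (cJ (cut P.R2 1) t ρ r).v = cut P.R2 1 r from rfl]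
    ext <;> simp
  rw [e]
  refine masterB hp (η := P.γ) (g0 := P.γ / 7) (ke := 200 * Kst * u * x ^ 2 / r) γ0 ε0 ?_ ?_ n1
    (h.nu_deriv_out h1 h2) (abs_le.1 n2).2 ?_ ?_ (sE.mono hp.pos.le x0 ?_) ?_ ?_
  · have a1 : P.ι * P.γ ^ 3 ≤ 1 / 10 ^ 6 * P.γ ^ 3 := by gcongr; linarith only [ι0, ι1]
    linarith only [a1, h, h.εγ]
  · linarith only [γ0, h, h1, I0, IR, h2, RR, h.nu_ge (r := r) (by linarith) (by linarith)]
  · have : cut P.R2 1 r * (W1 * x) ≤ 1 * (W1 * x) := by gcongr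
    linarith only [w3, this]
  · rw [abs_mul, abs_of_nonneg c0]
    have := mul_le_mul_of_nonneg_left w4 c0
    linarith only [this]
  · rw [Jet.comp_v, abs_of_nonneg W10]
    have a1 : W1 * x ≤ 2 * u * x := by gcongr
    calc _ ≤ 4 * (4 * Kst) * x / r * (12 * u * x) := by gcongr; linarith only [w6, w5, a1]
      _ = 192 * (Kst * u * x ^ 2 / r) := by ring
      _ ≤ 200 * (Kst * u * x ^ 2 / r) := by gcongr; norm_num
      _ = _ := by ring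
  · have a1 : x / r ≤ 2 := by rwa [div_le_iff₀ r0]
    have a2 : x / P.o.d ≤ 1 := by rw [div_le_iff₀ d0]; linarith only [d0, x3]
    calc _ = 200 * (Kst * P.o.δ) * (x / r) * (x / P.o.d) := by rw [hu]; ring
      _ ≤ 200 * (Kst * P.ι) * 2 * 1 := by gcongr; exact h.δι
      _ ≤ _ := by linarith only [ι0, Kι, ι1]
  · rw [Par.R2] at h2
    change 100 * (200 * Kst * u * x ^ 2 / r) / x ^ 2 ≤ _
    calc _ = 20000 * Kst * u * r / r ^ 2 := by field_simp; norm_num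
      _ ≤ 20000 * Kst * u * (2 * (P.ι ^ 3 * P.o.d)) / r ^ 2 := by gcongr
      _ = 40000 * (Kst * P.ι) * P.γ / r ^ 2 := by rw [hu, Par.γ]; field_simp; norm_num
      _ ≤ 40000 * (1 / 10 ^ 12) * P.γ / r ^ 2 := by gcongr
      _ ≤ _ := by gcongr; linarith only [γ0]

end Par.OK

end

end Pool.Agent.Work.MP_a9fb1f_gt
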