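import Pool.Agent.Work.MP_a9fb1f_gt.BlockLB
import Pool.Agent.Work.MP_a9fb1f_gt.ZoneOut
import Pool.Agent.Work.MP_a9fb1f_gt.ZoneIn
import Pool.Agent.Work.MP_a9fb1f_gt.RicM
import Pool.Agent.Work.MP_a9fb1f_gt.Params
import Pool.Agent.Work.MP_a9fb1f_gt.Topo
import Pool.Agent.Work.MP_a9fb1f_gt.Riem

-- merged part: Pool.Agent.Work.MP_a9fb1f_gt.BlockAdm
section
/-! A block has nonnegative Ricci curvature. -/

set_option autoImplicit false

open scoped Manifold ContDiff Topology ENNReal Bundle RealInnerProductSpace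
open Filter Set

namespace Pool.Agent.Work.MP_a9fb1f_gt

noncomputable section

lemma continuous_rr : Continuous rr := by
  unfold rr
  fun_prop

theorem Par.OK.adm {P : Par} (h : P.OK) {t ρ : ℝ} (hρ : 0 < ρ) (h1 : rr (t, ρ ^ 2) ≤ 3 * P.R) :
    Adm P.E t ρ := by
  set r := rr (t, ρ ^ 2) with hr
  have hpos : 0 < t ^ 2 + ρ ^ 2 := by positivity
  have hp : Pt t ρ r := ⟨hρ, Real.sqrt_pos.2 hpos, Real.sq_sqrt hpos.le⟩
  have hρr : ρ ≤ r := by
    refine abs_le_of_sq_le_sq' ?_ hp.rpos.le |>.2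
    rw [hp.sq]
    linarith only [sq_nonneg t, sq_nonneg t]
  have hI := h.I_pos
  have hIR := h.I_le
  have hR2 := h.R2_le
  have hι := h.ι_le
  have hι0 := h.ι0
  have hδ : P.o.δ ≤ 1 := h.δι.trans (hι.trans (by norm_num))
  have hι1 : P.ι ≤ 1 := hι.trans (by norm_num)
  have hε : P.ε ≤ 1 := h.ε_le.trans (mul_le_one₀ (pow_le_one₀ hι0.le hι1) h.δ0.le hδ)
  rcases lt_or_ge r P.I with c1 | c1
  · have e : P.E =ᶠ[𝓝 (t, ρ ^ 2)] P.i.E :=
      (continuous_rr.continuousAt.eventually (gt_mem_nhds c1)).mono fun x hx => h.E_in hx.le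
    refine (h.ok_i.adm t hρ ?_).congr e
    have h2 : vr P.i.s ρ ≤ 2 * P.I := by
      have := (le_vr h.si0 hρ).2.2
      have := h.si
      nlinarith
    have h3 : P.ι ^ 3 * P.o.δ ≤ P.ι :=
      (mul_le_of_le_one_right (by positivity) hδ).trans (pow_le_of_le_one hι0.le hι1 (by norm_num))
    have h4 := mul_le_mul_of_nonneg_left h2 h.ok_i.m0
    have h5 := h.mi
    linarith only [hι, hι0, h3, h4, h5]
  rcases le_or_gt r (2 * P.I) with c2 | c2
  · exact h.adm_of_pertOK hp (Or.inl (by linarith only [hI, c2])) (h.zone5 hp c1 c2)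
  rcases le_or_gt r (3 * P.I) with c3 | c3
  · exact h.adm_of_pertOK hp (Or.inl (by linarith only [hI, c3])) (h.zone4 hp c2.le c3)
  rcases le_or_gt r (4 * P.I) with c4 | c4
  · exact h.adm_of_pertOK hp (Or.inl (by linarith only [hI, c4])) (h.zone3 hp c3.le c4)
  rcases lt_or_ge r P.R2 with c5 | c5
  · exact h.adm_path hp c4 c5
  rcases le_or_gt r (2 * P.R2) with c6 | c6
  · exact h.adm_of_pertOK hp (Or.inr (by linarith only [hI, hIR, c5])) (h.zone2 hp c5 c6)
  rcases le_or_gt r (2 * P.R) with c7 | c7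
  · exact h.adm_of_pertOK hp (Or.inr (by linarith only [hI, hIR, c5])) (h.zone1 hp c6.le c7)
  have e : P.E =ᶠ[𝓝 (t, ρ ^ 2)] P.o.E :=
    (continuous_rr.continuousAt.eventually (lt_mem_nhds c7)).mono fun x hx => h.E_out hx.le
  refine (h.ok_o.adm t hρ ?_).congr e
  have hR := h.R_pos
  have h2 : vr P.o.s ρ ≤ 4 * P.R := by
    have := (le_vr h.s0 hρ).2.2
    have := h.sR
    nlinarith
  have h4 := mul_le_mul_of_nonneg_left h2 h.m0
  have h5 : P.o.m * (4 * P.R) = 4 * P.ι * (P.o.m * P.o.d) := by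
    unfold Par.R
    ring
  have h6 := mul_le_mul_of_nonneg_left (h.md.trans hδ) (by positivity : 0 ≤ 4 * P.ι)
  linarith only [hι, hι0, h4, h5, h6]

end

end Pool.Agent.Work.MP_a9fb1f_gt
end

-- merged part: Pool.Agent.Work.MP_a9fb1f_gt.Global
section
/-! Every point of the nested metric has a block or the outer metric as a local model. -/

set_option autoImplicit false

open scoped Manifold ContDiff Topology ENNReal Bundle RealInnerProductSpace
open Filter Set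

namespace Pool.Agent.Work.MP_a9fb1f_gt

noncomputable section

lemma global_sqrt_le {a b z : ℝ} (hz : 0 ≤ z) : √(a ^ 2 + z) ≤ √(b ^ 2 + z) + |a - b| := by
  have h1 : |b| ≤ √(b ^ 2 + z) := Real.abs_le_sqrt (by linarith)
  have h2 : √(b ^ 2 + z) ^ 2 = b ^ 2 + z := Real.sq_sqrt (by positivity)
  have h3 : b * (a - b) ≤ √(b ^ 2 + z) * |a - b| :=
    (le_abs_self _).trans (by rw [abs_mul]; gcongr)
  refine Real.sqrt_le_iff.2 ⟨by positivity, ?_⟩
  rw [add_sq, h2, sq_abs]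
  linarith only [h3]

lemma global_rr_nonneg (x : ℝ × ℝ) : 0 ≤ rr x := Real.sqrt_nonneg _

lemma global_Th_sh (T : Th) (c : ℝ) (y : ℝ × ℝ) : T.E (sh c y) = T.E y := by
  simp [Th.E, mkE, mkV, sh]

lemma global_contDiff_sh (c : ℝ) : ContDiff ℝ ∞ (sh c) := by
  unfold sh
  fun_prop

lemma global_cont (c : ℝ) : Continuous fun y => rr (sh c y) :=
  continuous_rr.comp (global_contDiff_sh c).continuous

namespace Sys

variable (S : Sys) {i j : ℕ} {c c' : ℝ} {x : ℝ × ℝ}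

lemma R_succ (j : ℕ) : 1000 * (S.P (j + 1)).o.d ≤ (S.P j).I ∧
    1000 * (S.P j).R ≤ (S.P j).o.d ∧ 1000 * (S.P j).I ≤ (S.P j).R ∧
    (S.P j).o.s ≤ (S.P j).R := by
  have h := S.ok j
  have hι := h.ι_le
  have hI := h.I_pos
  have hR := h.R_pos
  refine ⟨?_, ?_, ?_, ?_⟩
  · rw [← S.link j]
    linarith only [hI, h, hι, h.di, mul_nonneg_of_nonpos_of_nonpos (Mathlib.Tactic.Linarith.sub_nonpos_of_le hι) (le_of_lt (Mathlib.Tactic.Linarith.sub_neg_of_lt hI))]
  · unfold Par.R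
    linarith only [h, hι, h.d0, mul_nonneg_of_nonpos_of_nonpos (Mathlib.Tactic.Linarith.sub_nonpos_of_le hι) (le_of_lt (Mathlib.Tactic.Linarith.sub_neg_of_lt h.d0))]
  · linarith only [hI, h, h.I_le, h.R2_le, h.R2_pos]
  · have h1 : (S.P j).ι ≤ 1 := hι.trans (by norm_num)
    have h2 : (S.P j).ε ≤ 1 := h.ε_le.trans
      (mul_le_one₀ (pow_le_one₀ h.ι0.le h1) h.δ0.le (h.δι.trans h1))
    exact h.sR.trans (mul_le_of_le_one_left hR.le h2)

lemma global_R_succ (j : ℕ) : 1000 * (S.P (j + 1)).R ≤ (S.P j).I := by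
  linarith only [(S.R_succ j).1, (S.R_succ (j + 1)).2.1, (S.ok (j + 1)).d0]

lemma global_R_half (j : ℕ) : (S.P (j + 1)).R ≤ 1 / 2 * (S.P j).R := by
  linarith only [S.global_R_succ j, (S.R_succ j).2.2.1, (S.ok j).R_pos]

lemma R_anti {j k : ℕ} (h : j ≤ k) : (S.P k).R ≤ (S.P j).R :=
  antitone_nat_of_succ_le (f := fun j => (S.P j).R)
    (fun j => by linarith only [S.global_R_half j, (S.ok j).R_pos]) h

lemma tendsto_R : Tendsto (fun j => (S.P j).R) atTop (𝓝 0) := by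
  have h : ∀ j, (S.P j).R ≤ (1 / 2) ^ j * (S.P 0).R := by
    intro j
    induction j with
    | zero => simp
    | succ j ih =>
      rw [pow_succ]
      linarith only [ih, S.global_R_half j]
  refine squeeze_zero (fun j => (S.ok j).R_pos.le) h ?_
  simpa using (tendsto_pow_atTop_nhds_zero_of_lt_one (r := (1 / 2 : ℝ)) (by norm_num)
    (by norm_num)).mul_const (S.P 0).R

lemma abs_rr_sub (hx : 0 ≤ x.2) (c c' : ℝ) : |rr (sh c x) - rr (sh c' x)| ≤ |c - c'| := by
  have h1 := global_sqrt_le (a := x.1 - c) (b := x.1 - c') hx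
  have h2 := global_sqrt_le (a := x.1 - c') (b := x.1 - c) hx
  rw [sub_sub_sub_cancel_left] at h1 h2
  rw [abs_sub_comm] at h1
  unfold rr sh
  rw [abs_le]
  constructor <;> linarith only [h2, h1]

lemma sub_le_rr (hx : 0 ≤ x.2) (c c' : ℝ) : |c - c'| ≤ rr (sh c x) + rr (sh c' x) := by
  have h1 : |x.1 - c| ≤ rr (sh c x) := Real.abs_le_sqrt (le_add_of_nonneg_right hx)
  have h2 : |x.1 - c'| ≤ rr (sh c' x) := Real.abs_le_sqrt (le_add_of_nonneg_right hx)
  rw [abs_sub_comm] at h1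
  linarith [abs_sub_le c x.1 c']

lemma global_rr_le (hx : 0 ≤ x.2) (c c' : ℝ) : rr (sh c x) ≤ rr (sh c' x) + |c - c'| := by
  linarith [(abs_le.1 (abs_rr_sub hx c c')).2]

variable {S}

lemma In.unique (hx : 0 ≤ x.2) (h : S.In j c x) (h' : S.In j c' x) : c = c' := by
  by_contra hne
  linarith only [h, h', hne, hx, S.sep j c h.1 c' h'.1 hne, sub_le_rr hx c c', h.2, h'.2, (S.R_succ j).2.1,
    (S.ok j).R_pos]

lemma global_in (hc : c ∈ S.C j) (h : rr (sh c x) < (S.P j).I) : S.In j c x :=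
  ⟨hc, by linarith only [h, (S.R_succ j).2.2.1, (S.ok j).I_pos]⟩

lemma In.parent (hx : 0 ≤ x.2) {k : ℕ} (h : S.In k c x) (hj : j < k) :
    ∃ c' ∈ S.C j, rr (sh c' x) < (S.P j).I := by
  induction k generalizing c with
  | zero => omega
  | succ k ih =>
    obtain ⟨c', hc', e⟩ := S.nest k c h.1
    have h1 : rr (sh c' x) < (S.P k).I := by
      rw [abs_sub_comm] at e
      linarith only [e, hx, h, global_rr_le hx c' c, h.2, S.global_R_succ k, (S.ok k).I_pos]
    rcases Nat.lt_succ_iff_lt_or_eq.1 hj with hj | rfl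
    · exact ih (global_in hc' h1) hj
    · exact ⟨c', hc', h1⟩

lemma global_out (hc : c ∈ S.C j) (h : ¬ S.In j c x) :
    ∀ᶠ y in 𝓝 x, (S.P j).E (sh c y) - (S.P j).o.E y = 0 := by
  have h1 : 2 * (S.P j).R < rr (sh c x) := by
    by_contra h1
    exact h ⟨hc, by linarith [(S.ok j).R_pos]⟩
  filter_upwards [(global_cont c).continuousAt.eventually (lt_mem_nhds h1)] with y hy
  rw [(S.ok j).E_out hy.le, global_Th_sh, sub_self]

lemma global_succ (i : ℕ) (y : ℝ × ℝ) :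
    S.E (i + 1) y = S.E i y + ∑ c ∈ S.C i, ((S.P i).E (sh c y) - (S.P i).o.E y) := by
  simp only [E, Finset.sum_range_succ, add_assoc]

lemma global_succ_out (h : ∀ c, ¬ S.In i c x) : S.E (i + 1) =ᶠ[𝓝 x] S.E i := by
  filter_upwards [(eventually_all_finset (S.C i)).2 fun c hc => global_out hc (h c)] with y hy
  rw [global_succ, Finset.sum_eq_zero hy, add_zero]

lemma global_succ_in (hx : 0 ≤ x.2) (h : S.In i c x) (e : S.E i =ᶠ[𝓝 x] (S.P i).o.E) :
    S.E (i + 1) =ᶠ[𝓝 x] fun y => (S.P i).E (sh c y) := by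
  have h1 : ∀ᶠ y in 𝓝 x, ∀ c' ∈ S.C i, c' ≠ c → (S.P i).E (sh c' y) - (S.P i).o.E y = 0 := by
    refine (eventually_all_finset (S.C i)).2 fun c' hc' => ?_
    by_cases hne : c' = c
    · exact Eventually.of_forall fun y h => absurd hne h
    · exact (global_out hc' fun h' => hne (h'.unique hx h)).mono fun y hy _ => hy
  filter_upwards [h1, e] with y hy hy'
  rw [global_succ, Finset.sum_eq_single_of_mem c h.1 hy, hy', add_sub_cancel]

lemma global_zero (y : ℝ × ℝ) : S.E 0 y = (S.P 0).o.E y := by simp [E]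

lemma global_thick (hx : 0 ≤ x.2) (h : S.In i c x) : S.E i =ᶠ[𝓝 x] (S.P i).o.E := by
  induction i generalizing c with
  | zero => exact Eventually.of_forall global_zero
  | succ i ih =>
    obtain ⟨c', hc', h1⟩ := h.parent hx i.lt_succ_self
    have h2 := global_in hc' h1
    filter_upwards [global_succ_in hx h2 (ih h2),
      (global_cont c').continuousAt.eventually (gt_mem_nhds h1)] with y hy hy'
    rw [hy, (S.ok i).E_in hy'.le, global_Th_sh, S.link]

variable (S)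

theorem local_model (i : ℕ) (hx : 0 ≤ x.2) :
    ((∀ j < i, ∀ c, ¬ S.In j c x) ∧ S.E i =ᶠ[𝓝 x] (S.P 0).o.E) ∨
      ∃ J < i, ∃ c, S.In J c x ∧ (∀ j < i, ∀ c', S.In j c' x → j ≤ J) ∧
        S.E i =ᶠ[𝓝 x] fun y => (S.P J).E (sh c y) := by
  induction i with
  | zero => exact Or.inl ⟨fun j hj => absurd hj j.not_lt_zero, Eventually.of_forall global_zero⟩
  | succ i ih =>
    by_cases h : ∃ c, S.In i c x
    · obtain ⟨c, hc⟩ := h
      exact Or.inr ⟨i, i.lt_succ_self, c, hc, fun j hj _ _ => Nat.lt_succ_iff.1 hj,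
        global_succ_in hx hc (global_thick hx hc)⟩
    · rw [not_exists] at h
      have e := global_succ_out h
      rcases ih with ⟨h1, h2⟩ | ⟨J, hJ, c, h1, h2, h3⟩
      · refine Or.inl ⟨fun j hj => ?_, e.trans h2⟩
        rcases Nat.lt_succ_iff_lt_or_eq.1 hj with hj | rfl
        exacts [h1 j hj, h]
      · refine Or.inr ⟨J, hJ.trans i.lt_succ_self, c, h1, fun j hj c' hc' => ?_, e.trans h3⟩
        rcases Nat.lt_succ_iff_lt_or_eq.1 hj with hj | rfl
        exacts [h2 j hj c' hc', absurd hc' (h c')]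

theorem smooth (i : ℕ) (hx : 0 ≤ x.2) : ContDiffAt ℝ ∞ (S.E i) x := by
  rcases S.local_model i hx with ⟨-, h⟩ | ⟨J, -, c, -, -, h⟩
  · exact ((S.ok 0).ok_o.smooth hx).congr_of_eventuallyEq h
  · exact (((S.ok J).smooth (x := sh c x) hx).comp x
      (global_contDiff_sh c).contDiffAt).congr_of_eventuallyEq h

theorem adm (i : ℕ) (t : ℝ) {ρ : ℝ} (hρ : 0 < ρ) : Adm (S.E i) t ρ := by
  rcases S.local_model (x := (t, ρ ^ 2)) i (sq_nonneg ρ) with ⟨-, h⟩ | ⟨J, -, c, h1, -, h⟩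
  · exact ((S.ok 0).ok_o.adm t hρ (by rw [S.m0]; norm_num)).congr h
  · exact (Adm.shift c ((S.ok J).adm hρ h1.2)).congr h

lemma global_s_le (hx : 0 ≤ x.2) {k : ℕ} (hk : k ≤ i) (h : k < i → ∀ c, ¬ S.In k c x)
    (hc : c ∈ S.K) : (S.P k).o.s ^ 2 ≤ 4 * (rr (sh c x) ^ 2 + (S.P i).o.s ^ 2) := by
  rcases hk.eq_or_lt with rfl | hk
  · linarith only [sq_nonneg (rr (sh c x)), sq_nonneg (S.P k).o.s, sq_nonneg (S.P k).o.s, sq_nonneg (rr (sh c x))]
  · obtain ⟨c', hc', e⟩ := hc k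
    have h1 : 3 * (S.P k).R < rr (sh c' x) := not_le.1 fun h1 => h hk c' ⟨hc', h1⟩
    have h2 : (S.P k).o.s ≤ rr (sh c x) := by
      rw [abs_sub_comm] at e
      linarith only [e, h1, hx, global_rr_le hx c' c, (S.R_succ k).2.2.1, (S.R_succ k).2.2.2, (S.ok k).I_pos]
    have h3 := pow_le_pow_left₀ (S.ok k).s0.le h2 2
    linarith only [h3, sq_nonneg (rr (sh c x)), sq_nonneg (S.P i).o.s, sq_nonneg (S.P i).o.s, sq_nonneg (rr (sh c x))]

/-- The size of the bubble at `x`. -/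
theorem exists_lbat (i : ℕ) (hx : 0 ≤ x.2) : ∃ b, 0 < b ∧ LBat (S.E i x) x.2 b ∧
    (∀ c ∈ S.K, b ^ 2 ≤ 4 * (rr (sh c x) ^ 2 + (S.P i).o.s ^ 2)) ∧
    ∀ j < i, ∀ c ∈ S.C j, rr (sh c x) < (S.P j).I → b ≤ 3 * (S.P (j + 1)).R := by
  rcases S.local_model i hx with ⟨h1, h⟩ | ⟨J, hJ, c, h1, h2, h⟩
  · refine ⟨(S.P 0).o.s, (S.ok 0).s0, ?_, fun c hc => S.global_s_le hx i.zero_le (h1 0) hc,
      fun j hj c hc h2 => absurd (global_in hc h2) (h1 j hj c)⟩
    rw [h.self_of_nhds]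
    exact (S.ok 0).ok_o.lbat hx (by rw [S.m0]; norm_num)
  · rw [h.self_of_nhds]
    have hI := (S.ok J).I_pos
    rcases le_total (S.P J).I (rr (sh c x)) with h3 | h3
    · refine ⟨rr (sh c x), hI.trans_le h3, (S.ok J).lbat_ann (x := sh c x) hx h3 h1.2,
        fun c₀ hc₀ => ?_, fun j hj c' hc' h4 => ?_⟩
      · obtain ⟨c', hc', e⟩ := hc₀ J
        rw [abs_sub_comm] at e
        have h4 : rr (sh c x) ≤ 2 * rr (sh c₀ x) := by
          by_cases hne : c = c'
          · subst hne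
            linarith only [h3, e, hx, global_rr_le hx c c₀]
          · linarith only [hI, h3, e, hx, h1, hc', hne, global_rr_le hx c' c₀, S.sep J c h1.1 c' hc' hne, sub_le_rr hx c c', h1.2,
              (S.R_succ J).2.1, (S.R_succ J).2.2.1]
        have h5 := pow_le_pow_left₀ (global_rr_nonneg _) h4 2
        linarith only [h5, sq_nonneg (S.P i).o.s, sq_nonneg (S.P i).o.s]
      · have h5 := global_in hc' h4
        rcases (h2 j hj c' h5).eq_or_lt with rfl | h6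
        · rw [h5.unique hx h1] at h4
          exact absurd h4 h3.not_gt
        · linarith only [h1, h6, h1.2, S.R_anti (Nat.succ_le_of_lt h6)]
    · refine ⟨(S.P J).i.s, (S.ok J).si0, (S.ok J).lbat_in (x := sh c x) hx h3,
        fun c₀ hc₀ => ?_, fun j hj c' hc' h4 => ?_⟩
      · rw [S.link]
        exact S.global_s_le hx hJ (fun h4 c' h5 => absurd (h2 _ h4 c' h5) J.not_succ_le_self) hc₀
      · rw [S.link]
        linarith only [h2, hj, hc', h4, (S.R_succ (J + 1)).2.2.2, (S.ok (j + 1)).R_pos,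
          S.R_anti (Nat.succ_le_succ (h2 j hj c' (global_in hc' h4)))]

theorem e5_cone (hx : 0 ≤ x.2) (hj : j < i) (hc : c ∈ S.C j)
    (h1 : 10 * (S.P j).I * Real.exp (S.P j).L ≤ rr (sh c x))
    (h2 : rr (sh c x) ≤ (S.P j).R2 / 4 * Real.exp (-(S.P j).L)) :
    rr (sh c x) ^ 2 ≤ 100 * S.E i x 4 := by
  have hL : 0 ≤ (S.P j).L := le_trans (by norm_num) (S.ok j).L_ge.1
  have hI := (S.ok j).I_pos
  have hR := (S.ok j).R2_pos
  have h3 : S.In j c x := by
    refine ⟨hc, h2.trans ?_⟩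
    have h3 := mul_le_of_le_one_right (a := (S.P j).R2 / 4) (by positivity)
      (Real.exp_le_one_iff.2 (neg_nonpos.2 hL))
    linarith only [hR, h3, (S.ok j).R2_le]
  rcases S.local_model i hx with ⟨h4, -⟩ | ⟨J, -, c', h4, h5, h⟩
  · exact absurd h3 (h4 j hj c)
  · rcases (h5 j hj c h3).eq_or_lt with rfl | h6
    · rw [h.self_of_nhds, h4.unique hx h3]
      exact (S.ok j).e5_cone (x := sh c x) hx h1 h2
    · obtain ⟨c'', hc'', h7⟩ := h4.parent hx h6
      rw [(global_in hc'' h7).unique hx h3] at h7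
      have h8 := le_mul_of_one_le_right (a := 10 * (S.P j).I) (by positivity) (Real.one_le_exp hL)
      linarith only [h1, hI, h7, h8]

end Sys

end

end Pool.Agent.Work.MP_a9fb1f_gt
end

-- merged part: Pool.Agent.Work.MP_a9fb1f_gt.GlobalB
section
/-! The nested metrics satisfy the scale invariant bounds. -/

set_option autoImplicit false

open scoped Manifold ContDiff Topology ENNReal Bundle RealInnerProductSpace
open Filter Set

namespace Pool.Agent.Work.MP_a9fb1f_gt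

noncomputable section

lemma globalB_rr_sq {x : ℝ × ℝ} (hx : 0 ≤ x.2) (c : ℝ) :
    rr (sh c x) ^ 2 = (x.1 - c) ^ 2 + x.2 :=
  Real.sq_sqrt (add_nonneg (sq_nonneg _) hx)

lemma globalB_sq {a b : ℝ} (h : a ^ 2 ≤ b ^ 2) (hb : 0 ≤ b) : a ≤ b :=
  (abs_le_of_sq_le_sq' h hb).2

lemma globalB_rr_nonneg (x : ℝ × ℝ) : 0 ≤ rr x := Real.sqrt_nonneg _

lemma globalB_R_le (S : Sys) (j : ℕ) : (S.P j).R ≤ (S.P j).o.d := by
  have h1 := (S.R_succ j).2.1
  have h2 := (S.ok j).R_pos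
  linarith

lemma globalB_good (S : Sys) (i : ℕ) : Good (S.E i) where
  smooth := fun _ hx => S.smooth i hx
  pos := fun x a ζ β γ h h' => by
    obtain ⟨b, -, hb, -⟩ := S.exists_lbat i (x := x) h.z0
    exact hb.pos a ζ β γ h h'

lemma globalB_std (S : Sys) {c : ℝ} (hc : c ∈ S.K) (i : ℕ) :
    Std (5 * 10 ^ 7) c (S.P i).o.s (S.E i) := by
  constructor
  · intro x a ζ β γ h
    obtain ⟨b, -, hb, hb1, -⟩ := S.exists_lbat i (x := x) h.z0
    have h1 := hb1 c hc
    rw [globalB_rr_sq h.z0] at h1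
    have h2 := hb.up a ζ β γ h
    have h3 : x.2 + b ^ 2 ≤ 5 * ((x.1 - c) ^ 2 + x.2 + (S.P i).o.s ^ 2) := by
      linarith only [h1, sq_nonneg (x.1 - c), sq_nonneg (S.P i).o.s, sq_nonneg (S.P i).o.s, sq_nonneg (x.1 - c)]
    have h4 := mul_le_mul_of_nonneg_right h3 h.c0
    linarith only [h2, h4, h, sq_nonneg a, h.b0, sq_nonneg a]
  · intro x a ζ β γ h
    obtain ⟨b, hb0, hb, hb1, -⟩ := S.exists_lbat i (x := x) h.z0
    have h1 := hb1 c hc
    rw [globalB_rr_sq h.z0] at h1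
    have h2 := hb.low a ζ β γ h
    have h3 : x.2 + b ^ 2 ≤ 5 * ((x.1 - c) ^ 2 + x.2 + (S.P i).o.s ^ 2) := by
      linarith only [h1, sq_nonneg (x.1 - c), sq_nonneg (S.P i).o.s, sq_nonneg (S.P i).o.s, sq_nonneg (x.1 - c)]
    have hp : 0 < x.2 + b ^ 2 := add_pos_of_nonneg_of_pos h.z0 (pow_pos hb0 2)
    have hD : 0 < (x.1 - c) ^ 2 + x.2 + (S.P i).o.s ^ 2 := by linarith only [h3, hp]
    have h4 : x.2 / ((x.1 - c) ^ 2 + x.2 + (S.P i).o.s ^ 2) ≤ 5 * (x.2 / (x.2 + b ^ 2)) := by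
      rw [← mul_div_assoc, div_le_div_iff₀ hD hp]
      linarith only [h3, h, mul_le_mul_of_nonneg_left h3 h.z0]
    have h5 := mul_le_mul_of_nonneg_right h4 h.b0
    have h6 := mul_nonneg h.z0 h.c0
    linarith only [h2, h5, h6, sq_nonneg a, sq_nonneg a]

lemma globalB_thick (S : Sys) {c : ℝ} (hc : c ∈ S.K) :
    ∃ ρ : ℕ → ℝ, (∀ j, 0 < ρ j) ∧ Tendsto ρ atTop (𝓝 0) ∧
      ∀ Λ η : ℝ, 0 < η → ∀ᶠ j in atTop, ∀ᶠ i in atTop, ∀ t, |t - c| ≤ Λ * ρ j →
        S.E i (t, 0) 4 ≤ (η * ρ j) ^ 2 := by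
  have hI : ∀ j, 0 < (S.P j).I := fun j => (S.ok j).I_pos
  have hd : ∀ j, 0 < (S.P j).i.d := fun j => (S.ok j).di0
  refine ⟨fun j => √((S.P j).i.d * (S.P j).I),
    fun j => Real.sqrt_pos.2 (mul_pos (hd j) (hI j)), ?_, fun Λ η hη => ?_⟩
  · refine squeeze_zero (fun j => Real.sqrt_nonneg _) (fun j => ?_) S.tendsto_R
    have h1 := (S.ok j).di
    have h2 := (S.ok j).ι_le
    have h3 := (S.R_succ j).2.2.1
    have h4 := hI j
    have h5 : (S.P j).i.d ≤ (S.P j).I := by linarith only [h1, h4, h2, mul_nonneg_of_nonpos_of_nonpos (Mathlib.Tactic.Linarith.sub_nonpos_of_le h2) (le_of_lt (Mathlib.Tactic.Linarith.sub_neg_of_lt h4))]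
    have h6 : √((S.P j).i.d * (S.P j).I) ≤ (S.P j).I :=
      Real.sqrt_le_iff.2 ⟨h4.le, by linarith only [h2, h1, h4, sq_nonneg (S.P j).I, mul_nonneg_of_nonpos_of_nonpos (Mathlib.Tactic.Linarith.sub_nonpos_of_le (sq_nonneg (S.P j).I)) (Mathlib.Tactic.Linarith.sub_nonpos_of_le h2), mul_nonneg_of_nonpos_of_nonpos (Mathlib.Tactic.Linarith.sub_nonpos_of_le h1) (le_of_lt (Mathlib.Tactic.Linarith.sub_neg_of_lt h4))]⟩
    linarith only [h3, h4, h6]
  · have e1 : ∀ᶠ j in atTop, (S.P j).i.d / (S.P j).I < 1 / (16 * (Λ ^ 2 + 1)) :=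
      S.thick.eventually (gt_mem_nhds (by positivity))
    have e2 : ∀ᶠ j in atTop, (S.P j).i.d / (S.P j).I < η ^ 2 / 10 ^ 8 :=
      S.thick.eventually (gt_mem_nhds (by positivity))
    filter_upwards [e1, e2] with j h1 h2
    filter_upwards [eventually_gt_atTop j] with i hi t ht
    obtain ⟨c', hc', hcc⟩ := hc j
    have hI' := hI j
    have hd' := hd j
    rw [div_lt_div_iff₀ hI' (by positivity)] at h1 h2
    have hsq : √((S.P j).i.d * (S.P j).I) ^ 2 = (S.P j).i.d * (S.P j).I :=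
      Real.sq_sqrt (mul_pos hd' hI').le
    have h3 : Λ * √((S.P j).i.d * (S.P j).I) ≤ (S.P j).I / 4 := by
      refine globalB_sq ?_ (by positivity)
      rw [mul_pow, hsq]
      linarith only [hd', hI', h1, mul_pos hd' hI', mul_lt_mul_of_pos_right h1 hI']
    have h4 : rr (sh c' (t, 0)) < (S.P j).I := by
      have h5 : rr (sh c' (t, 0)) = |t - c'| := by
        simp only [rr, sh, add_zero, Real.sqrt_sq_eq_abs]
      have h6 := abs_sub_le t c c'
      simp only at hcc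
      rw [h5]
      linarith only [ht, hcc, hI', h3, h6]
    obtain ⟨b, hb0, hb, -, hb1⟩ := S.exists_lbat i (x := (t, 0)) le_rfl
    have h5 := hb1 j hi c' hc' h4
    have h6 := globalB_R_le S (j + 1)
    rw [← S.link j] at h6
    have h7 := hb.up 0 0 0 1 ⟨le_rfl, le_rfl, zero_le_one, by norm_num⟩
    have h8 : Qf (S.E i (t, 0)) 0 0 0 1 = S.E i (t, 0) 4 := by simp [Qf]
    have h9 : b ^ 2 ≤ (3 * (S.P j).i.d) ^ 2 := pow_le_pow_left₀ hb0.le (by linarith only [h5, h6]) 2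
    rw [h8] at h7
    rw [mul_pow, hsq]
    simp only at h7
    linarith only [h7, h9, h2, hd', mul_lt_mul_of_pos_right h2 hd', mul_pos hd' hd', mul_self_nonneg (S.P j).i.d]

lemma globalB_cone (S : Sys) {c : ℝ} (hc : c ∈ S.K) :
    ∃ ρ : ℕ → ℝ, (∀ j, 0 < ρ j) ∧ Tendsto ρ atTop (𝓝 0) ∧
      ∀ Λ : ℝ, 1 ≤ Λ → ∀ᶠ j in atTop, ∀ᶠ i in atTop,
        Cone (5 * 10 ^ 7) c (ρ j / Λ) (Λ * ρ j) (S.E i) := by
  have hI : ∀ j, 0 < (S.P j).I := fun j => (S.ok j).I_pos
  have hL : ∀ j, 0 ≤ (S.P j).L := fun j => le_trans (by norm_num) (S.ok j).L_ge.1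
  have he : ∀ j, Real.exp ((S.P j).L / 2) = Real.exp ((S.P j).L / 4) * Real.exp ((S.P j).L / 4) :=
    fun j => by rw [← Real.exp_add]; congr 1; ring
  refine ⟨fun j => 2 * (10 * (S.P j).I * Real.exp (S.P j).L) * Real.exp ((S.P j).L / 4),
    fun j => by have := hI j; positivity, ?_, fun Λ hΛ => ?_⟩
  · refine squeeze_zero (fun j => by have := hI j; positivity) (fun j => ?_) S.tendsto_R
    have h1 := (S.ok j).tau_range
    have h2 := (S.ok j).R2_le
    have h3 := (S.ok j).R2_pos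
    have h4 : Real.exp (-(S.P j).L) ≤ 1 := Real.exp_le_one_iff.2 (by linarith only [hL, hL j])
    have h5 : 1 ≤ Real.exp ((S.P j).L / 4) := Real.one_le_exp (by linarith only [hL, hL j])
    have h6 : 0 < 10 * (S.P j).I * Real.exp (S.P j).L * Real.exp ((S.P j).L / 4) := by
      have := hI j
      positivity
    rw [he] at h1
    linarith only [h1, h2, h3, h5, h6, h4, mul_le_mul_of_nonneg_left h5 h6.le, mul_le_mul_of_nonneg_left h4 h3.le]
  · filter_upwards [S.long.eventually_ge_atTop (4 * Λ)] with j h1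
    filter_upwards [eventually_gt_atTop j] with i hi x u ζ β γ h ha hb
    obtain ⟨c', hc', hcc⟩ := hc j
    simp only at hcc
    have hI' := hI j
    obtain ⟨a, hae⟩ : ∃ a, a = 10 * (S.P j).I * Real.exp (S.P j).L := ⟨_, rfl⟩
    obtain ⟨q, hq⟩ : ∃ q, q = Real.exp ((S.P j).L / 4) := ⟨_, rfl⟩
    have htau := (S.ok j).tau_range
    rw [he, ← hae, ← hq] at htau
    rw [← hae, ← hq, ← globalB_rr_sq h.z0] at ha hb
    have hΛq : Λ ≤ q := by
      have := Real.add_one_le_exp ((S.P j).L / 4)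
      rw [hq]
      linarith only [h1, this]
    have haI : 10 * (S.P j).I ≤ a := by
      rw [hae]
      exact le_mul_of_one_le_right (by positivity) (Real.one_le_exp (hL j))
    have ha0 : 0 < a := by linarith only [hI', haI]
    have hΛ0 : 0 < Λ := by linarith only [hΛ]
    have hq0 : 0 < q := by linarith only [hΛ, hΛq]
    have hr0 := globalB_rr_nonneg (sh c x)
    have h2 : 2 * a ≤ rr (sh c x) := by
      refine le_trans ?_ (globalB_sq ha hr0)
      rw [le_div_iff₀ (by linarith only [hΛ])]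
      linarith only [hI', hΛq, haI, mul_nonneg_of_nonpos_of_nonpos (le_of_lt (Mathlib.Tactic.Linarith.sub_neg_of_lt hI')) (Mathlib.Tactic.Linarith.sub_nonpos_of_le hΛq), mul_nonneg_of_nonpos_of_nonpos (Mathlib.Tactic.Linarith.sub_nonpos_of_le hΛq) (Mathlib.Tactic.Linarith.sub_nonpos_of_le haI)]
    have h3 : rr (sh c x) ≤ 2 * a * (q * q) := by
      refine (globalB_sq hb (by positivity)).trans ?_
      linarith only [hΛq, ha0, hq0, mul_le_mul_of_nonneg_left hΛq (show 0 ≤ 2 * a * q by positivity)]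
    have h4 := abs_le.1 ((Sys.abs_rr_sub h.z0 c c').trans hcc)
    have hq1 : 1 ≤ q * q := by linarith only [hΛ, hΛq, mul_nonneg_of_nonpos_of_nonpos (Mathlib.Tactic.Linarith.sub_nonpos_of_le hΛ) (Mathlib.Tactic.Linarith.sub_nonpos_of_le hΛ), mul_nonneg_of_nonpos_of_nonpos (Mathlib.Tactic.Linarith.sub_nonpos_of_le hΛ) (Mathlib.Tactic.Linarith.sub_nonpos_of_le hΛq), mul_nonneg_of_nonpos_of_nonpos (Mathlib.Tactic.Linarith.sub_nonpos_of_le hΛq) (Mathlib.Tactic.Linarith.sub_nonpos_of_le hΛq)]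
    have h5 := S.e5_cone h.z0 hi hc' (by rw [← hae]; linarith only [hI', haI, h2, h4, h4.2])
      (by linarith only [hI', htau, haI, h2, h3, h4, h4.1, mul_le_mul_of_nonneg_left hq1 ha0.le])
    obtain ⟨b, -, hb', -⟩ := S.exists_lbat i (x := x) h.z0
    have h6 := hb'.e5 u ζ β γ h
    have h7 : rr (sh c x) ^ 2 ≤ (2 * rr (sh c' x)) ^ 2 :=
      pow_le_pow_left₀ hr0 (by linarith only [hI', haI, h2, h4, h4.2]) 2
    have h8 : rr (sh c x) ^ 2 ≤ 400 * S.E i x 4 := by linarith only [h5, h7]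
    have h9 := mul_le_mul_of_nonneg_right h8 h.c0
    have h10 := mul_nonneg (sq_nonneg (rr (sh c x))) h.c0
    rw [← globalB_rr_sq h.z0]
    linarith only [h6, h9, h10]

theorem exists_data : Nonempty Data := by
  obtain ⟨S⟩ := exists_sys
  have hs : ∀ i, (S.P i).o.s ≤ (S.P i).R := fun i => (S.R_succ i).2.2.2
  exact ⟨{
    E := S.E
    C := 5 * 10 ^ 7
    s := fun i => (S.P i).o.s
    K := S.K
    C1 := by norm_num
    good := globalB_good S
    adm := fun i t _ hρ => S.adm i t hρ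
    s0 := fun i => (S.ok i).s0.le
    s1 := fun i => ((hs i).trans (globalB_R_le S i)).trans (S.ok i).d1
    slim := squeeze_zero (fun i => (S.ok i).s0.le) hs S.tendsto_R
    zero := S.zero
    dim := S.dim
    std := fun _ hc i => globalB_std S hc i
    thick := fun _ hc => globalB_thick S hc
    cone := fun _ hc => globalB_cone S hc }⟩

end

end Pool.Agent.Work.MP_a9fb1f_gt
end

-- merged part: Pool.Agent.Work.MP_a9fb1f_gt.Final
section
/-! Assembly. -/

set_option autoImplicit false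

open scoped Manifold ContDiff Topology ENNReal Bundle RealInnerProductSpace
open Filter Set

namespace Pool.Agent.Work.MP_a9fb1f_gt

noncomputable section

/-- A point of the axis. -/
def p0 : Mf := ⟨(0, outer (EuclideanSpace.single 0 1) (EuclideanSpace.single 0 1), 0),
  EuclideanSpace.single 0 1, 0, by simp, by simp, rfl, by ext ij; simp [outer]⟩

lemma dil_p0 (c r : ℝ) : dil c r p0 = dil c 1 p0 := by
  apply Subtype.ext
  simp [dil, dilA, p0]

lemma continuous_f1 : Continuous f1 := by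
  unfold f1
  fun_prop

lemma continuous_f2 : Continuous f2 := by
  unfold f2
  fun_prop

lemma proper_f1 (a : ℝ) : ∃ K : Set Mf, IsCompact K ∧ ∀ p, ‖f1 p‖ ≤ a → p ∈ K :=
  ⟨_, isCompact_box a, fun p hp => ⟨(norm_fst_le (f1 p)).trans hp, (norm_snd_le (f1 p)).trans hp⟩⟩

lemma proper_f2 (a : ℝ) : ∃ K : Set Mf, IsCompact K ∧ ∀ p, ‖f2 p‖ ≤ a → p ∈ K := by
  refine ⟨_, isCompact_box a, fun p hp => ?_⟩
  have h1 : ‖f2 p‖ ^ 2 = p.1.1 ^ 2 + ‖p.1.2.2‖ ^ 2 := norm_A_sq p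
  have h0 := norm_nonneg (f2 p)
  constructor
  · refine le_trans (abs_le_of_sq_le_sq ?_ h0) hp
    nlinarith only [h1, sq_nonneg ‖p.1.2.2‖]
  · refine le_trans (le_trans (le_abs_self _) (abs_le_of_sq_le_sq ?_ h0)) hp
    nlinarith only [h1, sq_nonneg p.1.1]

variable (D : Data) {φ : ℕ → ℕ} {d : Mf → Mf → ℝ}

/-- The rescaled limit distance. -/
def dr (d : Mf → Mf → ℝ) (c r : ℝ) (p q : Mf) : ℝ := d (dil c r p) (dil c r q) / r

lemma tendsto_dr (hl : ∀ p q, Tendsto (fun k => dE (D.E (φ k)) p q) atTop (𝓝 (d p q))) (c : ℝ)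
    {r : ℝ} (hr : 0 < r) (p q : Mf) :
    Tendsto (fun k => dE (resc (D.E (φ k)) c r) p q) atTop (𝓝 (dr d c r p q)) := by
  simp only [dE_resc _ c hr]
  exact (hl _ _).div_const r

lemma std_resc (hφ : StrictMono φ) {c : ℝ} (hc : c ∈ D.K) {r η : ℝ} (hr : 0 < r) (hη : 0 < η) :
    ∀ᶠ k in atTop, Std D.C 0 η (resc (D.E (φ k)) c r) := by
  have h1 : ∀ᶠ k in atTop, D.s (φ k) < η * r :=
    (D.slim.comp hφ.tendsto_atTop).eventually (gt_mem_nhds (mul_pos hη hr))
  filter_upwards [h1] with k hk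
  exact ((D.std c hc _).resc hr).mono (by linarith [D.C1]) (div_nonneg (D.s0 _) hr.le)
    ((div_le_iff₀ hr).2 hk.le)

lemma stdD_dr (hφ : StrictMono φ)
    (hl : ∀ p q, Tendsto (fun k => dE (D.E (φ k)) p q) atTop (𝓝 (d p q))) {c : ℝ} (hc : c ∈ D.K)
    {r : ℝ} (hr : 0 < r) : StdD (8 * D.C) (dr d c r) :=
  stdD_of_tendsto ((std_resc D hφ hc hr one_pos).mono fun _ hk =>
    stdD_dE ((D.good _).resc c hr) D.C1 hk) (tendsto_dr D hl c hr)

lemma exists_cone (hφ : StrictMono φ)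
    (hl : ∀ p q, Tendsto (fun k => dE (D.E (φ k)) p q) atTop (𝓝 (d p q))) {X : Type}
    [MetricSpace X] {pr : Mf → X} (hs : Function.Surjective pr)
    (hd : ∀ p q, dist (pr p) (pr q) = d p q) {c : ℝ} (hc : c ∈ D.K) {ρ : ℕ → ℝ}
    (h0 : ∀ j, 0 < ρ j) (h1 : Tendsto ρ atTop (𝓝 0)) :
    ∃ (ψ : ℕ → ℕ) (e : Mf → Mf → ℝ) (Y : PtSpace) (q : Mf → Y.X), StrictMono ψ ∧
      StdD (8 * D.C) e ∧ (∀ a b, Tendsto (fun j => dr d c (ρ (ψ j)) a b) atTop (𝓝 (e a b))) ∧
      Function.Surjective q ∧ (∀ a b, dist (q a) (q b) = e a b) ∧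
      IsTangentCone (pr (dil c 1 p0)) Y := by
  obtain ⟨ψ, e, hψ, he, hc'⟩ := exists_limit fun j => stdD_dr D hφ hl hc (h0 j)
  obtain ⟨Y, q, hq, hb, hqd⟩ := exists_quot he p0
  refine ⟨ψ, e, Y, q, hψ, he, hc'.tendsto, hq, hqd, fun j => ρ (ψ j), fun j => h0 _,
    h1.comp hψ.tendsto_atTop, ?_⟩
  have := pgh_of (fun j => stdD_dr D hφ hl hc (h0 (ψ j))) he hc' p0 (Z := fun _ => X)
    (e := fun j a b => dist a b / ρ (ψ j)) (fun j p => pr (dil c (ρ (ψ j)) p))
    (fun j => hs.comp (dil_surjective c (h0 _).ne')) (fun j a b => by rw [hd]; rfl) hq hb hqd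
  simpa only [dil_p0 c (ρ (ψ _))] using this

lemma eq_zero_of_le {C : ℝ} {e : Mf → Mf → ℝ} (he : StdD C e) {a b : Mf} {L : ℝ}
    (h : ∀ η, 0 < η → e a b ≤ L * η) : e a b = 0 := by
  refine le_antisymm ?_ (he.nonneg a b)
  have : Tendsto (fun η : ℝ => L * η) (𝓝[>] 0) (𝓝 (L * 0)) :=
    (continuous_const.mul continuous_id).continuousAt.tendsto.mono_left nhdsWithin_le_nhds
  rw [mul_zero] at this
  exact ge_of_tendsto this (eventually_mem_nhdsWithin.mono fun η hη => h η hη)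

lemma bad_point (hφ : StrictMono φ)
    (hl : ∀ p q, Tendsto (fun k => dE (D.E (φ k)) p q) atTop (𝓝 (d p q))) {X : Type}
    [MetricSpace X] {pr : Mf → X} (hs : Function.Surjective pr)
    (hd : ∀ p q, dist (pr p) (pr q) = d p q) {c : ℝ} (hc : c ∈ D.K) :
    ∃ Y Y' : PtSpace, IsTangentCone (pr (dil c 1 p0)) Y ∧ IsTangentCone (pr (dil c 1 p0)) Y' ∧
      IsEmpty (Y.X ≃ₜ Y'.X) := by
  obtain ⟨ρ, h0, h1, h2⟩ := D.thick c hc
  obtain ⟨ψ, e, Y, q, hψ, he, hlim, hq, hqd, hY⟩ := exists_cone D hφ hl hs hd hc h0 h1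
  obtain ⟨ρ', h0', h1', h2'⟩ := D.cone c hc
  obtain ⟨ψ', e', Y', q', hψ', he', hlim', hq', hqd', hY'⟩ := exists_cone D hφ hl hs hd hc h0' h1'
  have k1 : ∀ a b, e a b = 0 ↔ f1 a = f1 b := by
    refine fun a b => ⟨he.f1_eq, fun h => ?_⟩
    have ht : a.1.1 = b.1.1 := (Prod.ext_iff.1 h).1
    have hN : a.1.2.2 = b.1.2.2 := (Prod.ext_iff.1 h).2
    by_cases hz : a.1.2.2 = 0
    · refine eq_zero_of_le he (L := 4) fun η hη => le_of_tendsto (hlim a b) ?_
      filter_upwards [hψ.tendsto_atTop.eventually (h2 |a.1.1| η hη)] with j hj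
      refine le_of_tendsto (tendsto_dr D hl c (h0 _) a b) ?_
      filter_upwards [hφ.tendsto_atTop.eventually hj] with k hk
      refine dE_axis ht hz (hN ▸ hz) hη.le ?_
      have := hk (c + ρ (ψ j) * a.1.1) (by
        rw [add_sub_cancel_left, abs_mul, abs_of_pos (h0 _), mul_comm])
      simp only [resc, mul_zero, Matrix.cons_val]
      rw [div_le_iff₀ (pow_pos (h0 _) 2), ← mul_pow]
      exact this
    · rw [eq_of_N_eq ht hN hz, he.self]
  have k2 : ∀ a b, e' a b = 0 ↔ f2 a = f2 b := by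
    refine fun a b => ⟨fun h => ?_, fun h => ?_⟩
    · have h' := he'.f1_eq h
      have ht : a.1.1 = b.1.1 := (Prod.ext_iff.1 h').1
      have hN : a.1.2.2 = b.1.2.2 := (Prod.ext_iff.1 h').2
      by_cases hz : a.1.2.2 = 0
      · by_cases ht0 : a.1.1 = 0
        · simp only [f2, ← ht, ← hN, ht0, zero_smul]
        · by_contra hne
          obtain ⟨Λ, δ, hΛ, hδ, hsep⟩ := cone_sep D.C1 ht ht0 hz (hN ▸ hz)
            fun hab => hne (by rw [hab])
          have : δ ≤ e' a b := by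
            refine ge_of_tendsto (hlim' a b) ?_
            filter_upwards [hψ'.tendsto_atTop.eventually (h2' Λ hΛ)] with j hj
            refine ge_of_tendsto (tendsto_dr D hl c (h0' _) a b) ?_
            filter_upwards [hφ.tendsto_atTop.eventually hj,
              std_resc D hφ hc (h0' (ψ' j)) one_pos] with k hk hk'
            refine hsep _ ((D.good _).resc c (h0' _)) hk' ?_
            have h3 := hk.resc (h0' (ψ' j))
            have h4 := (h0' (ψ' j)).ne'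
            have h5 : ρ' (ψ' j) / Λ / ρ' (ψ' j) = 1 / Λ := by field_simp
            rwa [h5, mul_div_cancel_right₀ _ h4] at h3
          linarith
      · rw [eq_of_N_eq ht hN hz]
    · by_cases hz : f2 a = 0
      · have z1 : ∀ p : Mf, f2 p = 0 → p.1.1 = 0 ∧ p.1.2.2 = 0 := by
          intro p hp
          have h1 : ‖f2 p‖ ^ 2 = p.1.1 ^ 2 + ‖p.1.2.2‖ ^ 2 := norm_A_sq p
          rw [hp, norm_zero] at h1
          have h2 := sq_nonneg p.1.1
          have h3 := sq_nonneg ‖p.1.2.2‖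
          exact ⟨pow_eq_zero_iff two_ne_zero |>.1 (by linarith only [h2, h1, h3]),
            norm_eq_zero.1 (pow_eq_zero_iff two_ne_zero |>.1 (by linarith))⟩
        obtain ⟨a1, a2⟩ := z1 a hz
        obtain ⟨b1, b2⟩ := z1 b (h ▸ hz)
        refine eq_zero_of_le he' (L := 4 * D.C) fun η hη => le_of_tendsto' (hlim' a b) fun j => ?_
        refine le_of_tendsto (tendsto_dr D hl c (h0' _) a b) ?_
        filter_upwards [std_resc D hφ hc (h0' (ψ' j)) hη] with k hk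
        have hC := D.C1
        rw [mul_assoc]
        refine dE_axis (a1.trans b1.symm) a2 b2 (by positivity) ?_
        rw [a1]
        refine hk.e5.trans ?_
        rw [mul_pow]
        exact mul_le_mul_of_nonneg_right (by linarith only [hC, mul_nonneg_of_nonpos_of_nonpos (Mathlib.Tactic.Linarith.sub_nonpos_of_le hC) (Mathlib.Tactic.Linarith.sub_nonpos_of_le hC)]) (sq_nonneg _)
      · rw [eq_of_A_eq h hz, he'.self]
  obtain ⟨g1⟩ := homeo_of he hq hqd continuous_f1 proper_f1 k1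
  obtain ⟨g2⟩ := homeo_of he' hq' hqd' continuous_f2 proper_f2 k2
  exact ⟨Y, Y', hY, hY', ⟨fun g => not_homeo.false (g1.symm.trans (g.trans g2))⟩⟩

include D in
theorem main_of_data : ∃ X : PtSpace, IsRicciLimit 5 X ∧
    0 < dimH {x : X.X | ∃ Y Y' : PtSpace, IsTangentCone x Y ∧ IsTangentCone x Y' ∧
      IsEmpty (Y.X ≃ₜ Y'.X)} := by
  have hC := D.C1
  have hstd : ∀ i, Std D.C 0 1 (D.E i) := fun i =>
    (D.std 0 D.zero i).mono (by linarith) (D.s0 i) (D.s1 i)
  have hd : ∀ i, StdD (8 * D.C) (dE (D.E i)) := fun i => stdD_dE (D.good i) hC (hstd i)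
  obtain ⟨φ, d, hφ, hD, hconv⟩ := exists_limit hd
  obtain ⟨b, v, hv, hvol⟩ := exists_vol hC
  obtain ⟨X, pr, hs, hb, hdist⟩ := exists_quot hD b
  choose N pk hsurj hdk hric using fun i => exists_riem (D.good (φ i)) (D.adm _) fun p a => by
    obtain ⟨K, hK, h⟩ := exists_compact (8 * D.C) p a
    exact ⟨K, hK, h _ (hd _)⟩
  refine ⟨X, ⟨v, N, fun i => pk i b, hv,
    fun i => ⟨hric i, hvol _ (D.good _) (hstd _) _ _ (hsurj i) (hdk i)⟩,
    pgh_of (fun k => hd (φ k)) hD hconv b pk hsurj hdk hs hb hdist⟩, ?_⟩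
  let τ : X.X → ℝ := fun x => (Function.surjInv hs x).1.1
  have hτ : LipschitzWith ⟨8 * D.C, by positivity⟩ τ := by
    refine LipschitzWith.of_dist_le_mul fun x y => ?_
    have := hD.lowt (Function.surjInv hs x) (Function.surjInv hs y)
    rw [← hdist, Function.surjInv_eq hs, Function.surjInv_eq hs] at this
    exact this
  refine lt_of_lt_of_le D.dim (le_trans (dimH_mono fun c hc => ?_) (hτ.dimH_image_le _))
  refine ⟨pr (dil c 1 p0), bad_point D hφ hconv.tendsto hs hdist hc, ?_⟩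
  have := hD.lowt (Function.surjInv hs (pr (dil c 1 p0))) (dil c 1 p0)
  rw [← hdist, Function.surjInv_eq hs, dist_self, mul_zero, abs_nonpos_iff, sub_eq_zero] at this
  refine this.trans ?_
  simp [dil, dilA, p0]

theorem main : ∃ X : PtSpace, IsRicciLimit 5 X ∧
    0 < dimH {x : X.X | ∃ Y Y' : PtSpace, IsTangentCone x Y ∧ IsTangentCone x Y' ∧
      IsEmpty (Y.X ≃ₜ Y'.X)} :=
  exists_data.elim main_of_data

end

end Pool.Agent.Work.MP_a9fb1f_gt
end
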