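import Pool.Agent.Work.MP_a9fb1f_gt.PertB

/-! The perturbative form of the Ricci tensor. -/

set_option autoImplicit false

open scoped Manifold ContDiff Topology ENNReal Bundle RealInnerProductSpace
open Filter Set

namespace Pool.Agent.Work.MP_a9fb1f_gt

noncomputable section

variable {S Y W : Jet} {ρ : ℝ}

lemma PertF_mul {a b A B : ℝ} (ha : |a| ≤ A) (hb : |b| ≤ B) : |a * b| ≤ A * B := by
  rw [abs_mul]
  exact mul_le_mul ha hb (abs_nonneg _) ((abs_nonneg _).trans ha)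

lemma PertF_core {ua ub l fa ha e1 e3 P1 P3 T N M : ℝ} (h1 : |ua| ≤ 4 / 10 ^ 4)
    (h2 : |ub| ≤ 4 / 10 ^ 4) (h3 : |l| ≤ 40 / 10 ^ 4) (h4 : |fa| ≤ 16 / 10 ^ 4)
    (h5 : |ha| ≤ 16 / 10 ^ 4) (h6 : |e1| ≤ 16 / 10 ^ 4) (h7 : |e3| ≤ 16 / 10 ^ 4)
    (h8 : |P1| ≤ 6 / 5) (h9 : |e1 * P3| ≤ 16 / 10 ^ 4) (h10 : |ub * P3| ≤ 4 / 10 ^ 4)
    (hT : 1 / 4 ≤ T) (h11 : P1 ^ 2 ≤ T / 48) (h12 : P1 * P3 ≤ T / 4) (hN : N ≤ 101 / 400 * T)
    (hM : 4 / 3 * T ≤ M) :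
    0 ≤ -(l + N - fa ^ 2 - (P1 + e1) ^ 2) - (ua + fa) * (2 * (ua + fa) + (ua + ha)) -
      (ub + (P1 + e1)) * (2 * (ub + (P1 + e1)) + (ub + (P3 + e3))) + M := by
  have a1 := (abs_le.1 (PertF_mul h1 h1)).2
  have a2 := (abs_le.1 (PertF_mul h2 h2)).2
  have a3 := (abs_le.1 (PertF_mul h4 h4)).2
  have a4 := (abs_le.1 (PertF_mul h4 h5)).2
  have a5 := (abs_le.1 (PertF_mul h1 h4)).2
  have a6 := (abs_le.1 (PertF_mul h1 h5)).2
  have a7 := (abs_le.1 (PertF_mul h8 h6)).2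
  have a8 := (abs_le.1 (PertF_mul h6 h6)).2
  have a9 := (abs_le.1 (PertF_mul h8 h7)).2
  have a10 := (abs_le.1 (PertF_mul h6 h7)).2
  have a11 := (abs_le.1 (PertF_mul h2 h8)).2
  have a12 := (abs_le.1 (PertF_mul h2 h6)).2
  have a13 := (abs_le.1 (PertF_mul h2 h7)).2
  have a14 := (abs_le.1 h9).2
  have a15 := (abs_le.1 h10).2
  have a16 := (abs_le.1 h3).2
  have e : -(l + N - fa ^ 2 - (P1 + e1) ^ 2) - (ua + fa) * (2 * (ua + fa) + (ua + ha)) -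
      (ub + (P1 + e1)) * (2 * (ub + (P1 + e1)) + (ub + (P3 + e3))) + M =
      M - l - N - fa * fa - P1 ^ 2 - 2 * (P1 * e1) - e1 * e1 - 3 * (ua * ua) - 5 * (ua * fa) -
        ua * ha - fa * ha - 3 * (ub * ub) - 5 * (ub * P1) - 5 * (ub * e1) - ub * P3 - ub * e3 -
        P1 * P3 - P1 * e3 - e1 * P3 - e1 * e3 := by ring
  rw [e]
  linarith only [a1, a2, a3, a4, a5, a6, a7, a8, a9, a10, a11, a12, a13, a14, a15, a16, hT, h11,
    h12, hN, hM]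

/-- The jet of the logarithm of a bubble profile. -/
def PertF_G (S : Jet) (ρ f0 f1 f2 : ℝ) : Jet :=
  ((1 / 2 : ℝ) • (S * (Jet.x2 ρ * S.inv).comp f0 f1 f2)).log

section
variable {f0 f1 f2 : ℝ}

lemma PertF_Gv : (PertF_G S ρ f0 f1 f2).v = Real.log (S.v * f0 / 2) := by
  simp only [PertF_G, Jet.log, Jet.comp_v, Jet.smul_v, Jet.mul_v]
  congr 1
  ring

lemma PertF_Ga (hS : S.v ≠ 0) (h0 : f0 ≠ 0) :
    (PertF_G S ρ f0 f1 f2).a = (1 - ρ / S.v * f1 / f0) * S.a / S.v := by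
  simp [PertF_G, Jet.log, Jet.inv]
  field_simp
  ring

lemma PertF_Gb (hS : S.v ≠ 0) (h0 : f0 ≠ 0) :
    (PertF_G S ρ f0 f1 f2).b = f1 / (S.v * f0) + (1 - ρ / S.v * f1 / f0) * S.b / S.v := by
  simp [PertF_G, Jet.log, Jet.inv]
  field_simp
  ring

lemma PertF_Gl (hS : S.v ≠ 0) (h0 : f0 ≠ 0) :
    (PertF_G S ρ f0 f1 f2).aa + (PertF_G S ρ f0 f1 f2).bb =
      (1 - ρ / S.v * f1 / f0) * (S.aa + S.bb) / S.v +
        f2 / f0 * ((ρ / S.v * S.a) ^ 2 + (1 - ρ / S.v * S.b) ^ 2) / S.v ^ 2 -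
        ((1 - ρ / S.v * f1 / f0) * S.a / S.v) ^ 2 -
        (f1 / (S.v * f0) + (1 - ρ / S.v * f1 / f0) * S.b / S.v) ^ 2 := by
  simp [PertF_G, Jet.log, Jet.inv]
  field_simp
  ring

end

lemma PertF_Rf (W F H : Jet) : Rf W W F H = Real.exp (-2 * W.v) *
    (-(F.aa + F.bb) - F.a * (2 * F.a + H.a) - F.b * (2 * F.b + H.b) +
      (Real.exp (2 * W.v - 2 * F.v) - Real.exp (2 * W.v + 2 * H.v - 4 * F.v) / 2)) := by
  have e1 : Real.exp (-2 * F.v) = Real.exp (-2 * W.v) * Real.exp (2 * W.v - 2 * F.v) := by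
    rw [← Real.exp_add]
    congr 1
    ring
  have e2 : Real.exp (2 * H.v - 4 * F.v) =
      Real.exp (-2 * W.v) * Real.exp (2 * W.v + 2 * H.v - 4 * F.v) := by
    rw [← Real.exp_add]
    congr 1
    ring
  rw [Rf, lap5, e1, e2]
  ring

lemma PertF_exp {w y a b : ℝ} (hy : 0 < y) (ha : 0 < a) (hb : 0 < b) :
    Real.exp (2 * w - 2 * (w + Real.log y + Real.log (a / 2))) -
      Real.exp (2 * w + 2 * (w + Real.log y + Real.log (b / 2)) -
        4 * (w + Real.log y + Real.log (a / 2))) / 2 =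
      (4 / a ^ 2 - 2 * b ^ 2 / a ^ 4) / y ^ 2 := by
  have e1 : 2 * w - 2 * (w + Real.log y + Real.log (a / 2)) =
      Real.log (4 / (a ^ 2 * y ^ 2)) := by
    have : 4 / (a ^ 2 * y ^ 2) = ((y * (a / 2)) ^ 2)⁻¹ := by
      field_simp
      norm_num
    rw [this, Real.log_inv, Real.log_pow, Real.log_mul hy.ne' (by positivity)]
    push_cast
    ring
  have e2 : 2 * w + 2 * (w + Real.log y + Real.log (b / 2)) -
      4 * (w + Real.log y + Real.log (a / 2)) = Real.log (4 * b ^ 2 / (a ^ 4 * y ^ 2)) := by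
    have : 4 * b ^ 2 / (a ^ 4 * y ^ 2) = (b / 2) ^ 2 / (y ^ 2 * (a / 2) ^ 4) := by
      field_simp
      norm_num
    rw [this, Real.log_div (x := (b / 2) ^ 2) (by positivity) (by positivity),
      Real.log_mul (x := y ^ 2) (by positivity) (by positivity), Real.log_pow, Real.log_pow,
      Real.log_pow]
    push_cast
    ring
  rw [e1, e2, Real.exp_log (by positivity), Real.exp_log (by positivity)]
  field_simp
  ring

lemma PertF_scale {a k x : ℝ} (hx : 0 < x) (h : |a| ≤ k / x) : |x * a| ≤ k := by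
  rw [abs_mul, abs_of_pos hx, mul_comm]
  exact (le_div_iff₀ hx).1 h

lemma pert_f (hρ : 0 < ρ) (hS : 0 < S.v) (hY : 1 / 2 ≤ Y.v) (hY1 : Y.v ≤ 1)
    (sS : Sm S (vr S.v ρ / 10 ^ 4) ρ (vr S.v ρ)) (sY : Sm Y (1 / 10 ^ 4) ρ (vr S.v ρ))
    (sW : Sm W (1 / 10 ^ 4) ρ (vr S.v ρ)) :
    0 ≤ Rf W W (W + Y.log + F0J S (Jet.x2 ρ)) (W + Y.log + H0J S (Jet.x2 ρ)) := by
  have hx : 0 < vr S.v ρ := vr_pos hρ
  have hρx : ρ ≤ vr S.v ρ := (le_vr hS hρ).1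
  have hw : bw (ρ / S.v) = vr S.v ρ / S.v := bw_div hS
  have hu : 0 < ρ / S.v := div_pos hρ hS
  have hY0 : 0 < Y.v := by linarith only [hY]
  have sU : Sm (W + Y.log) (4 / 10 ^ 4) ρ (vr S.v ρ) := by
    refine (sW.add (sY.comp (f0 := Real.log Y.v) (f1 := Y.v⁻¹) (f2 := -(Y.v ^ 2)⁻¹) hρ.le hx
      hρx)).mono hρ.le hx ?_
    have i1 : Y.v⁻¹ ≤ 2 := by
      rw [inv_le_comm₀ hY0 two_pos]
      linarith only [hY]
    have i2 : (Y.v ^ 2)⁻¹ ≤ 4 := by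
      rw [inv_le_comm₀ (by positivity) four_pos]
      linarith only [pow_le_pow_left₀ (by norm_num) hY 2]
    rw [abs_neg, abs_of_pos (by positivity), abs_of_pos (by positivity)]
    linarith only [i1, i2]
  obtain ⟨g1, -, g2⟩ := sg1_mem hu
  obtain ⟨g3, g4, g5⟩ := sg3_mem hu
  have p0 := phi_pos (ρ / S.v)
  have q0 := psi_pos hu
  have q1 := psi_sq_le (ρ / S.v)
  have q2 := psi1_mem (ρ / S.v)
  have p1 := bw_le_phi (ρ / S.v)
  have p2 := (phi_le_bp (ρ / S.v)).trans (bp_le _)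
  have p3 := phi2_le (ρ / S.v)
  have w1 := one_le_bw (ρ / S.v)
  have w2 := bw_sq (ρ / S.v)
  have eF : F0J S (Jet.x2 ρ) =
      PertF_G S ρ (phi (ρ / S.v)) (phi1 (ρ / S.v)) (phi2 (ρ / S.v)) := rfl
  have eH : H0J S (Jet.x2 ρ) =
      PertF_G S ρ (psi (ρ / S.v)) (psi1 (ρ / S.v)) (psi2 (ρ / S.v)) := rfl
  have eU : (W + Y.log).v = W.v + Real.log Y.v := rfl
  have s1 : sg1 (ρ / S.v) = 1 - ρ / S.v * phi1 (ρ / S.v) / phi (ρ / S.v) := rfl
  have s3 : sg3 (ρ / S.v) = 1 - ρ / S.v * psi1 (ρ / S.v) / psi (ρ / S.v) := rfl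
  have e1 : phi1 (ρ / S.v) = psi (ρ / S.v) / (8 * phi (ρ / S.v)) := rfl
  rw [PertF_Rf, eF, eH]
  refine mul_nonneg (Real.exp_pos _).le ?_
  generalize W + Y.log = U at sU eU ⊢
  simp only [Jet.add_v, Jet.add_a, Jet.add_b, Jet.add_aa, Jet.add_bb]
  rw [eU, PertF_Gv, PertF_Gv, PertF_exp hY0 (mul_pos hS p0) (mul_pos hS q0), add_add_add_comm,
    PertF_Gl hS.ne' p0.ne', PertF_Ga hS.ne' p0.ne', PertF_Gb hS.ne' p0.ne',
    PertF_Ga hS.ne' q0.ne', PertF_Gb hS.ne' q0.ne', ← s1, ← s3, e1]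
  obtain ⟨Sa, Sb, Saa, -, Sbb⟩ := sS
  obtain ⟨Ua, Ub, Uaa, -, Ubb⟩ := sU
  generalize sg1 (ρ / S.v) = σ1 at *
  generalize sg3 (ρ / S.v) = σ3 at *
  generalize phi (ρ / S.v) = φ at *
  generalize psi (ρ / S.v) = ψ at *
  generalize psi1 (ρ / S.v) = ψ1 at *
  generalize phi2 (ρ / S.v) = φ2 at *
  generalize bw (ρ / S.v) = w at *
  generalize vr S.v ρ = x at *
  generalize S.v = s at *
  have w0 : 0 < w := by linarith only [w1]
  obtain rfl : x = s * w := by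
    rw [hw]
    field_simp
  have b1 : |σ1 * w| ≤ 16 := by
    rw [abs_of_nonneg (by positivity)]
    exact (le_div_iff₀ w0).1 g2
  have b3 : |σ3 * w| ≤ 16 := by
    rw [abs_of_nonneg (by positivity)]
    exact (le_div_iff₀ w0).1 g5
  have r0 : 0 < ρ / (s * w) := by positivity
  have r1 : ρ / (s * w) ≤ 1 := (div_le_one hx).2 hρx
  have Sa' : |S.a| ≤ 1 / 10 ^ 4 := Sa.trans_eq (by field_simp)
  have Sb' : |S.b| ≤ 1 / 10 ^ 4 * (ρ / (s * w)) := Sb.trans_eq (by field_simp)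
  have Sb'' : |S.b| ≤ 1 / 10 ^ 4 := Sb'.trans (mul_le_of_le_one_right (by norm_num) r1)
  have Saa' : |s * w * S.aa| ≤ 1 / 10 ^ 4 := PertF_scale hx (Saa.trans_eq (by field_simp))
  have Sbb' : |s * w * S.bb| ≤ 1 / 10 ^ 4 := PertF_scale hx (Sbb.trans_eq (by field_simp))
  have Ua' : |s * w * U.a| ≤ 4 / 10 ^ 4 := PertF_scale hx Ua
  have Ub' : |s * w * U.b| ≤ 4 / 10 ^ 4 * (ρ / (s * w)) :=
    PertF_scale hx (Ub.trans_eq (by field_simp))
  have Uaa' : |(s * w) ^ 2 * U.aa| ≤ 4 / 10 ^ 4 := PertF_scale (by positivity) Uaa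
  have Ubb' : |(s * w) ^ 2 * U.bb| ≤ 4 / 10 ^ 4 := PertF_scale (by positivity) Ubb
  have ψ10 : 0 < ψ1 := by linarith only [q2.1]
  have P3 : |w * ψ1 / ψ| ≤ s * w / ρ := by
    rw [abs_of_pos (by positivity)]
    have : w * ψ1 / ψ = s * w / ρ * (1 - σ3) := by
      rw [s3]
      field_simp
      ring
    rw [this]
    exact mul_le_of_le_one_right (by positivity) (by linarith only [g3])
  have hψ : ψ ≤ 6 / 5 * φ := by
    refine le_of_sq_le_sq ?_ (by positivity)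
    linarith only [q1, sq_nonneg φ]
  have key := PertF_core (ua := s * w * U.a) (ub := s * w * U.b)
    (l := (s * w) ^ 2 * U.aa + (s * w) ^ 2 * U.bb +
      (σ1 * w * (s * w * S.aa) + σ1 * w * (s * w * S.bb)))
    (fa := σ1 * w * S.a) (ha := σ3 * w * S.a) (e1 := σ1 * w * S.b) (e3 := σ3 * w * S.b)
    (P1 := w * ψ / (8 * φ ^ 2)) (P3 := w * ψ1 / ψ) (T := w ^ 2 / φ ^ 2)
    (N := φ2 / φ * ((ρ / s * S.a) ^ 2 + (1 - ρ / s * S.b) ^ 2) * w ^ 2)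
    (M := w ^ 2 * (4 / φ ^ 2 - 2 * ψ ^ 2 / φ ^ 4) / Y.v ^ 2) Ua'
    (Ub'.trans (mul_le_of_le_one_right (by norm_num) r1)) ?_
    ((PertF_mul b1 Sa').trans_eq (by norm_num)) ((PertF_mul b3 Sa').trans_eq (by norm_num))
    ((PertF_mul b1 Sb'').trans_eq (by norm_num)) ((PertF_mul b3 Sb'').trans_eq (by norm_num))
    ?_ ((PertF_mul (PertF_mul b1 Sb') P3).trans_eq (by field_simp))
    ((PertF_mul Ub' P3).trans_eq (by field_simp)) ?_ ?_ ?_ ?_ ?_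
  · refine le_of_mul_le_mul_left (a := (s * w) ^ 2) ?_ (by positivity)
    rw [mul_zero]
    refine key.trans_eq ?_
    field_simp
    ring
  · have c1 := PertF_mul b1 Saa'
    have c2 := PertF_mul b1 Sbb'
    refine (abs_add_le _ _).trans ((add_le_add ((abs_add_le _ _).trans (add_le_add Uaa' Ubb'))
      ((abs_add_le _ _).trans (add_le_add c1 c2))).trans (by norm_num))
  · rw [abs_of_pos (by positivity), div_le_iff₀ (by positivity)]
    have := mul_le_mul p1 hψ q0.le (by positivity)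
    linarith only [this]
  · rw [le_div_iff₀ (by positivity)]
    linarith only [pow_le_pow_left₀ p0.le p2 2]
  · rw [div_pow, div_div, div_le_div_iff₀ (by positivity) (by positivity)]
    have := mul_le_mul_of_nonneg_left q1 (show 0 ≤ 16 * w ^ 2 * φ ^ 2 by positivity)
    linarith only [this]
  · have : w * ψ / (8 * φ ^ 2) * (w * ψ1 / ψ) = w ^ 2 / φ ^ 2 / 8 * ψ1 := by field_simp
    rw [this]
    have := mul_le_mul_of_nonneg_left q2.2 (show 0 ≤ w ^ 2 / φ ^ 2 / 8 by positivity)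
    linarith only [this]
  · have uw : |ρ / s| ≤ w := by
      rw [abs_of_pos hu]
      exact le_of_sq_le_sq (by linarith only [w2]) w0.le
    have n1 := PertF_mul uw Sa'
    have n2 := PertF_mul uw Sb''
    have n3 : (ρ / s * S.a) ^ 2 ≤ (w * (1 / 10 ^ 4)) ^ 2 := sq_le_sq' (abs_le.1 n1).1 (abs_le.1 n1).2
    have n4 : (1 - ρ / s * S.b) ^ 2 ≤ (w * (1 + 1 / 10 ^ 4)) ^ 2 :=
      sq_le_sq' (by linarith only [(abs_le.1 n2).2, w1]) (by linarith only [(abs_le.1 n2).1, w1])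
    have n5 : (ρ / s * S.a) ^ 2 + (1 - ρ / s * S.b) ^ 2 ≤ 101 / 100 * w ^ 2 := by
      linarith only [n3, n4, sq_nonneg w]
    have n6 := mul_le_mul p3 n5 (by positivity) (by positivity)
    refine (mul_le_mul_of_nonneg_right n6 (sq_nonneg w)).trans_eq ?_
    field_simp
    norm_num
  · have m1 : 4 / 3 * (w ^ 2 / φ ^ 2) ≤ w ^ 2 * (4 / φ ^ 2 - 2 * ψ ^ 2 / φ ^ 4) := by
      have : w ^ 2 * (4 / φ ^ 2 - 2 * ψ ^ 2 / φ ^ 4) - 4 / 3 * (w ^ 2 / φ ^ 2) =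
          2 / 3 * (w ^ 2 / φ ^ 4) * (4 * φ ^ 2 - 3 * ψ ^ 2) := by
        field_simp
        ring
      have h2 : 0 ≤ 2 / 3 * (w ^ 2 / φ ^ 4) * (4 * φ ^ 2 - 3 * ψ ^ 2) :=
        mul_nonneg (by positivity) (by linarith only [q1])
      linarith only [this, h2]
    refine m1.trans (le_div_self (le_trans (by positivity) m1) (by positivity) ?_)
    exact pow_le_one₀ hY0.le hY1

end

end Pool.Agent.Work.MP_a9fb1f_gt
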